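import Pool.Agent.Run7.h911.RC1

/-!
# Several representations of `GL(2)`: the main inequality
-/

set_option autoImplicit false

namespace Run7.h911.RC

open NumberField IsDedekindDomain Filter Topology
open Pool.Agent.TH861.GL3 (PL qq)
open Pool.Agent.H921R2.TatePole (Lam)

variable {K : Type*} [Field K] [NumberField K] {S : Finset (HeightOneSpectrum (𝓞 K))}

/-- the sum over the places -/
noncomputable def Z (S : Finset (HeightOneSpectrum (𝓞 K))) (σ : ℝ) : ℝ := ∑' v : PL S, (qq v.1 : ℝ) ^ (-σ)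

theorem Z_bdd (S : Finset (HeightOneSpectrum (𝓞 K))) :
    ∃ C : ℝ, ∀ᶠ σ : ℝ in 𝓝[>] 1, |Z S σ - Lam σ| ≤ C := by
  obtain ⟨C, hC⟩ := Pool.Agent.H921R2.TatePole.prime_sum_bdd (K := K)
  refine ⟨C + S.card, ?_⟩
  filter_upwards [hC, self_mem_nhdsWithin] with σ h1 h2
  have hσ : (1 : ℝ) < σ := h2
  have hs := Pool.Agent.H921R2.TatePole.nm_summable (K := K) hσ
  have h3 : ∑' v : HeightOneSpectrum (𝓞 K), (qq v : ℝ) ^ (-σ) =
      Z S σ + ∑ v ∈ S, (qq v : ℝ) ^ (-σ) := by
    have := (hs.sum_add_tsum_compl (s := S)).symm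
    rw [add_comm] at this
    exact this
  have h4 : ∑ v ∈ S, (qq v : ℝ) ^ (-σ) ≤ S.card := by
    calc ∑ v ∈ S, (qq v : ℝ) ^ (-σ) ≤ ∑ v ∈ S, (1 : ℝ) := by
          refine Finset.sum_le_sum fun v _ => ?_
          have := Pool.Agent.TH861.GL3.one_lt_qq v
          exact Real.rpow_le_one_of_one_le_of_nonpos this.le (by linarith)
      _ = S.card := by simp
  have h5 : 0 ≤ ∑ v ∈ S, (qq v : ℝ) ^ (-σ) := Finset.sum_nonneg fun v _ => by positivity
  have h1' : |∑' v : HeightOneSpectrum (𝓞 K), (qq v : ℝ) ^ (-σ) - Lam σ| ≤ C := h1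
  rw [h3, abs_le] at h1'
  rw [abs_le]
  constructor <;> linarith

/-- the prime powers contribute a bounded amount -/
theorem wt_bound (S : Finset (HeightOneSpectrum (𝓞 K))) : ∃ C : ℝ, ∀ σ : ℝ, 1 < σ →
    |∑' x : PL S × ℕ, wt σ x - Z S σ| ≤ C := by
  have hs2 := Pool.Agent.TH861.GL3.summable_qq (S := S) (σ := 2) (by norm_num)
  refine ⟨2 * ∑' v : PL S, (qq v.1 : ℝ) ^ (-2 : ℝ), fun σ hσ => ?_⟩
  have hsum := summable_wt (S := S) hσ
  have hZ := Pool.Agent.TH861.GL3.summable_qq (S := S) hσ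
  have hfib := hsum.prod_factor
  rw [hsum.tsum_prod]
  have hlow : Z S σ ≤ ∑' v : PL S, ∑' k : ℕ, wt σ (v, k) := by
    refine Summable.tsum_le_tsum (fun v => ?_) hZ hsum.prod
    rw [← wt_zero]
    exact (hfib v).le_tsum 0 fun k _ => wt_nonneg σ _
  have hup : ∑' v : PL S, ∑' k : ℕ, wt σ (v, k) ≤ Z S σ + 2 * ∑' v : PL S, (qq v.1 : ℝ) ^ (-2 : ℝ) := by
    have hterm : ∀ v : PL S, ∑' k : ℕ, wt σ (v, k) ≤
        (qq v.1 : ℝ) ^ (-σ) + 2 * (qq v.1 : ℝ) ^ (-2 : ℝ) := by
      intro v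
      rw [(hfib v).tsum_eq_zero_add, wt_zero]
      have hq := Pool.Agent.TH861.GL3.qq_pos v.1
      have hq2 : (2 : ℝ) ≤ qq v.1 := by exact_mod_cast Pool.Agent.TH861.GL3.two_le_qq v.1
      set q : ℝ := (qq v.1 : ℝ) with hqd
      have hqi : q⁻¹ ≤ 1 / 2 := by
        rw [inv_le_comm₀ hq (by norm_num)]
        norm_num
        exact hq2
      have hqi0 : 0 < q⁻¹ := inv_pos.2 hq
      have hg := (hasSum_geometric_of_lt_one hqi0.le (by linarith : q⁻¹ < 1)).mul_left (q⁻¹ ^ 2)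
      have hle : ∑' k : ℕ, wt σ (v, k + 1) ≤ q⁻¹ ^ 2 * (1 - q⁻¹)⁻¹ := by
        rw [← hg.tsum_eq]
        refine Summable.tsum_le_tsum (fun k => ?_) ((summable_nat_add_iff 1).2 (hfib v)) hg.summable
        unfold wt
        have e2 : ((q : ℝ) ^ (-σ)) ^ (k + 1 + 1) ≤ q⁻¹ ^ 2 * q⁻¹ ^ k := by
          rw [← pow_add, show 2 + k = k + 1 + 1 by ring]
          refine pow_le_pow_left₀ (by positivity) ?_ _
          rw [← Real.rpow_neg_one]
          exact Real.rpow_le_rpow_of_exponent_le (by linarith) (by linarith)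
        refine le_trans (div_le_self (by positivity) ?_) e2
        push_cast
        have : (0 : ℝ) ≤ k := by positivity
        linarith
      have hinv : (1 - q⁻¹)⁻¹ ≤ 2 := by
        rw [inv_le_comm₀ (by linarith) (by norm_num)]
        linarith
      have hq22 : q ^ (-2 : ℝ) = q⁻¹ ^ 2 := by
        rw [Real.rpow_neg hq.le, inv_pow]
        norm_num
      rw [hq22]
      have : q⁻¹ ^ 2 * (1 - q⁻¹)⁻¹ ≤ q⁻¹ ^ 2 * 2 := mul_le_mul_of_nonneg_left hinv (by positivity)
      linarith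
    have := Summable.tsum_le_tsum hterm hsum.prod (hZ.add (hs2.mul_left 2))
    rw [hZ.tsum_add (hs2.mul_left 2), tsum_mul_left] at this
    exact this
  rw [abs_le]
  constructor
  · have : 0 ≤ 2 * ∑' v : PL S, (qq v.1 : ℝ) ^ (-2 : ℝ) := by
      have : 0 ≤ ∑' v : PL S, (qq v.1 : ℝ) ^ (-2 : ℝ) := tsum_nonneg fun v => by positivity
      positivity
    linarith
  · linarith

variable {m : ℕ} {α : Fin m → PL S → Fin 2 → ℂ}

/-- the value of the logarithm of the `L`-function of a pair -/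
theorem asymp (h : Family α) (c d : J m) : ∃ C : ℝ, ∀ᶠ σ : ℝ in 𝓝[>] 1,
    |∑' x : PL S × ℕ, tt α c x.1 (x.2 + 1) * tt α d x.1 (x.2 + 1) * wt σ x -
      (if c = d then Z S σ else 0)| ≤ C := by
  -- from a holomorphic function
  have key : ∀ (f : PL S → ℕ → ℂ) (g : PL S → ℕ → ℝ), (∀ v k, f v k = (g v k : ℂ)) →
      (∃ F : ℂ → ℂ, AnalyticAt ℂ F 1 ∧ F 1 ≠ 0 ∧ ∀ s : ℂ, 1 < s.re → F s = Complex.exp (logL f s)) →
      ∃ C : ℝ, ∀ᶠ σ : ℝ in 𝓝[>] 1, |∑' x : PL S × ℕ, g x.1 (x.2 + 1) * wt σ x| ≤ C := by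
    intro f g hfg ⟨F, hF, hF1, hE⟩
    obtain ⟨C, hC⟩ := log_bdd hF hF1
    refine ⟨C, ?_⟩
    filter_upwards [hC, self_mem_nhdsWithin] with σ h1 h2
    have hσ : (1 : ℝ) < σ := h2
    have e := hE (σ : ℂ) (by simpa using hσ)
    rw [logL_real f g hfg] at e
    have h3 := h1.2
    rw [e, Complex.norm_exp, Complex.ofReal_re, Real.log_exp] at h3
    exact h3
  rcases eq_or_ne c d with rfl | hcd
  · simp only [if_true]
    cases c with
    | none =>
      obtain ⟨C, hC⟩ := wt_bound S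
      refine ⟨C, ?_⟩
      filter_upwards [self_mem_nhdsWithin] with σ h2
      have := hC σ h2
      simpa only [tt, one_mul] using this
    | some c =>
      obtain ⟨F, hF, hF1, hE⟩ := h.same c.1 c.2
      obtain ⟨C, hC⟩ := log_bdd hF hF1
      obtain ⟨C', hC'⟩ := Z_bdd S
      refine ⟨C + C', ?_⟩
      filter_upwards [hC, hC', self_mem_nhdsWithin] with σ h1 h1' h2
      have hσ : (1 : ℝ) < σ := h2
      have e := hE (σ : ℂ) (by simpa using hσ)
      rw [logL_real _ (fun v k => tt α (some c) v k * tt α (some c) v k) (fun v k => by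
        rw [conj_tr (h.unitary _ _), tr_eq (h.unitary _ _)]
        simp only [tt]
        push_cast
        ring)] at e
      set R := ∑' x : PL S × ℕ, tt α (some c) x.1 (x.2 + 1) * tt α (some c) x.1 (x.2 + 1) * wt σ x
        with hR
      have h3 : Real.log ‖F (σ : ℂ)‖ = R - Lam σ := by
        rw [e, norm_mul, Complex.norm_exp, Complex.ofReal_re, Real.log_mul, Real.log_exp]
        · unfold Lam
          rw [one_div, Real.log_inv]
          have : ‖(σ : ℂ) - 1‖ = σ - 1 := by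
            rw [← Complex.ofReal_one, ← Complex.ofReal_sub, Complex.norm_real,
              Real.norm_of_nonneg (by linarith)]
          rw [this]
          ring
        · rw [norm_ne_zero_iff]
          intro h4
          have h5 : (σ : ℂ) = 1 := sub_eq_zero.1 h4
          have h6 : σ = 1 := by exact_mod_cast h5
          linarith
        · exact (Real.exp_pos _).ne'
      have h4 := h1.2
      rw [h3, abs_le] at h4
      rw [abs_le] at h1' ⊢
      constructor <;> linarith [h4.1, h4.2, h1'.1, h1'.2]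
  · simp only [if_neg hcd, sub_zero]
    cases c with
    | none =>
      cases d with
      | none => exact absurd rfl hcd
      | some d =>
        refine key (fun v k => tr d.2 (α d.1 v) k) (fun v k => tt α none v k * tt α (some d) v k)
          (fun v k => ?_) (h.standard d.1 d.2)
        simp only [tt, one_mul]
        exact tr_eq (h.unitary _ _) _ _
    | some c =>
      cases d with
      | none =>
        refine key (fun v k => tr c.2 (α c.1 v) k) (fun v k => tt α (some c) v k * tt α none v k)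
          (fun v k => ?_) (h.standard c.1 c.2)
        simp only [tt, mul_one]
        exact tr_eq (h.unitary _ _) _ _
      | some d =>
        have hne : (c.1, c.2) ≠ (d.1, d.2) := fun h => hcd (by rw [Prod.mk.eta, Prod.mk.eta] at h; rw [h])
        refine key (fun v k => tr c.2 (α c.1 v) k * (starRingEnd ℂ) (tr d.2 (α d.1 v) k))
          (fun v k => tt α (some c) v k * tt α (some d) v k)
          (fun v k => ?_) (h.distinct c.1 d.1 c.2 d.2 hne)
        rw [conj_tr (h.unitary _ _), tr_eq (h.unitary _ _), tr_eq (h.unitary _ _)]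
        simp only [tt]
        push_cast
        ring

/-- **The main inequality.** -/
theorem bilinear (h : Family α) (u w : J m → ℝ)
    (hpos : ∀ (v : PL S) (k : ℕ), 0 ≤ (∑ c, u c * tt α c v (k + 1)) * ∑ c, w c * tt α c v (k + 1)) :
    ∃ C : ℝ, ∀ᶠ σ : ℝ in 𝓝[>] 1,
      (Summable fun v : PL S => (∑ c, u c * tt α c v 1) * (∑ c, w c * tt α c v 1) * (qq v.1 : ℝ) ^ (-σ)) ∧
      ∑' v : PL S, (∑ c, u c * tt α c v 1) * (∑ c, w c * tt α c v 1) * (qq v.1 : ℝ) ^ (-σ) ≤
        (∑ c, u c * w c) * Z S σ + C := by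
  choose C hC using fun c d => asymp h c d
  refine ⟨∑ c, ∑ d, |u c * w d| * C c d, ?_⟩
  have hC' : ∀ᶠ σ : ℝ in 𝓝[>] 1, ∀ c d,
      |∑' x : PL S × ℕ, tt α c x.1 (x.2 + 1) * tt α d x.1 (x.2 + 1) * wt σ x -
      (if c = d then Z S σ else 0)| ≤ C c d :=
    eventually_all.2 fun c => eventually_all.2 fun d => hC c d
  filter_upwards [hC', self_mem_nhdsWithin] with σ h1 h2
  have hσ : (1 : ℝ) < σ := h2
  set G : PL S × ℕ → ℝ := fun x =>
    (∑ c, u c * tt α c x.1 (x.2 + 1)) * (∑ d, w d * tt α d x.1 (x.2 + 1)) * wt σ x with hG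
  have hexp : ∀ x, G x = ∑ c, ∑ d, (u c * w d) *
      (tt α c x.1 (x.2 + 1) * tt α d x.1 (x.2 + 1) * wt σ x) := by
    intro x
    rw [hG]
    dsimp only
    rw [Finset.sum_mul_sum, Finset.sum_mul]
    refine Finset.sum_congr rfl fun c _ => ?_
    rw [Finset.sum_mul]
    refine Finset.sum_congr rfl fun d _ => ?_
    ring
  have hs : ∀ c d, Summable fun x : PL S × ℕ =>
      (u c * w d) * (tt α c x.1 (x.2 + 1) * tt α d x.1 (x.2 + 1) * wt σ x) :=
    fun c d => (summable_pair h c d hσ).mul_left _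
  have hGs : Summable G := by
    rw [show G = fun x => ∑ c, ∑ d, (u c * w d) *
      (tt α c x.1 (x.2 + 1) * tt α d x.1 (x.2 + 1) * wt σ x) from funext hexp]
    exact summable_sum fun c _ => summable_sum fun d _ => hs c d
  have hGt : ∑' x, G x = ∑ c, ∑ d, (u c * w d) *
      ∑' x : PL S × ℕ, tt α c x.1 (x.2 + 1) * tt α d x.1 (x.2 + 1) * wt σ x := by
    rw [tsum_congr hexp, Summable.tsum_finsetSum fun c _ => summable_sum fun d _ => hs c d]
    refine Finset.sum_congr rfl fun c _ => ?_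
    rw [Summable.tsum_finsetSum fun d _ => hs c d]
    refine Finset.sum_congr rfl fun d _ => ?_
    rw [tsum_mul_left]
  have hG0 : ∀ x, 0 ≤ G x := fun x => mul_nonneg (hpos x.1 x.2) (wt_nonneg σ x)
  have hfib := hGs.prod_factor
  have hterm : ∀ v : PL S, (∑ c, u c * tt α c v 1) * (∑ c, w c * tt α c v 1) * (qq v.1 : ℝ) ^ (-σ) =
      G (v, 0) := by
    intro v
    rw [hG]
    dsimp only
    rw [wt_zero]
  have hinj : Function.Injective fun v : PL S => ((v, 0) : PL S × ℕ) :=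
    fun v w hvw => (Prod.ext_iff.1 hvw).1
  have hs0 : Summable fun v : PL S =>
      (∑ c, u c * tt α c v 1) * (∑ c, w c * tt α c v 1) * (qq v.1 : ℝ) ^ (-σ) := by
    refine (hGs.comp_injective hinj).congr fun v => ?_
    rw [hterm v]
    rfl
  refine ⟨hs0, ?_⟩
  have hle : ∑' v : PL S, (∑ c, u c * tt α c v 1) * (∑ c, w c * tt α c v 1) * (qq v.1 : ℝ) ^ (-σ) ≤
      ∑' x, G x := by
    rw [hGs.tsum_prod]
    refine Summable.tsum_le_tsum (fun v => ?_) hs0 hGs.prod
    rw [hterm v]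
    exact (hfib v).le_tsum 0 fun k _ => hG0 _
  refine hle.trans ?_
  rw [hGt]
  have h3 : ∀ c d, (u c * w d) *
      ∑' x : PL S × ℕ, tt α c x.1 (x.2 + 1) * tt α d x.1 (x.2 + 1) * wt σ x ≤
      (if c = d then u c * w d * Z S σ else 0) + |u c * w d| * C c d := by
    intro c d
    have h4 := h1 c d
    set R := ∑' x : PL S × ℕ, tt α c x.1 (x.2 + 1) * tt α d x.1 (x.2 + 1) * wt σ x
    have h5 : (u c * w d) * (R - (if c = d then Z S σ else 0)) ≤ |u c * w d| * C c d := by
      refine (le_abs_self _).trans ?_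
      rw [abs_mul]
      exact mul_le_mul_of_nonneg_left h4 (abs_nonneg _)
    have h6 : (u c * w d) * (if c = d then Z S σ else 0) =
        if c = d then u c * w d * Z S σ else 0 := by
      split_ifs <;> ring
    linarith [mul_sub (u c * w d) R (if c = d then Z S σ else 0)]
  calc ∑ c, ∑ d, (u c * w d) *
      ∑' x : PL S × ℕ, tt α c x.1 (x.2 + 1) * tt α d x.1 (x.2 + 1) * wt σ x
      ≤ ∑ c, ∑ d, ((if c = d then u c * w d * Z S σ else 0) + |u c * w d| * C c d) :=
        Finset.sum_le_sum fun c _ => Finset.sum_le_sum fun d _ => h3 c d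
    _ = _ := by
        simp only [Finset.sum_add_distrib, Finset.sum_ite_eq, Finset.mem_univ, if_true,
          Finset.sum_mul]

/-- from a bound for the test function to a bound for the set -/
theorem set_bound (h : Family α) (u w : J m → ℝ)
    (hpos : ∀ (v : PL S) (k : ℕ), 0 ≤ (∑ c, u c * tt α c v (k + 1)) * ∑ c, w c * tt α c v (k + 1))
    {δ M : ℝ} (hM : 0 < M) (hδ : ∑ c, u c * w c ≤ δ * M) (P : PL S → Prop) [DecidablePred P]
    (hP : ∀ v, P v → M ≤ (∑ c, u c * tt α c v 1) * ∑ c, w c * tt α c v 1) :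
    ∃ C : ℝ, ∀ σ : ℝ, 1 < σ →
      ∑' v : PL S, (if P v then (qq v.1 : ℝ) ^ (-σ) else 0) ≤ δ * Z S σ + C := by
  obtain ⟨C, hC⟩ := bilinear h u w hpos
  have hδ0 : ∀ σ : ℝ, 1 < σ → 0 ≤ Z S σ := fun σ _ => tsum_nonneg fun v => by positivity
  have hPs : ∀ σ : ℝ, 1 < σ → Summable fun v : PL S => if P v then (qq v.1 : ℝ) ^ (-σ) else 0 := by
    intro σ hσ
    refine Summable.of_nonneg_of_le (fun v => ?_) (fun v => ?_)
      (Pool.Agent.TH861.GL3.summable_qq (S := S) hσ)
    · split_ifs <;> positivity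
    · split_ifs
      · exact le_rfl
      · positivity
  have hnear : ∀ᶠ σ : ℝ in 𝓝[>] 1,
      ∑' v : PL S, (if P v then (qq v.1 : ℝ) ^ (-σ) else 0) ≤ δ * Z S σ + C / M := by
    filter_upwards [hC, self_mem_nhdsWithin] with σ h1 h2
    have hσ : (1 : ℝ) < σ := h2
    obtain ⟨h3, h4⟩ := h1
    have h5 : M * ∑' v : PL S, (if P v then (qq v.1 : ℝ) ^ (-σ) else 0) ≤
        ∑' v : PL S, (∑ c, u c * tt α c v 1) * (∑ c, w c * tt α c v 1) * (qq v.1 : ℝ) ^ (-σ) := by
      rw [← tsum_mul_left]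
      refine Summable.tsum_le_tsum (fun v => ?_) ((hPs σ hσ).mul_left M) h3
      have hq : 0 ≤ (qq v.1 : ℝ) ^ (-σ) := by positivity
      split_ifs with hv
      · exact mul_le_mul_of_nonneg_right (hP v hv) hq
      · rw [mul_zero]
        exact mul_nonneg (hpos v 0) hq
    have h6 : (∑ c, u c * w c) * Z S σ ≤ δ * M * Z S σ :=
      mul_le_mul_of_nonneg_right hδ (hδ0 σ hσ)
    have h7 : M * ∑' v : PL S, (if P v then (qq v.1 : ℝ) ^ (-σ) else 0) ≤
        M * (δ * Z S σ + C / M) := by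
      have : M * (δ * Z S σ + C / M) = δ * M * Z S σ + C := by field_simp
      rw [this]
      linarith
    exact le_of_mul_le_mul_left h7 hM
  -- extension to all `σ > 1`
  obtain ⟨ε, hε, hball⟩ := (mem_nhdsGT_iff_exists_Ioo_subset (a := (1 : ℝ))).1 hnear
  have hε1 : (1 : ℝ) < ε := hε
  set σ₀ := (1 + ε) / 2 with hσ₀
  have hσ₀1 : 1 < σ₀ := by rw [hσ₀]; linarith
  have hσ₀2 : σ₀ < ε := by rw [hσ₀]; linarith
  refine ⟨|C / M| + Z S σ₀ + |δ| * Z S σ₀, fun σ hσ => ?_⟩
  have hZ0 := hδ0 σ₀ hσ₀1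
  rcases lt_or_ge σ ε with h1 | h1
  · have h2 : ∑' v : PL S, (if P v then (qq v.1 : ℝ) ^ (-σ) else 0) ≤ δ * Z S σ + C / M :=
      hball ⟨hσ, h1⟩
    have h3 := le_abs_self (C / M)
    have h4 : 0 ≤ |δ| * Z S σ₀ := by positivity
    linarith
  · have hmono : ∀ v : PL S, (qq v.1 : ℝ) ^ (-σ) ≤ (qq v.1 : ℝ) ^ (-σ₀) := fun v =>
      Real.rpow_le_rpow_of_exponent_le (Pool.Agent.TH861.GL3.one_lt_qq v.1).le (by linarith)
    have hZle : Z S σ ≤ Z S σ₀ :=
      Summable.tsum_le_tsum hmono (Pool.Agent.TH861.GL3.summable_qq hσ)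
        (Pool.Agent.TH861.GL3.summable_qq hσ₀1)
    have h2 : ∑' v : PL S, (if P v then (qq v.1 : ℝ) ^ (-σ) else 0) ≤ Z S σ := by
      refine Summable.tsum_le_tsum (fun v => ?_) (hPs σ hσ) (Pool.Agent.TH861.GL3.summable_qq hσ)
      split_ifs
      · exact le_rfl
      · positivity
    have h3 : -(|δ| * Z S σ₀) ≤ δ * Z S σ := by
      have h4 : |δ * Z S σ| ≤ |δ| * Z S σ₀ := by
        rw [abs_mul, abs_of_nonneg (hδ0 σ hσ)]
        exact mul_le_mul_of_nonneg_left hZle (abs_nonneg _)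
      linarith [neg_abs_le (δ * Z S σ)]
    have h5 := abs_nonneg (C / M)
    linarith

end Run7.h911.RC
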