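import Pool.Agent.Run7.h911.MW1

/-!
# Joint distribution of the angles of `m` modular forms of different weights: boxes and moments
-/

set_option autoImplicit false

namespace Run7.h911.MW

open NumberField IsDedekindDomain Filter Topology
open Run7.h911.NT (LRegular avg avg_add avg_mul avg_one avg_mono)
open Run7.h911.ST (U U_zero U_one U_rec U_cont Lam Lam_U Lam_add Lam_mul mu ind ind_nonneg ind_le_one)
open Run7.h911.VS (Tri interval)

variable {K : Type} [Field K] [NumberField K] {m : ℕ}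
variable {θ : Fin m → HeightOneSpectrum (𝓞 K) → ℝ} {D : ℕ}

theorem tele {ι : Type*} [DecidableEq ι] (s : Finset ι) {x y : ι → ℝ} (h0 : ∀ i ∈ s, 0 ≤ x i)
    (h1 : ∀ i ∈ s, x i ≤ y i) :
    ∏ i ∈ s, y i - ∏ i ∈ s, x i ≤ ∑ j ∈ s, (y j - x j) * ∏ i ∈ s.erase j, y i := by
  induction s using Finset.induction_on with
  | empty => simp
  | insert a s ha ih =>
    have h0' : ∀ i ∈ s, 0 ≤ x i := fun i hi => h0 i (Finset.mem_insert_of_mem hi)
    have h1' : ∀ i ∈ s, x i ≤ y i := fun i hi => h1 i (Finset.mem_insert_of_mem hi)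
    have ih' := ih h0' h1'
    rw [Finset.prod_insert ha, Finset.prod_insert ha, Finset.sum_insert ha, Finset.erase_insert ha]
    have ha0 := h0 a (Finset.mem_insert_self a s)
    have ha1 := h1 a (Finset.mem_insert_self a s)
    have e : ∑ j ∈ s, (y j - x j) * ∏ i ∈ (insert a s).erase j, y i =
        y a * ∑ j ∈ s, (y j - x j) * ∏ i ∈ s.erase j, y i := by
      rw [Finset.mul_sum]
      refine Finset.sum_congr rfl fun j hj => ?_
      have hja : a ≠ j := fun h => ha (h ▸ hj)
      rw [Finset.erase_insert_of_ne hja, Finset.prod_insert (fun h => ha (Finset.mem_of_mem_erase h))]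
      ring
    rw [e]
    have hxy : ∏ i ∈ s, x i ≤ ∏ i ∈ s, y i := Finset.prod_le_prod h0' h1'
    have i1 := mul_le_mul_of_nonneg_left ih' (ha0.trans ha1)
    have i2 := mul_le_mul_of_nonneg_left hxy (sub_nonneg.2 ha1)
    nlinarith

theorem mu_le_Lam' {g : ℝ → ℝ} (hg : Continuous g) {a b : ℝ} (h0 : 0 ≤ a) (hab : a ≤ b) (hb : b ≤ Real.pi)
    (h : ∀ x ∈ Set.Icc 0 Real.pi, ind a b x ≤ g x) : mu a b ≤ Lam g := by
  unfold Lam mu
  have hp := Real.pi_pos
  refine mul_le_mul_of_nonneg_left ?_ (by positivity)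
  have hint : ∀ s t : ℝ, IntervalIntegrable (fun t => g t * Real.sin t ^ 2) MeasureTheory.volume s t :=
    fun s t => Continuous.intervalIntegrable (by fun_prop) _ _
  have hg0 : ∀ x ∈ Set.Icc 0 Real.pi, 0 ≤ g x := fun x hx => (ind_nonneg a b x).trans (h x hx)
  rw [← intervalIntegral.integral_add_adjacent_intervals (hint 0 a) (hint a Real.pi),
    ← intervalIntegral.integral_add_adjacent_intervals (hint a b) (hint b Real.pi)]
  have i1 : 0 ≤ ∫ t in (0)..a, g t * Real.sin t ^ 2 :=
    intervalIntegral.integral_nonneg h0 fun t ht =>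
      mul_nonneg (hg0 t ⟨ht.1, ht.2.trans (hab.trans hb)⟩) (sq_nonneg _)
  have i3 : 0 ≤ ∫ t in b..Real.pi, g t * Real.sin t ^ 2 :=
    intervalIntegral.integral_nonneg hb fun t ht =>
      mul_nonneg (hg0 t ⟨(h0.trans hab).trans ht.1, ht.2⟩) (sq_nonneg _)
  have i2 : ∫ t in a..b, Real.sin t ^ 2 ≤ ∫ t in a..b, g t * Real.sin t ^ 2 := by
    refine intervalIntegral.integral_mono_on hab (Continuous.intervalIntegrable (by fun_prop) _ _) (hint _ _)
      fun t ht => ?_
    have h1 := h t ⟨h0.trans ht.1, ht.2.trans hb⟩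
    have h2 : ind a b t = 1 := by
      unfold ind
      rw [if_pos ht]
    rw [h2] at h1
    have := mul_le_mul_of_nonneg_right h1 (sq_nonneg (Real.sin t))
    linarith
  linarith

/-- the sum over the places is monotone, on the angles -/
theorem mu_le_one {a b : ℝ} (h0 : 0 ≤ a) (hab : a ≤ b) (hb : b ≤ Real.pi) : mu a b ≤ 1 := by
  have h := mu_le_Lam' (g := fun _ => 1) continuous_const h0 hab hb fun x _ => ind_le_one a b x
  rwa [Run7.h911.VS.Lam_const] at h

/-- **Boxes.** -/
theorem box (hD : 0 < D) (h : Forms D θ) {p q : Fin m} (hpq : p ≠ q) {a b : Fin m → ℝ}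
    (h0 : ∀ i, 0 ≤ a i) (hab : ∀ i, a i ≤ b i) (hb : ∀ i, b i ≤ Real.pi) {δ : ℝ} (hδ : 0 < δ) :
    ∀ᶠ N : ℕ in atTop, |avg (fun v => ∏ i, ind (a i) (b i) (θ i v)) N - ∏ i, mu (a i) (b i)| ≤
      mu (a p) (b p) * mu (a q) (b q) * ((m - 2 : ℕ) * (24 / D) * (1 + 12 / D) ^ (m - 3)) + δ := by
  classical
  have hD0 : (0 : ℝ) < D := by exact_mod_cast hD
  choose gp gm gpT gmT gp1 gm1 gpL gmL using fun i => interval hD (h0 i) (hab i) (hb i)
  set R : Finset (Fin m) := (Finset.univ.erase p).erase q with hR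
  have hRmem : ∀ i, i ∈ R ↔ i ≠ p ∧ i ≠ q := by
    intro i
    rw [hR, Finset.mem_erase, Finset.mem_erase]
    simp [and_comm]
  have hRcard : R.card = m - 2 := by
    rw [hR, Finset.card_erase_of_mem (Finset.mem_erase.2 ⟨hpq.symm, Finset.mem_univ q⟩),
      Finset.card_erase_of_mem (Finset.mem_univ p), Finset.card_univ, Fintype.card_fin]
    omega
  have hsplit : ∀ f : Fin m → ℝ, ∏ i, f i = f p * f q * ∏ i ∈ R, f i := by
    intro f
    rw [hR, mul_assoc, Finset.mul_prod_erase _ _ (Finset.mem_erase.2 ⟨hpq.symm, Finset.mem_univ q⟩),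
      Finset.mul_prod_erase _ _ (Finset.mem_univ p)]
  -- the measures
  set μ : Fin m → ℝ := fun i => mu (a i) (b i) with hμ
  have hμ0 : ∀ i, 0 ≤ μ i := fun i => Run7.h911.VS.mu_nonneg' (hab i)
  have hμ1 : ∀ i, μ i ≤ 1 := fun i => mu_le_one (h0 i) (hab i) (hb i)
  set ε : ℝ := 12 / D with hε
  have hε0 : 0 < ε := by rw [hε]; positivity
  set Fu : Fin m → ℝ → ℝ := fun i => if i = p ∨ i = q then ind (a i) (b i) else gp i with hFu
  set Λ : Fin m → ℝ := fun i => if i = p ∨ i = q then μ i else Lam (gp i) with hΛ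
  have Fup : ∀ i, (i = p ∨ i = q) → Fu i = ind (a i) (b i) := fun i hi => by rw [hFu]; exact if_pos hi
  have Fur : ∀ i ∈ R, Fu i = gp i := fun i hi => by
    rw [hFu]
    refine if_neg fun h' => ?_
    rcases h' with h' | h'
    · exact ((hRmem i).1 hi).1 h'
    · exact ((hRmem i).1 hi).2 h'
  have Λp : ∀ i, (i = p ∨ i = q) → Λ i = μ i := fun i hi => by rw [hΛ]; exact if_pos hi
  have Λr : ∀ i ∈ R, Λ i = Lam (gp i) := fun i hi => by
    rw [hΛ]
    refine if_neg fun h' => ?_
    rcases h' with h' | h'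
    · exact ((hRmem i).1 hi).1 h'
    · exact ((hRmem i).1 hi).2 h'
  have Λ0 : ∀ i ∈ R, μ i ≤ Λ i := fun i hi => by
    rw [Λr i hi]
    exact mu_le_Lam' (gpT i).cont (h0 i) (hab i) (hb i) (gp1 i)
  have Λ1 : ∀ i ∈ R, Λ i ≤ μ i + ε := fun i hi => by
    rw [Λr i hi]
    exact gpL i
  have hadm : ∀ i, Adm K (ind (a i) (b i)) (μ i) := fun i => adm_ind (h0 i) (hab i) (hb i)
  have hup : Tendsto (avg fun v => ∏ i, Fu i (θ i v)) atTop (𝓝 (∏ i, Λ i)) := by
    refine prod_law hD h hpq ?_ ?_ fun i hip hiq => ?_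
    · rw [Fup p (Or.inl rfl), Λp p (Or.inl rfl)]
      exact hadm p
    · rw [Fup q (Or.inr rfl), Λp q (Or.inr rfl)]
      exact hadm q
    · have hi : i ∈ R := (hRmem i).2 ⟨hip, hiq⟩
      rw [Fur i hi, Λr i hi]
      exact ⟨gpT i, rfl⟩
  have hdown : ∀ j ∈ R, Tendsto (avg fun v => ∏ i, (Function.update Fu j
      (fun x => gp j x + (-1) * gm j x)) i (θ i v)) atTop
      (𝓝 (∏ i, (Function.update Λ j (Lam (gp j) - Lam (gm j))) i)) := by
    intro j hj
    have hjpq := (hRmem j).1 hj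
    refine prod_law hD h hpq ?_ ?_ fun i hip hiq => ?_
    · rw [Function.update_of_ne hjpq.1.symm, Function.update_of_ne hjpq.1.symm, Fup p (Or.inl rfl),
        Λp p (Or.inl rfl)]
      exact hadm p
    · rw [Function.update_of_ne hjpq.2.symm, Function.update_of_ne hjpq.2.symm, Fup q (Or.inr rfl),
        Λp q (Or.inr rfl)]
      exact hadm q
    · by_cases hij : i = j
      · subst hij
        rw [Function.update_self, Function.update_self]
        refine ⟨(gpT i).add ((gmT i).smul (-1)), ?_⟩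
        rw [Lam_add (gpT i).cont ((gmT i).smul (-1)).cont, Lam_mul]
        ring
      · have hi : i ∈ R := (hRmem i).2 ⟨hip, hiq⟩
        rw [Function.update_of_ne hij, Function.update_of_ne hij, Fur i hi, Λr i hi]
        exact ⟨gpT i, rfl⟩
  -- pointwise
  have Fu_ge : ∀ i v, ind (a i) (b i) (θ i v) ≤ Fu i (θ i v) := by
    intro i v
    by_cases hi : i = p ∨ i = q
    · rw [Fup i hi]
    · push Not at hi
      rw [Fur i ((hRmem i).2 hi)]
      exact gp1 i _ (h.angle i v)
  have Fu_nn : ∀ i v, 0 ≤ Fu i (θ i v) := fun i v => (ind_nonneg _ _ _).trans (Fu_ge i v)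
  have pt_up : ∀ v, ∏ i, ind (a i) (b i) (θ i v) ≤ ∏ i, Fu i (θ i v) := fun v =>
    Finset.prod_le_prod (fun i _ => ind_nonneg _ _ _) fun i _ => Fu_ge i v
  have pt_down : ∀ v, ∏ i, Fu i (θ i v) + (-1) * ∑ j ∈ R, ∏ i, (Function.update Fu j
      (fun x => gp j x + (-1) * gm j x)) i (θ i v) ≤ ∏ i, ind (a i) (b i) (θ i v) := by
    intro v
    have t := tele R (x := fun i => ind (a i) (b i) (θ i v)) (y := fun i => Fu i (θ i v))
      (fun i _ => ind_nonneg _ _ _) (fun i _ => Fu_ge i v)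
    have hI : 0 ≤ ind (a p) (b p) (θ p v) * ind (a q) (b q) (θ q v) :=
      mul_nonneg (ind_nonneg _ _ _) (ind_nonneg _ _ _)
    have t2 := mul_le_mul_of_nonneg_left t hI
    rw [hsplit fun i => ind (a i) (b i) (θ i v), hsplit fun i => Fu i (θ i v)]
    rw [Fup p (Or.inl rfl), Fup q (Or.inr rfl)]
    have t3 : ind (a p) (b p) (θ p v) * ind (a q) (b q) (θ q v) *
        ∑ j ∈ R, (Fu j (θ j v) - ind (a j) (b j) (θ j v)) * ∏ i ∈ R.erase j, Fu i (θ i v) ≤
        ∑ j ∈ R, ∏ i, (Function.update Fu j (fun x => gp j x + (-1) * gm j x)) i (θ i v) := by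
      rw [Finset.mul_sum]
      refine Finset.sum_le_sum fun j hj => ?_
      have hjpq := (hRmem j).1 hj
      rw [hsplit fun i => (Function.update Fu j (fun x => gp j x + (-1) * gm j x)) i (θ i v)]
      rw [Function.update_of_ne hjpq.1.symm, Function.update_of_ne hjpq.2.symm, Fup p (Or.inl rfl),
        Fup q (Or.inr rfl)]
      refine mul_le_mul_of_nonneg_left ?_ hI
      rw [← Finset.mul_prod_erase R _ hj, Function.update_self]
      have e : ∏ i ∈ R.erase j, (Function.update Fu j (fun x => gp j x + (-1) * gm j x)) i (θ i v) =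
          ∏ i ∈ R.erase j, Fu i (θ i v) :=
        Finset.prod_congr rfl fun i hi => by rw [Function.update_of_ne (Finset.ne_of_mem_erase hi)]
      rw [e]
      refine mul_le_mul_of_nonneg_right ?_ (Finset.prod_nonneg fun i _ => Fu_nn i v)
      rw [Fur j hj]
      have := gm1 j _ (h.angle j v)
      linarith
    linarith
  -- numerical estimates
  have hPnn : 0 ≤ μ p * μ q := mul_nonneg (hμ0 p) (hμ0 q)
  have hΛnn : ∀ i ∈ R, 0 ≤ Λ i := fun i hi => (hμ0 i).trans (Λ0 i hi)
  have herase : ∀ j ∈ R, ∏ i ∈ R.erase j, Λ i ≤ (1 + ε) ^ (m - 3) := by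
    intro j hj
    have h1 : ∏ i ∈ R.erase j, Λ i ≤ ∏ i ∈ R.erase j, (1 + ε) :=
      Finset.prod_le_prod (fun i hi => hΛnn i (Finset.mem_of_mem_erase hi)) fun i hi => by
        have := Λ1 i (Finset.mem_of_mem_erase hi)
        have := hμ1 i
        linarith
    rw [Finset.prod_const, Finset.card_erase_of_mem hj, hRcard] at h1
    exact h1
  have herase0 : ∀ j ∈ R, 0 ≤ ∏ i ∈ R.erase j, Λ i := fun j _ =>
    Finset.prod_nonneg fun i hi => hΛnn i (Finset.mem_of_mem_erase hi)
  set E : ℝ := ((m - 2 : ℕ) : ℝ) * (24 / D) * (1 + 12 / D) ^ (m - 3) with hE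
  have num_up : ∏ i, Λ i ≤ ∏ i, μ i + μ p * μ q * E := by
    rw [hsplit Λ, hsplit μ, Λp p (Or.inl rfl), Λp q (Or.inr rfl)]
    have t := tele R (x := μ) (y := Λ) (fun i _ => hμ0 i) Λ0
    have t1 : ∑ j ∈ R, (Λ j - μ j) * ∏ i ∈ R.erase j, Λ i ≤ ∑ j ∈ R, 2 * ε * (1 + ε) ^ (m - 3) := by
      refine Finset.sum_le_sum fun j hj => ?_
      refine mul_le_mul ?_ (herase j hj) (herase0 j hj) (by positivity)
      have := Λ1 j hj
      linarith
    rw [Finset.sum_const, hRcard, nsmul_eq_mul] at t1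
    have t2 : ((m - 2 : ℕ) : ℝ) * (2 * ε * (1 + ε) ^ (m - 3)) = E := by
      rw [hE, hε]
      ring
    rw [t2] at t1
    have := mul_le_mul_of_nonneg_left (t.trans t1) hPnn
    linarith
  have num_down : ∏ i, μ i - μ p * μ q * E ≤ ∏ i, Λ i +
      (-1) * ∑ j ∈ R, ∏ i, (Function.update Λ j (Lam (gp j) - Lam (gm j))) i := by
    have t1 : ∑ j ∈ R, ∏ i, (Function.update Λ j (Lam (gp j) - Lam (gm j))) i ≤
        ∑ j ∈ R, μ p * μ q * (2 * ε * (1 + ε) ^ (m - 3)) := by
      refine Finset.sum_le_sum fun j hj => ?_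
      have hjpq := (hRmem j).1 hj
      rw [hsplit, Function.update_of_ne hjpq.1.symm, Function.update_of_ne hjpq.2.symm,
        Λp p (Or.inl rfl), Λp q (Or.inr rfl)]
      refine mul_le_mul_of_nonneg_left ?_ hPnn
      rw [← Finset.mul_prod_erase R _ hj, Function.update_self]
      have e : ∏ i ∈ R.erase j, (Function.update Λ j (Lam (gp j) - Lam (gm j))) i =
          ∏ i ∈ R.erase j, Λ i :=
        Finset.prod_congr rfl fun i hi => by rw [Function.update_of_ne (Finset.ne_of_mem_erase hi)]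
      rw [e]
      refine mul_le_mul ?_ (herase j hj) (herase0 j hj) (by positivity)
      have e1 := gpL j
      have e2 := gmL j
      linarith
    rw [Finset.sum_const, hRcard, nsmul_eq_mul] at t1
    have t2 : ((m - 2 : ℕ) : ℝ) * (μ p * μ q * (2 * ε * (1 + ε) ^ (m - 3))) = μ p * μ q * E := by
      rw [hE, hε]
      ring
    rw [t2] at t1
    have t3 : ∏ i, μ i ≤ ∏ i, Λ i := by
      rw [hsplit Λ, hsplit μ, Λp p (Or.inl rfl), Λp q (Or.inr rfl)]
      exact mul_le_mul_of_nonneg_left (Finset.prod_le_prod (fun i _ => hμ0 i) Λ0) hPnn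
    linarith
  -- the end
  have hdown2 : Tendsto (avg fun v => ∏ i, Fu i (θ i v) + (-1) * ∑ j ∈ R, ∏ i, (Function.update Fu j
      (fun x => gp j x + (-1) * gm j x)) i (θ i v)) atTop (𝓝 (∏ i, Λ i +
      (-1) * ∑ j ∈ R, ∏ i, (Function.update Λ j (Lam (gp j) - Lam (gm j))) i)) := by
    have := hup.add ((tendsto_finsetSum _ hdown).const_mul (-1))
    refine this.congr fun N => ?_
    rw [avg_add, avg_mul, avg_sum']
  have u1 := hup.eventually (eventually_le_nhds (show ∏ i, Λ i < ∏ i, Λ i + δ by linarith))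
  have u2 := hdown2.eventually (eventually_ge_nhds (show ∏ i, Λ i +
      (-1) * ∑ j ∈ R, ∏ i, (Function.update Λ j (Lam (gp j) - Lam (gm j))) i - δ < ∏ i, Λ i +
      (-1) * ∑ j ∈ R, ∏ i, (Function.update Λ j (Lam (gp j) - Lam (gm j))) i by linarith))
  filter_upwards [u1, u2] with N hN1 hN2
  have a1 := avg_mono pt_up N
  have a2 := avg_mono pt_down N
  rw [abs_le]
  constructor
  · linarith
  · linarith

theorem all3 : ∀ p q r : Fin 3, p ≠ q → p ≠ r → q ≠ r → ∀ i : Fin 3, i = p ∨ i = q ∨ i = r := by decide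

/-- **Boxes, three forms.** -/
theorem box3 {θ : Fin 3 → HeightOneSpectrum (𝓞 K) → ℝ} (hD : 0 < D) (h : Forms D θ) {p q r : Fin 3}
    (hpq : p ≠ q) (hpr : p ≠ r) (hqr : q ≠ r) {a b : Fin 3 → ℝ}
    (h0 : ∀ i, 0 ≤ a i) (hab : ∀ i, a i ≤ b i) (hb : ∀ i, b i ≤ Real.pi) {δ : ℝ} (hδ : 0 < δ) :
    ∀ᶠ N : ℕ in atTop, |avg (fun v => ∏ i, ind (a i) (b i) (θ i v)) N - ∏ i, mu (a i) (b i)| ≤
      mu (a p) (b p) * mu (a q) (b q) * (12 / D) + δ := by
  classical
  have hD0 : (0 : ℝ) < D := by exact_mod_cast hD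
  obtain ⟨gp, gm, gpT, gmT, gp1, gm1, gpL, gmL⟩ := interval hD (h0 r) (hab r) (hb r)
  have hall : ∀ i : Fin 3, i = p ∨ i = q ∨ i = r := all3 p q r hpq hpr hqr
  have hprod : ∀ f : Fin 3 → ℝ, ∏ i, f i = f p * f q * f r := by
    intro f
    have : (Finset.univ : Finset (Fin 3)) = {p, q, r} := by
      ext i
      simp [hall i]
    rw [this, Finset.prod_insert (by simp [hpq, hpr]), Finset.prod_insert (by simp [hqr]),
      Finset.prod_singleton, mul_assoc]
  have key : ∀ g : ℝ → ℝ, Tri D g → Tendsto (avg fun v => (ind (a p) (b p) (θ p v) *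
      ind (a q) (b q) (θ q v)) * g (θ r v)) atTop (𝓝 ((mu (a p) (b p) * mu (a q) (b q)) * Lam g)) := by
    intro g hg
    have := prod_law hD h hpq (F := Function.update (fun i => ind (a i) (b i)) r g)
      (Λ := Function.update (fun i => mu (a i) (b i)) r (Lam g))
      (by
        rw [Function.update_of_ne hpr, Function.update_of_ne hpr]
        exact adm_ind (h0 p) (hab p) (hb p))
      (by
        rw [Function.update_of_ne hqr, Function.update_of_ne hqr]
        exact adm_ind (h0 q) (hab q) (hb q))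
      (fun i hip hiq => by
        rcases hall i with hi | hi | hi
        · exact absurd hi hip
        · exact absurd hi hiq
        · subst hi
          rw [Function.update_self, Function.update_self]
          exact ⟨hg, rfl⟩)
    rw [hprod] at this
    rw [Function.update_of_ne hpr, Function.update_of_ne hqr, Function.update_self] at this
    refine this.congr fun N => ?_
    congr 1
    funext v
    rw [hprod]
    rw [Function.update_of_ne hpr, Function.update_of_ne hqr, Function.update_self]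
  have k1 := key gp gpT
  have k2 := key gm gmT
  have hPnn : 0 ≤ mu (a p) (b p) * mu (a q) (b q) :=
    mul_nonneg (Run7.h911.VS.mu_nonneg' (hab p)) (Run7.h911.VS.mu_nonneg' (hab q))
  have u1 := k1.eventually (eventually_le_nhds (show (mu (a p) (b p) * mu (a q) (b q)) * Lam gp <
    (mu (a p) (b p) * mu (a q) (b q)) * Lam gp + δ by linarith))
  have u2 := k2.eventually (eventually_ge_nhds (show (mu (a p) (b p) * mu (a q) (b q)) * Lam gm - δ <
    (mu (a p) (b p) * mu (a q) (b q)) * Lam gm by linarith))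
  filter_upwards [u1, u2] with N hN1 hN2
  have a1 := avg_mono (f := fun v => ∏ i, ind (a i) (b i) (θ i v)) (g := fun v =>
      (ind (a p) (b p) (θ p v) * ind (a q) (b q) (θ q v)) * gp (θ r v)) (fun v => by
    rw [hprod]
    exact mul_le_mul_of_nonneg_left (gp1 _ (h.angle r v))
      (mul_nonneg (ind_nonneg _ _ _) (ind_nonneg _ _ _))) N
  have a2 := avg_mono (g := fun v => ∏ i, ind (a i) (b i) (θ i v)) (f := fun v =>
      (ind (a p) (b p) (θ p v) * ind (a q) (b q) (θ q v)) * gm (θ r v)) (fun v => by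
    rw [hprod]
    exact mul_le_mul_of_nonneg_left (gm1 _ (h.angle r v))
      (mul_nonneg (ind_nonneg _ _ _) (ind_nonneg _ _ _))) N
  rw [hprod fun i => mu (a i) (b i)]
  have b1 := mul_le_mul_of_nonneg_left gpL hPnn
  have b2 := mul_le_mul_of_nonneg_left gmL hPnn
  rw [abs_le]
  constructor
  · linarith
  · linarith

/-! ### Powers and polynomials of `cos` -/

theorem tri_succ {M : ℕ} {g : ℝ → ℝ} (hg : Tri M g) : Tri (M + 1) g := by
  obtain ⟨b, hb⟩ := hg
  refine ⟨fun k => if k < M then b k else 0, fun x => ?_⟩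
  rw [hb, Finset.sum_range_succ]
  beta_reduce
  rw [if_neg (lt_irrefl M), zero_mul, add_zero]
  exact Finset.sum_congr rfl fun k hk => by rw [if_pos (Finset.mem_range.1 hk)]

theorem tri_mono {M M' : ℕ} (h : M ≤ M') {g : ℝ → ℝ} (hg : Tri M g) : Tri M' g := by
  induction h with
  | refl => exact hg
  | step _ ih => exact tri_succ ih

theorem tri_cos_mul {M : ℕ} {g : ℝ → ℝ} (hg : Tri M g) : Tri (M + 1) fun x => Real.cos x * g x := by
  obtain ⟨b, hb⟩ := hg
  have : Tri (M + 1) fun x => ∑ k ∈ Finset.range M, b k * (Real.cos x * U k x) := by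
    refine Tri.sum _ fun k hk => ?_
    have hk' := Finset.mem_range.1 hk
    refine Tri.smul (b k) ?_
    match k, hk' with
    | 0, hk' =>
      exact ((Tri.basis (show 1 < M + 1 by omega)).smul (1 / 2)).congr fun x => by
        rw [U_zero, U_one]
        ring
    | k + 1, hk' =>
      exact (((Tri.basis (show k + 2 < M + 1 by omega)).add (Tri.basis (show k < M + 1 by omega))).smul
        (1 / 2)).congr fun x => by
          have := U_rec k x
          rw [this]
          ring
  refine this.congr fun x => ?_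
  rw [hb, Finset.mul_sum]
  exact Finset.sum_congr rfl fun k _ => by ring

theorem tri_pow (n : ℕ) : Tri (n + 1) fun x => Real.cos x ^ n := by
  induction n with
  | zero => exact (Tri.const (by omega) 1).congr fun x => by rw [pow_zero]
  | succ n ih => exact (tri_cos_mul ih).congr fun x => by rw [pow_succ, mul_comm]

theorem tri_poly {P : Polynomial ℝ} (hP : P.natDegree < D) : Tri D fun x => P.eval (Real.cos x) := by
  have : Tri D fun x => ∑ k ∈ Finset.range (P.natDegree + 1), P.coeff k * Real.cos x ^ k :=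
    Tri.sum _ fun k hk => Tri.smul _ (tri_mono (by have := Finset.mem_range.1 hk; omega) (tri_pow k))
  exact this.congr fun x => by rw [Polynomial.eval_eq_sum_range]

end Run7.h911.MW
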