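import Pool.Agent.Run7.h911.TD4

set_option autoImplicit false

/-! # Almost every real number (helper911) -/

namespace Run7.h911.TD

open Filter Finset MeasureTheory

section

variable {a L : ℕ} {E : ℕ → ℕ → Prop}

lemma floor_level (ha : 2 ≤ a) (θ : ℝ) {n K : ℕ} (hn : n ≤ K) :
    ⌊θ * (a : ℝ) ^ K⌋₊ / a ^ (K - n) = ⌊θ * (a : ℝ) ^ n⌋₊ := by
  have ha0 : (a : ℝ) ≠ 0 := by positivity
  rw [← Nat.floor_div_natCast]
  congr 1
  push_cast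
  rw [div_eq_iff (by positivity), mul_assoc, ← pow_add]
  congr 2
  omega

/-- a cell -/
def cell (a K i : ℕ) : Set ℝ := Set.Ico ((i : ℝ) / (a : ℝ) ^ K) (((i : ℝ) + 1) / (a : ℝ) ^ K)

lemma vol_cell (ha : 2 ≤ a) (K i : ℕ) : volume (cell a K i) = ENNReal.ofReal (1 / (a : ℝ) ^ K) := by
  have ha0 : (a : ℝ) ≠ 0 := by positivity
  unfold cell
  rw [Real.volume_Ico]
  congr 1
  field_simp
  ring

lemma mem_cell (ha : 2 ≤ a) {K i : ℕ} {θ : ℝ} (h0 : 0 ≤ θ) :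
    θ ∈ cell a K i ↔ ⌊θ * (a : ℝ) ^ K⌋₊ = i := by
  have hp : (0 : ℝ) < (a : ℝ) ^ K := by positivity
  unfold cell
  rw [Set.mem_Ico, div_le_iff₀ hp, lt_div_iff₀ hp, Nat.floor_eq_iff (by positivity)]

lemma cell_nonneg {K i : ℕ} {θ : ℝ} (h : θ ∈ cell a K i) : 0 ≤ θ := by
  unfold cell at h
  exact le_trans (by positivity) h.1

lemma ae_cell (ha : 2 ≤ a) (hL : 2 ≤ L) {c : ℝ} {J k₀ : ℕ} (hc0 : 0 < c) (hc1 : c ≤ 1)
    (hC : Cells a L E c J k₀) {j₀ : ℕ}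
    (hj : k₀ ≤ (2 * L) ^ j₀) {i : ℕ} (hi1 : 1 ≤ i) (hi2 : i < a ^ ((2 * L) ^ j₀ + J)) :
    ∀ᵐ θ : ℝ, θ ∈ cell a ((2 * L) ^ j₀) i → ∀ᶠ M : ℕ in atTop,
      c / 4 * M < ZZ a L E j₀ M ⌊θ * (a : ℝ) ^ ((2 * L) ^ (j₀ + M))⌋₊ := by
  classical
  set s : ℕ → Set ℝ := fun M => {θ | θ ∈ cell a ((2 * L) ^ j₀) i ∧
    ZZ a L E j₀ M ⌊θ * (a : ℝ) ^ ((2 * L) ^ (j₀ + M))⌋₊ ≤ c / 4 * M} with hs
  have hr : Real.exp (-(c / 4)) < 1 := by rw [Real.exp_lt_one_iff]; linarith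
  have hvol : ∀ M, volume (s M) ≤ ENNReal.ofReal (Real.exp (-(c / 4)) ^ M) := by
    intro M
    obtain ⟨K0, hK0⟩ : ∃ K : ℕ, K = (2 * L) ^ j₀ := ⟨_, rfl⟩
    obtain ⟨K1, hK1⟩ : ∃ K : ℕ, K = (2 * L) ^ (j₀ + M) := ⟨_, rfl⟩
    have h01 : K0 ≤ K1 := by rw [hK0, hK1]; exact Nat.pow_le_pow_right (by omega) (by omega)
    have hb := bad_card (E := E) ha hL hc0.le hc1 hC hj hi1 hi2 M
    rw [← hK0, ← hK1] at hb
    set F := (Ico (i * a ^ (K1 - K0)) ((i + 1) * a ^ (K1 - K0))).filter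
      (fun m => ZZ a L E j₀ M m ≤ c / 4 * M) with hF
    have e0 : ({m | m ∈ Ico (i * a ^ (K1 - K0)) ((i + 1) * a ^ (K1 - K0)) ∧ ZZ a L E j₀ M m ≤ c / 4 * M} : Set ℕ) =
        (F : Set ℕ) := by
      ext m; rw [hF]; simp
    rw [e0, Set.ncard_coe_finset] at hb
    have hsub : s M ⊆ ⋃ m ∈ F, cell a K1 m := by
      intro θ hθ
      obtain ⟨h1, h2⟩ := hθ
      rw [← hK0] at h1
      rw [← hK1] at h2
      have h0 : 0 ≤ θ := cell_nonneg h1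
      refine Set.mem_biUnion (x := ⌊θ * (a : ℝ) ^ K1⌋₊) ?_ ((mem_cell ha h0).2 rfl)
      rw [mem_coe, hF, mem_filter, mem_Ico]
      refine ⟨?_, h2⟩
      have h3 := (mem_cell ha h0).1 h1
      have h4 := floor_level ha θ h01
      rw [h3] at h4
      have hb0 : 0 < a ^ (K1 - K0) := by positivity
      have h5 := (Nat.div_eq_iff hb0).1 h4
      have h6 : (i + 1) * a ^ (K1 - K0) = i * a ^ (K1 - K0) + a ^ (K1 - K0) := by ring
      have h7 := h5.1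
      have h8 := h5.2
      constructor
      · linarith
      · rw [h6]
        omega
    refine (measure_mono hsub).trans ((measure_biUnion_finset_le _ _).trans ?_)
    rw [sum_congr rfl (fun m _ => vol_cell ha K1 m), sum_const, nsmul_eq_mul]
    rw [← ENNReal.ofReal_natCast, ← ENNReal.ofReal_mul (Nat.cast_nonneg _)]
    refine ENNReal.ofReal_le_ofReal ?_
    have ha0 : (0 : ℝ) < a := by positivity
    rw [mul_one_div, div_le_iff₀ (by positivity)]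
    refine hb.trans ?_
    refine mul_le_mul_of_nonneg_left ?_ (by positivity)
    exact pow_le_pow_right₀ (by exact_mod_cast (by omega : 1 ≤ a)) (by omega)
  have hsum : ∑' M, volume (s M) ≠ ⊤ := by
    refine ne_top_of_le_ne_top ?_ (ENNReal.tsum_le_tsum hvol)
    exact (summable_geometric_of_lt_one (Real.exp_nonneg _) hr).tsum_ofReal_ne_top
  filter_upwards [ae_eventually_notMem hsum] with θ hθ hmem
  filter_upwards [hθ] with M hM
  by_contra hcon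
  exact hM ⟨hmem, not_lt.1 hcon⟩

/-- the sum of `1/n` over the good levels -/
lemma sum_good (ha : 2 ≤ a) (hL : 2 ≤ L) (θ : ℝ) (S : Set ℕ) (hS : ∀ n, E n ⌊θ * (a : ℝ) ^ n⌋₊ → n ∈ S)
    (j₀ M : ℕ) : 1 / 2 * ZZ a L E j₀ M ⌊θ * (a : ℝ) ^ ((2 * L) ^ (j₀ + M))⌋₊ ≤
      ∑ n ∈ Ioc 0 ((2 * L) ^ (j₀ + M)), S.indicator (fun n : ℕ => (1 : ℝ) / n) n := by
  classical
  have hnn : ∀ n, 0 ≤ S.indicator (fun n : ℕ => (1 : ℝ) / n) n :=
    fun n => Set.indicator_nonneg (fun _ _ => by positivity) n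
  induction M with
  | zero =>
    simp only [ZZ, mul_zero]
    exact sum_nonneg fun n _ => hnn n
  | succ M ih =>
    obtain ⟨K1, hK1⟩ : ∃ K : ℕ, K = (2 * L) ^ (j₀ + M) := ⟨_, rfl⟩
    obtain ⟨K2, hK2⟩ : ∃ K : ℕ, K = (2 * L) ^ (j₀ + (M + 1)) := ⟨_, rfl⟩
    have h2L : K2 = 2 * (L * K1) := by rw [hK2, hK1]; ring
    have hK1p : 0 < K1 := by rw [hK1]; positivity
    have hLK : K1 ≤ L * K1 := Nat.le_mul_of_pos_left _ (by omega)
    rw [ZZ, ← hK1, ← hK2, floor_level ha θ (by omega : K1 ≤ K2)]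
    rw [← hK1] at ih
    have hy : 1 / 2 * yy a L E (j₀ + M) ⌊θ * (a : ℝ) ^ K2⌋₊ ≤
        ∑ n ∈ Ioc (L * K1) K2, S.indicator (fun n : ℕ => (1 : ℝ) / n) n := by
      unfold yy
      rw [← hK1, ← h2L]
      set G := (Ioc (L * K1) K2).filter (fun n => E n (⌊θ * (a : ℝ) ^ K2⌋₊ / a ^ (K2 - n))) with hG
      have h1 : ∑ n ∈ G, (1 : ℝ) / ((2 * (L * K1) : ℕ) : ℝ) ≤ ∑ n ∈ Ioc (L * K1) K2,
          S.indicator (fun n : ℕ => (1 : ℝ) / n) n := by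
        refine (sum_le_sum (g := fun n => S.indicator (fun n : ℕ => (1 : ℝ) / n) n) fun n hn => ?_).trans
          (sum_le_sum_of_subset_of_nonneg (filter_subset _ _) fun n _ _ => hnn n)
        rw [hG, mem_filter, mem_Ioc] at hn
        obtain ⟨⟨h1, h2⟩, h3⟩ := hn
        rw [floor_level ha θ h2] at h3
        rw [Set.indicator_of_mem (hS n h3)]
        have hn0 : (0 : ℝ) < n := by exact_mod_cast (by omega : 0 < n)
        have hnK : (n : ℝ) ≤ ((2 * (L * K1) : ℕ) : ℝ) := by exact_mod_cast (by omega : n ≤ 2 * (L * K1))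
        exact one_div_le_one_div_of_le hn0 hnK
      rw [sum_const, nsmul_eq_mul] at h1
      refine le_trans (le_of_eq ?_) h1
      have hq : ((2 * (L * K1) : ℕ) : ℝ) = 2 * ((L * K1 : ℕ) : ℝ) := by push_cast; ring
      rw [hq]
      have : (0 : ℝ) < ((L * K1 : ℕ) : ℝ) := by exact_mod_cast (by omega : 0 < L * K1)
      field_simp
    have hsplit : ∑ n ∈ Ioc 0 K1, S.indicator (fun n : ℕ => (1 : ℝ) / n) n +
        ∑ n ∈ Ioc (L * K1) K2, S.indicator (fun n : ℕ => (1 : ℝ) / n) n ≤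
        ∑ n ∈ Ioc 0 K2, S.indicator (fun n : ℕ => (1 : ℝ) / n) n := by
      rw [← sum_union (by
        rw [disjoint_left]
        intro n h1 h2
        rw [mem_Ioc] at h1 h2
        omega)]
      refine sum_le_sum_of_subset_of_nonneg ?_ fun n _ _ => hnn n
      intro n hn
      rw [mem_union, mem_Ioc, mem_Ioc] at hn
      rw [mem_Ioc]
      omega
    linarith

/-- the general theorem -/
theorem law (ha : 2 ≤ a) (hL : 2 ≤ L) {c : ℝ} (hc0 : 0 < c) (hc1 : c ≤ 1)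
    (hC : ∀ J : ℕ, ∃ k₀ : ℕ, Cells a L E c J k₀) :
    ∀ᵐ θ : ℝ, 0 < θ → ∀ S : Set ℕ, (∀ n, E n ⌊θ * (a : ℝ) ^ n⌋₊ → n ∈ S) → ∀ᶠ N : ℕ in atTop,
      c / (16 * Real.log ((2 * L : ℕ) : ℝ)) * Real.log N ≤
        ∑ n ∈ Icc 1 N, S.indicator (fun n : ℕ => (1 : ℝ) / n) n := by
  classical
  have hall : ∀ᵐ θ : ℝ, ∀ J j₀ i k₀ : ℕ, Cells a L E c J k₀ → k₀ ≤ (2 * L) ^ j₀ → 1 ≤ i →
      i < a ^ ((2 * L) ^ j₀ + J) → θ ∈ cell a ((2 * L) ^ j₀) i → ∀ᶠ M : ℕ in atTop,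
      c / 4 * M < ZZ a L E j₀ M ⌊θ * (a : ℝ) ^ ((2 * L) ^ (j₀ + M))⌋₊ := by
    rw [ae_all_iff]; intro J
    rw [ae_all_iff]; intro j₀
    rw [ae_all_iff]; intro i
    rw [ae_all_iff]; intro k₀
    by_cases h1 : Cells a L E c J k₀
    · by_cases h2 : k₀ ≤ (2 * L) ^ j₀
      · by_cases h3 : 1 ≤ i
        · by_cases h4 : i < a ^ ((2 * L) ^ j₀ + J)
          · filter_upwards [ae_cell ha hL hc0 hc1 h1 h2 h3 h4] with θ hθ _ _ _ _
            exact hθ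
          · exact Eventually.of_forall fun θ _ _ _ h => absurd h h4
        · exact Eventually.of_forall fun θ _ _ h => absurd h h3
      · exact Eventually.of_forall fun θ _ h => absurd h h2
    · exact Eventually.of_forall fun θ h => absurd h h1
  filter_upwards [hall] with θ hθ hpos S hS
  have har : (2 : ℝ) ≤ a := by exact_mod_cast ha
  have ha0 : (0 : ℝ) < a := by linarith
  have h2L : 4 ≤ 2 * L := by omega
  have h2Lr : (4 : ℝ) ≤ ((2 * L : ℕ) : ℝ) := by exact_mod_cast h2L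
  -- choose the parameters
  obtain ⟨J, hJ⟩ : ∃ J : ℕ, θ < (a : ℝ) ^ J := pow_unbounded_of_one_lt θ (by linarith)
  obtain ⟨k₀, hk₀⟩ := hC J
  obtain ⟨t, ht⟩ : ∃ t : ℕ, 1 / θ < (a : ℝ) ^ t := pow_unbounded_of_one_lt (1 / θ) (by linarith)
  obtain ⟨j₀, hj₀⟩ : ∃ j₀ : ℕ, j₀ = k₀ + t := ⟨_, rfl⟩
  have hDj : j₀ ≤ (2 * L) ^ j₀ := (Nat.lt_pow_self (by omega)).le
  have hi1 : 1 ≤ ⌊θ * (a : ℝ) ^ ((2 * L) ^ j₀)⌋₊ := by
    rw [Nat.one_le_floor_iff]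
    have h1 : (a : ℝ) ^ t ≤ (a : ℝ) ^ ((2 * L) ^ j₀) := pow_le_pow_right₀ (by linarith) (by omega)
    rw [div_lt_iff₀ hpos] at ht
    nlinarith
  have hi2 : ⌊θ * (a : ℝ) ^ ((2 * L) ^ j₀)⌋₊ < a ^ ((2 * L) ^ j₀ + J) := by
    rw [Nat.floor_lt (by positivity)]
    push_cast
    rw [pow_add, mul_comm θ]
    exact mul_lt_mul_of_pos_left hJ (by positivity)
  have hev := hθ J j₀ _ k₀ hk₀ (by omega) hi1 hi2 ((mem_cell ha hpos.le).2 rfl)
  obtain ⟨M₀, hM₀⟩ := eventually_atTop.1 hev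
  have hlogD : 0 < Real.log ((2 * L : ℕ) : ℝ) := Real.log_pos (by linarith)
  refine eventually_atTop.2 ⟨(2 * L) ^ (j₀ + M₀ + 2 * j₀ + 1), fun N hN => ?_⟩
  have hN0 : N ≠ 0 := by
    have : 0 < (2 * L) ^ (j₀ + M₀ + 2 * j₀ + 1) := by positivity
    omega
  obtain ⟨T, hT⟩ : ∃ T : ℕ, T = Nat.log (2 * L) N := ⟨_, rfl⟩
  have hT1 : (2 * L) ^ T ≤ N := by rw [hT]; exact Nat.pow_log_le_self _ hN0
  have hT2 : N < (2 * L) ^ (T + 1) := by rw [hT]; exact Nat.lt_pow_succ_log_self (by omega) N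
  have hT3 : j₀ + M₀ + 2 * j₀ + 1 ≤ T := by
    by_contra hcon
    have : (2 * L) ^ (T + 1) ≤ (2 * L) ^ (j₀ + M₀ + 2 * j₀ + 1) := Nat.pow_le_pow_right (by omega) (by omega)
    omega
  obtain ⟨M, hM⟩ : ∃ M : ℕ, j₀ + M = T := ⟨T - j₀, by omega⟩
  have h1 := hM₀ M (by omega)
  have h2 := sum_good (E := E) ha hL θ S hS j₀ M
  rw [hM] at h1 h2
  have hnn : ∀ n, 0 ≤ S.indicator (fun n : ℕ => (1 : ℝ) / n) n :=
    fun n => Set.indicator_nonneg (fun _ _ => by positivity) n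
  have h3 : ∑ n ∈ Ioc 0 ((2 * L) ^ T), S.indicator (fun n : ℕ => (1 : ℝ) / n) n ≤
      ∑ n ∈ Icc 1 N, S.indicator (fun n : ℕ => (1 : ℝ) / n) n := by
    refine sum_le_sum_of_subset_of_nonneg ?_ fun n _ _ => hnn n
    intro n hn
    rw [mem_Ioc] at hn
    rw [mem_Icc]
    omega
  have h4 : Real.log N ≤ (T + 1) * Real.log ((2 * L : ℕ) : ℝ) := by
    have hNr : (0 : ℝ) < N := by exact_mod_cast Nat.pos_of_ne_zero hN0
    have h5 : (N : ℝ) ≤ ((2 * L : ℕ) : ℝ) ^ (T + 1) := by exact_mod_cast hT2.le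
    have h6 := Real.log_le_log hNr h5
    rw [Real.log_pow] at h6
    push_cast at h6 ⊢
    exact h6
  have h5 : c / (16 * Real.log ((2 * L : ℕ) : ℝ)) * Real.log N ≤ c / 16 * (T + 1) := by
    have h6 : 0 ≤ c / (16 * Real.log ((2 * L : ℕ) : ℝ)) := by positivity
    refine (mul_le_mul_of_nonneg_left h4 h6).trans (le_of_eq ?_)
    field_simp
  have h6 : (T : ℝ) + 1 ≤ 2 * M := by exact_mod_cast (by omega : T + 1 ≤ 2 * M)
  nlinarith

end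

end Run7.h911.TD
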