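import Pool.Agent.Run7.h911.RC2

/-!
# Several representations of `GL(2)`: the test functions
-/

set_option autoImplicit false

namespace Run7.h911.RC

open NumberField IsDedekindDomain Filter Topology
open Pool.Agent.TH861.GL3 (PL qq)
open Pool.Agent.H921R2.TatePole (Lam)

variable {K : Type*} [Field K] [NumberField K] {S : Finset (HeightOneSpectrum (𝓞 K))}
variable {m : ℕ} {α : Fin m → PL S → Fin 2 → ℂ}

/-- the coefficients: `s` at the trivial representation, `a i` at `Ad π_i`, `b i` at `A⁴ π_i` -/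
def cf (s : ℝ) (a b : Fin m → ℝ) : J m → ℝ
  | none => s
  | some (i, X) => if X = 0 then a i else b i

theorem sum_J (f : J m → ℝ) : ∑ c, f c = f none + ∑ i, (f (some (i, 0)) + f (some (i, 1))) := by
  rw [Fintype.sum_option, Fintype.sum_prod_type]
  simp only [Fin.sum_univ_two]

theorem cf_mul (s : ℝ) (a b : Fin m → ℝ) (s' : ℝ) (a' b' : Fin m → ℝ) :
    ∑ c, cf s a b c * cf s' a' b' c = s * s' + ∑ i, (a i * a' i + b i * b' i) := by
  rw [sum_J]
  simp [cf]

omit [NumberField K] in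
theorem cf_tt (s : ℝ) (a b : Fin m → ℝ) (v : PL S) (k : ℕ) :
    ∑ c, cf s a b c * tt α c v k = s + ∑ i, (a i * rt 0 (α i v) k + b i * rt 1 (α i v) k) := by
  rw [sum_J]
  simp [cf, tt]

/-- squares -/
theorem square_bound (h : Family α) (s : ℝ) (a b : Fin m → ℝ) {δ M : ℝ} (hM : 0 < M)
    (hδ : s ^ 2 + ∑ i, (a i ^ 2 + b i ^ 2) ≤ δ * M) (P : PL S → Prop) [DecidablePred P]
    (hP : ∀ v, P v → M ≤ (s + ∑ i, (a i * rt 0 (α i v) 1 + b i * rt 1 (α i v) 1)) ^ 2) :
    ∃ C : ℝ, ∀ σ : ℝ, 1 < σ →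
      ∑' v : PL S, (if P v then (qq v.1 : ℝ) ^ (-σ) else 0) ≤ δ * Z S σ + C := by
  refine set_bound h (cf s a b) (cf s a b) (fun v k => ?_) hM ?_ P (fun v hv => ?_)
  · exact mul_self_nonneg _
  · rw [cf_mul]
    simp only [← pow_two]
    exact hδ
  · rw [cf_tt, ← pow_two]
    exact hP v hv

theorem rt_sq' {a : Fin 2 → ℂ} (h : Unitary a) (k : ℕ) :
    10 + 15 * rt 0 a k + 9 * rt 1 a k = (3 * rt 0 a k + 1) ^ 2 := by
  have := rt_sq h k
  linear_combination (-9) * this

/-- **All representations at once.** -/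
theorem all_nontempered (h : Family α) : ∃ C : ℝ, ∀ σ : ℝ, 1 < σ →
    ∑' v : PL S, (open Classical in if ∀ i, ¬ Tempered (α i v) then (qq v.1 : ℝ) ^ (-σ) else 0) ≤
      1 / (34 * (m : ℝ) + 1) * Z S σ + C := by
  classical
  have hm0 : (0 : ℝ) ≤ m := by positivity
  refine square_bound h 1 (fun _ => 3) (fun _ => 5) (M := (34 * (m : ℝ) + 1) ^ 2) (by positivity) ?_
    (fun v => ∀ i, ¬ Tempered (α i v)) (fun v hv => ?_)
  · rw [Finset.sum_const, Finset.card_univ, Fintype.card_fin, nsmul_eq_mul]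
    apply le_of_eq
    field_simp
    ring
  · apply pow_le_pow_left₀ (by positivity)
    have h1 : ∑ i : Fin m, (34 : ℝ) ≤ ∑ i, (3 * rt 0 (α i v) 1 + 5 * rt 1 (α i v) 1) := by
      refine Finset.sum_le_sum fun i _ => ?_
      obtain ⟨h2, h3⟩ := rt_large (h.unitary i v) (hv i) 1
      linarith
    rw [Finset.sum_const, Finset.card_univ, Fintype.card_fin, nsmul_eq_mul] at h1
    linarith

/-- **Two representations.** -/
theorem two_nontempered (h : Family α) {i j : Fin m} (hij : i ≠ j) : ∃ C : ℝ, ∀ σ : ℝ, 1 < σ →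
    ∑' v : PL S, (open Classical in if ¬ Tempered (α i v) ∧ ¬ Tempered (α j v) then
      (qq v.1 : ℝ) ^ (-σ) else 0) ≤ 1 / 100 * Z S σ + C := by
  classical
  have hs : ∀ (l : Fin m) (v : PL S) (k : ℕ),
      ∑ c, cf 10 (fun n => if n = l then 15 else 0) (fun n => if n = l then 9 else 0) c * tt α c v k =
        (3 * rt 0 (α l v) k + 1) ^ 2 := by
    intro l v k
    rw [cf_tt, ← rt_sq' (h.unitary l v)]
    simp only [ite_mul, zero_mul]
    rw [Finset.sum_add_distrib, Finset.sum_ite_eq', Finset.sum_ite_eq']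
    simp only [Finset.mem_univ, if_true]
    ring
  refine set_bound h (cf 10 (fun n => if n = i then 15 else 0) (fun n => if n = i then 9 else 0))
    (cf 10 (fun n => if n = j then 15 else 0) (fun n => if n = j then 9 else 0))
    (fun v k => ?_) (M := 10000) (by norm_num) ?_ (fun v => ¬ Tempered (α i v) ∧ ¬ Tempered (α j v))
    (fun v hv => ?_)
  · rw [hs, hs]
    positivity
  · rw [cf_mul]
    have : ∀ n : Fin m, (if n = i then (15 : ℝ) else 0) * (if n = j then (15 : ℝ) else 0) +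
        (if n = i then (9 : ℝ) else 0) * (if n = j then (9 : ℝ) else 0) = 0 := by
      intro n
      by_cases h1 : n = i
      · rw [if_neg (fun h2 : n = j => hij (h1.symm.trans h2)),
          if_neg (fun h2 : n = j => hij (h1.symm.trans h2))]
        ring
      · rw [if_neg h1, if_neg h1]
        ring
    rw [Finset.sum_congr rfl fun n _ => this n, Finset.sum_const_zero]
    norm_num
  · rw [hs, hs]
    have h1 := (rt_large (h.unitary i v) hv.1 1).1
    have h2 := (rt_large (h.unitary j v) hv.2 1).1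
    have h3 : (100 : ℝ) ≤ (3 * rt 0 (α i v) 1 + 1) ^ 2 := by nlinarith
    have h4 : (100 : ℝ) ≤ (3 * rt 0 (α j v) 1 + 1) ^ 2 := by nlinarith
    nlinarith

/-- **Most representations are tempered.** -/
theorem most_tempered (h : Family α) (hm : 0 < m) {η : ℝ} (hη : 0 < η) : ∃ C : ℝ, ∀ σ : ℝ, 1 < σ →
    ∑' v : PL S, (open Classical in
      if (1 / 10 + η) * (m : ℝ) ≤ ((Finset.univ.filter fun i => ¬ Tempered (α i v)).card : ℝ) then
        (qq v.1 : ℝ) ^ (-σ) else 0) ≤ 153 / (153 + 5000 * η ^ 2 * m) * Z S σ + C := by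
  classical
  have hm' : (0 : ℝ) < m := by exact_mod_cast hm
  set s : ℝ := 153 / (50 * η * m) with hs
  have hs0 : 0 < s := by positivity
  refine square_bound h s (fun _ => 15 / m) (fun _ => 9 / m) (M := (s + 100 * η) ^ 2) (by positivity) ?_
    (fun v => (1 / 10 + η) * (m : ℝ) ≤ ((Finset.univ.filter fun i => ¬ Tempered (α i v)).card : ℝ))
    (fun v hv => ?_)
  · rw [Finset.sum_const, Finset.card_univ, Fintype.card_fin, nsmul_eq_mul]
    apply le_of_eq
    rw [hs]
    field_simp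
    ring
  · apply pow_le_pow_left₀ (by positivity)
    have h1 : ∀ i : Fin m, (if ¬ Tempered (α i v) then (100 : ℝ) else 0) ≤
        10 + 15 * rt 0 (α i v) 1 + 9 * rt 1 (α i v) 1 := by
      intro i
      split_ifs with h2
      · rw [rt_sq' (h.unitary i v)]
        positivity
      · obtain ⟨h3, h4⟩ := rt_large (h.unitary i v) h2 1
        linarith
    have h2 := Finset.sum_le_sum fun i (_ : i ∈ Finset.univ) => h1 i
    rw [← Finset.sum_filter, Finset.sum_const, nsmul_eq_mul] at h2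
    have h3 : ∑ i : Fin m, (10 + 15 * rt 0 (α i v) 1 + 9 * rt 1 (α i v) 1) =
        10 * m + m * ∑ i, (15 / m * rt 0 (α i v) 1 + 9 / m * rt 1 (α i v) 1) := by
      rw [Finset.mul_sum]
      have : (10 : ℝ) * m = ∑ i : Fin m, (10 : ℝ) := by
        rw [Finset.sum_const, Finset.card_univ, Fintype.card_fin, nsmul_eq_mul]
        ring
      rw [this, ← Finset.sum_add_distrib]
      refine Finset.sum_congr rfl fun i _ => ?_
      field_simp
      ring
    rw [h3] at h2
    have h4 : (100 * η) * (m : ℝ) ≤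
        (∑ i, (15 / m * rt 0 (α i v) 1 + 9 / m * rt 1 (α i v) 1)) * m := by nlinarith
    have h5 := le_of_mul_le_mul_right h4 hm'
    linarith

theorem norm_sq {a : Fin 2 → ℂ} (h : Unitary a) : ‖a 0 + a 1‖ ^ 2 = 1 + rt 0 a 1 := by
  obtain ⟨h0, τ, hτ⟩ := h
  have h1 : (starRingEnd ℂ) (a 0) + (starRingEnd ℂ) (a 1) = (a 0)⁻¹ + (a 1)⁻¹ := by
    have h2 : ∀ i, (starRingEnd ℂ) (a i) = (a (τ i))⁻¹ := fun i => by rw [hτ, inv_inv]
    have h3 := Equiv.sum_comp τ fun i => (a i)⁻¹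
    rw [Fin.sum_univ_two, Fin.sum_univ_two] at h3
    rw [h2, h2, h3]
  have h2 : ((‖a 0 + a 1‖ ^ 2 : ℝ) : ℂ) = ((1 + rt 0 a 1 : ℝ) : ℂ) := by
    rw [← Complex.normSq_eq_norm_sq, ← Complex.mul_conj, map_add, h1]
    push_cast
    rw [← tr_eq ⟨h0, τ, hτ⟩]
    unfold tr
    rw [if_pos rfl]
    have := h0 0
    have := h0 1
    field_simp
    ring
  exact_mod_cast h2

theorem norm_four {a : Fin 2 → ℂ} (h : Unitary a) :
    ‖a 0 + a 1‖ ^ 4 = 2 + 3 * rt 0 a 1 + rt 1 a 1 := by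
  have h1 := norm_sq h
  have h2 := rt_sq h 1
  calc ‖a 0 + a 1‖ ^ 4 = (‖a 0 + a 1‖ ^ 2) ^ 2 := by ring
    _ = (1 + rt 0 a 1) ^ 2 := by rw [h1]
    _ = _ := by linear_combination h2

/-- **The law of large numbers.** -/
theorem law_second (h : Family α) (hm : 0 < m) {η : ℝ} (hη : 0 < η) : ∃ C : ℝ, ∀ σ : ℝ, 1 < σ →
    ∑' v : PL S, (open Classical in
      if η ≤ |(∑ i, ‖α i v 0 + α i v 1‖ ^ 2) / m - 1| then (qq v.1 : ℝ) ^ (-σ) else 0) ≤
        1 / (η ^ 2 * m) * Z S σ + C := by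
  classical
  have hm' : (0 : ℝ) < m := by exact_mod_cast hm
  refine square_bound h 0 (fun _ => 1 / m) (fun _ => 0) (M := η ^ 2) (by positivity) ?_
    (fun v => η ≤ |(∑ i, ‖α i v 0 + α i v 1‖ ^ 2) / m - 1|) (fun v hv => ?_)
  · rw [Finset.sum_const, Finset.card_univ, Fintype.card_fin, nsmul_eq_mul]
    apply le_of_eq
    field_simp
    ring
  · have h1 : (∑ i, ‖α i v 0 + α i v 1‖ ^ 2) / m - 1 =
        0 + ∑ i, (1 / m * rt 0 (α i v) 1 + 0 * rt 1 (α i v) 1) := by
      rw [Finset.sum_congr rfl fun i _ => norm_sq (h.unitary i v), Finset.sum_add_distrib,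
        Finset.sum_const, Finset.card_univ, Fintype.card_fin, nsmul_eq_mul]
      simp only [zero_mul, add_zero, zero_add, ← Finset.mul_sum]
      field_simp
      ring
    rw [h1] at hv
    calc η ^ 2 ≤ |0 + ∑ i, (1 / m * rt 0 (α i v) 1 + 0 * rt 1 (α i v) 1)| ^ 2 :=
          pow_le_pow_left₀ hη.le hv 2
      _ = _ := sq_abs _

theorem law_fourth (h : Family α) (hm : 0 < m) {η : ℝ} (hη : 0 < η) : ∃ C : ℝ, ∀ σ : ℝ, 1 < σ →
    ∑' v : PL S, (open Classical in
      if η ≤ |(∑ i, ‖α i v 0 + α i v 1‖ ^ 4) / m - 2| then (qq v.1 : ℝ) ^ (-σ) else 0) ≤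
        10 / (η ^ 2 * m) * Z S σ + C := by
  classical
  have hm' : (0 : ℝ) < m := by exact_mod_cast hm
  refine square_bound h 0 (fun _ => 3 / m) (fun _ => 1 / m) (M := η ^ 2) (by positivity) ?_
    (fun v => η ≤ |(∑ i, ‖α i v 0 + α i v 1‖ ^ 4) / m - 2|) (fun v hv => ?_)
  · rw [Finset.sum_const, Finset.card_univ, Fintype.card_fin, nsmul_eq_mul]
    apply le_of_eq
    field_simp
    ring
  · have h1 : (∑ i, ‖α i v 0 + α i v 1‖ ^ 4) / m - 2 =
        0 + ∑ i, (3 / m * rt 0 (α i v) 1 + 1 / m * rt 1 (α i v) 1) := by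
      rw [Finset.sum_congr rfl fun i _ => norm_four (h.unitary i v), Finset.sum_add_distrib,
        Finset.sum_add_distrib, Finset.sum_const, Finset.card_univ, Fintype.card_fin, nsmul_eq_mul]
      simp only [zero_add, ← Finset.mul_sum, Finset.sum_add_distrib]
      field_simp
      ring
    rw [h1] at hv
    calc η ^ 2 ≤ |0 + ∑ i, (3 / m * rt 0 (α i v) 1 + 1 / m * rt 1 (α i v) 1)| ^ 2 :=
          pow_le_pow_left₀ hη.le hv 2
      _ = _ := sq_abs _

theorem Z_tendsto (S : Finset (HeightOneSpectrum (𝓞 K))) : Tendsto (Z S) (𝓝[>] 1) atTop := by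
  obtain ⟨C, hC⟩ := Z_bdd S
  have h1 : Tendsto (fun σ : ℝ => Lam σ + (-C)) (𝓝[>] 1) atTop :=
    tendsto_atTop_add_const_right _ _ Pool.Agent.H921R2.TatePole.Lam_tendsto
  refine tendsto_atTop_mono' _ ?_ h1
  filter_upwards [hC] with σ hσ
  rw [abs_le] at hσ
  linarith [hσ.1]

/-- A set of places of positive upper density is exceptional for few representations. -/
theorem few_exceptional (h : Family α) (P : Set (PL S)) (hP : ∀ v ∈ P, ∀ i, ¬ Tempered (α i v))
    {δ : ℝ} (hδ : 0 < δ) (hfreq : ∃ᶠ σ : ℝ in 𝓝[>] 1, δ * Z S σ ≤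
      ∑' v : PL S, (open Classical in if v ∈ P then (qq v.1 : ℝ) ^ (-σ) else 0)) :
    (m : ℝ) ≤ (1 / δ - 1) / 34 := by
  classical
  obtain ⟨C, hC⟩ := all_nontempered h
  by_contra hcon
  push Not at hcon
  have hm0 : (0 : ℝ) ≤ m := by positivity
  have h1 : 1 / (34 * (m : ℝ) + 1) < δ := by
    rw [div_lt_iff₀ (by norm_num)] at hcon
    have h2 : 1 / δ < 34 * (m : ℝ) + 1 := by linarith
    rw [div_lt_iff₀ hδ] at h2
    rw [div_lt_iff₀ (by positivity)]
    linarith
  set γ := δ - 1 / (34 * (m : ℝ) + 1) with hγ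
  have hγ0 : 0 < γ := by rw [hγ]; linarith
  have h3 := (Z_tendsto S).eventually_gt_atTop (C / γ)
  obtain ⟨σ, h4, h5, h6⟩ := (hfreq.and_eventually (h3.and self_mem_nhdsWithin)).exists
  have hσ : (1 : ℝ) < σ := h6
  have h7 := hC σ hσ
  have hs := Pool.Agent.TH861.GL3.summable_qq (S := S) hσ
  have h8 : ∑' v : PL S, (if v ∈ P then (qq v.1 : ℝ) ^ (-σ) else 0) ≤
      ∑' v : PL S, (if ∀ i, ¬ Tempered (α i v) then (qq v.1 : ℝ) ^ (-σ) else 0) := by
    refine Summable.tsum_le_tsum (fun v => ?_) ?_ ?_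
    · by_cases hv : v ∈ P
      · rw [if_pos hv, if_pos (hP v hv)]
      · rw [if_neg hv]
        split_ifs <;> positivity
    · refine Summable.of_nonneg_of_le (fun v => ?_) (fun v => ?_) hs
      · split_ifs <;> positivity
      · split_ifs
        · exact le_rfl
        · positivity
    · refine Summable.of_nonneg_of_le (fun v => ?_) (fun v => ?_) hs
      · split_ifs <;> positivity
      · split_ifs
        · exact le_rfl
        · positivity
  rw [div_lt_iff₀ hγ0] at h5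
  have h9 : Z S σ * γ = δ * Z S σ - 1 / (34 * (m : ℝ) + 1) * Z S σ := by rw [hγ]; ring
  linarith

end Run7.h911.RC
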