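import Pool.Agent.Run7.h911.ST3

/-!
# Relative densities on the Sato-Tate intervals
-/

set_option autoImplicit false

namespace Run7.h911.ST

open NumberField IsDedekindDomain Filter Topology
open Pool.Agent.TH861.GL3 (PL qq)
open Run7.h911.RC (wt wt_nonneg wt_zero summable_wt logL logL_real log_bdd Z Z_tendsto Unitary
  Tempered tr rt tr_eq rt_sq' rt_large norm_sq norm_four quot_cases inv_quot)

variable {K : Type*} [Field K] [NumberField K] {S : Finset (HeightOneSpectrum (𝓞 K))}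

open Classical in
/-- the Dirichlet series `∑_{v, P v} f v (N v)^{-σ}` -/
noncomputable def DS (P : PL S → Prop) (f : PL S → ℝ) (σ : ℝ) : ℝ :=
  ∑' v : PL S, if P v then f v * (qq v.1 : ℝ) ^ (-σ) else 0

variable {α : PL S → Fin 2 → ℂ} {θ : PL S → ℝ} {a b : ℝ}

theorem mu_pos (h0 : 0 ≤ a) (hab : a < b) (hb : b ≤ Real.pi) : 0 < mu a b := by
  unfold mu
  have hp := Real.pi_pos
  have : 0 < ∫ t in a..b, Real.sin t ^ 2 := by
    refine intervalIntegral.intervalIntegral_pos_of_pos_on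
      (Continuous.intervalIntegrable (by fun_prop) _ _) (fun t ht => ?_) hab
    have := Real.sin_pos_of_pos_of_lt_pi (lt_of_le_of_lt h0 ht.1) (ht.2.trans_le hb)
    positivity
  positivity

theorem DS_ind (f : PL S → ℝ) (σ : ℝ) : DS (fun v => a ≤ θ v ∧ θ v ≤ b) f σ =
    ∑' v : PL S, f v * ind a b (θ v) * (qq v.1 : ℝ) ^ (-σ) := by
  unfold DS ind
  refine tsum_congr fun v => ?_
  by_cases hv : a ≤ θ v ∧ θ v ≤ b
  · rw [if_pos hv, if_pos (Set.mem_Icc.2 hv), mul_one]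
  · rw [if_neg hv, if_neg (fun h => hv (Set.mem_Icc.1 h)), mul_zero, zero_mul]

theorem DS_true (σ : ℝ) : DS (S := S) (fun _ => True) (fun _ => 1) σ = Z S σ := by
  unfold DS Z
  exact tsum_congr fun v => by rw [if_pos trivial, one_mul]

/-- the means over the interval -/
theorem mean_DS (h : Pair α θ) {u0 u1 u2 : ℝ} (hu : 0 ≤ u0) {f : PL S → ℝ}
    (hf : ∀ v, f v = G u0 u1 u2 (α v)) (hG : ∀ v, 0 ≤ f v) (h0 : 0 ≤ a) (hab : a < b)
    (hb : b ≤ Real.pi) :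
    Tendsto (fun σ => DS (fun v => a ≤ θ v ∧ θ v ≤ b) f σ / Z S σ) (𝓝[>] 1) (𝓝 (u0 * mu a b)) := by
  refine (interval_mean h (u1 := u1) (u2 := u2) hu (fun v => (hf v) ▸ hG v) h0 hab.le hb).congr
    fun σ => ?_
  rw [DS_ind]
  simp only [hf]

theorem mean_one (h : Pair α θ) (h0 : 0 ≤ a) (hab : a < b) (hb : b ≤ Real.pi) :
    Tendsto (fun σ => DS (fun v => a ≤ θ v ∧ θ v ≤ b) (fun _ => 1) σ / Z S σ) (𝓝[>] 1)
      (𝓝 (mu a b)) := by
  have := mean_DS h (u0 := 1) (u1 := 0) (u2 := 0) zero_le_one (f := fun _ => 1)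
    (fun v => by unfold G; ring) (fun _ => zero_le_one) h0 hab hb
  rwa [one_mul] at this

theorem ratio (h : Pair α θ) {u0 u1 u2 : ℝ} (hu : 0 ≤ u0) {f : PL S → ℝ}
    (hf : ∀ v, f v = G u0 u1 u2 (α v)) (hG : ∀ v, 0 ≤ f v) (h0 : 0 ≤ a) (hab : a < b)
    (hb : b ≤ Real.pi) :
    Tendsto (fun σ => DS (fun v => a ≤ θ v ∧ θ v ≤ b) f σ /
      DS (fun v => a ≤ θ v ∧ θ v ≤ b) (fun _ => 1) σ) (𝓝[>] 1) (𝓝 u0) := by
  have hm := mu_pos h0 hab hb
  have h1 := (mean_DS h hu hf hG h0 hab hb).div (mean_one h h0 hab hb) hm.ne'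
  rw [mul_div_assoc, div_self hm.ne', mul_one] at h1
  refine h1.congr' ?_
  filter_upwards [(Z_tendsto S).eventually_gt_atTop 0] with σ hσ
  simp only [Pi.div_apply]
  rw [div_div_div_cancel_right₀ hσ.ne']

/-- upper bounds for relative densities -/
theorem rel_bound (h : Pair α θ) {u0 u1 u2 : ℝ} (hu : 0 ≤ u0) (hG : ∀ v, 0 ≤ G u0 u1 u2 (α v))
    {P : PL S → Prop} (hP : ∀ v, P v → 1 ≤ G u0 u1 u2 (α v)) (h0 : 0 ≤ a) (hab : a < b)
    (hb : b ≤ Real.pi) {ε : ℝ} (hε : 0 < ε) :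
    ∀ᶠ σ : ℝ in 𝓝[>] 1, DS (fun v => (a ≤ θ v ∧ θ v ≤ b) ∧ P v) (fun _ => 1) σ ≤
      (u0 + ε) * DS (fun v => a ≤ θ v ∧ θ v ≤ b) (fun _ => 1) σ := by
  have h1 := ratio h hu (f := fun v => G u0 u1 u2 (α v)) (fun _ => rfl) hG h0 hab hb
  have h2 := h1.eventually (gt_mem_nhds (show u0 < u0 + ε by linarith))
  obtain ⟨C0, hC0⟩ := mixed_bdd h 0 0
  obtain ⟨C1, hC1⟩ := mixed_bdd h 1 0
  have h3 := (mean_one h h0 hab hb).eventually (lt_mem_nhds (mu_pos h0 hab hb))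
  filter_upwards [h2, h3, (Z_tendsto S).eventually_gt_atTop 0, hC0, hC1, self_mem_nhdsWithin]
    with σ h4 h5 h6 h7 h8 h9
  have h10 : 0 < DS (fun v => a ≤ θ v ∧ θ v ≤ b) (fun _ => 1) σ := by
    by_contra hcon
    have := div_nonpos_of_nonpos_of_nonneg (not_lt.1 hcon) h6.le
    linarith
  have h11 : DS (fun v => a ≤ θ v ∧ θ v ≤ b) (fun v => G u0 u1 u2 (α v)) σ ≤
      (u0 + ε) * DS (fun v => a ≤ θ v ∧ θ v ≤ b) (fun _ => 1) σ := by
    rw [div_lt_iff₀ h10] at h4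
    exact h4.le
  refine le_trans ?_ h11
  have h12 := Pool.Agent.TH861.GL3.summable_qq (S := S) (σ := σ) h9
  have hsG : Summable fun v : PL S => G u0 u1 u2 (α v) * (qq v.1 : ℝ) ^ (-σ) := by
    refine ((h12.mul_left u0).add ((h7.1.mul_left u1).add (h8.1.mul_left u2))).congr fun v => ?_
    unfold G
    rw [U_zero]
    ring
  have hq : ∀ v : PL S, 0 ≤ (qq v.1 : ℝ) ^ (-σ) := fun v =>
    Real.rpow_nonneg (Pool.Agent.TH861.GL3.qq_pos v.1).le _
  unfold DS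
  classical
  refine Summable.tsum_le_tsum (fun v => ?_) ?_ ?_
  · have h13 := hG v
    have h14 := hq v
    by_cases hv : a ≤ θ v ∧ θ v ≤ b
    · by_cases hpv : P v
      · rw [if_pos ⟨hv, hpv⟩, if_pos hv]
        exact mul_le_mul_of_nonneg_right (hP v hpv) h14
      · rw [if_neg (fun h => hpv h.2), if_pos hv]
        positivity
    · rw [if_neg (fun h => hv h.1), if_neg hv]
  · refine Summable.of_nonneg_of_le (fun v => ?_) (fun v => ?_) h12
    · have := hq v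
      split_ifs
      · rwa [one_mul]
      · exact le_rfl
    · have := hq v
      split_ifs
      · rw [one_mul]
      · exact this
  · refine Summable.of_nonneg_of_le (fun v => ?_) (fun v => ?_) hsG
    · have h13 := hG v
      have h14 := hq v
      split_ifs
      · positivity
      · exact le_rfl
    · have h13 := hG v
      have h14 := hq v
      split_ifs
      · exact le_rfl
      · positivity

theorem cantelli (h : Pair α θ) {s t : ℝ} (hs : s ^ 2 = 1) (ht : 0 < t) {P : PL S → Prop}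
    (hP : ∀ v, P v → t ≤ s * rt 0 (α v) 1) (h0 : 0 ≤ a) (hab : a < b)
    (hb : b ≤ Real.pi) {ε : ℝ} (hε : 0 < ε) :
    ∀ᶠ σ : ℝ in 𝓝[>] 1, DS (fun v => (a ≤ θ v ∧ θ v ≤ b) ∧ P v) (fun _ => 1) σ ≤
      (1 / (1 + t ^ 2) + ε) * DS (fun v => a ≤ θ v ∧ θ v ≤ b) (fun _ => 1) σ := by
  have ht2 : 0 < 1 + t ^ 2 := by positivity
  have e : ∀ v, G (1 / (1 + t ^ 2)) ((2 * s * t + t ^ 2) / (1 + t ^ 2) ^ 2) (t ^ 2 / (1 + t ^ 2) ^ 2)
      (α v) = ((1 + t * (s * rt 0 (α v) 1)) / (1 + t ^ 2)) ^ 2 := by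
    intro v
    unfold G
    have h1 := Run7.h911.RC.rt_sq (h.unitary v) 1
    have h2 : (t * (s * rt 0 (α v) 1)) ^ 2 = t ^ 2 * (1 + rt 0 (α v) 1 + rt 1 (α v) 1) := by
      rw [← h1, mul_pow, mul_pow, hs, one_mul]
    field_simp
    nlinarith
  refine rel_bound h (u1 := (2 * s * t + t ^ 2) / (1 + t ^ 2) ^ 2)
    (u2 := t ^ 2 / (1 + t ^ 2) ^ 2) (by positivity) (fun v => ?_) (fun v hv => ?_) h0 hab hb hε
  · rw [e]
    positivity
  · rw [e]
    have h1 := hP v hv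
    have h2 : 1 ≤ (1 + t * (s * rt 0 (α v) 1)) / (1 + t ^ 2) := by
      rw [le_div_iff₀ ht2]
      nlinarith
    nlinarith

end Run7.h911.ST
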