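import Pool.Agent.Run7.h911.Fin1

/-!
# Closing of returns, final forms
-/

set_option autoImplicit false
open Set Filter Topology Metric

namespace Run7.h911

open Pool.Agent.W746.LD Pool.Agent.T2H09.LU Pool.Agent.T2H09.LV N62a1eb23

/-- Closing of returns near a point that escapes. -/
theorem fin_close {n : ℕ} (hn : 2 ≤ n) : ∃ A0 : ℕ, ∀ A : ℕ, A0 ≤ A → ∀ c ∈ multibrotSet n,
    ∀ N : ℕ, 2 ≤ N → ∀ J : ℕ, 1 ≤ J → J ≤ N → ∀ z : ℂ, 3 ≤ ‖orb n c z N‖ →
    ∀ R : ℝ, 0 < R → R ≤ 1 → (∀ j, 1 ≤ j → j < J → R ≤ ‖orb n c c j - c‖) →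
    Near n (N + 2) c ((N * (1 + |Real.log R|)) ^ A / R *
      max ‖z - c‖ (‖orb n c c J - c‖ / max 1 ‖P n c c J‖)) := by
  obtain ⟨A1, hA1, h⟩ := close_m hn
  obtain ⟨A0, hA0⟩ := exists_nat_ge A1
  refine ⟨A0, ?_⟩
  intro A hA c hc N hN J hJ1 hJN z hz R hR hR1 hdeep
  have hN2 : (2 : ℝ) ≤ N := by exact_mod_cast hN
  have hlR : Real.log R ≤ 0 := Real.log_nonpos hR.le hR1
  have habs : |Real.log R| = -Real.log R := abs_of_nonpos hlR
  have hX0 : 0 ≤ max ‖z - c‖ (‖orb n c c J - c‖ / max 1 ‖P n c c J‖) :=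
    le_max_of_le_left (norm_nonneg _)
  have hnn : 0 ≤ (N * (1 + |Real.log R|)) ^ A / R *
      max ‖z - c‖ (‖orb n c c J - c‖ / max 1 ‖P n c c J‖) := by positivity
  by_cases h0 : ∀ j < J, orb n c c j ≠ 0
  swap
  · push Not at h0
    obtain ⟨j, hj, h1⟩ := h0
    exact near_of_zero hn (by omega : j < N) h1 hnn
  have hm : 0 ≤ -Real.log R := by linarith
  have hdl : dl n c N ≤ ‖z - c‖ := by
    unfold dl
    rw [← dist_eq_norm, dist_comm]
    apply infDist_le_dist_of_mem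
    intro hcon
    have h2 : ‖orb n c z N‖ < 3 := hcon
    linarith
  have key := h c hc N hN J hJ1 hJN (-Real.log R) hm h0
    (fun j hj1 hj2 => kk_le_of hR (hdeep j hj1 hj2)) _ (hdl.trans (le_max_left _ _))
    (le_max_right _ _)
  refine key.mono le_rfl ?_
  apply mul_le_mul_of_nonneg_right _ hX0
  have hY : 1 ≤ (N : ℝ) * (1 + -Real.log R) := by nlinarith
  have hlY : 0 ≤ Real.log ((N : ℝ) * (1 + -Real.log R)) := Real.log_nonneg hY
  have hAA : A1 ≤ (A : ℝ) := by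
    have : (A0 : ℝ) ≤ A := by exact_mod_cast hA
    linarith
  rw [habs, Real.exp_add, Real.exp_neg, Real.exp_log hR, div_eq_mul_inv, mul_comm]
  apply mul_le_mul_of_nonneg_right _ (by positivity)
  calc Real.exp (A1 * Real.log (N * (1 + -Real.log R)))
      ≤ Real.exp (A * Real.log (N * (1 + -Real.log R))) := by
        apply Real.exp_le_exp.mpr
        gcongr
    _ = (N * (1 + -Real.log R)) ^ A := by
        rw [Real.exp_nat_mul, Real.exp_log (by linarith)]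

/-- Closing of returns without a point that escapes; `‖(f n c)^[N] 0‖ ^ (n - 1)` is the power
`1 - 1 / n` of the distance of the return. -/
theorem fin_close2 {n : ℕ} (hn : 2 ≤ n) : ∃ A0 : ℕ, ∀ A : ℕ, A0 ≤ A → ∀ c ∈ multibrotSet n,
    ∀ N : ℕ, 2 ≤ N → ∀ R : ℝ, 0 < R → R ≤ 1 →
    (∀ j, 1 ≤ j → j < N → R ≤ ‖orb n c c j - c‖) →
    Near n (N + 2) c ((N : ℝ) ^ A / R * ‖orb n c c (N - 1)‖ ^ (n - 1)) := by
  obtain ⟨A0, h⟩ := close_q hn
  refine ⟨A0, ?_⟩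
  intro A hA c hc N hN R hR hR1 hdeep
  have hN2 : (2 : ℝ) ≤ N := by exact_mod_cast hN
  have hN0 : (0 : ℝ) < N := by linarith
  have hlR : Real.log R ≤ 0 := Real.log_nonpos hR.le hR1
  have hnn : 0 ≤ (N : ℝ) ^ A / R * ‖orb n c c (N - 1)‖ ^ (n - 1) := by positivity
  by_cases h0 : ∀ j < N, orb n c c j ≠ 0
  swap
  · push Not at h0
    obtain ⟨j, hj, h1⟩ := h0
    exact near_of_zero hn (by omega : j < N) h1 hnn
  have hm : 0 ≤ -Real.log R := by linarith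
  have key := h A hA c hc N hN h0 (-Real.log R) hm
    (fun j hj1 hj2 => kk_le_of hR (hdeep j hj1 hj2))
  refine key.mono le_rfl (le_of_eq ?_)
  obtain ⟨N', rfl⟩ : ∃ N', N = N' + 1 := ⟨N - 1, by omega⟩
  have hc0 : 0 < ‖orb n c c N'‖ := norm_pos_iff.mpr (h0 N' (by omega))
  have hn0 : (n : ℝ) ≠ 0 := by exact_mod_cast (by omega : n ≠ 0)
  have hk : (1 - 1 / (n : ℝ)) * kk n c (N' + 1) = -(((n - 1 : ℕ) : ℝ) * Real.log ‖orb n c c N'‖) := by
    unfold kk
    rw [norm_orb_succ_sub, Real.log_pow, Nat.cast_sub (by omega)]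
    push_cast
    field_simp
  rw [hk, sub_neg_eq_add, Real.exp_add, Real.exp_add, Real.exp_neg, Real.exp_log hR,
    Real.exp_nat_mul, Real.exp_nat_mul, Real.exp_log hN0, Nat.add_sub_cancel, Real.exp_log hc0]
  ring

end Run7.h911
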