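import Pool.Agent.Run7.h911.Gen4
import Pool.Agent.T2H09.LW.Pseudo

/-!
# Final forms
-/

set_option autoImplicit false
open Set Filter Topology Metric

namespace Run7.h911

open Pool.Agent.W746.LD Pool.Agent.T2H09.LU Pool.Agent.T2H09.LV N62a1eb23
open Pool.Agent.TH363.QI (D)

/-- Recurrence of the critical value, up to the returns with large derivative. -/
def RecP (n : ℕ) (c : ℂ) (N : ℕ) (K R : ℝ) : Prop :=
  ∀ j, 1 ≤ j → j < N → R ≤ ‖orb n c c j - c‖ ∨ K ≤ ‖P n c c j‖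

/-- Transversality and nearby centres. -/
theorem fin_trans {n : ℕ} (hn : 2 ≤ n) : ∃ A : ℕ,
    (∀ c ∈ multibrotSet n, ∀ N : ℕ, 2 ≤ N → ∀ R : ℝ, 0 < R → R ≤ 1 →
      RecP n c N ((N : ℝ) ^ A) R →
      R * ‖P n c c N‖ ≤ (N : ℝ) ^ A * (1 + ‖D n c N‖) ∧
      ∃ c' : ℂ, (∃ p, 1 ≤ p ∧ p ≤ N + 2 ∧ (f n c')^[p] 0 = 0 ∧ IsAttractingCycle (f n c') p 0) ∧
        ‖c' - c‖ * (R * ‖P n c c N‖) ≤ (N : ℝ) ^ A) ∧
    (∀ c ∈ multibrotSet n,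
      (∃ᶠ N : ℕ in atTop, ∃ R : ℝ, 0 < R ∧ R ≤ 1 ∧ RecP n c N ((N : ℝ) ^ A) R ∧
        (N : ℝ) ^ (A + 1) ≤ R * ‖P n c c N‖) →
      c ∈ closure {c | ∃ m z, IsAttractingCycle (f n c) m z}) := by
  obtain ⟨A1, h1⟩ := trans_ineq hn
  obtain ⟨A2, h2⟩ := near_ineq hn
  have main : ∀ c ∈ multibrotSet n, ∀ N : ℕ, 2 ≤ N → ∀ R : ℝ, 0 < R → R ≤ 1 →
      RecP n c N ((N : ℝ) ^ (max A1 A2)) R →
      R * ‖P n c c N‖ ≤ (N : ℝ) ^ (max A1 A2) * (1 + ‖D n c N‖) ∧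
      ∃ c' : ℂ, (∃ p, 1 ≤ p ∧ p ≤ N + 2 ∧ (f n c')^[p] 0 = 0 ∧ IsAttractingCycle (f n c') p 0) ∧
        ‖c' - c‖ * (R * ‖P n c c N‖) ≤ (N : ℝ) ^ (max A1 A2) := by
    intro c hc N hN R hR hR1 hrec
    have hN1 : (1 : ℝ) ≤ N := by exact_mod_cast (by omega : 1 ≤ N)
    have hle1 : (N : ℝ) ^ A1 ≤ (N : ℝ) ^ (max A1 A2) := pow_le_pow_right₀ hN1 (le_max_left _ _)
    have hle2 : (N : ℝ) ^ A2 ≤ (N : ℝ) ^ (max A1 A2) := pow_le_pow_right₀ hN1 (le_max_right _ _)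
    refine ⟨h1 _ (le_max_left _ _) c hc N hN R hR hR1 fun j hj1 hj2 => ?_, ?_⟩
    · exact (hrec j hj1 hj2).imp_right hle1.trans
    · obtain ⟨t, ht1, p, hp1, hp2, hp3⟩ := h2 _ (le_max_right A1 A2) c hc N hN R hR hR1
        fun j hj1 hj2 => (hrec j hj1 hj2).imp_right hle2.trans
      exact ⟨t, ⟨p, hp1, hp2, hp3, Pool.Agent.H548R3.MB.att_of_centre hn hp1 hp3⟩, ht1⟩
  refine ⟨max A1 A2, main, ?_⟩
  intro c hc hfreq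
  rw [Metric.mem_closure_iff]
  intro ε hε
  obtain ⟨N, ⟨R, hR, hR1, hrec, hbig⟩, hN⟩ := (hfreq.and_eventually
    (eventually_ge_atTop (max 2 (⌈1 / ε⌉₊ + 1)))).exists
  have hN2 : 2 ≤ N := (le_max_left _ _).trans hN
  have hNε : ⌈1 / ε⌉₊ + 1 ≤ N := (le_max_right _ _).trans hN
  have hN0 : (0 : ℝ) < N := by exact_mod_cast (by omega : 0 < N)
  obtain ⟨-, c', ⟨p, -, -, -, hp⟩, h4⟩ := main c hc N hN2 R hR hR1 hrec
  refine ⟨c', ⟨p, 0, hp⟩, ?_⟩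
  rw [dist_comm, dist_eq_norm]
  have h5 : ‖c' - c‖ * (N : ℝ) ^ (max A1 A2 + 1) ≤ (N : ℝ) ^ (max A1 A2) := by
    refine le_trans ?_ h4
    gcongr
  have h6 : ‖c' - c‖ * N ≤ 1 := by
    have hpos : 0 < (N : ℝ) ^ (max A1 A2) := by positivity
    rw [pow_succ] at h5
    by_contra hlt
    push Not at hlt
    nlinarith
  have h7 : 1 / ε < N := by
    have h8 := Nat.le_ceil (1 / ε)
    have h9 : ((⌈1 / ε⌉₊ + 1 : ℕ) : ℝ) ≤ N := by exact_mod_cast hNε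
    push_cast at h9
    linarith
  rw [div_lt_iff₀ hε] at h7
  by_contra hlt
  push Not at hlt
  nlinarith

end Run7.h911
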