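import Pool.Agent.Run7.h911.FD3

/-!
# Sparse terms of a trajectory: conclusion
-/

set_option autoImplicit false
open Finset

namespace Run7.h911.FD

lemma TD_conj {D : ℕ} (hD : D % 2 = 1) (x : ℤ) : D * TD 1 x = TD D (D * x) := by
  have hD2 : (D : ℤ) % 2 = 1 := by exact_mod_cast hD
  rcases Int.emod_two_eq_zero_or_one x with h0 | h0
  · have h1 : ((D : ℤ) * x) % 2 = 0 := by
      rw [Int.mul_emod, h0]
      simp
    rw [TD_even h0, TD_even h1]
    obtain ⟨y, rfl⟩ : ∃ y, x = 2 * y := ⟨x / 2, by omega⟩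
    have e1 : 2 * y / 2 = y := by omega
    have e2 : (D : ℤ) * (2 * y) / 2 = D * y := by
      rw [show (D : ℤ) * (2 * y) = 2 * (D * y) by ring]
      omega
    rw [e1, e2]
  · have h1 : ((D : ℤ) * x) % 2 = 1 := by
      rw [Int.mul_emod, h0, hD2]
      norm_num
    rw [TD_odd h0, TD_odd h1]
    obtain ⟨y, hy⟩ : ∃ y, 3 * x + (1 : ℕ) = 2 * y := ⟨(3 * x + 1) / 2, by push_cast; omega⟩
    have e1 : 2 * y / 2 = y := by omega
    have e2 : 3 * ((D : ℤ) * x) + D = 2 * (D * y) := by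
      push_cast at hy
      linear_combination D * hy
    rw [hy, e1, e2]
    omega

lemma TD_conj_iter {D : ℕ} (hD : D % 2 = 1) (x : ℤ) (i : ℕ) :
    D * (TD 1)^[i] x = (TD D)^[i] (D * x) := by
  induction i with
  | zero => rfl
  | succ i ih => rw [Function.iterate_succ_apply', Function.iterate_succ_apply', ← ih, TD_conj hD]

/-- the final computation -/
theorem final_bound {h K₀ A B' : ℕ} : ∃ C : ℝ, 0 < C ∧ ∀ (N c : ℕ), 1 ≤ N →
    (∀ K : ℕ, K₀ ≤ K → 1 ≤ K → c ≤ A * (4 ^ h * K) ^ (h - 1) + B' * (N / (K + 1) + 1)) →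
    (c : ℝ) ≤ C * (N : ℝ) ^ (1 - 1 / (h : ℝ)) := by
  rcases Nat.eq_zero_or_pos h with h0 | hpos
  · -- `h = 0`
    subst h0
    refine ⟨A + B' * 2 + 1, by positivity, fun N c hN hc => ?_⟩
    have h1 := hc (max K₀ (max 1 N)) (le_max_left _ _) ((le_max_left _ _).trans (le_max_right _ _))
    have h2 : N / (max K₀ (max 1 N) + 1) = 0 := by
      apply Nat.div_eq_of_lt
      have : N ≤ max K₀ (max 1 N) := (le_max_right _ _).trans (le_max_right _ _)
      omega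
    rw [h2] at h1
    simp only [pow_zero, one_mul, zero_add, mul_one] at h1
    have h4 : (c : ℝ) ≤ A + B' := by
      have : c ≤ A + B' := by simpa using h1
      exact_mod_cast this
    simp only [Nat.cast_zero, div_zero, sub_zero, Real.rpow_one]
    have hN' : (1 : ℝ) ≤ N := by exact_mod_cast hN
    have hA : (0 : ℝ) ≤ A := by positivity
    have hB : (0 : ℝ) ≤ B' := by positivity
    nlinarith
  · refine ⟨A * (4 ^ h * (K₀ + 2)) ^ (h - 1) + B' * 2 + 1, by positivity, fun N c hN hc => ?_⟩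
    have hN' : (1 : ℝ) ≤ N := by exact_mod_cast hN
    have hh : (1 : ℝ) ≤ h := by exact_mod_cast hpos
    set R : ℝ := (N : ℝ) ^ (1 / (h : ℝ)) with hR
    have hR1 : 1 ≤ R := Real.one_le_rpow hN' (by positivity)
    set K : ℕ := K₀ + ⌈R⌉₊ with hK
    have hK1 : 1 ≤ K := by
      have : 0 < ⌈R⌉₊ := Nat.ceil_pos.2 (by linarith)
      omega
    have hKR : (K : ℝ) ≤ (K₀ + 2) * R := by
      have h1 := Nat.ceil_lt_add_one (show 0 ≤ R by linarith)
      have h2 : (0 : ℝ) ≤ K₀ := by positivity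
      rw [hK]
      push_cast
      nlinarith
    have hKR2 : R ≤ (K : ℝ) + 1 := by
      have h1 := Nat.le_ceil R
      have h2 : (0 : ℝ) ≤ K₀ := by positivity
      rw [hK]
      push_cast
      linarith
    have h1 := hc K (by omega) hK1
    set S : ℝ := (N : ℝ) ^ (1 - 1 / (h : ℝ)) with hS
    have hS1 : 1 ≤ S := by
      apply Real.one_le_rpow hN'
      rw [sub_nonneg, div_le_one (by linarith)]
      exact hh
    have hRS : R * S = N := by
      rw [hR, hS, ← Real.rpow_add (by linarith)]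
      have : 1 / (h : ℝ) + (1 - 1 / (h : ℝ)) = 1 := by ring
      rw [this, Real.rpow_one]
    have hRp : R ^ (h - 1) = S := by
      rw [hR, hS, ← Real.rpow_natCast, ← Real.rpow_mul (by linarith)]
      congr 1
      rw [Nat.cast_sub hpos]
      field_simp
      simp
    have h2 : ((A * (4 ^ h * K) ^ (h - 1) : ℕ) : ℝ) ≤ A * (4 ^ h * (K₀ + 2)) ^ (h - 1) * S := by
      push_cast
      have h3 : ((4 : ℝ) ^ h * K) ^ (h - 1) ≤ (4 ^ h * ((K₀ + 2) * R)) ^ (h - 1) := by gcongr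
      calc (A : ℝ) * ((4 : ℝ) ^ h * K) ^ (h - 1) ≤ A * (4 ^ h * ((K₀ + 2) * R)) ^ (h - 1) := by
            gcongr
        _ = A * (4 ^ h * (K₀ + 2)) ^ (h - 1) * R ^ (h - 1) := by
            rw [← mul_assoc (4 ^ h : ℝ), mul_pow, mul_assoc]
        _ = _ := by rw [hRp]
    have h4 : ((N / (K + 1) : ℕ) : ℝ) ≤ S := by
      refine Nat.cast_div_le.trans ?_
      rw [div_le_iff₀ (by positivity), ← hRS]
      push_cast
      nlinarith
    have h5 : (c : ℝ) ≤ ((A * (4 ^ h * K) ^ (h - 1) : ℕ) : ℝ) +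
        B' * (((N / (K + 1) : ℕ) : ℝ) + 1) := by exact_mod_cast h1
    have hB : (0 : ℝ) ≤ B' := by positivity
    have h6 : (B' : ℝ) * (((N / (K + 1) : ℕ) : ℝ) + 1) ≤ B' * (S + S) := by gcongr
    nlinarith

/-- the `i`-th term has a large gap, beyond `K` -/
def GapType (q D h H K : ℕ) (x : ℤ) (i : ℕ) : Prop :=
  ∃ (τ : ℕ) (u w : ℤ) (m : Fin h → ℤ) (e : Fin h → ℕ), K ≤ τ ∧ w ≠ 0 ∧
    (∀ i, |m i| ≤ H) ∧ (q : ℤ) ^ (4 * τ) * w = ∑ i, m i * (q : ℤ) ^ e i ∧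
    |u| ≤ h * H * (q : ℤ) ^ τ ∧ D * (TD 1)^[i] x = u + (q : ℤ) ^ (4 * τ) * w

/-- a sparse term which is not of gap type has small exponents -/
theorem not_gapType {q D h H K : ℕ} (hq : 1 ≤ q) {x : ℤ} {i : ℕ}
    (hrep : Rep q h H (D * (TD 1)^[i] x)) (hng : ¬ GapType q D h H K x i) :
    ∃ (m : Fin h → ℤ) (e : Fin h → ℕ), (∀ i, |m i| ≤ H) ∧ (∀ i, m i ≠ 0 → e i < 4 ^ h * K) ∧
      D * (TD 1)^[i] x = ∑ i, m i * (q : ℤ) ^ e i ∧
      |D * (TD 1)^[i] x| ≤ h * H * (q : ℤ) ^ (4 ^ h * K) := by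
  obtain ⟨m, e, hm, he⟩ := hrep
  obtain ⟨τ, u, w, m₁, m₂, h1, h2, h3, h4, h5, h6, h7, h8, h9⟩ := gap (K := K) hq (e := e) hm
  have hw : w = 0 := by
    by_contra hw
    exact hng ⟨τ, u, w, m₂, e, h1, hw, h5, h8, h9, by rw [he, h3]⟩
  have he2 : (D : ℤ) * (TD 1)^[i] x = u := by
    rw [he, h3, hw, mul_zero, add_zero]
  refine ⟨m₁, e, h4, fun j hj => (h6 j hj).trans_le h2, by rw [he2, h7], ?_⟩
  rw [he2]
  refine h9.trans ?_
  have hq' : (1 : ℤ) ≤ q := by exact_mod_cast hq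
  have : (q : ℤ) ^ τ ≤ (q : ℤ) ^ (4 ^ h * K) := pow_le_pow_right₀ hq' h2
  gcongr

theorem gap_count2 {D : ℕ} (hD : D % 2 = 1) (h H : ℕ) : ∃ B K₀ : ℕ, ∀ K : ℕ, K₀ ≤ K →
    ∀ (x : ℤ) (N : ℕ) (G : Finset ℕ), G ⊆ range N →
    (∀ i ∈ G, ¬ ((2 : ℕ) : ℤ) ∣ (TD 1)^[i] x ∧ Rep 2 h H (D * (TD 1)^[i] x) ∧
      GapType 2 D h H K x i) → G.card ≤ B * (N / (K + 1) + 1) := by
  classical
  obtain ⟨B, K₀, hwin⟩ := win2 hD h H
  refine ⟨B + 1, K₀, fun K hK0 x N G hG hGP => ?_⟩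
  have hD2 : (D : ℤ) % 2 = 1 := by exact_mod_cast hD
  have hpar : ∀ i ∈ G, (TD D)^[i] (D * x) % 2 = 1 := by
    intro i hi
    rw [← TD_conj_iter hD, Int.mul_emod, hD2]
    have h1 := (hGP i hi).1
    have : (TD 1)^[i] x % 2 = 1 := by
      have h2 := Int.emod_two_eq_zero_or_one ((TD 1)^[i] x)
      have h3 : ¬ (2 : ℤ) ∣ (TD 1)^[i] x := by exact_mod_cast h1
      omega
    rw [this]
    norm_num
  apply count_fwd hG
  intro i hi
  obtain ⟨τ, u, w, m, e, hKτ, hw, hm, hmw, hu, hX⟩ := (hGP i hi).2.2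
  push_cast at hmw hu hX
  rw [TD_conj_iter hD] at hX
  set W := G.filter fun j => i ≤ j ∧ j ≤ i + K with hW
  rcases W.eq_empty_or_nonempty with hne | hne
  · rw [hne]
    simp
  obtain ⟨j0, hj0, hmax⟩ := Finset.exists_max_image W (fun j => j) hne
  obtain ⟨hj0G, hj0a, hj0b⟩ := Finset.mem_filter.1 hj0
  have hod : od D (j0 - i) ((TD D)^[i] (D * x)) ≤ B := by
    rw [hX]
    refine hwin K τ hK0 hKτ u w m e hw hm hmw hu (j0 - i) (by omega) ?_
    rw [← hX, ← Function.iterate_add_apply, show j0 - i + i = j0 by omega, ← TD_conj_iter hD]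
    exact (hGP j0 hj0G).2.1
  have hsub : W ⊆ insert j0 (((range (j0 - i)).filter fun k =>
      (TD D)^[k] ((TD D)^[i] (D * x)) % 2 = 1).image fun k => k + i) := by
    intro j hj
    obtain ⟨hjG', hja, hjb⟩ := Finset.mem_filter.1 hj
    rcases eq_or_ne j j0 with rfl | hjne
    · exact Finset.mem_insert_self _ _
    · apply Finset.mem_insert_of_mem
      rw [Finset.mem_image]
      have := hmax j hj
      refine ⟨j - i, Finset.mem_filter.2 ⟨Finset.mem_range.2 (by omega), ?_⟩, by omega⟩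
      rw [← Function.iterate_add_apply, show j - i + i = j by omega]
      exact hpar j hjG'
  refine (Finset.card_le_card hsub).trans ((Finset.card_insert_le _ _).trans ?_)
  have := Finset.card_image_le (s := (range (j0 - i)).filter fun k =>
      (TD D)^[k] ((TD D)^[i] (D * x)) % 2 = 1) (f := fun k => k + i)
  have h2 : ((range (j0 - i)).filter fun k =>
      (TD D)^[k] ((TD D)^[i] (D * x)) % 2 = 1).card ≤ B := hod
  omega

theorem gap_count3 (D h H : ℕ) : ∃ B K₀ : ℕ, ∀ K : ℕ, K₀ ≤ K →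
    ∀ (x : ℤ) (N : ℕ) (G : Finset ℕ), G ⊆ range N →
    (∀ i ∈ G, ¬ ((3 : ℕ) : ℤ) ∣ (TD 1)^[i] x ∧ Rep 3 h H (D * (TD 1)^[i] x) ∧
      GapType 3 D h H K x i) → G.card ≤ B * (N / (K + 1) + 1) := by
  classical
  obtain ⟨B, K₀, hwin⟩ := win3 D h H
  refine ⟨B + 1, K₀, fun K hK0 x N G hG hGP => ?_⟩
  apply count_bwd hG
  intro i hi
  obtain ⟨τ, u, w, m, e, hKτ, hw, hm, hmw, hu, hX⟩ := (hGP i hi).2.2
  push_cast at hmw hu hX
  have hsub : (G.filter fun j => j ≤ i ∧ i ≤ j + K) ⊆ Finset.Icc (i - B) i := by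
    intro j hj
    obtain ⟨hjG, hja, hjb⟩ := Finset.mem_filter.1 hj
    have h1 := hwin K τ hK0 hKτ u w m e hw hm hmw hu (i - j) ((TD 1)^[j] x) (by omega) (by
      rw [← Function.iterate_add_apply, show i - j + j = i by omega]
      exact hX) (hGP j hjG).2.1
    rw [Finset.mem_Icc]
    omega
  refine (Finset.card_le_card hsub).trans ?_
  rw [Nat.card_Icc]
  omega

theorem gap_count {q D : ℕ} (hq : q = 2 ∨ q = 3) (hD : Nat.Coprime D q) (h H : ℕ) :
    ∃ B K₀ : ℕ, ∀ K : ℕ, K₀ ≤ K → ∀ (x : ℤ) (N : ℕ) (G : Finset ℕ), G ⊆ range N →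
    (∀ i ∈ G, ¬ (q : ℤ) ∣ (TD 1)^[i] x ∧ Rep q h H (D * (TD 1)^[i] x) ∧
      GapType q D h H K x i) → G.card ≤ B * (N / (K + 1) + 1) := by
  rcases hq with rfl | rfl
  · exact gap_count2 (Nat.odd_iff.1 (Nat.coprime_two_right.1 hD)) h H
  · exact gap_count3 D h H

/-- **Large sparse terms.** -/
theorem large_bound {q D : ℕ} (hq : q = 2 ∨ q = 3) (hD : Nat.Coprime D q) (h H : ℕ) :
    ∃ C : ℝ, 0 < C ∧ ∀ (x : ℤ) (N K : ℕ), 1 ≤ K → ∀ G : Finset ℕ, G ⊆ range N →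
    (∀ i ∈ G, ¬ (q : ℤ) ∣ (TD 1)^[i] x ∧ Rep q h H (D * (TD 1)^[i] x) ∧
      (q : ℤ) ^ K ≤ |(TD 1)^[i] x|) → (G.card : ℝ) ≤ C * (N / K + 1) := by
  obtain ⟨B, K₀, hB⟩ := gap_count hq hD h H
  have hq2 : 2 ≤ q := by rcases hq with rfl | rfl <;> norm_num
  have hD0 : D ≠ 0 := by
    rintro rfl
    rcases hq with rfl | rfl <;> simp at hD
  obtain ⟨g, hg1, hg⟩ := exists_pow_gt q hq2 (h * H)
  refine ⟨B * (4 ^ h * 2) + 2 * (4 ^ h * (K₀ + 1) + g) + 1, by positivity,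
    fun x N K hK G hG hGP => ?_⟩
  have hKr : (1 : ℝ) ≤ K := by exact_mod_cast hK
  have hN0 : (0 : ℝ) ≤ (N : ℝ) / K := by positivity
  have hB0 : (0 : ℝ) ≤ B := by positivity
  have h4h : (1 : ℝ) ≤ 4 ^ h := one_le_pow₀ (by norm_num)
  by_cases hKs : K ≤ 2 * (4 ^ h * (K₀ + 1) + g)
  · -- the trivial bound
    have h1 : (G.card : ℝ) ≤ N := by
      have := Finset.card_le_card hG
      rw [Finset.card_range] at this
      exact_mod_cast this
    have h2 : (K : ℝ) ≤ 2 * (4 ^ h * (K₀ + 1) + g) := by exact_mod_cast hKs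
    have h3 : (N : ℝ) = K * (N / K) := by field_simp
    have h4 : (K : ℝ) * (N / K) ≤ 2 * (4 ^ h * (K₀ + 1) + g) * (N / K) := by gcongr
    have h5 : (0 : ℝ) ≤ B * (4 ^ h * 2) := by positivity
    have h6 : (0 : ℝ) ≤ 2 * (4 ^ h * ((K₀ : ℝ) + 1) + g) := by positivity
    nlinarith
  · push Not at hKs
    set K' := (K - g) / 4 ^ h with hK'
    have h4pos : 0 < 4 ^ h := by positivity
    have hK'0 : K₀ ≤ K' := by
      rw [hK', Nat.le_div_iff_mul_le h4pos]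
      have : K₀ * 4 ^ h ≤ 4 ^ h * (K₀ + 1) := by rw [mul_comm]; gcongr; omega
      omega
    have hK'1 : 4 ^ h * K' + g ≤ K := by
      have := Nat.mul_div_le (K - g) (4 ^ h)
      rw [← hK'] at this
      omega
    have hK'2 : K ≤ 4 ^ h * 2 * (K' + 1) := by
      have h1 : K - g < 4 ^ h * (K' + 1) := by
        have := Nat.lt_mul_div_succ (K - g) h4pos
        rwa [← hK'] at this
      have : g ≤ K - g := by omega
      calc K ≤ 2 * (K - g) := by omega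
        _ ≤ 2 * (4 ^ h * (K' + 1)) := by omega
        _ = _ := by ring
    have hgt : ∀ i ∈ G, GapType q D h H K' x i := by
      intro i hi
      obtain ⟨h1, h2, h3⟩ := hGP i hi
      by_contra hcon
      obtain ⟨m, e, -, -, -, h4⟩ := not_gapType (by omega) h2 hcon
      rw [abs_mul] at h4
      have hD1 : (1 : ℤ) ≤ |(D : ℤ)| := by
        rw [abs_of_nonneg (by positivity)]
        exact_mod_cast Nat.one_le_iff_ne_zero.2 hD0
      have h5 : (h * H : ℤ) < (q : ℤ) ^ g := by exact_mod_cast hg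
      have hqp : (0 : ℤ) < (q : ℤ) ^ (4 ^ h * K') := by
        have : (0 : ℤ) < q := by exact_mod_cast (by omega : 0 < q)
        positivity
      have h6 : (h * H : ℤ) * (q : ℤ) ^ (4 ^ h * K') < (q : ℤ) ^ g * (q : ℤ) ^ (4 ^ h * K') :=
        mul_lt_mul_of_pos_right h5 hqp
      have h7 : (q : ℤ) ^ g * (q : ℤ) ^ (4 ^ h * K') ≤ (q : ℤ) ^ K := by
        rw [← pow_add]
        have hq1 : (1 : ℤ) ≤ q := by exact_mod_cast (by omega : 1 ≤ q)
        exact pow_le_pow_right₀ hq1 (by omega)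
      have h8 := abs_nonneg ((TD 1)^[i] x)
      nlinarith
    have h1 := hB K' hK'0 x N G hG fun i hi => ⟨(hGP i hi).1, (hGP i hi).2.1, hgt i hi⟩
    have h2 : (G.card : ℝ) ≤ B * (((N / (K' + 1) : ℕ) : ℝ) + 1) := by exact_mod_cast h1
    have h3 : ((N / (K' + 1) : ℕ) : ℝ) ≤ 4 ^ h * 2 * (N / K) := by
      refine Nat.cast_div_le.trans ?_
      rw [div_le_iff₀ (by positivity)]
      have h4 : (K : ℝ) ≤ 4 ^ h * 2 * (K' + 1) := by exact_mod_cast hK'2
      push_cast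
      calc (N : ℝ) = K * (N / K) := by field_simp
        _ ≤ 4 ^ h * 2 * (K' + 1) * (N / K) := by gcongr
        _ = _ := by ring
    have h5 : (0 : ℝ) ≤ 2 * (4 ^ h * ((K₀ : ℝ) + 1) + g) := by positivity
    have h6 : (B : ℝ) * (((N / (K' + 1) : ℕ) : ℝ) + 1) ≤ B * (4 ^ h * 2 * (N / K) + 1) := by
      gcongr
    have h7 : (B : ℝ) * 1 ≤ B * (4 ^ h * 2) := by
      gcongr
      linarith
    nlinarith [mul_nonneg h5 hN0]

/-- **All sparse terms.** -/
theorem total_bound {q D : ℕ} (hq : q = 2 ∨ q = 3) (hD : Nat.Coprime D q) (h H : ℕ) :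
    ∃ C : ℝ, 0 < C ∧ ∀ (x : ℤ) (N : ℕ), 1 ≤ N →
    Set.InjOn (fun i => (TD 1)^[i] x) (Set.Iio N) → ∀ G : Finset ℕ, G ⊆ range N →
    (∀ i ∈ G, ¬ (q : ℤ) ∣ (TD 1)^[i] x ∧ Rep q h H (D * (TD 1)^[i] x)) →
    (G.card : ℝ) ≤ C * (N : ℝ) ^ (1 - 1 / (h : ℝ)) := by
  classical
  obtain ⟨B, K₀, hB⟩ := gap_count hq hD h H
  obtain ⟨C, hC, hfin⟩ := final_bound (h := h) (K₀ := K₀) (A := (2 * H + 1) ^ h) (B' := B)
  refine ⟨C, hC, fun x N hN hinj G hG hGP => hfin N G.card hN fun K hK0 hK1 => ?_⟩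
  have hq1 : 1 ≤ q := by rcases hq with rfl | rfl <;> norm_num
  have hqp : Nat.Prime q := by rcases hq with rfl | rfl <;> norm_num
  have hD0 : D ≠ 0 := by
    rintro rfl
    rcases hq with rfl | rfl <;> simp at hD
  have hD' : (D : ℤ) ≠ 0 := by exact_mod_cast hD0
  have hgap := hB K hK0 x N (G.filter fun i => GapType q D h H K x i)
    ((Finset.filter_subset _ _).trans hG) (fun i hi => by
      obtain ⟨h1, h2⟩ := Finset.mem_filter.1 hi
      exact ⟨(hGP i h1).1, (hGP i h1).2, h2⟩)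
  have hsmall : (G.filter fun i => ¬ GapType q D h H K x i).card ≤
      (2 * H + 1) ^ h * (4 ^ h * K) ^ (h - 1) := by
    obtain ⟨S, hS, hmem⟩ := small_type (q := q) (h := h) (H := H) (E := 4 ^ h * K)
      (Nat.one_le_iff_ne_zero.2 (by positivity))
    refine le_trans ?_ hS
    apply Finset.card_le_card_of_injOn (fun i => (D : ℤ) * (TD 1)^[i] x)
    · intro i hi
      obtain ⟨h1, h2⟩ := Finset.mem_filter.1 hi
      obtain ⟨m, e, h3, h4, h5, -⟩ := not_gapType hq1 (hGP i h1).2 h2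
      show (D : ℤ) * (TD 1)^[i] x ∈ S
      rw [h5]
      apply hmem m e h3 h4
      rw [← h5]
      intro hdvd
      rcases (Nat.prime_iff_prime_int.1 hqp).dvd_or_dvd hdvd with h6 | h6
      · have h7 : q ∣ D := by exact_mod_cast h6
        exact hqp.one_lt.ne' (Nat.dvd_one.1 (hD ▸ Nat.dvd_gcd h7 dvd_rfl))
      · exact (hGP i h1).1 h6
    · intro i hi j hj hij
      have hi' := Finset.mem_range.1 (hG (Finset.mem_filter.1 hi).1)
      have hj' := Finset.mem_range.1 (hG (Finset.mem_filter.1 hj).1)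
      exact hinj hi' hj' (mul_left_cancel₀ hD' hij)
  have := Finset.card_filter_add_card_filter_not (s := G) (fun i => GapType q D h H K x i)
  omega

end Run7.h911.FD
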