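import Pool.Agent.Run7.h911.SU7

/-!
# Sums of Fibonacci numbers
-/

set_option autoImplicit false

namespace Run7.h911.SU

open Finset
open Real goldenRatio

/-- the field -/
noncomputable abbrev k5 : IntermediateField ℚ ℝ := IntermediateField.adjoin ℚ {(√5 : ℝ)}

theorem int5 : IsIntegral ℚ (√5 : ℝ) := by
  refine ⟨Polynomial.X ^ 2 - Polynomial.C 5, Polynomial.monic_X_pow_sub_C _ (by norm_num), ?_⟩
  simp

instance nf5 : NumberField k5 where
  to_charZero := inferInstance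
  to_finiteDimensional := IntermediateField.adjoin.finiteDimensional int5

/-- the square root -/
noncomputable def s5 : k5 := ⟨√5, IntermediateField.mem_adjoin_simple_self ℚ _⟩

theorem s5_coe : ((s5 : k5) : ℝ) = √5 := rfl

theorem phi_ne : ((1 + s5) / 2 : k5) ≠ 0 := by
  intro h
  have h1 : (((1 + s5) / 2 : k5) : ℝ) = 0 := by
    rw [h]
    rfl
  have h2 : (((1 + s5) / 2 : k5) : ℝ) = (1 + √5) / 2 := rfl
  rw [h2] at h1
  have := Real.sqrt_nonneg 5
  linarith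

/-- the golden ratio -/
noncomputable def ph : k5ˣ := Units.mk0 ((1 + s5) / 2) phi_ne

theorem ph_coe : (((ph : k5ˣ) : k5) : ℝ) = φ := rfl

theorem zp_coe (n : ℤ) : ((((ph : k5ˣ) ^ n : k5ˣ) : k5) : ℝ) = φ ^ n := by
  rw [Units.val_zpow_eq_zpow_val]
  have := map_zpow₀ (algebraMap k5 ℝ) (ph : k5) n
  exact this

theorem ph_cond {g : k5ˣ} (hg : g ∈ Subgroup.closure ((({ph} : Finset k5ˣ)) : Set k5ˣ)) {a b : ℤ}
    (h : (g : k5) = 2 ^ a * 3 ^ b) : a = 0 ∧ b = 0 := by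
  rw [Finset.coe_singleton, Subgroup.mem_closure_singleton] at hg
  obtain ⟨n, rfl⟩ := hg
  have h1 : (φ : ℝ) ^ n = 2 ^ a * 3 ^ b := by
    rw [← zp_coe, h]
    have e1 := map_zpow₀ (algebraMap k5 ℝ) (2 : k5) a
    have e2 := map_zpow₀ (algebraMap k5 ℝ) (3 : k5) b
    have e3 := map_mul (algebraMap k5 ℝ) ((2 : k5) ^ a) ((3 : k5) ^ b)
    rw [e1, e2, map_ofNat, map_ofNat] at e3
    exact e3
  have h2 := phi_zpow h1
  rw [h2, zpow_zero] at h1
  exact two_three h1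

/-- the coefficients -/
noncomputable def coef5 (H : ℕ) : Finset k5 := by
  classical
  exact (Finset.Icc (-(H : ℤ)) H).image fun m : ℤ => (m : k5) / s5

theorem sums_fib {h H : ℕ} {x : ℤ}
    (hx : ∃ (m : Fin h → ℤ) (n : Fin h → ℕ), (∀ i, |m i| ≤ H) ∧
      x = ∑ i, m i * (Nat.fib (n i) : ℤ)) :
    Sums (coef5 H) (Subgroup.closure ((({ph} : Finset k5ˣ)) : Set k5ˣ)) (h + h) x := by
  classical
  obtain ⟨m, n, h1, h2⟩ := hx
  have hph : ph ∈ Subgroup.closure ((({ph} : Finset k5ˣ)) : Set k5ˣ) :=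
    Subgroup.subset_closure (by simp)
  have hc : ∀ m : ℤ, |m| ≤ H → (m : k5) / s5 ∈ coef5 H := fun m hm =>
    Finset.mem_image.2 ⟨m, Finset.mem_Icc.2 (abs_le.1 hm), rfl⟩
  refine ⟨Fin.append (fun i => (m i : k5) / s5 * ((ph ^ ((n i : ℕ) : ℤ) : k5ˣ) : k5))
    (fun i => ((-((-1) ^ n i * m i) : ℤ) : k5) / s5 * ((ph ^ (-(n i : ℤ)) : k5ˣ) : k5)),
    fun i => Or.inr ?_, ?_⟩
  · refine Fin.addCases (fun i => ?_) (fun i => ?_) i
    · exact ⟨_, hc _ (h1 i), _, Subgroup.zpow_mem _ hph ((n i : ℕ) : ℤ), Fin.append_left _ _ i⟩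
    · refine ⟨_, hc (-((-1) ^ n i * m i)) ?_, _, Subgroup.zpow_mem _ hph (-(n i : ℤ)),
        Fin.append_right _ _ i⟩
      rw [abs_neg, abs_mul, abs_pow, abs_neg, abs_one, one_pow, one_mul]
      exact h1 i
  · rw [Fin.sum_univ_add]
    simp only [Fin.append_left, Fin.append_right]
    rw [← Finset.sum_add_distrib]
    have hs : (√5 : ℝ) ≠ 0 := by positivity
    have h3 : ∀ i, (m i : k5) / s5 * ((ph ^ ((n i : ℕ) : ℤ) : k5ˣ) : k5) +
        ((-((-1) ^ n i * m i) : ℤ) : k5) / s5 * ((ph ^ (-(n i : ℤ)) : k5ˣ) : k5) =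
        (m i : k5) * (Nat.fib (n i) : k5) := by
      intro i
      apply Subtype.ext
      have e1 := Real.coe_fib_eq (n i)
      have e2 : (ψ : ℝ) ^ n i = (-1) ^ n i * φ ^ (-(n i : ℤ)) := by
        have : (ψ : ℝ) = -1 * φ⁻¹ := by
          rw [Real.inv_goldenRatio]
          ring
        rw [this, mul_pow, zpow_neg, zpow_natCast, inv_pow]
      push_cast
      have z1 := zp_coe ((n i : ℕ) : ℤ)
      have z2 := zp_coe (-(n i : ℤ))
      rw [Units.val_zpow_eq_zpow_val] at z1 z2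
      push_cast at z1 z2
      rw [z1, z2, s5_coe, e1, e2]
      rw [zpow_natCast]
      field_simp
      ring
    rw [Finset.sum_congr rfl fun i _ => h3 i, h2]
    push_cast
    rfl

end Run7.h911.SU
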