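import Pool.Agent.Run7.h911.AS4

/-!
# One abelian surface: the limits of the method
-/

set_option autoImplicit false

namespace Run7.h911.AS

/-- The finitely supported probability measure with the masses `w i` at the classes with the cosines `c i`, `d i` has
the same means of `a_1`, `a_2 - 1`, `a_1²`, `a_1 (a_2 - 1)`, `(a_2 - 1)²` as the Haar measure. -/
def Same {n : ℕ} (w c d : Fin n → ℝ) : Prop :=
  (∀ i, 0 < w i ∧ |c i| ≤ 1 ∧ |d i| ≤ 1) ∧ ∑ i, w i = 1 ∧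
    ∑ i, w i * (2 * c i + 2 * d i) = 0 ∧ ∑ i, w i * (1 + 4 * c i * d i) = 0 ∧
    ∑ i, w i * (2 * c i + 2 * d i) ^ 2 = 1 ∧
    ∑ i, w i * ((2 * c i + 2 * d i) * (1 + 4 * c i * d i)) = 0 ∧
    ∑ i, w i * (1 + 4 * c i * d i) ^ 2 = 1

theorem limit_trace : ∃ w c d : Fin 4 → ℝ, Same w c d ∧ ∀ i, 2 * c i + 2 * d i ≤ 2 / 3 := by
  refine ⟨![224 / 728, 189 / 728, 171 / 728, 144 / 728], ![1 / 4, 1 / 3, 1, 1 / 2],
    ![-1, 0, -2 / 3, -1 / 6], ⟨?_, ?_, ?_, ?_, ?_, ?_, ?_⟩, ?_⟩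
  · intro i
    fin_cases i <;> simp [abs_le] <;> norm_num
  on_goal 7 => intro i; fin_cases i <;> simp <;> norm_num
  all_goals
    simp only [Fin.sum_univ_four, Matrix.cons_val_zero, Matrix.cons_val_one, Matrix.cons_val]
    norm_num

theorem limit_second : ∃ w c d : Fin 6 → ℝ, Same w c d ∧
    ∑ i, (if 0 < 4 * c i * d i + 1 then w i else 0) = 1 / 40 ∧
    ∑ i, (if 4 * c i * d i + 1 < 0 then w i else 0) = 1 / 24 := by
  refine ⟨![1 / 80, 1 / 80, 1 / 24, 2 / 15, 2 / 15, 2 / 3], ![1, -1, 1, 1 / 4, -1 / 4, 1 / 2],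
    ![1, -1, -1, -1, 1, -1 / 2], ⟨?_, ?_, ?_, ?_, ?_, ?_, ?_⟩, ?_, ?_⟩
  · intro i
    fin_cases i <;> simp [abs_le] <;> norm_num
  all_goals
    simp only [Fin.sum_univ_six, Matrix.cons_val_zero, Matrix.cons_val_one, Matrix.cons_val]
    norm_num

theorem limit_half : ∃ w c d : Fin 6 → ℝ, Same w c d ∧
    ∑ i, (if 1 / 2 < 2 * c i + 2 * d i then w i else 0) = 1 / 112 := by
  refine ⟨![1 / 112, 1 / 8, 11 / 80, 11 / 45, 4 / 9, 5 / 126], ![1, 1 / 2, 0, 1 / 4, 3 / 4, 1],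
    ![1, -1, -1, 0, -1 / 2, -3 / 4], ⟨?_, ?_, ?_, ?_, ?_, ?_, ?_⟩, ?_⟩
  · intro i
    fin_cases i <;> simp [abs_le] <;> norm_num
  all_goals
    simp only [Fin.sum_univ_six, Matrix.cons_val_zero, Matrix.cons_val_one, Matrix.cons_val]
    norm_num

end Run7.h911.AS
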