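import Mathlib
import Pool.Agent.N709.Sun

/-!
# Sums of few powers which differ by a high power of the other prime

If `Q ^ e * (m₁ P ^ a₁ + ... ) = m'₁ P ^ a'₁ + ... ≠ 0` with a bounded number of terms and bounded
coefficients, `{P, Q} = {2, 3}`, then `e` is bounded.
-/

set_option autoImplicit false
open Finset

namespace Run7.h911.FD

/-- the unit equation for the primes `P`, `Q` -/
def SU (P Q : ℕ) : Prop := ∀ (m : ℕ) (c : Fin m → ℤ), ∃ B : ℕ, ∀ x y : Fin m → ℕ,
  ∑ l, c l * ((P : ℤ) ^ x l * (Q : ℤ) ^ y l) = 0 → ∀ i, c i ≠ 0 → ∃ i', i' ≠ i ∧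
    x i ≤ x i' + B ∧ x i' ≤ x i + B ∧ y i ≤ y i' + B ∧ y i' ≤ y i + B

theorem su23 : SU 2 3 := by
  intro m c
  obtain ⟨B, hB⟩ := Pool.Agent.N709.sun m c
  exact ⟨B, fun x y h i hi => hB x y (by exact_mod_cast h) i hi⟩

theorem su32 : SU 3 2 := by
  intro m c
  obtain ⟨B, hB⟩ := Pool.Agent.N709.sun m c
  refine ⟨B, fun x y h i hi => ?_⟩
  obtain ⟨i', h1, h2, h3, h4, h5⟩ := hB y x (by
    rw [← h]
    refine Finset.sum_congr rfl fun l _ => ?_
    push_cast
    ring) i hi
  exact ⟨i', h1, h4, h5, h2, h3⟩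

theorem su_unif {P Q : ℕ} (h : SU P Q) (m M : ℕ) : ∃ B : ℕ, ∀ c : Fin m → ℤ, (∀ l, |c l| ≤ M) →
    ∀ x y : Fin m → ℕ, ∑ l, c l * ((P : ℤ) ^ x l * (Q : ℤ) ^ y l) = 0 → ∀ i, c i ≠ 0 →
    ∃ i', i' ≠ i ∧ x i ≤ x i' + B ∧ x i' ≤ x i + B ∧ y i ≤ y i' + B ∧ y i' ≤ y i + B := by
  classical
  choose B hB using h m
  refine ⟨(Fintype.piFinset fun _ : Fin m => Finset.Icc (-(M : ℤ)) M).sup B, ?_⟩
  intro c hc x y hs i hi
  obtain ⟨i', h1, h2, h3, h4, h5⟩ := hB c x y hs i hi
  have hle : B c ≤ (Fintype.piFinset fun _ : Fin m => Finset.Icc (-(M : ℤ)) M).sup B := by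
    apply Finset.le_sup
    rw [Fintype.mem_piFinset]
    intro l
    rw [Finset.mem_Icc]
    exact abs_le.1 (hc l)
  exact ⟨i', h1, by omega, by omega, by omega, by omega⟩

theorem su_sum {P Q : ℕ} (h : SU P Q) (r s M : ℕ) : ∃ B : ℕ, ∀ (m : Fin r → ℤ) (a : Fin r → ℕ)
    (m' : Fin s → ℤ) (a' : Fin s → ℕ) (e : ℕ), (∀ i, |m i| ≤ M) → (∀ j, |m' j| ≤ M) →
    (Q : ℤ) ^ e * ∑ i, m i * (P : ℤ) ^ a i = ∑ j, m' j * (P : ℤ) ^ a' j → ∀ j, m' j ≠ 0 →
    e ≤ B ∨ ∃ j', j' ≠ j ∧ a' j ≤ a' j' + B ∧ a' j' ≤ a' j + B := by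
  obtain ⟨B, hB⟩ := su_unif h (r + s) M
  refine ⟨B, fun m a m' a' e hm hm' heq j hj => ?_⟩
  let E : Fin r ⊕ Fin s ≃ Fin (r + s) := finSumFinEquiv
  have key := hB (fun l => Sum.elim m (fun j => -m' j) (E.symm l)) (by
      intro l
      rcases hl : E.symm l with i | j
      · simpa using hm i
      · simpa using hm' j)
    (fun l => Sum.elim a a' (E.symm l)) (fun l => Sum.elim (fun _ => e) (fun _ => 0) (E.symm l)) (by
      rw [Equiv.sum_comp E.symm (fun t => Sum.elim m (fun j => -m' j) t *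
        ((P : ℤ) ^ (Sum.elim a a' t) * (Q : ℤ) ^ (Sum.elim (fun _ => e) (fun _ => 0) t)))]
      rw [Fintype.sum_sum_type]
      simp only [Sum.elim_inl, Sum.elim_inr, pow_zero, mul_one, neg_mul]
      rw [Finset.sum_neg_distrib, ← heq, Finset.mul_sum, ← sub_eq_add_neg, ← Finset.sum_sub_distrib]
      apply Finset.sum_eq_zero
      intro i _
      ring) (E (Sum.inr j)) (by simpa using hj)
  obtain ⟨i', h1, h2, h3, h4, h5⟩ := key
  obtain ⟨t, rfl⟩ := E.surjective i'
  simp only [Equiv.symm_apply_apply] at h2 h3 h4 h5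
  rcases t with i | j'
  · left
    simp only [Sum.elim_inl, Sum.elim_inr] at h5
    omega
  · right
    simp only [Sum.elim_inr] at h2 h3
    refine ⟨j', ?_, h2, h3⟩
    rintro rfl
    exact h1 rfl

theorem exp_bound {P Q : ℕ} (hP : 1 ≤ P) (h : SU P Q) (r : ℕ) : ∀ s M : ℕ, ∃ B : ℕ,
    ∀ (m : Fin r → ℤ) (a : Fin r → ℕ) (m' : Fin s → ℤ) (a' : Fin s → ℕ) (e : ℕ),
    (∀ i, |m i| ≤ M) → (∀ j, |m' j| ≤ M) →
    (Q : ℤ) ^ e * ∑ i, m i * (P : ℤ) ^ a i = ∑ j, m' j * (P : ℤ) ^ a' j →
    ∑ j, m' j * (P : ℤ) ^ a' j ≠ 0 → e ≤ B := by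
  intro s
  induction s with
  | zero =>
    intro M
    refine ⟨0, fun m a m' a' e _ _ _ hne => absurd ?_ hne⟩
    simp
  | succ s ih =>
    intro M
    obtain ⟨B0, hB0⟩ := su_sum h r (s + 1) M
    obtain ⟨B1, hB1⟩ := ih (M + M * P ^ B0)
    refine ⟨max B0 B1, fun m a m' a' e hm hm' heq hne => ?_⟩
    have hPB : 1 ≤ P ^ B0 := Nat.one_le_pow _ _ hP
    have hmb : ∀ i, |m i| ≤ ((M + M * P ^ B0 : ℕ) : ℤ) := fun i => by
      refine (hm i).trans ?_
      push_cast
      have : (0 : ℤ) ≤ M * P ^ B0 := by positivity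
      linarith
    -- a general reduction: replace the term `j0` by zero and change the coefficient of another one
    have hdrop : ∀ (j0 : Fin (s + 1)) (n' : Fin s → ℤ) (b' : Fin s → ℕ),
        (∀ j, |n' j| ≤ ((M + M * P ^ B0 : ℕ) : ℤ)) →
        ∑ j, n' j * (P : ℤ) ^ b' j = ∑ j, m' j * (P : ℤ) ^ a' j → e ≤ max B0 B1 := by
      intro j0 n' b' hn' hs
      refine (hB1 m a n' b' e hmb hn' (by rw [hs]; exact heq) (by rw [hs]; exact hne)).trans
        (le_max_right _ _)
    by_cases h0 : m' (Fin.last s) = 0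
    · refine hdrop (Fin.last s) (fun j => m' j.castSucc) (fun j => a' j.castSucc) (fun j => ?_) ?_
      · refine (hm' _).trans ?_
        push_cast
        have : (0 : ℤ) ≤ M * P ^ B0 := by positivity
        linarith
      · rw [Fin.sum_univ_castSucc (fun j => m' j * (P : ℤ) ^ a' j), h0]
        simp
    · rcases hB0 m a m' a' e hm hm' heq (Fin.last s) h0 with h1 | ⟨j', hj', h2, h3⟩
      · exact h1.trans (le_max_left _ _)
      · obtain ⟨k, rfl⟩ : ∃ k : Fin s, j' = k.castSucc := by
          obtain ⟨k, hk⟩ := Fin.exists_castSucc_eq.2 hj'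
          exact ⟨k, hk.symm⟩
        -- merge the terms `k` and `last`
        set u := min (a' k.castSucc) (a' (Fin.last s)) with hu
        have e1 : a' k.castSucc = u + (a' k.castSucc - u) := by omega
        have e2 : a' (Fin.last s) = u + (a' (Fin.last s) - u) := by omega
        have b1 : a' k.castSucc - u ≤ B0 := by omega
        have b2 : a' (Fin.last s) - u ≤ B0 := by omega
        have b3 : a' k.castSucc - u = 0 ∨ a' (Fin.last s) - u = 0 := by omega
        refine hdrop (Fin.last s)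
          (Function.update (fun j => m' j.castSucc) k
            (m' k.castSucc * (P : ℤ) ^ (a' k.castSucc - u) +
              m' (Fin.last s) * (P : ℤ) ^ (a' (Fin.last s) - u)))
          (Function.update (fun j => a' j.castSucc) k u) (fun j => ?_) ?_
        · by_cases hjk : j = k
          · subst hjk
            rw [Function.update_self]
            have hp : ∀ t : ℕ, t ≤ B0 → |(P : ℤ) ^ t| ≤ (P : ℤ) ^ B0 := by
              intro t ht
              rw [abs_of_nonneg (by positivity)]
              exact pow_le_pow_right₀ (by exact_mod_cast hP) ht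
            have hPB' : (1 : ℤ) ≤ (P : ℤ) ^ B0 := by exact_mod_cast hPB
            have c1 := hm' j.castSucc
            have c2 := hm' (Fin.last s)
            have c1' := abs_nonneg (m' j.castSucc)
            have c2' := abs_nonneg (m' (Fin.last s))
            push_cast
            refine (abs_add_le _ _).trans ?_
            rw [abs_mul, abs_mul]
            rcases b3 with b3 | b3
            · rw [b3, pow_zero, abs_one, mul_one]
              have := mul_le_mul c2 (hp _ b2) (abs_nonneg _) (by positivity)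
              linarith
            · rw [b3, pow_zero, abs_one, mul_one]
              have := mul_le_mul c1 (hp _ b1) (abs_nonneg _) (by positivity)
              linarith
          · rw [Function.update_of_ne hjk]
            refine (hm' _).trans ?_
            push_cast
            have : (0 : ℤ) ≤ M * P ^ B0 := by positivity
            linarith
        · rw [Fin.sum_univ_castSucc (fun j => m' j * (P : ℤ) ^ a' j),
            ← Finset.add_sum_erase _ _ (Finset.mem_univ k),
            ← Finset.add_sum_erase _ _ (Finset.mem_univ k), Function.update_self,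
            Function.update_self]
          have e3 : ∑ x ∈ Finset.univ.erase k, Function.update (fun j => m' j.castSucc) k
              (m' k.castSucc * (P : ℤ) ^ (a' k.castSucc - u) +
                m' (Fin.last s) * (P : ℤ) ^ (a' (Fin.last s) - u)) x *
              (P : ℤ) ^ (Function.update (fun j => a' j.castSucc) k u x) =
              ∑ x ∈ Finset.univ.erase k, m' x.castSucc * (P : ℤ) ^ a' x.castSucc := by
            refine Finset.sum_congr rfl fun x hx => ?_
            have hxk : x ≠ k := Finset.ne_of_mem_erase hx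
            rw [Function.update_of_ne hxk, Function.update_of_ne hxk]
          rw [e3]
          have e4 : (P : ℤ) ^ a' k.castSucc = (P : ℤ) ^ u * (P : ℤ) ^ (a' k.castSucc - u) := by
            rw [← pow_add, ← e1]
          have e5 : (P : ℤ) ^ a' (Fin.last s) = (P : ℤ) ^ u * (P : ℤ) ^ (a' (Fin.last s) - u) := by
            rw [← pow_add, ← e2]
          rw [e4, e5]
          ring

end Run7.h911.FD
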