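import Pool.Agent.Run7.h911.FD1

/-!
# Sparse numbers and the map `X ↦ X / 2`, `(3 X + D) / 2`
-/

set_option autoImplicit false
open Finset

namespace Run7.h911.FD

/-- the `3x+D` map -/
def TD (D : ℕ) (X : ℤ) : ℤ := if X % 2 = 0 then X / 2 else (3 * X + D) / 2

/-- the number of odd terms among the first `s` ones -/
def od (D s : ℕ) (X : ℤ) : ℕ := ((range s).filter fun i => (TD D)^[i] X % 2 = 1).card

lemma od_zero (D : ℕ) (X : ℤ) : od D 0 X = 0 := by simp [od]

lemma od_succ (D s : ℕ) (X : ℤ) :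
    od D (s + 1) X = od D s X + if (TD D)^[s] X % 2 = 1 then 1 else 0 := by
  unfold od
  rw [Finset.range_add_one, Finset.filter_insert]
  split_ifs with h
  · rw [Finset.card_insert_of_notMem (by simp)]
  · simp

lemma TD_even {D : ℕ} {X : ℤ} (h : X % 2 = 0) : TD D X = X / 2 := if_pos h

lemma TD_odd {D : ℕ} {X : ℤ} (h : X % 2 = 1) : TD D X = (3 * X + D) / 2 :=
  if_neg (by omega)

/-- the first `s ≤ a` iterates of `u + 2 ^ a w` -/
theorem forward {D : ℕ} (hD : D % 2 = 1) {a : ℕ} (u w : ℤ) : ∀ s : ℕ, s ≤ a →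
    (TD D)^[s] (u + 2 ^ a * w) = (TD D)^[s] u + 3 ^ od D s u * 2 ^ (a - s) * w := by
  intro s
  induction s with
  | zero =>
    intro _
    simp only [Function.iterate_zero, id, od_zero, pow_zero, Nat.sub_zero, one_mul]
  | succ s ih =>
    intro hs
    have h1 := ih (by omega)
    rw [Function.iterate_succ_apply', Function.iterate_succ_apply', h1, od_succ]
    obtain ⟨b, hb⟩ : ∃ b, a - s = b + 1 := ⟨a - s - 1, by omega⟩
    have hb' : a - (s + 1) = b := by omega
    rw [hb, hb']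
    set A := (TD D)^[s] u with hA
    have e1 : (3 : ℤ) ^ od D s u * 2 ^ (b + 1) * w = 2 * (3 ^ od D s u * 2 ^ b * w) := by ring
    rw [e1]
    set V := (3 : ℤ) ^ od D s u * 2 ^ b * w with hV
    rcases Int.emod_two_eq_zero_or_one A with h0 | h0
    · rw [TD_even h0, TD_even (by omega), if_neg (by omega), add_zero]
      omega
    · rw [TD_odd h0, TD_odd (by omega), if_pos h0]
      have e2 : (3 : ℤ) ^ (od D s u + 1) * 2 ^ b * w = 3 * V := by rw [hV]; ring
      rw [e2]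
      omega

/-- the parities agree -/
theorem forward_par {D : ℕ} (hD : D % 2 = 1) {a : ℕ} (u w : ℤ) {s : ℕ} (hs : s < a) :
    (TD D)^[s] (u + 2 ^ a * w) % 2 = (TD D)^[s] u % 2 := by
  rw [forward hD u w s hs.le]
  obtain ⟨b, hb⟩ : ∃ b, a - s = b + 1 := ⟨a - s - 1, by omega⟩
  rw [hb]
  have e1 : (3 : ℤ) ^ od D s u * 2 ^ (b + 1) * w = 2 * (3 ^ od D s u * 2 ^ b * w) := by ring
  rw [e1]
  omega

theorem od_congr {D : ℕ} (hD : D % 2 = 1) {a : ℕ} (u w : ℤ) {s : ℕ} (hs : s ≤ a) :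
    od D s (u + 2 ^ a * w) = od D s u := by
  unfold od
  congr 1
  apply Finset.filter_congr
  intro i hi
  rw [Finset.mem_range] at hi
  rw [forward_par hD u w (by omega)]

theorem size_TD {D : ℕ} (hD : D % 2 = 1) (X : ℤ) : |TD D X| + D ≤ 2 * (|X| + D) := by
  have hD0 : (0 : ℤ) ≤ D := by positivity
  have hD2 : (D : ℤ) % 2 = 1 := by exact_mod_cast hD
  rcases Int.emod_two_eq_zero_or_one X with h0 | h0
  · rw [TD_even h0]
    obtain ⟨Y, rfl⟩ : ∃ Y, X = 2 * Y := ⟨X / 2, by omega⟩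
    have e : 2 * Y / 2 = Y := by omega
    rw [e, abs_mul]
    have := abs_nonneg Y
    norm_num
    linarith
  · rw [TD_odd h0]
    obtain ⟨Y, hY⟩ : ∃ Y, 3 * X + D = 2 * Y := ⟨(3 * X + D) / 2, by omega⟩
    have e : 2 * Y / 2 = Y := by omega
    rw [hY, e]
    have h1 : |2 * Y| ≤ 3 * |X| + D := by
      rw [← hY]
      refine (abs_add_le _ _).trans ?_
      rw [abs_mul, abs_of_nonneg hD0]
      norm_num
    rw [abs_mul] at h1
    norm_num at h1
    have := abs_nonneg X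
    linarith

theorem size_iter {D : ℕ} (hD : D % 2 = 1) (X : ℤ) (s : ℕ) :
    |(TD D)^[s] X| + D ≤ 2 ^ s * (|X| + D) := by
  induction s with
  | zero => simp
  | succ s ih =>
    rw [Function.iterate_succ_apply']
    refine (size_TD hD _).trans ?_
    rw [pow_succ]
    linarith

/-- the affine form of the iterates -/
theorem affine {D : ℕ} (hD : D % 2 = 1) (Y : ℤ) (s : ℕ) : ∃ c : ℤ, 0 ≤ c ∧
    c ≤ D * (3 ^ od D s Y * 2 ^ s) ∧ 2 ^ s * (TD D)^[s] Y = 3 ^ od D s Y * Y + c := by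
  have hD0 : (0 : ℤ) ≤ D := by positivity
  have hD2 : (D : ℤ) % 2 = 1 := by exact_mod_cast hD
  induction s with
  | zero =>
    refine ⟨0, le_rfl, by positivity, ?_⟩
    simp [od_zero]
  | succ s ih =>
    obtain ⟨c, h0, h1, h2⟩ := ih
    rw [od_succ, Function.iterate_succ_apply']
    set A := (TD D)^[s] Y with hA
    rcases Int.emod_two_eq_zero_or_one A with hp | hp
    · rw [if_neg (by omega), add_zero, TD_even hp]
      refine ⟨c, h0, h1.trans ?_, ?_⟩
      · gcongr <;> norm_num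
      · have e : 2 * (A / 2) = A := by omega
        rw [pow_succ, mul_assoc, e, h2]
    · rw [if_pos hp, TD_odd hp]
      refine ⟨3 * c + D * 2 ^ s, by positivity, ?_, ?_⟩
      · have h3 : (1 : ℤ) ≤ 3 ^ od D s Y := one_le_pow₀ (by norm_num)
        have h4 : (D : ℤ) * 2 ^ s * 1 ≤ D * 2 ^ s * (3 ^ od D s Y) := by gcongr
        rw [pow_succ, pow_succ]
        have h5 : (0 : ℤ) ≤ D * 2 ^ s * 3 ^ od D s Y := by positivity
        nlinarith
      · have e : 2 * ((3 * A + D) / 2) = 3 * A + D := by omega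
        rw [pow_succ, mul_assoc, e, pow_succ]
        linear_combination 3 * h2

/-- **Splitting.** -/
theorem split {q h H g L a : ℕ} (hq : 1 ≤ q) (hg1 : 1 ≤ g) {m : Fin h → ℤ} {e : Fin h → ℕ} {v W : ℤ}
    (hm : ∀ i, |m i| ≤ H) (hY : ∑ i, m i * (q : ℤ) ^ e i = v + (q : ℤ) ^ a * W)
    (hv : 2 * |v| < (q : ℤ) ^ L) (hg : 2 * (h * H) < q ^ g) (hLa : L + (h + 1) * g ≤ a) :
    ∃ m' : Fin h → ℤ, (∀ i, |m' i| ≤ H) ∧ (q : ℤ) ^ a * W = ∑ i, m' i * (q : ℤ) ^ e i := by
  classical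
  have hq' : (1 : ℤ) ≤ q := by exact_mod_cast hq
  obtain ⟨j, hj, hjn⟩ : ∃ j ∈ range (h + 1), ∀ i, (e i - L) / g ≠ j := by
    by_contra hcon
    push Not at hcon
    have h1 : range (h + 1) ⊆ Finset.univ.image (fun i : Fin h => (e i - L) / g) := by
      intro j hj
      obtain ⟨i, hi⟩ := hcon j hj
      exact Finset.mem_image.2 ⟨i, Finset.mem_univ _, hi⟩
    have h2 := (Finset.card_le_card h1).trans Finset.card_image_le
    simp at h2
  rw [Finset.mem_range] at hj
  set t := L + (j + 1) * g with ht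
  have hta : t ≤ a := by
    refine le_trans ?_ hLa
    rw [ht]
    have : (j + 1) * g ≤ (h + 1) * g := Nat.mul_le_mul_right _ (by omega)
    omega
  have hlow : ∀ i, e i < t → e i < L + j * g := by
    intro i hi
    have h1 : (e i - L) / g < j + 1 := by
      rw [Nat.div_lt_iff_lt_mul (by omega)]
      have : e i < L + (j + 1) * g := hi
      have hpos : 0 < (j + 1) * g := by positivity
      omega
    have h2 : (e i - L) / g < j := lt_of_le_of_ne (by omega) (hjn i)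
    rw [Nat.div_lt_iff_lt_mul (by omega)] at h2
    omega
  have hgt : (q : ℤ) ^ (L + j * g) * (q : ℤ) ^ g = (q : ℤ) ^ t := by
    rw [← pow_add, ht]
    congr 1
    ring
  have hU : 2 * |∑ i ∈ Finset.univ.filter (fun i => e i < t), m i * (q : ℤ) ^ e i| <
      (q : ℤ) ^ t := by
    have h1 : |∑ i ∈ Finset.univ.filter (fun i => e i < t), m i * (q : ℤ) ^ e i| ≤
        h * H * (q : ℤ) ^ (L + j * g) := by
      refine (Finset.abs_sum_le_sum_abs _ _).trans ?_
      refine le_trans (Finset.sum_le_card_nsmul _ _ (H * (q : ℤ) ^ (L + j * g)) ?_) ?_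
      · intro i hi
        rw [Finset.mem_filter] at hi
        rw [abs_mul, abs_of_nonneg (show (0 : ℤ) ≤ (q : ℤ) ^ e i by positivity)]
        exact mul_le_mul (hm i) (pow_le_pow_right₀ hq' (hlow i hi.2).le) (by positivity)
          (by positivity)
      · rw [nsmul_eq_mul, mul_assoc]
        gcongr
        refine (Finset.card_le_univ _).trans ?_
        simp
    have h2 : (2 : ℤ) * (h * H) < (q : ℤ) ^ g := by exact_mod_cast hg
    have h3 : (0 : ℤ) < (q : ℤ) ^ (L + j * g) := by positivity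
    rw [← hgt]
    nlinarith
  have hsplit := Finset.sum_filter_add_sum_filter_not (Finset.univ : Finset (Fin h))
    (fun i => e i < t) (fun i => m i * (q : ℤ) ^ e i)
  rw [hY] at hsplit
  have hdvd1 : (q : ℤ) ^ t ∣ ∑ i ∈ Finset.univ.filter (fun i => ¬ e i < t), m i * (q : ℤ) ^ e i := by
    apply Finset.dvd_sum
    intro i hi
    rw [Finset.mem_filter] at hi
    exact Dvd.dvd.mul_left (pow_dvd_pow _ (by omega)) _
  have hdvd2 : (q : ℤ) ^ t ∣ (q : ℤ) ^ a * W := Dvd.dvd.mul_right (pow_dvd_pow _ hta) _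
  have heq : ∑ i ∈ Finset.univ.filter (fun i => e i < t), m i * (q : ℤ) ^ e i - v = 0 := by
    apply Int.eq_zero_of_abs_lt_dvd (m := (q : ℤ) ^ t)
    · have : ∑ i ∈ Finset.univ.filter (fun i => e i < t), m i * (q : ℤ) ^ e i - v =
          (q : ℤ) ^ a * W - ∑ i ∈ Finset.univ.filter (fun i => ¬ e i < t), m i * (q : ℤ) ^ e i := by
        linarith
      rw [this]
      exact dvd_sub hdvd2 hdvd1
    · have hLt : (q : ℤ) ^ L ≤ (q : ℤ) ^ t := pow_le_pow_right₀ hq' (by omega)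
      have h1 := abs_sub (∑ i ∈ Finset.univ.filter (fun i => e i < t), m i * (q : ℤ) ^ e i) v
      linarith
  refine ⟨fun i => if e i < t then 0 else m i, fun i => ?_, ?_⟩
  · simp only
    split_ifs
    · simp
    · exact hm i
  · have h1 : ∑ i, (if e i < t then 0 else m i) * (q : ℤ) ^ e i =
        ∑ i ∈ Finset.univ.filter (fun i => ¬ e i < t), m i * (q : ℤ) ^ e i := by
      rw [Finset.sum_filter]
      refine Finset.sum_congr rfl fun i _ => ?_
      split_ifs <;> simp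
    rw [h1]
    linarith

/-- **The first large gap.** -/
theorem gap {q h H K : ℕ} (hq : 1 ≤ q) {m : Fin h → ℤ} {e : Fin h → ℕ}
    (hm : ∀ i, |m i| ≤ H) : ∃ (τ : ℕ) (u w : ℤ) (m₁ m₂ : Fin h → ℤ), K ≤ τ ∧ τ ≤ 4 ^ h * K ∧
      ∑ i, m i * (q : ℤ) ^ e i = u + (q : ℤ) ^ (4 * τ) * w ∧
      (∀ i, |m₁ i| ≤ H) ∧ (∀ i, |m₂ i| ≤ H) ∧ (∀ i, m₁ i ≠ 0 → e i < τ) ∧
      u = ∑ i, m₁ i * (q : ℤ) ^ e i ∧ (q : ℤ) ^ (4 * τ) * w = ∑ i, m₂ i * (q : ℤ) ^ e i ∧
      |u| ≤ h * H * (q : ℤ) ^ τ := by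
  classical
  have hq' : (1 : ℤ) ≤ q := by exact_mod_cast hq
  obtain ⟨j, hj, hjn⟩ : ∃ j ∈ range (h + 1), ∀ i, ¬ (4 ^ j * K ≤ e i ∧ e i < 4 ^ (j + 1) * K) := by
    by_contra hcon
    push Not at hcon
    have hcon' : ∀ j : Fin (h + 1), ∃ i, 4 ^ (j : ℕ) * K ≤ e i ∧ e i < 4 ^ ((j : ℕ) + 1) * K :=
      fun j => hcon j (Finset.mem_range.2 j.2)
    choose f hf using hcon'
    obtain ⟨j1, j2, hne, heq⟩ := Fintype.exists_ne_map_eq_of_card_lt f (by simp)
    have h3 := hf j1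
    have h4 := hf j2
    rw [heq] at h3
    rcases lt_or_gt_of_ne hne with hlt | hlt
    · have hlt' : (j1 : ℕ) + 1 ≤ j2 := hlt
      have : 4 ^ ((j1 : ℕ) + 1) * K ≤ 4 ^ (j2 : ℕ) * K :=
        Nat.mul_le_mul_right _ (Nat.pow_le_pow_right (by norm_num) hlt')
      omega
    · have hlt' : (j2 : ℕ) + 1 ≤ j1 := hlt
      have : 4 ^ ((j2 : ℕ) + 1) * K ≤ 4 ^ (j1 : ℕ) * K :=
        Nat.mul_le_mul_right _ (Nat.pow_le_pow_right (by norm_num) hlt')
      omega
  rw [Finset.mem_range] at hj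
  set τ := 4 ^ j * K with hτ
  have h4 : 4 ^ (j + 1) * K = 4 * τ := by rw [hτ]; ring
  rw [h4] at hjn
  have hsplit := Finset.sum_filter_add_sum_filter_not (Finset.univ : Finset (Fin h))
    (fun i => e i < τ) (fun i => m i * (q : ℤ) ^ e i)
  have hdvd : (q : ℤ) ^ (4 * τ) ∣
      ∑ i ∈ Finset.univ.filter (fun i => ¬ e i < τ), m i * (q : ℤ) ^ e i := by
    apply Finset.dvd_sum
    intro i hi
    rw [Finset.mem_filter] at hi
    have := hjn i
    exact Dvd.dvd.mul_left (pow_dvd_pow _ (by omega)) _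
  obtain ⟨w, hw⟩ := hdvd
  have hs1 : ∑ i ∈ Finset.univ.filter (fun i => e i < τ), m i * (q : ℤ) ^ e i =
      ∑ i, (if e i < τ then m i else 0) * (q : ℤ) ^ e i := by
    rw [Finset.sum_filter]
    refine Finset.sum_congr rfl fun i _ => ?_
    split_ifs <;> simp
  have hs2 : ∑ i ∈ Finset.univ.filter (fun i => ¬ e i < τ), m i * (q : ℤ) ^ e i =
      ∑ i, (if e i < τ then 0 else m i) * (q : ℤ) ^ e i := by
    rw [Finset.sum_filter]
    refine Finset.sum_congr rfl fun i _ => ?_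
    split_ifs <;> simp
  refine ⟨τ, ∑ i, (if e i < τ then m i else 0) * (q : ℤ) ^ e i, w,
    fun i => if e i < τ then m i else 0, fun i => if e i < τ then 0 else m i, ?_, ?_, ?_,
    fun i => ?_, fun i => ?_, fun i hi => ?_, rfl, ?_, ?_⟩
  · rw [hτ]
    exact Nat.le_mul_of_pos_left _ (by positivity)
  · rw [hτ]
    exact Nat.mul_le_mul_right _ (Nat.pow_le_pow_right (by norm_num) (by omega))
  · rw [← hsplit, hs1, ← hw]
  · simp only
    split_ifs
    · exact hm i
    · simp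
  · simp only
    split_ifs
    · simp
    · exact hm i
  · by_contra hcon
    simp only [if_neg hcon, ne_eq, not_true_eq_false] at hi
  · rw [← hw, hs2]
  · rw [← hs1]
    refine (Finset.abs_sum_le_sum_abs _ _).trans ?_
    refine le_trans (Finset.sum_le_card_nsmul _ _ (H * (q : ℤ) ^ τ) ?_) ?_
    · intro i hi
      rw [Finset.mem_filter] at hi
      rw [abs_mul, abs_of_nonneg (show (0 : ℤ) ≤ (q : ℤ) ^ e i by positivity)]
      exact mul_le_mul (hm i) (pow_le_pow_right₀ hq' hi.2.le) (by positivity) (by positivity)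
    · rw [nsmul_eq_mul, mul_assoc]
      gcongr
      refine (Finset.card_le_univ _).trans ?_
      simp

end Run7.h911.FD
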