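import Pool.Agent.Run7.h911.FD2

/-!
# Sparse terms of a trajectory: windows and counting
-/

set_option autoImplicit false
open Finset

namespace Run7.h911.FD

/-- a sum of at most `h` terms `m q ^ e`, `|m| ≤ H` -/
def Rep (q h H : ℕ) (X : ℤ) : Prop :=
  ∃ (m : Fin h → ℤ) (e : Fin h → ℕ), (∀ i, |m i| ≤ H) ∧ X = ∑ i, m i * (q : ℤ) ^ e i

lemma exists_pow_gt (q : ℕ) (hq : 2 ≤ q) (M : ℕ) : ∃ g : ℕ, 1 ≤ g ∧ M < q ^ g :=
  ⟨M + 1, by omega, (Nat.lt_pow_self hq).trans' (by omega)⟩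

/-- forward windows, base two -/
theorem win2 {D : ℕ} (hD : D % 2 = 1) (h H : ℕ) : ∃ B K₀ : ℕ, ∀ K τ : ℕ, K₀ ≤ K → K ≤ τ →
    ∀ (u w : ℤ) (m : Fin h → ℤ) (e : Fin h → ℕ), w ≠ 0 → (∀ i, |m i| ≤ H) →
    (2 : ℤ) ^ (4 * τ) * w = ∑ i, m i * (2 : ℤ) ^ e i → |u| ≤ h * H * (2 : ℤ) ^ τ →
    ∀ s : ℕ, s ≤ K → Rep 2 h H ((TD D)^[s] (u + 2 ^ (4 * τ) * w)) →
      od D s (u + 2 ^ (4 * τ) * w) ≤ B := by
  obtain ⟨B, hB⟩ := exp_bound (P := 2) (Q := 3) (by norm_num) su23 h h H
  obtain ⟨g, hg1, hg⟩ := exists_pow_gt 2 le_rfl (2 * (h * H))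
  obtain ⟨g', hg1', hg'⟩ := exists_pow_gt 2 le_rfl (2 * (h * H + D))
  refine ⟨B, g' + (h + 1) * g, ?_⟩
  intro K τ hK0 hKτ u w m e hw hm hmw hu s hs hrep
  obtain ⟨m', e', hm', he'⟩ := hrep
  have hs4 : s ≤ 4 * τ := by omega
  rw [od_congr hD u w hs4]
  rw [forward hD u w s hs4] at he'
  have hv : 2 * |(TD D)^[s] u| < ((2 : ℕ) : ℤ) ^ (K + τ + g') := by
    have h1 := size_iter hD u s
    have hD0 : (0 : ℤ) ≤ D := by positivity
    have h2 : (2 : ℤ) ^ s ≤ 2 ^ K := pow_le_pow_right₀ (by norm_num) hs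
    have h3 : |u| + D ≤ (h * H + D) * 2 ^ τ := by
      have : (1 : ℤ) ≤ 2 ^ τ := one_le_pow₀ (by norm_num)
      have : (D : ℤ) * 1 ≤ D * 2 ^ τ := by gcongr
      linarith
    have h4 : (2 : ℤ) ^ s * (|u| + D) ≤ 2 ^ K * ((h * H + D) * 2 ^ τ) := by
      have := abs_nonneg u
      gcongr
    have h5 : ((2 : ℤ) * (h * H + D)) < 2 ^ g' := by exact_mod_cast hg'
    have h6 : (0 : ℤ) < 2 ^ K * 2 ^ τ := by positivity
    push_cast
    calc 2 * |(TD D)^[s] u| ≤ 2 * (2 ^ K * ((h * H + D) * 2 ^ τ)) := by linarith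
      _ = (2 ^ K * 2 ^ τ) * (2 * (h * H + D)) := by ring
      _ < (2 ^ K * 2 ^ τ) * 2 ^ g' := by
          exact mul_lt_mul_of_pos_left h5 h6
      _ = 2 ^ (K + τ + g') := by rw [pow_add, pow_add]
  obtain ⟨n', hn', hsum⟩ := split (q := 2) (by norm_num) hg1 (v := (TD D)^[s] u)
    (W := 3 ^ od D s u * w) (a := 4 * τ - s) (e := e') hm' (by
      rw [← he']
      push_cast
      ring) hv hg (by omega)
  refine hB m e n' (fun i => e' i + s) (od D s u) hm hn' ?_ ?_
  · push_cast at hsum ⊢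
    rw [← hmw]
    have e1 : ∑ i, n' i * (2 : ℤ) ^ (e' i + s) = 2 ^ s * ∑ i, n' i * (2 : ℤ) ^ e' i := by
      rw [Finset.mul_sum]
      refine Finset.sum_congr rfl fun i _ => ?_
      rw [pow_add]
      ring
    rw [e1, ← hsum]
    have e2 : (2 : ℤ) ^ (4 * τ) = 2 ^ s * 2 ^ (4 * τ - s) := by
      rw [← pow_add]
      congr 1
      omega
    rw [e2]
    ring
  · push_cast at hsum ⊢
    have e1 : ∑ i, n' i * (2 : ℤ) ^ (e' i + s) = 2 ^ s * ∑ i, n' i * (2 : ℤ) ^ e' i := by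
      rw [Finset.mul_sum]
      refine Finset.sum_congr rfl fun i _ => ?_
      rw [pow_add]
      ring
    rw [e1, ← hsum]
    have := pow_ne_zero (od D s u) (show (3 : ℤ) ≠ 0 by norm_num)
    positivity

/-- backward windows, base three -/
theorem win3 (D h H : ℕ) : ∃ B K₀ : ℕ, ∀ K τ : ℕ, K₀ ≤ K → K ≤ τ →
    ∀ (u w : ℤ) (m : Fin h → ℤ) (e : Fin h → ℕ), w ≠ 0 → (∀ i, |m i| ≤ H) →
    (3 : ℤ) ^ (4 * τ) * w = ∑ i, m i * (3 : ℤ) ^ e i → |u| ≤ h * H * (3 : ℤ) ^ τ →
    ∀ (s : ℕ) (y : ℤ), s ≤ K → D * (TD 1)^[s] y = u + 3 ^ (4 * τ) * w → Rep 3 h H (D * y) →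
      s ≤ B := by
  obtain ⟨B, hB⟩ := exp_bound (P := 3) (Q := 2) (by norm_num) su32 h h H
  obtain ⟨g, hg1, hg⟩ := exists_pow_gt 3 (by norm_num) (2 * (h * H))
  obtain ⟨g', hg1', hg'⟩ := exists_pow_gt 3 (by norm_num) (2 * (h * H + D))
  refine ⟨B, g' + (h + 1) * g, ?_⟩
  intro K τ hK0 hKτ u w m e hw hm hmw hu s y hs hY hrep
  obtain ⟨m', e', hm', he'⟩ := hrep
  obtain ⟨c, hc0, hc1, hc2⟩ := affine (D := 1) (by norm_num) y s
  have hD0 : (0 : ℤ) ≤ D := by positivity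
  set o := od 1 s y with ho
  have hos : o ≤ s := by
    rw [ho]
    unfold od
    exact (Finset.card_filter_le _ _).trans (by simp)
  have e3 : (3 : ℤ) ^ (4 * τ) = 3 ^ o * 3 ^ (4 * τ - o) := by
    rw [← pow_add]
    congr 1
    omega
  have hcD : D * c ≤ 3 ^ o * (2 ^ s * D) := by
    have h1 : (D : ℤ) * c ≤ D * ((1 : ℕ) * (3 ^ o * 2 ^ s)) := by gcongr
    push_cast at h1
    linarith
  have hcD0 : 0 ≤ D * c := by positivity
  obtain ⟨v, hv⟩ : ∃ v : ℤ, v = D * y - 3 ^ (4 * τ - o) * (2 ^ s * w) := ⟨_, rfl⟩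
  have hvo : 3 ^ o * v = 2 ^ s * u - D * c := by
    rw [hv]
    have h1 : (2 : ℤ) ^ s * (D * (TD 1)^[s] y) = 3 ^ o * (D * y) + D * c := by
      linear_combination D * hc2
    rw [hY, e3] at h1
    linear_combination -h1
  have hvs : |v| ≤ 2 ^ s * (|u| + D) := by
    have h3o : (1 : ℤ) ≤ 3 ^ o := one_le_pow₀ (by norm_num)
    have h1 : 3 ^ o * |v| ≤ 2 ^ s * |u| + D * c := by
      have : |3 ^ o * v| ≤ |2 ^ s * u| + |D * c| := by
        rw [hvo]
        exact abs_sub _ _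
      rw [abs_mul, abs_mul (2 ^ s), abs_of_nonneg hcD0,
        abs_of_nonneg (show (0 : ℤ) ≤ 3 ^ o by positivity),
        abs_of_nonneg (show (0 : ℤ) ≤ 2 ^ s by positivity)] at this
      exact this
    have h2 : 2 ^ s * |u| + D * c ≤ 3 ^ o * (2 ^ s * (|u| + D)) := by
      have h3 : (0 : ℤ) ≤ 2 ^ s * |u| := by positivity
      have h4 : 1 * (2 ^ s * |u|) ≤ 3 ^ o * (2 ^ s * |u|) := by gcongr
      linarith
    exact le_of_mul_le_mul_left (h1.trans h2) (by positivity)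
  have hv2 : 2 * |v| < ((3 : ℕ) : ℤ) ^ (K + τ + g') := by
    have h2 : (2 : ℤ) ^ s ≤ 3 ^ K :=
      (pow_le_pow_right₀ (by norm_num) hs).trans (pow_le_pow_left₀ (by norm_num) (by norm_num) _)
    have h3 : |u| + D ≤ (h * H + D) * 3 ^ τ := by
      have : (1 : ℤ) ≤ 3 ^ τ := one_le_pow₀ (by norm_num)
      have : (D : ℤ) * 1 ≤ D * 3 ^ τ := by gcongr
      linarith
    have h4 : (2 : ℤ) ^ s * (|u| + D) ≤ 3 ^ K * ((h * H + D) * 3 ^ τ) := by
      have := abs_nonneg u
      gcongr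
    have h5 : ((2 : ℤ) * (h * H + D)) < 3 ^ g' := by exact_mod_cast hg'
    have h6 : (0 : ℤ) < 3 ^ K * 3 ^ τ := by positivity
    push_cast
    calc 2 * |v| ≤ 2 * (3 ^ K * ((h * H + D) * 3 ^ τ)) := by linarith
      _ = (3 ^ K * 3 ^ τ) * (2 * (h * H + D)) := by ring
      _ < (3 ^ K * 3 ^ τ) * 3 ^ g' := by
          exact mul_lt_mul_of_pos_left h5 h6
      _ = 3 ^ (K + τ + g') := by rw [pow_add, pow_add]
  obtain ⟨n', hn', hsum⟩ := split (q := 3) (by norm_num) hg1 (v := v)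
    (W := 2 ^ s * w) (a := 4 * τ - o) (e := e') hm' (by
      rw [← he', hv]
      push_cast
      ring) hv2 hg (by omega)
  have e1 : ∑ i, n' i * (3 : ℤ) ^ (e' i + o) = 3 ^ o * ∑ i, n' i * (3 : ℤ) ^ e' i := by
    rw [Finset.mul_sum]
    refine Finset.sum_congr rfl fun i _ => ?_
    rw [pow_add]
    ring
  refine hB m e n' (fun i => e' i + o) s hm hn' ?_ ?_
  · push_cast at hsum ⊢
    rw [← hmw, e1, ← hsum, e3]
    ring
  · push_cast at hsum ⊢
    rw [e1, ← hsum]
    positivity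

/-- counting with forward windows -/
theorem count_fwd {G : Finset ℕ} {N K B : ℕ} (hG : G ⊆ range N)
    (h : ∀ i ∈ G, (G.filter fun j => i ≤ j ∧ j ≤ i + K).card ≤ B) :
    G.card ≤ B * (N / (K + 1) + 1) := by
  classical
  have h1 : ∀ i ∈ G, i / (K + 1) ∈ range (N / (K + 1) + 1) := by
    intro i hi
    have := Finset.mem_range.1 (hG hi)
    rw [Finset.mem_range]
    exact Nat.lt_succ_of_le (Nat.div_le_div_right this.le)
  rw [Finset.card_eq_sum_card_fiberwise h1]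
  refine (Finset.sum_le_card_nsmul _ _ B ?_).trans ?_
  · intro b _
    rcases (G.filter fun j => j / (K + 1) = b).eq_empty_or_nonempty with he | hne
    · rw [he]
      simp
    · obtain ⟨i, hi, hmin⟩ := Finset.exists_min_image _ (fun j => j) hne
      have hiG := (Finset.mem_filter.1 hi).1
      refine (Finset.card_le_card ?_).trans (h i hiG)
      intro j hj
      have hj' := Finset.mem_filter.1 hj
      have hi' := Finset.mem_filter.1 hi
      refine Finset.mem_filter.2 ⟨hj'.1, hmin j hj, ?_⟩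
      have e1 := Nat.div_add_mod i (K + 1)
      have e2 := Nat.div_add_mod j (K + 1)
      have e3 := Nat.mod_lt j (show 0 < K + 1 by omega)
      rw [hi'.2] at e1
      rw [hj'.2] at e2
      omega
  · rw [Finset.card_range, smul_eq_mul, mul_comm]

/-- counting with backward windows -/
theorem count_bwd {G : Finset ℕ} {N K B : ℕ} (hG : G ⊆ range N)
    (h : ∀ i ∈ G, (G.filter fun j => j ≤ i ∧ i ≤ j + K).card ≤ B) :
    G.card ≤ B * (N / (K + 1) + 1) := by
  classical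
  have h1 : ∀ i ∈ G, i / (K + 1) ∈ range (N / (K + 1) + 1) := by
    intro i hi
    have := Finset.mem_range.1 (hG hi)
    rw [Finset.mem_range]
    exact Nat.lt_succ_of_le (Nat.div_le_div_right this.le)
  rw [Finset.card_eq_sum_card_fiberwise h1]
  refine (Finset.sum_le_card_nsmul _ _ B ?_).trans ?_
  · intro b _
    rcases (G.filter fun j => j / (K + 1) = b).eq_empty_or_nonempty with he | hne
    · rw [he]
      simp
    · obtain ⟨i, hi, hmax⟩ := Finset.exists_max_image _ (fun j => j) hne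
      have hiG := (Finset.mem_filter.1 hi).1
      refine (Finset.card_le_card ?_).trans (h i hiG)
      intro j hj
      have hj' := Finset.mem_filter.1 hj
      have hi' := Finset.mem_filter.1 hi
      refine Finset.mem_filter.2 ⟨hj'.1, hmax j hj, ?_⟩
      have e1 := Nat.div_add_mod i (K + 1)
      have e2 := Nat.div_add_mod j (K + 1)
      have e3 := Nat.mod_lt i (show 0 < K + 1 by omega)
      rw [hi'.2] at e1
      rw [hj'.2] at e2
      omega
  · rw [Finset.card_range, smul_eq_mul, mul_comm]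

/-- the sums of `h` terms with small exponents -/
noncomputable def smallSums (q k H E : ℕ) : Finset ℤ :=
  ((Fintype.piFinset fun _ : Fin k => Finset.Icc (-(H : ℤ)) H) ×ˢ
    (Fintype.piFinset fun _ : Fin k => range E)).image fun p => ∑ i, p.1 i * (q : ℤ) ^ p.2 i

lemma smallSums_card (q k H E : ℕ) : (smallSums q k H E).card ≤ (2 * H + 1) ^ k * E ^ k := by
  unfold smallSums
  refine Finset.card_image_le.trans ?_
  rw [Finset.card_product, Fintype.card_piFinset_const, Fintype.card_piFinset_const,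
    Finset.card_range, Int.card_Icc]
  have : ((H : ℤ) + 1 - -(H : ℤ)).toNat = 2 * H + 1 := by omega
  rw [this]

/-- numbers of the small type -/
theorem small_type {q h H E : ℕ} (hE : 1 ≤ E) : ∃ S : Finset ℤ,
    S.card ≤ (2 * H + 1) ^ h * E ^ (h - 1) ∧ ∀ (m : Fin h → ℤ) (e : Fin h → ℕ),
      (∀ i, |m i| ≤ H) → (∀ i, m i ≠ 0 → e i < E) → ¬ (q : ℤ) ∣ ∑ i, m i * (q : ℤ) ^ e i →
      ∑ i, m i * (q : ℤ) ^ e i ∈ S := by
  classical
  rcases h with _ | k
  · exact ⟨∅, by simp, fun m e _ _ hnd => absurd (by simp) hnd⟩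
  · refine ⟨Finset.image₂ (· + ·) (Finset.Icc (-(H : ℤ)) H) (smallSums q k H E), ?_, ?_⟩
    · refine (Finset.card_image₂_le _ _ _).trans ?_
      rw [Int.card_Icc]
      have : ((H : ℤ) + 1 - -(H : ℤ)).toNat = 2 * H + 1 := by omega
      rw [this, Nat.add_sub_cancel, pow_succ' (2 * H + 1) k, mul_assoc]
      exact Nat.mul_le_mul_left _ (smallSums_card q k H E)
    · intro m e hm he hnd
      obtain ⟨i0, hi0, hi1⟩ : ∃ i, m i ≠ 0 ∧ e i = 0 := by
        by_contra hcon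
        push Not at hcon
        apply hnd
        apply Finset.dvd_sum
        intro i _
        by_cases hmi : m i = 0
        · rw [hmi, zero_mul]
          exact dvd_zero _
        · exact Dvd.dvd.mul_left (dvd_pow_self _ (hcon i hmi)) _
      rw [Fin.sum_univ_succAbove _ i0, hi1, pow_zero, mul_one, Finset.mem_image₂]
      refine ⟨m i0, Finset.mem_Icc.2 (abs_le.1 (hm i0)), _, ?_, rfl⟩
      unfold smallSums
      rw [Finset.mem_image]
      refine ⟨(fun j => m (i0.succAbove j),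
        fun j => if m (i0.succAbove j) = 0 then 0 else e (i0.succAbove j)), ?_, ?_⟩
      · rw [Finset.mem_product, Fintype.mem_piFinset, Fintype.mem_piFinset]
        refine ⟨fun j => Finset.mem_Icc.2 (abs_le.1 (hm _)), fun j => ?_⟩
        rw [Finset.mem_range]
        simp only
        split_ifs with hz
        · omega
        · exact he _ hz
      · refine Finset.sum_congr rfl fun j _ => ?_
        simp only
        split_ifs with hz
        · rw [hz, zero_mul, zero_mul]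
        · rfl

end Run7.h911.FD
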