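import Pool.Agent.T2H09.LW.Main3

/-!
# The main estimate with harmless deep returns
-/

set_option autoImplicit false
open Set Filter Topology Metric MeasureTheory Polynomial
open scoped ENNReal

namespace Run7.h911

open Pool.Agent.W746.LD Pool.Agent.T2H09.DH Pool.Agent.T2H09.LU Pool.Agent.T2H09.LV
  Pool.Agent.T2H09.LW N62a1eb23

/-- The product of the part of the quadratic differential over `F` with `w - c`. -/
noncomputable def gf (n : ℕ) (c : ℂ) (F : Finset ℕ) (w : ℂ) : ℂ :=
  1 + (w - c) * ∑ i ∈ F, (P n c c (i + 1))⁻¹ / (w - orb n c c (i + 1))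

lemma gf_self (n : ℕ) (c : ℂ) (F : Finset ℕ) : gf n c F c = 1 := by
  unfold gf
  rw [sub_self, zero_mul, add_zero]

lemma gf_eq (n : ℕ) {c w : ℂ} {J' : ℕ} {F : Finset ℕ} (hF : F ⊆ Finset.range J') (hw : w ≠ c) :
    gf n c F w = (w - c) * qd n c (J' + 1) w -
      (w - c) * ∑ i ∈ Finset.range J' \ F, (P n c c (i + 1))⁻¹ / (w - orb n c c (i + 1)) := by
  rw [← gg_eq n J' hw]
  unfold gf gg
  rw [← Finset.sum_sdiff hF]
  ring

/-- The function on the disc. -/
theorem gf_disc {n : ℕ} {c : ℂ} {J' : ℕ} {F : Finset ℕ} (hF : F ⊆ Finset.range J') {m B Λ : ℝ}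
    (hfar : ∀ i ∈ F, Real.exp (-m) ≤ ‖orb n c c (i + 1) - c‖)
    (hB : ∀ i ∈ F, ‖(P n c c (i + 1))⁻¹‖ ≤ B) (hB1 : 1 ≤ B) (hΛ : (J' + 1) * B ≤ Real.exp Λ) :
    DifferentiableOn ℂ (gf n c F) (ball c (Real.exp (-m) / 2)) ∧
    ∀ w ∈ ball c (Real.exp (-m) / 2), ‖gf n c F w‖ ≤ Real.exp Λ := by
  set R : ℝ := Real.exp (-m) / 2 with hR
  have hR0 : 0 < R := by positivity
  have hfar' : ∀ w ∈ ball c R, ∀ i ∈ F, R ≤ ‖w - orb n c c (i + 1)‖ := by
    intro w hw i hi
    have h1 : ‖w - c‖ < R := by rwa [mem_ball, dist_eq_norm] at hw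
    have h2 := hfar i hi
    have h3 : ‖orb n c c (i + 1) - c‖ ≤ ‖w - orb n c c (i + 1)‖ + ‖w - c‖ := by
      calc ‖orb n c c (i + 1) - c‖ = ‖(w - c) - (w - orb n c c (i + 1))‖ := by ring_nf
        _ ≤ ‖w - c‖ + ‖w - orb n c c (i + 1)‖ := norm_sub_le _ _
        _ = _ := add_comm _ _
    linarith
  constructor
  · intro w hw
    apply DifferentiableAt.differentiableWithinAt
    unfold gf
    apply DifferentiableAt.const_add
    apply DifferentiableAt.mul
    · exact differentiableAt_id.sub_const _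
    · apply DifferentiableAt.fun_sum
      intro i hi
      apply DifferentiableAt.div
      · exact differentiableAt_const _
      · exact differentiableAt_id.sub_const _
      · have := hfar' w hw i hi
        intro h1
        rw [h1, norm_zero] at this
        linarith
  · intro w hw
    have h1 : ‖w - c‖ < R := by rwa [mem_ball, dist_eq_norm] at hw
    unfold gf
    have h2 : ‖(w - c) * ∑ i ∈ F, (P n c c (i + 1))⁻¹ / (w - orb n c c (i + 1))‖ ≤ J' * B := by
      rw [Finset.mul_sum]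
      calc ‖∑ i ∈ F, (w - c) * ((P n c c (i + 1))⁻¹ / (w - orb n c c (i + 1)))‖
          ≤ ∑ i ∈ F, ‖(w - c) * ((P n c c (i + 1))⁻¹ / (w - orb n c c (i + 1)))‖ :=
            norm_sum_le _ _
        _ ≤ ∑ i ∈ F, B := by
            apply Finset.sum_le_sum
            intro i hi
            have h3 := hfar' w hw i hi
            have h4 := hB i hi
            rw [norm_mul, norm_div]
            have h5 : 0 < ‖w - orb n c c (i + 1)‖ := by linarith
            calc ‖w - c‖ * (‖(P n c c (i + 1))⁻¹‖ / ‖w - orb n c c (i + 1)‖)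
                ≤ ‖w - orb n c c (i + 1)‖ * (‖(P n c c (i + 1))⁻¹‖ / ‖w - orb n c c (i + 1)‖) := by
                  gcongr
                  linarith
              _ = ‖(P n c c (i + 1))⁻¹‖ := by field_simp
              _ ≤ _ := h4
        _ = F.card * B := by rw [Finset.sum_const, nsmul_eq_mul]
        _ ≤ J' * B := by
            have h6 := Finset.card_le_card hF
            rw [Finset.card_range] at h6
            have h7 : (F.card : ℝ) ≤ J' := by exact_mod_cast h6
            gcongr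
    calc ‖1 + (w - c) * ∑ i ∈ F, (P n c c (i + 1))⁻¹ / (w - orb n c c (i + 1))‖
        ≤ ‖(1 : ℂ)‖ + J' * B := (norm_add_le _ _).trans (by linarith)
      _ ≤ 1 * B + J' * B := by rw [norm_one]; linarith
      _ = (J' + 1) * B := by ring
      _ ≤ _ := hΛ

/-- The main estimate. -/
theorem main_est3 {n : ℕ} (hn : 2 ≤ n) {c : ℂ} (hc : c ∈ multibrotSet n) {M J' : ℕ}
    (h0 : ∀ j < J' + 1, orb n c c j ≠ 0) {ε : ℝ} (hε : 0 < ε)
    (hmass : ∫⁻ w in closedBall (0 : ℂ) 3, ‖er n c (J' + 1) w‖ₑ ≤ ENNReal.ofReal ε)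
    {L : ℝ} (hL0 : 0 ≤ L) (hL : ∀ k, kap n c (k + 1) ≤ kap n c k + L)
    {m : ℝ} (hm : 0 ≤ m) {F : Finset ℕ} (hF : F ⊆ Finset.range J')
    (hfar : ∀ i ∈ F, Real.exp (-m) ≤ ‖orb n c c (i + 1) - c‖) {B Λ : ℝ}
    (hB : ∀ i ∈ F, ‖(P n c c (i + 1))⁻¹‖ ≤ B) (hB1 : 1 ≤ B) (hΛ : (J' + 1) * B ≤ Real.exp Λ)
    (hΛ0 : 0 ≤ Λ) {η : ℝ} (hη0 : 0 ≤ η)
    (hη : ∑ i ∈ Finset.range J' \ F, ‖(P n c c (i + 1))⁻¹‖ ≤ η)
    {h m0 K : ℝ} (hh : h = 1 / (8 * (3 ^ n + 2))) (hLh : h * L ≤ 1)
    (hm0 : m0 = Real.exp (-(2 + L)) * h / 4) (hK : K = 8 * Real.exp 1 / m0) {q : ℕ}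
    (hq : Λ + 2 ≤ 2 ^ q) {Dm : ℕ}
    (hDm : ⌊(Λ + (2 * Real.log (K + 2) + 2)) / 2⌋₊ + 1 ≤ Dm)
    (hx : m + Real.log (4 * K ^ 2) + q * Real.log (2 * K ^ 2) + 2 ≤ kap n c M)
    (hηs : 3 / h * (Dm * (M + 1)) * η ≤ Real.exp (-(2 * Real.log (K + 2) + 2)) / 2) :
    -(2 * Real.log (K + 2) + 2) < Real.log (2 * ε) +
      Real.log (12 * (Dm * (M + 1)) ^ 2 / h ^ 2) +
      (m + Real.log (4 * K ^ 2) + q * Real.log (2 * K ^ 2) + 2 + L) := by
  have h3n : (1 : ℝ) ≤ 3 ^ n := one_le_pow₀ (by norm_num)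
  have hh0 : 0 < h := by rw [hh]; positivity
  have hh1 : h ≤ 1 := by
    rw [hh, div_le_one (by positivity)]
    linarith
  have hm00 : 0 < m0 := by rw [hm0]; positivity
  have hm01 : m0 ≤ 1 := by
    rw [hm0]
    have h1 : Real.exp (-(2 + L)) ≤ 1 := by rw [Real.exp_le_one_iff]; linarith
    have h2 : 0 ≤ Real.exp (-(2 + L)) := (Real.exp_pos _).le
    nlinarith
  have hK8 : 8 * Real.exp 1 ≤ K := by
    rw [hK, le_div_iff₀ hm00]
    nlinarith [Real.exp_pos 1]
  have hexp1 : 2 ≤ Real.exp 1 := by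
    have := Real.add_one_le_exp (1 : ℝ)
    linarith
  have hK16 : 16 ≤ K := by linarith
  have hK0 : 0 < K := by linarith
  have hK1 : 1 ≤ K ^ 2 := one_le_pow₀ (by linarith)
  have hlK4 : 0 ≤ Real.log (4 * K ^ 2) := Real.log_nonneg (by linarith)
  have hlK2 : 0 ≤ Real.log (2 * K ^ 2) := Real.log_nonneg (by linarith)
  obtain ⟨hG, hGl⟩ := gf_disc (n := n) (c := c) hF hfar hB hB1 hΛ
  obtain ⟨e, he⟩ : ∃ e, e = -(2 * Real.log (K + 2) + 2) := ⟨_, rfl⟩
  rw [← he] at hηs ⊢
  by_contra hcon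
  push Not at hcon
  obtain ⟨x, hxd⟩ : ∃ x : ℕ → ℝ, x = fun i : ℕ => m + Real.log (4 * K ^ 2) +
    (i : ℝ) * Real.log (2 * K ^ 2) := ⟨_, rfl⟩
  have hx0 : ∀ i, 0 ≤ x i := by
    intro i
    rw [hxd]
    have : 0 ≤ (i : ℝ) * Real.log (2 * K ^ 2) := by positivity
    simp only
    linarith
  have hxq : ∀ i < q, x i ≤ m + Real.log (4 * K ^ 2) + q * Real.log (2 * K ^ 2) := by
    intro i hi
    rw [hxd]
    have h1 : (i : ℝ) ≤ q := by exact_mod_cast hi.le
    have h2 : (i : ℝ) * Real.log (2 * K ^ 2) ≤ q * Real.log (2 * K ^ 2) := by gcongr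
    simp only
    linarith
  have h4K : Real.exp (-Real.log (4 * K ^ 2)) = 1 / (4 * K ^ 2) := by
    rw [Real.exp_neg, Real.exp_log (by positivity), one_div]
  have h2K : Real.exp (-Real.log (2 * K ^ 2)) = 1 / (2 * K ^ 2) := by
    rw [Real.exp_neg, Real.exp_log (by positivity), one_div]
  have hlt := blocks (G := gf n c F) (c := c) (m := m0) (K := K) (R' := Real.exp (-m) / 2) (e := e)
    (A := Λ) hm00 hm01 hK hG hGl hΛ0 he hq (fun i => Real.exp (-x i))
    (fun i _ => Real.exp_pos _)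
    (by
      have e1 : Real.exp (-x 0) = Real.exp (-m) * (1 / (4 * K ^ 2)) := by
        rw [← h4K, ← Real.exp_add]
        congr 1
        rw [hxd]
        simp only
        push_cast
        ring
      change K ^ 2 * Real.exp (-x 0) < Real.exp (-m) / 2
      rw [e1]
      have e2 : K ^ 2 * (Real.exp (-m) * (1 / (4 * K ^ 2))) = Real.exp (-m) / 4 := by field_simp
      rw [e2]
      have := Real.exp_pos (-m)
      linarith)
    (by
      intro i hi
      have e1 : Real.exp (-x (i + 1)) = Real.exp (-x i) * (1 / (2 * K ^ 2)) := by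
        rw [← h2K, ← Real.exp_add]
        congr 1
        rw [hxd]
        simp only
        push_cast
        ring
      change K ^ 2 * Real.exp (-x (i + 1)) < Real.exp (-x i)
      rw [e1]
      have e2 : K ^ 2 * (Real.exp (-x i) * (1 / (2 * K ^ 2))) = Real.exp (-x i) / 2 := by
        field_simp
      rw [e2]
      have := Real.exp_pos (-x i)
      linarith)
    (by
      intro i hi D hD1 hD2
      have hDle : D ≤ Dm := by
        refine hD2.trans (le_trans (le_of_eq ?_) hDm)
        rw [he, sub_neg_eq_add]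
      have hxi := hxq i hi
      obtain ⟨w, hw1, hw2, hw3⟩ := nodes hn hc (M := M) hL hh hLh (hx0 i) (by linarith) hD1
      refine ⟨w, hw1, ?_, ?_⟩
      · intro j hj k hk
        have := hw2 j hj k hk
        rw [← hm0] at this
        exact this
      · intro j hj
        obtain ⟨k, k1, k2, k3, k4, k5, k6, k7⟩ := hw3 j hj
        have hδ := dl_pos hn hc k
        obtain ⟨lam, hlam⟩ : ∃ lam, lam = kap n c k - kap n c (k - 1) := ⟨_, rfl⟩
        rw [← hlam] at k3 k4 k7
        have hs : 0 < h / 2 * lam * dl n c k := by positivity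
        have hqd := qd_le hn hc h0 hε.le hmass k1 hs k7
        have hD0 : (0 : ℝ) < D := by exact_mod_cast hD1
        have hDm' : (D : ℝ) ≤ Dm := by exact_mod_cast hDle
        have hlam' : 1 / lam ≤ Dm * (M + 1) := by
          rw [div_le_iff₀ k3]
          have h1 : 1 ≤ (D : ℝ) * (M + 1) * lam := by
            rw [div_le_iff₀ (by positivity)] at k4
            linarith
          refine h1.trans ?_
          gcongr
        have hδ' : 1 / dl n c k ≤ Real.exp (x i + 2 + L) := by
          rw [← exp_kap hn hc k, one_div, ← Real.exp_neg, neg_neg]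
          exact Real.exp_le_exp.mpr k2
        have hD0m : (0 : ℝ) < Dm := by linarith
        have hpole : ∀ l, h / 2 * lam * dl n c k ≤ ‖w j - orb n c c l‖ := by
          intro l
          by_contra hlt
          push Not at hlt
          have h1 : orb n c c l ∈ ball (w j) (h / 2 * lam * dl n c k) := by
            rw [mem_ball, dist_comm, dist_eq_norm]
            exact hlt
          exact (k7 _ h1).2 (UU_mem hn hc l (k + 1))
        have hdeep : ‖(w j - c) * ∑ i ∈ Finset.range J' \ F,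
            (P n c c (i + 1))⁻¹ / (w j - orb n c c (i + 1))‖ ≤ Real.exp e / 2 := by
          refine le_trans ?_ hηs
          rw [norm_mul]
          have h1 : ‖∑ i ∈ Finset.range J' \ F,
              (P n c c (i + 1))⁻¹ / (w j - orb n c c (i + 1))‖ ≤ η / (h / 2 * lam * dl n c k) := by
            calc ‖∑ i ∈ Finset.range J' \ F, (P n c c (i + 1))⁻¹ / (w j - orb n c c (i + 1))‖
                ≤ ∑ i ∈ Finset.range J' \ F,
                    ‖(P n c c (i + 1))⁻¹ / (w j - orb n c c (i + 1))‖ := norm_sum_le _ _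
              _ ≤ ∑ i ∈ Finset.range J' \ F,
                    ‖(P n c c (i + 1))⁻¹‖ / (h / 2 * lam * dl n c k) := by
                  apply Finset.sum_le_sum
                  intro l _
                  rw [norm_div]
                  apply div_le_div_of_nonneg_left (norm_nonneg _) hs (hpole (l + 1))
              _ = (∑ i ∈ Finset.range J' \ F, ‖(P n c c (i + 1))⁻¹‖) /
                    (h / 2 * lam * dl n c k) := by rw [Finset.sum_div]
              _ ≤ _ := by gcongr
          calc ‖w j - c‖ * ‖∑ i ∈ Finset.range J' \ F,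
                (P n c c (i + 1))⁻¹ / (w j - orb n c c (i + 1))‖
              ≤ 3 / 2 * dl n c k * (η / (h / 2 * lam * dl n c k)) := by gcongr
            _ = 3 / h * (1 / lam) * η := by field_simp
            _ ≤ 3 / h * (Dm * (M + 1)) * η := by gcongr
        have hmain : ‖(w j - c) * qd n c (J' + 1) (w j)‖ ≤ Real.exp e / 2 := by
          rw [norm_mul]
          calc ‖w j - c‖ * ‖qd n c (J' + 1) (w j)‖
              ≤ 3 / 2 * dl n c k * (2 * ε / (h / 2 * lam * dl n c k) ^ 2) := by gcongr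
            _ = 12 * ε / h ^ 2 * (1 / lam) ^ 2 * (1 / dl n c k) := by
                field_simp
                norm_num
            _ ≤ 12 * ε / h ^ 2 * (Dm * (M + 1)) ^ 2 * Real.exp (x i + 2 + L) := by gcongr
            _ = Real.exp (Real.log (2 * ε) + Real.log (12 * (Dm * (M + 1)) ^ 2 / h ^ 2) +
                  (x i + 2 + L)) / 2 := by
                rw [Real.exp_add (Real.log (2 * ε) + _) _, Real.exp_add (Real.log (2 * ε)) _,
                  Real.exp_log (by positivity), Real.exp_log (by positivity)]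
                ring
            _ ≤ Real.exp e / 2 := by
                gcongr
                linarith
        rw [gf_eq n hF k5]
        calc ‖(w j - c) * qd n c (J' + 1) (w j) - (w j - c) * ∑ i ∈ Finset.range J' \ F,
              (P n c c (i + 1))⁻¹ / (w j - orb n c c (i + 1))‖
            ≤ ‖(w j - c) * qd n c (J' + 1) (w j)‖ + ‖(w j - c) * ∑ i ∈ Finset.range J' \ F,
              (P n c c (i + 1))⁻¹ / (w j - orb n c c (i + 1))‖ := norm_sub_le _ _
          _ ≤ Real.exp e / 2 + Real.exp e / 2 := add_le_add hmain hdeep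
          _ = Real.exp e := by ring)
  rw [gf_self, norm_one] at hlt
  exact lt_irrefl _ hlt

end Run7.h911
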