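import Pool.Agent.Run7.h911.Gen
import Pool.Agent.T2H09.LV.Rec

/-!
# The main estimate with harmless deep returns, abstract form
-/

set_option autoImplicit false
open Set Filter Topology Metric MeasureTheory
open scoped ENNReal

namespace Run7.h911

open Pool.Agent.W746.LD Pool.Agent.T2H09.DH Pool.Agent.T2H09.LU Pool.Agent.T2H09.LV
  Pool.Agent.T2H09.LW N62a1eb23

/-- Lower bound of the derivatives along an orbit without harmful deep returns. -/
lemma aa_lower {n : ℕ} (hn : 2 ≤ n) {c : ℂ} {J : ℕ} (h0 : ∀ j < J, orb n c c j ≠ 0) {m T : ℝ}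
    (hm : 0 ≤ m) (hT : 0 ≤ T) (hdeep : ∀ j, 1 ≤ j → j < J → kk n c j ≤ m ∨ T ≤ aa n c j) :
    ∀ i, i < J → -(m * i) ≤ aa n c i := by
  have hn1 : (2 : ℝ) ≤ n := by exact_mod_cast hn
  intro i
  induction i with
  | zero =>
    intro _
    unfold aa
    simp
  | succ i ih =>
    intro hi
    have h1 := ih (by omega)
    rcases hdeep (i + 1) (by omega) hi with h2 | h2
    · have h3 := bb_succ hn h0 (by omega : i < J)
      have h4 : 0 ≤ Real.log n := Real.log_nonneg (by linarith)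
      have h5 : kk n c (i + 1) - kk n c (i + 1) / n ≤ m := by
        have e : kk n c (i + 1) - kk n c (i + 1) / n = kk n c (i + 1) * (1 - 1 / n) := by ring
        have h6 : 0 < 1 / (n : ℝ) := by positivity
        have h7 : 1 / (n : ℝ) ≤ 1 := by rw [div_le_one (by linarith)]; linarith
        rw [e]
        rcases le_total 0 (kk n c (i + 1)) with h8 | h8 <;> nlinarith
      push_cast
      linarith
    · have h3 : 0 ≤ m * ((i + 1 : ℕ) : ℝ) := by positivity
      linarith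

/-- The main estimate with a constant of the form `A log (M (1 + m))`. -/
theorem main_abs3 {n : ℕ} (hn : 2 ≤ n) : ∃ A : ℝ, 1 ≤ A ∧ ∀ c ∈ multibrotSet n, ∀ M : ℕ, 2 ≤ M →
    ∀ J : ℕ, 1 ≤ J → J ≤ M → (∀ j < J, orb n c c j ≠ 0) → ∀ ε : ℝ, 0 < ε →
    ∫⁻ w in closedBall (0 : ℂ) 3, ‖er n c J w‖ₑ ≤ ENNReal.ofReal ε →
    ∀ m : ℝ, 0 ≤ m →
    (∀ j, 1 ≤ j → j < J → kk n c j ≤ m ∨ A * Real.log (M * (1 + m)) ≤ aa n c j) →
    m + A * Real.log (M * (1 + m)) ≤ kap n c M →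
    0 ≤ Real.log ε + A * Real.log (M * (1 + m)) + m := by
  have hn1 : (1 : ℝ) ≤ n := by exact_mod_cast (by omega : 1 ≤ n)
  have h3n : (1 : ℝ) ≤ 3 ^ n := one_le_pow₀ (by norm_num)
  obtain ⟨L, hLd⟩ : ∃ L, L = Real.log (3 ^ n + 4) := ⟨_, rfl⟩
  have hL0 : 0 ≤ L := by rw [hLd]; exact Real.log_nonneg (by linarith)
  obtain ⟨h, hh⟩ : ∃ h : ℝ, h = 1 / (8 * (3 ^ n + 2)) := ⟨_, rfl⟩
  have hh0 : 0 < h := by rw [hh]; positivity
  have hLh : h * L ≤ 1 := by
    rw [hh, div_mul_eq_mul_div, one_mul, div_le_one (by positivity), hLd]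
    have := Real.log_le_sub_one_of_pos (show (0 : ℝ) < 3 ^ n + 4 by positivity)
    linarith
  obtain ⟨m0, hm0⟩ : ∃ m0, m0 = Real.exp (-(2 + L)) * h / 4 := ⟨_, rfl⟩
  have hm00 : 0 < m0 := by rw [hm0]; positivity
  obtain ⟨K, hK⟩ : ∃ K, K = 8 * Real.exp 1 / m0 := ⟨_, rfl⟩
  have hh1 : h ≤ 1 := by
    rw [hh, div_le_one (by positivity)]
    linarith
  have hm01 : m0 ≤ 1 := by
    rw [hm0]
    have h1 : Real.exp (-(2 + L)) ≤ 1 := by rw [Real.exp_le_one_iff]; linarith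
    have h2 : 0 ≤ Real.exp (-(2 + L)) := (Real.exp_pos _).le
    nlinarith
  have hexp1 : 2 ≤ Real.exp 1 := by
    have := Real.add_one_le_exp (1 : ℝ)
    linarith
  have hK16 : 16 ≤ K := by
    rw [hK, le_div_iff₀ hm00]
    nlinarith
  have hK0 : 0 < K := by linarith
  have hK1 : 1 ≤ K ^ 2 := one_le_pow₀ (by linarith)
  have hlK4 : 0 ≤ Real.log (4 * K ^ 2) := Real.log_nonneg (by linarith)
  have hlK2 : 0 ≤ Real.log (2 * K ^ 2) := Real.log_nonneg (by linarith)
  have hlKK : 0 ≤ Real.log (K + 2) := Real.log_nonneg (by linarith)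
  obtain ⟨l2, hl2⟩ : ∃ l2, l2 = Real.log 2 := ⟨_, rfl⟩
  have hl20 : 0 < l2 := by rw [hl2]; exact Real.log_pos (by norm_num)
  have hl21 : l2 ≤ 1 := by
    rw [hl2]
    have := Real.log_le_sub_one_of_pos (show (0 : ℝ) < 2 by norm_num)
    linarith
  obtain ⟨LK, hLK⟩ : ∃ LK, LK = Real.log (2 * K ^ 2) := ⟨_, rfl⟩
  rw [← hLK] at hlK2
  obtain ⟨B2, hB2⟩ : ∃ B2, B2 = Real.log (K + 2) + 3 := ⟨_, rfl⟩
  have hB21 : 1 ≤ B2 := by rw [hB2]; linarith
  have hlB2 : 0 ≤ Real.log B2 := Real.log_nonneg hB21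
  have hl48 : 0 ≤ Real.log 48 := Real.log_nonneg (by norm_num)
  have hlh : Real.log h ≤ 0 := Real.log_nonpos hh0.le hh1
  obtain ⟨A2, hA2⟩ : ∃ A2, A2 = l2 + Real.log 48 + 2 * Real.log B2 - 2 * Real.log h +
    Real.log (4 * K ^ 2) + 2 * LK + 2 + L + (2 * Real.log (K + 2) + 2) := ⟨_, rfl⟩
  have hA20 : 0 ≤ A2 := by rw [hA2]; linarith
  obtain ⟨A3, hA3⟩ : ∃ A3, A3 = Real.log (12 * B2 / h) + (2 * Real.log (K + 2) + 2) := ⟨_, rfl⟩
  have h12 : 1 ≤ 12 * B2 / h := by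
    rw [le_div_iff₀ hh0]
    linarith
  have hA30 : 0 ≤ A3 := by
    rw [hA3]
    have := Real.log_nonneg h12
    linarith
  obtain ⟨A, hA⟩ : ∃ A, A = (A2 + A3) / l2 + 4 + LK / l2 := ⟨_, rfl⟩
  have hq20 : 0 ≤ (A2 + A3) / l2 := by positivity
  have hq30 : 0 ≤ LK / l2 := by positivity
  refine ⟨A, by rw [hA]; linarith, ?_⟩
  intro c hc M hM J hJ1 hJM h0 ε hε hmass m hm hdeep hkap
  obtain ⟨J', rfl⟩ : ∃ J', J = J' + 1 := ⟨J - 1, by omega⟩
  have hM2 : (2 : ℝ) ≤ M := by exact_mod_cast hM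
  have hM0 : (0 : ℝ) < M := by linarith
  obtain ⟨X, hX⟩ : ∃ X, X = (M : ℝ) * (1 + m) := ⟨_, rfl⟩
  have hXM : M + M * m = X := by rw [hX]; ring
  have hMm : 0 ≤ M * m := by positivity
  have hX2 : 2 ≤ X := by linarith
  have hX0 : 0 < X := by linarith
  rw [← hX] at hdeep hkap ⊢
  obtain ⟨l, hl⟩ : ∃ l, l = Real.log X := ⟨_, rfl⟩
  rw [← hl] at hdeep hkap ⊢
  have hll : l2 ≤ l := by rw [hl, hl2]; exact Real.log_le_log (by norm_num) hX2
  have hl0 : 0 < l := by linarith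
  have hAl : A2 + A3 + 4 * l + LK / l2 * l ≤ A * l := by
    have h1 : A2 + A3 ≤ (A2 + A3) / l2 * l := by
      rw [div_mul_eq_mul_div, le_div_iff₀ hl20]
      gcongr
    rw [hA]
    linarith
  have hAl0 : 0 ≤ A * l := by
    have : 0 ≤ LK / l2 * l := by positivity
    linarith
  have hlow := aa_lower hn h0 hm hAl0 hdeep
  -- the far indices
  obtain ⟨F, hF⟩ : ∃ F, F = (Finset.range J').filter fun i => kk n c (i + 1) ≤ m := ⟨_, rfl⟩
  have hFs : F ⊆ Finset.range J' := by rw [hF]; exact Finset.filter_subset _ _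
  have hPpos : ∀ i, i < J' + 1 → 0 < ‖P n c c i‖ := fun i hi =>
    norm_pos_iff.mpr (P_ne hn h0 hi.le)
  have hinv : ∀ i, i < J' + 1 → ‖(P n c c i)⁻¹‖ = Real.exp (-aa n c i) := by
    intro i hi
    unfold aa
    rw [Real.exp_neg, Real.exp_log (hPpos i hi), norm_inv]
  have hfar : ∀ i ∈ F, Real.exp (-m) ≤ ‖orb n c c (i + 1) - c‖ := by
    intro i hi
    rw [hF, Finset.mem_filter, Finset.mem_range] at hi
    rw [← exp_kk0 h0 (by omega : 1 ≤ i + 1) (by omega : i + 1 ≤ J' + 1)]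
    apply Real.exp_le_exp.mpr
    linarith [hi.2]
  have hBF : ∀ i ∈ F, ‖(P n c c (i + 1))⁻¹‖ ≤ Real.exp (m * M) := by
    intro i hi
    have hi' := hFs hi
    rw [Finset.mem_range] at hi'
    rw [hinv (i + 1) (by omega)]
    apply Real.exp_le_exp.mpr
    have h1 := hlow (i + 1) (by omega)
    have h2 : m * ((i + 1 : ℕ) : ℝ) ≤ m * M := by
      apply mul_le_mul_of_nonneg_left _ hm
      exact_mod_cast (by omega : i + 1 ≤ M)
    linarith
  have hlM : Real.log M ≤ M := by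
    have := Real.log_le_sub_one_of_pos hM0
    linarith
  have hlM0 : 0 ≤ Real.log M := Real.log_nonneg (by linarith)
  obtain ⟨Λ, hΛ⟩ : ∃ Λ, Λ = Real.log M + m * M := ⟨_, rfl⟩
  have hΛ0 : 0 ≤ Λ := by rw [hΛ]; positivity
  have hΛX : Λ ≤ X := by rw [hΛ]; linarith
  have hΛe : ((J' : ℝ) + 1) * Real.exp (m * M) ≤ Real.exp Λ := by
    rw [hΛ, Real.exp_add, Real.exp_log hM0]
    have : (J' : ℝ) + 1 ≤ M := by exact_mod_cast hJM
    gcongr
  obtain ⟨η, hη⟩ : ∃ η, η = M * Real.exp (-(A * l)) := ⟨_, rfl⟩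
  have hη0 : 0 ≤ η := by rw [hη]; positivity
  have hηs : ∑ i ∈ Finset.range J' \ F, ‖(P n c c (i + 1))⁻¹‖ ≤ η := by
    calc ∑ i ∈ Finset.range J' \ F, ‖(P n c c (i + 1))⁻¹‖
        ≤ ∑ i ∈ Finset.range J' \ F, Real.exp (-(A * l)) := by
          apply Finset.sum_le_sum
          intro i hi
          rw [Finset.mem_sdiff, hF, Finset.mem_filter, Finset.mem_range] at hi
          rw [hinv (i + 1) (by omega)]
          apply Real.exp_le_exp.mpr
          rcases hdeep (i + 1) (by omega) (by omega) with h1 | h1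
          · exact absurd ⟨hi.1, h1⟩ hi.2
          · linarith
      _ = (Finset.range J' \ F).card * Real.exp (-(A * l)) := by
          rw [Finset.sum_const, nsmul_eq_mul]
      _ ≤ M * Real.exp (-(A * l)) := by
          have h1 : (Finset.range J' \ F).card ≤ M := by
            refine (Finset.card_le_card Finset.sdiff_subset).trans ?_
            rw [Finset.card_range]
            omega
          have h2 : ((Finset.range J' \ F).card : ℝ) ≤ M := by exact_mod_cast h1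
          gcongr
      _ = η := hη.symm
  -- the number of blocks
  obtain ⟨q, hq⟩ : ∃ q : ℕ, q = ⌈Real.log (2 * X) / l2⌉₊ := ⟨_, rfl⟩
  have hlBM : Real.log (2 * X) = l2 + l := by
    rw [Real.log_mul (by norm_num) hX0.ne', ← hl, ← hl2]
  have hq1 : Λ + 2 ≤ 2 ^ q := by
    have h1 : Real.log (2 * X) / l2 ≤ q := by rw [hq]; exact Nat.le_ceil _
    rw [div_le_iff₀ hl20] at h1
    have h2 : 2 * X ≤ 2 ^ q := by
      have h3 : (2 : ℝ) ^ q = Real.exp (q * l2) := by
        rw [Real.exp_nat_mul, hl2, Real.exp_log (by norm_num)]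
      rw [h3, ← Real.exp_log (show 0 < 2 * X by positivity)]
      exact Real.exp_le_exp.mpr h1
    linarith
  have hq2 : (q : ℝ) ≤ 2 + l / l2 := by
    have h1 : (q : ℝ) ≤ (l2 + l) / l2 + 1 := by
      rw [hq, ← hlBM]
      apply (Nat.ceil_lt_add_one _).le
      rw [hlBM]
      positivity
    rw [add_div, div_self hl20.ne'] at h1
    linarith
  -- the number of nodes
  obtain ⟨Dm, hDm⟩ : ∃ Dm : ℕ, Dm = ⌊(Λ + (2 * Real.log (K + 2) + 2)) / 2⌋₊ + 1 := ⟨_, rfl⟩
  have hDm1 : (1 : ℝ) ≤ Dm := by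
    rw [hDm]
    push_cast
    have : (0 : ℝ) ≤ (⌊(Λ + (2 * Real.log (K + 2) + 2)) / 2⌋₊ : ℝ) := Nat.cast_nonneg _
    linarith
  have hDm2 : (Dm : ℝ) ≤ B2 * X := by
    have h1 : (Dm : ℝ) ≤ (Λ + (2 * Real.log (K + 2) + 2)) / 2 + 1 := by
      rw [hDm]
      push_cast
      have := Nat.floor_le (show 0 ≤ (Λ + (2 * Real.log (K + 2) + 2)) / 2 by positivity)
      linarith
    rw [hB2]
    have h2 : Real.log (K + 2) + 2 ≤ (Real.log (K + 2) + 2) * X :=
      le_mul_of_one_le_right (by linarith) (by linarith)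
    nlinarith
  have hMX : (M : ℝ) + 1 ≤ 2 * X := by linarith
  have hDMX : (Dm : ℝ) * (M + 1) ≤ 2 * B2 * X ^ 2 := by
    calc (Dm : ℝ) * (M + 1) ≤ B2 * X * (2 * X) := by gcongr
      _ = _ := by ring
  have hlog : Real.log (12 * (Dm * (M + 1)) ^ 2 / h ^ 2) ≤
      Real.log 48 + 2 * Real.log B2 - 2 * Real.log h + 4 * l := by
    have h1 : 12 * ((Dm : ℝ) * (M + 1)) ^ 2 / h ^ 2 ≤ 48 * B2 ^ 2 * X ^ 4 / h ^ 2 := by
      apply div_le_div_of_nonneg_right _ (by positivity)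
      calc 12 * ((Dm : ℝ) * (M + 1)) ^ 2 ≤ 12 * (2 * B2 * X ^ 2) ^ 2 := by gcongr
        _ = _ := by ring
    refine (Real.log_le_log (by positivity) h1).trans (le_of_eq ?_)
    rw [Real.log_div (by positivity) (by positivity), Real.log_mul (by positivity) (by positivity),
      Real.log_mul (by norm_num) (by positivity), Real.log_pow, Real.log_pow, Real.log_pow, ← hl]
    push_cast
    ring
  have hqLK : (q : ℝ) * LK ≤ 2 * LK + LK / l2 * l := by
    calc (q : ℝ) * LK ≤ (2 + l / l2) * LK := by gcongr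
      _ = _ := by ring
  have hηs2 : 3 / h * (Dm * (M + 1)) * η ≤ Real.exp (-(2 * Real.log (K + 2) + 2)) / 2 := by
    rw [le_div_iff₀ (by norm_num)]
    calc 3 / h * (Dm * (M + 1)) * η * 2
        ≤ 3 / h * (2 * B2 * X ^ 2) * (X * Real.exp (-(A * l))) * 2 := by
          rw [hη]
          gcongr
          linarith
      _ = 12 * B2 / h * X ^ 3 * Real.exp (-(A * l)) := by ring
      _ = Real.exp (Real.log (12 * B2 / h) + 3 * l - A * l) := by
          rw [sub_eq_add_neg, Real.exp_add, Real.exp_add, Real.exp_log (by positivity),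
            show (3 : ℝ) * l = ((3 : ℕ) : ℝ) * l by norm_num, Real.exp_nat_mul, hl,
            Real.exp_log hX0]
      _ ≤ _ := by
          apply Real.exp_le_exp.mpr
          have h1 : 0 ≤ LK / l2 * l := by positivity
          rw [hA3] at hAl
          linarith
  have key := main_est3 hn hc (M := M) h0 hε hmass hL0
    (fun k => by
      unfold kap
      have h1 := Real.log_le_log (dl_pos hn hc k) (dl_step hn hc k)
      rw [Real.log_mul (by positivity) (dl_pos hn hc (k + 1)).ne'] at h1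
      linarith)
    hm hFs hfar hBF (Real.one_le_exp (by positivity)) hΛe hΛ0 hη0 hηs hh hLh hm0 hK hq1 hDm.ge
    (by rw [← hLK]; linarith) hηs2
  rw [← hLK, Real.log_mul (by norm_num) hε.ne', ← hl2] at key
  linarith

end Run7.h911
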