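import Pool.Agent.Run7.h911.Gen2
import Pool.Agent.T2H09.LV.MA0
import Pool.Agent.T2H09.LU.Str

/-!
# Universal transversality and nearby centres
-/

set_option autoImplicit false
open Set Filter Topology Metric MeasureTheory
open scoped ENNReal

namespace Run7.h911

open Pool.Agent.W746.LD Pool.Agent.T2H09.DH Pool.Agent.T2H09.LU Pool.Agent.T2H09.LV
  Pool.Agent.T2H09.LW N62a1eb23
open Pool.Agent.TH363.QI (D)

lemma centre_zero {n : ℕ} (hn : 2 ≤ n) (N : ℕ) : Pool.Agent.H548R3.MB.Centre n (N + 2) 0 := by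
  refine ⟨1, le_rfl, by omega, ?_⟩
  simp only [Function.iterate_one]
  rw [zero_pow (by omega), add_zero]

lemma centre_of_orb {n : ℕ} (hn : 2 ≤ n) {c : ℂ} {N j : ℕ} (hj : j < N)
    (h : orb n c c j = 0) : Pool.Agent.H548R3.MB.Centre n (N + 2) c := by
  refine ⟨j + 1, by omega, by omega, ?_⟩
  have := P_eq_orb hn j c
  rw [h] at this
  exact this

/-- Transversality, logarithmic form. -/
theorem trans_m {n : ℕ} (hn : 2 ≤ n) : ∃ A : ℝ, 1 ≤ A ∧ ∀ c ∈ multibrotSet n, ∀ N : ℕ, 2 ≤ N →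
    (∀ j < N, orb n c c j ≠ 0) → ∀ m : ℝ, 0 ≤ m →
    (∀ j, 1 ≤ j → j < N → kk n c j ≤ m ∨ A * Real.log (N * (1 + m)) ≤ aa n c j) →
    aa n c N ≤ m + A * Real.log (N * (1 + m)) + Real.log (1 + ‖D n c N‖) := by
  obtain ⟨A0, hA0, hmain⟩ := main_abs3 hn
  obtain ⟨l2, hl2⟩ : ∃ l2, l2 = Real.log 2 := ⟨_, rfl⟩
  have hl20 : 0 < l2 := by rw [hl2]; exact Real.log_pos (by norm_num)
  refine ⟨A0 + 4 / l2, by have : 0 < 4 / l2 := by positivity
                          linarith, ?_⟩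
  intro c hc N hN h0 m hm hdeep
  have hN2 : (2 : ℝ) ≤ N := by exact_mod_cast hN
  obtain ⟨l, hl⟩ : ∃ l, l = Real.log (N * (1 + m)) := ⟨_, rfl⟩
  have hll : l2 ≤ l := by
    rw [hl, hl2]
    apply Real.log_le_log (by norm_num)
    nlinarith
  have hl0 : 0 < l := by linarith
  rw [← hl] at hdeep ⊢
  have hmul : (A0 + 4 / l2) * l = A0 * l + 4 / l2 * l := by ring
  have h4 : 4 ≤ 4 / l2 * l := by
    rw [div_mul_eq_mul_div, le_div_iff₀ hl20]
    gcongr
  have hPN : 0 < ‖P n c c N‖ := norm_pos_iff.mpr (P_ne_zero hn h0)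
  have hD0 : 0 ≤ Real.log (1 + ‖D n c N‖) := Real.log_nonneg (by linarith [norm_nonneg (D n c N)])
  by_cases hkap : m + A0 * l ≤ kap n c N
  · have hDe : ‖D n c N‖ = ‖P n c c N‖ * ‖S n c c (N + 1)‖ := by
      rw [D_eq' N (P_ne_zero hn h0), norm_mul]
    have hmass := er_fst0 (n := n) (c := c) N (mem_multibrot_orb hn hc)
    have hε : 0 < 2 * Real.pi * 6 * (‖(P n c c N)⁻¹‖ + ‖S n c c (N + 1)‖) := by
      have h1 : 0 < ‖(P n c c N)⁻¹‖ := norm_pos_iff.mpr (inv_ne_zero (P_ne_zero hn h0))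
      have h2 := Real.pi_pos
      positivity
    have key := hmain c hc N hN N (by omega) le_rfl h0 _ hε hmass m hm (by
      intro j hj1 hj2
      rw [← hl]
      rcases hdeep j hj1 hj2 with h1 | h1
      · exact Or.inl h1
      · exact Or.inr (by linarith)) (by rw [← hl]; exact hkap)
    rw [← hl] at key
    have e1 : 2 * Real.pi * 6 * (‖(P n c c N)⁻¹‖ + ‖S n c c (N + 1)‖) =
        12 * Real.pi * (‖P n c c N‖⁻¹ * (1 + ‖D n c N‖)) := by
      rw [hDe, norm_inv]
      field_simp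
      ring
    have h1D : 0 < 1 + ‖D n c N‖ := by linarith [norm_nonneg (D n c N)]
    rw [e1, Real.log_mul (by positivity) (by positivity), Real.log_mul (by positivity) h1D.ne',
      Real.log_inv] at key
    have h12 : Real.log (12 * Real.pi) ≤ 4 := by
      rw [Real.log_le_iff_le_exp (by positivity)]
      have h5 := Real.exp_one_gt_d9
      have h6 := Real.pi_lt_d2
      calc 12 * Real.pi ≤ 12 * 3.15 := by gcongr
        _ ≤ 2.7182818283 ^ 4 := by norm_num
        _ ≤ Real.exp 1 ^ 4 := by gcongr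
        _ = Real.exp 4 := by rw [← Real.exp_nat_mul]; norm_num
    rw [hmul]
    unfold aa
    linarith
  · push Not at hkap
    have h1 := Real.log_le_log (mul_pos (dl_pos hn hc N) hPN) (dl_der hn hc N)
    rw [Real.log_mul (dl_pos hn hc N).ne' hPN.ne'] at h1
    have h2 : Real.log 3 < 2 := by
      have := Real.log_lt_sub_one_of_pos (show (0 : ℝ) < 3 by norm_num) (by norm_num)
      linarith
    rw [hmul]
    unfold aa
    unfold kap at hkap
    linarith

/-- Nearby centres, logarithmic form. -/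
theorem near_m {n : ℕ} (hn : 2 ≤ n) : ∃ A : ℝ, 1 ≤ A ∧ ∀ c ∈ multibrotSet n, ∀ N : ℕ, 2 ≤ N →
    ∀ J : ℕ, 1 ≤ J → J ≤ N → (∀ j < J, orb n c c j ≠ 0) → ∀ m : ℝ, 0 ≤ m →
    (∀ j, 1 ≤ j → j < J → kk n c j ≤ m ∨ A * Real.log (N * (1 + m)) ≤ aa n c j) →
    ∀ X : ℝ, dl n c N ≤ X →
    ‖(P n c c J)⁻¹‖ * min 1 (‖orb n c c J - c‖ * (5 - Real.log ‖orb n c c J - c‖)) ≤ X →
    ∃ t, ‖t - c‖ ≤ Real.exp (m + A * Real.log (N * (1 + m))) * X ∧
      Pool.Agent.H548R3.MB.Centre n (N + 2) t := by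
  obtain ⟨A0, hA0, hmain⟩ := main_abs3 hn
  obtain ⟨E, hE1, hmassE⟩ := er_massV hn
  have hE0 : 0 < E := by linarith
  obtain ⟨l2, hl2⟩ : ∃ l2, l2 = Real.log 2 := ⟨_, rfl⟩
  have hl20 : 0 < l2 := by rw [hl2]; exact Real.log_pos (by norm_num)
  have hlE : 0 ≤ Real.log E := Real.log_nonneg hE1
  obtain ⟨A, hA⟩ : ∃ A, A = A0 + (Real.log E + 3) / l2 := ⟨_, rfl⟩
  have hq : 0 < (Real.log E + 3) / l2 := by positivity
  refine ⟨A, by linarith, ?_⟩
  intro c hc N hN J hJ1 hJN h0 m hm hdeep X hX1 hX2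
  have hN2 : (2 : ℝ) ≤ N := by exact_mod_cast hN
  obtain ⟨l, hl⟩ : ∃ l, l = Real.log (N * (1 + m)) := ⟨_, rfl⟩
  have hll : l2 ≤ l := by
    rw [hl, hl2]
    apply Real.log_le_log (by norm_num)
    nlinarith
  have hl0 : 0 < l := by linarith
  rw [← hl] at hdeep ⊢
  have hmul : A0 * l + (Real.log E + 3) ≤ A * l := by
    have h1 : Real.log E + 3 ≤ (Real.log E + 3) / l2 * l := by
      rw [div_mul_eq_mul_div, le_div_iff₀ hl20]
      gcongr
    rw [hA]
    linarith
  have hX0 : 0 < X := lt_of_lt_of_le (dl_pos hn hc N) hX1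
  obtain ⟨r, hr⟩ : ∃ r, r = Real.exp (m + A * l) * X := ⟨_, rfl⟩
  rw [← hr]
  have hr0 : 0 < r := by rw [hr]; positivity
  by_contra hcon
  push Not at hcon
  have hc2 := Pool.Agent.T2H09.DH.norm_le_two hn hc
  have hr2 : r < 2 := by
    by_contra hlt
    push Not at hlt
    refine hcon 0 ?_ (centre_zero hn N)
    rw [zero_sub, norm_neg]
    linarith
  obtain ⟨r', hr'⟩ : ∃ r', r' = r / 2 := ⟨_, rfl⟩
  have hr'0 : 0 < r' := by rw [hr']; positivity
  have hr'1 : r' ≤ 1 := by rw [hr']; linarith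
  have hno : ∀ t ∈ ball c r', ¬ Pool.Agent.H548R3.MB.Centre n (N + 2) t := by
    intro t ht
    rw [mem_ball, dist_eq_norm] at ht
    exact hcon t (by linarith)
  have hmass := hmassE c hc N r' hr'0 hr'1 hno J hJ1 hJN
  have hEr : 0 < E / r' := by positivity
  have hε := ep_pos hn hc (M := J) h0 hJ1 le_rfl hEr
  have hlr : Real.log r = m + A * l + Real.log X := by
    rw [hr, Real.log_mul (Real.exp_pos _).ne' hX0.ne', Real.log_exp]
  have hl2' : Real.log 2 ≤ 1 := by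
    have := Real.log_le_sub_one_of_pos (show (0 : ℝ) < 2 by norm_num)
    linarith
  have hlr2 : Real.log r < 1 := by
    have := Real.log_lt_log hr0 hr2
    linarith
  have hkap : m + A0 * l ≤ kap n c N := by
    unfold kap
    have h1 := Real.log_le_log (dl_pos hn hc N) hX1
    linarith
  have key := hmain c hc N hN J hJ1 hJN h0 _ hε hmass m hm (by
    intro j hj1 hj2
    rw [← hl]
    rcases hdeep j hj1 hj2 with h1 | h1
    · exact Or.inl h1
    · exact Or.inr (by linarith)) (by rw [← hl]; exact hkap)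
  rw [← hl] at key
  have h2 : ep n c (E / r') J ≤ E / r' * X := by
    unfold ep
    rw [mul_assoc]
    gcongr
  have h3 := Real.log_le_log hε h2
  have h4 : Real.log r' = Real.log r - Real.log 2 := by
    rw [hr', Real.log_div hr0.ne' (by norm_num)]
  rw [Real.log_mul hEr.ne' hX0.ne', Real.log_div hE0.ne' hr'0.ne'] at h3
  linarith

/-- The factor `1 + m` can be absorbed. -/
lemma absorb {n : ℕ} (hn : 2 ≤ n) {N : ℕ} (hN : 2 ≤ N) {m A : ℝ} (hA : 1 ≤ A) (hm : 0 ≤ m)
    (hmN : m ≤ N * Real.log (2 * n)) :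
    A * Real.log (N * (1 + m)) ≤
      A * (Real.log (1 + Real.log (2 * n)) / Real.log 2 + 2) * Real.log N := by
  have hn1 : (2 : ℝ) ≤ n := by exact_mod_cast hn
  have hN2 : (2 : ℝ) ≤ N := by exact_mod_cast hN
  have hb : 0 ≤ Real.log (2 * n) := Real.log_nonneg (by linarith)
  have hlb : 0 ≤ Real.log (1 + Real.log (2 * n)) := Real.log_nonneg (by linarith)
  have hl2 : 0 < Real.log 2 := Real.log_pos (by norm_num)
  have hlN : Real.log 2 ≤ Real.log N := Real.log_le_log (by norm_num) hN2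
  have h1 : (N : ℝ) * (1 + m) ≤ (1 + Real.log (2 * n)) * N ^ 2 := by nlinarith
  have h2 : Real.log (N * (1 + m)) ≤ Real.log (1 + Real.log (2 * n)) + 2 * Real.log N := by
    refine (Real.log_le_log (by positivity) h1).trans (le_of_eq ?_)
    rw [Real.log_mul (by positivity) (by positivity), Real.log_pow]
    push_cast
    ring
  have h3 : Real.log (1 + Real.log (2 * n)) ≤
      Real.log (1 + Real.log (2 * n)) / Real.log 2 * Real.log N := by
    rw [div_mul_eq_mul_div, le_div_iff₀ hl2]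
    gcongr
  rw [mul_assoc]
  apply mul_le_mul_of_nonneg_left _ (by linarith)
  linarith

lemma kk_le_of {n : ℕ} {c : ℂ} {j : ℕ} {R : ℝ} (hR : 0 < R) (h : R ≤ ‖orb n c c j - c‖) :
    kk n c j ≤ -Real.log R := by
  unfold kk
  have := Real.log_le_log hR h
  linarith

lemma aa_ge_of {n : ℕ} {c : ℂ} {j N A : ℕ} (hN : 1 ≤ N) (h : (N : ℝ) ^ A ≤ ‖P n c c j‖) :
    A * Real.log N ≤ aa n c j := by
  unfold aa
  have hN0 : (0 : ℝ) < N := by exact_mod_cast hN
  rw [← Real.log_pow]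
  exact Real.log_le_log (by positivity) h

/-- Universal transversality. -/
theorem trans_ineq {n : ℕ} (hn : 2 ≤ n) : ∃ A0 : ℕ, ∀ A : ℕ, A0 ≤ A → ∀ c ∈ multibrotSet n,
    ∀ N : ℕ, 2 ≤ N → ∀ R : ℝ, 0 < R → R ≤ 1 →
    (∀ j, 1 ≤ j → j < N → R ≤ ‖orb n c c j - c‖ ∨ (N : ℝ) ^ A0 ≤ ‖P n c c j‖) →
    R * ‖P n c c N‖ ≤ (N : ℝ) ^ A * (1 + ‖D n c N‖) := by
  obtain ⟨A1, hA1, htr⟩ := trans_m hn
  obtain ⟨A2, hA2⟩ : ∃ A2, A2 = A1 * (Real.log (1 + Real.log (2 * n)) / Real.log 2 + 2) := ⟨_, rfl⟩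
  obtain ⟨A0, hA0⟩ := exists_nat_ge A2
  refine ⟨A0, ?_⟩
  intro A hA c hc N hN R hR hR1 hdeep
  have hN2 : (2 : ℝ) ≤ N := by exact_mod_cast hN
  have hNA : (1 : ℝ) ≤ (N : ℝ) ^ A := one_le_pow₀ (by linarith)
  have hD := norm_nonneg (D n c N)
  have hn1 : (2 : ℝ) ≤ n := by exact_mod_cast hn
  have hlN : 0 ≤ Real.log N := Real.log_nonneg (by linarith)
  by_cases h0 : ∀ j < N, orb n c c j ≠ 0
  swap
  · have : P n c c N = 0 := by
      by_contra hP
      exact h0 fun j hj => orb_ne_zero_of_P hn hP hj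
    rw [this, norm_zero, mul_zero]
    positivity
  have hPN : 0 < ‖P n c c N‖ := norm_pos_iff.mpr (P_ne_zero hn h0)
  have hm : 0 ≤ -Real.log R := by
    have := Real.log_nonpos hR.le hR1
    linarith
  rcases le_total (-Real.log R) (N * Real.log (2 * n)) with h1 | h1
  · have h2 := absorb hn hN hA1 hm h1
    rw [← hA2] at h2
    have h3 : A2 * Real.log N ≤ A0 * Real.log N := by gcongr
    have h4 := htr c hc N hN h0 (-Real.log R) hm (by
      intro j hj1 hj2
      rcases hdeep j hj1 hj2 with h5 | h5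
      · exact Or.inl (kk_le_of hR h5)
      · exact Or.inr (h2.trans (h3.trans (aa_ge_of (by omega) h5))))
    have h5 : aa n c N ≤ -Real.log R + A * Real.log N + Real.log (1 + ‖D n c N‖) := by
      have h6 : (A0 : ℝ) * Real.log N ≤ A * Real.log N := by
        gcongr
      linarith
    have h6 : Real.log (R * ‖P n c c N‖) ≤ Real.log ((N : ℝ) ^ A * (1 + ‖D n c N‖)) := by
      rw [Real.log_mul hR.ne' hPN.ne', Real.log_mul (by positivity) (by positivity), Real.log_pow]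
      unfold aa at h5
      linarith
    exact (Real.log_le_log_iff (by positivity) (by positivity)).mp h6
  · have h2 : R * (2 * n) ^ N ≤ 1 := by
      have h3 : Real.log (R * (2 * n) ^ N) ≤ 0 := by
        rw [Real.log_mul hR.ne' (by positivity), Real.log_pow]
        linarith
      by_contra hlt
      push Not at hlt
      have := Real.log_pos hlt
      linarith
    calc R * ‖P n c c N‖ ≤ R * (2 * n) ^ N := by
          gcongr
          exact P_le hn hc N
      _ ≤ 1 * 1 := by linarith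
      _ ≤ _ := by gcongr; linarith

/-- Universal bound of the distance to the centres. -/
theorem near_ineq {n : ℕ} (hn : 2 ≤ n) : ∃ A0 : ℕ, ∀ A : ℕ, A0 ≤ A → ∀ c ∈ multibrotSet n,
    ∀ N : ℕ, 2 ≤ N → ∀ R : ℝ, 0 < R → R ≤ 1 →
    (∀ j, 1 ≤ j → j < N → R ≤ ‖orb n c c j - c‖ ∨ (N : ℝ) ^ A0 ≤ ‖P n c c j‖) →
    ∃ t, ‖t - c‖ * (R * ‖P n c c N‖) ≤ (N : ℝ) ^ A ∧ Pool.Agent.H548R3.MB.Centre n (N + 2) t := by
  obtain ⟨A1, hA1, htr⟩ := near_m hn
  obtain ⟨A2, hA2⟩ : ∃ A2, A2 = A1 * (Real.log (1 + Real.log (2 * n)) / Real.log 2 + 2) := ⟨_, rfl⟩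
  obtain ⟨A0, hA0⟩ := exists_nat_ge A2
  refine ⟨A0 + 2, ?_⟩
  intro A hA c hc N hN R hR hR1 hdeep
  have hN2 : (2 : ℝ) ≤ N := by exact_mod_cast hN
  have hNA : (2 : ℝ) ≤ (N : ℝ) ^ A := by
    calc (2 : ℝ) ≤ (N : ℝ) ^ 1 := by rw [pow_one]; exact hN2
      _ ≤ (N : ℝ) ^ A := pow_le_pow_right₀ (by linarith) (by omega)
  have hn1 : (2 : ℝ) ≤ n := by exact_mod_cast hn
  have hlN : 0 ≤ Real.log N := Real.log_nonneg (by linarith)
  by_cases h0 : ∀ j < N, orb n c c j ≠ 0
  swap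
  · push Not at h0
    obtain ⟨j, hj, h1⟩ := h0
    refine ⟨c, ?_, centre_of_orb hn hj h1⟩
    rw [sub_self, norm_zero, zero_mul]
    positivity
  have hPN : 0 < ‖P n c c N‖ := norm_pos_iff.mpr (P_ne_zero hn h0)
  have hm : 0 ≤ -Real.log R := by
    have := Real.log_nonpos hR.le hR1
    linarith
  have hc2 := Pool.Agent.T2H09.DH.norm_le_two hn hc
  rcases le_total (-Real.log R) (N * Real.log (2 * n)) with h1 | h1
  · have h2 := absorb hn hN hA1 hm h1
    rw [← hA2] at h2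
    have h3 : A2 * Real.log N ≤ A0 * Real.log N := by gcongr
    obtain ⟨t, ht1, ht2⟩ := htr c hc N hN N (by omega) le_rfl h0 (-Real.log R) hm (by
      intro j hj1 hj2
      rcases hdeep j hj1 hj2 with h5 | h5
      · exact Or.inl (kk_le_of hR h5)
      · refine Or.inr (h2.trans (h3.trans ?_))
        have := aa_ge_of (by omega : 1 ≤ N) h5
        push_cast at this
        linarith)
      (3 * ‖P n c c N‖⁻¹)
      (by
        have := dl_der hn hc N
        rw [← div_eq_mul_inv, le_div_iff₀ hPN]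
        exact this)
      (by
        rw [norm_inv]
        calc ‖P n c c N‖⁻¹ * min 1 (‖orb n c c N - c‖ * (5 - Real.log ‖orb n c c N - c‖))
            ≤ ‖P n c c N‖⁻¹ * 1 := by gcongr; exact min_le_left _ _
          _ ≤ 3 * ‖P n c c N‖⁻¹ := by
            have : 0 < ‖P n c c N‖⁻¹ := by positivity
            linarith)
    refine ⟨t, ?_, ht2⟩
    calc ‖t - c‖ * (R * ‖P n c c N‖)
        ≤ Real.exp (-Real.log R + A1 * Real.log (N * (1 + -Real.log R))) *
          (3 * ‖P n c c N‖⁻¹) * (R * ‖P n c c N‖) := by gcongr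
      _ = 3 * R * Real.exp (-Real.log R) * Real.exp (A1 * Real.log (N * (1 + -Real.log R))) := by
          rw [Real.exp_add]
          field_simp
      _ ≤ 3 * 1 * Real.exp (A0 * Real.log N) := by
          have e : R * Real.exp (-Real.log R) = 1 := by
            rw [Real.exp_neg, Real.exp_log hR, mul_inv_cancel₀ hR.ne']
          have h6 := Real.exp_le_exp.mpr (h2.trans h3)
          rw [mul_assoc 3 R, e]
          linarith
      _ = 3 * (N : ℝ) ^ A0 := by
          rw [Real.exp_nat_mul, Real.exp_log (by linarith)]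
          ring
      _ ≤ (N : ℝ) ^ 2 * (N : ℝ) ^ A0 := by
          gcongr
          nlinarith
      _ = (N : ℝ) ^ (A0 + 2) := by rw [pow_add]; ring
      _ ≤ (N : ℝ) ^ A := pow_le_pow_right₀ (by linarith) hA
  · have h2 : R * (2 * n) ^ N ≤ 1 := by
      have h3 : Real.log (R * (2 * n) ^ N) ≤ 0 := by
        rw [Real.log_mul hR.ne' (by positivity), Real.log_pow]
        linarith
      by_contra hlt
      push Not at hlt
      have := Real.log_pos hlt
      linarith
    refine ⟨0, ?_, centre_zero hn N⟩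
    rw [zero_sub, norm_neg]
    calc ‖c‖ * (R * ‖P n c c N‖) ≤ 2 * (R * (2 * n) ^ N) := by
          gcongr
          exact P_le hn hc N
      _ ≤ 2 * 1 := by gcongr
      _ ≤ _ := by linarith

end Run7.h911
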