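import Pool.Agent.Run7.h911.Gen3

/-!
# Closing of returns
-/

set_option autoImplicit false
open Set Filter Topology Metric MeasureTheory
open scoped ENNReal

namespace Run7.h911

open Pool.Agent.W746.LD Pool.Agent.T2H09.DH Pool.Agent.T2H09.LU Pool.Agent.T2H09.LV
  Pool.Agent.T2H09.LW N62a1eb23
open Pool.Agent.TH363.QI (D)

/-- There is no parameter with an attracting cycle in the disc. -/
lemma near_of_centre {n : ℕ} (hn : 2 ≤ n) {N : ℕ} {c t : ℂ} {r : ℝ} (h1 : ‖t - c‖ ≤ r)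
    (h2 : Pool.Agent.H548R3.MB.Centre n (N + 2) t) : Near n (N + 2) c r := by
  obtain ⟨p, hp1, hp2, hp3⟩ := h2
  exact ⟨t, h1, p, hp2, 0, Pool.Agent.H548R3.MB.att_of_centre hn hp1 hp3⟩

/-- Trivial bound of the derivative. -/
lemma aa_le_lin {n : ℕ} (hn : 2 ≤ n) {c : ℂ} (hc : c ∈ multibrotSet n) {M : ℕ}
    (h0 : ∀ j < M, orb n c c j ≠ 0) {i : ℕ} (hi : i ≤ M) :
    aa n c i ≤ i * Real.log (2 * n) := by
  unfold aa
  have h1 := Real.log_le_log (norm_pos_iff.mpr (P_ne hn h0 hi)) (P_le hn hc i)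
  rwa [Real.log_pow] at h1

/-- A very deep return gives an attracting cycle. -/
lemma super_trap {n : ℕ} (hn : 2 ≤ n) {c : ℂ} (hc : c ∈ multibrotSet n) {J N : ℕ}
    (hJ1 : 1 ≤ J) (hJN : J ≤ N) (h0 : ∀ j < J, orb n c c j ≠ 0) {m : ℝ} (hm : 0 ≤ m)
    (hdeep : ∀ j, 1 ≤ j → j < J → kk n c j ≤ m)
    (hk : 2 * (N * Real.log (2 * n) + Real.log n + 4 + N) + 2 * m ≤ kk n c J) :
    ∃ z, IsAttractingCycle (fun z => z ^ n + c) J z := by
  have hn1 : (2 : ℝ) ≤ n := by exact_mod_cast hn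
  have hN1 : (1 : ℝ) ≤ N := by exact_mod_cast (hJ1.trans hJN)
  have hJ1' : (1 : ℝ) ≤ J := by exact_mod_cast hJ1
  have hJN' : (J : ℝ) ≤ N := by exact_mod_cast hJN
  have hln : 0 ≤ Real.log n := Real.log_nonneg (by linarith)
  have hl2n : 0 ≤ Real.log (2 * n) := Real.log_nonneg (by linarith)
  have hlJ : Real.log J ≤ N := by
    have := Real.log_le_sub_one_of_pos (show (0 : ℝ) < J by linarith)
    linarith
  have hlog8 : Real.log 8 ≤ 3 := by
    rw [show (8 : ℝ) = 2 ^ 3 by norm_num, Real.log_pow]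
    have := Real.log_le_sub_one_of_pos (show (0 : ℝ) < 2 by norm_num)
    push_cast
    linarith
  have hNl : 0 ≤ N * Real.log (2 * n) := by positivity
  apply trap_b hn hJ1 h0 hJ1 le_rfl
  intro i hi1 hi2
  have hil : (i : ℝ) * Real.log (2 * n) ≤ N * Real.log (2 * n) := by
    have : (i : ℝ) ≤ N := by exact_mod_cast hi2.trans hJN
    gcongr
  rcases Nat.lt_or_ge i J with hlt | hge
  · have h1 := aa_le_lin hn hc h0 hi2
    have h2 := hdeep i hi1 hlt
    linarith
  · have hiJ : i = J := by omega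
    subst hiJ
    obtain ⟨i', rfl⟩ : ∃ i', i = i' + 1 := ⟨i - 1, by omega⟩
    rw [bb_succ hn h0 (by omega : i' < i' + 1)]
    have h1 := aa_le_lin hn hc h0 (by omega : i' ≤ i' + 1)
    have h2 : (i' : ℝ) * Real.log (2 * n) ≤ N * Real.log (2 * n) := by
      have : (i' : ℝ) ≤ N := by exact_mod_cast (by omega : i' ≤ N)
      gcongr
    have h3 : kk n c (i' + 1) / n ≤ kk n c (i' + 1) / 2 := by
      apply div_le_div_of_nonneg_left _ (by norm_num) hn1
      linarith
    linarith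

/-- Closing of returns, with a point that escapes. -/
theorem close_m {n : ℕ} (hn : 2 ≤ n) : ∃ A : ℝ, 1 ≤ A ∧ ∀ c ∈ multibrotSet n, ∀ N : ℕ, 2 ≤ N →
    ∀ J : ℕ, 1 ≤ J → J ≤ N → ∀ m : ℝ, 0 ≤ m → (∀ j < J, orb n c c j ≠ 0) →
    (∀ j, 1 ≤ j → j < J → kk n c j ≤ m) → ∀ X : ℝ, dl n c N ≤ X →
    ‖orb n c c J - c‖ / max 1 ‖P n c c J‖ ≤ X →
    Near n (N + 2) c (Real.exp (m + A * Real.log (N * (1 + m))) * X) := by
  obtain ⟨A0, hA0, hmain⟩ := main_abs3 hn
  obtain ⟨E, hE1, hmassE⟩ := er_massV hn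
  have hE0 : 0 < E := by linarith
  have hn1 : (2 : ℝ) ≤ n := by exact_mod_cast hn
  have hln : 0 ≤ Real.log n := Real.log_nonneg (by linarith)
  have hl2n : 0 ≤ Real.log (2 * n) := Real.log_nonneg (by linarith)
  obtain ⟨l2, hl2⟩ : ∃ l2, l2 = Real.log 2 := ⟨_, rfl⟩
  have hl20 : 0 < l2 := by rw [hl2]; exact Real.log_pos (by norm_num)
  have hlE : 0 ≤ Real.log E := Real.log_nonneg hE1
  -- the bound of the depth
  obtain ⟨C1, hC1⟩ : ∃ C1, C1 = 2 * Real.log (2 * n) + 2 * Real.log n + 17 := ⟨_, rfl⟩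
  have hC11 : 1 ≤ C1 := by rw [hC1]; linarith
  have hlC1 : 0 ≤ Real.log C1 := Real.log_nonneg hC11
  obtain ⟨A5, hA5⟩ : ∃ A5, A5 = A0 + (Real.log E + 1 + Real.log C1) / l2 + 1 := ⟨_, rfl⟩
  have hq5 : 0 ≤ (Real.log E + 1 + Real.log C1) / l2 := by positivity
  have hA50 : 1 ≤ A5 := by rw [hA5]; linarith
  refine ⟨A5 + 1 + 6 / l2, by have : 0 < 6 / l2 := by positivity
                              linarith, ?_⟩
  intro c hc N hN J hJ1 hJN m hm h0 hdeep X hX1 hX2
  obtain ⟨A, hA⟩ : ∃ A, A = A5 + 1 + 6 / l2 := ⟨_, rfl⟩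
  rw [← hA]
  have hN2 : (2 : ℝ) ≤ N := by exact_mod_cast hN
  have hN0 : (0 : ℝ) < N := by linarith
  obtain ⟨Y, hY⟩ : ∃ Y, Y = (N : ℝ) * (1 + m) := ⟨_, rfl⟩
  have hNY : (N : ℝ) ≤ Y := by rw [hY]; nlinarith
  have hmY : m ≤ Y := by rw [hY]; nlinarith
  have hY0 : 0 < Y := by linarith
  rw [← hY]
  obtain ⟨l, hl⟩ : ∃ l, l = Real.log Y := ⟨_, rfl⟩
  have hll : l2 ≤ l := by
    rw [hl, hl2]
    exact Real.log_le_log (by norm_num) (by linarith)
  have hl0 : 0 < l := by linarith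
  rw [← hl]
  have hlN : Real.log N ≤ l := by rw [hl]; exact Real.log_le_log hN0 hNY
  have hlN0 : 0 ≤ Real.log N := Real.log_nonneg (by linarith)
  have hA5l : A0 * l + (Real.log E + 1 + Real.log C1) + l ≤ A5 * l := by
    have h1 : Real.log E + 1 + Real.log C1 ≤ (Real.log E + 1 + Real.log C1) / l2 * l := by
      rw [div_mul_eq_mul_div, le_div_iff₀ hl20]
      gcongr
    rw [hA5]
    linarith
  have hAl : A5 * l + l + 6 ≤ A * l := by
    have h1 : 6 ≤ 6 / l2 * l := by
      rw [div_mul_eq_mul_div, le_div_iff₀ hl20]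
      gcongr
    rw [hA]
    linarith
  have hX0 : 0 < X := lt_of_lt_of_le (dl_pos hn hc N) hX1
  obtain ⟨r, hr⟩ : ∃ r, r = Real.exp (m + A * l) * X := ⟨_, rfl⟩
  rw [← hr]
  have hr0 : 0 < r := by rw [hr]; positivity
  by_contra hcon
  have hc2 := Pool.Agent.T2H09.DH.norm_le_two hn hc
  have hcen : ∀ t, ‖t - c‖ ≤ r → ¬ Pool.Agent.H548R3.MB.Centre n (N + 2) t := fun t h1 h2 =>
    hcon (near_of_centre hn h1 h2)
  have hatt : ∀ i, i ≤ N → ∀ z, ¬ IsAttractingCycle (fun z => z ^ n + c) i z := by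
    intro i hi z hz
    exact hcon ⟨c, by rw [sub_self, norm_zero]; exact hr0.le, i, by omega, z, hz⟩
  have hr2 : r < 2 := by
    by_contra hlt
    push Not at hlt
    refine hcen 0 ?_ (centre_zero hn N)
    rw [zero_sub, norm_neg]
    linarith
  obtain ⟨r', hr'⟩ : ∃ r', r' = r / 2 := ⟨_, rfl⟩
  have hr'0 : 0 < r' := by rw [hr']; positivity
  have hr'1 : r' ≤ 1 := by rw [hr']; linarith
  have hno : ∀ t ∈ ball c r', ¬ Pool.Agent.H548R3.MB.Centre n (N + 2) t := by
    intro t ht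
    rw [mem_ball, dist_eq_norm] at ht
    exact hcen t (by linarith)
  have hlr : Real.log r = m + A * l + Real.log X := by
    rw [hr, Real.log_mul (Real.exp_pos _).ne' hX0.ne', Real.log_exp]
  have hl2' : Real.log 2 ≤ 1 := by
    have := Real.log_le_sub_one_of_pos (show (0 : ℝ) < 2 by norm_num)
    linarith
  have hlr2 : Real.log r < 1 := by
    have := Real.log_lt_log hr0 hr2
    linarith
  have hlr' : Real.log r' = Real.log r - Real.log 2 := by
    rw [hr', Real.log_div hr0.ne' (by norm_num)]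
  have hEr : 0 < E / r' := by positivity
  have hlEr : Real.log (E / r') ≤ Real.log E + 1 - Real.log r := by
    rw [Real.log_div hE0.ne' hr'0.ne', hlr']
    linarith
  have hkap : m + A0 * l ≤ kap n c N := by
    unfold kap
    have h1 := Real.log_le_log (dl_pos hn hc N) hX1
    linarith
  -- the main estimate
  have star : ∀ i, 1 ≤ i → i ≤ J →
      aa n c i + kk n c i ≤ Real.log E + 1 - Real.log r + A0 * l + m +
        Real.log (5 + kk n c i) := by
    intro i hi1 hiJ
    have hmass := hmassE c hc N r' hr'0 hr'1 hno i hi1 (by omega)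
    have key := hmain c hc N hN i hi1 (by omega) (fun j hj => h0 j (by omega)) _
      (ep_pos hn hc h0 hi1 hiJ hEr) hmass m hm (fun j hj1 hj2 => Or.inl (hdeep j hj1 (by omega)))
      (by rw [← hY, ← hl]; exact hkap)
    rw [← hY, ← hl] at key
    have h3 := log_ep2 hn hc h0 hi1 hiJ hEr
    linarith
  -- no very deep return
  have hkJ : kk n c J < C1 * Y - 5 := by
    by_contra hlt
    push Not at hlt
    obtain ⟨z, hz⟩ := super_trap hn hc hJ1 hJN h0 hm hdeep (by
      refine le_trans ?_ hlt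
      rw [hC1]
      have h1 : N * Real.log (2 * n) ≤ Y * Real.log (2 * n) := by gcongr
      have h2 : Real.log n ≤ Y * Real.log n := le_mul_of_one_le_left hln (by linarith)
      linarith)
    exact hatt J hJN z hz
  have hlk : ∀ i, 1 ≤ i → i ≤ J → Real.log (5 + kk n c i) ≤ Real.log C1 + l := by
    intro i hi1 hiJ
    rw [hl, ← Real.log_mul (by linarith) hY0.ne']
    have h1 := kk_ge hn hc h0 hi1 hiJ
    apply Real.log_le_log (by linarith)
    rcases Nat.lt_or_ge i J with hlt | hge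
    · have h2 := hdeep i hi1 hlt
      have h3 : 17 * Y ≤ C1 * Y := by
        rw [hC1]
        nlinarith
      linarith
    · have hiJ' : i = J := by omega
      rw [hiJ']
      linarith
  have star2 : ∀ i, 1 ≤ i → i ≤ J → aa n c i + kk n c i ≤ m + A5 * l - Real.log r := by
    intro i hi1 hiJ
    have h1 := star i hi1 hiJ
    have h2 := hlk i hi1 hiJ
    linarith
  have hPJ : 0 < ‖P n c c J‖ := norm_pos_iff.mpr (P_ne hn h0 le_rfl)
  have hρ := rho0 h0 hJ1 le_rfl
  -- the two cases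
  have hXJ : Real.log (‖orb n c c J - c‖ / max 1 ‖P n c c J‖) ≤ Real.log X :=
    Real.log_le_log (by positivity) hX2
  rw [Real.log_div hρ.ne' (by positivity)] at hXJ
  have hkkJ : Real.log ‖orb n c c J - c‖ = -kk n c J := by unfold kk; ring
  rcases le_total 1 ‖P n c c J‖ with hP | hP
  · rw [max_eq_right hP] at hXJ
    have h1 := star2 J hJ1 le_rfl
    unfold aa at h1
    linarith
  · rw [max_eq_left hP, Real.log_one] at hXJ
    have hlog8 : Real.log 8 ≤ 3 := by
      rw [show (8 : ℝ) = 2 ^ 3 by norm_num, Real.log_pow]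
      push_cast
      linarith
    have hlJ : Real.log J ≤ l := by
      refine le_trans (Real.log_le_log (by exact_mod_cast hJ1) ?_) hlN
      exact_mod_cast hJN
    obtain ⟨z, hz⟩ := trap_b hn hJ1 h0 hJ1 le_rfl (by
      intro i hi1 hiJ
      have h1 := star2 i hi1 hiJ
      linarith)
    exact hatt J hJN z hz

/-- Closing of returns, without a point that escapes. -/
theorem close_q {n : ℕ} (hn : 2 ≤ n) : ∃ A0 : ℕ, ∀ A : ℕ, A0 ≤ A → ∀ c ∈ multibrotSet n,
    ∀ J : ℕ, 2 ≤ J → (∀ j < J, orb n c c j ≠ 0) → ∀ m : ℝ, 0 ≤ m →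
    (∀ j, 1 ≤ j → j < J → kk n c j ≤ m) →
    Near n (J + 2) c (Real.exp (m + A * Real.log J - (1 - 1 / n) * kk n c J)) := by
  obtain ⟨A1, hA1⟩ := near_ineq hn
  have hn1 : (2 : ℝ) ≤ n := by exact_mod_cast hn
  have hln : 0 ≤ Real.log n := Real.log_nonneg (by linarith)
  obtain ⟨l2, hl2⟩ : ∃ l2, l2 = Real.log 2 := ⟨_, rfl⟩
  have hl20 : 0 < l2 := by rw [hl2]; exact Real.log_pos (by norm_num)
  obtain ⟨A2, hA2⟩ := exists_nat_ge ((Real.log n + 8 + Real.log (4 * n)) / l2)
  refine ⟨A1 + 2 * A2 + 2, ?_⟩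
  intro A hA c hc J hJ h0 m hm hdeep
  have hJ2 : (2 : ℝ) ≤ J := by exact_mod_cast hJ
  obtain ⟨l, hl⟩ : ∃ l, l = Real.log J := ⟨_, rfl⟩
  have hll : l2 ≤ l := by rw [hl, hl2]; exact Real.log_le_log (by norm_num) hJ2
  have hl0 : 0 < l := by linarith
  rw [← hl]
  have hl4n : 0 ≤ Real.log (4 * n) := Real.log_nonneg (by linarith)
  have hcst : Real.log n + 8 + Real.log (4 * n) ≤ A2 * l := by
    have h1 : (Real.log n + 8 + Real.log (4 * n)) / l2 * l2 ≤ A2 * l := by gcongr
    rwa [div_mul_cancel₀ _ hl20.ne'] at h1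
  have hAA : ((A1 : ℝ) + 2 * A2 + 2) * l ≤ A * l := by
    have : ((A1 + 2 * A2 + 2 : ℕ) : ℝ) ≤ A := by exact_mod_cast hA
    push_cast at this
    gcongr
  have hA1l : 0 ≤ (A1 : ℝ) * l := by positivity
  obtain ⟨r, hr⟩ : ∃ r, r = Real.exp (m + A * l - (1 - 1 / n) * kk n c J) := ⟨_, rfl⟩
  rw [← hr]
  have hr0 : 0 < r := by rw [hr]; positivity
  have hlr : Real.log r = m + A * l - (1 - 1 / n) * kk n c J := by rw [hr, Real.log_exp]
  by_contra hcon
  have hc2 := Pool.Agent.T2H09.DH.norm_le_two hn hc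
  have hcen : ∀ i, i ≤ J → ∀ t, ‖t - c‖ ≤ r → ¬ Pool.Agent.H548R3.MB.Centre n (i + 2) t := by
    intro i hi t h1 h2
    exact hcon ((near_of_centre hn h1 h2).mono (by omega) le_rfl)
  have hatt : ∀ i, i ≤ J → ∀ z, ¬ IsAttractingCycle (fun z => z ^ n + c) i z := by
    intro i hi z hz
    exact hcon ⟨c, by rw [sub_self, norm_zero]; exact hr0.le, i, by omega, z, hz⟩
  have hr2 : r < 2 := by
    by_contra hlt
    push Not at hlt
    refine hcen J le_rfl 0 ?_ (centre_zero hn J)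
    rw [zero_sub, norm_neg]
    linarith
  have hl2' : Real.log 2 ≤ 1 := by
    have := Real.log_le_sub_one_of_pos (show (0 : ℝ) < 2 by norm_num)
    linarith
  have hlr2 : Real.log r < 1 := by
    have := Real.log_lt_log hr0 hr2
    linarith
  have hP : ∀ i, i ≤ J → 0 < ‖P n c c i‖ := fun i hi => norm_pos_iff.mpr (P_ne hn h0 hi)
  have star : ∀ i, i ≤ J → aa n c i ≤ m + (A1 + A2) * l - Real.log r := by
    intro i hiJ
    have hA2l : 0 ≤ (A2 : ℝ) * l := by positivity
    rcases Nat.lt_or_ge i 2 with h2 | h2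
    · have h3 := aa_le_lin hn hc h0 hiJ
      have h4 : (i : ℝ) * Real.log (2 * n) ≤ Real.log (4 * n) := by
        have h5 : (i : ℝ) ≤ 1 := by exact_mod_cast (by omega : i ≤ 1)
        have h6 : 0 ≤ Real.log (2 * n) := Real.log_nonneg (by linarith)
        have h7 : Real.log (2 * n) ≤ Real.log (4 * n) :=
          Real.log_le_log (by linarith) (by linarith)
        nlinarith
      linarith
    · obtain ⟨t, ht1, ht2⟩ := hA1 A1 le_rfl c hc i h2 (Real.exp (-m)) (Real.exp_pos _)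
        (by rw [Real.exp_le_one_iff]; linarith) (by
          intro j hj1 hj2
          left
          rw [← exp_kk0 h0 hj1 (by omega)]
          apply Real.exp_le_exp.mpr
          linarith [hdeep j hj1 (by omega)])
      have h3 : r < ‖t - c‖ := by
        by_contra hlt
        push Not at hlt
        exact hcen i hiJ t hlt ht2
      have h4 : r * (Real.exp (-m) * ‖P n c c i‖) ≤ (i : ℝ) ^ A1 := by
        refine le_trans ?_ ht1
        gcongr
      have hi0 : (0 : ℝ) < i := by exact_mod_cast (by omega : 0 < i)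
      have h5 := Real.log_le_log (by have := hP i hiJ; positivity) h4
      rw [Real.log_mul hr0.ne' (by have := hP i hiJ; positivity),
        Real.log_mul (Real.exp_pos _).ne' (hP i hiJ).ne', Real.log_exp, Real.log_pow] at h5
      have h6 : Real.log i ≤ l := by
        rw [hl]
        exact Real.log_le_log hi0 (by exact_mod_cast hiJ)
      have h7 : (A1 : ℝ) * Real.log i ≤ A1 * l := by gcongr
      unfold aa
      linarith
  have hlog8 : Real.log 8 ≤ 3 := by
    rw [show (8 : ℝ) = 2 ^ 3 by norm_num, Real.log_pow]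
    push_cast
    linarith
  have hn0 : (0 : ℝ) < n := by linarith
  obtain ⟨k, hk⟩ : ∃ k, k = kk n c J := ⟨_, rfl⟩
  rw [← hk] at hlr
  have hkn : k / n = (1 / n) * k := by ring
  -- `G` is the distance of `log r` from its trivial bound
  obtain ⟨G, hG⟩ : ∃ G, G = m + A * l - Real.log r := ⟨_, rfl⟩
  have hG1 : (1 - 1 / n) * k = G := by rw [hG]; linarith
  have hG0 : 0 ≤ G := by rw [hG]; linarith
  have hk0 : G + m / n ≤ k := by
    have h1 : 0 < 1 / (n : ℝ) := by positivity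
    have h2 : 1 / (n : ℝ) ≤ 1 / 2 := by
      apply one_div_le_one_div_of_le (by norm_num) hn1
    have h3 : G ≤ k := by
      have h4 : 0 ≤ k := by
        by_contra hlt
        push Not at hlt
        nlinarith
      nlinarith
    have h5 : k = G + (1 / n) * k := by linarith
    have h6 : m ≤ G := by rw [hG]; linarith
    have h7 : m / n ≤ (1 / n) * k := by
      rw [div_eq_mul_one_div, mul_comm]
      gcongr
      linarith
    linarith
  obtain ⟨z, hz⟩ := trap_b hn (by omega : 1 ≤ J) h0 (by omega : 1 ≤ J) le_rfl (by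
    intro i hi1 hiJ
    obtain ⟨i', rfl⟩ : ∃ i', i = i' + 1 := ⟨i - 1, by omega⟩
    rw [bb_succ hn h0 (by omega : i' < J), ← hl, ← hk]
    have h1 := star i' (by omega)
    rcases Nat.lt_or_ge (i' + 1) J with hlt | hge
    · have h2 := hdeep (i' + 1) hi1 hlt
      have h3 : kk n c (i' + 1) / n ≤ m / n := by gcongr
      linarith
    · have h2 : i' + 1 = J := by omega
      rw [h2, ← hk, hkn]
      linarith)
  exact hatt J le_rfl z hz

end Run7.h911
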