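import Pool.Agent.Run7.h911.NT5

/-!
# Natural densities: many angles, distribution of the sum and of the angles
-/

set_option autoImplicit false

namespace Run7.h911.NT

open NumberField IsDedekindDomain Filter Topology
open Pool.Agent.W540.BE (upto nm)
open Run7.h911.ST (U U_zero U_one U_rec abs_U_le Lam mu ind ind_nonneg ind_le_one mu_pos)

variable {K : Type} [Field K] [NumberField K] {m : ℕ}
  {θ : Fin m → HeightOneSpectrum (𝓞 K) → ℝ}

/-- the average of a polynomial in the sum -/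
theorem poly_law (h : Many θ) (a0 a1 a2 a4 : ℝ) :
    Tendsto (avg fun v => a0 + a1 * Sm θ v + a2 * Sm θ v ^ 2 + a4 * Sm θ v ^ 4) atTop
      (𝓝 (a0 + a2 * m + a4 * (3 * (m : ℝ) ^ 2 - m))) := by
  have h0 := (avg_one (K := K)).const_mul a0
  have h1 := (mom1 h).const_mul a1
  have h2 := (mom2 h).const_mul a2
  have h4 := (mom4 h).const_mul a4
  have h5 := ((h0.add h1).add h2).add h4
  rw [mul_one, mul_zero, add_zero] at h5
  refine h5.congr fun N => ?_
  rw [← avg_mul, ← avg_mul, ← avg_mul, ← avg_mul, ← avg_add, ← avg_add, ← avg_add]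
  congr 1
  funext v
  ring

theorem lower_of (h : Many θ) {P : HeightOneSpectrum (𝓞 K) → Prop} {a0 a1 a2 a4 c : ℝ}
    (hP : ∀ v, a0 + a1 * Sm θ v + a2 * Sm θ v ^ 2 + a4 * Sm θ v ^ 4 ≤ b2r (P v))
    (hc : c < a0 + a2 * m + a4 * (3 * (m : ℝ) ^ 2 - m)) :
    ∀ᶠ N : ℕ in atTop, c ≤ avg (fun v => b2r (P v)) N := by
  filter_upwards [(poly_law h a0 a1 a2 a4).eventually (lt_mem_nhds hc)] with N hN
  exact hN.le.trans (avg_mono hP N)

theorem upper_of (h : Many θ) {P : HeightOneSpectrum (𝓞 K) → Prop} {a0 a1 a2 a4 c : ℝ}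
    (hP : ∀ v, b2r (P v) ≤ a0 + a1 * Sm θ v + a2 * Sm θ v ^ 2 + a4 * Sm θ v ^ 4)
    (hc : a0 + a2 * m + a4 * (3 * (m : ℝ) ^ 2 - m) < c) :
    ∀ᶠ N : ℕ in atTop, avg (fun v => b2r (P v)) N ≤ c := by
  filter_upwards [(poly_law h a0 a1 a2 a4).eventually (gt_mem_nhds hc)] with N hN
  exact (avg_mono hP N).trans hN.le

/-- the auxiliary polynomial -/
theorem aux_le (y : ℝ) : (5.488 * y + 5.88 * y ^ 2 - y ^ 4) / 18.63 ≤ 1 := by
  rw [div_le_one (by norm_num)]
  nlinarith [sq_nonneg (y ^ 2 - 3.657), sq_nonneg (y - 1.912)]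

theorem aux_mono {y δ : ℝ} (hδ0 : 0 ≤ δ) (hδ1 : δ ≤ 1) (hy : y ≤ δ) :
    5.488 * y + 5.88 * y ^ 2 - y ^ 4 ≤ 5.488 * δ + 5.88 * δ ^ 2 - δ ^ 4 := by
  have hg : 0 ≤ 5.488 * δ + 5.88 * δ ^ 2 - δ ^ 4 := by
    have : δ ^ 4 ≤ δ ^ 2 := pow_le_pow_of_le_one hδ0 hδ1 (by norm_num)
    nlinarith [sq_nonneg δ]
  rcases le_total y 0 with h | h
  · have e : 5.488 * y + 5.88 * y ^ 2 - y ^ 4 = y * ((2.8 - y) * (y + 1.4) ^ 2) := by ring
    have : y * ((2.8 - y) * (y + 1.4) ^ 2) ≤ 0 :=
      mul_nonpos_of_nonpos_of_nonneg h (mul_nonneg (by linarith) (sq_nonneg _))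
    linarith
  · have hy1 : y ≤ 1 := hy.trans hδ1
    have h2 : y ^ 2 ≤ δ ^ 2 := pow_le_pow_left₀ h hy 2
    have h3 : 0 ≤ (δ ^ 2 - y ^ 2) * (5.88 - δ ^ 2 - y ^ 2) := by
      refine mul_nonneg (by linarith) ?_
      have : δ ^ 2 ≤ 1 := pow_le_one₀ hδ0 hδ1
      linarith
    nlinarith

/-- **The signs of the sum.** -/
theorem sign_lower (h : Many θ) (hm : 0 < m) {s δ c : ℝ} (hs : s = 1 ∨ s = -1) (hδ0 : 0 ≤ δ)
    (hδ1 : δ ≤ 1) (hc : c < (2.88 - (5.488 * δ + 5.88 * δ ^ 2 - δ ^ 4)) / 18.63) :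
    ∀ᶠ N : ℕ in atTop, c ≤ avg (fun v => b2r (δ * Real.sqrt m < s * Sm θ v)) N := by
  have hm1 : (1 : ℝ) ≤ m := by exact_mod_cast hm
  have hm0 : (0 : ℝ) < m := by linarith
  set r : ℝ := Real.sqrt m with hr
  have hr0 : 0 < r := Real.sqrt_pos.2 hm0
  have hr2 : r ^ 2 = m := Real.sq_sqrt hm0.le
  set g : ℝ := 5.488 * δ + 5.88 * δ ^ 2 - δ ^ 4 with hg
  have hss : s ^ 2 = 1 := by rcases hs with rfl | rfl <;> norm_num
  refine lower_of h (a0 := -g / 18.63) (a1 := 5.488 * s / (18.63 * r)) (a2 := 5.88 / (18.63 * m))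
    (a4 := -1 / (18.63 * m ^ 2)) (fun v => ?_) ?_
  · set y : ℝ := s * Sm θ v / r with hy
    have e2 : y ^ 2 = Sm θ v ^ 2 / m := by
      rw [hy, div_pow, mul_pow, hss, one_mul, hr2]
    have e4 : y ^ 4 = Sm θ v ^ 4 / m ^ 2 := by
      have : y ^ 4 = (y ^ 2) ^ 2 := by ring
      rw [this, e2, div_pow]
      ring
    have e : -g / 18.63 + 5.488 * s / (18.63 * r) * Sm θ v + 5.88 / (18.63 * m) * Sm θ v ^ 2 +
        -1 / (18.63 * m ^ 2) * Sm θ v ^ 4 =
        (5.488 * y + 5.88 * y ^ 2 - y ^ 4 - g) / 18.63 := by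
      rw [e2, e4, hy]
      field_simp
      ring
    rw [e]
    unfold b2r
    split_ifs with hP
    · have h1 := aux_le y
      rw [div_le_one (by norm_num)] at h1 ⊢
      have hg0 : 0 ≤ g := by
        have : δ ^ 4 ≤ δ ^ 2 := pow_le_pow_of_le_one hδ0 hδ1 (by norm_num)
        rw [hg]
        nlinarith [sq_nonneg δ]
      linarith
    · have hyδ : y ≤ δ := by
        rw [hy, div_le_iff₀ hr0]
        exact not_lt.1 hP
      have := aux_mono hδ0 hδ1 hyδ
      exact div_nonpos_of_nonpos_of_nonneg (by linarith) (by norm_num)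
  · refine hc.trans_le ?_
    have e : -g / 18.63 + 5.88 / (18.63 * m) * m + -1 / (18.63 * m ^ 2) * (3 * (m : ℝ) ^ 2 - m) =
        (2.88 - g + 1 / m) / 18.63 := by
      field_simp
      ring
    rw [e]
    refine div_le_div_of_nonneg_right ?_ (by norm_num)
    have : 0 < 1 / (m : ℝ) := by positivity
    linarith

theorem large_upper (h : Many θ) (hm : 0 < m) {t c : ℝ} (ht : 0 < t)
    (hc : min (1 / t ^ 2) ((3 - 1 / m) / t ^ 4) < c) :
    ∀ᶠ N : ℕ in atTop, avg (fun v => b2r (t * Real.sqrt m ≤ |Sm θ v|)) N ≤ c := by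
  have hm1 : (1 : ℝ) ≤ m := by exact_mod_cast hm
  have hm0 : (0 : ℝ) < m := by linarith
  set r : ℝ := Real.sqrt m with hr
  have hr0 : 0 < r := Real.sqrt_pos.2 hm0
  have hr2 : r ^ 2 = m := Real.sq_sqrt hm0.le
  have hsq : ∀ v, t * r ≤ |Sm θ v| → t ^ 2 * m ≤ Sm θ v ^ 2 := by
    intro v hv
    have := pow_le_pow_left₀ (by positivity) hv 2
    rwa [mul_pow, hr2, sq_abs] at this
  rcases min_lt_iff.1 hc with h1 | h1
  · refine upper_of h (a0 := 0) (a1 := 0) (a2 := 1 / (t ^ 2 * m)) (a4 := 0) (fun v => ?_) ?_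
    · unfold b2r
      split_ifs with hP
      · have h2 := hsq v hP
        have : 1 ≤ 1 / (t ^ 2 * m) * Sm θ v ^ 2 := by
          rw [one_div, inv_mul_eq_div, one_le_div (by positivity)]
          exact h2
        linarith
      · have : 0 ≤ 1 / (t ^ 2 * m) * Sm θ v ^ 2 := by positivity
        linarith
    · refine lt_of_eq_of_lt ?_ h1
      field_simp
      ring
  · refine upper_of h (a0 := 0) (a1 := 0) (a2 := 0) (a4 := 1 / (t ^ 4 * m ^ 2)) (fun v => ?_) ?_
    · unfold b2r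
      split_ifs with hP
      · have h2 := pow_le_pow_left₀ (by positivity) (hsq v hP) 2
        have : 1 ≤ 1 / (t ^ 4 * m ^ 2) * Sm θ v ^ 4 := by
          rw [one_div, inv_mul_eq_div, one_le_div (by positivity)]
          calc t ^ 4 * (m : ℝ) ^ 2 = (t ^ 2 * m) ^ 2 := by ring
            _ ≤ (Sm θ v ^ 2) ^ 2 := h2
            _ = Sm θ v ^ 4 := by ring
        linarith
      · have : 0 ≤ 1 / (t ^ 4 * m ^ 2) * Sm θ v ^ 4 := by positivity
        linarith
    · refine lt_of_eq_of_lt ?_ h1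
      field_simp
      ring

/-! ### The angles -/

theorem pairU' (h : Many θ) {i j : Fin m} (hij : i ≠ j) {a b : ℕ} (hn : a ≠ 0 ∨ b ≠ 0) :
    Tendsto (avg fun v => U a (θ i v) * U b (θ j v)) atTop (𝓝 0) := by
  set n : Fin m → ℕ := fun l => if l = i then a else if l = j then b else 0 with hnd
  have ei : n i = a := by simp [hnd]
  have ej : n j = b := by simp [hnd, hij.symm]
  have h1 := avg_tendsto (h.regular n (fun h0 => by
    rw [h0] at ei ej
    simp only [Pi.zero_apply] at ei ej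
    omega) (Or.inl ⟨i, j, fun k hk1 hk2 => by simp [hnd, hk1, hk2]⟩))
  refine h1.congr fun N => ?_
  congr 1
  funext v
  rw [Finset.prod_eq_mul i j hij]
  · rw [ei, ej]
  · intro q _ hq
    have : n q = 0 := by simp [hnd, hq.1, hq.2]
    rw [this, U_zero]
  · intro h; exact absurd (Finset.mem_univ i) h
  · intro h; exact absurd (Finset.mem_univ j) h

theorem single' (h : Many θ) (i : Fin m) {a : ℕ} (ha : 1 ≤ a) :
    Tendsto (avg fun v => U a (θ i v)) atTop (𝓝 0) := by
  classical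
  set n : Fin m → ℕ := fun l => if l = i then a else 0 with hnd
  have ei : n i = a := by simp [hnd]
  have h1 := avg_tendsto (h.regular n (fun h0 => by
    rw [h0] at ei
    simp only [Pi.zero_apply] at ei
    omega) (Or.inl ⟨i, i, fun k hk1 _ => by simp [hnd, hk1]⟩))
  refine h1.congr fun N => ?_
  congr 1
  funext v
  rw [Finset.prod_eq_single i]
  · rw [ei]
  · intro q _ hq
    have : n q = 0 := by simp [hnd, hq]
    rw [this, U_zero]
  · intro h; exact absurd (Finset.mem_univ i) h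

theorem ind_law' (h : Many θ) (i : Fin m) {a b : ℝ} (h0 : 0 ≤ a) (hab : a ≤ b)
    (hb : b ≤ Real.pi) : Tendsto (avg fun v => ind a b (θ i v)) atTop (𝓝 (mu a b)) := by
  have := equi (h.angle i) (g := fun _ => 1) (a0 := 1) (fun _ => zero_le_one) zero_le_one (fun k => by
    rcases Nat.eq_zero_or_pos k with rfl | hk
    · rw [if_pos rfl]
      refine (avg_one (K := K)).congr fun N => ?_
      congr 1
      funext v
      rw [U_zero, mul_one]
    · rw [if_neg (by omega)]
      refine (single' h i hk).congr fun N => ?_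
      congr 1
      funext v
      rw [one_mul]) h0 hab hb
  rw [one_mul] at this
  refine this.congr fun N => ?_
  congr 1
  funext v
  rw [one_mul]

theorem pair_ind' (h : Many θ) {i j : Fin m} (hij : i ≠ j) {a b c d : ℝ} (h0 : 0 ≤ a) (hab : a ≤ b)
    (hb : b ≤ Real.pi) (h0' : 0 ≤ c) (hcd : c ≤ d) (hd : d ≤ Real.pi) :
    Tendsto (avg fun v => ind a b (θ j v) * ind c d (θ i v)) atTop (𝓝 (mu a b * mu c d)) := by
  refine equi (h.angle i) (fun _ => ind_nonneg _ _ _) (mu_nonneg hab) (fun k => ?_) h0' hcd hd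
  rcases Nat.eq_zero_or_pos k with rfl | hk
  · rw [if_pos rfl]
    refine (ind_law' h j h0 hab hb).congr fun N => ?_
    congr 1
    funext v
    rw [U_zero, mul_one]
  · rw [if_neg (by omega)]
    have := uncorr (w := fun v => U k (θ i v)) (fun v => abs_U_le k _) (h.angle j)
      (fun l hl => single' h j hl) (fun l => pairU' h hij (Or.inl (by omega))) h0 hab hb
    refine this.congr fun N => ?_
    congr 1
    funext v
    ring

theorem ind_sq (a b t : ℝ) : ind a b t * ind a b t = ind a b t := by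
  unfold ind
  split_ifs <;> norm_num

/-- the variance of the number of the angles in an interval -/
theorem variance (h : Many θ) {a b : ℝ} (h0 : 0 ≤ a) (hab : a ≤ b) (hb : b ≤ Real.pi) :
    Tendsto (avg fun v => (∑ i, ind a b (θ i v) - m * mu a b) ^ 2) atTop
      (𝓝 (m * (mu a b - mu a b ^ 2))) := by
  set μ := mu a b with hμ
  have key : ∀ i j : Fin m, Tendsto (avg fun v => (ind a b (θ i v) - μ) * (ind a b (θ j v) - μ))
      atTop (𝓝 (if i = j then μ - μ ^ 2 else 0)) := by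
    intro i j
    have h1 := ind_law' h i h0 hab hb
    have h2 := ind_law' h j h0 hab hb
    have hone := (avg_one (K := K)).const_mul (μ ^ 2)
    rw [mul_one] at hone
    have comb : ∀ L : ℝ, Tendsto (avg fun v => ind a b (θ i v) * ind a b (θ j v)) atTop (𝓝 L) →
        Tendsto (avg fun v => (ind a b (θ i v) - μ) * (ind a b (θ j v) - μ)) atTop
          (𝓝 (L + -μ * μ + -μ * μ + μ ^ 2)) := by
      intro L hL
      have h3 := ((hL.add (h1.const_mul (-μ))).add (h2.const_mul (-μ))).add hone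
      refine h3.congr fun N => ?_
      rw [← avg_mul, ← avg_mul, ← avg_mul, ← avg_add, ← avg_add, ← avg_add]
      congr 1
      funext v
      ring
    by_cases hij : i = j
    · subst hij
      rw [if_pos rfl]
      have := comb μ (h1.congr fun N => by
        congr 1
        funext v
        rw [ind_sq])
      have e : μ + -μ * μ + -μ * μ + μ ^ 2 = μ - μ ^ 2 := by ring
      rwa [e] at this
    · rw [if_neg hij]
      have h4 := pair_ind' h (Ne.symm hij) h0 hab hb h0 hab hb
      have := comb (μ * μ) h4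
      have e : μ * μ + -μ * μ + -μ * μ + μ ^ 2 = 0 := by ring
      rwa [e] at this
  have h5 := sum_law fun i => sum_law fun j => key i j
  have h6 : ∑ i : Fin m, ∑ j : Fin m, (if i = j then μ - μ ^ 2 else 0) = m * (μ - μ ^ 2) := by
    simp
    ring
  rw [h6] at h5
  refine h5.congr fun N => ?_
  congr 1
  funext v
  have : ∑ i, ind a b (θ i v) - m * μ = ∑ i, (ind a b (θ i v) - μ) := by
    rw [Finset.sum_sub_distrib]
    simp
  rw [this, sq, Finset.sum_mul_sum]

theorem dev_upper (h : Many θ) (hm : 0 < m) {a b η c : ℝ} (h0 : 0 ≤ a) (hab : a ≤ b)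
    (hb : b ≤ Real.pi) (hη : 0 < η) (hc : (mu a b - mu a b ^ 2) / (η ^ 2 * m) < c) :
    ∀ᶠ N : ℕ in atTop, avg (fun v => b2r (η * m ≤ |∑ i, ind a b (θ i v) - m * mu a b|)) N ≤ c := by
  have hm1 : (1 : ℝ) ≤ m := by exact_mod_cast hm
  have hm0 : (0 : ℝ) < m := by linarith
  have h1 := (variance h h0 hab hb).const_mul (1 / (η * m) ^ 2)
  have e : 1 / (η * m) ^ 2 * (m * (mu a b - mu a b ^ 2)) = (mu a b - mu a b ^ 2) / (η ^ 2 * m) := by
    field_simp
  rw [e] at h1
  filter_upwards [h1.eventually (gt_mem_nhds hc)] with N hN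
  refine le_trans ?_ hN.le
  rw [← avg_mul]
  refine avg_mono (fun v => ?_) N
  unfold b2r
  split_ifs with hP
  · have h2 := pow_le_pow_left₀ (by positivity) hP 2
    rw [sq_abs] at h2
    rw [one_div, inv_mul_eq_div, one_le_div (by positivity)]
    exact h2
  · positivity

/-- finitely many exceptional sets -/
theorem union_upper {ι : Type*} (s : Finset ι) (P : ι → HeightOneSpectrum (𝓞 K) → Prop) {c : ℝ}
    (h : ∀ i ∈ s, ∀ᶠ N : ℕ in atTop, avg (fun v => b2r (P i v)) N ≤ c)
    {Q : HeightOneSpectrum (𝓞 K) → Prop} (hQ : ∀ v, Q v → ∃ i ∈ s, P i v) :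
    ∀ᶠ N : ℕ in atTop, avg (fun v => b2r (Q v)) N ≤ s.card * c := by
  classical
  have h1 := (Filter.eventually_all_finset s).2 h
  filter_upwards [h1] with N hN
  calc avg (fun v => b2r (Q v)) N ≤ avg (fun v => ∑ i ∈ s, b2r (P i v)) N := by
        refine avg_mono (fun v => ?_) N
        by_cases hq : Q v
        · obtain ⟨i, hi, hp⟩ := hQ v hq
          have e1 : b2r (Q v) = 1 := by unfold b2r; rw [if_pos hq]
          have e2 : b2r (P i v) = 1 := by unfold b2r; rw [if_pos hp]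
          rw [e1, ← e2]
          exact Finset.single_le_sum (f := fun i => b2r (P i v)) (fun _ _ => b2r_nonneg _) hi
        · have e1 : b2r (Q v) = 0 := by unfold b2r; rw [if_neg hq]
          rw [e1]
          exact Finset.sum_nonneg fun _ _ => b2r_nonneg _
    _ = ∑ i ∈ s, avg (fun v => b2r (P i v)) N := avg_sum _ _ _
    _ ≤ ∑ i ∈ s, c := Finset.sum_le_sum hN
    _ = s.card * c := by rw [Finset.sum_const, nsmul_eq_mul]

/-! ### Uniformity in the interval -/

theorem mu_add {a b c : ℝ} : mu a b + mu b c = mu a c := by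
  unfold mu
  rw [← mul_add, intervalIntegral.integral_add_adjacent_intervals]
  · exact Continuous.intervalIntegrable (by fun_prop) _ _
  · exact Continuous.intervalIntegrable (by fun_prop) _ _

theorem mu_total : mu 0 Real.pi = 1 := by
  have hp := Real.pi_pos
  unfold mu
  rw [integral_sin_sq]
  simp

theorem mu_cont : Continuous fun x => mu 0 x := by
  unfold mu
  refine continuous_const.mul ?_
  exact intervalIntegral.continuous_primitive (fun a b => Continuous.intervalIntegrable (by fun_prop) _ _) 0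

/-- **The empirical distribution function.** -/
theorem kolmogorov (h : Many θ) (hm : 0 < m) {η c : ℝ} (hη : 0 < η) (hη1 : η ≤ 1)
    (hc : 4 / (m * η ^ 3) < c) : ∀ᶠ N : ℕ in atTop,
      avg (fun v => b2r (∃ t ∈ Set.Icc 0 Real.pi, η * m ≤ |∑ i, ind 0 t (θ i v) - m * mu 0 t|)) N ≤ c := by
  have hp := Real.pi_pos
  have hm1 : (1 : ℝ) ≤ m := by exact_mod_cast hm
  have hm0 : (0 : ℝ) < m := by linarith
  set M : ℕ := ⌈2 / η⌉₊ with hM
  have hM0 : (2 / η : ℝ) ≤ M := Nat.le_ceil _
  have hM1 : (M : ℝ) < 2 / η + 1 := Nat.ceil_lt_add_one (by positivity)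
  have h2η : 2 ≤ 2 / η := by rw [le_div_iff₀ hη]; linarith
  have hMpos : (0 : ℝ) < M := by linarith
  have hMn : 0 < M := by exact_mod_cast hMpos
  have hinv : 1 / (M : ℝ) ≤ η / 2 := by
    rw [div_le_iff₀ hMpos]
    rw [div_le_iff₀ hη] at hM0
    linarith
  -- the grid
  have hgrid : ∀ r : ℕ, ∃ t : ℝ, r ≤ M → (t ∈ Set.Icc 0 Real.pi ∧ mu 0 t = r / M) := by
    intro r
    by_cases hr : r ≤ M
    · have h1 := intermediate_value_Icc hp.le (mu_cont.continuousOn (s := Set.Icc 0 Real.pi))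
      have h2 : (r : ℝ) / M ∈ Set.Icc (mu 0 0) (mu 0 Real.pi) := by
        rw [mu_total]
        have : mu 0 0 = 0 := by unfold mu; rw [intervalIntegral.integral_same, mul_zero]
        rw [this]
        have hr' : (r : ℝ) ≤ M := by exact_mod_cast hr
        exact ⟨by positivity, (div_le_one hMpos).2 hr'⟩
      obtain ⟨t, ht, hmt⟩ := h1 h2
      exact ⟨t, fun _ => ⟨ht, hmt⟩⟩
    · exact ⟨0, fun h => absurd h hr⟩
  choose t ht using hgrid
  have hη2 : 0 < η / 2 := by positivity
  set c' : ℝ := c / (M + 1 : ℕ) with hc'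
  have hM1' : (0 : ℝ) < ((M + 1 : ℕ) : ℝ) := by positivity
  have hc1 : 1 / (η ^ 2 * m) < c' := by
    rw [hc', lt_div_iff₀ hM1']
    refine lt_of_le_of_lt ?_ hc
    have h1 : ((M + 1 : ℕ) : ℝ) ≤ 4 / η := by
      push_cast
      have : 4 / η = 2 / η + 2 / η := by ring
      linarith
    calc 1 / (η ^ 2 * m) * ((M + 1 : ℕ) : ℝ) ≤ 1 / (η ^ 2 * m) * (4 / η) :=
          mul_le_mul_of_nonneg_left h1 (by positivity)
      _ = 4 / (m * η ^ 3) := by field_simp
  have hdev : ∀ r ∈ Finset.range (M + 1), ∀ᶠ N : ℕ in atTop,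
      avg (fun v => b2r (η / 2 * m ≤ |∑ i, ind 0 (t r) (θ i v) - m * mu 0 (t r)|)) N ≤ c' := by
    intro r hr
    obtain ⟨h1, h2⟩ := ht r (by rw [Finset.mem_range] at hr; omega)
    refine dev_upper h hm le_rfl h1.1 h1.2 hη2 (lt_of_le_of_lt ?_ hc1)
    have h3 : mu 0 (t r) - mu 0 (t r) ^ 2 ≤ 1 / 4 := by nlinarith [sq_nonneg (mu 0 (t r) - 1 / 2)]
    rw [div_le_div_iff₀ (by positivity) (by positivity)]
    nlinarith [mul_pos (pow_pos hη 2) hm0]
  have hfin := union_upper (Finset.range (M + 1))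
    (fun r v => η / 2 * m ≤ |∑ i, ind 0 (t r) (θ i v) - m * mu 0 (t r)|) hdev
    (Q := fun v => ∃ t ∈ Set.Icc 0 Real.pi, η * m ≤ |∑ i, ind 0 t (θ i v) - m * mu 0 t|) ?_
  · filter_upwards [hfin] with N hN
    refine hN.trans (le_of_eq ?_)
    rw [Finset.card_range, hc']
    field_simp
  · rintro v ⟨u, hu, hbig⟩
    by_contra hcon
    push Not at hcon
    -- monotonicity of the counting function
    have hmono : ∀ {p q : ℝ}, p ≤ q → ∑ i, ind 0 p (θ i v) ≤ ∑ i, ind 0 q (θ i v) := by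
      intro p q hpq
      refine Finset.sum_le_sum fun i _ => ?_
      unfold ind
      split_ifs with h1 h2
      · exact le_rfl
      · exact absurd ⟨h1.1, h1.2.trans hpq⟩ h2
      · exact zero_le_one
      · exact le_rfl
    have hle : ∀ {p q : ℝ}, p ∈ Set.Icc 0 Real.pi → q ∈ Set.Icc 0 Real.pi → mu 0 p ≤ mu 0 q →
        p ≤ q := by
      intro p q hp' hq' hpq
      by_contra hlt
      push Not at hlt
      have h1 := mu_pos hq'.1 hlt hp'.2
      have h2 := mu_add (a := 0) (b := q) (c := p)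
      linarith
    have hu0 : 0 ≤ mu 0 u := mu_nonneg hu.1
    have hu1 : mu 0 u ≤ 1 := by
      rw [← mu_total, ← mu_add (a := 0) (b := u) (c := Real.pi)]
      linarith [mu_nonneg hu.2]
    set r : ℕ := ⌊(M : ℝ) * mu 0 u⌋₊ with hr
    have hr1 : (r : ℝ) ≤ M * mu 0 u := Nat.floor_le (by positivity)
    have hr2 : (M : ℝ) * mu 0 u < r + 1 := Nat.lt_floor_add_one _
    have hrM : r ≤ M := by
      have : (r : ℝ) ≤ M := by nlinarith
      exact_mod_cast this
    obtain ⟨a1, a2⟩ := ht r hrM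
    have b1 := abs_lt.1 (hcon r (Finset.mem_range.2 (by omega)))
    have hmu1 : mu 0 (t r) ≤ mu 0 u := by
      rw [a2, div_le_iff₀ hMpos]
      linarith
    have hmu2 : mu 0 u ≤ mu 0 (t r) + 1 / M := by
      rw [a2, ← add_div, le_div_iff₀ hMpos]
      linarith
    have hF1 := hmono (hle a1 hu hmu1)
    -- lower side
    have hlow : -(η * m) < ∑ i, ind 0 u (θ i v) - m * mu 0 u := by
      have h5 : (m : ℝ) * mu 0 u ≤ m * mu 0 (t r) + m * (η / 2) := by
        have : mu 0 u ≤ mu 0 (t r) + η / 2 := by linarith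
        nlinarith
      linarith [b1.1]
    -- upper side
    have hupp : ∑ i, ind 0 u (θ i v) - m * mu 0 u < η * m := by
      rcases Nat.lt_or_ge r M with hlt | hge
      · obtain ⟨c1, c2⟩ := ht (r + 1) (by omega)
        have d1 := abs_lt.1 (hcon (r + 1) (Finset.mem_range.2 (by omega)))
        have e1 : mu 0 u ≤ mu 0 (t (r + 1)) := by
          rw [c2, le_div_iff₀ hMpos]
          push_cast
          linarith
        have e2 : mu 0 (t (r + 1)) ≤ mu 0 u + η / 2 := by
          rw [c2]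
          push_cast
          rw [add_div]
          have : (r : ℝ) / M ≤ mu 0 u := by
            rw [div_le_iff₀ hMpos]
            linarith
          linarith
        have hF2 := hmono (hle hu c1 e1)
        have h5 : (m : ℝ) * mu 0 (t (r + 1)) ≤ m * mu 0 u + m * (η / 2) := by nlinarith
        linarith [d1.2]
      · have hrM' : (M : ℝ) ≤ r := by exact_mod_cast hge
        have hone : mu 0 u = 1 := by
          refine le_antisymm hu1 ?_
          by_contra hlt
          push Not at hlt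
          nlinarith
        have : ∑ i, ind 0 u (θ i v) ≤ m := by
          calc ∑ i, ind 0 u (θ i v) ≤ ∑ i : Fin m, (1 : ℝ) :=
                Finset.sum_le_sum fun i _ => ind_le_one _ _ _
            _ = m := by simp
        rw [hone]
        nlinarith [mul_pos hη hm0]
    have := abs_lt.2 ⟨hlow, hupp⟩
    linarith

end Run7.h911.NT
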