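import Pool.Agent.Run7.h911.ST1
import Pool.Agent.Run7.h911.RC3

/-!
# Averages over places from the behaviour of `L`-functions at `1`
-/

set_option autoImplicit false

namespace Run7.h911.ST

open NumberField IsDedekindDomain Filter Topology
open Pool.Agent.TH861.GL3 (PL qq)
open Run7.h911.RC (wt wt_nonneg wt_zero summable_wt logL logL_real log_bdd Z Z_tendsto)

variable {K : Type*} [Field K] [NumberField K] {S : Finset (HeightOneSpectrum (𝓞 K))}

/-- the prime powers contribute a bounded amount -/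
theorem pp_bound (g : PL S → ℕ → ℝ) {B : ℝ} (hB : 0 ≤ B)
    (hg : ∀ v j, |g v (j + 2)| ≤ B * ((qq v.1 : ℝ) ^ (7 / 16 : ℝ)) ^ (j + 2)) :
    ∃ C : ℝ, ∀ σ : ℝ, 1 < σ → (Summable fun x : PL S × ℕ => g x.1 (x.2 + 1) * wt σ x) →
      (Summable fun v : PL S => g v 1 * (qq v.1 : ℝ) ^ (-σ)) ∧
      |∑' x : PL S × ℕ, g x.1 (x.2 + 1) * wt σ x - ∑' v : PL S, g v 1 * (qq v.1 : ℝ) ^ (-σ)| ≤ C := by
  have hs2 := Pool.Agent.TH861.GL3.summable_qq (S := S) (σ := 9 / 8) (by norm_num)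
  refine ⟨∑' v : PL S, 4 * B * (qq v.1 : ℝ) ^ (-(9 / 8) : ℝ), fun σ hσ hsum => ?_⟩
  have h0 : Summable fun v : PL S => g v 1 * (qq v.1 : ℝ) ^ (-σ) := by
    have := hsum.comp_injective (i := fun v : PL S => ((v, 0) : PL S × ℕ))
      (fun a b hab => (Prod.ext_iff.1 hab).1)
    refine this.congr fun v => ?_
    simp only [Function.comp_apply, wt_zero, zero_add]
  refine ⟨h0, ?_⟩
  have hfib := hsum.prod_factor
  rw [hsum.tsum_prod, ← hsum.prod.tsum_sub h0]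
  have hterm : ∀ v : PL S, |∑' k : ℕ, g v (k + 1) * wt σ (v, k) - g v 1 * (qq v.1 : ℝ) ^ (-σ)| ≤
      4 * B * (qq v.1 : ℝ) ^ (-(9 / 8) : ℝ) := by
    intro v
    rw [(hfib v).tsum_eq_zero_add, wt_zero, zero_add, add_sub_cancel_left]
    have hq := Pool.Agent.TH861.GL3.qq_pos v.1
    have hq2 : (2 : ℝ) ≤ qq v.1 := by exact_mod_cast Pool.Agent.TH861.GL3.two_le_qq v.1
    set q : ℝ := (qq v.1 : ℝ) with hqd
    set Q : ℝ := q ^ (7 / 16 : ℝ) * q⁻¹ with hQ
    have hQ0 : 0 < Q := by positivity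
    have hQe : Q = q ^ (-(9 / 16) : ℝ) := by
      rw [hQ, ← Real.rpow_neg_one, ← Real.rpow_add hq]
      norm_num
    have hQ2 : Q ^ 2 = q ^ (-(9 / 8) : ℝ) := by
      rw [hQe, ← Real.rpow_natCast, ← Real.rpow_mul hq.le]
      norm_num
    have hQ1 : Q ^ 2 ≤ 1 / 2 := by
      rw [hQ2]
      calc q ^ (-(9 / 8) : ℝ) ≤ q ^ (-1 : ℝ) :=
            Real.rpow_le_rpow_of_exponent_le (by linarith) (by norm_num)
        _ = q⁻¹ := Real.rpow_neg_one q
        _ ≤ 1 / 2 := by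
            rw [inv_le_comm₀ hq (by norm_num)]
            norm_num
            exact hq2
    have hQ3 : Q ≤ 3 / 4 := by nlinarith
    have hgeo := (hasSum_geometric_of_lt_one hQ0.le (by linarith : Q < 1)).mul_left (B * Q ^ 2)
    have hk : ∀ k : ℕ, ‖g v (k + 1 + 1) * wt σ (v, k + 1)‖ ≤ B * Q ^ 2 * Q ^ k := by
      intro k
      rw [norm_mul, Real.norm_of_nonneg (wt_nonneg σ _), Real.norm_eq_abs]
      have h1 := hg v k
      have h2 : wt σ (v, k + 1) ≤ q⁻¹ ^ (k + 2) := by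
        unfold wt
        refine le_trans (div_le_self (by positivity) ?_) ?_
        · push_cast
          have : (0 : ℝ) ≤ k := by positivity
          linarith
        · refine pow_le_pow_left₀ (by positivity) ?_ _
          rw [← Real.rpow_neg_one]
          exact Real.rpow_le_rpow_of_exponent_le (by linarith) (by linarith)
      calc |g v (k + 2)| * wt σ (v, k + 1)
          ≤ (B * (q ^ (7 / 16 : ℝ)) ^ (k + 2)) * q⁻¹ ^ (k + 2) :=
            mul_le_mul h1 h2 (wt_nonneg σ _) (by positivity)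
        _ = B * Q ^ 2 * Q ^ k := by rw [hQ]; ring
    have h3 : |∑' k : ℕ, g v (k + 1 + 1) * wt σ (v, k + 1)| ≤ B * Q ^ 2 * (1 - Q)⁻¹ := by
      rw [← hgeo.tsum_eq, ← Real.norm_eq_abs]
      exact tsum_of_norm_bounded hgeo.summable.hasSum hk
    refine h3.trans ?_
    rw [← hQ2]
    have h4 : (1 - Q)⁻¹ ≤ 4 := by
      rw [inv_le_comm₀ (by linarith) (by norm_num)]
      linarith
    have h5 : 0 ≤ B * Q ^ 2 := by positivity
    nlinarith
  rw [← Real.norm_eq_abs]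
  exact tsum_of_norm_bounded ((hs2.mul_left (4 * B)).congr fun v => rfl).hasSum
    fun v => by rw [Real.norm_eq_abs]; exact hterm v

/-- an `L`-function which is holomorphic and nonzero at `1` -/
def Reg (f : PL S → ℕ → ℂ) : Prop := ∃ F : ℂ → ℂ, AnalyticAt ℂ F 1 ∧ F 1 ≠ 0 ∧
  ∀ s : ℂ, 1 < s.re → F s = Complex.exp (logL f s)

theorem sum_bdd {f : PL S → ℕ → ℂ} {g : PL S → ℕ → ℝ} (hfg : ∀ v k, f v k = (g v k : ℂ))
    (hL : Reg f) {B : ℝ} (hB : 0 ≤ B)
    (hg : ∀ v j, |g v (j + 2)| ≤ B * ((qq v.1 : ℝ) ^ (7 / 16 : ℝ)) ^ (j + 2))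
    (hs : ∀ σ : ℝ, 1 < σ → Summable fun x : PL S × ℕ => g x.1 (x.2 + 1) * wt σ x) :
    ∃ C : ℝ, ∀ᶠ σ : ℝ in 𝓝[>] 1, (Summable fun v : PL S => g v 1 * (qq v.1 : ℝ) ^ (-σ)) ∧
      |∑' v : PL S, g v 1 * (qq v.1 : ℝ) ^ (-σ)| ≤ C := by
  obtain ⟨F, hF, hF1, hE⟩ := hL
  obtain ⟨C, hC⟩ := log_bdd hF hF1
  obtain ⟨C', hC'⟩ := pp_bound g hB hg
  refine ⟨C + C', ?_⟩
  filter_upwards [hC, self_mem_nhdsWithin] with σ h1 h2
  have hσ : (1 : ℝ) < σ := h2
  have e := hE (σ : ℂ) (by simpa using hσ)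
  rw [logL_real f g hfg] at e
  have h3 := h1.2
  rw [e, Complex.norm_exp, Complex.ofReal_re, Real.log_exp] at h3
  obtain ⟨h4, h5⟩ := hC' σ hσ (hs σ hσ)
  refine ⟨h4, ?_⟩
  rw [abs_le] at h3 h5 ⊢
  constructor <;> linarith [h3.1, h3.2, h5.1, h5.2]

/-- bounded sums have mean zero -/
theorem mean_zero {u : ℝ → ℝ} {C : ℝ} (h : ∀ᶠ σ : ℝ in 𝓝[>] 1, |u σ| ≤ C) :
    Tendsto (fun σ => u σ / Z S σ) (𝓝[>] 1) (𝓝 0) := by
  have hZ := Z_tendsto S
  have h1 : Tendsto (fun σ => |C| / Z S σ) (𝓝[>] 1) (𝓝 0) := hZ.const_div_atTop |C|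
  refine squeeze_zero_norm' ?_ h1
  filter_upwards [h, hZ.eventually_gt_atTop 0] with σ h2 h3
  rw [norm_div, Real.norm_eq_abs, Real.norm_eq_abs, abs_of_pos h3]
  exact div_le_div_of_nonneg_right (h2.trans (le_abs_self C)) h3.le

theorem abs_U_le (k : ℕ) (t : ℝ) : |U k t| ≤ k + 1 := by
  induction k with
  | zero => rw [U_zero]; simp
  | succ k ih =>
    have h1 : U (k + 1) t = Real.cos t * U k t + Real.cos ((k + 1) * t) := by
      unfold U
      have h2 := Polynomial.Chebyshev.U_eq_X_mul_U_add_T ℝ (k : ℤ)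
      have h3 := Polynomial.Chebyshev.T_real_cos t ((k : ℤ) + 1)
      push_cast at h3 ⊢
      rw [h2, Polynomial.eval_add, Polynomial.eval_mul, Polynomial.eval_X, h3]
    rw [h1]
    push_cast
    have h4 := Real.abs_cos_le_one t
    have h5 := Real.abs_cos_le_one ((k + 1) * t)
    calc |Real.cos t * U k t + Real.cos ((k + 1) * t)|
        ≤ |Real.cos t| * |U k t| + |Real.cos ((k + 1) * t)| := by
          rw [← abs_mul]
          exact abs_add_le _ _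
      _ ≤ 1 * ((k : ℝ) + 1) + 1 := by gcongr
      _ = (k : ℝ) + 1 + 1 := by ring

end Run7.h911.ST
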