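import Pool.Agent.Run7.h911.NT1
import Pool.Agent.Run7.h911.ST2

/-!
# Natural densities: pairs and triples of angles
-/

set_option autoImplicit false

namespace Run7.h911.NT

open NumberField IsDedekindDomain Filter Topology
open Pool.Agent.W540.BE (upto nm)
open Run7.h911.ST (U U_zero U_one abs_U_le Lam mu ind ind_nonneg ind_le_one Good Wts)

variable {K : Type} [Field K] [NumberField K]

theorem card_pos : ∀ᶠ N : ℕ in atTop, (0 : ℝ) < (upto K N).card := by
  filter_upwards [Pool.Agent.TH553.ST.card_ev (K := K)] with N hN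
  have : (0 : ℝ) ≤ (upto K N).card := by positivity
  exact lt_of_le_of_ne this (Ne.symm hN)

theorem avg_add (f g : HeightOneSpectrum (𝓞 K) → ℝ) (N : ℕ) :
    avg (fun v => f v + g v) N = avg f N + avg g N := by
  unfold avg
  rw [Finset.sum_add_distrib, add_div]

theorem avg_mul (c : ℝ) (f : HeightOneSpectrum (𝓞 K) → ℝ) (N : ℕ) :
    avg (fun v => c * f v) N = c * avg f N := by
  unfold avg
  rw [← Finset.mul_sum, mul_div_assoc]

theorem avg_mono {f g : HeightOneSpectrum (𝓞 K) → ℝ} (h : ∀ v, f v ≤ g v) (N : ℕ) :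
    avg f N ≤ avg g N := by
  unfold avg
  exact div_le_div_of_nonneg_right (Finset.sum_le_sum fun v _ => h v) (by positivity)

theorem avg_one : Tendsto (avg fun _ : HeightOneSpectrum (𝓞 K) => (1 : ℝ)) atTop (𝓝 1) := by
  refine tendsto_const_nhds.congr' ?_
  filter_upwards [card_pos (K := K)] with N hN
  unfold avg
  rw [Finset.sum_const, nsmul_eq_mul, mul_one, div_self hN.ne']

/-- the weights -/
noncomputable def cw (g : HeightOneSpectrum (𝓞 K) → ℝ) (N : ℕ) (v : HeightOneSpectrum (𝓞 K)) : ℝ := by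
  classical
  exact if v ∈ upto K N then g v / (upto K N).card else 0

theorem cw_sum (g h : HeightOneSpectrum (𝓞 K) → ℝ) (N : ℕ) :
    ∑' v, cw g N v * h v = avg (fun v => g v * h v) N := by
  classical
  rw [tsum_eq_sum (s := upto K N)]
  · unfold avg
    rw [Finset.sum_div]
    refine Finset.sum_congr rfl fun v hv => ?_
    unfold cw
    rw [if_pos hv]
    ring
  · intro v hv
    unfold cw
    rw [if_neg hv, zero_mul]

theorem cw_wts {g : HeightOneSpectrum (𝓞 K) → ℝ} (hg : ∀ v, 0 ≤ g v) : Wts atTop (cw g) := by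
  classical
  refine Eventually.of_forall fun N => ⟨fun v => ?_, ?_⟩
  · unfold cw
    have := hg v
    split_ifs
    · positivity
    · exact le_rfl
  · refine summable_of_ne_finset_zero (s := upto K N) fun v hv => ?_
    unfold cw
    rw [if_neg hv]

variable {θ : HeightOneSpectrum (𝓞 K) → ℝ} {g : HeightOneSpectrum (𝓞 K) → ℝ} {a0 : ℝ}

theorem equi (hθ : ∀ v, θ v ∈ Set.Icc 0 Real.pi) (hg : ∀ v, 0 ≤ g v) (ha : 0 ≤ a0)
    (hU : ∀ k : ℕ, Tendsto (avg fun v => g v * U k (θ v)) atTop (𝓝 (if k = 0 then a0 else 0)))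
    {a b : ℝ} (h0 : 0 ≤ a) (hab : a ≤ b) (hb : b ≤ Real.pi) :
    Tendsto (avg fun v => g v * ind a b (θ v)) atTop (𝓝 (a0 * mu a b)) := by
  have := Run7.h911.ST.equidist (l := atTop) (c := cw g) (cw_wts hg) hθ ha (fun k => by
    refine (hU k).congr fun N => ?_
    rw [cw_sum]) h0 hab hb
  refine this.congr fun N => ?_
  rw [cw_sum]

theorem equi_cont (hθ : ∀ v, θ v ∈ Set.Icc 0 Real.pi) (hg : ∀ v, 0 ≤ g v) (ha : 0 ≤ a0)
    (hU : ∀ k : ℕ, Tendsto (avg fun v => g v * U k (θ v)) atTop (𝓝 (if k = 0 then a0 else 0)))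
    {h : ℝ → ℝ} (hc : Continuous h) :
    Tendsto (avg fun v => g v * h (θ v)) atTop (𝓝 (a0 * Lam h)) := by
  have := Run7.h911.ST.good_cont (l := atTop) (c := cw g) (cw_wts hg) hθ ha (fun k => by
    refine (hU k).congr fun N => ?_
    rw [cw_sum]) hc
  unfold Good at this
  refine this.congr fun N => ?_
  rw [cw_sum]

/-- if the function `w` is uncorrelated with all `U k (θ)` then it is uncorrelated with the intervals -/
theorem uncorr {w : HeightOneSpectrum (𝓞 K) → ℝ} {B : ℝ} (hB : ∀ v, |w v| ≤ B)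
    (hθ : ∀ v, θ v ∈ Set.Icc 0 Real.pi)
    (h1 : ∀ k : ℕ, 1 ≤ k → Tendsto (avg fun v => U k (θ v)) atTop (𝓝 0))
    (hw : ∀ k : ℕ, Tendsto (avg fun v => w v * U k (θ v)) atTop (𝓝 0))
    {a b : ℝ} (h0 : 0 ≤ a) (hab : a ≤ b) (hb : b ≤ Real.pi) :
    Tendsto (avg fun v => w v * ind a b (θ v)) atTop (𝓝 0) := by
  have hB0 : 0 ≤ |B| := abs_nonneg B
  have hone : ∀ k : ℕ, Tendsto (avg fun v => (1 : ℝ) * U k (θ v)) atTop
      (𝓝 (if k = 0 then 1 else 0)) := by
    intro k
    rcases Nat.eq_zero_or_pos k with rfl | hk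
    · rw [if_pos rfl]
      refine (avg_one (K := K)).congr fun N => ?_
      congr 1
      funext v
      rw [U_zero, mul_one]
    · rw [if_neg (by omega)]
      refine (h1 k hk).congr fun N => ?_
      congr 1
      funext v
      rw [one_mul]
  have hg : ∀ k : ℕ, Tendsto (avg fun v => (|B| + w v) * U k (θ v)) atTop
      (𝓝 (if k = 0 then |B| else 0)) := by
    intro k
    have h2 := ((hone k).const_mul |B|).add (hw k)
    have e : |B| * (if k = 0 then (1 : ℝ) else 0) + 0 = if k = 0 then |B| else 0 := by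
      split_ifs <;> simp
    rw [e] at h2
    refine h2.congr fun N => ?_
    rw [← avg_mul, ← avg_add]
    congr 1
    funext v
    ring
  have e1 := equi hθ (g := fun v => |B| + w v) (fun v => by
    have := abs_le.1 (hB v)
    have := le_abs_self B
    linarith [this, (abs_le.1 (hB v)).1]) hB0 hg h0 hab hb
  have e2 := (equi hθ (g := fun _ => 1) (fun _ => zero_le_one) zero_le_one hone h0 hab hb).const_mul
    |B|
  have e3 := e1.sub e2
  rw [one_mul, sub_self] at e3
  refine e3.congr fun N => ?_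
  rw [← avg_mul]
  have : ∀ N, avg (fun v => w v * ind a b (θ v)) N = avg (fun v => (|B| + w v) * ind a b (θ v)) N -
      avg (fun v => |B| * (1 * ind a b (θ v))) N := by
    intro N
    unfold avg
    rw [← sub_div, ← Finset.sum_sub_distrib]
    congr 1
    exact Finset.sum_congr rfl fun v _ => by ring
  rw [this]

end Run7.h911.NT
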