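import Pool.Agent.Run7.h911.VS4
import Pool.Agent.Run7.h911.NT2
import Pool.Agent.Run7.h911.ST2

/-!
# Joint distribution of the angles of `m` modular forms of different weights: the exact law
-/

set_option autoImplicit false

namespace Run7.h911.MW

open NumberField IsDedekindDomain Filter Topology
open Run7.h911.NT (LRegular avg avg_add avg_mul avg_one avg_tendsto equi equi_cont)
open Run7.h911.ST (U U_zero U_cont Lam Lam_U mu ind)
open Run7.h911.VS (Tri)
open Pool.Agent.W540.BE (upto nm)

variable {K : Type} [Field K] [NumberField K] {m : ℕ}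

/-- `f` is uncorrelated with everything, like the `U_k`; its mean value is `L` -/
structure Adm (K : Type) [Field K] [NumberField K] (f : ℝ → ℝ) (L : ℝ) : Prop where
  bound : ∃ B : ℝ, ∀ x ∈ Set.Icc 0 Real.pi, |f x| ≤ B
  law : ∀ (θ w : HeightOneSpectrum (𝓞 K) → ℝ) (B a : ℝ), (∀ v, θ v ∈ Set.Icc 0 Real.pi) →
    (∀ v, |w v| ≤ B) → (∀ k : ℕ, 1 ≤ k → Tendsto (avg fun v => U k (θ v)) atTop (𝓝 0)) →
    (∀ k : ℕ, Tendsto (avg fun v => w v * U k (θ v)) atTop (𝓝 (if k = 0 then a else 0))) →
    Tendsto (avg fun v => w v * f (θ v)) atTop (𝓝 (a * L))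

theorem one_law {θ : HeightOneSpectrum (𝓞 K) → ℝ}
    (h1 : ∀ k : ℕ, 1 ≤ k → Tendsto (avg fun v => U k (θ v)) atTop (𝓝 0)) (k : ℕ) :
    Tendsto (avg fun v => (1 : ℝ) * U k (θ v)) atTop (𝓝 (if k = 0 then 1 else 0)) := by
  rcases Nat.eq_zero_or_pos k with rfl | hk
  · rw [if_pos rfl]
    refine (avg_one (K := K)).congr fun N => ?_
    congr 1
    funext v
    rw [U_zero, mul_one]
  · rw [if_neg (by omega)]
    refine (h1 k hk).congr fun N => ?_
    congr 1
    funext v
    rw [one_mul]

theorem shift_law {θ w : HeightOneSpectrum (𝓞 K) → ℝ} {a : ℝ} (C : ℝ)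
    (h1 : ∀ k : ℕ, 1 ≤ k → Tendsto (avg fun v => U k (θ v)) atTop (𝓝 0))
    (hw : ∀ k : ℕ, Tendsto (avg fun v => w v * U k (θ v)) atTop (𝓝 (if k = 0 then a else 0))) (k : ℕ) :
    Tendsto (avg fun v => (C + w v) * U k (θ v)) atTop (𝓝 (if k = 0 then C + a else 0)) := by
  have h2 := ((one_law h1 k).const_mul C).add (hw k)
  have e : C * (if k = 0 then (1 : ℝ) else 0) + (if k = 0 then a else 0) =
      if k = 0 then C + a else 0 := by
    split_ifs <;> simp
  rw [e] at h2
  refine h2.congr fun N => ?_
  rw [← avg_mul, ← avg_add]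
  congr 1
  funext v
  ring

theorem unshift {θ w : HeightOneSpectrum (𝓞 K) → ℝ} {a L C : ℝ} {f : ℝ → ℝ}
    (e1 : Tendsto (avg fun v => (C + w v) * f (θ v)) atTop (𝓝 ((C + a) * L)))
    (e2 : Tendsto (avg fun v => 1 * f (θ v)) atTop (𝓝 (1 * L))) :
    Tendsto (avg fun v => w v * f (θ v)) atTop (𝓝 (a * L)) := by
  have e3 := e1.sub (e2.const_mul C)
  have e : (C + a) * L - C * (1 * L) = a * L := by ring
  rw [e] at e3
  refine e3.congr fun N => ?_
  rw [← avg_mul]
  have : ∀ N, avg (fun v => w v * f (θ v)) N = avg (fun v => (C + w v) * f (θ v)) N -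
      avg (fun v => C * (1 * f (θ v))) N := by
    intro N
    unfold avg
    rw [← sub_div, ← Finset.sum_sub_distrib]
    congr 1
    exact Finset.sum_congr rfl fun v _ => by ring
  rw [this]

theorem adm_cont {f : ℝ → ℝ} (hf : Continuous f) : Adm K f (Lam f) := by
  refine ⟨Run7.h911.ST.bdd_of_cont hf, fun θ w B a hθ hB h1 hw => ?_⟩
  have hC : ∀ v, 0 ≤ (|B| + |a|) + w v := by
    intro v
    have h2 := (abs_le.1 (hB v)).1
    have h3 := le_abs_self B
    have h4 := abs_nonneg a
    linarith
  have ha : 0 ≤ (|B| + |a|) + a := by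
    have h3 := abs_nonneg B
    have h4 := neg_abs_le a
    linarith
  have e1 := equi_cont hθ hC ha (shift_law (|B| + |a|) h1 hw) hf
  have e2 := equi_cont hθ (g := fun _ => 1) (a0 := 1) (fun _ => zero_le_one) zero_le_one (one_law h1) hf
  exact unshift e1 e2

theorem adm_ind {s t : ℝ} (h0 : 0 ≤ s) (hst : s ≤ t) (ht : t ≤ Real.pi) : Adm K (ind s t) (mu s t) := by
  refine ⟨⟨1, fun x _ => ?_⟩, fun θ w B a hθ hB h1 hw => ?_⟩
  · rw [abs_of_nonneg (Run7.h911.ST.ind_nonneg _ _ _)]
    exact Run7.h911.ST.ind_le_one _ _ _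
  have hC : ∀ v, 0 ≤ (|B| + |a|) + w v := by
    intro v
    have h2 := (abs_le.1 (hB v)).1
    have h3 := le_abs_self B
    have h4 := abs_nonneg a
    linarith
  have ha : 0 ≤ (|B| + |a|) + a := by
    have h3 := abs_nonneg B
    have h4 := neg_abs_le a
    linarith
  have e1 := equi hθ hC ha (shift_law (|B| + |a|) h1 hw) h0 hst ht
  have e2 := equi hθ (g := fun _ => 1) (a0 := 1) (fun _ => zero_le_one) zero_le_one (one_law h1) h0 hst ht
  exact unshift e1 e2

/-- What is used of `m` cuspidal newforms `f_i` of weights `k_i ≥ 2` (classical ones, `K = ℚ`, or Hilbert modular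
forms over the totally real field `K`, with the condition on the weights at every infinite place), without
complex multiplication, no two of which are twists of each other. `θ i v` is the angle of the `i`-th form at `v` (the
normalised eigenvalue is `2 cos (θ i v)`); at the finitely many bad primes the angles are arbitrary.
For `n ≠ 0` with all but at most two entries smaller than `D`, the `L`-function of `⊗_i Sym^{n_i} f_i`, in
the analytic normalisation, has local continuations to the points of the line `Re s = 1`, without zeros and poles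
there. This is known if there is no relation `∑ c_i (k_i - 1) = 0` with integers `c_i`, not all zero, but at least one
of them zero, such that `|c_i| < D` for all `i` with at most one exception (for `m = 3`: if the quotients of `k_i - 1`
and of `k_j - 1` by their greatest common divisor are `≥ D` for all `i ≠ j`; for `m = 2` there is no condition):
if `n_i < D` for `i ≠ p, q`, then the tensor product of the `Sym^{n_i} f_i` with `i ≠ p` has distinct
Hodge-Tate weights, so it is potentially automorphic, over the same totally real field as `Sym^{n_p} f_p`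
(Barnet-Lamb, Gee, Geraghty, Taylor); the theorems of Jacquet, Piatetski-Shapiro, Shalika and Shahidi on
Rankin-Selberg `L`-functions and Brauer's theorem give the statement. -/
structure Forms (D : ℕ) (θ : Fin m → HeightOneSpectrum (𝓞 K) → ℝ) : Prop where
  /-- the angles -/
  angle : ∀ i v, θ i v ∈ Set.Icc 0 Real.pi
  /-- the `L`-functions -/
  regular : ∀ n : Fin m → ℕ, n ≠ 0 → (∃ p q, ∀ i, i ≠ p → i ≠ q → n i < D) → LRegular θ n

variable {θ : Fin m → HeightOneSpectrum (𝓞 K) → ℝ} {D : ℕ}

theorem law_n (h : Forms D θ) {p q : Fin m} {n : Fin m → ℕ} (hn : ∀ i, i ≠ p → i ≠ q → n i < D) :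
    Tendsto (avg fun v => ∏ i, U (n i) (θ i v)) atTop (𝓝 (if n = 0 then 1 else 0)) := by
  by_cases h0 : n = 0
  · rw [if_pos h0]
    refine (avg_one (K := K)).congr fun N => ?_
    congr 1
    funext v
    rw [h0]
    simp [U_zero]
  · rw [if_neg h0]
    exact avg_tendsto (h.regular n h0 ⟨p, q, hn⟩)

theorem prod_update (F : Fin m → ℕ → ℝ) (hF : ∀ i, F i 0 = 1) {n : Fin m → ℕ} {q : Fin m} (hq : n q = 0)
    (b : ℕ) : ∏ i, F i (Function.update n q b i) = (∏ i, F i (n i)) * F q b := by
  classical
  have : ∀ i, F i (Function.update n q b i) = F i (n i) * (if i = q then F q b else 1) := by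
    intro i
    by_cases h : i = q
    · subst h
      rw [Function.update_self, if_pos rfl, hq, hF, one_mul]
    · rw [Function.update_of_ne h, if_neg h, mul_one]
  simp only [this]
  rw [Finset.prod_mul_distrib, Finset.prod_ite_eq' Finset.univ q, if_pos (Finset.mem_univ q)]

theorem update_eq_zero {n : Fin m → ℕ} {q : Fin m} (hq : n q = 0) (b : ℕ) :
    Function.update n q b = 0 ↔ n = 0 ∧ b = 0 := by
  constructor
  · intro h
    have h1 := congrFun h q
    rw [Function.update_self] at h1
    have hb : b = 0 := h1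
    refine ⟨?_, hb⟩
    funext i
    by_cases hi : i = q
    · rw [hi, hq]
      rfl
    · have := congrFun h i
      rwa [Function.update_of_ne hi] at this
  · rintro ⟨h, hb⟩
    subst h
    subst hb
    funext i
    by_cases hi : i = q
    · rw [hi, Function.update_self]
      rfl
    · rw [Function.update_of_ne hi]

theorem single_law (hD : 0 < D) (h : Forms D θ) (p : Fin m) (k : ℕ) (hk : 1 ≤ k) :
    Tendsto (avg fun v => U k (θ p v)) atTop (𝓝 0) := by
  have h1 := law_n h (p := p) (q := p) (n := Function.update 0 p k) (fun i hi _ => by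
    rw [Function.update_of_ne hi]
    exact hD)
  rw [if_neg (fun h0 => by
    have := (update_eq_zero (n := 0) rfl k).1 h0
    omega)] at h1
  refine h1.congr fun N => ?_
  congr 1
  funext v
  rw [prod_update (fun i k => U k (θ i v)) (fun i => U_zero _) rfl]
  simp [U_zero]

theorem two_law (_ : 0 < D) (h : Forms D θ) {p q : Fin m} (hpq : p ≠ q) {n : Fin m → ℕ} (hp : n p = 0)
    (hq : n q = 0) (hn : ∀ i, n i < D) (a b : ℕ) :
    Tendsto (avg fun v => ((∏ i, U (n i) (θ i v)) * U b (θ q v)) * U a (θ p v)) atTop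
      (𝓝 (if a = 0 then (if n = 0 ∧ b = 0 then 1 else 0) else 0)) := by
  have hp' : Function.update n q b p = 0 := by rw [Function.update_of_ne hpq, hp]
  have h1 := law_n h (p := p) (q := q) (n := Function.update (Function.update n q b) p a)
    (fun i hip hiq => by
      rw [Function.update_of_ne hip, Function.update_of_ne hiq]
      exact hn i)
  have e : (if Function.update (Function.update n q b) p a = 0 then (1 : ℝ) else 0) =
      if a = 0 then (if n = 0 ∧ b = 0 then 1 else 0) else 0 := by
    rw [← ite_and]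
    refine if_congr ?_ rfl rfl
    rw [update_eq_zero hp', update_eq_zero hq, and_comm]
  rw [e] at h1
  refine h1.congr fun N => ?_
  congr 1
  funext v
  rw [prod_update (fun i k => U k (θ i v)) (fun i => U_zero _) hp',
    prod_update (fun i k => U k (θ i v)) (fun i => U_zero _) hq]

theorem bound_n (_ : Forms D θ) (n : Fin m → ℕ) (v : HeightOneSpectrum (𝓞 K)) :
    |∏ i, U (n i) (θ i v)| ≤ ∏ i, ((n i : ℝ) + 1) := by
  rw [Finset.abs_prod]
  exact Finset.prod_le_prod (fun i _ => abs_nonneg _) fun i _ => Run7.h911.ST.abs_U_le _ _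

theorem adm_law (hD : 0 < D) (h : Forms D θ) {p q : Fin m} (hpq : p ≠ q) {n : Fin m → ℕ} (hp : n p = 0)
    (hq : n q = 0) (hn : ∀ i, n i < D) {f g : ℝ → ℝ} {Lf Lg : ℝ} (hf : Adm K f Lf) (hg : Adm K g Lg) :
    Tendsto (avg fun v => ((∏ i, U (n i) (θ i v)) * f (θ p v)) * g (θ q v)) atTop
      (𝓝 (((if n = 0 then 1 else 0) * Lf) * Lg)) := by
  obtain ⟨B, hB⟩ := hf.bound
  have hP : ∀ v, |∏ i, U (n i) (θ i v)| ≤ ∏ i, ((n i : ℝ) + 1) := bound_n h n
  have hP0 : (0 : ℝ) ≤ ∏ i, ((n i : ℝ) + 1) := Finset.prod_nonneg fun i _ => by positivity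
  have step2 : ∀ b : ℕ, Tendsto (avg fun v => ((∏ i, U (n i) (θ i v)) * U b (θ q v)) * f (θ p v)) atTop
      (𝓝 ((if n = 0 ∧ b = 0 then 1 else 0) * Lf)) := by
    intro b
    refine hf.law (θ p) (fun v => (∏ i, U (n i) (θ i v)) * U b (θ q v))
      ((∏ i, ((n i : ℝ) + 1)) * (b + 1)) _ (h.angle p) (fun v => ?_) (single_law hD h p) fun k => ?_
    · rw [abs_mul]
      exact mul_le_mul (hP v) (Run7.h911.ST.abs_U_le _ _) (abs_nonneg _) hP0
    · exact two_law hD h hpq hp hq hn k b
  refine hg.law (θ q) (fun v => (∏ i, U (n i) (θ i v)) * f (θ p v)) ((∏ i, ((n i : ℝ) + 1)) * B) _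
    (h.angle q) (fun v => ?_) (single_law hD h q) fun k => ?_
  · rw [abs_mul]
    exact mul_le_mul (hP v) (hB _ (h.angle p v)) (abs_nonneg _) hP0
  · have h1 := step2 k
    have e : (if n = 0 ∧ k = 0 then (1 : ℝ) else 0) * Lf =
        if k = 0 then (if n = 0 then 1 else 0) * Lf else 0 := by
      by_cases hk : k = 0
      · simp [hk]
      · simp [hk]
    rw [e] at h1
    refine h1.congr fun N => ?_
    congr 1
    funext v
    ring

theorem avg_sum' {ι : Type*} (s : Finset ι) (f : ι → HeightOneSpectrum (𝓞 K) → ℝ) (N : ℕ) :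
    avg (fun v => ∑ i ∈ s, f i v) N = ∑ i ∈ s, avg (f i) N := by
  unfold avg
  rw [Finset.sum_comm, Finset.sum_div]

/-- **The exact law.** Two arbitrary test functions, the other ones of degree `< D`. -/
theorem prod_law (hD : 0 < D) (h : Forms D θ) {p q : Fin m} (hpq : p ≠ q) {F : Fin m → ℝ → ℝ} {Λ : Fin m → ℝ}
    (hp : Adm K (F p) (Λ p)) (hq : Adm K (F q) (Λ q))
    (hF : ∀ i, i ≠ p → i ≠ q → Tri D (F i) ∧ Λ i = Lam (F i)) :
    Tendsto (avg fun v => ∏ i, F i (θ i v)) atTop (𝓝 (∏ i, Λ i)) := by
  classical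
  -- the coefficients
  have hb : ∀ i, ∃ b : ℕ → ℝ, (i ≠ p → i ≠ q → ∀ x, F i x = ∑ k ∈ Finset.range D, b k * U k x) ∧
      ((i = p ∨ i = q) → b = fun k => if k = 0 then 1 else 0) := by
    intro i
    by_cases hi : i = p ∨ i = q
    · refine ⟨fun k => if k = 0 then 1 else 0, fun h1 h2 => ?_, fun _ => rfl⟩
      rcases hi with hi | hi
      · exact absurd hi h1
      · exact absurd hi h2
    · push Not at hi
      obtain ⟨b, hb⟩ := (hF i hi.1 hi.2).1
      exact ⟨b, fun _ _ => hb, fun h' => by rcases h' with h' | h' <;> [exact absurd h' hi.1; exact absurd h' hi.2]⟩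
  choose b hb1 hb2 using hb
  set G : Fin m → ℝ → ℝ := fun i x => ∑ k ∈ Finset.range D, b i k * U k x with hG
  have hG1 : ∀ i, (i = p ∨ i = q) → ∀ x, G i x = 1 := by
    intro i hi x
    rw [hG]
    beta_reduce
    rw [hb2 i hi, Finset.sum_eq_single 0]
    · simp [U_zero]
    · intro k _ hk
      simp [hk]
    · intro h0
      exact absurd (Finset.mem_range.2 hD) h0
  have hprod : ∀ v, ∏ i, F i (θ i v) = (∏ i, G i (θ i v)) * F p (θ p v) * F q (θ q v) := by
    intro v
    have : ∀ i, F i (θ i v) = (G i (θ i v) * (if i = p then F p (θ p v) else 1)) *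
        (if i = q then F q (θ q v) else 1) := by
      intro i
      by_cases hip : i = p
      · subst hip
        rw [hG1 i (Or.inl rfl), if_pos rfl, if_neg hpq]
        ring
      · by_cases hiq : i = q
        · subst hiq
          rw [hG1 i (Or.inr rfl), if_neg hip, if_pos rfl]
          ring
        · rw [if_neg hip, if_neg hiq, hb1 i hip hiq]
          ring
    rw [Finset.prod_congr rfl fun i _ => this i, Finset.prod_mul_distrib, Finset.prod_mul_distrib,
      Finset.prod_ite_eq' Finset.univ p, if_pos (Finset.mem_univ p), Finset.prod_ite_eq' Finset.univ q,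
      if_pos (Finset.mem_univ q)]
  have hexp : ∀ v, ∏ i, F i (θ i v) = ∑ n ∈ Fintype.piFinset (fun _ : Fin m => Finset.range D),
      (∏ i, b i (n i)) * (((∏ i, U (n i) (θ i v)) * F p (θ p v)) * F q (θ q v)) := by
    intro v
    rw [hprod, hG]
    beta_reduce
    rw [Finset.prod_univ_sum, Finset.sum_mul, Finset.sum_mul]
    refine Finset.sum_congr rfl fun n _ => ?_
    rw [Finset.prod_mul_distrib]
    ring
  have hlim : ∀ n ∈ Fintype.piFinset (fun _ : Fin m => Finset.range D),
      Tendsto (fun N => (∏ i, b i (n i)) *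
        avg (fun v => ((∏ i, U (n i) (θ i v)) * F p (θ p v)) * F q (θ q v)) N) atTop
        (𝓝 ((∏ i, b i (n i)) * (((if n = 0 then 1 else 0) * Λ p) * Λ q))) := by
    intro n hn
    have hn' : ∀ i, n i < D := fun i => Finset.mem_range.1 (Fintype.mem_piFinset.1 hn i)
    by_cases hp0 : n p = 0
    · by_cases hq0 : n q = 0
      · exact (adm_law hD h hpq hp0 hq0 hn' hp hq).const_mul _
      · have : ∏ i, b i (n i) = 0 := Finset.prod_eq_zero (Finset.mem_univ q) (by
          rw [hb2 q (Or.inr rfl)]
          simp [hq0])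
        simp [this]
    · have : ∏ i, b i (n i) = 0 := Finset.prod_eq_zero (Finset.mem_univ p) (by
        rw [hb2 p (Or.inl rfl)]
        simp [hp0])
      simp [this]
  have hsum := tendsto_finsetSum _ hlim
  have hval : ∑ n ∈ Fintype.piFinset (fun _ : Fin m => Finset.range D),
      (∏ i, b i (n i)) * (((if n = 0 then 1 else 0) * Λ p) * Λ q) = ∏ i, Λ i := by
    rw [Finset.sum_eq_single 0]
    · rw [if_pos rfl, one_mul]
      have hΛ : ∀ i, Λ i = (b i 0 * (if i = p then Λ p else 1)) * (if i = q then Λ q else 1) := by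
        intro i
        by_cases hip : i = p
        · subst hip
          rw [hb2 i (Or.inl rfl), if_pos rfl, if_neg hpq]
          simp
        · by_cases hiq : i = q
          · subst hiq
            rw [hb2 i (Or.inr rfl), if_neg hip, if_pos rfl]
            simp
          · rw [if_neg hip, if_neg hiq, (hF i hip hiq).2]
            have hfun : F i = fun x => ∑ k ∈ Finset.range D, b i k * U k x := funext (hb1 i hip hiq)
            rw [hfun, Run7.h911.VS.Lam_sum (f := fun k x => b i k * U k x) _ fun k _ =>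
              continuous_const.mul (U_cont k)]
            rw [Finset.sum_eq_single 0]
            · rw [Run7.h911.ST.Lam_mul, Lam_U, if_pos rfl]
              ring
            · intro k _ hk
              rw [Run7.h911.ST.Lam_mul, Lam_U, if_neg hk, mul_zero]
            · intro h0
              exact absurd (Finset.mem_range.2 hD) h0
      rw [Finset.prod_congr rfl fun i _ => hΛ i, Finset.prod_mul_distrib, Finset.prod_mul_distrib,
        Finset.prod_ite_eq' Finset.univ p, if_pos (Finset.mem_univ p), Finset.prod_ite_eq' Finset.univ q,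
        if_pos (Finset.mem_univ q)]
      simp only [Pi.zero_apply]
      ring
    · intro n _ hn
      rw [if_neg hn]
      ring
    · intro h0
      refine absurd (Fintype.mem_piFinset.2 fun i => ?_) h0
      exact Finset.mem_range.2 hD
  rw [hval] at hsum
  refine hsum.congr fun N => ?_
  have : (fun v => ∏ i, F i (θ i v)) = fun v => ∑ n ∈ Fintype.piFinset (fun _ : Fin m => Finset.range D),
      (∏ i, b i (n i)) * (((∏ i, U (n i) (θ i v)) * F p (θ p v)) * F q (θ q v)) := funext hexp
  rw [this, avg_sum']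
  exact Finset.sum_congr rfl fun n _ => by rw [avg_mul]

end Run7.h911.MW
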