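import Pool.Agent.Run7.h911.ST1
import Pool.Agent.TH553.ST.Taub3

/-!
# Natural densities: averages over the primes of a number field from `L`-functions
-/

set_option autoImplicit false

namespace Run7.h911.NT

open NumberField IsDedekindDomain Filter Topology Complex
open Pool.Agent.W540.BE (upto nm)
open Pool.Agent.TH553.ST (mn taub)
open Run7.h911.ST (U U_zero U_one U_rec)

variable {K : Type} [Field K] [NumberField K] {m : ℕ}

/-- the parameters of the tensor product of the symmetric powers `Sym ^ (n i)` of the elements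
`diag (e^{i t_i}, e^{-i t_i})` -/
noncomputable def par (n : Fin m → ℕ) (t : Fin m → ℝ) (j : ∀ i, Fin (n i + 1)) : ℂ :=
  ∏ i, Complex.exp (((((n i : ℝ) - 2 * ((j i : ℕ) : ℝ)) * t i : ℝ) : ℂ) * I)

/-- `L(s, ⊠ Sym ^ (n i))` has no zero and no pole on the line `Re s = 1` (local continuations). -/
def LRegular (θ : Fin m → HeightOneSpectrum (𝓞 K) → ℝ) (n : Fin m → ℕ) : Prop :=
  ∀ τ : ℝ, ∃ Λ : ℂ → ℂ, AnalyticAt ℂ Λ (1 + τ * I) ∧ Λ (1 + τ * I) ≠ 0 ∧
    ∀ᶠ s in 𝓝 ((1 : ℂ) + τ * I), 1 < s.re →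
      Λ s = ∏' v : HeightOneSpectrum (𝓞 K),
        (∏ j : ∀ i, Fin (n i + 1), (1 - par n (fun i => θ i v) j * ((nm K v : ℕ) : ℂ) ^ (-s)))⁻¹

theorem norm_par (n : Fin m → ℕ) (t : Fin m → ℝ) (j : ∀ i, Fin (n i + 1)) : ‖par n t j‖ = 1 := by
  unfold par
  rw [norm_prod]
  exact Finset.prod_eq_one fun i _ => Complex.norm_exp_ofReal_mul_I _

/-- the sum of the parameters of one symmetric power -/
noncomputable def D (n : ℕ) (t : ℝ) : ℂ :=
  ∑ j : Fin (n + 1), Complex.exp (((((n : ℝ) - 2 * ((j : ℕ) : ℝ)) * t : ℝ) : ℂ) * I)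

theorem D_succ (n : ℕ) (t : ℝ) :
    D (n + 1) t = Complex.exp ((((n + 1 : ℝ) * t : ℝ) : ℂ) * I) + Complex.exp (((-t : ℝ) : ℂ) * I) * D n t := by
  unfold D
  rw [Fin.sum_univ_succ, Finset.mul_sum]
  congr 1
  · congr 3
    push_cast
    simp
  · refine Finset.sum_congr rfl fun j _ => ?_
    rw [← Complex.exp_add]
    congr 1
    rw [Fin.val_succ]
    push_cast
    ring

theorem D_succ' (n : ℕ) (t : ℝ) :
    D (n + 1) t = Complex.exp (((t : ℝ) : ℂ) * I) * D n t + Complex.exp (((-((n + 1 : ℝ) * t) : ℝ) : ℂ) * I) := by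
  unfold D
  rw [Fin.sum_univ_castSucc, Finset.mul_sum]
  congr 1
  · refine Finset.sum_congr rfl fun j _ => ?_
    rw [← Complex.exp_add]
    congr 1
    rw [Fin.val_castSucc]
    push_cast
    ring
  · congr 3
    rw [Fin.val_last]
    push_cast
    ring

theorem D_eq (n : ℕ) (t : ℝ) : D n t = (U n t : ℂ) := by
  have key : ∀ k, D k t = (U k t : ℂ) ∧ D (k + 1) t = (U (k + 1) t : ℂ) := by
    intro k
    induction k with
    | zero =>
      have h0 : D 0 t = (U 0 t : ℂ) := by
        unfold D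
        rw [U_zero]
        simp
      refine ⟨h0, ?_⟩
      rw [D_succ, h0, U_zero, U_one]
      push_cast
      rw [mul_one, zero_add, one_mul, Complex.cos]
      rw [neg_mul]
      ring
    | succ k ih =>
      refine ⟨ih.2, ?_⟩
      have h1 := D_succ' (k + 1) t
      have h2 := D_succ k t
      have h3 := D_succ' k t
      have e1 : Complex.exp (((-t : ℝ) : ℂ) * I) * D (k + 1) t =
          D k t + Complex.exp (((-(((k + 1 : ℕ) + 1 : ℝ) * t) : ℝ) : ℂ) * I) := by
        rw [h3, mul_add, ← mul_assoc, ← Complex.exp_add, ← Complex.exp_add]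
        congr 1
        · have : ((-t : ℝ) : ℂ) * I + ((t : ℝ) : ℂ) * I = 0 := by push_cast; ring
          rw [this, Complex.exp_zero, one_mul]
        · congr 1
          push_cast
          ring
      have e2 : (2 * Complex.cos t) = Complex.exp (((t : ℝ) : ℂ) * I) + Complex.exp (((-t : ℝ) : ℂ) * I) := by
        rw [Complex.cos]
        push_cast
        rw [neg_mul]
        ring
      have e3 : D (k + 2) t = 2 * Complex.cos t * D (k + 1) t - D k t := by
        rw [e2, add_mul, e1, h1]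
        ring
      rw [show k + 1 + 1 = k + 2 by ring, e3, ih.1, ih.2, U_rec]
      push_cast
      ring
  exact (key n).1

theorem sum_par (n : Fin m → ℕ) (t : Fin m → ℝ) :
    ∑ j : ∀ i, Fin (n i + 1), par n t j = ((∏ i, U (n i) (t i) : ℝ) : ℂ) := by
  unfold par
  have h := (Finset.prod_univ_sum (t := fun i : Fin m => (Finset.univ : Finset (Fin (n i + 1))))
    (f := fun i (k : Fin (n i + 1)) =>
      Complex.exp (((((n i : ℝ) - 2 * ((k : ℕ) : ℝ)) * t i : ℝ) : ℂ) * I))).symm
  rw [Fintype.piFinset_univ] at h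
  rw [h]
  push_cast
  refine Finset.prod_congr rfl fun i _ => ?_
  rw [← D_eq]
  unfold D
  push_cast
  rfl

/-- the average over the primes of norm at most `N` -/
noncomputable def avg (f : HeightOneSpectrum (𝓞 K) → ℝ) (N : ℕ) : ℝ :=
  (∑ v ∈ upto K N, f v) / (upto K N).card

theorem avg_tendsto {θ : Fin m → HeightOneSpectrum (𝓞 K) → ℝ} {n : Fin m → ℕ} (h : LRegular θ n) :
    Tendsto (avg fun v => ∏ i, U (n i) (θ i v)) atTop (𝓝 0) := by
  set b := Fintype.card (∀ i, Fin (n i + 1)) with hb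
  set e : (∀ i, Fin (n i + 1)) ≃ Fin b := Fintype.equivFin _ with he
  have h1 := taub (K := K) (b := b) (α := fun v k => par n (fun i => θ i v) (e.symm k))
    (fun v k => norm_par _ _ _)
    (L := fun s => ∏' v : HeightOneSpectrum (𝓞 K),
        (∏ j : ∀ i, Fin (n i + 1), (1 - par n (fun i => θ i v) j * ((nm K v : ℕ) : ℂ) ^ (-s)))⁻¹)
    (fun s _ => by
      refine tprod_congr fun v => ?_
      congr 1
      exact (Equiv.prod_comp e.symm fun j => (1 - par n (fun i => θ i v) j *
        ((nm K v : ℕ) : ℂ) ^ (-s))).symm) h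
  have h2 : ∀ v : HeightOneSpectrum (𝓞 K), ∑ k, par n (fun i => θ i v) (e.symm k) =
      ((∏ i, U (n i) (θ i v) : ℝ) : ℂ) := by
    intro v
    rw [Equiv.sum_comp e.symm fun j => par n (fun i => θ i v) j, sum_par]
  have h3 := (Complex.continuous_re.tendsto _).comp h1
  rw [Complex.zero_re] at h3
  refine h3.congr fun N => ?_
  simp only [Function.comp_apply, mn, h2, avg]
  rw [← Complex.ofReal_sum, Complex.real_smul, ← Complex.ofReal_mul, Complex.ofReal_re]
  ring

end Run7.h911.NT
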