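import Pool.Agent.Run7.h911.PQ11
import Pool.Agent.R482.GB.Low

set_option autoImplicit false

/-! # The upper bound with a nonnegative spectrum taken away (helper911) -/

namespace Run7.h911.PQ

open Filter Topology MeasureTheory Complex H370
open Pool.Agent.Y745.SW
open Pool.Agent.R482.GB (CC)

noncomputable section

/-- the test function on the unit interval -/
def PP (R Q : ℝ → ℝ) (A x : ℝ) : ℝ := A * (R (A * x) - Q (A * x))

lemma PP_cont {R Q : ℝ → ℝ} {κ : ℝ} (hR : TF R κ) (hQ : Continuous Q) (A : ℝ) : Continuous (PP R Q A) := by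
  unfold PP
  have := hR.cont
  fun_prop

lemma PP_int {R Q : ℝ → ℝ} {κ : ℝ} (hR : TF R κ) (h1 : κ < 1) (hQ : Continuous Q) {A : ℝ} (hA : 1 ≤ A)
    {g : ℝ → ℝ} (hg : Continuous g) :
    ∫ x in (0:ℝ)..1, PP R Q A x * g (A * x) = (∫ z in (0:ℝ)..1, R z * g z) - ∫ z in (0:ℝ)..A, Q z * g z := by
  have hRc := hR.cont
  have h2 := intervalIntegral.mul_integral_comp_mul_left (a := (0 : ℝ)) (b := 1) (c := A)
    (f := fun z : ℝ => (R z - Q z) * g z)
  rw [mul_zero, mul_one, ← intervalIntegral.integral_const_mul] at h2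
  have e1 : ∫ x in (0:ℝ)..1, PP R Q A x * g (A * x) = ∫ x in (0:ℝ)..1, A * ((R (A * x) - Q (A * x)) * g (A * x)) :=
    intervalIntegral.integral_congr fun x _ => by
      show PP R Q A x * g (A * x) = A * ((R (A * x) - Q (A * x)) * g (A * x))
      unfold PP
      ring
  rw [e1, h2]
  have hiR : ∀ u v : ℝ, IntervalIntegrable (fun z => R z * g z) volume u v := fun u v =>
    (hRc.mul hg).intervalIntegrable u v
  have hiQ : ∀ u v : ℝ, IntervalIntegrable (fun z => Q z * g z) volume u v := fun u v =>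
    (hQ.mul hg).intervalIntegrable u v
  have e2 : ∫ z in (0:ℝ)..A, (R z - Q z) * g z = (∫ z in (0:ℝ)..A, R z * g z) - ∫ z in (0:ℝ)..A, Q z * g z := by
    rw [← intervalIntegral.integral_sub (hiR 0 A) (hiQ 0 A)]
    exact intervalIntegral.integral_congr fun z _ => by
      show (R z - Q z) * g z = R z * g z - Q z * g z
      ring
  have e3 : ∫ z in (1:ℝ)..A, R z * g z = 0 := by
    rw [intervalIntegral.integral_congr (g := fun _ => (0 : ℝ))]
    · simp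
    · intro x hx
      rw [Set.uIcc_of_le hA] at hx
      show R x * g x = 0
      rw [hR.supp x ((h1.le.trans hx.1).trans (le_abs_self x)), zero_mul]
  rw [e2, ← intervalIntegral.integral_add_adjacent_intervals (hiR 0 1) (hiR 1 A), e3, add_zero]

lemma PP_rh {R Q : ℝ → ℝ} {κ : ℝ} (hR : TF R κ) (h1 : κ < 1) (hQ : Continuous Q) {A : ℝ} (hA : 1 ≤ A) (v : ℝ) :
    rh (PP R Q A) (A * v) = rh R v - CC Q A v := by
  unfold rh CC
  have h2 := PP_int hR h1 hQ hA (g := fun z => Real.cos (v * z)) (by fun_prop)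
  have e : ∫ x in (0:ℝ)..1, PP R Q A x * Real.cos (A * v * x) =
      ∫ x in (0:ℝ)..1, PP R Q A x * Real.cos (v * (A * x)) :=
    intervalIntegral.integral_congr fun x _ => by
      show PP R Q A x * Real.cos (A * v * x) = PP R Q A x * Real.cos (v * (A * x))
      rw [show A * v * x = v * (A * x) by ring]
  rw [e, h2]
  ring

lemma PP_mono {R Q : ℝ → ℝ} {κ : ℝ} (hR : TF R κ) {B : ℝ → ℝ} (hB : Continuous B) (h1 : κ < 1) (hQ : Continuous Q)
    {A : ℝ} (hA : 1 ≤ A) (hQ0 : ∀ x ∈ Set.Icc (0:ℝ) A, 0 ≤ Q x) {e : ℝ} (he : 0 < e) (he1 : e < 1) (hκ : κ ≤ 1 - e)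
    {a L U1 U2 t1 t2 : ℝ} {S : Set ℝ} (hS : MeasurableSet S) (hSI : S ⊆ Set.Icc t1 t2) :
    ∫ t in S, (2 * ∫ x in (0:ℝ)..1, PP R Q A x * ‖St B a U1 U2 (A * L * x) t‖ ^ 2) ≤
      ∫ t in S, (2 * ∫ x in (0:ℝ)..1, rs R e x * ‖St B a U1 U2 ((1 - e) * L * x) t‖ ^ 2) := by
  have hcI : ∀ f : ℝ → ℝ, Continuous f → IntegrableOn f S := fun f hf =>
    (hf.continuousOn.integrableOn_compact isCompact_Icc).mono_set hSI
  have hcc : ∀ (P : ℝ → ℝ) (Λ : ℝ), Continuous P →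
      Continuous (fun t : ℝ => 2 * ∫ x in (0:ℝ)..1, P x * ‖St B a U1 U2 (Λ * x) t‖ ^ 2) := by
    intro P Λ hP
    refine continuous_const.mul ?_
    apply intervalIntegral.continuous_parametric_intervalIntegral_of_continuous'
    have h1 := (St_cont hB a U1 U2).comp (f := fun p : ℝ × ℝ => (Λ * p.2, p.1)) (by fun_prop)
    simp only [Function.comp_def] at h1
    exact (hP.comp continuous_snd).mul (h1.norm.pow 2)
  refine setIntegral_mono_on (hcI _ (hcc _ _ (PP_cont hR hQ A))) (hcI _ (hcc _ _ (rs_cont hR e))) hS fun t _ => ?_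
  have hgc : Continuous fun z : ℝ => ‖St B a U1 U2 (L * z) t‖ ^ 2 := by
    have h1 := (St_cont hB a U1 U2).comp (f := fun z : ℝ => (L * z, t)) (by fun_prop)
    simp only [Function.comp_def] at h1
    exact h1.norm.pow 2
  have a1 := PP_int hR h1 hQ hA hgc
  have a2 := rs_int hR he he1 hκ (fun z : ℝ => ‖St B a U1 U2 (L * z) t‖ ^ 2) hgc
  have e1 : ∫ x in (0:ℝ)..1, PP R Q A x * ‖St B a U1 U2 (A * L * x) t‖ ^ 2 =
      ∫ x in (0:ℝ)..1, PP R Q A x * ‖St B a U1 U2 (L * (A * x)) t‖ ^ 2 :=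
    intervalIntegral.integral_congr fun x _ => by
      show PP R Q A x * ‖St B a U1 U2 (A * L * x) t‖ ^ 2 = PP R Q A x * ‖St B a U1 U2 (L * (A * x)) t‖ ^ 2
      rw [show A * L * x = L * (A * x) by ring]
  have e2 : ∫ x in (0:ℝ)..1, rs R e x * ‖St B a U1 U2 ((1 - e) * L * x) t‖ ^ 2 =
      ∫ x in (0:ℝ)..1, rs R e x * ‖St B a U1 U2 (L * ((1 - e) * x)) t‖ ^ 2 :=
    intervalIntegral.integral_congr fun x _ => by
      show rs R e x * ‖St B a U1 U2 ((1 - e) * L * x) t‖ ^ 2 = rs R e x * ‖St B a U1 U2 (L * ((1 - e) * x)) t‖ ^ 2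
      rw [show (1 - e) * L * x = L * ((1 - e) * x) by ring]
  have h3 : 0 ≤ ∫ z in (0:ℝ)..A, Q z * ‖St B a U1 U2 (L * z) t‖ ^ 2 :=
    intervalIntegral.integral_nonneg (by linarith) fun z hz => mul_nonneg (hQ0 z hz) (sq_nonneg _)
  rw [e1, e2, a1, a2]
  linarith

/-- **the upper bound over the interior zeros of a set** -/
theorem upperQ (hRH : SP.RHs) (hKER : P_KER) (hMN : P_MN) (hDF : P_DF) (hEF : P_EF) (hSM : P_SM)
    {R : ℝ → ℝ} {κ : ℝ} (hR : TF R κ) (h0 : 0 < κ) (h1 : κ < 1) {Q : ℝ → ℝ} {A : ℝ}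
    (hQ : Continuous Q) (hA : 1 ≤ A) (hQ0 : ∀ x ∈ Set.Icc (0:ℝ) A, 0 ≤ Q x) (hQR : ∀ w, CC Q A w ≤ rh R w)
    (ε k : ℝ) (hε : 0 < ε) (hk : 0 < k) :
    ∃ (h εs τ : ℝ) (B Rs : ℝ → ℝ), 0 < h ∧ 0 < εs ∧ εs < 1 / 2 ∧ 0 < τ ∧ τ ≤ εs / 4 ∧ Continuous B ∧
      Continuous Rs ∧ (∀ x ∈ Set.Icc (0:ℝ) 1, 0 ≤ Rs x) ∧
      ∀ (c : ℕ → ℂ) (C0 : ℝ), (∀ n, ‖c n‖ ≤ ArithmeticFunction.vonMangoldt n) →
        (∃ K0 : ℝ, ∀ᶠ T : ℝ in atTop, Zq Rs c B εs τ (4 * τ) T ≤ K0) ∧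
        ∀ᶠ T : ℝ in atTop, ∀ U1 U2 : ℝ, EFD c C0 T U1 U2 → ∀ S : Set ℝ, MeasurableSet S →
          S ⊆ Set.Icc (T + Real.log T) (2 * T - Real.log T) →
          (∫ t in S, Dq Rs c B εs τ (4 * τ) T t) ≤ volume.real S * Zq Rs c B εs τ (4 * τ) T + T →
          ∀ F : Finset ℂ, F ⊆ Zf riemannZeta U1 U2 →
          (∀ s ∈ F, Set.Icc (s.im - h / Real.log T) (s.im + h / Real.log T) ⊆ S) →
          ∑ s ∈ F, ∑ s' ∈ (Zf riemannZeta U1 U2).filter (fun s' => |s'.im - s.im| ≤ k / Real.log T),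
            (mult riemannZeta s : ℝ) * (mult riemannZeta s' : ℝ) * (rh R (Real.log T * (s.im - s'.im)) -
              CC Q A (Real.log T * (s.im - s'.im))) ≤
          (mo R * volume.real S + ε * T) * (Real.log T / (2 * Real.pi)) := by
  classical
  have hpi := Real.pi_pos
  -- the rescaling
  obtain ⟨εs, hεsd⟩ : ∃ εs, εs = min ((1 - κ) / 2) (1 / 4) := ⟨_, rfl⟩
  have hεs0 : 0 < εs := by rw [hεsd]; apply lt_min <;> linarith
  have hεs1 : εs ≤ 1 / 4 := by rw [hεsd]; exact min_le_right _ _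
  have hκs : κ ≤ 1 - εs := by
    have : εs ≤ (1 - κ) / 2 := by rw [hεsd]; exact min_le_left _ _
    linarith
  have hRs0 : ∀ x, 0 ≤ rs R εs x := fun x => mul_nonneg (by linarith) (hR.nonneg _)
  have hRsc := rs_cont hR εs
  obtain ⟨K, hK⟩ := hR.lip
  have hK0 : 0 ≤ K := by
    have := (abs_nonneg _).trans (hK 1 0)
    simpa using this
  obtain ⟨Rm, hRm⟩ : ∃ Rm : ℝ, ∀ x ∈ Set.Icc (0:ℝ) 1, rs R εs x ≤ Rm := by
    obtain ⟨Rm, hRm⟩ := isCompact_Icc.exists_bound_of_continuousOn (s := Set.Icc (0:ℝ) 1) hRsc.continuousOn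
    exact ⟨Rm, fun x hx => (le_abs_self _).trans (hRm x hx)⟩
  have hRm0 : 0 ≤ Rm := (hRs0 0).trans (hRm 0 (by simp))
  have hRslip : ∃ K : ℝ, ∀ x y : ℝ, |rs R εs x - rs R εs y| ≤ K * |x - y| := by
    refine ⟨K, fun x y => ?_⟩
    unfold rs
    rw [← mul_sub, abs_mul, abs_of_nonneg (by linarith : 0 ≤ 1 - εs)]
    have h2 := hK ((1 - εs) * x) ((1 - εs) * y)
    rw [← mul_sub, abs_mul, abs_of_nonneg (by linarith : 0 ≤ 1 - εs)] at h2
    have h3 : K * ((1 - εs) * |x - y|) ≤ K * |x - y| := by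
      have : (1 - εs) * |x - y| ≤ 1 * |x - y| := mul_le_mul_of_nonneg_right (by linarith) (abs_nonneg _)
      rw [one_mul] at this
      exact mul_le_mul_of_nonneg_left this hK0
    calc (1 - εs) * |R ((1 - εs) * x) - R ((1 - εs) * y)| ≤ 1 * |R ((1 - εs) * x) - R ((1 - εs) * y)| :=
          mul_le_mul_of_nonneg_right (by linarith) (abs_nonneg _)
      _ ≤ _ := by rw [one_mul]; exact h2.trans h3
  obtain ⟨C, hC, hB⟩ := hKER 1
  obtain ⟨CD, hCD, hDFR⟩ := hDF (rs R εs) hRsc (fun x _ => hRs0 x) hRslip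
  obtain ⟨CS, hCS, hSM⟩ := hSM
  have hmo0 := mo_nonneg hR
  obtain ⟨R1, hR1d⟩ : ∃ R1 : ℝ, R1 = ∫ x in (0:ℝ)..1, x * R x := ⟨_, rfl⟩
  have hR10 : 0 ≤ R1 := by
    rw [hR1d]
    exact intervalIntegral.integral_nonneg (by norm_num) fun x hx => mul_nonneg hx.1 (hR.nonneg x)
  have hmo : R 0 + 2 * R1 = mo R := by rw [hR1d]; rfl
  have hR1s : ∫ x in (0:ℝ)..1, x * rs R εs x = R1 / (1 - εs) := by
    have h2 := rs_int hR hεs0 (by linarith) hκs (fun x => x) continuous_id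
    rw [eq_div_iff (by linarith), hR1d]
    rw [← intervalIntegral.integral_mul_const]
    have e1 : ∫ x in (0:ℝ)..1, x * rs R εs x * (1 - εs) = ∫ x in (0:ℝ)..1, rs R εs x * ((1 - εs) * x) :=
      intervalIntegral.integral_congr fun x _ => by
        show x * rs R εs x * (1 - εs) = rs R εs x * ((1 - εs) * x)
        ring
    rw [e1, h2]
    exact intervalIntegral.integral_congr fun x _ => mul_comm _ _
  -- the parameters
  obtain ⟨ε', hε'd⟩ : ∃ ε', ε' = min (1 / 24) (ε / (8 * (mo R + ε))) := ⟨_, rfl⟩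
  have hε'0 : 0 < ε' := by rw [hε'd]; positivity
  have hε'1 : ε' ≤ 1 / 24 := by rw [hε'd]; exact min_le_left _ _
  have hε'2 : 6 * ε' * (mo R + ε) ≤ 3 / 4 * ε := by
    have h2 : ε' ≤ ε / (8 * (mo R + ε)) := by rw [hε'd]; exact min_le_right _ _
    rw [le_div_iff₀ (by positivity)] at h2
    linarith
  obtain ⟨m, hm1, hm2⟩ : ∃ m : ℝ, 1 ≤ m ∧ C / (1 + m) ≤ ε' := by
    refine ⟨max 1 (C / ε'), le_max_left _ _, ?_⟩
    rw [div_le_iff₀ (by positivity)]
    have h2 : C / ε' ≤ max 1 (C / ε') := le_max_right _ _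
    rw [div_le_iff₀ hε'0] at h2
    nlinarith
  obtain ⟨N, hNd⟩ : ∃ N, N = m / ε' := ⟨_, rfl⟩
  have hNm : m = ε' * N := by rw [hNd]; field_simp
  have hN1 : 1 ≤ N := by
    rw [hNd, le_div_iff₀ hε'0]; linarith
  obtain ⟨B, hW⟩ := hB N hN1
  obtain ⟨η, hηd⟩ : ∃ η, η = min 1 (ε / (16 * (mo R + 1))) := ⟨_, rfl⟩
  have hη0 : 0 < η := by rw [hηd]; positivity
  have hη1 : η ≤ 1 := by rw [hηd]; exact min_le_left _ _
  have hηm : η * mo R ≤ ε / 16 := by
    have h2 : η ≤ ε / (16 * (mo R + 1)) := by rw [hηd]; exact min_le_right _ _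
    rw [le_div_iff₀ (by positivity)] at h2
    nlinarith
  obtain ⟨q, hq⟩ : ∃ q, q = (1 + 1 / η) * (2 * Rm) := ⟨_, rfl⟩
  have hq0 : 0 ≤ q := by rw [hq]; positivity
  obtain ⟨τ, hτ, hτb, hτ1, hτ2, hτ3, hτ4⟩ : ∃ τ : ℝ, 0 < τ ∧ τ ≤ εs / 4 ∧
      τ * (2 * (4 * K + CD)) ≤ ε / 16 ∧ τ * (16 * Real.pi * (q + 4)) ≤ ε ∧
      τ * (320 * Real.pi * (q * CS * C ^ 2 * N)) ≤ ε ∧ τ * k ≤ m := by
    have hC0 : 0 < C := by linarith
    have hN0 : 0 < N := by linarith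
    obtain ⟨W, hWd⟩ : ∃ W, W = 32 * (4 * K + CD) + 16 * Real.pi * (q + 4) +
      320 * Real.pi * (q * CS * C ^ 2 * N) + ε * k := ⟨_, rfl⟩
    have w1 : 0 < 32 * (4 * K + CD) := by positivity
    have w2 : 0 < 16 * Real.pi * (q + 4) := by positivity
    have w3 : 0 ≤ 320 * Real.pi * (q * CS * C ^ 2 * N) := by positivity
    have w4 : 0 ≤ ε * k := by positivity
    have hW0 : 0 < W := by rw [hWd]; linarith
    have hh : ∀ w : ℝ, w ≤ W → min (εs / 4) (ε / W) * w ≤ ε := by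
      intro w hw
      have h1 : min (εs / 4) (ε / W) ≤ ε / W := min_le_right _ _
      have h0 : 0 < min (εs / 4) (ε / W) := by positivity
      rw [le_div_iff₀ hW0] at h1
      exact (mul_le_mul_of_nonneg_left hw h0.le).trans h1
    refine ⟨min (εs / 4) (ε / W), by positivity, min_le_left _ _, ?_, ?_, ?_, ?_⟩
    · have := hh (32 * (4 * K + CD)) (by rw [hWd]; linarith)
      linarith
    · exact hh _ (by rw [hWd]; linarith)
    · exact hh _ (by rw [hWd]; linarith)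
    · have := hh (ε * k) (by rw [hWd]; linarith)
      have h2 : ε * (min (εs / 4) (ε / W) * k) ≤ ε * 1 := by linarith
      exact (le_of_mul_le_mul_left h2 hε).trans hm1
  have h4τ : 4 * τ ≤ 1 := by linarith
  have hεs2 : εs < 1 / 2 := by linarith
  refine ⟨N / τ, εs, τ, B, rs R εs, by positivity, hεs0, hεs2, hτ, hτb, hW.cont, hRsc, fun x _ => hRs0 x, ?_⟩
  intro c C0 hc
  have hZq := Zq_le (c := c) hW.cont (ε := εs) (τ := τ) (ηs := 4 * τ) hεs0 hεs2 hτ hτb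
    le_rfl h4τ hDF hRsc (fun x _ => hRs0 x) hRslip hW.even hc hDFR
  refine ⟨⟨_, hZq⟩, ?_⟩
  obtain ⟨C1, hC1, hEF⟩ := hEF εs τ hεs0 hεs2 hτ hτb c C0
  have hEF := hEF B (C * N) hW.cont hW.even hW.bd
  have hSM := hSM εs τ hεs0 hεs2 hτ hτb c C0 B (C * N) hW.cont hW.even hW.bd
  have hlog := Real.tendsto_log_atTop
  have hTl : ∀ᶠ T : ℝ in atTop, T + Real.log T ≤ 2 * T - Real.log T := by
    have h1 := Real.isLittleO_log_id_atTop.def (c := 1 / 2) (by norm_num)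
    filter_upwards [h1, eventually_ge_atTop 1] with T hT hT1
    rw [Real.norm_eq_abs, Real.norm_eq_abs, id, abs_of_pos (by linarith : 0 < T)] at hT
    have := le_abs_self (Real.log T)
    linarith
  have hsm1 : ∀ᶠ T : ℝ in atTop, C1 * (C * N) / Real.log T ≤ 1 / 2 := by
    filter_upwards [hlog.eventually_ge_atTop (2 * (C1 * (C * N)) + 1)] with T hT
    have h0 : 0 ≤ C1 * (C * N) := by positivity
    rw [div_le_iff₀ (by linarith)]
    linarith
  have hsm2 : ∀ᶠ T : ℝ in atTop, 2 * (C * N) * (Real.log T * Real.exp (-(τ * Real.log T) ^ 2 / 2)) ≤ 1 / 2 :=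
    hlog.eventually (tail_ev (C * N) τ hτ)
  have hsm3 : ∀ᶠ T : ℝ in atTop, 1 - ε' ≤ Real.exp (-(N / (τ * Real.log T)) ^ 2 / 2) := by
    filter_upwards [hlog.eventually_ge_atTop (N / τ / ε' + 1)] with T hT
    have h5 : 0 < N / τ / ε' := by positivity
    have hL0 : 0 < Real.log T := by linarith
    have h6 : N / (τ * Real.log T) ≤ ε' := by
      rw [div_le_iff₀ (by positivity)]
      have h7 : N / τ / ε' ≤ Real.log T := by linarith
      rw [div_le_iff₀ hε'0, div_le_iff₀ hτ] at h7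
      linarith
    have h7 : 0 ≤ N / (τ * Real.log T) := by positivity
    have h8 := Real.add_one_le_exp (-(N / (τ * Real.log T)) ^ 2 / 2)
    nlinarith
  filter_upwards [hZq, hEF, hSM, hTl, hsm1, hsm2, hsm3, hlog.eventually_ge_atTop 10, eventually_ge_atTop 1]
    with T tZ tEF tSM tT t1 t2 t3 tL tT1
  intro U1 U2 hefd S hS hSI hDq F hF hFS
  obtain ⟨L, hL⟩ : ∃ L, L = Real.log T := ⟨_, rfl⟩
  rw [← hL] at tT t1 t2 t3 tL hSI hFS ⊢
  have hL0 : 0 < L := by linarith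
  have hT0 : 0 < T := by linarith
  have hN0 : 0 < N := by linarith
  have hSf : volume S ≠ ⊤ := ne_top_of_le_ne_top (by simp) (measure_mono hSI)
  have hτL : 0 < τ * L := mul_pos hτ hL0
  have hup := int_upper (B := B) (c := c) (ε := εs) (τ := τ) (η := η) (K := C * N) (T := T) (U1 := U1) (U2 := U2)
    hW.cont hW.even hMN hεs0 hεs2 hτ hτb hη0 (L := L) (CS := CS) hL hL0 tT (R := rs R εs)
    (R0 := (1 - εs) * (R 0 + K * (4 * τ))) (Rm := Rm) hRsc (fun x hx => ⟨hRs0 x, hRm x hx⟩)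
    (mul_nonneg (by linarith) (by have := hR.nonneg 0; positivity)) (fun x hx => by
      unfold rs
      refine mul_le_mul_of_nonneg_left ?_ (by linarith)
      have h2 := (abs_le.1 (hK ((1 - εs) * x) 0)).2
      rw [sub_zero, abs_of_nonneg (mul_nonneg (by linarith) hx.1)] at h2
      have h3 : K * ((1 - εs) * x) ≤ K * (4 * τ) := by
        apply mul_le_mul_of_nonneg_left _ hK0
        have := hx.1
        have := hx.2
        nlinarith
      linarith)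
    (fun t u h1 h2 h3 h4 => by
      rw [hL] at h1 h2 h4 ⊢
      exact (tEF U1 U2 hefd t u h1 h2 h3 h4).trans (by rw [← hL]; exact t1))
    (fun u hu => (Mu_small hW.cont hW.bd hτL hL0 hu).trans t2) hCS
    (fun u h3 h4 => by
      rw [hL] at h4 ⊢
      exact tSM U1 U2 hefd u h3 h4) hS hSI
  have htr := trunc_le hRH hW (by linarith) (U1 := U1) (U2 := U2) (by linarith [hefd.h1]) (R := PP R Q A)
    (PP_cont hR hQ A) (a := τ * L)
    (Λ := A * L) (m := m) (k := k / L) (ρ := N / (τ * L)) hτL (by linarith) (by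
      have : τ * L * (k / L) = τ * k := by field_simp
      rw [this]; exact hτ4) (by linarith) (div_le_div_of_nonneg_right (by linarith) hτL.le) (fun w => by
      have h2 := PP_rh hR h1 hQ hA (w / A)
      rw [mul_div_cancel₀ _ (by linarith : A ≠ 0)] at h2
      rw [h2]
      linarith [hQR (w / A)]) hS hSf hSI F hF (by
      have : N / (τ * L) = N / τ / L := by rw [div_div]
      rw [this]; exact hFS)
  have hrew : ∀ s s' : ℂ, rh (PP R Q A) (A * L * (s.im - s'.im)) =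
      rh R (L * (s.im - s'.im)) - CC Q A (L * (s.im - s'.im)) := by
    intro s s'
    rw [mul_assoc, PP_rh hR h1 hQ hA]
  simp_rw [hrew] at htr
  have htr2 : ∫ t in S, (2 * ∫ x in (0:ℝ)..1, PP R Q A x * ‖St B (τ * L) U1 U2 (A * L * x) t‖ ^ 2) ≤
      ∫ t in S, (2 * ∫ x in (0:ℝ)..1, rs R εs x * ‖St B (τ * L) U1 U2 ((1 - εs) * L * x) t‖ ^ 2) :=
    PP_mono hR hW.cont h1 hQ hA hQ0 hεs0 (by linarith) hκs hS hSI
  -- numbers
  have hvS0 : 0 ≤ volume.real S := measureReal_nonneg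
  have hvS : volume.real S ≤ T := by
    have h1 : volume.real S ≤ volume.real (Set.Icc (T + L) (2 * T - L)) := measureReal_mono hSI (by simp)
    rw [Real.volume_real_Icc_of_le tT] at h1
    linarith
  have hI0 : 0 ≤ ∫ ξ in (-1:ℝ)..1, B ξ ^ 2 :=
    intervalIntegral.integral_nonneg (by norm_num) fun x _ => sq_nonneg _
  have hX0 : 0 ≤ ∑ s ∈ F, ∑ s' ∈ (Zf riemannZeta U1 U2).filter (fun s' => |s'.im - s.im| ≤ k / L),
            (mult riemannZeta s : ℝ) * (mult riemannZeta s' : ℝ) * (rh R (L * (s.im - s'.im)) -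
              CC Q A (L * (s.im - s'.im))) :=
    Finset.sum_nonneg fun s _ => Finset.sum_nonneg fun s' _ => mul_nonneg (by positivity)
      (by linarith [hQR (L * (s.im - s'.im))])
  have hrhs := calc_rhs (vS := volume.real S) (T := T) (N := N) (τ := τ) (ε := ε) (m := mo R) (R00 := R 0) (R1 := R1)
    (K := K) (CD := CD) (CS := CS) (C := C) (q := q) (η := η) (εs := εs) (I2 := ∫ ξ in (-1:ℝ)..1, B ξ ^ 2)
    (Z := Zq (rs R εs) c B εs τ (4 * τ) T) (DD := ∫ t in S, Dq (rs R εs) c B εs τ (4 * τ) T t)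
    (M := N / (Real.pi * τ)) (R0 := (1 - εs) * (R 0 + K * (4 * τ))) (KB := C * N)
    hT0.le hvS0 hvS hN1 hτ (by linarith) hε hmo (hR.nonneg 0) hR10 hK0 hCD hCS hC hq0 hη0 hη1 hηm hεs0
    (by linarith) rfl hI0 hW.sq rfl (by rw [← hR1s]; exact tZ) hDq rfl hτ1 hτ2 hτ3
  rw [← hq] at hup
  refine calc_up (ε' := ε') (M := N / (Real.pi * τ)) hX0 hN0 hτ hL0 hT0.le hε hmo0 hvS rfl hε'1 hε'2 hε'0.le ?_
    htr (htr2.trans (hup.trans hrhs))
  -- the weight
  have hv : 1 - 2 * ε' ≤ (1 - C / (1 + m)) * Real.exp (-(N / (τ * L)) ^ 2 / 2) := by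
    have h2 : (1 - ε') * (1 - ε') ≤ (1 - C / (1 + m)) * Real.exp (-(N / (τ * L)) ^ 2 / 2) :=
      mul_le_mul (by linarith) t3 (by linarith) (by linarith)
    nlinarith
  have hv2 : 1 - 4 * ε' ≤ ((1 - C / (1 + m)) * Real.exp (-(N / (τ * L)) ^ 2 / 2)) ^ 2 := by
    have h2 : (1 - 2 * ε') ^ 2 ≤ ((1 - C / (1 + m)) * Real.exp (-(N / (τ * L)) ^ 2 / 2)) ^ 2 :=
      pow_le_pow_left₀ (by linarith) hv 2
    nlinarith
  have hn : (1 - 2 * ε') * (2 * N / (τ * L)) = 2 * ((N - 2 * m) / (τ * L)) := by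
    rw [hNm]; ring
  have hn0 : 0 ≤ (1 - 2 * ε') * (2 * N / (τ * L)) := mul_nonneg (by linarith) (by positivity)
  rw [← hn]
  calc (1 - 6 * ε') * (2 * N / (τ * L)) ≤ ((1 - 2 * ε') * (1 - 4 * ε')) * (2 * N / (τ * L)) := by
        apply mul_le_mul_of_nonneg_right _ (by positivity)
        nlinarith
    _ = (1 - 2 * ε') * (2 * N / (τ * L)) * (1 - 4 * ε') := by ring
    _ ≤ _ := mul_le_mul_of_nonneg_left hv2 hn0

end

end Run7.h911.PQ
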