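import Pool.Agent.Run7.h911.PG1

set_option autoImplicit false

/-! # Positivity of the pair sums in a size class (helper911) -/

namespace Run7.h911.PQ

open Filter Topology MeasureTheory Complex
open Pool.Agent.Y745.SW (Px SB EFD a_EF a_SM Zq Dq)
open H370 (Zf mult good_zeta)
open Pool.Agent.R304.UP (nn nn_nonneg)
open Run7.h911.SZ (siz yp Bk G01 G01_nonneg G01_le)
open Pool.Agent.R482.GB (CC)

noncomputable section

/-- a pair with the weight `f` of the difference -/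
def pf (f : ℝ → ℝ) (T : ℝ) (s s' : ℂ) : ℝ :=
  (mult riemannZeta s : ℝ) * (mult riemannZeta s' : ℝ) * f (Real.log T * (s.im - s'.im))

lemma pw_pf (R : ℝ → ℝ) (T : ℝ) (s s' : ℂ) : pw R T s s' = pf (rh R) T s s' := rfl

lemma pf_abs {f g : ℝ → ℝ} (h : ∀ w, |f w| ≤ g w) (T : ℝ) (s s' : ℂ) : |pf f T s s'| ≤ pf g T s s' := by
  unfold pf
  rw [abs_mul, abs_of_nonneg (by positivity : (0:ℝ) ≤ (mult riemannZeta s : ℝ) * (mult riemannZeta s' : ℝ))]
  exact mul_le_mul_of_nonneg_left (h _) (by positivity)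

open Classical in
/-- positivity, normalised form -/
theorem posQ (RH : RiemannHypothesis) {R : ℝ → ℝ} {κ : ℝ} (hR : TF R κ) (h0 : 0 < κ) (h1 : κ < 1) {Q : ℝ → ℝ} {A : ℝ}
    (hQ : Continuous Q) (hA : 1 ≤ A) (hQ0 : ∀ x ∈ Set.Icc (0:ℝ) A, 0 ≤ Q x) (hQR : ∀ w, |CC Q A w| ≤ rh R w)
    {a b ε : ℝ} (hab : a < b) (hε : 0 < ε) : ∀ᶠ T : ℝ in atTop,
    -(ε * (T * (Real.log T / (2 * Real.pi)))) ≤
      ∑ s ∈ (Zf riemannZeta T (2 * T)).filter (fun s => NearO a b s.im), ∑ s' ∈ Zf riemannZeta T (2 * T),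
        pf (CC Q A) T s s' := by
  have hRH := rhs_of RH
  have hpi := Real.pi_pos
  have hm0 := mo_nonneg hR
  obtain ⟨θ, hθ⟩ : ∃ θ, θ = ε / (16 * (mo R + 1)) := ⟨_, rfl⟩
  have hθ0 : 0 < θ := by rw [hθ]; positivity
  have hmθ : mo R * θ ≤ ε / 16 := by
    rw [hθ, mul_div_assoc', div_le_div_iff₀ (by positivity) (by norm_num)]
    nlinarith
  obtain ⟨k, hk2, κ0, hκ0, hexc⟩ := exc_pairs RH hR (show 0 < ε / 16 by positivity)
  obtain ⟨h, εs, τ, B, Rs, hh, hεs, hεs2, hτ, hτε, hB, hRs, hRs0, hup⟩ := upperQ hRH Pool.Agent.Y248.SW.t_KER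
    Pool.Agent.Y627.SW.t_MN Pool.Agent.Y240.SW.t_DF a_EF a_SM hR h0 h1 hQ hA hQ0
    (fun w => (le_abs_self _).trans (hQR w)) (ε / 8) k (by positivity) (by linarith)
  obtain ⟨η0, hη0, hcls⟩ := clsP (a := a - θ) (a' := a) (b := b + θ) (b' := b) (by linarith) (by linarith)
  obtain ⟨W, hW0, hX⟩ := Run7.h911.SZ.exX (h + 1) η0 κ0 (by positivity) hη0 hκ0
  obtain ⟨c, hc, C0, T0, hC0, hT0, hef⟩ := H370.explicit_formula good_zeta
  obtain ⟨⟨K0, hK0⟩, hup⟩ := hup c C0 hc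
  obtain ⟨K1, hK1⟩ : ∃ K1 : ℝ, K1 = |K0| + 1 := ⟨_, rfl⟩
  have hK10 : 0 < K1 := by rw [hK1]; positivity
  obtain ⟨δ, hδ⟩ : ∃ δ, δ = min θ (1 / (2 * (K1 + 1))) := ⟨_, rfl⟩
  have hδ0 : 0 < δ := by rw [hδ]; positivity
  have hδ1 : δ ≤ θ := by rw [hδ]; exact min_le_left _ _
  have hδ2 : δ * (K1 + 1) ≤ 1 := by
    have h1 : δ ≤ 1 / (2 * (K1 + 1)) := by rw [hδ]; exact min_le_right _ _
    rw [le_div_iff₀ (by positivity)] at h1
    linarith
  have hind := Run7.h911.SZ.a_IND Rs hRs hRs0 B hB c hc εs τ (4 * τ) hεs hεs2 hτ hτε le_rfl (by linarith)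
    ⟨K0, hK0⟩ (a - θ) (b + θ) δ (by linarith) hδ0
  filter_upwards [hexc, hcls η0 W h le_rfl hW0 hh, hX, hup, hind, hK0, low_W RH hR h0 h1 hab (show 0 < ε / 8 by positivity),
    eventually_ge_atTop T0, Run7.h911.SZ.ev_basic (h + k + 10)] with T texc tcls tX tup tind tK0 tlow tT0 tb
  obtain ⟨U1, U2, hU1, hU1', hU2, hU2', heft⟩ := hef T tT0
  have hefd : EFD c C0 T U1 U2 := ⟨hc, hU1, hU1', hU2, hU2', heft⟩
  obtain ⟨X, hXv, hXB⟩ := tX
  obtain ⟨hT10, hLD, hL1, hT2⟩ := tb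
  obtain ⟨i1, i2, i3⟩ := tind
  have hG : (ProbabilityTheory.gaussianReal 0 1).real (Set.Ioo (a - θ) (b + θ)) = G01 (a - θ) (b + θ) := rfl
  rw [hG] at i2 i3
  have texc := texc X hXB.meas hXv
  obtain ⟨L, hL⟩ : ∃ L, L = Real.log T := ⟨_, rfl⟩
  have hL0 : 0 < L := by rw [hL]; linarith
  have hT0' : 0 < T := by linarith
  obtain ⟨S, hS⟩ : ∃ S : Set ℝ, S = SB (a - θ) (b + θ) T := ⟨_, rfl⟩
  rw [← hS] at i1 i2 i3
  have hSI : S ⊆ Set.Icc (T + Real.log T) (2 * T - Real.log T) := by rw [hS]; exact fun t ht => ht.1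
  have hG2 := G01_grow a b hθ0
  have hG3 := G01_nonneg (a - θ) (b + θ)
  have hZ0 : 0 ≤ Zq Rs c B εs τ (4 * τ) T := by
    unfold Zq
    refine mul_nonneg (by linarith) (intervalIntegral.integral_nonneg (by linarith) fun y hy => ?_)
    exact mul_nonneg (hRs0 y ⟨by linarith [hy.1], hy.2⟩) (Finset.sum_nonneg fun n _ => by positivity)
  have hZK : Zq Rs c B εs τ (4 * τ) T ≤ K1 := by
    have := le_abs_self K0
    rw [hK1]; linarith
  have cD : (∫ t in S, Dq Rs c B εs τ (4 * τ) T t) ≤ volume.real S * Zq Rs c B εs τ (4 * τ) T + T := by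
    have j2 := (abs_le.1 i2).1
    have j3 := (abs_le.1 i3).2
    have e1 : (T * G01 (a - θ) (b + θ) - δ * T) * Zq Rs c B εs τ (4 * τ) T ≤
        volume.real S * Zq Rs c B εs τ (4 * τ) T := mul_le_mul_of_nonneg_right (by linarith) hZ0
    have e2 : δ * T * Zq Rs c B εs τ (4 * τ) T ≤ δ * T * K1 := mul_le_mul_of_nonneg_left hZK (by positivity)
    have e3 : δ * (K1 + 1) * T ≤ 1 * T := mul_le_mul_of_nonneg_right hδ2 hT0'.le
    linarith
  obtain ⟨F, hF⟩ : ∃ F : Finset ℂ, F = (Zf riemannZeta U1 U2).filter (fun s => NearO a b s.im ∧ reg X T s.im) :=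
    ⟨_, rfl⟩
  have hhL : h / Real.log T ≤ 1 := by rw [div_le_one (by linarith)]; linarith
  have hkL : k / Real.log T ≤ 1 := by rw [div_le_one (by linarith)]; linarith
  have hFS : ∀ s ∈ F, Set.Icc (s.im - h / Real.log T) (s.im + h / Real.log T) ⊆ S := by
    intro s hs t ht
    rw [hF, Finset.mem_filter] at hs
    obtain ⟨-, g1, g2, g3, g4⟩ := hs
    rw [hS]
    have h5 := tcls X hXB s.im (by linarith) (by linarith) g2 t (by
      rw [abs_le]
      constructor <;> linarith [ht.1, ht.2]) g1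
    exact ⟨⟨by linarith [ht.1], by linarith [ht.2]⟩, h5.1, h5.2⟩
  have hmain := tup U1 U2 hefd S i1 hSI cD F (by rw [hF]; exact Finset.filter_subset _ _) hFS
  obtain ⟨Y, hY⟩ : ∃ Y, Y = T * (Real.log T / (2 * Real.pi)) := ⟨_, rfl⟩
  have hY0 : 0 < Y := by rw [hY, ← hL]; positivity
  rw [← hY] at texc tlow ⊢
  obtain ⟨Z, hZ⟩ : ∃ Z, Z = Zf riemannZeta T (2 * T) := ⟨_, rfl⟩
  rw [← hZ] at texc tlow ⊢
  obtain ⟨GA, hGA⟩ : ∃ GA : Finset ℂ, GA = Z.filter (fun s => NearO a b s.im) := ⟨_, rfl⟩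
  rw [← hGA] at tlow ⊢
  have hGZ : GA ⊆ Z := by rw [hGA]; exact Finset.filter_subset _ _
  obtain ⟨tm, htm⟩ : ∃ tm : ℂ → ℂ → ℝ, tm = fun s s' => pf (fun w => rh R w - CC Q A w) T s s' := ⟨_, rfl⟩
  have htme : ∀ s s', tm s s' = pw R T s s' - pf (CC Q A) T s s' := by
    intro s s'
    rw [htm, pw_pf]
    unfold pf
    ring
  have htm0 : ∀ s s', 0 ≤ tm s s' := by
    intro s s'
    rw [htme]
    have h2 := pf_abs hQR T s s'
    rw [← pw_pf] at h2
    linarith [(abs_le.1 h2).2]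
  have htm2 : ∀ s s', tm s s' ≤ 2 * pw R T s s' := by
    intro s s'
    rw [htme]
    have h2 := pf_abs hQR T s s'
    rw [← pw_pf] at h2
    linarith [(abs_le.1 h2).1]
  -- the good pairs
  have q1 : ∑ s ∈ GA, ∑ s' ∈ Z, (if |s'.im - s.im| ≤ k / Real.log T ∧ reg X T s.im ∧ reg X T s'.im then
      tm s s' else 0) ≤ (mo R * volume.real S + ε / 8 * T) * (Real.log T / (2 * Real.pi)) := by
    refine le_trans ?_ hmain
    have e1 : ∑ s ∈ GA, ∑ s' ∈ Z, (if |s'.im - s.im| ≤ k / Real.log T ∧ reg X T s.im ∧ reg X T s'.im then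
        tm s s' else 0) ≤ ∑ s ∈ GA.filter (fun s => reg X T s.im),
        ∑ s' ∈ (Zf riemannZeta U1 U2).filter (fun s' => |s'.im - s.im| ≤ k / Real.log T), tm s s' := by
      rw [Finset.sum_filter]
      refine Finset.sum_le_sum fun s hs => ?_
      by_cases hr : reg X T s.im
      · rw [if_pos hr]
        have e2 : ∑ s' ∈ Z, (if |s'.im - s.im| ≤ k / Real.log T ∧ reg X T s.im ∧ reg X T s'.im then
            tm s s' else 0) = ∑ s' ∈ Z.filter (fun s' => |s'.im - s.im| ≤ k / Real.log T ∧ reg X T s.im ∧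
            reg X T s'.im), tm s s' := (Finset.sum_filter _ _).symm
        rw [e2]
        refine Finset.sum_le_sum_of_subset_of_nonneg ?_ fun s' _ _ => htm0 s s'
        intro s' hs'
        rw [Finset.mem_filter, hZ] at hs'
        rw [Finset.mem_filter]
        refine ⟨?_, hs'.2.1⟩
        obtain ⟨z1, z2, z3, z4, z5⟩ := (H370.mem_Zf good_zeta (by linarith)).mp hs'.1
        obtain ⟨-, r1, r2⟩ := hs'.2.2.2
        exact (H370.mem_Zf good_zeta (by linarith)).mpr ⟨z1, z2, by linarith, by linarith, z5⟩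
      · rw [if_neg hr]
        refine le_of_eq (Finset.sum_eq_zero fun s' _ => ?_)
        rw [if_neg]
        rintro ⟨-, hr', -⟩
        exact hr hr'
    refine e1.trans ?_
    have hsub : GA.filter (fun s => reg X T s.im) ⊆ F := by
      intro s hs
      rw [Finset.mem_filter] at hs
      have hsZ := hGZ hs.1
      rw [hZ] at hsZ
      obtain ⟨z1, z2, z3, z4, z5⟩ := (H370.mem_Zf good_zeta (by linarith)).mp hsZ
      have hsN := hs.1
      rw [hGA, Finset.mem_filter] at hsN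
      obtain ⟨-, r1, r2⟩ := hs.2
      rw [hF, Finset.mem_filter]
      exact ⟨(H370.mem_Zf good_zeta (by linarith)).mpr ⟨z1, z2, by linarith, by linarith, z5⟩, hsN.2, hs.2⟩
    refine (Finset.sum_le_sum_of_subset_of_nonneg hsub fun s _ _ => Finset.sum_nonneg fun s' _ => htm0 s s').trans ?_
    refine le_of_eq (Finset.sum_congr rfl fun s _ => Finset.sum_congr rfl fun s' _ => ?_)
    rw [htm]
    rfl
  -- the other pairs
  have q2 : ∑ s ∈ GA, ∑ s' ∈ Z, (if |s'.im - s.im| ≤ k / Real.log T ∧ reg X T s.im ∧ reg X T s'.im then 0 else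
      2 * pw R T s s') ≤ 2 * (ε / 16 * Y) := by
    have e1 : ∑ s ∈ GA, ∑ s' ∈ Z, (if |s'.im - s.im| ≤ k / Real.log T ∧ reg X T s.im ∧ reg X T s'.im then 0 else
      2 * pw R T s s') ≤ ∑ s ∈ Z, ∑ s' ∈ Z, (if |s'.im - s.im| ≤ k / Real.log T ∧ reg X T s.im ∧ reg X T s'.im then
        0 else 2 * pw R T s s') := by
      refine Finset.sum_le_sum_of_subset_of_nonneg hGZ fun s _ _ => Finset.sum_nonneg fun s' _ => ?_
      have := pw_nonneg hR T s s'
      split_ifs <;> linarith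
    refine e1.trans ?_
    have e2 : ∑ s ∈ Z, ∑ s' ∈ Z, (if |s'.im - s.im| ≤ k / Real.log T ∧ reg X T s.im ∧ reg X T s'.im then
        0 else 2 * pw R T s s') = 2 * ∑ s ∈ Z, ∑ s' ∈ Z, (if |s'.im - s.im| ≤ k / Real.log T ∧ reg X T s.im ∧
          reg X T s'.im then 0 else pw R T s s') := by
      rw [Finset.mul_sum]
      refine Finset.sum_congr rfl fun s _ => ?_
      rw [Finset.mul_sum]
      refine Finset.sum_congr rfl fun s' _ => ?_
      split_ifs <;> ring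
    rw [e2]
    linarith
  have q3 : ∑ s ∈ GA, ∑ s' ∈ Z, tm s s' ≤ (mo R * volume.real S + ε / 8 * T) * (Real.log T / (2 * Real.pi)) +
      2 * (ε / 16 * Y) := by
    refine le_trans ?_ (add_le_add q1 q2)
    rw [← Finset.sum_add_distrib]
    refine Finset.sum_le_sum fun s _ => ?_
    rw [← Finset.sum_add_distrib]
    refine Finset.sum_le_sum fun s' _ => ?_
    split_ifs
    · linarith
    · linarith [htm2 s s']
  have q4 : ∑ s ∈ GA, ∑ s' ∈ Z, tm s s' = (∑ s ∈ GA, Wt R T s) - ∑ s ∈ GA, ∑ s' ∈ Z, pf (CC Q A) T s s' := by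
    rw [← Finset.sum_sub_distrib]
    refine Finset.sum_congr rfl fun s _ => ?_
    unfold Wt
    rw [← hZ, ← Finset.sum_sub_distrib]
    exact Finset.sum_congr rfl fun s' _ => htme s s'
  rw [q4] at q3
  -- numbers
  have n1 : mo R * volume.real S ≤ mo R * (T * G01 a b) + 3 * (ε / 16) * T := by
    have j2 := (abs_le.1 i2).2
    have n2 : volume.real S ≤ T * G01 a b + 3 * (θ * T) := by
      have e1 := mul_le_mul_of_nonneg_left hG2 hT0'.le
      have e2 := mul_le_mul_of_nonneg_right hδ1 hT0'.le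
      linarith
    have n3 := mul_le_mul_of_nonneg_left n2 hm0
    have n4 := mul_le_mul_of_nonneg_right hmθ hT0'.le
    linarith
  have n5 : (mo R * volume.real S + ε / 8 * T) * (Real.log T / (2 * Real.pi)) ≤
      (mo R * (T * G01 a b) + 3 * (ε / 16) * T + ε / 8 * T) * (Real.log T / (2 * Real.pi)) :=
    mul_le_mul_of_nonneg_right (by linarith) (by rw [← hL]; positivity)
  have n6 : (mo R * (T * G01 a b) + 3 * (ε / 16) * T + ε / 8 * T) * (Real.log T / (2 * Real.pi)) =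
      (mo R * G01 a b + 3 * (ε / 16) + ε / 8) * Y := by rw [hY]; ring
  have n7 : 0 < ε * Y := by positivity
  linarith

end

end Run7.h911.PQ
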