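import Pool.Agent.Run7.h911.PG2

set_option autoImplicit false

/-! # Lower bounds for the pair sums in a size class (helper911) -/

namespace Run7.h911.PQ

open Filter Topology MeasureTheory Complex
open H370 (Zf mult good_zeta)
open Run7.h911.SZ (G01 G01_nonneg G01_le)
open Pool.Agent.R482.GB (CC cos_dec ev ev_cont ev_even ev_zero ev_in ct ct_smooth ct_one ct_zero ct_le ct_nonneg)
open Pool.Agent.Results.MP_103a5c_nt.BohrSetPairs (pairSum TestFn mont)

noncomputable section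

lemma CC_dec {h : ℝ → ℝ} (hh : ContDiff ℝ 2 h) {A : ℝ} (hA : 0 ≤ A) (h1 : h A = 0) :
    ∃ K : ℝ, 0 ≤ K ∧ ∀ w : ℝ, |CC h A w| ≤ K / (1 + w ^ 2) := by
  obtain ⟨K, hK0, hK⟩ := cos_dec hh hA h1
  refine ⟨2 * K, by positivity, fun w => ?_⟩
  unfold CC
  rw [abs_mul, abs_of_pos (by norm_num : (0 : ℝ) < 2), mul_div_assoc]
  exact mul_le_mul_of_nonneg_left (hK w) (by norm_num)

lemma fb_low2 {b : ℝ} (hb : 0 < b) (hb1 : b ≤ 1) (w : ℝ) : (1 / 2) / (1 + w ^ 2) ≤ rh (fb b) w := by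
  have hpi := Real.pi_pos
  refine le_trans ?_ (fb_rh_low hb hb1 w)
  rw [div_le_div_iff₀ (by positivity) (by positivity)]
  have h2 : b * |w| ≤ |w| := by
    have := mul_le_mul_of_nonneg_right hb1 (abs_nonneg w)
    linarith
  have h3 := Real.pi_lt_d2
  have h4 : (b * |w| + Real.pi / 2) ^ 2 ≤ (|w| + 8 / 5) ^ 2 := by
    apply pow_le_pow_left₀ (by positivity)
    linarith
  have h5 : (|w| + 8 / 5) ^ 2 ≤ 8 * (1 + w ^ 2) := by
    rw [← sq_abs w]
    nlinarith [sq_nonneg (|w| - 1), abs_nonneg w]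
  linarith

lemma CC_ev {h : ℝ → ℝ} (hh : Continuous h) {A A' : ℝ} (hA : 0 ≤ A) (hAA : A ≤ A') (h1 : h A = 0) (w : ℝ) :
    2 * ∫ x in (0:ℝ)..A', ev h A x * Real.cos (w * x) = CC h A w := by
  unfold CC
  have hc : ∀ u v : ℝ, IntervalIntegrable (fun x : ℝ => ev h A x * Real.cos (w * x)) volume u v := fun u v =>
    ((ev_cont hh A).mul (by fun_prop : Continuous fun x : ℝ => Real.cos (w * x))).intervalIntegrable u v
  rw [← intervalIntegral.integral_add_adjacent_intervals (hc 0 A) (hc A A')]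
  have e1 : ∫ x in A..A', ev h A x * Real.cos (w * x) = 0 := by
    rw [intervalIntegral.integral_congr (g := fun _ => (0 : ℝ))]
    · simp
    · intro x hx
      rw [Set.uIcc_of_le hAA] at hx
      show ev h A x * Real.cos (w * x) = 0
      rw [ev_zero h1 (hx.1.trans (le_abs_self x)), zero_mul]
  have e2 : ∫ x in (0:ℝ)..A, ev h A x * Real.cos (w * x) = ∫ x in (0:ℝ)..A, h x * Real.cos (w * x) := by
    refine intervalIntegral.integral_congr fun x hx => ?_
    rw [Set.uIcc_of_le hA] at hx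
    show ev h A x * Real.cos (w * x) = h x * Real.cos (w * x)
    rw [ev_in hx.1 hx.2]
  rw [e1, e2, add_zero]

open Classical in
/-- **positivity in a class** -/
theorem posP (RH : RiemannHypothesis) {h : ℝ → ℝ} (hh : ContDiff ℝ 2 h) {A : ℝ} (hA : 0 < A) (h1 : h A = 0)
    (hpos : ∀ α, 0 ≤ α → α ≤ A → 0 ≤ h α) {a b ε : ℝ} (hab : a < b) (hε : 0 < ε) : ∀ᶠ T : ℝ in atTop,
    -(ε * (T * (Real.log T / (2 * Real.pi)))) ≤
      ∑ s ∈ (Zf riemannZeta T (2 * T)).filter (fun s => NearO a b s.im), ∑ s' ∈ Zf riemannZeta T (2 * T),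
        pf (CC h A) T s s' := by
  have hpi := Real.pi_pos
  obtain ⟨K, hK0, hK⟩ := CC_dec hh hA.le h1
  obtain ⟨c, hc⟩ : ∃ c, c = 2 * K + 1 := ⟨_, rfl⟩
  have hc0 : 0 < c := by rw [hc]; positivity
  obtain ⟨Q, hQ⟩ : ∃ Q : ℝ → ℝ, Q = fun x => (1 / c) * ev h A x := ⟨_, rfl⟩
  obtain ⟨A', hA'⟩ : ∃ A', A' = max A 1 := ⟨_, rfl⟩
  have hAA : A ≤ A' := by rw [hA']; exact le_max_left _ _
  have hA1 : 1 ≤ A' := by rw [hA']; exact le_max_right _ _
  have hQc : Continuous Q := by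
    rw [hQ]
    exact continuous_const.mul (ev_cont hh.continuous A)
  have hCQ : ∀ w, CC Q A' w = (1 / c) * CC h A w := by
    intro w
    rw [← CC_ev hh.continuous hA.le hAA h1 w]
    unfold CC
    rw [hQ]
    have e : ∫ x in (0:ℝ)..A', (1 / c) * ev h A x * Real.cos (w * x) =
        ∫ x in (0:ℝ)..A', (1 / c) * (ev h A x * Real.cos (w * x)) :=
      intervalIntegral.integral_congr fun x _ => by
        show (1 / c) * ev h A x * Real.cos (w * x) = (1 / c) * (ev h A x * Real.cos (w * x))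
        ring
    rw [e, intervalIntegral.integral_const_mul]
    ring
  have hb : (0:ℝ) < 1 / 2 := by norm_num
  have hR := fb_TF hb (by norm_num)
  have hQR : ∀ w, |CC Q A' w| ≤ rh (fb (1 / 2)) w := by
    intro w
    rw [hCQ, abs_mul, abs_of_pos (by positivity : 0 < 1 / c)]
    have h2 := fb_low2 hb (by norm_num) w
    have h3 := hK w
    have h4 : K / (1 + w ^ 2) ≤ c * ((1 / 2) / (1 + w ^ 2)) := by
      rw [mul_div_assoc', hc]
      apply div_le_div_of_nonneg_right _ (by positivity)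
      linarith
    have h5 := mul_le_mul_of_nonneg_left h2 hc0.le
    rw [one_div, inv_mul_eq_div, div_le_iff₀ hc0]
    linarith
  have hQ0 : ∀ x ∈ Set.Icc (0:ℝ) A', 0 ≤ Q x := by
    intro x hx
    rw [hQ]
    apply mul_nonneg (by positivity)
    unfold ev
    apply hpos
    · exact le_min (abs_nonneg _) hA.le
    · exact min_le_right _ _
  filter_upwards [posQ RH hR hb (by norm_num) hQc hA1 hQ0 hQR hab (show 0 < ε / c by positivity)] with T hT
  have e : ∀ s s', pf (CC Q A') T s s' = (1 / c) * pf (CC h A) T s s' := by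
    intro s s'
    unfold pf
    rw [hCQ]
    ring
  simp_rw [e, ← Finset.mul_sum] at hT
  have h2 := mul_le_mul_of_nonneg_left hT hc0.le
  have e2 : c * ((1 / c) * ∑ s ∈ (Zf riemannZeta T (2 * T)).filter (fun s => NearO a b s.im),
      ∑ s' ∈ Zf riemannZeta T (2 * T), pf (CC h A) T s s') =
      ∑ s ∈ (Zf riemannZeta T (2 * T)).filter (fun s => NearO a b s.im),
      ∑ s' ∈ Zf riemannZeta T (2 * T), pf (CC h A) T s s' := by field_simp
  have e3 : c * -(ε / c * (T * (Real.log T / (2 * Real.pi)))) = -(ε * (T * (Real.log T / (2 * Real.pi)))) := by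
    field_simp
  rw [e2, e3] at h2
  exact h2

lemma ev_lip {h : ℝ → ℝ} (hh : ContDiff ℝ 2 h) {A : ℝ} (hA : 0 ≤ A) :
    ∃ K : ℝ, ∀ x y : ℝ, |ev h A x - ev h A y| ≤ K * |x - y| := by
  have hd : Differentiable ℝ h := hh.differentiable (by norm_num)
  have hc1 : Continuous (deriv h) := hh.continuous_deriv (by norm_num)
  obtain ⟨K, hK⟩ := isCompact_Icc.exists_bound_of_continuousOn (s := Set.Icc (0:ℝ) A) hc1.continuousOn
  have hK0 : 0 ≤ K := (norm_nonneg _).trans (hK 0 ⟨le_rfl, hA⟩)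
  refine ⟨K, fun x y => ?_⟩
  unfold ev
  have hx : min |x| A ∈ Set.Icc (0:ℝ) A := ⟨le_min (abs_nonneg _) hA, min_le_right _ _⟩
  have hy : min |y| A ∈ Set.Icc (0:ℝ) A := ⟨le_min (abs_nonneg _) hA, min_le_right _ _⟩
  have h2 := (convex_Icc (0:ℝ) A).norm_image_sub_le_of_norm_deriv_le (f := h) (fun z _ => hd z) hK hy hx
  rw [Real.norm_eq_abs, Real.norm_eq_abs] at h2
  refine h2.trans (mul_le_mul_of_nonneg_left ?_ hK0)
  have h3 : |min |x| A - min |y| A| ≤ max |(|x| - |y|)| |A - A| := abs_min_sub_min_le_max _ _ _ _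
  rw [sub_self, abs_zero, max_eq_left (abs_nonneg _)] at h3
  exact h3.trans (abs_abs_sub_abs_le_abs_sub x y)

open Classical in
/-- the law inside -/
theorem lawC (RH : RiemannHypothesis) {h : ℝ → ℝ} (hh : ContDiff ℝ 2 h) {A : ℝ} (hA : 0 < A) (hA1 : A < 1)
    (h1 : h A = 0) {a b ε : ℝ} (hab : a < b) (hε : 0 < ε) : ∀ᶠ T : ℝ in atTop,
    |∑ s ∈ (Zf riemannZeta T (2 * T)).filter (fun s => NearO a b s.im), ∑ s' ∈ Zf riemannZeta T (2 * T),
        pf (CC h A) T s s' - (h 0 + 2 * ∫ x in (0:ℝ)..A, x * h x) * G01 a b * (T * (Real.log T / (2 * Real.pi)))| ≤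
      ε * (T * (Real.log T / (2 * Real.pi))) := by
  have hpi := Real.pi_gt_three
  obtain ⟨K, hK0, hK⟩ := CC_dec hh hA.le h1
  have hrh : ∀ w, rh (ev h A) w = CC h A w := fun w => by
    unfold rh
    exact CC_ev hh.continuous hA.le hA1.le h1 w
  have hR : TestFn (ev h A) A := by
    refine ⟨ev_cont hh.continuous A, ev_even h A, fun α hα => ev_zero h1 hα, K, fun x => ?_⟩
    rw [r_eq (ev_cont hh.continuous A) (ev_even h A), hrh]
    refine (hK _).trans ?_
    apply div_le_div_of_nonneg_left hK0 (by positivity)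
    have h2 : x ^ 2 * 1 ≤ x ^ 2 * (2 * Real.pi) ^ 2 := by
      apply mul_le_mul_of_nonneg_left _ (sq_nonneg x)
      nlinarith
    have h3 : (2 * Real.pi * x) ^ 2 = x ^ 2 * (2 * Real.pi) ^ 2 := by ring
    rw [h3]
    linarith
  have hmo : mo (ev h A) = h 0 + 2 * ∫ x in (0:ℝ)..A, x * h x := by
    unfold mo
    have e0 : ev h A 0 = h 0 := ev_in le_rfl hA.le
    have hc : ∀ u v : ℝ, IntervalIntegrable (fun x : ℝ => x * ev h A x) volume u v := fun u v =>
      (continuous_id.mul (ev_cont hh.continuous A)).intervalIntegrable u v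
    have e1 : ∫ x in A..1, x * ev h A x = 0 := by
      rw [intervalIntegral.integral_congr (g := fun _ => (0 : ℝ))]
      · simp
      · intro x hx
        rw [Set.uIcc_of_le hA1.le] at hx
        show x * ev h A x = 0
        rw [ev_zero h1 (hx.1.trans (le_abs_self x)), mul_zero]
    have e2 : ∫ x in (0:ℝ)..A, x * ev h A x = ∫ x in (0:ℝ)..A, x * h x := by
      refine intervalIntegral.integral_congr fun x hx => ?_
      rw [Set.uIcc_of_le hA.le] at hx
      show x * ev h A x = x * h x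
      rw [ev_in hx.1 hx.2]
    rw [e0, ← intervalIntegral.integral_add_adjacent_intervals (hc 0 A) (hc A 1), e1, e2, add_zero]
  filter_upwards [law1 RH hR (ev_lip hh hA.le) hA hA1 hab hε] with T hT
  rw [hmo] at hT
  have e : ∑ s ∈ (Zf riemannZeta T (2 * T)).filter (fun s => NearO a b s.im), Wt (ev h A) T s =
      ∑ s ∈ (Zf riemannZeta T (2 * T)).filter (fun s => NearO a b s.im), ∑ s' ∈ Zf riemannZeta T (2 * T),
        pf (CC h A) T s s' := by
    refine Finset.sum_congr rfl fun s _ => ?_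
    unfold Wt
    refine Finset.sum_congr rfl fun s' _ => ?_
    unfold pw pf
    rw [hrh]
  rw [e] at hT
  exact hT

open Classical in
/-- **Montgomery's inequality in a size class** -/
theorem lowC (RH : RiemannHypothesis) {A : ℝ} (hA : 0 < A) {f : ℝ → ℝ} (hf : ContDiff ℝ 2 f) (hfA : f A = 0)
    {κ₀ : ℝ} (hκ₀ : κ₀ < 1) (hpos : ∀ α, κ₀ ≤ α → α ≤ A → 0 ≤ f α) {a b : ℝ} (hab : a < b) {ε : ℝ} (hε : 0 < ε) :
    ∀ᶠ T : ℝ in atTop, ((f 0 + 2 * ∫ x in (0:ℝ)..(min 1 A), x * f x) * G01 a b - ε) *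
      (T * (Real.log T / (2 * Real.pi))) ≤
      ∑ s ∈ (Zf riemannZeta T (2 * T)).filter (fun s => NearO a b s.im), ∑ s' ∈ Zf riemannZeta T (2 * T),
        pf (CC f A) T s s' := by
  have hpi := Real.pi_pos
  have hG0 := G01_nonneg a b
  have hG1 := G01_le a b
  rcases lt_or_ge A 1 with hA1 | hA1
  · filter_upwards [lawC RH hf hA hA1 hfA hab hε] with T hT
    rw [min_eq_right hA1.le]
    have := (abs_le.1 hT).1
    linarith
  rw [min_eq_left hA1]
  have hfc : Continuous f := hf.continuous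
  obtain ⟨B, hB0, hB⟩ : ∃ B : ℝ, 0 ≤ B ∧ ∀ α ∈ Set.Icc (0 : ℝ) 1, |α * f α| ≤ B := by
    obtain ⟨B, hB⟩ := isCompact_Icc.exists_bound_of_continuousOn (s := Set.Icc (0 : ℝ) 1)
      (f := fun α => α * f α) (by fun_prop)
    exact ⟨B, (norm_nonneg _).trans (hB 0 ⟨le_rfl, zero_le_one⟩), fun α hα => hB α hα⟩
  obtain ⟨m0, hm0⟩ : ∃ m0 : ℝ, m0 = max κ₀ 0 := ⟨_, rfl⟩
  have hm01 : m0 < 1 := by rw [hm0]; exact max_lt hκ₀ one_pos
  have hm00 : 0 ≤ m0 := by rw [hm0]; exact le_max_right _ _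
  obtain ⟨δ, hδ⟩ : ∃ δ : ℝ, δ = min ((1 - m0) / 2) (ε / (6 * (B + 1))) := ⟨_, rfl⟩
  have hδ0 : 0 < δ := by rw [hδ]; exact lt_min (by linarith) (by positivity)
  have hδ1 : δ ≤ (1 - m0) / 2 := by rw [hδ]; exact min_le_left _ _
  have hδ2 : 2 * (δ * B) ≤ ε / 3 := by
    have h1 : δ ≤ ε / (6 * (B + 1)) := by rw [hδ]; exact min_le_right _ _
    rw [le_div_iff₀ (by positivity)] at h1
    nlinarith
  obtain ⟨κ₁, hκ₁⟩ : ∃ κ₁ : ℝ, κ₁ = 1 - δ := ⟨_, rfl⟩
  obtain ⟨κ, hκ⟩ : ∃ κ : ℝ, κ = 1 - δ / 2 := ⟨_, rfl⟩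
  have k0 : 0 < κ₁ := by rw [hκ₁]; linarith
  have k1 : κ₁ < κ := by rw [hκ₁, hκ]; linarith
  have k2 : κ < 1 := by rw [hκ]; linarith
  have k3 : κ₀ ≤ κ₁ := by
    have := le_max_left κ₀ 0
    rw [← hm0] at this
    rw [hκ₁]; linarith
  set h1 : ℝ → ℝ := fun α => f α * ct κ₁ κ α with hh1
  set h2 : ℝ → ℝ := fun α => f α * (1 - ct κ₁ κ α) with hh2
  have s1 : ContDiff ℝ 2 h1 := hf.mul (ct_smooth κ₁ κ)
  have s2 : ContDiff ℝ 2 h2 := hf.mul (contDiff_const.sub (ct_smooth κ₁ κ))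
  have z1 : h1 κ = 0 := by simp only [hh1]; rw [ct_zero k0 k1 le_rfl, mul_zero]
  have z2 : h2 A = 0 := by simp only [hh2]; rw [hfA, zero_mul]
  have p2 : ∀ α, 0 ≤ α → α ≤ A → 0 ≤ h2 α := by
    intro α hα0 hαA
    simp only [hh2]
    rcases le_total α κ₁ with h | h
    · rw [ct_one k0 k1 hα0 h, sub_self, mul_zero]
    · exact mul_nonneg (hpos α (k3.trans h) hαA) (by linarith [ct_le κ₁ κ α])
  filter_upwards [lawC RH s1 (k0.trans k1) k2 z1 hab (show 0 < ε / 3 by positivity),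
    posP RH s2 hA z2 p2 hab (show 0 < ε / 3 by positivity), eventually_ge_atTop 10] with T t1 t2 hT10
  have hL : 0 < Real.log T := Real.log_pos (by linarith)
  -- splitting the transform
  have hcc : ∀ y : ℝ, CC f A y = CC h1 κ y + CC h2 A y := by
    intro y
    have i1 : ∀ a b : ℝ, IntervalIntegrable (fun α => h1 α * Real.cos (y * α)) volume a b :=
      fun a b => (s1.continuous.mul (by fun_prop)).intervalIntegrable _ _
    have i2 : ∀ a b : ℝ, IntervalIntegrable (fun α => h2 α * Real.cos (y * α)) volume a b :=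
      fun a b => (s2.continuous.mul (by fun_prop)).intervalIntegrable _ _
    have e1 : ∫ α in κ..A, h1 α * Real.cos (y * α) = 0 := by
      rw [intervalIntegral.integral_congr (g := fun _ => (0 : ℝ))]
      · simp
      · intro α hα
        rw [Set.uIcc_of_le (k2.le.trans hA1)] at hα
        simp only [hh1]
        rw [ct_zero k0 k1 hα.1, mul_zero, zero_mul]
    have e2 : ∫ α in (0 : ℝ)..A, f α * Real.cos (y * α) =
        (∫ α in (0 : ℝ)..A, h1 α * Real.cos (y * α)) +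
          ∫ α in (0 : ℝ)..A, h2 α * Real.cos (y * α) := by
      rw [← intervalIntegral.integral_add (i1 _ _) (i2 _ _)]
      refine intervalIntegral.integral_congr fun α _ => ?_
      simp only [hh1, hh2]
      ring
    unfold CC
    rw [e2, ← intervalIntegral.integral_add_adjacent_intervals (i1 0 κ) (i1 κ A), e1]
    ring
  have hsum : ∑ s ∈ (Zf riemannZeta T (2 * T)).filter (fun s => NearO a b s.im), ∑ s' ∈ Zf riemannZeta T (2 * T),
        pf (CC f A) T s s' =
      (∑ s ∈ (Zf riemannZeta T (2 * T)).filter (fun s => NearO a b s.im), ∑ s' ∈ Zf riemannZeta T (2 * T),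
        pf (CC h1 κ) T s s') +
      ∑ s ∈ (Zf riemannZeta T (2 * T)).filter (fun s => NearO a b s.im), ∑ s' ∈ Zf riemannZeta T (2 * T),
        pf (CC h2 A) T s s' := by
    rw [← Finset.sum_add_distrib]
    refine Finset.sum_congr rfl fun s _ => ?_
    rw [← Finset.sum_add_distrib]
    refine Finset.sum_congr rfl fun s' _ => ?_
    unfold pf
    rw [hcc]
    ring
  -- the main term
  have hmain : |(f 0 + 2 * ∫ α in (0 : ℝ)..1, α * f α) -
      (h1 0 + 2 * ∫ α in (0 : ℝ)..κ, α * h1 α)| ≤ 2 * (δ * B) := by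
    have c1 : h1 0 = f 0 := by simp only [hh1]; rw [ct_one k0 k1 le_rfl k0.le, mul_one]
    have i1 : ∀ a b : ℝ, IntervalIntegrable (fun α => α * h1 α) volume a b :=
      fun a b => (continuous_id.mul s1.continuous).intervalIntegrable _ _
    have i2 : ∀ a b : ℝ, IntervalIntegrable (fun α => α * h2 α) volume a b :=
      fun a b => (continuous_id.mul s2.continuous).intervalIntegrable _ _
    have e1 : ∫ α in κ..1, α * h1 α = 0 := by
      rw [intervalIntegral.integral_congr (g := fun _ => (0 : ℝ))]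
      · simp
      · intro α hα
        rw [Set.uIcc_of_le k2.le] at hα
        simp only [hh1]
        rw [ct_zero k0 k1 hα.1, mul_zero, mul_zero]
    have e2 : ∫ α in (0 : ℝ)..κ₁, α * h2 α = 0 := by
      rw [intervalIntegral.integral_congr (g := fun _ => (0 : ℝ))]
      · simp
      · intro α hα
        rw [Set.uIcc_of_le k0.le] at hα
        simp only [hh2]
        rw [ct_one k0 k1 hα.1 hα.2, sub_self, mul_zero, mul_zero]
    have e3 : ∫ α in (0 : ℝ)..1, α * f α =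
        (∫ α in (0 : ℝ)..1, α * h1 α) + ∫ α in (0 : ℝ)..1, α * h2 α := by
      rw [← intervalIntegral.integral_add (i1 _ _) (i2 _ _)]
      refine intervalIntegral.integral_congr fun α _ => ?_
      simp only [hh1, hh2]
      ring
    have e4 : |∫ α in κ₁..1, α * h2 α| ≤ δ * B := by
      have h5 := intervalIntegral.norm_integral_le_of_norm_le_const (a := κ₁) (b := 1) (C := B)
        (f := fun α => α * h2 α) (by
          intro α hα
          rw [Set.uIoc_of_le (k1.trans k2).le] at hα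
          have h6 := hB α ⟨k0.le.trans hα.1.le, hα.2⟩
          simp only [hh2]
          rw [Real.norm_eq_abs, ← mul_assoc, abs_mul]
          refine (mul_le_of_le_one_right (abs_nonneg _) ?_).trans h6
          rw [abs_le]
          constructor <;> linarith [ct_le κ₁ κ α, ct_nonneg κ₁ κ α])
      rw [Real.norm_eq_abs] at h5
      refine h5.trans (le_of_eq ?_)
      rw [hκ₁, abs_of_nonneg (by linarith)]
      ring
    rw [c1, e3, ← intervalIntegral.integral_add_adjacent_intervals (i1 0 κ) (i1 κ 1), e1,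
      ← intervalIntegral.integral_add_adjacent_intervals (i2 0 κ₁) (i2 κ₁ 1), e2]
    have e5 : f 0 + 2 * ((∫ α in (0 : ℝ)..κ, α * h1 α) + 0 + (0 + ∫ α in κ₁..1, α * h2 α)) -
        (f 0 + 2 * ∫ α in (0 : ℝ)..κ, α * h1 α) = 2 * ∫ α in κ₁..1, α * h2 α := by ring
    rw [e5, abs_mul, abs_of_pos (by norm_num : (0 : ℝ) < 2)]
    linarith
  rw [hsum]
  obtain ⟨V, hV⟩ : ∃ V, V = f 0 + 2 * ∫ α in (0 : ℝ)..1, α * f α := ⟨_, rfl⟩
  obtain ⟨V1, hV1⟩ : ∃ V1, V1 = h1 0 + 2 * ∫ α in (0 : ℝ)..κ, α * h1 α := ⟨_, rfl⟩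
  rw [← hV, ← hV1] at hmain
  rw [← hV1] at t1
  rw [← hV]
  obtain ⟨Y, hY⟩ : ∃ Y, Y = T * (Real.log T / (2 * Real.pi)) := ⟨_, rfl⟩
  rw [← hY] at t1 t2 ⊢
  have hY0 : 0 < Y := by rw [hY]; positivity
  have t1' := (abs_le.1 t1).1
  have d1 : V * G01 a b - V1 * G01 a b ≤ ε / 3 := by
    have h3 : (V - V1) * G01 a b ≤ 2 * (δ * B) * 1 := by
      refine (mul_le_mul_of_nonneg_right ((abs_le.1 hmain).2) hG0).trans ?_
      exact mul_le_mul_of_nonneg_left hG1 (by positivity)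
    linarith
  have d2 := mul_le_mul_of_nonneg_right d1 hY0.le
  linarith

open Classical in
/-- the pairs across the boundary of a class -/
theorem acrossC (RH : RiemannHypothesis) {f : ℝ → ℝ} {K : ℝ} (hK0 : 0 ≤ K) (hK : ∀ w : ℝ, |f w| ≤ K / (1 + w ^ 2))
    {a b ε : ℝ} (hab : a < b) (hε : 0 < ε) : ∀ᶠ T : ℝ in atTop,
    |∑ s ∈ (Zf riemannZeta T (2 * T)).filter (fun s => NearO a b s.im), ∑ s' ∈ Zf riemannZeta T (2 * T),
        pf f T s s' - ∑ s ∈ (Zf riemannZeta T (2 * T)).filter (fun s => NearO a b s.im),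
        ∑ s' ∈ (Zf riemannZeta T (2 * T)).filter (fun s => NearO a b s.im), pf f T s s'| ≤
      ε * (T * (Real.log T / (2 * Real.pi))) := by
  have hpi := Real.pi_pos
  have hb : (0:ℝ) < 1 / 2 := by norm_num
  have hR := fb_TF hb (by norm_num)
  obtain ⟨c, hc⟩ : ∃ c, c = 2 * K + 1 := ⟨_, rfl⟩
  have hc0 : 0 < c := by rw [hc]; positivity
  have hfR : ∀ w, |f w| ≤ c * rh (fb (1 / 2)) w := by
    intro w
    have h2 := fb_low2 hb (by norm_num) w
    have h4 : K / (1 + w ^ 2) ≤ c * ((1 / 2) / (1 + w ^ 2)) := by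
      rw [mul_div_assoc', hc]
      apply div_le_div_of_nonneg_right _ (by positivity)
      linarith
    have h5 := mul_le_mul_of_nonneg_left h2 hc0.le
    linarith [hK w]
  filter_upwards [law_W RH hR hb (by norm_num) hab (show 0 < ε / (2 * c) by positivity),
    law_W2 RH hR hb (by norm_num) hab hab (show 0 < ε / (2 * c) by positivity), eventually_ge_atTop 10] with T t1 t2 t3
  have hL : 0 < Real.log T := Real.log_pos (by linarith)
  obtain ⟨Y, hY⟩ : ∃ Y, Y = T * (Real.log T / (2 * Real.pi)) := ⟨_, rfl⟩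
  rw [← hY] at t1 t2 ⊢
  have hY0 : 0 < Y := by rw [hY]; positivity
  rw [max_self, min_self] at t2
  obtain ⟨Z, hZ⟩ : ∃ Z, Z = Zf riemannZeta T (2 * T) := ⟨_, rfl⟩
  obtain ⟨GA, hGA⟩ : ∃ GA : Finset ℂ, GA = Z.filter (fun s => NearO a b s.im) := ⟨_, rfl⟩
  rw [← hZ, ← hGA] at t1 ⊢
  rw [← hZ] at t2
  have e0 : ∀ g : ℂ → ℂ → ℝ, (∑ s ∈ GA, ∑ s' ∈ Z, g s s') - ∑ s ∈ GA, ∑ s' ∈ GA, g s s' =
      ∑ s ∈ GA, ∑ s' ∈ Z.filter (fun s => ¬ NearO a b s.im), g s s' := by
    intro g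
    rw [← Finset.sum_sub_distrib]
    refine Finset.sum_congr rfl fun s _ => ?_
    have h3 := Finset.sum_filter_add_sum_filter_not Z (fun s : ℂ => NearO a b s.im) (fun s' => g s s')
    rw [← hGA] at h3
    linarith
  have e1 : ∑ s ∈ Z, ∑ s' ∈ Z, (if NearO a b s.im ∧ NearO a b s'.im then pw (fb (1 / 2)) T s s' else 0) =
      ∑ s ∈ GA, ∑ s' ∈ GA, pw (fb (1 / 2)) T s s' := by
    rw [hGA, Finset.sum_filter]
    refine Finset.sum_congr rfl fun s _ => ?_
    by_cases h : NearO a b s.im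
    · rw [if_pos h, Finset.sum_filter]
      refine Finset.sum_congr rfl fun s' _ => ?_
      simp only [h, true_and]
    · rw [if_neg h]
      refine Finset.sum_eq_zero fun s' _ => ?_
      rw [if_neg]
      rintro ⟨h', -⟩
      exact h h'
  rw [e1] at t2
  have e2 : ∑ s ∈ GA, Wt (fb (1 / 2)) T s = ∑ s ∈ GA, ∑ s' ∈ Z, pw (fb (1 / 2)) T s s' := by
    refine Finset.sum_congr rfl fun s _ => ?_
    unfold Wt
    rw [← hZ]
  rw [e2] at t1
  have e3 := e0 (fun s s' => pw (fb (1 / 2)) T s s')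
  rw [e0 (fun s s' => pf f T s s')]
  have h4 : |∑ s ∈ GA, ∑ s' ∈ Z.filter (fun s => ¬ NearO a b s.im), pf f T s s'| ≤
      c * ∑ s ∈ GA, ∑ s' ∈ Z.filter (fun s => ¬ NearO a b s.im), pw (fb (1 / 2)) T s s' := by
    refine (Finset.abs_sum_le_sum_abs _ _).trans ?_
    rw [Finset.mul_sum]
    refine Finset.sum_le_sum fun s _ => ?_
    refine (Finset.abs_sum_le_sum_abs _ _).trans ?_
    rw [Finset.mul_sum]
    refine Finset.sum_le_sum fun s' _ => ?_
    unfold pf pw
    rw [abs_mul, abs_of_nonneg (by positivity : (0:ℝ) ≤ (mult riemannZeta s : ℝ) * (mult riemannZeta s' : ℝ))]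
    have := mul_le_mul_of_nonneg_left (hfR (Real.log T * (s.im - s'.im)))
      (by positivity : (0:ℝ) ≤ (mult riemannZeta s : ℝ) * (mult riemannZeta s' : ℝ))
    linarith
  refine h4.trans ?_
  rw [← e3]
  have h5 : (∑ s ∈ GA, ∑ s' ∈ Z, pw (fb (1 / 2)) T s s') - ∑ s ∈ GA, ∑ s' ∈ GA, pw (fb (1 / 2)) T s s' ≤
      2 * (ε / (2 * c) * Y) := by
    linarith [(abs_le.1 t1).2, (abs_le.1 t2).1]
  have h6 := mul_le_mul_of_nonneg_left h5 hc0.le
  refine h6.trans (le_of_eq ?_)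
  field_simp

open Classical in
/-- **Montgomery's inequality in a size class, both members in the class** -/
theorem lowC2 (RH : RiemannHypothesis) {A : ℝ} (hA : 0 < A) {f : ℝ → ℝ} (hf : ContDiff ℝ 2 f) (hfA : f A = 0)
    {κ₀ : ℝ} (hκ₀ : κ₀ < 1) (hpos : ∀ α, κ₀ ≤ α → α ≤ A → 0 ≤ f α) {a b : ℝ} (hab : a < b) {ε : ℝ} (hε : 0 < ε) :
    ∀ᶠ T : ℝ in atTop, ((f 0 + 2 * ∫ x in (0:ℝ)..(min 1 A), x * f x) * G01 a b - ε) *
      (T * (Real.log T / (2 * Real.pi))) ≤
      ∑ s ∈ (Zf riemannZeta T (2 * T)).filter (fun s => NearO a b s.im),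
        ∑ s' ∈ (Zf riemannZeta T (2 * T)).filter (fun s => NearO a b s.im), pf (CC f A) T s s' := by
  obtain ⟨K, hK0, hK⟩ := CC_dec hf hA.le hfA
  filter_upwards [lowC RH hA hf hfA hκ₀ hpos hab (show 0 < ε / 2 by positivity),
    acrossC RH hK0 hK hab (show 0 < ε / 2 by positivity)] with T t1 t2
  have := (abs_le.1 t2).2
  linarith

end

end Run7.h911.PQ
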