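import Pool.Agent.Run7.h911.PG3
import Pool.Agent.R482.GB.Main

set_option autoImplicit false

/-! # Close pairs and pairs in windows in a size class (helper911) -/

namespace Run7.h911.PQ

open Filter Topology MeasureTheory Complex
open H370 (Zf mult good_zeta)
open Run7.h911.SZ (G01 G01_nonneg G01_le)
open Pool.Agent.R482.GB (CC VV)

noncomputable section

open Classical in
/-- the number of the pairs in a class with the difference in a set -/
def cnt (a b : ℝ) (E : Set ℝ) (T : ℝ) : ℝ :=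
  ∑ s ∈ (Zf riemannZeta T (2 * T)).filter (fun s => NearO a b s.im),
    ∑ s' ∈ (Zf riemannZeta T (2 * T)).filter (fun s => NearO a b s.im),
      (mult riemannZeta s : ℝ) * (mult riemannZeta s' : ℝ) *
        (if (s.im - s'.im) * Real.log T / (2 * Real.pi) ∈ E then 1 else 0)

/-- **close pairs in a size class** -/
theorem closeC (RH : RiemannHypothesis) {β : ℝ} (hβ : 0 < β) {a b : ℝ} (hab : a < b) {ε : ℝ} (hε : 0 < ε) :
    ∀ᶠ T : ℝ in atTop, (VV β * G01 a b - ε) * (T * (Real.log T / (2 * Real.pi))) ≤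
      cnt a b (Set.Icc (-β) β) T := by
  classical
  have hpi := Real.pi_pos
  have hsm : ContDiff ℝ 2 (Pool.Agent.R482.GB.fb β) := by
    unfold Pool.Agent.R482.GB.fb H370.A3.ss
    fun_prop
  have h0 : Pool.Agent.R482.GB.fb β (1 / β) = 0 := by
    unfold Pool.Agent.R482.GB.fb
    rw [mul_one_div_cancel hβ.ne', H370.A3.ss_one, mul_zero]
  have hpos : ∀ x : ℝ, 0 ≤ x → x ≤ 1 / β → 0 ≤ Pool.Agent.R482.GB.fb β x := by
    intro x _ hx
    refine mul_nonneg hβ.le (H370.A3.ss_nonneg ?_)
    rw [le_div_iff₀ hβ] at hx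
    linarith
  filter_upwards [lowC2 RH (by positivity : 0 < 1 / β) hsm h0 (κ₀ := 0) one_pos hpos hab hε,
    eventually_ge_atTop 10] with T hT hT10
  have hL : 0 < Real.log T := Real.log_pos (by linarith)
  have e0 : Pool.Agent.R482.GB.fb β 0 + 2 * ∫ x in (0 : ℝ)..(min 1 (1 / β)), x * Pool.Agent.R482.GB.fb β x =
      VV β := by
    unfold VV Pool.Agent.R482.GB.fb H370.A3.ss
    simp
  rw [e0] at hT
  refine hT.trans ?_
  unfold cnt pf
  refine Finset.sum_le_sum fun s _ => Finset.sum_le_sum fun s' _ => ?_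
  apply mul_le_mul_of_nonneg_left _ (by positivity)
  rw [Pool.Agent.R482.GB.CC_fb hβ]
  have e : Real.log T * (s.im - s'.im) / (2 * Real.pi * β) = (s.im - s'.im) * Real.log T / (2 * Real.pi) / β := by
    field_simp
  rw [e]
  split_ifs with h
  · exact H370.A3.HH_le _
  · apply H370.A3.HH_neg
    rw [abs_div, abs_of_pos hβ, lt_div_iff₀ hβ, one_mul]
    by_contra hcon
    push Not at hcon
    exact h (abs_le.1 hcon)

/-- the kernel of a window -/
def wk (p β x : ℝ) : ℝ := 2 * Real.cos (2 * Real.pi * p * x) * Pool.Agent.R482.GB.fb β x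

lemma CC_wk {β : ℝ} (hβ : 0 < β) (p y : ℝ) : CC (wk p β) (1 / β) y =
    H370.A3.HH ((y - 2 * Real.pi * p) / (2 * Real.pi * β)) + H370.A3.HH ((y + 2 * Real.pi * p) / (2 * Real.pi * β)) := by
  rw [← Pool.Agent.R482.GB.CC_fb hβ, ← Pool.Agent.R482.GB.CC_fb hβ]
  unfold CC
  have hfc : Continuous (Pool.Agent.R482.GB.fb β) := by
    unfold Pool.Agent.R482.GB.fb H370.A3.ss
    fun_prop
  have hi : ∀ w u v : ℝ, IntervalIntegrable (fun x => Pool.Agent.R482.GB.fb β x * Real.cos (w * x)) volume u v :=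
    fun w u v => (hfc.mul (by fun_prop)).intervalIntegrable u v
  rw [← mul_add, ← intervalIntegral.integral_add (hi _ _ _) (hi _ _ _)]
  congr 1
  refine intervalIntegral.integral_congr fun x _ => ?_
  show wk p β x * Real.cos (y * x) = Pool.Agent.R482.GB.fb β x * Real.cos ((y - 2 * Real.pi * p) * x) +
    Pool.Agent.R482.GB.fb β x * Real.cos ((y + 2 * Real.pi * p) * x)
  unfold wk
  rw [sub_mul, add_mul, Real.cos_add, Real.cos_sub]
  ring

lemma int_ss : ∫ x in (0 : ℝ)..1, x * H370.A3.ss x ≤ 1 / 6 := by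
  have hpi := Real.pi_pos
  have h := Pool.Agent.R482.GB.int_val (β := 1) one_pos
  have e : ∫ x in (0 : ℝ)..1, x * H370.A3.ss x =
      ∫ x in (0 : ℝ)..1, x * (1 - 1 * x + Real.sin (2 * Real.pi * (1 * x)) / (2 * Real.pi)) := by
    refine intervalIntegral.integral_congr fun x _ => ?_
    show x * H370.A3.ss x = x * (1 - 1 * x + Real.sin (2 * Real.pi * (1 * x)) / (2 * Real.pi))
    unfold H370.A3.ss
    rw [one_mul]
  rw [e, h, mul_one, Real.sin_two_pi, Real.cos_two_pi, zero_div, zero_sub]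
  have h2 : 0 ≤ 1 / (2 * Real.pi) / (2 * Real.pi) := by positivity
  rw [neg_div]
  linarith

/-- the main term of a window -/
lemma wk_main {β : ℝ} (hβ : 1 < β) (p : ℝ) :
    2 * β - 2 / (3 * β) ≤ wk p β 0 + 2 * ∫ x in (0 : ℝ)..(min 1 (1 / β)), x * wk p β x := by
  have hβ0 : 0 < β := by linarith
  have h1 : 1 / β ≤ 1 := by rw [div_le_one hβ0]; linarith
  rw [min_eq_right h1]
  have e0 : wk p β 0 = 2 * β := by
    unfold wk Pool.Agent.R482.GB.fb
    rw [mul_zero, mul_zero, Real.cos_zero, H370.A3.ss_zero]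
    ring
  have hfc : Continuous (Pool.Agent.R482.GB.fb β) := by
    unfold Pool.Agent.R482.GB.fb H370.A3.ss
    fun_prop
  have hsc : Continuous H370.A3.ss := H370.A3.ss_cont
  have h2 : -∫ x in (0 : ℝ)..(1 / β), x * (2 * Pool.Agent.R482.GB.fb β x) ≤
      ∫ x in (0 : ℝ)..(1 / β), x * wk p β x := by
    rw [← intervalIntegral.integral_neg]
    refine intervalIntegral.integral_mono_on (by positivity) ?_ ?_ fun x hx => ?_
    · exact Continuous.intervalIntegrable (by fun_prop) _ _
    · refine Continuous.intervalIntegrable ?_ _ _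
      unfold wk
      fun_prop
    · have h3 : 0 ≤ Pool.Agent.R482.GB.fb β x := by
        refine mul_nonneg hβ0.le (H370.A3.ss_nonneg ?_)
        have := hx.2
        rw [le_div_iff₀ hβ0] at this
        linarith
      unfold wk
      have h4 := Real.neg_one_le_cos (2 * Real.pi * p * x)
      have h5 : -(2 * Pool.Agent.R482.GB.fb β x) ≤ 2 * Real.cos (2 * Real.pi * p * x) * Pool.Agent.R482.GB.fb β x := by
        nlinarith
      have h6 := mul_le_mul_of_nonneg_left h5 hx.1
      linarith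
  have h3 : ∫ x in (0 : ℝ)..(1 / β), x * (2 * Pool.Agent.R482.GB.fb β x) ≤ 1 / (3 * β) := by
    have h4 := intervalIntegral.mul_integral_comp_mul_left (a := (0 : ℝ)) (b := 1 / β) (c := β)
      (f := fun z : ℝ => z * H370.A3.ss z)
    rw [mul_zero, mul_one_div_cancel hβ0.ne'] at h4
    have e1 : ∫ x in (0 : ℝ)..(1 / β), x * (2 * Pool.Agent.R482.GB.fb β x) =
        ∫ x in (0 : ℝ)..(1 / β), 2 * ((β * x) * H370.A3.ss (β * x)) := by
      refine intervalIntegral.integral_congr fun x _ => ?_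
      show x * (2 * Pool.Agent.R482.GB.fb β x) = 2 * ((β * x) * H370.A3.ss (β * x))
      unfold Pool.Agent.R482.GB.fb
      ring
    rw [e1, intervalIntegral.integral_const_mul]
    have h5 : ∫ x in (0 : ℝ)..(1 / β), (β * x) * H370.A3.ss (β * x) =
        (1 / β) * ∫ x in (0 : ℝ)..1, x * H370.A3.ss x := by
      rw [← h4]
      field_simp
    rw [h5]
    have h6 := int_ss
    have h7 : 1 / β * ∫ x in (0 : ℝ)..1, x * H370.A3.ss x ≤ 1 / β * (1 / 6) :=
      mul_le_mul_of_nonneg_left h6 (by positivity)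
    have e2 : 1 / (3 * β) = 2 * (1 / β * (1 / 6)) := by field_simp; norm_num
    rw [e2]
    linarith
  rw [e0]
  have e3 : 2 / (3 * β) = 2 * (1 / (3 * β)) := by ring
  rw [e3]
  linarith

lemma cnt_symm (a b p β T : ℝ) : cnt a b (Set.Icc (-p - β) (-p + β)) T = cnt a b (Set.Icc (p - β) (p + β)) T := by
  classical
  unfold cnt
  rw [Finset.sum_comm]
  refine Finset.sum_congr rfl fun s _ => Finset.sum_congr rfl fun s' _ => ?_
  have e : (s'.im - s.im) * Real.log T / (2 * Real.pi) ∈ Set.Icc (-p - β) (-p + β) ↔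
      (s.im - s'.im) * Real.log T / (2 * Real.pi) ∈ Set.Icc (p - β) (p + β) := by
    have e1 : (s'.im - s.im) * Real.log T / (2 * Real.pi) = -((s.im - s'.im) * Real.log T / (2 * Real.pi)) := by ring
    rw [e1, Set.mem_Icc, Set.mem_Icc]
    constructor
    · rintro ⟨h1, h2⟩; constructor <;> linarith
    · rintro ⟨h1, h2⟩; constructor <;> linarith
  simp only [e]
  ring_nf

/-- **pairs in a window in a size class** -/
theorem windowC (RH : RiemannHypothesis) {α β : ℝ} (hαβ : 2 < β - α) {a b : ℝ} (hab : a < b) {ε : ℝ} (hε : 0 < ε) :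
    ∀ᶠ T : ℝ in atTop, ((β - α) / 3 * G01 a b - ε) * (T * (Real.log T / (2 * Real.pi))) ≤
      cnt a b (Set.Icc α β) T := by
  classical
  have hpi := Real.pi_pos
  obtain ⟨p, hp⟩ : ∃ p, p = (α + β) / 2 := ⟨_, rfl⟩
  obtain ⟨h, hh⟩ : ∃ h, h = (β - α) / 2 := ⟨_, rfl⟩
  have hh1 : 1 < h := by rw [hh]; linarith
  have hh0 : 0 < h := by linarith
  have e1 : α = p - h := by rw [hp, hh]; ring
  have e2 : β = p + h := by rw [hp, hh]; ring
  have hsm : ContDiff ℝ 2 (wk p h) := by
    unfold wk Pool.Agent.R482.GB.fb H370.A3.ss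
    fun_prop
  have h0 : wk p h (1 / h) = 0 := by
    unfold wk Pool.Agent.R482.GB.fb
    rw [mul_one_div_cancel hh0.ne', H370.A3.ss_one, mul_zero, mul_zero]
  have hA1 : 1 / h < 1 := by rw [div_lt_one hh0]; exact hh1
  have hG0 := G01_nonneg a b
  filter_upwards [lowC2 RH (by positivity : 0 < 1 / h) hsm h0 (κ₀ := (1 / h + 1) / 2) (by linarith)
    (fun x h1 h2 => by linarith) hab (show 0 < 2 * ε by positivity), eventually_ge_atTop 10] with T hT hT10
  have hL : 0 < Real.log T := Real.log_pos (by linarith)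
  obtain ⟨Y, hY⟩ : ∃ Y, Y = T * (Real.log T / (2 * Real.pi)) := ⟨_, rfl⟩
  rw [← hY] at hT ⊢
  have hY0 : 0 < Y := by rw [hY]; positivity
  have hm := wk_main hh1 p
  have h3 : ∑ s ∈ (Zf riemannZeta T (2 * T)).filter (fun s => NearO a b s.im),
        ∑ s' ∈ (Zf riemannZeta T (2 * T)).filter (fun s => NearO a b s.im), pf (CC (wk p h) (1 / h)) T s s' ≤
      cnt a b (Set.Icc (p - h) (p + h)) T + cnt a b (Set.Icc (-p - h) (-p + h)) T := by
    unfold cnt
    rw [← Finset.sum_add_distrib]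
    refine Finset.sum_le_sum fun s _ => ?_
    rw [← Finset.sum_add_distrib]
    refine Finset.sum_le_sum fun s' _ => ?_
    unfold pf
    rw [← mul_add]
    apply mul_le_mul_of_nonneg_left _ (by positivity)
    rw [CC_wk hh0]
    obtain ⟨x, hx⟩ : ∃ x, x = (s.im - s'.im) * Real.log T / (2 * Real.pi) := ⟨_, rfl⟩
    rw [← hx]
    have a1 : (Real.log T * (s.im - s'.im) - 2 * Real.pi * p) / (2 * Real.pi * h) = (x - p) / h := by
      rw [hx]; field_simp
    have a2 : (Real.log T * (s.im - s'.im) + 2 * Real.pi * p) / (2 * Real.pi * h) = (x + p) / h := by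
      rw [hx]; field_simp
    rw [a1, a2]
    have key : ∀ c : ℝ, x ∉ Set.Icc (c - h) (c + h) → H370.A3.HH ((x - c) / h) ≤ 0 := by
      intro c hc
      apply H370.A3.HH_neg
      rw [abs_div, abs_of_pos hh0, lt_div_iff₀ hh0, one_mul]
      by_contra hcon
      push Not at hcon
      have h4 := abs_le.1 hcon
      exact hc ⟨by linarith [h4.1], by linarith [h4.2]⟩
    apply add_le_add
    · split_ifs with hc
      · exact H370.A3.HH_le _
      · exact key p hc
    · split_ifs with hc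
      · exact H370.A3.HH_le _
      · have := key (-p) hc
        rwa [sub_neg_eq_add] at this
  rw [cnt_symm] at h3
  rw [e1, e2]
  have e3 : p + h - (p - h) = 2 * h := by ring
  rw [e3]
  have h5 : 2 * (2 * h / 3 * G01 a b) ≤ (2 * h - 2 / (3 * h)) * G01 a b := by
    have h6 : 2 / (3 * h) ≤ 2 * h / 3 := by
      rw [div_le_div_iff₀ (by positivity) (by norm_num)]
      nlinarith
    have h7 := mul_le_mul_of_nonneg_right (show 2 * (2 * h / 3) ≤ 2 * h - 2 / (3 * h) by linarith) hG0
    linarith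
  have h8 := mul_le_mul_of_nonneg_right (hm) hG0
  have h9 := mul_le_mul_of_nonneg_right (h5.trans h8) hY0.le
  linarith

end

end Run7.h911.PQ
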