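import Pool.Agent.Run7.h911.PG4
import Pool.Agent.R482.GB.Idx

set_option autoImplicit false

/-! # Small gaps in a size class, in dyadic blocks (helper911) -/

namespace Run7.h911.PQ

open Filter Topology MeasureTheory Complex
open H370 (Zf mult good_zeta)
open H370.A3 (kk kk_cast EE' EE_finite)
open Run7.h911.SZ (G01 G01_nonneg G01_le bl Near Bk)
open Pool.Agent.R482.GB (CC VV sum_idx W_le_w cube_dyadic NN_Zf NZ_add)
open Pool.Agent.R304.UP (nn nn_nonneg)
open SG (ord NZ)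

noncomputable section

lemma near_iff (a b : ℝ) (n : ℕ) : Near a b n ↔ NearO a b (ord n) := Iff.rfl

open Classical in
lemma sumN (RH : RiemannHypothesis) {T : ℝ} (hT : 1 ≤ T) (P : ℝ → Prop) :
    ∑ s ∈ (Zf riemannZeta T (2 * T)).filter (fun s => P s.im), (mult riemannZeta s : ℝ) =
      (((Finset.Ioc (NZ T) (NZ (2 * T))).filter (fun n => P (ord n))).card : ℝ) := by
  have h := sum_idx RH hT (by linarith : T ≤ 2 * T) (fun t => if P t then (1 : ℝ) else 0)
  rw [Finset.sum_filter, Finset.card_filter]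
  push_cast
  rw [← h]
  refine Finset.sum_congr rfl fun s _ => ?_
  split_ifs <;> simp

open Classical in
/-- the number of the zeros in a class, lower bound -/
lemma cntN_low (RH : RiemannHypothesis) {a b ε : ℝ} (hab : a < b) (hε : 0 < ε) : ∀ᶠ T : ℝ in atTop,
    (G01 a b - ε) * (T * (Real.log T / (2 * Real.pi))) ≤
      ∑ s ∈ (Zf riemannZeta T (2 * T)).filter (fun s => NearO a b s.im), (mult riemannZeta s : ℝ) := by
  filter_upwards [Run7.h911.SZ.law_low (rhs_of RH) hab hε, Run7.h911.SZ.ev_basic 1] with T hT hb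
  obtain ⟨hT10, -, hL1, -⟩ := hb
  rw [sumN RH (by linarith)]
  refine hT.trans ?_
  refine Nat.cast_le.2 (Finset.card_le_card fun n hn => ?_)
  rw [Finset.mem_filter] at hn ⊢
  refine ⟨?_, hn.2⟩
  obtain ⟨h1, h2, h3⟩ := Run7.h911.SZ.mem_bl hn.1
  rw [Finset.mem_Ioc]
  constructor
  · by_contra hcon
    push Not at hcon
    have := (SG.ord_le_iff h1 T).mpr hcon
    linarith
  · exact (SG.ord_le_iff h1 _).mp (by linarith)

open Classical in
/-- the number of the zeros in a class, upper bound -/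
theorem cntN_up (RH : RiemannHypothesis) {a b ε : ℝ} (hab : a < b) (hε : 0 < ε) : ∀ᶠ T : ℝ in atTop,
    ∑ s ∈ (Zf riemannZeta T (2 * T)).filter (fun s => NearO a b s.im), (mult riemannZeta s : ℝ) ≤
      (G01 a b + ε) * (T * (Real.log T / (2 * Real.pi))) := by
  have hpi := Real.pi_pos
  obtain ⟨M, hM1, hM2, hM⟩ := Run7.h911.SZ.G01_total hab (show 0 < ε / 4 by positivity)
  obtain ⟨T2, hT2, hN⟩ := Pool.Agent.R482.GB.N_dyadic (ε / 4 / (2 * Real.pi)) (by positivity)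
  filter_upwards [cntN_low RH hM1 (show 0 < ε / 4 by positivity), cntN_low RH hM2 (show 0 < ε / 4 by positivity),
    eventually_ge_atTop T2] with T t1 t2 t3
  have hT10 : 10 ≤ T := hT2.trans t3
  have t4 := (abs_le.1 (hN T t3)).2
  rw [NN_Zf good_zeta (by linarith)] at t4
  obtain ⟨Y, hY⟩ : ∃ Y, Y = T * (Real.log T / (2 * Real.pi)) := ⟨_, rfl⟩
  have e1 : T * Real.log T / (2 * Real.pi) = Y := by rw [hY]; ring
  have e2 : ε / 4 / (2 * Real.pi) * (T * Real.log T) = ε / 4 * Y := by rw [hY]; field_simp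
  rw [e1, e2] at t4
  rw [← hY] at t1 t2 ⊢
  have hL0 : 0 < Real.log T := Real.log_pos (by linarith)
  have hY0 : 0 < Y := by rw [hY]; positivity
  obtain ⟨Z, hZ⟩ : ∃ Z, Z = Zf riemannZeta T (2 * T) := ⟨_, rfl⟩
  rw [← hZ] at t1 t2 t4 ⊢
  have hlog : ∀ s ∈ Z, 0 < Real.log s.im := by
    intro s hs
    rw [hZ] at hs
    obtain ⟨-, -, z3, -, -⟩ := (H370.mem_Zf good_zeta (by linarith)).mp hs
    exact Real.log_pos (by linarith)
  have hsum : ∑ s ∈ Z.filter (fun s => NearO a b s.im), (mult riemannZeta s : ℝ) +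
      ∑ s ∈ Z.filter (fun s => NearO (-M) a s.im), (mult riemannZeta s : ℝ) +
      ∑ s ∈ Z.filter (fun s => NearO b M s.im), (mult riemannZeta s : ℝ) ≤ ∑ s ∈ Z, (mult riemannZeta s : ℝ) := by
    rw [← Finset.sum_union, ← Finset.sum_union]
    · refine Finset.sum_le_sum_of_subset_of_nonneg ?_ fun s _ _ => Nat.cast_nonneg _
      intro s hs
      simp only [Finset.mem_union, Finset.mem_filter] at hs
      rcases hs with (h | h) | h
      · exact h.1
      · exact h.1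
      · exact h.1
    · rw [Finset.disjoint_left]
      intro s hs hs'
      simp only [Finset.mem_union, Finset.mem_filter] at hs hs'
      rcases hs with h | h
      · exact near_exclO le_rfl (hlog s h.1) h.2 hs'.2
      · exact near_exclO hab.le (hlog s h.1) h.2 hs'.2
    · rw [Finset.disjoint_left]
      intro s hs hs'
      simp only [Finset.mem_filter] at hs hs'
      exact near_exclO le_rfl (hlog s hs.1) hs'.2 hs.2
  have h3 := mul_le_mul_of_nonneg_right hM hY0.le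
  linarith

lemma nn_ge_one {T : ℝ} {s : ℂ} (hs : s ∈ Zf riemannZeta T (2 * T)) (hT : 1 ≤ T) (RH : RiemannHypothesis) :
    1 ≤ nn T s := by
  unfold nn
  have h1 : (mult riemannZeta s : ℝ) * (1 / (1 + (Real.log T * (s.im - s.im)) ^ 2)) ≤
      ∑ s' ∈ Zf riemannZeta T (2 * T), (mult riemannZeta s' : ℝ) *
        (1 / (1 + (Real.log T * (s'.im - s.im)) ^ 2)) :=
    Finset.single_le_sum (f := fun s' : ℂ => (mult riemannZeta s' : ℝ) *
        (1 / (1 + (Real.log T * (s'.im - s.im)) ^ 2))) (fun s' _ => by positivity) hs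
  have h2 := (Pool.Agent.R482.GB.Jb_facts RH hT hs).1
  have h3 : (1 : ℝ) ≤ mult riemannZeta s := by exact_mod_cast h2
  have e : (1 : ℝ) / (1 + (Real.log T * (s.im - s.im)) ^ 2) = 1 := by
    rw [sub_self, mul_zero]; norm_num
  rw [e, mul_one] at h1
  linarith

open Classical in
/-- **small gaps in a size class, in a dyadic block** -/
theorem smallC (RH : RiemannHypothesis) {β : ℝ} (hβ : 0 < β) (hV : 1 < VV β) : ∃ κ : ℝ, 0 < κ ∧
    ∀ a b : ℝ, a < b → ∀ᶠ T : ℝ in atTop, κ * G01 a b ^ 2 * (T * Real.log T) ≤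
      (((EE_finite T (2 * T) (2 * Real.pi * β / Real.log T)).toFinset.filter
        (fun n => Near a b n ∧ Near a b (n + 1))).card : ℝ) := by
  have hpi := Real.pi_pos
  obtain ⟨C, T4, hC, hT4, h4⟩ := cube_dyadic RH hβ
  have hV0 : 0 < VV β - 1 := by linarith
  refine ⟨(VV β - 1) ^ 2 / (256 * C * Real.pi ^ 2), by positivity, fun a b hab => ?_⟩
  have hG0 := G01_nonneg a b
  rcases hG0.eq_or_lt with h0 | hG
  · filter_upwards with T
    rw [← h0]
    simp
  obtain ⟨θ, hθ, hab', hGθ⟩ := Run7.h911.SZ.G01_shrink hab (show 0 < G01 a b / 2 by positivity)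
  obtain ⟨M, hM⟩ : ∃ M, M = G01 (a + θ) (b - θ) := ⟨_, rfl⟩
  rw [← hM] at hGθ
  have hMG : G01 a b / 2 ≤ M := by linarith
  have hM0 : 0 < M := by linarith
  obtain ⟨ε, hε⟩ : ∃ ε : ℝ, ε = M * (VV β - 1) / 4 := ⟨_, rfl⟩
  have hε0 : 0 < ε := by rw [hε]; positivity
  obtain ⟨c2, hc2⟩ : ∃ c2 : ℝ, c2 = ε ^ 2 / (C * Real.pi ^ 2) := ⟨_, rfl⟩
  have hc20 : 0 < c2 := by rw [hc2]; positivity
  obtain ⟨κ0, hκ0, hbad⟩ := bad_few (rhs_of RH) (show 0 < c2 / 8 by positivity)
  obtain ⟨η0, hη0, hcls⟩ := cls2 (a := a + θ) (b := b - θ) (c := a + θ) (d := b - θ) hθ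
  obtain ⟨W, hW0, hX⟩ := Run7.h911.SZ.exX (2 * Real.pi * β + 1) η0 κ0 (by positivity) hη0 hκ0
  filter_upwards [closeC RH hβ hab' hε0, cntN_up RH hab' hε0, hbad, hcls W (2 * Real.pi * β) hW0 (by positivity), hX,
    eventually_ge_atTop T4, Run7.h911.SZ.ev_basic 1] with T t1 t2 tbad tcls tX tT4 tb
  obtain ⟨hT10, -, hL1, hT2⟩ := tb
  obtain ⟨X, hXv, hXB⟩ := tX
  have tbad := tbad X hXB.meas hXv
  have t4 := h4 T tT4
  have hT1 : 1 ≤ T := by linarith
  have hT0 : 0 < T := by linarith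
  obtain ⟨L, hL⟩ : ∃ L, L = Real.log T := ⟨_, rfl⟩
  have hL0 : 0 < L := by rw [hL]; linarith
  obtain ⟨ρ, hρ⟩ : ∃ ρ, ρ = 2 * Real.pi * β / Real.log T := ⟨_, rfl⟩
  rw [← hρ] at t4 tcls ⊢
  have hρ0 : 0 ≤ ρ := by rw [hρ, ← hL]; positivity
  obtain ⟨Y, hY⟩ : ∃ Y, Y = T * (Real.log T / (2 * Real.pi)) := ⟨_, rfl⟩
  rw [← hY, ← hM] at t1 t2
  have hYL : Y = T * Real.log T / (2 * Real.pi) := by rw [hY]; ring
  have hY0 : 0 < Y := by rw [hY, ← hL]; positivity
  obtain ⟨Z, hZ⟩ : ∃ Z, Z = Zf riemannZeta T (2 * T) := ⟨_, rfl⟩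
  rw [← hZ] at t2 tbad t4
  obtain ⟨GA, hGA⟩ : ∃ GA : Finset ℂ, GA = Z.filter (fun s => NearO (a + θ) (b - θ) s.im) := ⟨_, rfl⟩
  rw [← hGA] at t2
  have hGZ : GA ⊆ Z := by rw [hGA]; exact Finset.filter_subset _ _
  -- the pair count in terms of `kk`
  have q1 : cnt (a + θ) (b - θ) (Set.Icc (-β) β) T ≤ ∑ s ∈ GA, (mult riemannZeta s : ℝ) * (kk T (2 * T) ρ s : ℝ) := by
    unfold cnt
    rw [← hZ, ← hGA]
    refine Finset.sum_le_sum fun s _ => ?_
    rw [kk_cast, ← hZ, Finset.mul_sum]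
    refine (Finset.sum_le_sum_of_subset_of_nonneg hGZ fun s' _ _ => by split_ifs <;> positivity).trans
      (le_of_eq ?_)
    rw [Finset.sum_filter]
    refine Finset.sum_congr rfl fun s' _ => ?_
    have e2 : (s.im - s'.im) * Real.log T / (2 * Real.pi) ∈ Set.Icc (-β) β ↔ |s.im - s'.im| ≤ ρ := by
      rw [Set.mem_Icc, ← abs_le, abs_div, abs_mul, ← hL, abs_of_pos hL0, abs_of_pos (by positivity : 0 < 2 * Real.pi),
        div_le_iff₀ (by positivity), hρ, ← hL, le_div_iff₀ hL0]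
      constructor <;> intro h <;> linarith
    simp only [e2]
    split_ifs <;> ring
  obtain ⟨S, hS⟩ : ∃ S : Finset ℂ, S = GA.filter (fun s => 2 ≤ kk T (2 * T) ρ s) := ⟨_, rfl⟩
  have q2 : 2 * ε * Y ≤ ∑ s ∈ S, (mult riemannZeta s : ℝ) * (kk T (2 * T) ρ s : ℝ) := by
    have g1 := Finset.sum_filter_add_sum_filter_not GA (fun s => 2 ≤ kk T (2 * T) ρ s)
      (fun s => (mult riemannZeta s : ℝ) * (kk T (2 * T) ρ s : ℝ))
    rw [← hS] at g1
    have g2 : ∑ s ∈ GA.filter (fun s => ¬ 2 ≤ kk T (2 * T) ρ s), (mult riemannZeta s : ℝ) * (kk T (2 * T) ρ s : ℝ) ≤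
        ∑ s ∈ GA, (mult riemannZeta s : ℝ) := by
      refine le_trans (Finset.sum_le_sum (g := fun s => (mult riemannZeta s : ℝ)) fun s hs => ?_)
        (Finset.sum_le_sum_of_subset_of_nonneg (Finset.filter_subset _ _) fun s _ _ => Nat.cast_nonneg _)
      have h3 := (Finset.mem_filter.1 hs).2
      have h5 : (kk T (2 * T) ρ s : ℝ) ≤ 1 := by
        have : kk T (2 * T) ρ s ≤ 1 := by omega
        exact_mod_cast this
      exact mul_le_of_le_one_right (Nat.cast_nonneg _) h5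
    have g3 : (VV β * M - ε) * Y = (M + ε) * Y + 2 * ε * Y := by
      rw [hε]; ring
    rw [g3] at t1
    linarith
  -- Cauchy-Schwarz
  have hcs : (∑ s ∈ S, (mult riemannZeta s : ℝ) * (kk T (2 * T) ρ s : ℝ)) ^ 2 ≤
      (∑ s ∈ S, (mult riemannZeta s : ℝ)) * ∑ s ∈ S, (mult riemannZeta s : ℝ) * (kk T (2 * T) ρ s : ℝ) ^ 2 := by
    refine Finset.sum_sq_le_sum_mul_sum_of_sq_le_mul S (fun s _ => Nat.cast_nonneg _)
      (fun s _ => by positivity) fun s _ => le_of_eq (by ring)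
  have hS3 : ∑ s ∈ S, (mult riemannZeta s : ℝ) * (kk T (2 * T) ρ s : ℝ) ^ 2 ≤ C * (T * Real.log T) := by
    refine le_trans (Finset.sum_le_sum_of_subset_of_nonneg ?_ fun s _ _ => by positivity) t4
    rw [hS]
    exact (Finset.filter_subset _ _).trans hGZ
  have hTL : 0 < T * Real.log T := by rw [← hL]; positivity
  have hfinal : c2 * (T * Real.log T) ≤ ∑ s ∈ S, (mult riemannZeta s : ℝ) := by
    have hS0 : 0 ≤ ∑ s ∈ S, (mult riemannZeta s : ℝ) := Finset.sum_nonneg fun _ _ => Nat.cast_nonneg _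
    have h1 : (2 * ε * Y) ^ 2 ≤ (∑ s ∈ S, (mult riemannZeta s : ℝ)) * (C * (T * Real.log T)) := by
      calc (2 * ε * Y) ^ 2 ≤ (∑ s ∈ S, (mult riemannZeta s : ℝ) * (kk T (2 * T) ρ s : ℝ)) ^ 2 :=
            pow_le_pow_left₀ (by positivity) q2 2
        _ ≤ _ := hcs
        _ ≤ _ := mul_le_mul_of_nonneg_left hS3 hS0
    have h2 : (2 * ε * Y) ^ 2 = (c2 * (T * Real.log T)) * (C * (T * Real.log T)) := by
      rw [hc2, hYL]
      field_simp
    rw [h2] at h1
    exact le_of_mul_le_mul_right h1 (by positivity)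
  -- the indices
  obtain ⟨φ, hφ⟩ : ∃ φ : ℝ → ℝ, φ = fun t => if NearO (a + θ) (b - θ) t then (1 : ℝ) else 0 := ⟨_, rfl⟩
  have hφ0 : ∀ t, 0 ≤ φ t := fun t => by rw [hφ]; show (0:ℝ) ≤ if _ then (1:ℝ) else 0; split_ifs <;> norm_num
  have hW := W_le_w RH (B := 2 * T) hT1 hρ0 φ hφ0
  have hWS : ∑ s ∈ S, (mult riemannZeta s : ℝ) ≤
      ∑ n ∈ (EE_finite T (2 * T) ρ).toFinset, (φ (ord n) + φ (ord (n + 1))) := by
    refine le_trans (le_of_eq ?_) hW
    rw [← hZ, hS, hGA, Finset.filter_filter, Finset.sum_filter, Finset.sum_filter]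
    refine Finset.sum_congr rfl fun s _ => ?_
    rw [hφ]
    by_cases c1 : NearO (a + θ) (b - θ) s.im <;> by_cases c2 : 2 ≤ kk T (2 * T) ρ s <;> simp [c1, c2]
  obtain ⟨E, hE⟩ : ∃ E, E = (EE_finite T (2 * T) ρ).toFinset := ⟨_, rfl⟩
  rw [← hE] at hWS ⊢
  obtain ⟨I, hI⟩ : ∃ I, I = Finset.Ioc (NZ T) (NZ (2 * T)) := ⟨_, rfl⟩
  have hEm : ∀ n ∈ E, 1 ≤ n ∧ T < ord n ∧ ord (n + 1) ≤ 2 * T ∧ ord (n + 1) - ord n ≤ ρ ∧ ord n ≤ ord (n + 1) := by
    intro n hn
    rw [hE, Set.Finite.mem_toFinset] at hn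
    obtain ⟨a1, a2, a3, a4⟩ := hn
    exact ⟨a1, a2, a3, a4, SG.ord_mono a1 (by omega)⟩
  have hIm : ∀ n, 1 ≤ n → T < ord n → ord n ≤ 2 * T → n ∈ I := by
    intro n h1 h2 h3
    rw [hI, Finset.mem_Ioc]
    constructor
    · by_contra hcon
      push Not at hcon
      have := (SG.ord_le_iff h1 T).mpr hcon
      linarith
    · exact (SG.ord_le_iff h1 _).mp h3
  obtain ⟨G, hGd⟩ : ∃ G, G = E.filter (fun n => Near a b n ∧ Near a b (n + 1)) := ⟨_, rfl⟩
  obtain ⟨Bd, hBd⟩ : ∃ Bd, Bd = I.filter (fun n => ¬ reg X T (ord n)) := ⟨_, rfl⟩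
  rw [← hGd]
  -- the exceptional indices
  have hBdc : (Bd.card : ℝ) ≤ c2 / 8 * (T * Real.log T) := by
    have h1 : ∑ s ∈ Z.filter (fun s => ¬ reg X T s.im), (mult riemannZeta s : ℝ) = (Bd.card : ℝ) := by
      rw [hBd, hI, hZ]
      convert sumN RH hT1 (fun y => ¬ reg X T y)
    rw [← h1]
    refine le_trans ?_ (tbad (Z.filter (fun s => ¬ reg X T s.im)) (Finset.filter_subset _ _) fun s hs => ?_)
    · refine Finset.sum_le_sum fun s hs => ?_
      have h2 := nn_ge_one (T := T) (s := s) (by rw [← hZ]; exact (Finset.mem_filter.1 hs).1) hT1 RH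
      have h3 : (0:ℝ) ≤ mult riemannZeta s := Nat.cast_nonneg _
      nlinarith
    · rw [Finset.mem_filter] at hs
      by_contra hcon
      push Not at hcon
      exact hs.2 ⟨hcon.1, hcon.2.1, hcon.2.2⟩
  have hcov : ∑ n ∈ E, (φ (ord n) + φ (ord (n + 1))) ≤ 2 * (G.card : ℝ) + 4 * (Bd.card : ℝ) := by
    have h1 : ∀ n ∈ E, φ (ord n) + φ (ord (n + 1)) ≤ (if n ∈ G then (2:ℝ) else 0) +
        ((if n ∈ Bd then (2:ℝ) else 0) + (if n + 1 ∈ Bd then (2:ℝ) else 0)) := by
      intro n hn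
      obtain ⟨a1, a2, a3, a4, a5⟩ := hEm n hn
      have b1 : (0:ℝ) ≤ if n ∈ G then (2:ℝ) else 0 := by split_ifs <;> norm_num
      have b2 : (0:ℝ) ≤ if n ∈ Bd then (2:ℝ) else 0 := by split_ifs <;> norm_num
      have b3 : (0:ℝ) ≤ if n + 1 ∈ Bd then (2:ℝ) else 0 := by split_ifs <;> norm_num
      have b4 : φ (ord n) ≤ 1 := by
        rw [hφ]; show (if _ then (1:ℝ) else 0) ≤ 1; split_ifs <;> norm_num
      have b5 : φ (ord (n + 1)) ≤ 1 := by
        rw [hφ]; show (if _ then (1:ℝ) else 0) ≤ 1; split_ifs <;> norm_num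
      by_cases c1 : n ∈ Bd
      · rw [if_pos c1]
        linarith
      by_cases c2 : n + 1 ∈ Bd
      · rw [if_pos c2]
        linarith
      have r1 : reg X T (ord n) := by
        by_contra hcon
        apply c1
        rw [hBd, Finset.mem_filter]
        exact ⟨hIm n a1 a2 (by linarith), hcon⟩
      have r2 : reg X T (ord (n + 1)) := by
        by_contra hcon
        apply c2
        rw [hBd, Finset.mem_filter]
        exact ⟨hIm (n + 1) (by omega) (by linarith) a3, hcon⟩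
      obtain ⟨r11, r12, r13⟩ := r1
      obtain ⟨r21, r22, r23⟩ := r2
      have hab1 : a + θ - θ = a := by ring
      have hab2 : b - θ + θ = b := by ring
      have k1 : ∀ y y', reg X T y → reg X T y' → |y' - y| ≤ ρ → NearO (a + θ) (b - θ) y → NearO a b y' := by
        intro y y' q1 q2 q3 q4
        have := (tcls X hXB y y' (by linarith [q1.2.1]) (by linarith [q1.2.2]) (by linarith [q2.2.1])
          (by linarith [q2.2.2]) q1.1 q2.1 q3).2 q4
        rwa [hab1, hab2] at this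
      have d0 : |ord n - ord n| ≤ ρ := by rw [sub_self, abs_zero]; exact hρ0
      have d1 : |ord (n + 1) - ord n| ≤ ρ := by rw [abs_of_nonneg (by linarith)]; exact a4
      have d2 : |ord n - ord (n + 1)| ≤ ρ := by rw [abs_sub_comm]; exact d1
      have d3 : |ord (n + 1) - ord (n + 1)| ≤ ρ := by rw [sub_self, abs_zero]; exact hρ0
      have hany : (NearO (a + θ) (b - θ) (ord n) ∨ NearO (a + θ) (b - θ) (ord (n + 1))) → n ∈ G := by
        intro hor
        rw [hGd, Finset.mem_filter]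
        refine ⟨hn, ?_⟩
        rcases hor with h | h
        · exact ⟨k1 _ _ ⟨r11, r12, r13⟩ ⟨r11, r12, r13⟩ d0 h, k1 _ _ ⟨r11, r12, r13⟩ ⟨r21, r22, r23⟩ d1 h⟩
        · exact ⟨k1 _ _ ⟨r21, r22, r23⟩ ⟨r11, r12, r13⟩ d2 h, k1 _ _ ⟨r21, r22, r23⟩ ⟨r21, r22, r23⟩ d3 h⟩
      by_cases c3 : n ∈ G
      · rw [if_pos c3]
        linarith
      · have e1 : φ (ord n) = 0 := by
          rw [hφ]
          show (if _ then (1:ℝ) else 0) = 0
          rw [if_neg]
          intro h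
          exact c3 (hany (Or.inl h))
        have e2 : φ (ord (n + 1)) = 0 := by
          rw [hφ]
          show (if _ then (1:ℝ) else 0) = 0
          rw [if_neg]
          intro h
          exact c3 (hany (Or.inr h))
        rw [e1, e2]
        linarith
    refine (Finset.sum_le_sum h1).trans ?_
    rw [Finset.sum_add_distrib, Finset.sum_add_distrib]
    have h2 : ∑ n ∈ E, (if n ∈ G then (2:ℝ) else 0) = 2 * (G.card : ℝ) := by
      rw [← Finset.sum_filter]
      have e1 : E.filter (fun n => n ∈ G) = G := by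
        ext n
        rw [Finset.mem_filter]
        constructor
        · exact fun h => h.2
        · intro h
          refine ⟨?_, h⟩
          rw [hGd] at h
          exact (Finset.mem_filter.1 h).1
      rw [e1, Finset.sum_const, nsmul_eq_mul, mul_comm]
    have h3 : ∑ n ∈ E, (if n ∈ Bd then (2:ℝ) else 0) ≤ 2 * (Bd.card : ℝ) := by
      rw [← Finset.sum_filter, Finset.sum_const, nsmul_eq_mul, mul_comm]
      apply mul_le_mul_of_nonneg_left _ (by norm_num)
      refine Nat.cast_le.2 (Finset.card_le_card fun n hn => (Finset.mem_filter.1 hn).2)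
    have h4 : ∑ n ∈ E, (if n + 1 ∈ Bd then (2:ℝ) else 0) ≤ 2 * (Bd.card : ℝ) := by
      rw [← Finset.sum_filter, Finset.sum_const, nsmul_eq_mul, mul_comm]
      apply mul_le_mul_of_nonneg_left _ (by norm_num)
      refine Nat.cast_le.2 (Finset.card_le_card_of_injOn (fun n => n + 1) (fun n hn => ?_) ?_)
      · exact (Finset.mem_filter.1 (Finset.mem_coe.1 hn)).2
      · intro x _ y _ hxy
        simpa using hxy
    rw [h2]
    linarith
  have hκ : (VV β - 1) ^ 2 / (256 * C * Real.pi ^ 2) * G01 a b ^ 2 ≤ c2 / 4 := by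
    have e1 : c2 / 4 = (VV β - 1) ^ 2 / (256 * C * Real.pi ^ 2) * (2 * M) ^ 2 := by
      rw [hc2, hε]
      field_simp
      ring
    rw [e1]
    apply mul_le_mul_of_nonneg_left _ (by positivity)
    exact pow_le_pow_left₀ hG0 (by linarith) 2
  have h5 := mul_le_mul_of_nonneg_right hκ hTL.le
  linarith

end

end Run7.h911.PQ
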