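import Pool.Agent.Run7.h911.PG5
import Pool.Agent.R482.GB.Fin

set_option autoImplicit false

/-! # Upper bounds in windows, indices of small gaps (helper911) -/

namespace Run7.h911.PQ

open Filter Topology MeasureTheory Complex
open H370 (Zf mult good_zeta)
open H370.A3 (EE' EE_finite)
open Run7.h911.SZ (G01 G01_nonneg G01_le Near)
open Pool.Agent.R482.GB (CC VV)
open SG (ord NZ)
open LG (dlt)

noncomputable section

/-- the upper kernel of a window -/
def uk (p x : ℝ) : ℝ := 2 * Real.cos (2 * Real.pi * p * x) * (2 * (1 - 2 * x))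

lemma CC_uk (p y : ℝ) : CC (uk p) (1 / 2) y = kb (1 / 2) (y - 2 * Real.pi * p) + kb (1 / 2) (y + 2 * Real.pi * p) := by
  unfold CC kb
  have hi : ∀ w u v : ℝ, IntervalIntegrable (fun x : ℝ => (1 / (1 / 2)) * (1 - x / (1 / 2)) * Real.cos (w * x))
      volume u v := fun w u v => Continuous.intervalIntegrable (by fun_prop) u v
  rw [← mul_add, ← intervalIntegral.integral_add (hi _ _ _) (hi _ _ _)]
  congr 1
  refine intervalIntegral.integral_congr fun x _ => ?_
  show uk p x * Real.cos (y * x) = (1 / (1 / 2)) * (1 - x / (1 / 2)) * Real.cos ((y - 2 * Real.pi * p) * x) +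
    (1 / (1 / 2)) * (1 - x / (1 / 2)) * Real.cos ((y + 2 * Real.pi * p) * x)
  unfold uk
  rw [sub_mul, add_mul, Real.cos_add, Real.cos_sub]
  ring

lemma kb_half {y : ℝ} (hy : |y| ≤ Real.pi) : 2 / 5 ≤ kb (1 / 2) y := by
  have hpi := Real.pi_pos
  by_cases hy0 : y = 0
  · rw [hy0, kb_zero (by norm_num)]; norm_num
  rw [kb_eq (by norm_num) hy0]
  have h0 : 0 < |y| := abs_pos.2 hy0
  obtain ⟨t, ht⟩ : ∃ t, t = |y| / 4 := ⟨_, rfl⟩
  have ht0 : 0 ≤ t := by rw [ht]; positivity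
  have ht1 : t ≤ Real.pi / 2 := by rw [ht]; linarith
  have h1 := Real.mul_le_sin ht0 ht1
  have h2 : Real.cos (1 / 2 * y) = 1 - 2 * Real.sin t ^ 2 := by
    rw [← Real.cos_abs, abs_mul, abs_of_pos (by norm_num : (0:ℝ) < 1 / 2)]
    have e : 1 / 2 * |y| = 2 * t := by rw [ht]; ring
    rw [e, Real.cos_two_mul]
    have := Real.sin_sq_add_cos_sq t
    linarith
  have h3 : (2 / Real.pi * t) ^ 2 ≤ Real.sin t ^ 2 := pow_le_pow_left₀ (by positivity) h1 2
  have h4 : (1 / 2 * y) ^ 2 = 4 * t ^ 2 := by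
    rw [ht, div_pow, sq_abs]; ring
  have ht2 : 0 < t := by rw [ht]; positivity
  rw [h2, h4, le_div_iff₀ (by positivity)]
  have h5 : 2 / 5 ≤ 4 / Real.pi ^ 2 := by
    rw [div_le_div_iff₀ (by norm_num) (by positivity)]
    have := Real.pi_lt_d2
    nlinarith
  have h6 : (2 / Real.pi * t) ^ 2 = 4 / Real.pi ^ 2 * t ^ 2 := by ring
  rw [h6] at h3
  have h7 := mul_le_mul_of_nonneg_right h5 (sq_nonneg t)
  linarith

lemma uk_main (p : ℝ) : uk p 0 + 2 * ∫ x in (0:ℝ)..(1 / 2), x * uk p x ≤ 5 := by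
  have e0 : uk p 0 = 4 := by
    unfold uk
    rw [mul_zero, Real.cos_zero]
    norm_num
  have h1 : ∫ x in (0:ℝ)..(1 / 2), x * uk p x ≤ ∫ x in (0:ℝ)..(1 / 2), x * 4 := by
    refine intervalIntegral.integral_mono_on (by norm_num) ?_ ?_ fun x hx => ?_
    · refine Continuous.intervalIntegrable ?_ _ _
      unfold uk
      fun_prop
    · exact Continuous.intervalIntegrable (by fun_prop) _ _
    · apply mul_le_mul_of_nonneg_left _ hx.1
      unfold uk
      have h2 := Real.cos_le_one (2 * Real.pi * p * x)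
      have h3 := Real.neg_one_le_cos (2 * Real.pi * p * x)
      have h4 : 0 ≤ 1 - 2 * x := by linarith [hx.2]
      have h5 : 1 - 2 * x ≤ 1 := by linarith [hx.1]
      nlinarith
  rw [intervalIntegral.integral_mul_const, integral_id] at h1
  rw [e0]
  norm_num at h1 ⊢
  linarith

/-- upper bound in a unit window -/
theorem unitC (RH : RiemannHypothesis) (p : ℝ) {a b : ℝ} (hab : a < b) {ε : ℝ} (hε : 0 < ε) :
    ∀ᶠ T : ℝ in atTop, cnt a b (Set.Icc (p - 1 / 2) (p + 1 / 2)) T ≤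
      (25 / 4 * G01 a b + ε) * (T * (Real.log T / (2 * Real.pi))) := by
  classical
  have hpi := Real.pi_pos
  have hsm : ContDiff ℝ 2 (uk p) := by
    unfold uk
    fun_prop
  have h0 : uk p (1 / 2) = 0 := by
    unfold uk
    norm_num
  have hG0 := G01_nonneg a b
  filter_upwards [lawC RH hsm (by norm_num : (0:ℝ) < 1 / 2) (by norm_num) h0 hab (show 0 < ε / 5 by positivity),
    acrossC RH (f := CC (uk p) (1 / 2)) (CC_dec hsm (by norm_num) h0).choose_spec.1
      (CC_dec hsm (by norm_num) h0).choose_spec.2 hab (show 0 < ε / 5 by positivity), eventually_ge_atTop 10]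
    with T t1 t2 hT10
  have hL : 0 < Real.log T := Real.log_pos (by linarith)
  obtain ⟨Y, hY⟩ : ∃ Y, Y = T * (Real.log T / (2 * Real.pi)) := ⟨_, rfl⟩
  rw [← hY] at t1 t2 ⊢
  have hY0 : 0 < Y := by rw [hY]; positivity
  have hm := uk_main p
  have h3 : 2 / 5 * (cnt a b (Set.Icc (p - 1 / 2) (p + 1 / 2)) T + cnt a b (Set.Icc (-p - 1 / 2) (-p + 1 / 2)) T) ≤
      ∑ s ∈ (Zf riemannZeta T (2 * T)).filter (fun s => NearO a b s.im),
        ∑ s' ∈ (Zf riemannZeta T (2 * T)).filter (fun s => NearO a b s.im), pf (CC (uk p) (1 / 2)) T s s' := by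
    unfold cnt
    rw [← Finset.sum_add_distrib, Finset.mul_sum]
    refine Finset.sum_le_sum fun s _ => ?_
    rw [← Finset.sum_add_distrib, Finset.mul_sum]
    refine Finset.sum_le_sum fun s' _ => ?_
    unfold pf
    rw [← mul_add]
    have e : ∀ u v w : ℝ, u * (v * w) = v * (u * w) := fun u v w => by ring
    rw [e]
    apply mul_le_mul_of_nonneg_left _ (by positivity)
    rw [CC_uk]
    obtain ⟨x, hx⟩ : ∃ x, x = (s.im - s'.im) * Real.log T / (2 * Real.pi) := ⟨_, rfl⟩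
    rw [← hx]
    have a1 : Real.log T * (s.im - s'.im) = 2 * Real.pi * x := by
      rw [hx]; field_simp
    rw [a1, mul_add]
    have key : ∀ c : ℝ, x ∈ Set.Icc (c - 1 / 2) (c + 1 / 2) → 2 / 5 ≤ kb (1 / 2) (2 * Real.pi * x - 2 * Real.pi * c) := by
      intro c hc
      apply kb_half
      have e1 : 2 * Real.pi * x - 2 * Real.pi * c = 2 * Real.pi * (x - c) := by ring
      rw [e1, abs_mul, abs_of_pos (by positivity : 0 < 2 * Real.pi)]
      have h4 : |x - c| ≤ 1 / 2 := by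
        rw [abs_le]
        constructor <;> linarith [hc.1, hc.2]
      have h5 := mul_le_mul_of_nonneg_left h4 (by positivity : 0 ≤ 2 * Real.pi)
      linarith
    have hn : ∀ w, 0 ≤ kb (1 / 2) w := fun w => kb_nonneg (by norm_num) w
    apply add_le_add
    · split_ifs with hc
      · rw [mul_one]; exact key p hc
      · rw [mul_zero]; exact hn _
    · split_ifs with hc
      · rw [mul_one]
        have := key (-p) hc
        have e1 : 2 * Real.pi * x - 2 * Real.pi * -p = 2 * Real.pi * x + 2 * Real.pi * p := by ring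
        rwa [e1] at this
      · rw [mul_zero]; exact hn _
  rw [cnt_symm] at h3
  have t1' := (abs_le.1 t1).2
  have t2' := (abs_le.1 t2).1
  have h4 := mul_le_mul_of_nonneg_right hm (mul_nonneg hG0 hY0.le)
  have h5 : 0 < ε * Y := by positivity
  linarith

lemma cnt_mono (a b : ℝ) {E F : Set ℝ} (h : E ⊆ F) (T : ℝ) : cnt a b E T ≤ cnt a b F T := by
  unfold cnt
  refine Finset.sum_le_sum fun s _ => Finset.sum_le_sum fun s' _ => ?_
  apply mul_le_mul_of_nonneg_left _ (by positivity)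
  split_ifs with h1 h2
  · exact le_rfl
  · exact absurd (h h1) h2
  · norm_num
  · exact le_rfl

lemma cnt_union (a b : ℝ) (E F : Set ℝ) (T : ℝ) : cnt a b (E ∪ F) T ≤ cnt a b E T + cnt a b F T := by
  unfold cnt
  rw [← Finset.sum_add_distrib]
  refine Finset.sum_le_sum fun s _ => ?_
  rw [← Finset.sum_add_distrib]
  refine Finset.sum_le_sum fun s' _ => ?_
  rw [← mul_add]
  apply mul_le_mul_of_nonneg_left _ (by positivity)
  split_ifs with h1 h2 h3 h4 h5 h6
  all_goals try norm_num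
  rcases h1 with h | h
  · exact absurd h h2
  · exact absurd h (by assumption)

/-- upper bound in a window -/
theorem windowU (RH : RiemannHypothesis) {α β : ℝ} (hαβ : α ≤ β) {a b : ℝ} (hab : a < b) {ε : ℝ} (hε : 0 < ε) :
    ∀ᶠ T : ℝ in atTop, cnt a b (Set.Icc α β) T ≤
      (25 / 4 * (β - α + 1) * G01 a b + ε) * (T * (Real.log T / (2 * Real.pi))) := by
  have hG0 := G01_nonneg a b
  have hpi := Real.pi_pos
  have key : ∀ n : ℕ, ∀ α : ℝ, ∀ ε : ℝ, 0 < ε → ∀ᶠ T : ℝ in atTop, cnt a b (Set.Icc α (α + (n + 1))) T ≤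
      (25 / 4 * (n + 1) * G01 a b + ε) * (T * (Real.log T / (2 * Real.pi))) := by
    intro n
    induction n with
    | zero =>
      intro α ε hε
      filter_upwards [unitC RH (α + 1 / 2) hab hε] with T hT
      have e1 : α + 1 / 2 - 1 / 2 = α := by ring
      have e2 : α + 1 / 2 + 1 / 2 = α + ((0 : ℕ) + 1) := by push_cast; ring
      rw [e1, e2] at hT
      simpa using hT
    | succ n ih =>
      intro α ε hε
      filter_upwards [unitC RH (α + 1 / 2) hab (show 0 < ε / 2 by positivity), ih (α + 1) (ε / 2) (by positivity)]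
        with T h1 h2
      have e1 : α + 1 / 2 - 1 / 2 = α := by ring
      have e2 : α + 1 / 2 + 1 / 2 = α + 1 := by ring
      rw [e1, e2] at h1
      have h3 : Set.Icc α (α + (((n + 1 : ℕ) : ℝ) + 1)) ⊆ Set.Icc α (α + 1) ∪ Set.Icc (α + 1) (α + 1 + ((n : ℝ) + 1)) := by
        intro x hx
        push_cast at hx
        rcases le_total x (α + 1) with h | h
        · exact Or.inl ⟨hx.1, h⟩
        · exact Or.inr ⟨h, by linarith [hx.2]⟩
      have h4 := (cnt_mono a b h3 T).trans (cnt_union a b _ _ T)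
      push_cast at h4 ⊢
      linarith
  obtain ⟨n, hn⟩ : ∃ n : ℕ, n = ⌊β - α⌋₊ := ⟨_, rfl⟩
  have hn1 : β - α < n + 1 := by rw [hn]; exact Nat.lt_floor_add_one _
  have hn2 : (n : ℝ) ≤ β - α := by rw [hn]; exact Nat.floor_le (by linarith)
  filter_upwards [key n α ε hε, eventually_ge_atTop 10] with T hT hT10
  have hL : 0 < Real.log T := Real.log_pos (by linarith)
  have h1 : Set.Icc α β ⊆ Set.Icc α (α + ((n : ℝ) + 1)) := Set.Icc_subset_Icc le_rfl (by linarith)
  refine (cnt_mono a b h1 T).trans (hT.trans ?_)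
  apply mul_le_mul_of_nonneg_right _ (by positivity)
  have h2 := mul_le_mul_of_nonneg_right (show 25 / 4 * ((n : ℝ) + 1) ≤ 25 / 4 * (β - α + 1) by linarith) hG0
  linarith

/-- **small gaps in a size class** -/
theorem small_idxC (RH : RiemannHypothesis) {β c : ℝ} (hβ : 0 < β) (hc : β < c)
    (hV : 1 < VV β) : ∃ κ : ℝ, 0 < κ ∧ ∀ a b : ℝ, a < b → ∃ N0 : ℕ, ∀ N : ℕ, N0 ≤ N →
      κ * G01 a b ^ 2 * N ≤ ({n : ℕ | 1 ≤ n ∧ n ≤ N ∧ dlt n ≤ c ∧ Near a b n ∧ Near a b (n + 1)}.ncard : ℝ) := by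
  classical
  obtain ⟨c1, hc1, h1'⟩ := smallC RH hβ hV
  obtain ⟨C, T2, hC, hT2, h2⟩ := LG.GapAux.NZ_up
  refine ⟨c1 / (3 * C), by positivity, fun a b hab => ?_⟩
  obtain ⟨T1, h1⟩ := (h1' a b hab).exists_forall_of_atTop
  obtain ⟨T3, hT3⟩ := (Real.tendsto_log_atTop.eventually_ge_atTop
    (β * (Real.log 2 + 1) / (c - β))).exists_forall_of_atTop
  obtain ⟨X, hX⟩ : ∃ X : ℝ, X = max (max T1 10) (max T2 T3) := ⟨_, rfl⟩
  have hX1 : T1 ≤ X := by rw [hX]; exact (le_max_left _ _).trans (le_max_left _ _)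
  have hX10 : 10 ≤ X := by rw [hX]; exact (le_max_right _ _).trans (le_max_left _ _)
  have hX2 : T2 ≤ X := by rw [hX]; exact (le_max_left _ _).trans (le_max_right _ _)
  have hX3 : T3 ≤ X := by rw [hX]; exact (le_max_right _ _).trans (le_max_right _ _)
  refine ⟨NZ (3 * X) + 1, fun N hN => ?_⟩
  have hN1 : 1 ≤ N := by omega
  have hbig : 3 * X < ord N := by
    by_contra hcon
    push Not at hcon
    have := (SG.ord_le_iff hN1 (3 * X)).mp hcon
    omega
  obtain ⟨T, hT⟩ : ∃ T : ℝ, T = ord N / 3 := ⟨_, rfl⟩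
  have hTX : X ≤ T := by rw [hT]; linarith
  have hT10 : 10 ≤ T := by linarith
  have hTpos : 0 < T := by linarith
  have hL0 : 0 < Real.log T := Real.log_pos (by linarith)
  have hNle : (N : ℝ) ≤ 3 * C * (T * Real.log T) := by
    have g1 : N ≤ NZ (2 * (3 / 2 * T)) := by
      apply (SG.ord_le_iff hN1 _).mp
      rw [hT]
      apply le_of_eq
      ring
    have g2 := h2 (3 / 2 * T) (by linarith)
    have g3 : (N : ℝ) ≤ NZ (2 * (3 / 2 * T)) := by exact_mod_cast g1
    have g4 : Real.log (3 / 2 * T) ≤ 2 * Real.log T := by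
      have : Real.log (3 / 2 * T) ≤ Real.log (T ^ 2) := Real.log_le_log (by positivity) (by nlinarith)
      rw [Real.log_pow] at this
      push_cast at this
      exact this
    calc (N : ℝ) ≤ C * (3 / 2 * T * Real.log (3 / 2 * T)) := g3.trans g2
      _ ≤ C * (3 / 2 * T * (2 * Real.log T)) := by gcongr
      _ = _ := by ring
  have hLc : β * (Real.log 2 + 1) ≤ (c - β) * Real.log T := by
    have := hT3 T (hX3.trans hTX)
    rw [div_le_iff₀ (by linarith)] at this
    linarith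
  have hfin : {n : ℕ | 1 ≤ n ∧ n ≤ N ∧ dlt n ≤ c ∧ Near a b n ∧ Near a b (n + 1)}.Finite :=
    (Set.finite_Icc 1 N).subset fun n hn => ⟨hn.1, hn.2.1⟩
  calc c1 / (3 * C) * G01 a b ^ 2 * N ≤ c1 / (3 * C) * G01 a b ^ 2 * (3 * C * (T * Real.log T)) := by gcongr
    _ = c1 * G01 a b ^ 2 * (T * Real.log T) := by field_simp
    _ ≤ _ := h1 T (hX1.trans hTX)
    _ ≤ _ := by
      rw [← Set.ncard_coe_finset]
      refine Nat.cast_le.2 (Set.ncard_le_ncard ?_ hfin)
      intro n hn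
      rw [Finset.mem_coe, Finset.mem_filter, Set.Finite.mem_toFinset] at hn
      obtain ⟨hn, hn2, hn3⟩ := hn
      refine ⟨hn.1, ?_, Pool.Agent.R482.GB.dlt_le hT10 hβ hLc hn, hn2, hn3⟩
      by_contra hcon
      push Not at hcon
      have g1 := SG.ord_mono hN1 (by omega : N ≤ n + 1)
      have g2 := hn.2.2.1
      rw [hT] at g2
      have : 0 < ord N := by linarith
      linarith

/-- from the main term to the number of zeros, lower bounds -/
lemma lowN {Q : ℝ → ℝ} {m : ℝ} (h : ∀ ε : ℝ, 0 < ε → ∀ᶠ T : ℝ in atTop,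
      (m - ε) * (T * (Real.log T / (2 * Real.pi))) ≤ Q T) {ε : ℝ} (hε : 0 < ε) :
    ∃ T₀ : ℝ, 10 ≤ T₀ ∧ ∀ T : ℝ, T₀ ≤ T →
      (m - ε) * (Pool.Agent.Results.MP_103a5c_nt.BohrSetPairs.N T (2 * T) : ℝ) ≤ Q T := by
  obtain ⟨T₀, hT₀, h2⟩ := toN (Q := fun T => m * (T * (Real.log T / (2 * Real.pi)))) (m := m) (fun δ hδ => by
    filter_upwards [eventually_ge_atTop 10] with T hT
    have hpi := Real.pi_pos
    have hL : 0 < Real.log T := Real.log_pos (by linarith)
    rw [sub_self, abs_zero]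
    positivity) (show 0 < ε / 2 by positivity)
  obtain ⟨T₁, hT₁, h3⟩ := toN (Q := fun T => (T * (Real.log T / (2 * Real.pi)))) (m := 1) (fun δ hδ => by
    filter_upwards [eventually_ge_atTop 10] with T hT
    have hpi := Real.pi_pos
    have hL : 0 < Real.log T := Real.log_pos (by linarith)
    rw [one_mul, sub_self, abs_zero]
    positivity) (show (0:ℝ) < 1 / 2 by norm_num)
  obtain ⟨T₂, h4⟩ := (h (ε / 4) (by positivity)).exists_forall_of_atTop
  refine ⟨max (max T₀ T₁) T₂, (hT₀.trans (le_max_left _ _)).trans (le_max_left _ _), fun T hT => ?_⟩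
  have a1 := h2 T (((le_max_left _ _).trans (le_max_left _ _)).trans hT)
  have a2 := h3 T (((le_max_right _ _).trans (le_max_left _ _)).trans hT)
  have a3 := h4 T ((le_max_right _ _).trans hT)
  obtain ⟨Y, hY⟩ : ∃ Y, Y = T * (Real.log T / (2 * Real.pi)) := ⟨_, rfl⟩
  simp only [← hY] at a1 a2 a3
  have b1 := (abs_le.1 a1).1
  have b2 := (abs_le.1 a2).2
  set N := (Pool.Agent.Results.MP_103a5c_nt.BohrSetPairs.N T (2 * T) : ℝ) with hN
  have b3 : ε / 4 * Y ≤ ε / 4 * (3 / 2 * N) := by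
    apply mul_le_mul_of_nonneg_left _ (by positivity)
    linarith
  have hN0 : 0 ≤ N := Nat.cast_nonneg _
  have b4 : 0 ≤ ε * N := by positivity
  linarith

/-- from the main term to the number of zeros, upper bounds -/
lemma upN {Q : ℝ → ℝ} {m : ℝ} (h : ∀ ε : ℝ, 0 < ε → ∀ᶠ T : ℝ in atTop,
      Q T ≤ (m + ε) * (T * (Real.log T / (2 * Real.pi)))) {ε : ℝ} (hε : 0 < ε) :
    ∃ T₀ : ℝ, 10 ≤ T₀ ∧ ∀ T : ℝ, T₀ ≤ T →
      Q T ≤ (m + ε) * (Pool.Agent.Results.MP_103a5c_nt.BohrSetPairs.N T (2 * T) : ℝ) := by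
  obtain ⟨T₀, hT₀, h2⟩ := lowN (Q := fun T => -Q T) (m := -m) (fun δ hδ => by
    filter_upwards [h δ hδ] with T hT
    linarith) hε
  refine ⟨T₀, hT₀, fun T hT => ?_⟩
  have := h2 T hT
  linarith

end

end Run7.h911.PQ
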