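import Pool.Agent.Run7.h911.PG5

set_option autoImplicit false

/-! # Tents at a frequency, laws in a size class (helper911) -/

namespace Run7.h911.PQ

open Filter Topology MeasureTheory Complex
open H370 (Zf mult good_zeta)
open Run7.h911.SZ (G01 G01_nonneg G01_le)
open Pool.Agent.Results.MP_103a5c_nt.BohrSetPairs (pairSum TestFn mont)

noncomputable section

/-- the normalised tent -/
def tri (b x : ℝ) : ℝ := (1 / b) * max 0 (1 - |x| / b)

lemma tri_cont (b : ℝ) : Continuous (tri b) := by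
  unfold tri
  fun_prop

lemma tri_even (b x : ℝ) : tri b (-x) = tri b x := by
  unfold tri
  rw [abs_neg]

lemma tri_supp {b : ℝ} (hb : 0 < b) {x : ℝ} (hx : b ≤ |x|) : tri b x = 0 := by
  unfold tri
  have h1 : 1 - |x| / b ≤ 0 := by
    have : 1 ≤ |x| / b := by rw [le_div_iff₀ hb]; linarith
    linarith
  rw [max_eq_left h1]
  ring

lemma tri_in {b : ℝ} (hb : 0 < b) {x : ℝ} (h0 : 0 ≤ x) (hx : x ≤ b) : tri b x = (1 / b) * (1 - x / b) := by
  unfold tri
  rw [abs_of_nonneg h0, max_eq_right]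
  have : x / b ≤ 1 := by rw [div_le_one hb]; exact hx
  linarith

lemma tri_nonneg {b : ℝ} (hb : 0 < b) (x : ℝ) : 0 ≤ tri b x := mul_nonneg (by positivity) (le_max_left _ _)

lemma tri_lip {b : ℝ} (hb : 0 < b) (x y : ℝ) : |tri b x - tri b y| ≤ (1 / b) * ((1 / b) * |x - y|) := by
  unfold tri
  rw [← mul_sub, abs_mul, abs_of_pos (by positivity : (0:ℝ) < 1 / b)]
  apply mul_le_mul_of_nonneg_left _ (by positivity)
  refine (abs_max0 _ _).trans ?_
  rw [sub_sub_sub_cancel_left, ← sub_div, abs_div, abs_of_pos hb, div_eq_inv_mul, one_div]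
  apply mul_le_mul_of_nonneg_left _ (by positivity)
  rw [abs_sub_comm x y]
  exact abs_abs_sub_abs_le_abs_sub y x

lemma tri_shift {b u : ℝ} (hb : 0 < b) (hbu : b ≤ u) (hu : u + b ≤ 1) {g : ℝ → ℝ} (hg : Continuous g) :
    ∫ x in (0:ℝ)..1, tri b (x - u) * g x = ∫ v in (0:ℝ)..b, (1 / b) * (1 - v / b) * (g (u + v) + g (u - v)) := by
  have hc : Continuous fun x : ℝ => tri b (x - u) * g x := ((tri_cont b).comp (by fun_prop)).mul hg
  have hi : ∀ p q : ℝ, IntervalIntegrable (fun x : ℝ => tri b (x - u) * g x) volume p q := fun p q =>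
    hc.intervalIntegrable p q
  rw [← intervalIntegral.integral_add_adjacent_intervals (hi 0 (u - b)) (hi (u - b) 1),
    ← intervalIntegral.integral_add_adjacent_intervals (hi (u - b) u) (hi u 1),
    ← intervalIntegral.integral_add_adjacent_intervals (hi u (u + b)) (hi (u + b) 1)]
  have z1 : ∫ x in (0:ℝ)..(u - b), tri b (x - u) * g x = 0 := by
    rw [intervalIntegral.integral_congr (g := fun _ => (0 : ℝ))]
    · simp
    · intro x hx
      rw [Set.uIcc_of_le (by linarith)] at hx
      show tri b (x - u) * g x = 0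
      rw [tri_supp hb (by rw [abs_of_nonpos (by linarith [hx.2])]; linarith [hx.2]), zero_mul]
  have z2 : ∫ x in (u + b)..1, tri b (x - u) * g x = 0 := by
    rw [intervalIntegral.integral_congr (g := fun _ => (0 : ℝ))]
    · simp
    · intro x hx
      rw [Set.uIcc_of_le hu] at hx
      show tri b (x - u) * g x = 0
      rw [tri_supp hb (by rw [abs_of_nonneg (by linarith [hx.1])]; linarith [hx.1]), zero_mul]
  have z3 : ∫ x in u..(u + b), tri b (x - u) * g x = ∫ v in (0:ℝ)..b, (1 / b) * (1 - v / b) * g (u + v) := by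
    have h1 := intervalIntegral.integral_comp_add_left (a := 0) (b := b) (fun x : ℝ => tri b (x - u) * g x) u
    rw [add_zero] at h1
    rw [← h1]
    refine intervalIntegral.integral_congr fun v hv => ?_
    rw [Set.uIcc_of_le hb.le] at hv
    show tri b (u + v - u) * g (u + v) = _
    rw [add_sub_cancel_left, tri_in hb hv.1 hv.2]
  have z4 : ∫ x in (u - b)..u, tri b (x - u) * g x = ∫ v in (0:ℝ)..b, (1 / b) * (1 - v / b) * g (u - v) := by
    have h1 := intervalIntegral.integral_comp_sub_left (a := 0) (b := b) (fun x : ℝ => tri b (x - u) * g x) u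
    rw [sub_zero] at h1
    rw [← h1]
    refine intervalIntegral.integral_congr fun v hv => ?_
    rw [Set.uIcc_of_le hb.le] at hv
    show tri b (u - v - u) * g (u - v) = _
    have e : u - v - u = -v := by ring
    rw [e, tri_even, tri_in hb hv.1 hv.2]
  rw [z1, z2, z3, z4, add_zero, zero_add, ← intervalIntegral.integral_add
    (Continuous.intervalIntegrable (by fun_prop) _ _) (Continuous.intervalIntegrable (by fun_prop) _ _)]
  refine intervalIntegral.integral_congr fun v _ => ?_
  show (1 / b) * (1 - v / b) * g (u - v) + (1 / b) * (1 - v / b) * g (u + v) = _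
  ring

/-- two tents -/
def tt (b u x : ℝ) : ℝ := tri b (x - u) + tri b (x + u)

lemma tt_cont (b u : ℝ) : Continuous (tt b u) := by
  unfold tt
  exact ((tri_cont b).comp (by fun_prop)).add ((tri_cont b).comp (by fun_prop))

lemma tt_int {b u : ℝ} (hb : 0 < b) (hbu : b ≤ u) (hu : u + b ≤ 1) {g : ℝ → ℝ} (hg : Continuous g) :
    ∫ x in (0:ℝ)..1, tt b u x * g x = ∫ v in (0:ℝ)..b, (1 / b) * (1 - v / b) * (g (u + v) + g (u - v)) := by
  rw [← tri_shift hb hbu hu hg]
  refine intervalIntegral.integral_congr fun x hx => ?_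
  rw [Set.uIcc_of_le zero_le_one] at hx
  show tt b u x * g x = tri b (x - u) * g x
  unfold tt
  rw [tri_supp hb (x := x + u) (by rw [abs_of_nonneg (by linarith [hx.1])]; linarith [hx.1]), add_zero]

lemma int_tri {b : ℝ} (hb : 0 < b) : ∫ v in (0:ℝ)..b, (1 / b) * (1 - v / b) = 1 / 2 := by
  have h1 : ∫ x in (0:ℝ)..b, (1 / b) * (1 - x / b) =
      ((1 / b) * (b - b ^ 2 / (2 * b))) - ((1 / b) * (0 - 0 ^ 2 / (2 * b))) := by
    refine intervalIntegral.integral_eq_sub_of_hasDerivAt (f := fun x => (1 / b) * (x - x ^ 2 / (2 * b)))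
      (fun x _ => ?_) (Continuous.intervalIntegrable (by fun_prop) _ _)
    have e1 := (((hasDerivAt_id x).sub (((hasDerivAt_id x).pow 2).div_const (2 * b)))).const_mul (1 / b)
    refine e1.congr_deriv ?_
    have e : (id x : ℝ) ^ (2 - 1) = x := by simp
    rw [e]
    push_cast
    field_simp
  rw [h1]
  field_simp
  ring

lemma int_xtri {b : ℝ} (hb : 0 < b) : ∫ v in (0:ℝ)..b, v * ((1 / b) * (1 - v / b)) = b / 6 := by
  have h1 : ∫ x in (0:ℝ)..b, x * ((1 / b) * (1 - x / b)) =
      ((1 / b) * (b ^ 2 / 2 - b ^ 3 / (3 * b))) - ((1 / b) * (0 ^ 2 / 2 - 0 ^ 3 / (3 * b))) := by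
    refine intervalIntegral.integral_eq_sub_of_hasDerivAt (f := fun x => (1 / b) * (x ^ 2 / 2 - x ^ 3 / (3 * b)))
      (fun x _ => ?_) (Continuous.intervalIntegrable (by fun_prop) _ _)
    have e1 := ((((hasDerivAt_id x).pow 2).div_const 2).sub (((hasDerivAt_id x).pow 3).div_const (3 * b))).const_mul (1 / b)
    refine e1.congr_deriv ?_
    have e : (id x : ℝ) ^ (2 - 1) = x := by simp
    have e3 : (id x : ℝ) ^ (3 - 1) = x ^ 2 := by simp
    rw [e, e3]
    push_cast
    field_simp
  rw [h1]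
  field_simp
  ring

lemma tt_rh {b u : ℝ} (hb : 0 < b) (hbu : b ≤ u) (hu : u + b ≤ 1) (w : ℝ) :
    rh (tt b u) w = 2 * (Real.cos (u * w) * kb b w) := by
  unfold rh kb
  rw [tt_int hb hbu hu (g := fun x => Real.cos (w * x)) (by fun_prop)]
  have e : ∫ v in (0:ℝ)..b, (1 / b) * (1 - v / b) * (Real.cos (w * (u + v)) + Real.cos (w * (u - v))) =
      2 * Real.cos (u * w) * ∫ v in (0:ℝ)..b, (1 / b) * (1 - v / b) * Real.cos (w * v) := by
    rw [← intervalIntegral.integral_const_mul]
    refine intervalIntegral.integral_congr fun v _ => ?_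
    show (1 / b) * (1 - v / b) * (Real.cos (w * (u + v)) + Real.cos (w * (u - v))) =
      2 * Real.cos (u * w) * ((1 / b) * (1 - v / b) * Real.cos (w * v))
    have e1 : w * (u + v) = u * w + w * v := by ring
    have e2 : w * (u - v) = u * w - w * v := by ring
    rw [e1, e2, Real.cos_add, Real.cos_sub]
    ring
  rw [e]
  ring

lemma tt_mo {b u : ℝ} (hb : 0 < b) (hbu : b ≤ u) (hu : u + b ≤ 1) : mo (tt b u) = 2 * u := by
  unfold mo
  have h0 : tt b u 0 = 0 := by
    unfold tt
    rw [zero_sub, zero_add, tri_even, tri_supp hb (by rw [abs_of_pos (by linarith)]; exact hbu), add_zero]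
  have h1 : ∫ x in (0:ℝ)..1, x * tt b u x = u := by
    have e : ∀ x, x * tt b u x = tt b u x * x := fun x => mul_comm _ _
    simp_rw [e]
    rw [tt_int hb hbu hu (g := fun x => x) continuous_id]
    have e2 : ∀ v, (1 / b) * (1 - v / b) * (u + v + (u - v)) = (2 * u) * ((1 / b) * (1 - v / b)) := fun v => by ring
    simp_rw [e2]
    rw [intervalIntegral.integral_const_mul, int_tri hb]
    ring
  rw [h0, h1, zero_add]

lemma kb_le_fb {b : ℝ} (hb : 0 < b) (hb1 : b ≤ 1) (w : ℝ) : kb b w ≤ rh (fb b) w := by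
  rw [fb_rh hb hb1]
  linarith [kb_nonneg hb (w + Real.pi / (2 * b)), kb_nonneg hb (w - Real.pi / (2 * b))]

lemma kb_dec {b : ℝ} (hb : 0 < b) (hb1 : b ≤ 1) : ∃ A : ℝ, 0 ≤ A ∧ ∀ w, kb b w ≤ A / (1 + w ^ 2) := by
  obtain ⟨A, hA0, hA⟩ := (fb_TF hb hb1).A
  exact ⟨A, hA0, fun w => (kb_le_fb hb hb1 w).trans (hA w)⟩

lemma tt_even (b u x : ℝ) : tt b u (-x) = tt b u x := by
  unfold tt
  have e1 : -x - u = -(x + u) := by ring
  have e2 : -x + u = -(x - u) := by ring
  rw [e1, e2, tri_even, tri_even, add_comm]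

lemma tt_testFn {b u : ℝ} (hb : 0 < b) (hbu : b ≤ u) (hu : u + b ≤ 1) : TestFn (tt b u) (u + b) where
  cont := tt_cont b u
  even := tt_even b u
  supp := by
    intro x hx
    unfold tt
    have h1 : b ≤ |x - u| := by
      have h2 := abs_sub_abs_le_abs_sub x u
      rw [abs_of_pos (by linarith : 0 < u)] at h2
      linarith
    have h3 : b ≤ |x + u| := by
      have h2 := abs_sub_abs_le_abs_sub x (-u)
      rw [abs_neg, abs_of_pos (by linarith : 0 < u), sub_neg_eq_add] at h2
      linarith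
    rw [tri_supp hb h1, tri_supp hb h3, add_zero]
  decay := by
    obtain ⟨A, hA0, hA⟩ := kb_dec hb (by linarith)
    refine ⟨2 * A, fun x => ?_⟩
    rw [r_eq (tt_cont b u) (tt_even b u), tt_rh hb hbu hu, abs_mul, abs_of_pos (by norm_num : (0:ℝ) < 2), abs_mul,
      abs_of_nonneg (kb_nonneg hb _), mul_div_assoc]
    apply mul_le_mul_of_nonneg_left _ (by norm_num)
    have h1 := Real.abs_cos_le_one (u * (2 * Real.pi * x))
    refine (mul_le_of_le_one_left (kb_nonneg hb _) h1).trans ((hA _).trans ?_)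
    apply div_le_div_of_nonneg_left hA0 (by positivity)
    have h1 := Real.pi_gt_three
    have h2 : x ^ 2 * 1 ≤ x ^ 2 * (2 * Real.pi) ^ 2 := by
      apply mul_le_mul_of_nonneg_left _ (sq_nonneg x)
      nlinarith
    have h3 : (2 * Real.pi * x) ^ 2 = x ^ 2 * (2 * Real.pi) ^ 2 := by ring
    rw [h3]
    linarith

lemma tt_lip {b : ℝ} (hb : 0 < b) (u : ℝ) : ∃ K : ℝ, ∀ x y, |tt b u x - tt b u y| ≤ K * |x - y| := by
  refine ⟨2 * ((1 / b) * (1 / b)), fun x y => ?_⟩
  unfold tt
  have h1 := tri_lip hb (x - u) (y - u)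
  have h2 := tri_lip hb (x + u) (y + u)
  have e1 : x - u - (y - u) = x - y := by ring
  have e2 : x + u - (y + u) = x - y := by ring
  rw [e1] at h1
  rw [e2] at h2
  have e3 : tri b (x - u) + tri b (x + u) - (tri b (y - u) + tri b (y + u)) =
      (tri b (x - u) - tri b (y - u)) + (tri b (x + u) - tri b (y + u)) := by ring
  rw [e3]
  refine (abs_add_le _ _).trans ?_
  linarith

open Classical in
/-- the pairs in a class -/
def CS (f : ℝ → ℝ) (a b T : ℝ) : ℝ :=
  ∑ s ∈ (Zf riemannZeta T (2 * T)).filter (fun s => NearO a b s.im),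
    ∑ s' ∈ (Zf riemannZeta T (2 * T)).filter (fun s => NearO a b s.im), pf f T s s'

open Classical in
lemma cs_eq (f : ℝ → ℝ) (a b T : ℝ) : ∑ s ∈ Zf riemannZeta T (2 * T), ∑ s' ∈ Zf riemannZeta T (2 * T),
    (if NearO a b s.im ∧ NearO a b s'.im then pf f T s s' else 0) = CS f a b T := by
  unfold CS
  rw [Finset.sum_filter]
  refine Finset.sum_congr rfl fun s _ => ?_
  by_cases h : NearO a b s.im
  · rw [if_pos h, Finset.sum_filter]
    refine Finset.sum_congr rfl fun s' _ => ?_
    simp [h]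
  · rw [if_neg h]
    refine Finset.sum_eq_zero fun s' _ => ?_
    rw [if_neg (fun hh => h hh.1)]

lemma CS_add (f g : ℝ → ℝ) (a b T : ℝ) : CS (fun y => f y + g y) a b T = CS f a b T + CS g a b T := by
  unfold CS pf
  rw [← Finset.sum_add_distrib]
  refine Finset.sum_congr rfl fun s _ => ?_
  rw [← Finset.sum_add_distrib]
  exact Finset.sum_congr rfl fun s' _ => mul_add _ _ _

lemma CS_smul (c : ℝ) (f : ℝ → ℝ) (a b T : ℝ) : CS (fun y => c * f y) a b T = c * CS f a b T := by
  unfold CS pf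
  rw [Finset.mul_sum]
  refine Finset.sum_congr rfl fun s _ => ?_
  rw [Finset.mul_sum]
  refine Finset.sum_congr rfl fun s' _ => ?_
  ring

lemma CS_mono {f g : ℝ → ℝ} (h : ∀ y, f y ≤ g y) (a b T : ℝ) : CS f a b T ≤ CS g a b T := by
  unfold CS pf
  refine Finset.sum_le_sum fun s _ => Finset.sum_le_sum fun s' _ => ?_
  exact mul_le_mul_of_nonneg_left (h _) (by positivity)

/-- the law in a class at a frequency -/
theorem cosLaw (RH : RiemannHypothesis) {b u : ℝ} (hb : 0 < b) (hbu : b ≤ u) (hu : u + b < 1) {a c ε : ℝ}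
    (hac : a < c) (hε : 0 < ε) : ∀ᶠ T : ℝ in atTop,
    |CS (fun y => Real.cos (u * y) * kb b y) a c T - u * G01 a c * (T * (Real.log T / (2 * Real.pi)))| ≤
      ε * (T * (Real.log T / (2 * Real.pi))) := by
  filter_upwards [law2 RH (tt_testFn hb hbu hu.le) (tt_lip hb u) (by linarith) hu hac hac
    (show 0 < 2 * ε by positivity)] with T hT
  rw [max_self, min_self, tt_mo hb hbu hu.le] at hT
  have e1 := cs_eq (rh (tt b u)) a c T
  simp only [← pw_pf] at e1
  rw [e1] at hT
  have e2 : CS (rh (tt b u)) a c T = 2 * CS (fun y => Real.cos (u * y) * kb b y) a c T := by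
    rw [← CS_smul]
    congr 1
    ext y
    rw [tt_rh hb hbu hu.le]
  rw [e2, mul_assoc 2 u, mul_assoc 2 (u * _), ← mul_sub, abs_mul, abs_of_pos (by norm_num : (0:ℝ) < 2), mul_assoc 2 ε] at hT
  linarith

/-- the law in a class, positive test functions -/
theorem posLaw (RH : RiemannHypothesis) {R : ℝ → ℝ} {κ : ℝ} (hR : TF R κ) (h0 : 0 < κ) (h1 : κ < 1) {a c ε : ℝ}
    (hac : a < c) (hε : 0 < ε) : ∀ᶠ T : ℝ in atTop,
    |CS (rh R) a c T - mo R * G01 a c * (T * (Real.log T / (2 * Real.pi)))| ≤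
      ε * (T * (Real.log T / (2 * Real.pi))) := by
  filter_upwards [law_W2 RH hR h0 h1 hac hac hε] with T hT
  rw [max_self, min_self] at hT
  have e1 := cs_eq (rh R) a c T
  simp only [← pw_pf] at e1
  rwa [e1] at hT

lemma tri_rh {b : ℝ} (hb : 0 < b) (hb1 : b ≤ 1) (w : ℝ) : rh (tri b) w = kb b w := by
  unfold rh kb
  have hc : Continuous fun x : ℝ => tri b x * Real.cos (w * x) := (tri_cont b).mul (by fun_prop)
  rw [← intervalIntegral.integral_add_adjacent_intervals (a := 0) (b := b) (c := 1)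
    (hc.intervalIntegrable _ _) (hc.intervalIntegrable _ _)]
  have h0 : ∫ x in b..1, tri b x * Real.cos (w * x) = 0 := by
    rw [intervalIntegral.integral_congr (g := fun _ => (0 : ℝ))]
    · simp
    · intro x hx
      rw [Set.uIcc_of_le hb1] at hx
      show tri b x * Real.cos (w * x) = 0
      rw [tri_supp hb (hx.1.trans (le_abs_self x)), zero_mul]
  rw [h0, add_zero]
  congr 1
  refine intervalIntegral.integral_congr fun x hx => ?_
  rw [Set.uIcc_of_le hb.le] at hx
  show tri b x * Real.cos (w * x) = _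
  rw [tri_in hb hx.1 hx.2]

lemma tri_TF {b : ℝ} (hb : 0 < b) (hb1 : b ≤ 1) : TF (tri b) b where
  cont := tri_cont b
  even := tri_even b
  supp := fun x hx => tri_supp hb hx
  nonneg := tri_nonneg hb
  lip := ⟨(1 / b) * (1 / b), fun x y => by rw [mul_assoc]; exact tri_lip hb x y⟩
  pos := fun w => by rw [tri_rh hb hb1]; exact kb_nonneg hb w
  dec := by
    obtain ⟨A, -, hA⟩ := kb_dec hb hb1
    exact ⟨A, fun w => by rw [tri_rh hb hb1]; exact hA w⟩

lemma tri_mo {b : ℝ} (hb : 0 < b) (hb1 : b ≤ 1) : mo (tri b) = 1 / b + b / 3 := by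
  unfold mo
  have h0 : tri b 0 = 1 / b := by
    rw [tri_in hb le_rfl hb.le, zero_div, sub_zero, mul_one]
  have hc : Continuous fun x : ℝ => x * tri b x := continuous_id.mul (tri_cont b)
  have h1 : ∫ x in (0:ℝ)..1, x * tri b x = b / 6 := by
    rw [← intervalIntegral.integral_add_adjacent_intervals (a := 0) (b := b) (c := 1)
      (hc.intervalIntegrable _ _) (hc.intervalIntegrable _ _)]
    have h0 : ∫ x in b..1, x * tri b x = 0 := by
      rw [intervalIntegral.integral_congr (g := fun _ => (0 : ℝ))]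
      · simp
      · intro x hx
        rw [Set.uIcc_of_le hb1] at hx
        show x * tri b x = 0
        rw [tri_supp hb (hx.1.trans (le_abs_self x)), mul_zero]
    rw [h0, add_zero, ← int_xtri hb]
    refine intervalIntegral.integral_congr fun x hx => ?_
    rw [Set.uIcc_of_le hb.le] at hx
    show x * tri b x = _
    rw [tri_in hb hx.1 hx.2]
  rw [h0, h1]
  ring

lemma fb_mo2 {b : ℝ} (hb : 0 < b) (hb1 : b ≤ 1) : mo (fb b) ≤ 3 / b + 3 * b := by
  unfold mo
  have h1 := fb_up hb 0
  have hc : Continuous fun x : ℝ => x * fb b x := continuous_id.mul (fb_cont b)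
  have h2 : ∫ x in (0:ℝ)..1, x * fb b x ≤ 3 / b * (b ^ 2 / 2) := by
    rw [← intervalIntegral.integral_add_adjacent_intervals (a := 0) (b := b) (c := 1)
      (hc.intervalIntegrable _ _) (hc.intervalIntegrable _ _)]
    have h0 : ∫ x in b..1, x * fb b x = 0 := by
      rw [intervalIntegral.integral_congr (g := fun _ => (0 : ℝ))]
      · simp
      · intro x hx
        rw [Set.uIcc_of_le hb1] at hx
        show x * fb b x = 0
        rw [fb_supp hb x (hx.1.trans (le_abs_self x)), mul_zero]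
    rw [h0, add_zero]
    have h3 : ∫ x in (0:ℝ)..b, x * fb b x ≤ ∫ x in (0:ℝ)..b, x * (3 / b) := by
      refine intervalIntegral.integral_mono_on hb.le (hc.intervalIntegrable _ _)
        (Continuous.intervalIntegrable (by fun_prop) _ _) fun x hx => ?_
      exact mul_le_mul_of_nonneg_left (fb_up hb x) hx.1
    refine h3.trans (le_of_eq ?_)
    rw [intervalIntegral.integral_mul_const, integral_id]
    ring
  have h4 : 2 * (3 / b * (b ^ 2 / 2)) = 3 * b := by
    field_simp
  linarith

end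

end Run7.h911.PQ
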