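import Pool.Agent.Run7.h911.PH1

set_option autoImplicit false

/-! # The differences in a size class are not in a lattice (helper911) -/

namespace Run7.h911.PQ

open Filter Topology MeasureTheory Complex
open H370 (Zf mult good_zeta)
open Run7.h911.SZ (G01 G01_nonneg G01_le)

noncomputable section

lemma CS_nonneg {f : ℝ → ℝ} (h : ∀ y, 0 ≤ f y) (a b T : ℝ) : 0 ≤ CS f a b T := by
  unfold CS pf
  exact Finset.sum_nonneg fun s _ => Finset.sum_nonneg fun s' _ => mul_nonneg (by positivity) (h _)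

/-- the square of the sine, damped -/
def sk (θ y : ℝ) : ℝ := Real.sin (θ / 2 * y) ^ 2 / (1 + y ^ 2)

lemma sk_nonneg (θ y : ℝ) : 0 ≤ sk θ y := by unfold sk; positivity

/-- **the differences of the zeros of a class are not near a lattice** -/
theorem nonlat (RH : RiemannHypothesis) {θ : ℝ} (h0 : 0 < θ) (h2 : θ < 2) : ∃ c : ℝ, 0 < c ∧
    ∀ a b : ℝ, a < b → ∀ᶠ T : ℝ in atTop, c * G01 a b * (T * (Real.log T / (2 * Real.pi))) ≤ CS (sk θ) a b T := by
  obtain ⟨m, hm⟩ : ∃ m, m = min (θ / 2) (1 - θ / 2) / 3 := ⟨_, rfl⟩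
  have hm0 : 0 < m := by
    rw [hm]
    exact div_pos (lt_min (by linarith) (by linarith)) (by norm_num)
  have hm1 : 3 * m ≤ θ / 2 := by
    rw [hm]
    have := min_le_left (θ / 2) (1 - θ / 2)
    linarith
  have hm2 : 3 * m ≤ 1 - θ / 2 := by
    rw [hm]
    have := min_le_right (θ / 2) (1 - θ / 2)
    linarith
  have hm3 : m ≤ 1 := by linarith
  obtain ⟨A, hA0, hA⟩ := kb_dec hm0 hm3
  have hTF := fb_TF (show (0:ℝ) < 1 / 2 by norm_num) (by norm_num)
  obtain ⟨M, hM⟩ : ∃ M, M = mo (fb (1 / 2)) + 1 := ⟨_, rfl⟩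
  have hM0 : 1 ≤ M := by
    rw [hM]
    have := mo_nonneg hTF
    linarith
  obtain ⟨l, hl⟩ : ∃ l, l = 8 * (A ^ 2 + 1) * M / m := ⟨_, rfl⟩
  have hl0 : 0 < l := by rw [hl]; positivity
  have hlA : 2 * A ^ 2 / l * M ≤ m / 4 := by
    rw [hl, div_div_eq_mul_div, div_mul_eq_mul_div, div_le_div_iff₀ (by positivity) (by norm_num)]
    have : 0 ≤ m * M := by positivity
    nlinarith
  refine ⟨m / (4 * l), by positivity, fun a b hab => ?_⟩
  rcases (G01_nonneg a b).eq_or_lt with hG | hG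
  · filter_upwards with T
    rw [← hG, mul_zero, zero_mul]
    exact CS_nonneg (sk_nonneg θ) a b T
  filter_upwards [cosLaw RH (b := m) (u := θ / 2 + m) hm0 (by linarith) (by linarith) hab
      (show 0 < m * G01 a b / 4 by positivity),
    cosLaw RH (b := m) (u := θ / 2 - m) hm0 (by linarith) (by linarith) hab (show 0 < m * G01 a b / 4 by positivity),
    posLaw RH hTF (by norm_num) (by norm_num) hab (show 0 < G01 a b by positivity), eventually_ge_atTop 10]
    with T t1 t2 t3 hT10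
  have hpi := Real.pi_pos
  have hL : 0 < Real.log T := Real.log_pos (by linarith)
  obtain ⟨Y, hY⟩ : ∃ Y, Y = T * (Real.log T / (2 * Real.pi)) := ⟨_, rfl⟩
  rw [← hY] at t1 t2 t3 ⊢
  have hY0 : 0 < Y := by rw [hY]; positivity
  obtain ⟨G, hGd⟩ : ∃ G, G = G01 a b := ⟨_, rfl⟩
  rw [← hGd] at t1 t2 t3 hG ⊢
  have s1 := (abs_le.1 t1).1
  have s2 := (abs_le.1 t2).2
  have s3 := (abs_le.1 t3).2
  -- the difference
  have key : ∀ y : ℝ, Real.cos ((θ / 2 - m) * y) * kb m y + (-1) * (Real.cos ((θ / 2 + m) * y) * kb m y) ≥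
      -(l * sk θ y + 2 * A ^ 2 / l * rh (fb (1 / 2)) y) := by
    intro y
    have hk0 := kb_nonneg hm0 y
    have e1 : (θ / 2 - m) * y = θ / 2 * y - m * y := by ring
    have e2 : (θ / 2 + m) * y = θ / 2 * y + m * y := by ring
    rw [e1, e2, Real.cos_sub, Real.cos_add]
    have e3 : (Real.cos (θ / 2 * y) * Real.cos (m * y) + Real.sin (θ / 2 * y) * Real.sin (m * y)) * kb m y +
        (-1) * ((Real.cos (θ / 2 * y) * Real.cos (m * y) - Real.sin (θ / 2 * y) * Real.sin (m * y)) * kb m y) =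
        2 * (Real.sin (θ / 2 * y) * Real.sin (m * y)) * kb m y := by ring
    rw [e3]
    have h4 : -|Real.sin (θ / 2 * y)| ≤ Real.sin (θ / 2 * y) * Real.sin (m * y) := by
      have h5 : |Real.sin (θ / 2 * y) * Real.sin (m * y)| ≤ |Real.sin (θ / 2 * y)| := by
        rw [abs_mul]
        exact mul_le_of_le_one_right (abs_nonneg _) (Real.abs_sin_le_one _)
      linarith [neg_abs_le (Real.sin (θ / 2 * y) * Real.sin (m * y))]
    have h6 : 2 * (|Real.sin (θ / 2 * y)| * kb m y) ≤ l * sk θ y + 2 * A ^ 2 / l * rh (fb (1 / 2)) y := by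
      have h7 : kb m y ≤ A / (1 + y ^ 2) := hA y
      have h8 := fb_low2 (show (0:ℝ) < 1 / 2 by norm_num) (by norm_num) y
      have hp : 0 < 1 + y ^ 2 := by positivity
      have h9 : kb m y ^ 2 * (1 + y ^ 2) / l ≤ 2 * A ^ 2 / l * rh (fb (1 / 2)) y := by
        have h10 : kb m y ^ 2 * (1 + y ^ 2) ≤ A ^ 2 / (1 + y ^ 2) := by
          have h11 := pow_le_pow_left₀ hk0 h7 2
          have h12 := mul_le_mul_of_nonneg_right h11 hp.le
          refine h12.trans (le_of_eq ?_)
          field_simp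
        have h13 : A ^ 2 / (1 + y ^ 2) ≤ 2 * A ^ 2 * rh (fb (1 / 2)) y := by
          have := mul_le_mul_of_nonneg_left h8 (by positivity : 0 ≤ 2 * A ^ 2)
          refine le_trans (le_of_eq ?_) this
          ring
        have h14 := div_le_div_of_nonneg_right (h10.trans h13) hl0.le
        refine h14.trans (le_of_eq ?_)
        ring
      have h15 : 2 * (|Real.sin (θ / 2 * y)| * kb m y) ≤ l * sk θ y + kb m y ^ 2 * (1 + y ^ 2) / l := by
        unfold sk
        obtain ⟨p, hp'⟩ : ∃ p, p = |Real.sin (θ / 2 * y)| := ⟨_, rfl⟩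
        rw [← sq_abs (Real.sin (θ / 2 * y)), ← hp']
        have h16 : 0 ≤ (l * p - kb m y * (1 + y ^ 2)) ^ 2 / (l * (1 + y ^ 2)) := by positivity
        have h17 : (l * p - kb m y * (1 + y ^ 2)) ^ 2 / (l * (1 + y ^ 2)) =
            l * (p ^ 2 / (1 + y ^ 2)) + kb m y ^ 2 * (1 + y ^ 2) / l - 2 * (p * kb m y) := by
          field_simp
          ring
        linarith
      linarith
    have h18 := mul_le_mul_of_nonneg_right h4 hk0
    have h19 : 2 * (Real.sin (θ / 2 * y) * Real.sin (m * y)) * kb m y ≥ -(2 * (|Real.sin (θ / 2 * y)| * kb m y)) := by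
      nlinarith
    linarith
  have key2 : CS (fun y => Real.cos ((θ / 2 + m) * y) * kb m y) a b T -
      CS (fun y => Real.cos ((θ / 2 - m) * y) * kb m y) a b T ≤
      l * CS (sk θ) a b T + 2 * A ^ 2 / l * CS (rh (fb (1 / 2))) a b T := by
    have h1 := CS_mono (f := fun y => Real.cos ((θ / 2 + m) * y) * kb m y)
      (g := fun y => Real.cos ((θ / 2 - m) * y) * kb m y + (l * sk θ y + 2 * A ^ 2 / l * rh (fb (1 / 2)) y))
      (fun y => by
        show Real.cos ((θ / 2 + m) * y) * kb m y ≤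
          Real.cos ((θ / 2 - m) * y) * kb m y + (l * sk θ y + 2 * A ^ 2 / l * rh (fb (1 / 2)) y)
        linarith [key y]) a b T
    rw [CS_add (fun y => Real.cos ((θ / 2 - m) * y) * kb m y) (fun y => l * sk θ y + 2 * A ^ 2 / l * rh (fb (1 / 2)) y),
      CS_add (fun y => l * sk θ y) (fun y => 2 * A ^ 2 / l * rh (fb (1 / 2)) y), CS_smul, CS_smul] at h1
    linarith
  have h20 : 2 * A ^ 2 / l * CS (rh (fb (1 / 2))) a b T ≤ m / 4 * (G * Y) := by
    have h21 : CS (rh (fb (1 / 2))) a b T ≤ M * (G * Y) := by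
      rw [hM]
      linarith
    calc 2 * A ^ 2 / l * CS (rh (fb (1 / 2))) a b T ≤ 2 * A ^ 2 / l * (M * (G * Y)) :=
          mul_le_mul_of_nonneg_left h21 (by positivity)
      _ = (2 * A ^ 2 / l * M) * (G * Y) := by ring
      _ ≤ _ := mul_le_mul_of_nonneg_right hlA (by positivity)
  have h22 : m * (G * Y) ≤ l * CS (sk θ) a b T := by
    have hpos : 0 < m * (G * Y) := by positivity
    nlinarith
  have h23 : m / (4 * l) * G * Y = (1 / (4 * l)) * (m * (G * Y)) := by
    field_simp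
  rw [h23]
  calc (1 / (4 * l)) * (m * (G * Y)) ≤ (1 / (4 * l)) * (l * CS (sk θ) a b T) :=
        mul_le_mul_of_nonneg_left h22 (by positivity)
    _ = CS (sk θ) a b T / 4 := by field_simp
    _ ≤ _ := by
      have := CS_nonneg (sk_nonneg θ) a b T
      linarith

end

end Run7.h911.PQ
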