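import Pool.Agent.Run7.h911.PH2

set_option autoImplicit false

/-! # The form factor of a size class (helper911); the lemmas on the weight are those of `Y749.Rig.FFa` -/

namespace Run7.h911.PQ

open Filter Topology MeasureTheory Set
open H370 (Zf mult good_zeta)
open Run7.h911.SZ (G01 G01_nonneg G01_le)

noncomputable section

/-- the weight -/
def ww (u : ℝ) : ℝ := 4 / (4 + u ^ 2)

lemma ww_pos (u : ℝ) : 0 < ww u := by unfold ww; positivity

lemma ww_le (u : ℝ) : ww u ≤ 1 := by
  unfold ww
  rw [div_le_one (by positivity)]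
  nlinarith [sq_nonneg u]

lemma ww_zero : ww 0 = 1 := by unfold ww; norm_num

lemma ww_sub (u : ℝ) : |1 - ww u| ≤ u ^ 2 / 4 := by
  have h : 1 - ww u = u ^ 2 / (4 + u ^ 2) := by
    unfold ww
    field_simp
    ring
  rw [h, abs_of_nonneg (by positivity)]
  apply div_le_div_of_nonneg_left (by positivity) (by norm_num)
  nlinarith [sq_nonneg u]

lemma ww_cont : Continuous ww := by
  unfold ww
  exact continuous_const.div (by fun_prop) fun u => by positivity

lemma ww_int (u : ℝ) : ww u = 2 * ∫ s in Ioi (0 : ℝ), Real.exp (-(2 * s)) * Real.cos (s * u) := by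
  have hre : ((-2 : ℂ) + u * Complex.I).re < 0 := by simp
  have h1 := integral_exp_mul_complex_Ioi hre 0
  have h2 := congrArg Complex.re h1
  have hi := integrableOn_exp_mul_complex_Ioi hre 0
  have h3 : (∫ x : ℝ in Ioi 0, Complex.exp ((-2 + u * Complex.I) * x)).re =
      ∫ x : ℝ in Ioi 0, (Complex.exp ((-2 + u * Complex.I) * x)).re := by
    have := integral_re (𝕜 := ℂ) hi
    simpa using this.symm
  rw [h3] at h2
  have h4 : ∀ x : ℝ, (Complex.exp ((-2 + u * Complex.I) * x)).re =
      Real.exp (-(2 * x)) * Real.cos (x * u) := by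
    intro x
    rw [Complex.exp_re]
    congr 2
    · simp
    · simp; ring
  simp_rw [h4] at h2
  rw [h2]
  have h5 : (-2 + u * Complex.I : ℂ) ≠ 0 := by
    intro h
    have := congrArg Complex.re h
    simp at this
  have h6 : (-Complex.exp ((-2 + (u : ℂ) * Complex.I) * ((0 : ℝ) : ℂ)) / (-2 + u * Complex.I)).re =
      2 / (4 + u ^ 2) := by
    rw [Complex.ofReal_zero, mul_zero, Complex.exp_zero, Complex.div_re]
    simp [Complex.normSq_apply]
    field_simp
    ring
  rw [h6]
  unfold ww
  ring

/-- positivity -/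
lemma sq_form {ι : Type*} (A : Finset ι) (m g : ι → ℝ) (t : ℝ) :
    0 ≤ ∑ s ∈ A, ∑ s' ∈ A, m s * m s' * Real.cos (t * (g s - g s')) := by
  have h : ∑ s ∈ A, ∑ s' ∈ A, m s * m s' * Real.cos (t * (g s - g s')) =
      (∑ s ∈ A, m s * Real.cos (t * g s)) ^ 2 + (∑ s ∈ A, m s * Real.sin (t * g s)) ^ 2 := by
    rw [sq, sq, Finset.sum_mul_sum, Finset.sum_mul_sum, ← Finset.sum_add_distrib]
    refine Finset.sum_congr rfl fun s _ => ?_
    rw [← Finset.sum_add_distrib]
    refine Finset.sum_congr rfl fun s' _ => ?_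
    rw [mul_sub, Real.cos_sub]
    ring
  rw [h]
  positivity

lemma pd {ι : Type*} (A : Finset ι) (m g : ι → ℝ) (t : ℝ) :
    0 ≤ ∑ s ∈ A, ∑ s' ∈ A, m s * m s' * (Real.cos (t * (g s - g s')) * ww (g s - g s')) := by
  have hint : ∀ u : ℝ, IntegrableOn (fun s : ℝ => Real.exp (-(2 * s)) * Real.cos (s * u)) (Ioi 0) := by
    intro u
    have h1 : IntegrableOn (fun s : ℝ => Real.exp (-(2 * s))) (Ioi 0) := by
      have := integrableOn_exp_mul_Ioi (a := -2) (by norm_num) 0
      refine this.congr_fun (fun s _ => ?_) measurableSet_Ioi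
      simp only
      congr 1
      ring
    refine Integrable.mul_bdd (c := 1) h1 (by fun_prop) (ae_of_all _ fun s => ?_)
    rw [Real.norm_eq_abs]
    exact Real.abs_cos_le_one _
  have h : ∑ s ∈ A, ∑ s' ∈ A, m s * m s' * (Real.cos (t * (g s - g s')) * ww (g s - g s')) =
      ∫ x in Ioi (0 : ℝ), Real.exp (-(2 * x)) *
        ((∑ s ∈ A, ∑ s' ∈ A, m s * m s' * Real.cos ((t + x) * (g s - g s'))) +
          ∑ s ∈ A, ∑ s' ∈ A, m s * m s' * Real.cos ((t - x) * (g s - g s'))) := by
    have e : ∀ x : ℝ, Real.exp (-(2 * x)) *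
        ((∑ s ∈ A, ∑ s' ∈ A, m s * m s' * Real.cos ((t + x) * (g s - g s'))) +
          ∑ s ∈ A, ∑ s' ∈ A, m s * m s' * Real.cos ((t - x) * (g s - g s'))) =
        ∑ s ∈ A, ∑ s' ∈ A, (m s * m s' * Real.cos (t * (g s - g s')) * 2) *
          (Real.exp (-(2 * x)) * Real.cos (x * (g s - g s'))) := by
      intro x
      rw [← Finset.sum_add_distrib, Finset.mul_sum]
      refine Finset.sum_congr rfl fun s _ => ?_
      rw [← Finset.sum_add_distrib, Finset.mul_sum]
      refine Finset.sum_congr rfl fun s' _ => ?_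
      rw [add_mul, sub_mul, Real.cos_add, Real.cos_sub]
      ring
    simp_rw [e]
    rw [integral_finsetSum _ fun s _ => ?_]
    · refine Finset.sum_congr rfl fun s _ => ?_
      rw [integral_finsetSum _ fun s' _ => ?_]
      · refine Finset.sum_congr rfl fun s' _ => ?_
        rw [integral_const_mul, ww_int]
        ring
      · exact (hint _).const_mul _
    · exact integrable_finsetSum _ fun s' _ => (hint _).const_mul _
  rw [h]
  refine setIntegral_nonneg measurableSet_Ioi fun x _ => ?_
  exact mul_nonneg (Real.exp_pos _).le (add_nonneg (sq_form A m g _) (sq_form A m g _))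


open Classical in
/-- weighted sums over the pairs of a class -/
def CW (f : ℝ → ℝ) (a b T : ℝ) : ℝ :=
  ∑ s ∈ (Zf riemannZeta T (2 * T)).filter (fun s => NearO a b s.im),
    ∑ s' ∈ (Zf riemannZeta T (2 * T)).filter (fun s => NearO a b s.im),
      (mult riemannZeta s : ℝ) * (mult riemannZeta s' : ℝ) *
        (f (Real.log T * (s.im - s'.im)) * ww (s.im - s'.im))

/-- the form factor of a class -/
def FC (a b α T : ℝ) : ℝ := (T * (Real.log T / (2 * Real.pi)))⁻¹ * CW (fun y => Real.cos (α * y)) a b T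

lemma CW_add (f g : ℝ → ℝ) (a b T : ℝ) : CW (fun y => f y + g y) a b T = CW f a b T + CW g a b T := by
  unfold CW
  rw [← Finset.sum_add_distrib]
  refine Finset.sum_congr rfl fun s _ => ?_
  rw [← Finset.sum_add_distrib]
  refine Finset.sum_congr rfl fun s' _ => ?_
  ring

lemma CW_smul (c : ℝ) (f : ℝ → ℝ) (a b T : ℝ) : CW (fun y => c * f y) a b T = c * CW f a b T := by
  unfold CW
  rw [Finset.mul_sum]
  refine Finset.sum_congr rfl fun s _ => ?_
  rw [Finset.mul_sum]
  refine Finset.sum_congr rfl fun s' _ => ?_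
  ring

lemma CW_mono {f g : ℝ → ℝ} (h : ∀ y, f y ≤ g y) (a b T : ℝ) : CW f a b T ≤ CW g a b T := by
  unfold CW
  refine Finset.sum_le_sum fun s _ => Finset.sum_le_sum fun s' _ => ?_
  exact mul_le_mul_of_nonneg_left (mul_le_mul_of_nonneg_right (h _) (ww_pos _).le) (by positivity)

lemma CW_le_CS {f : ℝ → ℝ} (h : ∀ y, 0 ≤ f y) (a b T : ℝ) : CW f a b T ≤ CS f a b T := by
  unfold CW CS pf
  refine Finset.sum_le_sum fun s _ => Finset.sum_le_sum fun s' _ => ?_
  exact mul_le_mul_of_nonneg_left (mul_le_of_le_one_right (h _) (ww_le _)) (by positivity)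

lemma FC_nonneg (a b α : ℝ) {T : ℝ} (hT : 1 ≤ T) : 0 ≤ FC a b α T := by
  classical
  have hpi := Real.pi_pos
  have hL : 0 ≤ Real.log T := Real.log_nonneg hT
  unfold FC CW
  refine mul_nonneg (inv_nonneg.2 (by positivity)) ?_
  have h := pd ((Zf riemannZeta T (2 * T)).filter (fun s => NearO a b s.im)) (fun s => (mult riemannZeta s : ℝ))
    (fun s : ℂ => s.im) (α * Real.log T)
  refine h.trans (le_of_eq ?_)
  refine Finset.sum_congr rfl fun s _ => Finset.sum_congr rfl fun s' _ => ?_
  rw [mul_assoc α]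

lemma FC_cont (a b T : ℝ) : Continuous (fun α => FC a b α T) := by
  unfold FC CW
  fun_prop

/-- averages of the form factor -/
lemma FC_int {h : ℝ → ℝ} (hh : Continuous h) (p q a b T : ℝ) : ∫ α in p..q, h α * FC a b α T =
    (T * (Real.log T / (2 * Real.pi)))⁻¹ * CW (fun y => ∫ α in p..q, h α * Real.cos (α * y)) a b T := by
  classical
  unfold FC
  have e : ∀ α : ℝ, h α * ((T * (Real.log T / (2 * Real.pi)))⁻¹ * CW (fun y => Real.cos (α * y)) a b T) =
      (T * (Real.log T / (2 * Real.pi)))⁻¹ * (h α * CW (fun y => Real.cos (α * y)) a b T) := fun α => by ring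
  simp_rw [e]
  rw [intervalIntegral.integral_const_mul]
  congr 1
  unfold CW
  have e2 : ∀ α : ℝ, h α * ∑ s ∈ (Zf riemannZeta T (2 * T)).filter (fun s => NearO a b s.im),
      ∑ s' ∈ (Zf riemannZeta T (2 * T)).filter (fun s => NearO a b s.im),
        (mult riemannZeta s : ℝ) * (mult riemannZeta s' : ℝ) *
          (Real.cos (α * (Real.log T * (s.im - s'.im))) * ww (s.im - s'.im)) =
      ∑ s ∈ (Zf riemannZeta T (2 * T)).filter (fun s => NearO a b s.im),
      ∑ s' ∈ (Zf riemannZeta T (2 * T)).filter (fun s => NearO a b s.im),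
        (h α * Real.cos (α * (Real.log T * (s.im - s'.im)))) *
          ((mult riemannZeta s : ℝ) * (mult riemannZeta s' : ℝ) * ww (s.im - s'.im)) := by
    intro α
    rw [Finset.mul_sum]
    refine Finset.sum_congr rfl fun s _ => ?_
    rw [Finset.mul_sum]
    refine Finset.sum_congr rfl fun s' _ => ?_
    ring
  simp_rw [e2]
  rw [intervalIntegral.integral_finsetSum fun s _ => ?_]
  · refine Finset.sum_congr rfl fun s _ => ?_
    rw [intervalIntegral.integral_finsetSum fun s' _ => ?_]
    · refine Finset.sum_congr rfl fun s' _ => ?_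
      rw [intervalIntegral.integral_mul_const]
      ring
    · exact Continuous.intervalIntegrable (by fun_prop) _ _
  · exact Continuous.intervalIntegrable (by fun_prop) _ _

lemma tri_full {b : ℝ} (hb : 0 < b) (u : ℝ) {g : ℝ → ℝ} (hg : Continuous g) :
    ∫ x in (u - b)..(u + b), tri b (x - u) * g x = ∫ v in (0:ℝ)..b, (1 / b) * (1 - v / b) * (g (u + v) + g (u - v)) := by
  have hc : Continuous fun x : ℝ => tri b (x - u) * g x := ((tri_cont b).comp (by fun_prop)).mul hg
  have hi : ∀ p q : ℝ, IntervalIntegrable (fun x : ℝ => tri b (x - u) * g x) volume p q := fun p q =>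
    hc.intervalIntegrable p q
  rw [← intervalIntegral.integral_add_adjacent_intervals (hi (u - b) u) (hi u (u + b))]
  have z3 : ∫ x in u..(u + b), tri b (x - u) * g x = ∫ v in (0:ℝ)..b, (1 / b) * (1 - v / b) * g (u + v) := by
    have h1 := intervalIntegral.integral_comp_add_left (a := 0) (b := b) (fun x : ℝ => tri b (x - u) * g x) u
    rw [add_zero] at h1
    rw [← h1]
    refine intervalIntegral.integral_congr fun v hv => ?_
    rw [Set.uIcc_of_le hb.le] at hv
    show tri b (u + v - u) * g (u + v) = _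
    rw [add_sub_cancel_left, tri_in hb hv.1 hv.2]
  have z4 : ∫ x in (u - b)..u, tri b (x - u) * g x = ∫ v in (0:ℝ)..b, (1 / b) * (1 - v / b) * g (u - v) := by
    have h1 := intervalIntegral.integral_comp_sub_left (a := 0) (b := b) (fun x : ℝ => tri b (x - u) * g x) u
    rw [sub_zero] at h1
    rw [← h1]
    refine intervalIntegral.integral_congr fun v hv => ?_
    rw [Set.uIcc_of_le hb.le] at hv
    show tri b (u - v - u) * g (u - v) = _
    have e : u - v - u = -v := by ring
    rw [e, tri_even, tri_in hb hv.1 hv.2]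
  rw [z3, z4, ← intervalIntegral.integral_add
    (Continuous.intervalIntegrable (by fun_prop) _ _) (Continuous.intervalIntegrable (by fun_prop) _ _)]
  refine intervalIntegral.integral_congr fun v _ => ?_
  show (1 / b) * (1 - v / b) * g (u - v) + (1 / b) * (1 - v / b) * g (u + v) = _
  ring

/-- the tent average of the form factor -/
lemma FC_tri {b : ℝ} (hb : 0 < b) (u a c T : ℝ) : ∫ α in (u - b)..(u + b), tri b (α - u) * FC a c α T =
    (T * (Real.log T / (2 * Real.pi)))⁻¹ * CW (fun y => Real.cos (u * y) * kb b y) a c T := by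
  rw [FC_int (h := fun α => tri b (α - u)) ((tri_cont b).comp (by fun_prop))]
  congr 2
  ext y
  rw [tri_full hb u (g := fun α => Real.cos (α * y)) (by fun_prop)]
  unfold kb
  have e : ∀ v : ℝ, (1 / b) * (1 - v / b) * (Real.cos ((u + v) * y) + Real.cos ((u - v) * y)) =
      2 * Real.cos (u * y) * ((1 / b) * (1 - v / b) * Real.cos (y * v)) := by
    intro v
    have e1 : (u + v) * y = u * y + y * v := by ring
    have e2 : (u - v) * y = u * y - y * v := by ring
    rw [e1, e2, Real.cos_add, Real.cos_sub]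
    ring
  simp_rw [e]
  rw [intervalIntegral.integral_const_mul]
  ring

/-- upper bound for the tent averages -/
theorem tent_up (RH : RiemannHypothesis) {b : ℝ} (hb : 0 < b) (hb1 : b < 1) {a c ε : ℝ} (hac : a < c) (hε : 0 < ε) :
    ∀ᶠ T : ℝ in atTop, ∀ u : ℝ, ∫ α in (u - b)..(u + b), tri b (α - u) * FC a c α T ≤
      (1 / b + b / 3) * G01 a c + ε := by
  filter_upwards [posLaw RH (tri_TF hb hb1.le) hb hb1 hac hε, eventually_ge_atTop 10] with T hT hT10 u
  have hpi := Real.pi_pos
  have hL : 0 < Real.log T := Real.log_pos (by linarith)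
  rw [FC_tri hb, inv_mul_le_iff₀ (by positivity)]
  have h1 : CW (fun y => Real.cos (u * y) * kb b y) a c T ≤ CS (kb b) a c T := by
    refine (CW_mono (g := kb b) (fun y => ?_) a c T).trans (CW_le_CS (kb_nonneg hb) a c T)
    exact mul_le_of_le_one_left (kb_nonneg hb y) (Real.cos_le_one _)
  rw [tri_mo hb hb1.le] at hT
  have e : rh (tri b) = kb b := funext fun w => tri_rh hb hb1.le w
  rw [e] at hT
  have := (abs_le.1 hT).2
  linarith

open Classical in
/-- lower bound for the tent averages -/
theorem tent_low (RH : RiemannHypothesis) {b : ℝ} (hb : 0 < b) (hb1 : b < 1) {a c ε : ℝ} (hac : a < c) (hε : 0 < ε) :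
    ∀ᶠ T : ℝ in atTop, ∀ u : ℝ, (2 - (1 / b + b / 3)) * G01 a c - ε ≤
      ∫ α in (u - b)..(u + b), tri b (α - u) * FC a c α T := by
  filter_upwards [posLaw RH (tri_TF hb hb1.le) hb hb1 hac (show 0 < ε / 3 by positivity),
    cntN_low RH hac (show 0 < ε / 3 by positivity), eventually_ge_atTop 10] with T hT hN hT10 u
  have hpi := Real.pi_pos
  have hL : 0 < Real.log T := Real.log_pos (by linarith)
  rw [FC_tri hb, le_inv_mul_iff₀ (by positivity)]
  rw [tri_mo hb hb1.le] at hT
  have e : rh (tri b) = kb b := funext fun w => tri_rh hb hb1.le w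
  rw [e] at hT
  have h2 := (abs_le.1 hT).2
  have h1 : 2 * ∑ s ∈ (Zf riemannZeta T (2 * T)).filter (fun s => NearO a c s.im), (mult riemannZeta s : ℝ) ≤
      CW (fun y => Real.cos (u * y) * kb b y) a c T + CS (kb b) a c T := by
    unfold CW CS pf
    rw [← Finset.sum_add_distrib, Finset.mul_sum]
    refine Finset.sum_le_sum fun s hs => ?_
    rw [← Finset.sum_add_distrib]
    have hs1 := (Finset.mem_filter.1 hs).1
    have h3 := (Pool.Agent.R482.GB.Jb_facts RH (by linarith) hs1).1
    have h4 : (1 : ℝ) ≤ mult riemannZeta s := by exact_mod_cast h3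
    refine le_trans ?_ (Finset.single_le_sum (f := fun s' : ℂ => (mult riemannZeta s : ℝ) * (mult riemannZeta s' : ℝ) *
      (Real.cos (u * (Real.log T * (s.im - s'.im))) * kb b (Real.log T * (s.im - s'.im)) * ww (s.im - s'.im)) +
      (mult riemannZeta s : ℝ) * (mult riemannZeta s' : ℝ) * kb b (Real.log T * (s.im - s'.im))) (fun s' _ => ?_) hs)
    · simp only [sub_self, mul_zero, Real.cos_zero, kb_zero hb, ww_zero, mul_one]
      nlinarith
    · rw [← mul_add]
      apply mul_nonneg (by positivity)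
      have h5 := kb_nonneg hb (Real.log T * (s.im - s'.im))
      have h6 : -1 ≤ Real.cos (u * (Real.log T * (s.im - s'.im))) * ww (s.im - s'.im) := by
        have h7 : |Real.cos (u * (Real.log T * (s.im - s'.im))) * ww (s.im - s'.im)| ≤ 1 := by
          rw [abs_mul, abs_of_pos (ww_pos _)]
          exact mul_le_one₀ (Real.abs_cos_le_one _) (ww_pos _).le (ww_le _)
        exact (abs_le.1 h7).1
      have h8 := mul_le_mul_of_nonneg_right h6 h5
      linarith
  linarith

end

end Run7.h911.PQ
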