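import Pool.Agent.Run7.h911.PH3

set_option autoImplicit false

/-! # The form factor of a size class in intervals (helper911) -/

namespace Run7.h911.PQ

open Filter Topology MeasureTheory Set
open H370 (Zf mult good_zeta)
open Run7.h911.SZ (G01 G01_nonneg G01_le)

noncomputable section

/-- a sum of tents is a trapezium -/
lemma trap (n : ℕ) (x : ℝ) : ∑ j ∈ Finset.range (n + 1), max 0 (1 - |x - j|) =
    max 0 (min 1 (min (x + 1) ((n : ℝ) + 1 - x))) := by
  induction n with
  | zero =>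
    simp only [zero_add, Finset.range_one, Finset.sum_singleton, Nat.cast_zero, sub_zero]
    rcases abs_cases x with ⟨h1, h2⟩ | ⟨h1, h2⟩ <;> rw [h1]
    · rw [min_eq_right (show (1:ℝ) - x ≤ x + 1 by linarith), min_eq_right (by linarith)]
    · rw [min_eq_left (show x + 1 ≤ (1:ℝ) - x by linarith), min_eq_right (by linarith)]
      congr 1
      ring
  | succ n ih =>
    rw [Finset.sum_range_succ, ih]
    have hn : (0:ℝ) ≤ n := Nat.cast_nonneg n
    push_cast
    rcases abs_cases (x - (n + 1)) with ⟨h1, h2⟩ | ⟨h1, h2⟩ <;> rw [h1]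
    · -- x ≥ n + 1
      rw [max_eq_left (show min 1 (min (x + 1) ((n : ℝ) + 1 - x)) ≤ 0 from
        (min_le_right _ _).trans ((min_le_right _ _).trans (by linarith)))]
      rw [min_eq_right (show (n : ℝ) + 1 + 1 - x ≤ x + 1 by linarith), min_eq_right (by linarith), zero_add]
      congr 1
      ring
    · rcases le_total x n with h3 | h3
      · -- x ≤ n
        rw [max_eq_left (show 1 - -(x - ((n:ℝ) + 1)) ≤ 0 by linarith), add_zero]
        rcases le_total (x + 1) 0 with h4 | h4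
        · rw [max_eq_left ((min_le_right _ _).trans ((min_le_left _ _).trans h4)),
            max_eq_left ((min_le_right _ _).trans ((min_le_left _ _).trans h4))]
        · congr 1
          rcases le_total (x + 1) 1 with h5 | h5
          · rw [min_eq_left (show x + 1 ≤ (n:ℝ) + 1 - x by linarith), min_eq_left (show x + 1 ≤ (n:ℝ) + 1 + 1 - x by linarith)]
          · rw [min_eq_left (le_min h5 (by linarith)), min_eq_left (le_min h5 (by linarith))]
      · -- n ≤ x ≤ n + 1
        have a1 : min 1 (min (x + 1) ((n:ℝ) + 1 - x)) = (n:ℝ) + 1 - x := by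
          rw [min_eq_right (show (n:ℝ) + 1 - x ≤ x + 1 by linarith), min_eq_right (by linarith)]
        have a2 : min 1 (min (x + 1) ((n:ℝ) + 1 + 1 - x)) = 1 :=
          min_eq_left (le_min (by linarith) (by linarith))
        rw [a1, a2, max_eq_right (by linarith), max_eq_right (by linarith), max_eq_right (by linarith)]
        ring

lemma btri {b : ℝ} (hb : 0 < b) (x : ℝ) : b * tri b x = max 0 (1 - |x / b|) := by
  unfold tri
  rw [abs_div, abs_of_pos hb, ← mul_assoc, mul_one_div_cancel hb.ne', one_mul]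

lemma trapb {b : ℝ} (hb : 0 < b) (n : ℕ) (c x : ℝ) : ∑ j ∈ Finset.range (n + 1), b * tri b (x - (c + j * b)) =
    max 0 (min 1 (min ((x - c) / b + 1) ((n : ℝ) + 1 - (x - c) / b))) := by
  rw [← trap]
  refine Finset.sum_congr rfl fun j _ => ?_
  rw [btri hb]
  congr 3
  field_simp
  ring

/-- the integral of a tent over a larger interval -/
lemma tri_ext {b : ℝ} (hb : 0 < b) {u p q : ℝ} (hp : p ≤ u - b) (hq : u + b ≤ q) {g : ℝ → ℝ} (hg : Continuous g) :
    ∫ x in p..q, tri b (x - u) * g x = ∫ x in (u - b)..(u + b), tri b (x - u) * g x := by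
  have hc : Continuous fun x : ℝ => tri b (x - u) * g x := ((tri_cont b).comp (by fun_prop)).mul hg
  have hi : ∀ p q : ℝ, IntervalIntegrable (fun x : ℝ => tri b (x - u) * g x) volume p q := fun p q =>
    hc.intervalIntegrable p q
  rw [← intervalIntegral.integral_add_adjacent_intervals (hi p (u - b)) (hi (u - b) q),
    ← intervalIntegral.integral_add_adjacent_intervals (hi (u - b) (u + b)) (hi (u + b) q)]
  have z1 : ∫ x in p..(u - b), tri b (x - u) * g x = 0 := by
    rw [intervalIntegral.integral_congr (g := fun _ => (0 : ℝ))]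
    · simp
    · intro x hx
      rw [Set.uIcc_of_le hp] at hx
      show tri b (x - u) * g x = 0
      rw [tri_supp hb (by rw [abs_of_nonpos (by linarith [hx.2])]; linarith [hx.2]), zero_mul]
  have z2 : ∫ x in (u + b)..q, tri b (x - u) * g x = 0 := by
    rw [intervalIntegral.integral_congr (g := fun _ => (0 : ℝ))]
    · simp
    · intro x hx
      rw [Set.uIcc_of_le hq] at hx
      show tri b (x - u) * g x = 0
      rw [tri_supp hb (by rw [abs_of_nonneg (by linarith [hx.1])]; linarith [hx.1]), zero_mul]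
  rw [z1, z2, zero_add, add_zero]

/-- the integral of a nonnegative function over a smaller interval -/
lemma tri_sub {b : ℝ} (hb : 0 < b) {u p q : ℝ} (hpq : p ≤ q) {g : ℝ → ℝ} (hg : Continuous g)
    (hg0 : ∀ x, 0 ≤ g x) :
    ∫ x in p..q, tri b (x - u) * g x ≤ ∫ x in (u - b)..(u + b), tri b (x - u) * g x := by
  have hc : Continuous fun x : ℝ => tri b (x - u) * g x := ((tri_cont b).comp (by fun_prop)).mul hg
  rw [← tri_ext hb (min_le_right p (u - b)) (le_max_right q (u + b)) hg]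
  refine intervalIntegral.integral_mono_interval (min_le_left _ _) hpq (le_max_left _ _) ?_ (hc.intervalIntegrable _ _)
  exact Filter.Eventually.of_forall fun x => mul_nonneg (tri_nonneg hb _) (hg0 x)

/-- from the tents to an interval, upper bounds -/
lemma int_up {b : ℝ} (hb : 0 < b) {g : ℝ → ℝ} (hg : Continuous g) (hg0 : ∀ x, 0 ≤ g x) {A : ℝ}
    (hA : ∀ u : ℝ, ∫ x in (u - b)..(u + b), tri b (x - u) * g x ≤ A) (c : ℝ) (n : ℕ) {l : ℝ} (hl0 : 0 ≤ l)
    (hl : l ≤ n * b) : ∫ x in c..(c + l), g x ≤ (n + 1) * (b * A) := by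
  have hc : ∀ u : ℝ, Continuous fun x : ℝ => b * (tri b (x - u) * g x) := fun u =>
    (((tri_cont b).comp (by fun_prop)).mul hg).const_mul b
  have h1 : ∫ x in c..(c + l), g x ≤ ∫ x in c..(c + l), ∑ j ∈ Finset.range (n + 1), b * (tri b (x - (c + j * b)) * g x) := by
    refine intervalIntegral.integral_mono_on (by linarith) (hg.intervalIntegrable _ _)
      ((continuous_finsetSum _ fun j _ => hc _).intervalIntegrable _ _) fun x hx => ?_
    have e : ∑ j ∈ Finset.range (n + 1), b * (tri b (x - (c + j * b)) * g x) =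
        (∑ j ∈ Finset.range (n + 1), b * tri b (x - (c + j * b))) * g x := by
      rw [Finset.sum_mul]
      exact Finset.sum_congr rfl fun j _ => by ring
    rw [e, trapb hb]
    have h2 : 0 ≤ (x - c) / b := div_nonneg (by linarith [hx.1]) hb.le
    have h3 : (x - c) / b ≤ n := by
      rw [div_le_iff₀ hb]
      linarith [hx.2]
    rw [min_eq_left (le_min (by linarith) (by linarith)), max_eq_right zero_le_one, one_mul]
  refine h1.trans ?_
  rw [intervalIntegral.integral_finsetSum fun j _ => (hc _).intervalIntegrable _ _]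
  have h2 : ∀ j ∈ Finset.range (n + 1), ∫ x in c..(c + l), b * (tri b (x - (c + j * b)) * g x) ≤ b * A := by
    intro j _
    rw [intervalIntegral.integral_const_mul]
    exact mul_le_mul_of_nonneg_left ((tri_sub hb (by linarith) hg hg0).trans (hA _)) hb.le
  refine (Finset.sum_le_card_nsmul _ _ _ h2).trans (le_of_eq ?_)
  rw [Finset.card_range, nsmul_eq_mul]
  push_cast
  ring

/-- from the tents to an interval, lower bounds -/
lemma int_low {b : ℝ} (hb : 0 < b) {g : ℝ → ℝ} (hg : Continuous g) (hg0 : ∀ x, 0 ≤ g x) {A : ℝ}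
    (hA : ∀ u : ℝ, A ≤ ∫ x in (u - b)..(u + b), tri b (x - u) * g x) (c : ℝ) (n : ℕ) {l : ℝ}
    (hl : (n + 2) * b ≤ l) : (n + 1) * (b * A) ≤ ∫ x in c..(c + l), g x := by
  have hn : (0:ℝ) ≤ n := Nat.cast_nonneg n
  have hl0 : 0 ≤ l := le_trans (by positivity) hl
  have hc : ∀ u : ℝ, Continuous fun x : ℝ => b * (tri b (x - u) * g x) := fun u =>
    (((tri_cont b).comp (by fun_prop)).mul hg).const_mul b
  have h1 : ∫ x in c..(c + l), ∑ j ∈ Finset.range (n + 1), b * (tri b (x - (c + b + j * b)) * g x) ≤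
      ∫ x in c..(c + l), g x := by
    refine intervalIntegral.integral_mono_on (by linarith)
      ((continuous_finsetSum _ fun j _ => hc _).intervalIntegrable _ _) (hg.intervalIntegrable _ _) fun x hx => ?_
    have e : ∑ j ∈ Finset.range (n + 1), b * (tri b (x - (c + b + j * b)) * g x) =
        (∑ j ∈ Finset.range (n + 1), b * tri b (x - (c + b + j * b))) * g x := by
      rw [Finset.sum_mul]
      exact Finset.sum_congr rfl fun j _ => by ring
    rw [e, trapb hb]
    exact mul_le_of_le_one_left (hg0 x) (max_le zero_le_one (min_le_left _ _))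
  refine le_trans ?_ h1
  rw [intervalIntegral.integral_finsetSum fun j _ => (hc _).intervalIntegrable _ _]
  have h2 : ∀ j ∈ Finset.range (n + 1), b * A ≤ ∫ x in c..(c + l), b * (tri b (x - (c + b + j * b)) * g x) := by
    intro j hj
    rw [intervalIntegral.integral_const_mul]
    apply mul_le_mul_of_nonneg_left _ hb.le
    have hj1 : (j : ℝ) ≤ n := by
      rw [Finset.mem_range] at hj
      exact_mod_cast (by omega : j ≤ n)
    have hj0 : (0:ℝ) ≤ j * b := by positivity
    have hj2 : (j : ℝ) * b ≤ n * b := mul_le_mul_of_nonneg_right hj1 hb.le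
    rw [tri_ext hb (by linarith) (by linarith) hg]
    exact hA _
  refine le_trans (le_of_eq ?_) (Finset.card_nsmul_le_sum _ _ _ h2)
  rw [Finset.card_range, nsmul_eq_mul]
  push_cast
  ring

/-- **long averages of the form factor of a class, upper bound** -/
theorem FC_up (RH : RiemannHypothesis) {a b ε : ℝ} (hab : a < b) (hε0 : 0 < ε) : ∀ᶠ T : ℝ in atTop,
    ∀ c l : ℝ, 0 ≤ l → ∫ α in c..(c + l), FC a b α T ≤ G01 a b * (4 / 3 * (l + 2)) + ε * (l + 1) := by
  have hG0 := G01_nonneg a b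
  have hG1 := G01_le a b
  obtain ⟨δ, hδ⟩ : ∃ δ, δ = min ε 1 / 2 := ⟨_, rfl⟩
  have hδ0 : 0 < δ := by rw [hδ]; positivity
  have hδ1 : δ ≤ 1 / 2 := by rw [hδ]; linarith [min_le_right ε 1]
  have hδε : 2 * δ ≤ ε := by rw [hδ]; linarith [min_le_left ε 1]
  obtain ⟨h, hh⟩ : ∃ h, h = 1 / (1 + δ / 8) := ⟨_, rfl⟩
  have hh0 : 0 < h := by rw [hh]; positivity
  have hh1 : h < 1 := by
    rw [hh, div_lt_one (by positivity)]
    linarith
  have hh2 : 1 / h = 1 + δ / 8 := by rw [hh, one_div_one_div]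
  filter_upwards [tent_up RH hh0 hh1 hab (show 0 < δ / 2 by positivity), eventually_ge_atTop 10] with T hT hT10 c l hl
  obtain ⟨n, hn⟩ : ∃ n : ℕ, n = ⌈l / h⌉₊ := ⟨_, rfl⟩
  have hn1 : l / h ≤ n := by rw [hn]; exact Nat.le_ceil _
  have hn2 : (n : ℝ) < l / h + 1 := by rw [hn]; exact Nat.ceil_lt_add_one (by positivity)
  have hl1 : l ≤ n * h := by rwa [div_le_iff₀ hh0] at hn1
  have h1 := int_up hh0 (FC_cont a b T) (fun α => FC_nonneg a b α (by linarith)) hT c n hl hl1
  refine h1.trans ?_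
  have h2 : h * ((1 / h + h / 3) * G01 a b + δ / 2) ≤ 4 / 3 * G01 a b + δ / 2 := by
    have e : h * ((1 / h + h / 3) * G01 a b + δ / 2) = (1 + h ^ 2 / 3) * G01 a b + h * (δ / 2) := by
      field_simp
    rw [e]
    have h3 : h ^ 2 ≤ 1 := by nlinarith
    have h4 : (1 + h ^ 2 / 3) * G01 a b ≤ 4 / 3 * G01 a b := mul_le_mul_of_nonneg_right (by linarith) hG0
    have h5 : h * (δ / 2) ≤ δ / 2 := by nlinarith
    linarith
  have h3 : (n : ℝ) + 1 ≤ (1 + δ / 8) * (l + 2) := by
    have h4 : l / h = l * (1 + δ / 8) := by rw [← hh2]; ring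
    rw [h4] at hn2
    nlinarith
  have h6 : 0 ≤ (n : ℝ) + 1 := by positivity
  calc ((n : ℝ) + 1) * (h * ((1 / h + h / 3) * G01 a b + δ / 2)) ≤ ((n : ℝ) + 1) * (4 / 3 * G01 a b + δ / 2) :=
        mul_le_mul_of_nonneg_left h2 h6
    _ ≤ ((1 + δ / 8) * (l + 2)) * (4 / 3 * G01 a b + δ / 2) := mul_le_mul_of_nonneg_right h3 (by positivity)
    _ ≤ (4 / 3 * G01 a b + δ) * (l + 2) := by
      have h8 : (1 + δ / 8) * (4 / 3 * G01 a b + δ / 2) ≤ 4 / 3 * G01 a b + δ := by
        nlinarith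
      calc ((1 + δ / 8) * (l + 2)) * (4 / 3 * G01 a b + δ / 2) =
          ((1 + δ / 8) * (4 / 3 * G01 a b + δ / 2)) * (l + 2) := by ring
        _ ≤ _ := mul_le_mul_of_nonneg_right h8 (by linarith)
    _ ≤ _ := by nlinarith

/-- **long averages of the form factor of a class, lower bound** -/
theorem FC_low (RH : RiemannHypothesis) {a b ε : ℝ} (hab : a < b) (hε0 : 0 < ε) : ∀ᶠ T : ℝ in atTop,
    ∀ c l : ℝ, 0 ≤ l → G01 a b * (2 / 3 * (l - 2)) - ε * (l + 1) ≤ ∫ α in c..(c + l), FC a b α T := by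
  have hG0 := G01_nonneg a b
  have hG1 := G01_le a b
  obtain ⟨δ, hδ⟩ : ∃ δ, δ = min ε 1 / 16 := ⟨_, rfl⟩
  have hδ0 : 0 < δ := by rw [hδ]; positivity
  have hδ1 : δ ≤ 1 / 16 := by rw [hδ]; linarith [min_le_right ε 1]
  have hδε : 16 * δ ≤ ε := by rw [hδ]; linarith [min_le_left ε 1]
  obtain ⟨h, hh⟩ : ∃ h, h = 1 / (1 + δ) := ⟨_, rfl⟩
  have hh0 : 0 < h := by rw [hh]; positivity
  have hh1 : h < 1 := by
    rw [hh, div_lt_one (by positivity)]
    linarith
  have hh2 : 1 / h = 1 + δ := by rw [hh, one_div_one_div]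
  have hh3 : 1 - δ ≤ h := by
    rw [hh, le_div_iff₀ (by positivity)]
    nlinarith
  filter_upwards [tent_low RH hh0 hh1 hab (show 0 < δ by positivity), eventually_ge_atTop 10] with T hT hT10 c l hl
  have hF0 : ∀ α, 0 ≤ FC a b α T := fun α => FC_nonneg a b α (by linarith)
  rcases lt_or_ge l 2 with hl2 | hl2
  · have h1 : 0 ≤ ∫ α in c..(c + l), FC a b α T :=
      intervalIntegral.integral_nonneg (by linarith) fun α _ => hF0 α
    have h2 : G01 a b * (2 / 3 * (l - 2)) ≤ 0 := mul_nonpos_of_nonneg_of_nonpos hG0 (by linarith)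
    have h3 : 0 ≤ ε * (l + 1) := by positivity
    linarith
  obtain ⟨m, hm⟩ : ∃ m : ℕ, m = ⌊l / h⌋₊ := ⟨_, rfl⟩
  have h4 : l / h = l * (1 + δ) := by rw [← hh2]; ring
  have hm1 : (m : ℝ) ≤ l / h := by rw [hm]; exact Nat.floor_le (by positivity)
  have hm2 : l / h < m + 1 := by rw [hm]; exact Nat.lt_floor_add_one _
  have hm3 : 2 ≤ m := by
    have h5 : (1:ℝ) < m := by
      rw [h4] at hm2
      nlinarith
    have h6 : 1 < m := by exact_mod_cast h5
    omega
  obtain ⟨n, rfl⟩ : ∃ n, m = n + 2 := ⟨m - 2, by omega⟩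
  push_cast at hm1 hm2
  have hl1 : ((n : ℝ) + 2) * h ≤ l := by rwa [le_div_iff₀ hh0] at hm1
  have h1 := int_low hh0 (FC_cont a b T) hF0 hT c n hl1
  refine le_trans ?_ h1
  have h2 : 2 / 3 * G01 a b - 3 * δ ≤ h * ((2 - (1 / h + h / 3)) * G01 a b - δ) := by
    have e : h * ((2 - (1 / h + h / 3)) * G01 a b - δ) = (2 * h - 1 - h ^ 2 / 3) * G01 a b - h * δ := by
      field_simp
      ring
    rw [e]
    have h3 : h ^ 2 ≤ 1 := by nlinarith
    have h5 : (2 / 3 - 2 * δ) * G01 a b ≤ (2 * h - 1 - h ^ 2 / 3) * G01 a b :=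
      mul_le_mul_of_nonneg_right (by linarith) hG0
    have h6 : h * δ ≤ δ := by nlinarith
    have h7 : δ * G01 a b ≤ δ := by nlinarith
    nlinarith
  rw [h4] at hm1 hm2
  have hn0 : (0:ℝ) ≤ n := Nat.cast_nonneg n
  have h8 : (n + 1) * (2 / 3 * G01 a b - 3 * δ) ≤ (n + 1) * (h * ((2 - (1 / h + h / 3)) * G01 a b - δ)) :=
    mul_le_mul_of_nonneg_left h2 (by positivity)
  refine le_trans ?_ h8
  have h9 : l - 2 ≤ n + 1 := by nlinarith
  have h10 : G01 a b * (2 / 3 * (l - 2)) ≤ G01 a b * (2 / 3 * (n + 1)) :=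
    mul_le_mul_of_nonneg_left (by linarith) hG0
  have h11 : ((n : ℝ) + 1) * (3 * δ) ≤ (l * (1 + δ)) * (3 * δ) := mul_le_mul_of_nonneg_right (by linarith) (by positivity)
  have h12 : (l * (1 + δ)) * (3 * δ) ≤ ε * (l + 1) := by
    have h13 : (1 + δ) * (3 * δ) ≤ ε := by nlinarith
    have h14 := mul_le_mul_of_nonneg_left h13 hl
    nlinarith
  nlinarith

end

end Run7.h911.PQ
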