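import Pool.Agent.Run7.h911.PH4

set_option autoImplicit false

/-! # The form factor of a size class at a point and in `(0, 1)` (helper911) -/

namespace Run7.h911.PQ

open Filter Topology MeasureTheory Set
open H370 (Zf mult good_zeta)
open Run7.h911.SZ (G01 G01_nonneg G01_le)

noncomputable section

lemma G01_pos {a b : ℝ} (hab : a < b) : 0 < G01 a b := by
  refine lt_of_le_of_ne (G01_nonneg a b) fun h => ?_
  have h1 : (ProbabilityTheory.gaussianReal 0 1) (Set.Ioo a b) = 0 := by
    have h2 : (ProbabilityTheory.gaussianReal 0 1).real (Set.Ioo a b) = 0 := h.symm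
    rwa [measureReal_eq_zero_iff] at h2
  have h3 := ProbabilityTheory.gaussianReal_absolutelyContinuous' 0 (v := 1) one_ne_zero h1
  rw [Real.volume_Ioo, ENNReal.ofReal_eq_zero] at h3
  linarith

/-- the weight can be removed -/
lemma CW_rem (RH : RiemannHypothesis) {f : ℝ → ℝ} (hf0 : ∀ y, 0 ≤ f y) {A : ℝ} (hA0 : 0 ≤ A)
    (hA : ∀ y, f y ≤ A / (1 + y ^ 2)) {a b ε : ℝ} (hab : a < b) (hε : 0 < ε) : ∀ᶠ T : ℝ in atTop,
    CS f a b T ≤ CW f a b T + ε * (T * (Real.log T / (2 * Real.pi))) := by
  classical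
  have hpi := Real.pi_pos
  have hTF := fb_TF (show (0:ℝ) < 1 / 2 by norm_num) (by norm_num)
  have hfb : ∀ y, f y ≤ 2 * A * rh (fb (1 / 2)) y := by
    intro y
    refine (hA y).trans ?_
    have h1 := mul_le_mul_of_nonneg_left (fb_low2 (show (0:ℝ) < 1 / 2 by norm_num) (by norm_num) y)
      (by positivity : 0 ≤ 2 * A)
    refine le_trans (le_of_eq ?_) h1
    ring
  obtain ⟨k, hk2, hfar⟩ := far_W RH hTF (show 0 < ε / (4 * (A + 1)) by positivity)
  obtain ⟨M, hM⟩ : ∃ M, M = mo (fb (1 / 2)) + 1 := ⟨_, rfl⟩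
  have hM0 : 1 ≤ M := by
    rw [hM]
    have := mo_nonneg hTF
    linarith
  have hlog : ∀ᶠ T : ℝ in atTop, k ^ 2 * (A * M) / ε ≤ Real.log T ^ 2 :=
    ((tendsto_pow_atTop (n := 2) (by norm_num)).comp Real.tendsto_log_atTop).eventually_ge_atTop _
  filter_upwards [hfar, posLaw RH hTF (by norm_num) (by norm_num) hab (show (0:ℝ) < 1 by norm_num), hlog,
    eventually_ge_atTop 10] with T t1 t2 t3 hT10
  have hL : 0 < Real.log T := Real.log_pos (by linarith)
  obtain ⟨Y, hY⟩ : ∃ Y, Y = T * (Real.log T / (2 * Real.pi)) := ⟨_, rfl⟩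
  rw [← hY] at t1 t2 ⊢
  have hY0 : 0 < Y := by rw [hY]; positivity
  have hG0 := G01_nonneg a b
  have hG1 := G01_le a b
  obtain ⟨C, hC⟩ : ∃ C : Finset ℂ, C = (Zf riemannZeta T (2 * T)).filter (fun s => NearO a b s.im) := ⟨_, rfl⟩
  have hCZ : C ⊆ Zf riemannZeta T (2 * T) := by rw [hC]; exact Finset.filter_subset _ _
  -- pointwise
  have key : ∀ s s' : ℂ, pf f T s s' ≤ (mult riemannZeta s : ℝ) * (mult riemannZeta s' : ℝ) *
      (f (Real.log T * (s.im - s'.im)) * ww (s.im - s'.im)) +
      ((k / Real.log T) ^ 2 / 4 * (2 * A) * pf (rh (fb (1 / 2))) T s s' +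
      2 * A * (if ¬ |s'.im - s.im| ≤ k / Real.log T then pw (fb (1 / 2)) T s s' else 0)) := by
    intro s s'
    have hp := pw_nonneg hTF T s s'
    have h1 : pf f T s s' ≤ 2 * A * pf (rh (fb (1 / 2))) T s s' := by
      unfold pf
      have := mul_le_mul_of_nonneg_left (hfb (Real.log T * (s.im - s'.im)))
        (by positivity : 0 ≤ (mult riemannZeta s : ℝ) * (mult riemannZeta s' : ℝ))
      linarith
    have h2 : pf f T s s' - (mult riemannZeta s : ℝ) * (mult riemannZeta s' : ℝ) *
        (f (Real.log T * (s.im - s'.im)) * ww (s.im - s'.im)) = pf f T s s' * (1 - ww (s.im - s'.im)) := by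
      unfold pf
      ring
    have hw1 := ww_le (s.im - s'.im)
    have hw0 := ww_pos (s.im - s'.im)
    have hpf0 : 0 ≤ pf f T s s' := mul_nonneg (by positivity) (hf0 _)
    have hpf1 : 0 ≤ pf (rh (fb (1 / 2))) T s s' := hp
    by_cases hk : |s'.im - s.im| ≤ k / Real.log T
    · rw [if_neg (not_not.2 hk), mul_zero, add_zero]
      have h3 : 1 - ww (s.im - s'.im) ≤ (k / Real.log T) ^ 2 / 4 := by
        refine ((le_abs_self _).trans (ww_sub _)).trans ?_
        apply div_le_div_of_nonneg_right _ (by norm_num)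
        rw [← sq_abs, abs_sub_comm]
        exact pow_le_pow_left₀ (abs_nonneg _) hk 2
      have h4 : pf f T s s' * (1 - ww (s.im - s'.im)) ≤ (2 * A * pf (rh (fb (1 / 2))) T s s') * ((k / Real.log T) ^ 2 / 4) :=
        mul_le_mul h1 h3 (by linarith) (by positivity)
      linarith
    · rw [if_pos hk]
      have h4 : pf f T s s' * (1 - ww (s.im - s'.im)) ≤ pf f T s s' := mul_le_of_le_one_right hpf0 (by linarith)
      have h5 : 0 ≤ (k / Real.log T) ^ 2 / 4 * (2 * A) * pf (rh (fb (1 / 2))) T s s' := by positivity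
      have h6 : pw (fb (1 / 2)) T s s' = pf (rh (fb (1 / 2))) T s s' := rfl
      rw [h6]
      linarith
  have hsum : CS f a b T ≤ CW f a b T + ((k / Real.log T) ^ 2 / 4 * (2 * A) * CS (rh (fb (1 / 2))) a b T +
      2 * A * ∑ s ∈ C, ∑ s' ∈ C, (if ¬ |s'.im - s.im| ≤ k / Real.log T then pw (fb (1 / 2)) T s s' else 0)) := by
    unfold CS CW
    rw [← hC, Finset.mul_sum, Finset.mul_sum, ← Finset.sum_add_distrib, ← Finset.sum_add_distrib]
    refine Finset.sum_le_sum fun s _ => ?_
    rw [Finset.mul_sum, Finset.mul_sum, ← Finset.sum_add_distrib, ← Finset.sum_add_distrib]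
    exact Finset.sum_le_sum fun s' _ => key s s'
  have hfar2 : ∑ s ∈ C, ∑ s' ∈ C, (if ¬ |s'.im - s.im| ≤ k / Real.log T then pw (fb (1 / 2)) T s s' else 0) ≤
      ε / (4 * (A + 1)) * Y := by
    refine le_trans ?_ t1
    refine (Finset.sum_le_sum_of_subset_of_nonneg hCZ fun s _ _ => Finset.sum_nonneg fun s' _ => by
      split_ifs <;> first | exact le_rfl | exact pw_nonneg hTF T s s').trans ?_
    refine Finset.sum_le_sum fun s _ => ?_
    refine (Finset.sum_le_sum_of_subset_of_nonneg hCZ fun s' _ _ => by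
      split_ifs <;> first | exact le_rfl | exact pw_nonneg hTF T s s').trans (le_of_eq ?_)
    rw [Finset.sum_filter]
  have h7 : 2 * A * (ε / (4 * (A + 1)) * Y) ≤ ε / 2 * Y := by
    have h8 : 2 * A * (ε / (4 * (A + 1))) ≤ ε / 2 := by
      rw [mul_div_assoc', div_le_div_iff₀ (by positivity) (by norm_num)]
      nlinarith
    nlinarith
  have h9 : CS (rh (fb (1 / 2))) a b T ≤ M * Y := by
    have h10 := (abs_le.1 t2).2
    have h11 : mo (fb (1 / 2)) * G01 a b * Y ≤ mo (fb (1 / 2)) * Y :=
      mul_le_mul_of_nonneg_right (mul_le_of_le_one_right (mo_nonneg hTF) hG1) hY0.le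
    rw [hM]
    linarith
  have h12 : (k / Real.log T) ^ 2 / 4 * (2 * A) * CS (rh (fb (1 / 2))) a b T ≤ ε / 2 * Y := by
    calc (k / Real.log T) ^ 2 / 4 * (2 * A) * CS (rh (fb (1 / 2))) a b T ≤
        (k / Real.log T) ^ 2 / 4 * (2 * A) * (M * Y) := mul_le_mul_of_nonneg_left h9 (by positivity)
      _ = (k ^ 2 * (A * M) / Real.log T ^ 2) * (Y / 2) := by
          rw [div_pow]; ring
      _ ≤ ε * (Y / 2) := by
          apply mul_le_mul_of_nonneg_right _ (by positivity)
          rw [div_le_iff₀ hε] at t3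
          rw [div_le_iff₀ (by positivity)]
          linarith
      _ = _ := by ring
  have h13 := mul_le_mul_of_nonneg_left hfar2 (by positivity : 0 ≤ 2 * A)
  linarith

/-- **there is no point mass one in `(0, 2)`** -/
theorem FC_point (RH : RiemannHypothesis) {θ : ℝ} (h0 : 0 < θ) (h2 : θ < 2) : ∃ e : ℝ, 0 < e ∧
    ∀ a b : ℝ, a < b → ∀ᶠ T : ℝ in atTop, ∫ α in (θ - e)..(θ + e), FC a b α T ≤ (1 - e) * G01 a b := by
  obtain ⟨c, hc, hnl⟩ := nonlat RH h0 h2
  obtain ⟨η, hη⟩ : ∃ η, η = min (c / 24) (1 / 2) := ⟨_, rfl⟩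
  have hη0 : 0 < η := by rw [hη]; positivity
  have hη1 : η ≤ c / 24 := by rw [hη]; exact min_le_left _ _
  have hη2 : η ≤ 1 / 2 := by rw [hη]; exact min_le_right _ _
  have hTF := fb_TF hη0 (by linarith)
  obtain ⟨K, hK⟩ := hTF.lip
  obtain ⟨K', hK'⟩ : ∃ K', K' = |K| := ⟨_, rfl⟩
  have hK'0 : 0 ≤ K' := by rw [hK']; exact abs_nonneg _
  obtain ⟨e, he⟩ : ∃ e, e = min (min (η / 2) (1 / 2)) (min (c / (8 * (3 / η + K' + 1))) (3 / η / (K' + 1))) := ⟨_, rfl⟩
  have he0 : 0 < e := by rw [he]; positivity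
  have he1 : e ≤ η / 2 := by rw [he]; exact (min_le_left _ _).trans (min_le_left _ _)
  have he2 : e ≤ 1 / 2 := by rw [he]; exact (min_le_left _ _).trans (min_le_right _ _)
  have he3 : e * (8 * (3 / η + K' + 1)) ≤ c := by
    have : e ≤ c / (8 * (3 / η + K' + 1)) := by rw [he]; exact (min_le_right _ _).trans (min_le_left _ _)
    rwa [le_div_iff₀ (by positivity)] at this
  have he4 : e * (K' + 1) ≤ 3 / η := by
    have : e ≤ 3 / η / (K' + 1) := by rw [he]; exact (min_le_right _ _).trans (min_le_right _ _)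
    rwa [le_div_iff₀ (by positivity)] at this
  refine ⟨e, he0, fun a b hab => ?_⟩
  obtain ⟨A, hA0, hA⟩ := hTF.A
  have hG := G01_pos hab
  have hskA : ∀ y, sk θ y ≤ 1 / (1 + y ^ 2) := by
    intro y
    unfold sk
    apply div_le_div_of_nonneg_right _ (by positivity)
    have := Real.sin_sq_le_one (θ / 2 * y)
    linarith
  filter_upwards [hnl a b hab, posLaw RH hTF hη0 (by linarith) hab (show 0 < c * G01 a b / 8 by positivity),
    CW_rem RH (sk_nonneg θ) zero_le_one hskA hab (show 0 < c * G01 a b / 8 by positivity), eventually_ge_atTop 10]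
    with T t1 t2 t3 hT10
  have hpi := Real.pi_pos
  have hL : 0 < Real.log T := Real.log_pos (by linarith)
  obtain ⟨Y, hY⟩ : ∃ Y, Y = T * (Real.log T / (2 * Real.pi)) := ⟨_, rfl⟩
  have hY0 : 0 < Y := by rw [hY]; positivity
  have hF0 : ∀ α, 0 ≤ FC a b α T := fun α => FC_nonneg a b α (by linarith)
  obtain ⟨G, hGd⟩ : ∃ G, G = G01 a b := ⟨_, rfl⟩
  rw [← hY, ← hGd] at t1 t2 t3
  rw [← hGd] at hG ⊢
  by_contra hcon
  push Not at hcon
  -- the average of the form factor near `θ`
  have hint : ∫ α in (θ - η)..(θ + η), fb η (α - θ) * FC a b α T =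
      Y⁻¹ * CW (fun y => Real.cos (θ * y) * rh (fb η) y) a b T := by
    rw [FC_int (h := fun α => fb η (α - θ)) ((fb_cont η).comp (by fun_prop)), ← hY]
    congr 2
    ext y
    have hs := intervalIntegral.integral_comp_sub_right (a := θ - η) (b := θ + η)
      (fun v : ℝ => fb η v * Real.cos ((v + θ) * y)) θ
    have e1 : θ - η - θ = -η := by ring
    have e2 : θ + η - θ = η := by ring
    rw [e1, e2] at hs
    simp only [sub_add_cancel] at hs
    rw [hs]
    have hc1 : Continuous fun v : ℝ => fb η v * Real.cos ((v + θ) * y) := (fb_cont η).mul (by fun_prop)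
    rw [← intervalIntegral.integral_add_adjacent_intervals (hc1.intervalIntegrable (-η) 0) (hc1.intervalIntegrable 0 η)]
    have hneg : ∫ v in (-η)..0, fb η v * Real.cos ((v + θ) * y) = ∫ v in (0:ℝ)..η, fb η v * Real.cos ((-v + θ) * y) := by
      have := intervalIntegral.integral_comp_neg (a := 0) (b := η) (fun v : ℝ => fb η v * Real.cos ((v + θ) * y))
      rw [neg_zero] at this
      rw [← this]
      refine intervalIntegral.integral_congr fun v _ => ?_
      show fb η (-v) * Real.cos ((-v + θ) * y) = fb η v * Real.cos ((-v + θ) * y)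
      rw [fb_even]
    have hc2 : Continuous fun v : ℝ => fb η v * Real.cos ((-v + θ) * y) := (fb_cont η).mul (by fun_prop)
    rw [hneg, ← intervalIntegral.integral_add (hc2.intervalIntegrable _ _) (hc1.intervalIntegrable _ _)]
    have hrh : rh (fb η) y = 2 * ∫ v in (0:ℝ)..η, fb η v * Real.cos (y * v) := by
      unfold rh
      congr 1
      have hc3 : Continuous fun v : ℝ => fb η v * Real.cos (y * v) := (fb_cont η).mul (by fun_prop)
      rw [← intervalIntegral.integral_add_adjacent_intervals (hc3.intervalIntegrable 0 η) (hc3.intervalIntegrable η 1)]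
      have z0 : ∫ x in η..1, fb η x * Real.cos (y * x) = 0 := by
        rw [intervalIntegral.integral_congr (g := fun _ => (0 : ℝ))]
        · simp
        · intro x hx
          rw [Set.uIcc_of_le (by linarith)] at hx
          show fb η x * Real.cos (y * x) = 0
          rw [fb_supp hη0 x (hx.1.trans (le_abs_self x)), zero_mul]
      rw [z0, add_zero]
    rw [hrh]
    have e3 : ∀ v : ℝ, fb η v * Real.cos ((-v + θ) * y) + fb η v * Real.cos ((v + θ) * y) =
        2 * Real.cos (θ * y) * (fb η v * Real.cos (y * v)) := by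
      intro v
      have e4 : (-v + θ) * y = θ * y - y * v := by ring
      have e5 : (v + θ) * y = θ * y + y * v := by ring
      rw [e4, e5, Real.cos_sub, Real.cos_add]
      ring
    simp_rw [e3]
    rw [intervalIntegral.integral_const_mul]
    ring
  have hfb0 : fb η 0 = 3 / η := by
    unfold fb
    rw [abs_zero, zero_div, sub_zero, mul_zero, Real.cos_zero, max_eq_right zero_le_one]
    ring
  have hlow : (3 / η - K' * e) * ((1 - e) * G) ≤ ∫ α in (θ - η)..(θ + η), fb η (α - θ) * FC a b α T := by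
    have hc4 : Continuous fun α : ℝ => fb η (α - θ) * FC a b α T := ((fb_cont η).comp (by fun_prop)).mul (FC_cont a b T)
    have g1 : ∫ α in (θ - e)..(θ + e), fb η (α - θ) * FC a b α T ≤ ∫ α in (θ - η)..(θ + η), fb η (α - θ) * FC a b α T := by
      refine intervalIntegral.integral_mono_interval (by linarith) (by linarith) (by linarith) ?_ (hc4.intervalIntegrable _ _)
      exact Filter.Eventually.of_forall fun x => mul_nonneg (fb_nonneg hη0 _) (hF0 x)
    have g2 : ∫ α in (θ - e)..(θ + e), (3 / η - K' * e) * FC a b α T ≤ ∫ α in (θ - e)..(θ + e), fb η (α - θ) * FC a b α T := by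
      refine intervalIntegral.integral_mono_on (by linarith)
        (((FC_cont a b T).const_mul _).intervalIntegrable _ _) (hc4.intervalIntegrable _ _) fun α hα => ?_
      apply mul_le_mul_of_nonneg_right _ (hF0 α)
      have g3 := hK 0 (α - θ)
      rw [hfb0] at g3
      have g4 : |0 - (α - θ)| ≤ e := by
        rw [abs_le]
        constructor <;> linarith [hα.1, hα.2]
      have g5 : K * |0 - (α - θ)| ≤ K' * e := by
        rw [hK']
        exact mul_le_mul (le_abs_self K) g4 (abs_nonneg _) (abs_nonneg K)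
      have g6 := (le_abs_self _).trans g3
      linarith
    rw [intervalIntegral.integral_const_mul] at g2
    have g7 : 0 ≤ 3 / η - K' * e := by nlinarith
    have g8 := mul_le_mul_of_nonneg_left hcon.le g7
    linarith
  have hcw1 : CW (rh (fb η)) a b T ≤ ((3 / η + 3 * η) * G + c * G / 8) * Y := by
    refine (CW_le_CS (fun y => hTF.pos y) a b T).trans ?_
    have g1 := (abs_le.1 t2).2
    have g2 := mul_le_mul_of_nonneg_right (fb_mo2 hη0 (by linarith)) (by positivity : 0 ≤ G * Y)
    linarith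
  have hcw2 : (3 / η - K' * e) * ((1 - e) * G) * Y ≤ CW (fun y => Real.cos (θ * y) * rh (fb η) y) a b T := by
    rw [hint] at hlow
    have g1 := mul_le_mul_of_nonneg_right hlow hY0.le
    refine g1.trans (le_of_eq ?_)
    field_simp
  have hcw3 : CW (sk θ) a b T ≤ CW (rh (fb η)) a b T - CW (fun y => Real.cos (θ * y) * rh (fb η) y) a b T := by
    have g1 : CW (sk θ) a b T ≤ CW (fun y => rh (fb η) y + (-1) * (Real.cos (θ * y) * rh (fb η) y)) a b T := by
      refine CW_mono (fun y => ?_) a b T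
      have g2 := fb_low2 hη0 (by linarith) y
      have g3 : Real.cos (θ * y) = 1 - 2 * Real.sin (θ / 2 * y) ^ 2 := by
        have e1 : θ * y = 2 * (θ / 2 * y) := by ring
        rw [e1, Real.cos_two_mul]
        have := Real.sin_sq_add_cos_sq (θ / 2 * y)
        linarith
      rw [g3]
      unfold sk
      have g4 := mul_le_mul_of_nonneg_left g2 (by positivity : 0 ≤ 2 * Real.sin (θ / 2 * y) ^ 2)
      have g5 : 2 * Real.sin (θ / 2 * y) ^ 2 * (1 / 2 / (1 + y ^ 2)) = Real.sin (θ / 2 * y) ^ 2 / (1 + y ^ 2) := by ring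
      linarith
    rw [CW_add (rh (fb η)) (fun y => (-1) * (Real.cos (θ * y) * rh (fb η) y)), CW_smul] at g1
    linarith
  have hGY : 0 < G * Y := by positivity
  have h11 : (3 / η + 3 * η) * G + c * G / 8 - (3 / η - K' * e) * ((1 - e) * G) ≤ 3 * c / 8 * G := by
    have g1 : (3 / η + 3 * η) * G + c * G / 8 - (3 / η - K' * e) * ((1 - e) * G) =
        (3 * η + c / 8 + K' * e * (1 - e) + 3 / η * e) * G := by ring
    rw [g1]
    apply mul_le_mul_of_nonneg_right _ hG.le
    have g2 : K' * e * (1 - e) ≤ K' * e := mul_le_of_le_one_right (by positivity) (by linarith)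
    linarith
  have h12 := mul_le_mul_of_nonneg_right h11 hY0.le
  have h13 : 0 < c * (G * Y) := by positivity
  linarith

/-- from the tents to an interval, upper bounds -/
lemma int_up' {b : ℝ} (hb : 0 < b) {g : ℝ → ℝ} (hg : Continuous g) (hg0 : ∀ x, 0 ≤ g x) (c : ℝ) (n : ℕ) {A : ℕ → ℝ}
    (hA : ∀ j ∈ Finset.range (n + 1), ∫ x in (c + j * b - b)..(c + j * b + b), tri b (x - (c + j * b)) * g x ≤ A j)
    {l : ℝ} (hl0 : 0 ≤ l) (hl : l ≤ n * b) : ∫ x in c..(c + l), g x ≤ ∑ j ∈ Finset.range (n + 1), b * A j := by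
  have hc : ∀ u : ℝ, Continuous fun x : ℝ => b * (tri b (x - u) * g x) := fun u =>
    (((tri_cont b).comp (by fun_prop)).mul hg).const_mul b
  have h1 : ∫ x in c..(c + l), g x ≤ ∫ x in c..(c + l), ∑ j ∈ Finset.range (n + 1), b * (tri b (x - (c + j * b)) * g x) := by
    refine intervalIntegral.integral_mono_on (by linarith) (hg.intervalIntegrable _ _)
      ((continuous_finsetSum _ fun j _ => hc _).intervalIntegrable _ _) fun x hx => ?_
    have e : ∑ j ∈ Finset.range (n + 1), b * (tri b (x - (c + j * b)) * g x) =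
        (∑ j ∈ Finset.range (n + 1), b * tri b (x - (c + j * b))) * g x := by
      rw [Finset.sum_mul]
      exact Finset.sum_congr rfl fun j _ => by ring
    rw [e, trapb hb]
    have h2 : 0 ≤ (x - c) / b := div_nonneg (by linarith [hx.1]) hb.le
    have h3 : (x - c) / b ≤ n := by
      rw [div_le_iff₀ hb]
      linarith [hx.2]
    rw [min_eq_left (le_min (by linarith) (by linarith)), max_eq_right zero_le_one, one_mul]
  refine h1.trans ?_
  rw [intervalIntegral.integral_finsetSum fun j _ => (hc _).intervalIntegrable _ _]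
  refine Finset.sum_le_sum fun j hj => ?_
  rw [intervalIntegral.integral_const_mul]
  exact mul_le_mul_of_nonneg_left ((tri_sub hb (by linarith) hg hg0).trans (hA j hj)) hb.le

/-- from the tents to an interval, lower bounds -/
lemma int_low' {b : ℝ} (hb : 0 < b) {g : ℝ → ℝ} (hg : Continuous g) (hg0 : ∀ x, 0 ≤ g x) (c : ℝ) (n : ℕ) {A : ℕ → ℝ}
    (hA : ∀ j ∈ Finset.range (n + 1),
      A j ≤ ∫ x in (c + b + j * b - b)..(c + b + j * b + b), tri b (x - (c + b + j * b)) * g x)
    {l : ℝ} (hl : (n + 2) * b ≤ l) : ∑ j ∈ Finset.range (n + 1), b * A j ≤ ∫ x in c..(c + l), g x := by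
  have hn : (0:ℝ) ≤ n := Nat.cast_nonneg n
  have hl0 : 0 ≤ l := le_trans (by positivity) hl
  have hc : ∀ u : ℝ, Continuous fun x : ℝ => b * (tri b (x - u) * g x) := fun u =>
    (((tri_cont b).comp (by fun_prop)).mul hg).const_mul b
  have h1 : ∫ x in c..(c + l), ∑ j ∈ Finset.range (n + 1), b * (tri b (x - (c + b + j * b)) * g x) ≤
      ∫ x in c..(c + l), g x := by
    refine intervalIntegral.integral_mono_on (by linarith)
      ((continuous_finsetSum _ fun j _ => hc _).intervalIntegrable _ _) (hg.intervalIntegrable _ _) fun x hx => ?_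
    have e : ∑ j ∈ Finset.range (n + 1), b * (tri b (x - (c + b + j * b)) * g x) =
        (∑ j ∈ Finset.range (n + 1), b * tri b (x - (c + b + j * b))) * g x := by
      rw [Finset.sum_mul]
      exact Finset.sum_congr rfl fun j _ => by ring
    rw [e, trapb hb]
    exact mul_le_of_le_one_left (hg0 x) (max_le zero_le_one (min_le_left _ _))
  refine le_trans ?_ h1
  rw [intervalIntegral.integral_finsetSum fun j _ => (hc _).intervalIntegrable _ _]
  refine Finset.sum_le_sum fun j hj => ?_
  rw [intervalIntegral.integral_const_mul]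
  apply mul_le_mul_of_nonneg_left _ hb.le
  have hj1 : (j : ℝ) ≤ n := by
    rw [Finset.mem_range] at hj
    exact_mod_cast (by omega : j ≤ n)
  have hj0 : (0:ℝ) ≤ j * b := by positivity
  have hj2 : (j : ℝ) * b ≤ n * b := mul_le_mul_of_nonneg_right hj1 hb.le
  rw [tri_ext hb (by linarith) (by linarith) hg]
  exact hA j hj

open Classical in
/-- the tent averages inside -/
lemma tent_in (RH : RiemannHypothesis) {b u : ℝ} (hb : 0 < b) (hbu : b ≤ u) (hu : u + b < 1) {a c ε : ℝ}
    (hac : a < c) (hε : 0 < ε) : ∀ᶠ T : ℝ in atTop,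
    |(∫ α in (u - b)..(u + b), tri b (α - u) * FC a c α T) - u * G01 a c| ≤ ε := by
  obtain ⟨A, hA0, hA⟩ := kb_dec hb (by linarith)
  filter_upwards [cosLaw RH hb hbu hu hac (show 0 < ε / 2 by positivity),
    CW_rem RH (kb_nonneg hb) hA0 hA hac (show 0 < ε / 2 by positivity), eventually_ge_atTop 10] with T t1 t2 hT10
  have hpi := Real.pi_pos
  have hL : 0 < Real.log T := Real.log_pos (by linarith)
  obtain ⟨Y, hY⟩ : ∃ Y, Y = T * (Real.log T / (2 * Real.pi)) := ⟨_, rfl⟩
  have hY0 : 0 < Y := by rw [hY]; positivity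
  rw [FC_tri hb, ← hY]
  rw [← hY] at t1 t2
  have h1 : |CW (fun y => Real.cos (u * y) * kb b y) a c T - CS (fun y => Real.cos (u * y) * kb b y) a c T| ≤
      CS (kb b) a c T - CW (kb b) a c T := by
    have e1 : CW (fun y => Real.cos (u * y) * kb b y) a c T - CS (fun y => Real.cos (u * y) * kb b y) a c T =
        ∑ s ∈ (Zf riemannZeta T (2 * T)).filter (fun s => NearO a c s.im),
        ∑ s' ∈ (Zf riemannZeta T (2 * T)).filter (fun s => NearO a c s.im),
          -(((mult riemannZeta s : ℝ) * (mult riemannZeta s' : ℝ) * (kb b (Real.log T * (s.im - s'.im)) *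
            (1 - ww (s.im - s'.im)))) * Real.cos (u * (Real.log T * (s.im - s'.im)))) := by
      unfold CW CS pf
      rw [← Finset.sum_sub_distrib]
      refine Finset.sum_congr rfl fun s _ => ?_
      rw [← Finset.sum_sub_distrib]
      refine Finset.sum_congr rfl fun s' _ => ?_
      ring
    have e2 : CS (kb b) a c T - CW (kb b) a c T =
        ∑ s ∈ (Zf riemannZeta T (2 * T)).filter (fun s => NearO a c s.im),
        ∑ s' ∈ (Zf riemannZeta T (2 * T)).filter (fun s => NearO a c s.im),
          ((mult riemannZeta s : ℝ) * (mult riemannZeta s' : ℝ) * (kb b (Real.log T * (s.im - s'.im)) *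
            (1 - ww (s.im - s'.im)))) := by
      unfold CW CS pf
      rw [← Finset.sum_sub_distrib]
      refine Finset.sum_congr rfl fun s _ => ?_
      rw [← Finset.sum_sub_distrib]
      refine Finset.sum_congr rfl fun s' _ => ?_
      ring
    rw [e1, e2]
    refine (Finset.abs_sum_le_sum_abs _ _).trans (Finset.sum_le_sum fun s _ => ?_)
    refine (Finset.abs_sum_le_sum_abs _ _).trans (Finset.sum_le_sum fun s' _ => ?_)
    have g1 := kb_nonneg hb (Real.log T * (s.im - s'.im))
    have g2 := ww_le (s.im - s'.im)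
    have g3 : 0 ≤ (mult riemannZeta s : ℝ) * (mult riemannZeta s' : ℝ) * (kb b (Real.log T * (s.im - s'.im)) *
        (1 - ww (s.im - s'.im))) := mul_nonneg (by positivity) (mul_nonneg g1 (by linarith))
    rw [abs_neg, abs_mul, abs_of_nonneg g3]
    exact mul_le_of_le_one_right g3 (Real.abs_cos_le_one _)
  have h2 : |CW (fun y => Real.cos (u * y) * kb b y) a c T - u * G01 a c * Y| ≤ ε * Y := by
    have := abs_sub_le (CW (fun y => Real.cos (u * y) * kb b y) a c T) (CS (fun y => Real.cos (u * y) * kb b y) a c T)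
      (u * G01 a c * Y)
    linarith
  have e3 : Y⁻¹ * CW (fun y => Real.cos (u * y) * kb b y) a c T - u * G01 a c =
      Y⁻¹ * (CW (fun y => Real.cos (u * y) * kb b y) a c T - u * G01 a c * Y) := by
    field_simp
  rw [e3, abs_mul, abs_of_pos (inv_pos.2 hY0), inv_mul_le_iff₀ hY0]
  linarith

lemma sum_arith (n : ℕ) (x y : ℝ) : ∑ j ∈ Finset.range (n + 1), (x + j * y) = (n + 1) * (x + n * y / 2) := by
  induction n with
  | zero => simp
  | succ n ih =>
    rw [Finset.sum_range_succ, ih]
    push_cast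
    ring

/-- **Montgomery's theorem in a class** -/
theorem FC_in (RH : RiemannHypothesis) {p q : ℝ} (hp : 0 < p) (hpq : p < q) (hq : q < 1) {a b ε : ℝ}
    (hab : a < b) (hε : 0 < ε) : ∀ᶠ T : ℝ in atTop,
    |(∫ α in p..q, FC a b α T) - G01 a b * ((q ^ 2 - p ^ 2) / 2)| ≤ ε := by
  have hG0 := G01_nonneg a b
  have hG1 := G01_le a b
  obtain ⟨m, hm⟩ := exists_nat_gt (max (max (4 / ε) (1 / p)) (1 / (1 - q)))
  have hm1 : 4 / ε < m := lt_of_le_of_lt ((le_max_left _ _).trans (le_max_left _ _)) hm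
  have hm2 : 1 / p < m := lt_of_le_of_lt ((le_max_right _ _).trans (le_max_left _ _)) hm
  have hm3 : 1 / (1 - q) < m := lt_of_le_of_lt (le_max_right _ _) hm
  have hm0 : (0:ℝ) < m := lt_trans (by positivity) hm2
  obtain ⟨n, hn⟩ : ∃ n : ℝ, n = (m : ℝ) + 2 := ⟨_, rfl⟩
  have hn0 : 0 < n := by rw [hn]; positivity
  obtain ⟨h, hh⟩ : ∃ h, h = (q - p) / n := ⟨_, rfl⟩
  have hqp : q - p ≤ 1 := by linarith
  have hqp0 : 0 < q - p := by linarith
  have hh0 : 0 < h := by rw [hh]; positivity
  have hnh : n * h = q - p := by rw [hh]; field_simp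
  have hhm : h ≤ 1 / m := by
    rw [hh, div_le_div_iff₀ hn0 hm0]
    nlinarith
  have hhp : h ≤ p := by
    refine hhm.trans ?_
    rw [div_le_iff₀ hm0]
    rw [div_lt_iff₀ hp] at hm2
    linarith
  have hhq : h < 1 - q := by
    refine lt_of_le_of_lt hhm ?_
    rw [div_lt_iff₀ hm0]
    rw [div_lt_iff₀ (by linarith)] at hm3
    linarith
  have hhε : h ≤ ε / 4 := by
    refine hhm.trans ?_
    rw [div_le_iff₀ hm0]
    rw [div_lt_iff₀ hε] at hm1
    linarith
  -- all the centres
  have hall : ∀ᶠ T : ℝ in atTop, ∀ j ∈ Finset.range (m + 3),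
      |(∫ α in (p + j * h - h)..(p + j * h + h), tri h (α - (p + j * h)) * FC a b α T) - (p + j * h) * G01 a b| ≤
        ε / 4 := by
    rw [Filter.eventually_all_finset]
    intro j hj
    have hj1 : (j : ℝ) ≤ n := by
      rw [Finset.mem_range] at hj
      rw [hn]
      exact_mod_cast (by omega : j ≤ m + 2)
    have hj0 : (0:ℝ) ≤ j * h := by positivity
    have hj2 : (j : ℝ) * h ≤ q - p := by
      rw [← hnh]
      exact mul_le_mul_of_nonneg_right hj1 hh0.le
    exact tent_in RH hh0 (by linarith) (by linarith) hab (by positivity)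
  filter_upwards [hall, eventually_ge_atTop 10] with T hT hT10
  have hF0 : ∀ α, 0 ≤ FC a b α T := fun α => FC_nonneg a b α (by linarith)
  have eq1 : p + (q - p) = q := by ring
  -- upper bound
  have hup := int_up' hh0 (FC_cont a b T) hF0 p (m + 2) (A := fun j => (p + j * h) * G01 a b + ε / 4)
    (fun j hj => by
      have := (abs_le.1 (hT j hj)).2
      show _ ≤ (p + j * h) * G01 a b + ε / 4
      linarith) (l := q - p) hqp0.le (by
      push_cast
      rw [← hn, hnh])
  have hlow := int_low' hh0 (FC_cont a b T) hF0 p m (A := fun j => (p + h + j * h) * G01 a b - ε / 4)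
    (fun j hj => by
      have hj' : j + 1 ∈ Finset.range (m + 3) := by
        rw [Finset.mem_range] at hj ⊢
        omega
      have h1 := (abs_le.1 (hT (j + 1) hj')).1
      have e1 : p + ((j + 1 : ℕ) : ℝ) * h = p + h + j * h := by push_cast; ring
      rw [e1] at h1
      show (p + h + j * h) * G01 a b - ε / 4 ≤ _
      linarith) (l := q - p) (by rw [← hn, hnh])
  rw [eq1] at hup hlow
  have s1 : ∑ j ∈ Finset.range (m + 2 + 1), h * ((p + j * h) * G01 a b + ε / 4) =
      h * (((n + 1) * (p + n * h / 2)) * G01 a b + (n + 1) * (ε / 4)) := by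
    rw [← Finset.mul_sum, Finset.sum_add_distrib, ← Finset.sum_mul, sum_arith, Finset.sum_const, Finset.card_range,
      nsmul_eq_mul]
    push_cast
    rw [← hn]
  have s2 : ∑ j ∈ Finset.range (m + 1), h * ((p + h + j * h) * G01 a b - ε / 4) =
      h * (((n - 1) * (p + n * h / 2)) * G01 a b - (n - 1) * (ε / 4)) := by
    rw [← Finset.mul_sum, Finset.sum_sub_distrib, ← Finset.sum_mul, sum_arith, Finset.sum_const, Finset.card_range,
      nsmul_eq_mul]
    have e1 : (m : ℝ) = n - 2 := by rw [hn]; ring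
    push_cast
    rw [e1]
    ring
  rw [s1] at hup
  rw [s2] at hlow
  have e2 : p + n * h / 2 = (p + q) / 2 := by rw [hnh]; ring
  rw [e2] at hup hlow
  have e3 : h * ((n + 1) * ((p + q) / 2) * G01 a b + (n + 1) * (ε / 4)) =
      (q - p) * ((p + q) / 2) * G01 a b + (q - p) * (ε / 4) + h * ((p + q) / 2 * G01 a b + ε / 4) := by
    rw [← hnh]; ring
  have e4 : h * ((n - 1) * ((p + q) / 2) * G01 a b - (n - 1) * (ε / 4)) =
      (q - p) * ((p + q) / 2) * G01 a b - (q - p) * (ε / 4) - h * ((p + q) / 2 * G01 a b - ε / 4) := by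
    rw [← hnh]; ring
  rw [e3] at hup
  rw [e4] at hlow
  have e5 : (q - p) * ((p + q) / 2) * G01 a b = G01 a b * ((q ^ 2 - p ^ 2) / 2) := by ring
  rw [e5] at hup hlow
  have h5 : (p + q) / 2 * G01 a b ≤ 1 := by nlinarith
  have hq0 : 0 < q := hp.trans hpq
  have h6 : 0 ≤ (p + q) / 2 * G01 a b := by positivity
  have h7 : (q - p) * (ε / 4) ≤ ε / 4 := by nlinarith
  have h8 : h * ((p + q) / 2 * G01 a b) ≤ ε / 4 := by nlinarith
  have h9 : h * (ε / 4) ≤ ε / 4 := by nlinarith
  have h10 : 0 ≤ h * (ε / 4) := by positivity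
  rw [abs_le]
  constructor
  · linarith
  · linarith

end

end Run7.h911.PQ
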