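import Pool.Agent.Run7.h911.PH5
import Pool.Agent.Run7.h911.PG6

set_option autoImplicit false

/-! # From pairs to consecutive gaps (helper911) -/

namespace Run7.h911.PQ

open Filter Topology MeasureTheory
open H370 (Zf mult good_zeta)
open H370.A3 (kk kk_cast)
open Run7.h911.SZ (G01 G01_nonneg G01_le Bk)
open Pool.Agent.R482.GB (sum_idx cube_dyadic NN_Zf)
open Pool.Agent.R304.UP (nn nn_nonneg)
open SG (ord NZ)

noncomputable section

lemma abs_sin_add (x y : ℝ) : |Real.sin (x + y)| ≤ |Real.sin x| + |Real.sin y| := by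
  rw [Real.sin_add]
  refine (abs_add_le _ _).trans ?_
  rw [abs_mul, abs_mul]
  have h1 := mul_le_of_le_one_right (abs_nonneg (Real.sin x)) (Real.abs_cos_le_one y)
  have h2 := mul_le_of_le_one_left (abs_nonneg (Real.sin y)) (Real.abs_cos_le_one x)
  linarith

lemma sin_tel (c : ℝ) (g : ℕ → ℝ) {n m : ℕ} (h : n ≤ m) :
    |Real.sin (c * (g m - g n))| ≤ ∑ i ∈ Finset.Ico n m, |Real.sin (c * (g (i + 1) - g i))| := by
  induction m, h using Nat.le_induction with
  | base => simp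
  | succ m hm ih =>
    rw [Finset.sum_Ico_succ_top hm]
    have e : c * (g (m + 1) - g n) = c * (g m - g n) + c * (g (m + 1) - g m) := by ring
    rw [e]
    exact (abs_sin_add _ _).trans (by linarith)

/-- few indices of a sparse set near a given one -/
lemma near_card {p q K0 : ℕ} {g : ℕ → ℝ} (hg : ∀ i j, p < i → i ≤ j → j ≤ q → g i ≤ g j) {ρ : ℝ}
    {A : Finset ℕ} (hA : A ⊆ Finset.Ioc p q)
    (hK : ∀ n ∈ A, ((Finset.Ioc p q).filter (fun m => |g m - g n| ≤ ρ)).card ≤ K0) {i : ℕ} (hi : i ∈ Finset.Ioc p q) :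
    (A.filter (fun n => |g i - g n| ≤ ρ)).card ≤ 2 * K0 := by
  classical
  rw [Finset.mem_Ioc] at hi
  have h1 : ((A.filter (fun n => |g i - g n| ≤ ρ)).filter (fun n => n ≤ i)).card ≤ K0 := by
    rcases ((A.filter (fun n => |g i - g n| ≤ ρ)).filter (fun n => n ≤ i)).eq_empty_or_nonempty with h0 | h0
    · rw [h0, Finset.card_empty]; exact Nat.zero_le _
    obtain ⟨m, hm, hmin⟩ := Finset.exists_min_image _ (fun n => n) h0
    rw [Finset.mem_filter, Finset.mem_filter] at hm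
    refine (Finset.card_le_card fun n hn => ?_).trans (hK m hm.1.1)
    have h2 := hmin n hn
    rw [Finset.mem_filter, Finset.mem_filter] at hn
    have hnA := Finset.mem_Ioc.1 (hA hn.1.1)
    have hmA := Finset.mem_Ioc.1 (hA hm.1.1)
    rw [Finset.mem_filter]
    refine ⟨hA hn.1.1, ?_⟩
    have g1 := hg m n hmA.1 h2 hnA.2
    have g2 := hg n i hnA.1 hn.2 hi.2
    rw [abs_of_nonneg (by linarith)]
    have g3 := (abs_le.1 hm.1.2).2
    linarith
  have h2 : ((A.filter (fun n => |g i - g n| ≤ ρ)).filter (fun n => ¬ n ≤ i)).card ≤ K0 := by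
    rcases ((A.filter (fun n => |g i - g n| ≤ ρ)).filter (fun n => ¬ n ≤ i)).eq_empty_or_nonempty with h0 | h0
    · rw [h0, Finset.card_empty]; exact Nat.zero_le _
    obtain ⟨m, hm, hmax⟩ := Finset.exists_max_image _ (fun n => n) h0
    rw [Finset.mem_filter, Finset.mem_filter] at hm
    refine (Finset.card_le_card fun n hn => ?_).trans (hK m hm.1.1)
    have h2 := hmax n hn
    rw [Finset.mem_filter, Finset.mem_filter] at hn
    have hnA := Finset.mem_Ioc.1 (hA hn.1.1)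
    have hmA := Finset.mem_Ioc.1 (hA hm.1.1)
    rw [Finset.mem_filter]
    refine ⟨hA hn.1.1, ?_⟩
    have g1 := hg n m hnA.1 h2 hmA.2
    have g2 := hg i n hi.1 (by omega) hnA.2
    rw [abs_of_nonpos (by linarith)]
    have g3 := (abs_le.1 hm.1.2).1
    linarith
  have h3 := Finset.card_filter_add_card_filter_not (s := A.filter (fun n => |g i - g n| ≤ ρ)) (fun n => n ≤ i)
  omega

/-- **pairs and consecutive differences** -/
theorem cnt_pairs {p q K0 : ℕ} {g : ℕ → ℝ} (hg : ∀ i j, p < i → i ≤ j → j ≤ q → g i ≤ g j) {ρ c e : ℝ}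
    (he : 0 ≤ e) {A E : Finset ℕ} (hA : A ⊆ Finset.Ioc p q) (hEI : E ⊆ Finset.Ioc p q)
    (hK : ∀ n ∈ A, ((Finset.Ioc p q).filter (fun m => |g m - g n| ≤ ρ)).card ≤ K0)
    (hE : ∀ n ∈ A, ∀ m ∈ Finset.Ioc p q, |g m - g n| ≤ ρ → ∀ i, (n ≤ i ∧ i < m ∨ m ≤ i ∧ i < n) →
      i ∈ E ∨ |Real.sin (c * (g (i + 1) - g i))| ≤ e) :
    ∑ n ∈ A, ∑ m ∈ (Finset.Ioc p q).filter (fun m => |g m - g n| ≤ ρ), Real.sin (c * (g m - g n)) ^ 2 ≤
      (K0 * e) ^ 2 * (K0 * A.card) + 2 * K0 ^ 2 * E.card := by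
  classical
  have hpt : ∀ n ∈ A, ∀ m ∈ (Finset.Ioc p q).filter (fun m => |g m - g n| ≤ ρ), Real.sin (c * (g m - g n)) ^ 2 ≤
      (K0 * e) ^ 2 + ∑ i ∈ E, (if |g i - g n| ≤ ρ then (1:ℝ) else 0) := by
    intro n hn m hm
    rw [Finset.mem_filter] at hm
    obtain ⟨hm1, hm2⟩ := hm
    have hnI := hA hn
    rw [Finset.mem_Ioc] at hnI
    have hm1' := Finset.mem_Ioc.1 hm1
    have hS0 : 0 ≤ ∑ i ∈ E, (if |g i - g n| ≤ ρ then (1:ℝ) else 0) :=
      Finset.sum_nonneg fun i _ => by split_ifs <;> norm_num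
    by_cases hex : ∃ i ∈ E, (n ≤ i ∧ i < m ∨ m ≤ i ∧ i < n)
    · obtain ⟨i, hiE, hi⟩ := hex
      have hiI := Finset.mem_Ioc.1 (hEI hiE)
      have hnear : |g i - g n| ≤ ρ := by
        rcases hi with ⟨h1, h2⟩ | ⟨h1, h2⟩
        · have g1 := hg n i hnI.1 h1 hiI.2
          have g2 := hg i m hiI.1 h2.le hm1'.2
          rw [abs_of_nonneg (by linarith)]
          linarith [(abs_le.1 hm2).2]
        · have g1 := hg m i hm1'.1 h1 hiI.2
          have g2 := hg i n hiI.1 h2.le hnI.2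
          rw [abs_of_nonpos (by linarith)]
          linarith [(abs_le.1 hm2).1]
      have h3 : (1:ℝ) ≤ ∑ i ∈ E, (if |g i - g n| ≤ ρ then (1:ℝ) else 0) := by
        refine le_trans ?_ (Finset.single_le_sum (f := fun i => if |g i - g n| ≤ ρ then (1:ℝ) else 0)
          (fun i _ => by split_ifs <;> norm_num) hiE)
        simp only [if_pos hnear, le_refl]
      have h4 := Real.sin_sq_le_one (c * (g m - g n))
      have h5 : 0 ≤ ((K0 : ℝ) * e) ^ 2 := sq_nonneg _
      linarith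
    · push Not at hex
      have hall : ∀ i, (n ≤ i ∧ i < m ∨ m ≤ i ∧ i < n) → |Real.sin (c * (g (i + 1) - g i))| ≤ e := by
        intro i hi
        rcases hE n hn m hm1 hm2 i hi with h | h
        · rcases hi with ⟨h1, h2⟩ | ⟨h1, h2⟩
          · exact absurd h2 (not_lt.2 ((hex i h).1 h1))
          · exact absurd h2 (not_lt.2 ((hex i h).2 h1))
        · exact h
      have hcard : ∀ x y : ℕ, (x = n ∧ y = m ∨ x = m ∧ y = n) → x ≤ y → (Finset.Ico x y).card ≤ K0 := by
        intro x y hxy hle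
        refine (Finset.card_le_card fun i hi => ?_).trans (hK n hn)
        rw [Finset.mem_Ico] at hi
        have ab := abs_le.1 hm2
        rcases hxy with ⟨rfl, rfl⟩ | ⟨rfl, rfl⟩
        · have g1 := hg x i hnI.1 hi.1 (by omega)
          have g2 := hg i y (by omega) hi.2.le hm1'.2
          rw [Finset.mem_filter, Finset.mem_Ioc]
          refine ⟨⟨by omega, by omega⟩, ?_⟩
          rw [abs_of_nonneg (by linarith)]
          linarith
        · have g1 := hg x i hm1'.1 hi.1 (by omega)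
          have g2 := hg i y (by omega) hi.2.le hnI.2
          rw [Finset.mem_filter, Finset.mem_Ioc]
          refine ⟨⟨by omega, by omega⟩, ?_⟩
          rw [abs_of_nonpos (by linarith)]
          linarith
      have hmain : |Real.sin (c * (g m - g n))| ≤ K0 * e := by
        rcases le_total n m with h | h
        · refine (sin_tel c g h).trans ((Finset.sum_le_card_nsmul _ _ e fun i hi => ?_).trans ?_)
          · rw [Finset.mem_Ico] at hi
            exact hall i (Or.inl hi)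
          · rw [nsmul_eq_mul]
            exact mul_le_mul_of_nonneg_right (by exact_mod_cast hcard n m (Or.inl ⟨rfl, rfl⟩) h) he
        · have e1 : c * (g m - g n) = -(c * (g n - g m)) := by ring
          rw [e1, Real.sin_neg, abs_neg]
          refine (sin_tel c g h).trans ((Finset.sum_le_card_nsmul _ _ e fun i hi => ?_).trans ?_)
          · rw [Finset.mem_Ico] at hi
            exact hall i (Or.inr hi)
          · rw [nsmul_eq_mul]
            exact mul_le_mul_of_nonneg_right (by exact_mod_cast hcard m n (Or.inr ⟨rfl, rfl⟩) h) he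
      have h6 : Real.sin (c * (g m - g n)) ^ 2 ≤ ((K0 : ℝ) * e) ^ 2 := by
        rw [← sq_abs]
        exact pow_le_pow_left₀ (abs_nonneg _) hmain 2
      linarith
  have h1 : ∑ n ∈ A, ∑ m ∈ (Finset.Ioc p q).filter (fun m => |g m - g n| ≤ ρ), Real.sin (c * (g m - g n)) ^ 2 ≤
      ∑ n ∈ A, (K0 : ℝ) * ((K0 * e) ^ 2 + ∑ i ∈ E, (if |g i - g n| ≤ ρ then (1:ℝ) else 0)) := by
    refine Finset.sum_le_sum fun n hn => ?_
    refine (Finset.sum_le_card_nsmul _ _ _ (hpt n hn)).trans ?_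
    rw [nsmul_eq_mul]
    refine mul_le_mul_of_nonneg_right (by exact_mod_cast hK n hn) ?_
    have hS0 : 0 ≤ ∑ i ∈ E, (if |g i - g n| ≤ ρ then (1:ℝ) else 0) :=
      Finset.sum_nonneg fun i _ => by split_ifs <;> norm_num
    positivity
  refine h1.trans ?_
  have h2 : ∑ n ∈ A, (K0 : ℝ) * ((K0 * e) ^ 2 + ∑ i ∈ E, (if |g i - g n| ≤ ρ then (1:ℝ) else 0)) =
      (K0 * e) ^ 2 * (K0 * A.card) + K0 * ∑ i ∈ E, ((A.filter (fun n => |g i - g n| ≤ ρ)).card : ℝ) := by
    rw [← Finset.mul_sum, Finset.sum_add_distrib, Finset.sum_const, nsmul_eq_mul, Finset.sum_comm]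
    have e1 : ∀ i, ∑ n ∈ A, (if |g i - g n| ≤ ρ then (1:ℝ) else 0) = ((A.filter (fun n => |g i - g n| ≤ ρ)).card : ℝ) := by
      intro i
      rw [Finset.card_filter]
      push_cast
      rfl
    simp_rw [e1]
    ring
  rw [h2]
  have h3 : ∑ i ∈ E, ((A.filter (fun n => |g i - g n| ≤ ρ)).card : ℝ) ≤ E.card * (2 * K0) := by
    refine (Finset.sum_le_card_nsmul _ _ (2 * K0 : ℝ) fun i hi => ?_).trans (le_of_eq (nsmul_eq_mul _ _))
    exact_mod_cast near_card hg hA hK (hEI hi)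
  have h4 := mul_le_mul_of_nonneg_left h3 (Nat.cast_nonneg (α := ℝ) K0)
  have h5 : (K0 : ℝ) * (E.card * (2 * K0)) = 2 * K0 ^ 2 * E.card := by ring
  linarith

/-- double sums over the zeros as sums over the indices -/
lemma dbl_idx (RH : RiemannHypothesis) {T : ℝ} (hT : 1 ≤ T) (φ : ℝ → ℝ → ℝ) :
    ∑ s ∈ Zf riemannZeta T (2 * T), ∑ s' ∈ Zf riemannZeta T (2 * T),
      (mult riemannZeta s : ℝ) * (mult riemannZeta s' : ℝ) * φ s.im s'.im =
    ∑ n ∈ Finset.Ioc (NZ T) (NZ (2 * T)), ∑ m ∈ Finset.Ioc (NZ T) (NZ (2 * T)), φ (ord n) (ord m) := by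
  rw [← sum_idx RH hT (by linarith) (fun x => ∑ m ∈ Finset.Ioc (NZ T) (NZ (2 * T)), φ x (ord m))]
  refine Finset.sum_congr rfl fun s _ => ?_
  rw [← sum_idx RH hT (by linarith) (fun y => φ s.im y), Finset.mul_sum]
  refine Finset.sum_congr rfl fun s' _ => ?_
  ring

end

end Run7.h911.PQ
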