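import Pool.Agent.Run7.h911.PH6

set_option autoImplicit false

/-! # Spacings in a size class near a lattice (helper911) -/

namespace Run7.h911.PQ

open Filter Topology MeasureTheory
open H370 (Zf mult good_zeta)
open H370.A3 (kk kk_cast)
open Run7.h911.SZ (G01 G01_nonneg G01_le Bk)
open Pool.Agent.R482.GB (sum_idx cube_dyadic NN_Zf)
open Pool.Agent.R304.UP (nn nn_nonneg)
open SG (ord NZ)

noncomputable section

open Classical in
/-- the spacings in a class that are not near the lattice `(1/θ) ℤ` -/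
def BS (θ a b e k T : ℝ) : Finset ℕ := (Finset.Ioc (NZ T) (NZ (2 * T))).filter fun i =>
  i + 1 ∈ Finset.Ioc (NZ T) (NZ (2 * T)) ∧ NearO a b (ord i) ∧ NearO a b (ord (i + 1)) ∧
    ord (i + 1) - ord i ≤ k / Real.log T ∧ e < |Real.sin (θ / 2 * Real.log T * (ord (i + 1) - ord i))|

open Classical in
/-- **few exceptional spacings, then few exceptional pairs** -/
theorem bad_spac (RH : RiemannHypothesis) {θ : ℝ} {a b a' b' : ℝ} (ha : a < a') (hb : b' < b)
    {η : ℝ} (hη : 0 < η) : ∃ e k : ℝ, 0 < e ∧ 0 < k ∧ ∃ c1 : ℝ, 0 < c1 ∧ ∀ᶠ T : ℝ in atTop,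
      ((BS θ a b e k T).card : ℝ) ≤ c1 * (T * Real.log T) →
      CS (sk θ) a' b' T ≤ η * (T * (Real.log T / (2 * Real.pi))) := by
  have hpi := Real.pi_pos
  have hTF := fb_TF (show (0:ℝ) < 1 / 2 by norm_num) (by norm_num)
  obtain ⟨k, hk2, hfar⟩ := far_W RH hTF (show 0 < η / 8 by positivity)
  obtain ⟨β, hβ⟩ : ∃ β, β = k / (2 * Real.pi) := ⟨_, rfl⟩
  have hβ0 : 0 < β := by rw [hβ]; positivity
  obtain ⟨C, T4, hC, hT4, h4⟩ := cube_dyadic RH hβ0
  obtain ⟨K0, hK0⟩ := exists_nat_gt (8 * Real.pi * C / η)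
  have hK00 : (0:ℝ) < K0 := lt_trans (by positivity) hK0
  have hK0' : C * (2 * Real.pi) / K0 ≤ η / 4 := by
    rw [div_lt_iff₀ hη] at hK0
    rw [div_le_div_iff₀ hK00 (by norm_num)]
    linarith
  obtain ⟨e, he⟩ : ∃ e : ℝ, e = min 1 (η / (32 * (K0 : ℝ) ^ 3)) := ⟨_, rfl⟩
  have he0 : 0 < e := by rw [he]; positivity
  have he1 : e ≤ 1 := by rw [he]; exact min_le_left _ _
  have he2 : e * (32 * (K0 : ℝ) ^ 3) ≤ η := by
    have : e ≤ η / (32 * (K0 : ℝ) ^ 3) := by rw [he]; exact min_le_right _ _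
    rwa [le_div_iff₀ (by positivity)] at this
  obtain ⟨c1, hc1⟩ : ∃ c1 : ℝ, c1 = η / (64 * Real.pi * (K0 : ℝ) ^ 2) := ⟨_, rfl⟩
  have hc10 : 0 < c1 := by rw [hc1]; positivity
  refine ⟨e, k, he0, by linarith, c1, hc10, ?_⟩
  obtain ⟨κ0, hκ0, hbad⟩ := bad_few (rhs_of RH) (show 0 < c1 / 8 by positivity)
  obtain ⟨ϑ, hϑ⟩ : ∃ ϑ, ϑ = min (a' - a) (b - b') := ⟨_, rfl⟩
  have hϑ0 : 0 < ϑ := by rw [hϑ]; exact lt_min (by linarith) (by linarith)
  have hϑ1 : a ≤ a' - ϑ := by rw [hϑ]; linarith [min_le_left (a' - a) (b - b')]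
  have hϑ2 : b' + ϑ ≤ b := by rw [hϑ]; linarith [min_le_right (a' - a) (b - b')]
  obtain ⟨η0, hη0, hcls⟩ := cls2 (a := a') (b := b') (c := a') (d := b') hϑ0
  obtain ⟨W, hW0, hX⟩ := Run7.h911.SZ.exX (k + 1) η0 κ0 (by positivity) hη0 hκ0
  obtain ⟨T2, hT2, hN⟩ := Pool.Agent.R482.GB.N_dyadic (1 / (2 * Real.pi)) (by positivity)
  filter_upwards [hfar, hbad, hcls W k hW0 (by linarith), hX, eventually_ge_atTop T4, eventually_ge_atTop T2,
    Run7.h911.SZ.ev_basic 1] with T t1 tbad tcls tX tT4 tT2 tb hfew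
  obtain ⟨hT10, -, hL1, hTL2⟩ := tb
  obtain ⟨X, hXv, hXB⟩ := tX
  have tbad := tbad X hXB.meas hXv
  have t4 := h4 T tT4
  have hT1 : 1 ≤ T := by linarith
  have hT0 : 0 < T := by linarith
  have hL0 : 0 < Real.log T := by linarith
  obtain ⟨ρ, hρ⟩ : ∃ ρ, ρ = k / Real.log T := ⟨_, rfl⟩
  have hρ0 : 0 ≤ ρ := by rw [hρ]; positivity
  have eρ : 2 * Real.pi * β / Real.log T = ρ := by rw [hβ, hρ]; field_simp
  rw [eρ] at t4
  rw [← hρ] at t1 tcls
  obtain ⟨Y, hY⟩ : ∃ Y, Y = T * (Real.log T / (2 * Real.pi)) := ⟨_, rfl⟩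
  rw [← hY] at t1 ⊢
  have hYL : T * Real.log T = 2 * Real.pi * Y := by rw [hY]; field_simp
  have hY0 : 0 < Y := by rw [hY]; positivity
  rw [hYL] at hfew t4 tbad
  obtain ⟨I, hI⟩ : ∃ I, I = Finset.Ioc (NZ T) (NZ (2 * T)) := ⟨_, rfl⟩
  have hIm : ∀ n, n ∈ I ↔ 1 ≤ n ∧ T < ord n ∧ ord n ≤ 2 * T := by
    intro n
    rw [hI, Finset.mem_Ioc]
    constructor
    · rintro ⟨h1, h2⟩
      have hn1 : 1 ≤ n := by omega
      refine ⟨hn1, ?_, (SG.ord_le_iff hn1 _).mpr h2⟩
      by_contra hcon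
      push Not at hcon
      have := (SG.ord_le_iff hn1 T).mp hcon
      omega
    · rintro ⟨h1, h2, h3⟩
      constructor
      · by_contra hcon
        push Not at hcon
        have := (SG.ord_le_iff h1 T).mpr hcon
        linarith
      · exact (SG.ord_le_iff h1 _).mp h3
  have hmono : ∀ i j, NZ T < i → i ≤ j → j ≤ NZ (2 * T) → ord i ≤ ord j := fun i j h1 h2 _ =>
    SG.ord_mono (by omega) h2
  -- the number of the indices
  have hIc : (I.card : ℝ) ≤ 2 * Y := by
    have g1 := (abs_le.1 (hN T tT2)).2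
    rw [NN_Zf good_zeta hT1] at g1
    have g2 := sum_idx RH hT1 (by linarith : T ≤ 2 * T) (fun _ => (1:ℝ))
    simp only [mul_one, Finset.sum_const, nsmul_eq_mul] at g2
    rw [← hI] at g2
    rw [g2] at g1
    have e1 : T * Real.log T / (2 * Real.pi) = Y := by rw [hYL]; field_simp
    have e2 : 1 / (2 * Real.pi) * (T * Real.log T) = Y := by rw [hYL]; field_simp
    rw [e1, e2] at g1
    linarith
  -- the numbers of neighbours
  obtain ⟨Kn, hKn⟩ : ∃ Kn : ℕ → ℕ, Kn = fun n => (I.filter (fun m => |ord m - ord n| ≤ ρ)).card := ⟨_, rfl⟩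
  have hcube : ∑ n ∈ I, (Kn n : ℝ) ^ 2 ≤ C * (2 * Real.pi * Y) := by
    refine le_trans (le_of_eq ?_) t4
    have g1 := sum_idx RH hT1 (by linarith : T ≤ 2 * T) (fun x => (∑ m ∈ I, (if |ord m - x| ≤ ρ then (1:ℝ) else 0)) ^ 2)
    rw [← hI] at g1
    have g2 : ∀ n ∈ I, (Kn n : ℝ) ^ 2 = (∑ m ∈ I, (if |ord m - ord n| ≤ ρ then (1:ℝ) else 0)) ^ 2 := by
      intro n _
      rw [hKn]
      simp only
      rw [Finset.card_filter]
      push_cast
      rfl
    rw [Finset.sum_congr rfl g2, ← g1]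
    refine Finset.sum_congr rfl fun s _ => ?_
    congr 2
    rw [kk_cast, Finset.sum_filter]
    have g3 := sum_idx RH hT1 (by linarith : T ≤ 2 * T) (fun x => (if |s.im - x| ≤ ρ then (1:ℝ) else 0))
    rw [← hI] at g3
    have g4 : ∀ m ∈ I, (if |ord m - s.im| ≤ ρ then (1:ℝ) else 0) = (if |s.im - ord m| ≤ ρ then (1:ℝ) else 0) := by
      intro m _
      rw [abs_sub_comm]
    rw [Finset.sum_congr rfl g4, ← g3]
    refine Finset.sum_congr rfl fun s' _ => ?_
    split_ifs <;> simp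
  have hbig : ∑ n ∈ I.filter (fun n => K0 < Kn n), (Kn n : ℝ) ≤ η / 4 * Y := by
    have g1 : ∑ n ∈ I.filter (fun n => K0 < Kn n), (Kn n : ℝ) ≤ ∑ n ∈ I.filter (fun n => K0 < Kn n), (Kn n : ℝ) ^ 2 / K0 := by
      refine Finset.sum_le_sum fun n hn => ?_
      have g2 : (K0 : ℝ) ≤ Kn n := by exact_mod_cast (Finset.mem_filter.1 hn).2.le
      rw [le_div_iff₀ hK00, sq]
      exact mul_le_mul_of_nonneg_left g2 (Nat.cast_nonneg _)
    rw [← Finset.sum_div] at g1
    refine g1.trans ?_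
    have g3 : ∑ n ∈ I.filter (fun n => K0 < Kn n), (Kn n : ℝ) ^ 2 ≤ C * (2 * Real.pi * Y) :=
      (Finset.sum_le_sum_of_subset_of_nonneg (Finset.filter_subset _ _) fun n _ _ => sq_nonneg _).trans hcube
    calc (∑ n ∈ I.filter (fun n => K0 < Kn n), (Kn n : ℝ) ^ 2) / K0 ≤ C * (2 * Real.pi * Y) / K0 :=
          div_le_div_of_nonneg_right g3 hK00.le
      _ = (C * (2 * Real.pi) / K0) * Y := by ring
      _ ≤ _ := mul_le_mul_of_nonneg_right hK0' hY0.le
  -- the irregular indices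
  obtain ⟨Bd, hBd⟩ : ∃ Bd, Bd = I.filter (fun n => ¬ reg X T (ord n)) := ⟨_, rfl⟩
  have hBdc : (Bd.card : ℝ) ≤ c1 / 8 * (2 * Real.pi * Y) := by
    obtain ⟨Z, hZ⟩ : ∃ Z, Z = Zf riemannZeta T (2 * T) := ⟨_, rfl⟩
    rw [← hZ] at tbad
    have h1 : ∑ s ∈ Z.filter (fun s => ¬ reg X T s.im), (mult riemannZeta s : ℝ) = (Bd.card : ℝ) := by
      rw [hBd, hI, hZ]
      convert sumN RH hT1 (fun y => ¬ reg X T y)
    rw [← h1]
    refine le_trans ?_ (tbad (Z.filter (fun s => ¬ reg X T s.im)) (Finset.filter_subset _ _) fun s hs => ?_)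
    · refine Finset.sum_le_sum fun s hs => ?_
      have h2 := nn_ge_one (T := T) (s := s) (by rw [← hZ]; exact (Finset.mem_filter.1 hs).1) hT1 RH
      have h3 : (0:ℝ) ≤ mult riemannZeta s := Nat.cast_nonneg _
      nlinarith
    · rw [Finset.mem_filter] at hs
      by_contra hcon
      push Not at hcon
      exact hs.2 ⟨hcon.1, hcon.2.1, hcon.2.2⟩
  obtain ⟨Bd', hBd'⟩ : ∃ Bd', Bd' = I.filter (fun i => i + 1 ∈ Bd) := ⟨_, rfl⟩
  have hBdc' : (Bd'.card : ℝ) ≤ Bd.card := by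
    refine Nat.cast_le.2 (Finset.card_le_card_of_injOn (fun n => n + 1) (fun n hn => ?_) ?_)
    · rw [hBd'] at hn
      exact (Finset.mem_filter.1 (Finset.mem_coe.1 hn)).2
    · intro x _ y _ hxy
      simpa using hxy
  obtain ⟨B, hB⟩ : ∃ B, B = BS θ a b e k T := ⟨_, rfl⟩
  rw [← hB] at hfew
  obtain ⟨E, hE⟩ : ∃ E, E = B ∪ (Bd ∪ Bd') := ⟨_, rfl⟩
  have hEI : E ⊆ Finset.Ioc (NZ T) (NZ (2 * T)) := by
    rw [hE, hB, hBd, hBd', ← hI]
    unfold BS
    rw [← hI]
    exact Finset.union_subset (Finset.filter_subset _ _) (Finset.union_subset (Finset.filter_subset _ _)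
      (Finset.filter_subset _ _))
  have hEc : (E.card : ℝ) ≤ 2 * Real.pi * Y * (c1 * (5 / 4)) := by
    have g1 : (E.card : ℝ) ≤ (B.card : ℝ) + (Bd.card + Bd'.card) := by
      rw [hE]
      exact_mod_cast (Finset.card_union_le _ _).trans (Nat.add_le_add_left (Finset.card_union_le _ _) _)
    linarith
  obtain ⟨A, hA⟩ : ∃ A, A = I.filter (fun n => NearO a' b' (ord n) ∧ Kn n ≤ K0 ∧ reg X T (ord n)) := ⟨_, rfl⟩
  have hAI : A ⊆ Finset.Ioc (NZ T) (NZ (2 * T)) := by
    rw [hA, ← hI]; exact Finset.filter_subset _ _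
  have hpairs := cnt_pairs (p := NZ T) (q := NZ (2 * T)) (K0 := K0) (g := ord) hmono (ρ := ρ) (c := θ / 2 * Real.log T)
    (e := e) he0.le hAI hEI (fun n hn => by
      rw [hA, Finset.mem_filter] at hn
      have := hn.2.2.1
      rw [hKn, hI] at this
      exact this) (by
    intro n hn m hm hnm i hi
    rw [hA, Finset.mem_filter] at hn
    rw [← hI] at hm
    obtain ⟨hnI, hn1, hn2, hn3⟩ := hn
    have n1 := (hIm n).1 hnI
    have m1 := (hIm m).1 hm
    rw [hI, Finset.mem_Ioc] at hnI hm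
    have hiI : i ∈ I := by
      rw [hI, Finset.mem_Ioc]; omega
    have hiI' : i + 1 ∈ I := by
      rw [hI, Finset.mem_Ioc]; omega
    by_cases hc1' : i ∈ Bd
    · left
      rw [hE]
      exact Finset.mem_union_right _ (Finset.mem_union_left _ hc1')
    by_cases hc2' : i + 1 ∈ Bd
    · left
      rw [hE]
      refine Finset.mem_union_right _ (Finset.mem_union_right _ ?_)
      rw [hBd', Finset.mem_filter]
      exact ⟨hiI, hc2'⟩
    have r1 : reg X T (ord i) := by
      by_contra hcon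
      apply hc1'
      rw [hBd, Finset.mem_filter]
      exact ⟨hiI, hcon⟩
    have r2 : reg X T (ord (i + 1)) := by
      by_contra hcon
      apply hc2'
      rw [hBd, Finset.mem_filter]
      exact ⟨hiI', hcon⟩
    have ab := abs_le.1 hnm
    have d1 : |ord i - ord n| ≤ ρ := by
      rcases hi with ⟨h1, h2⟩ | ⟨h1, h2⟩
      · have g1 := SG.ord_mono (by omega) h1
        have g2 := SG.ord_mono (by omega) h2.le
        rw [abs_of_nonneg (by linarith)]
        linarith
      · have g1 := SG.ord_mono (by omega) h1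
        have g2 := SG.ord_mono (by omega) h2.le
        rw [abs_of_nonpos (by linarith)]
        linarith
    have d2 : |ord (i + 1) - ord n| ≤ ρ := by
      rcases hi with ⟨h1, h2⟩ | ⟨h1, h2⟩
      · have g1 := SG.ord_mono (by omega) (by omega : n ≤ i + 1)
        have g2 := SG.ord_mono (by omega) (by omega : i + 1 ≤ m)
        rw [abs_of_nonneg (by linarith)]
        linarith
      · have g1 := SG.ord_mono (by omega) (by omega : m ≤ i + 1)
        have g2 := SG.ord_mono (by omega) (by omega : i + 1 ≤ n)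
        rw [abs_of_nonpos (by linarith)]
        linarith
    have d3 : ord (i + 1) - ord i ≤ ρ := by
      rcases hi with ⟨h1, h2⟩ | ⟨h1, h2⟩
      · have g1 := SG.ord_mono (by omega) h1
        have g2 := SG.ord_mono (by omega) (by omega : i + 1 ≤ m)
        linarith
      · have g1 := SG.ord_mono (by omega) h1
        have g2 := SG.ord_mono (by omega) (by omega : i + 1 ≤ n)
        linarith
    have hlog : ∀ y, reg X T y → 0 < Real.log y := fun y hy => Real.log_pos (by linarith [hy.2.1])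
    have k1 : ∀ y, reg X T y → |y - ord n| ≤ ρ → NearO a b y := by
      intro y q2 q3
      have := (tcls X hXB (ord n) y (by linarith [hn3.2.1]) (by linarith [hn3.2.2]) (by linarith [q2.2.1])
        (by linarith [q2.2.2]) hn3.1 q2.1 q3).2 hn1
      exact NearO_mono (hlog y q2) hϑ1 hϑ2 this
    by_cases hs : |Real.sin (θ / 2 * Real.log T * (ord (i + 1) - ord i))| ≤ e
    · exact Or.inr hs
    · left
      rw [hE]
      refine Finset.mem_union_left _ ?_
      rw [hB]
      unfold BS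
      rw [Finset.mem_filter, ← hI]
      rw [← hρ]
      exact ⟨hiI, hiI', k1 _ r1 d1, k1 _ r2 d2, d3, not_le.1 hs⟩)
  -- the double sum over the indices
  have hCS : CS (sk θ) a' b' T = ∑ n ∈ I, ∑ m ∈ I, (if NearO a' b' (ord n) ∧ NearO a' b' (ord m) then
      sk θ (Real.log T * (ord n - ord m)) else 0) := by
    rw [hI, ← dbl_idx RH hT1 (fun x y => if NearO a' b' x ∧ NearO a' b' y then sk θ (Real.log T * (x - y)) else 0),
      ← cs_eq]
    refine Finset.sum_congr rfl fun s _ => Finset.sum_congr rfl fun s' _ => ?_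
    unfold pf
    split_ifs
    · rfl
    · rw [mul_zero]
  have hfar2 : ∑ n ∈ I, ∑ m ∈ I, (if ¬ |ord m - ord n| ≤ ρ then rh (fb (1 / 2)) (Real.log T * (ord n - ord m)) else 0) ≤
      η / 8 * Y := by
    refine le_trans (le_of_eq ?_) t1
    rw [hI, ← dbl_idx RH hT1 (fun x y => if ¬ |y - x| ≤ ρ then rh (fb (1 / 2)) (Real.log T * (x - y)) else 0)]
    refine Finset.sum_congr rfl fun s _ => ?_
    rw [Finset.sum_filter]
    refine Finset.sum_congr rfl fun s' _ => ?_
    unfold pw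
    split_ifs
    · rw [mul_zero]
    · rfl
  have hpt : ∀ n ∈ I, ∑ m ∈ I, (if NearO a' b' (ord n) ∧ NearO a' b' (ord m) then
      sk θ (Real.log T * (ord n - ord m)) else 0) ≤
      2 * ∑ m ∈ I, (if ¬ |ord m - ord n| ≤ ρ then rh (fb (1 / 2)) (Real.log T * (ord n - ord m)) else 0) +
      ((if K0 < Kn n then (Kn n : ℝ) else 0) + (if n ∈ Bd then (K0 : ℝ) else 0) +
      (if n ∈ A then ∑ m ∈ I.filter (fun m => |ord m - ord n| ≤ ρ),
        Real.sin (θ / 2 * Real.log T * (ord m - ord n)) ^ 2 else 0)) := by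
    intro n hn
    have hrh0 : ∀ y, 0 ≤ rh (fb (1 / 2)) y := hTF.pos
    have p1 : 0 ≤ 2 * ∑ m ∈ I, (if ¬ |ord m - ord n| ≤ ρ then rh (fb (1 / 2)) (Real.log T * (ord n - ord m)) else 0) := by
      refine mul_nonneg (by norm_num) (Finset.sum_nonneg fun m _ => ?_)
      split_ifs
      · exact le_rfl
      · exact hrh0 _
    have p2 : 0 ≤ (if K0 < Kn n then (Kn n : ℝ) else 0) := by split_ifs <;> positivity
    have p3 : 0 ≤ (if n ∈ Bd then (K0 : ℝ) else 0) := by split_ifs <;> positivity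
    have p4 : 0 ≤ (if n ∈ A then ∑ m ∈ I.filter (fun m => |ord m - ord n| ≤ ρ),
        Real.sin (θ / 2 * Real.log T * (ord m - ord n)) ^ 2 else 0) := by
      split_ifs
      · exact Finset.sum_nonneg fun m _ => sq_nonneg _
      · exact le_rfl
    by_cases hnP : NearO a' b' (ord n)
    swap
    · have e1 : ∑ m ∈ I, (if NearO a' b' (ord n) ∧ NearO a' b' (ord m) then
          sk θ (Real.log T * (ord n - ord m)) else 0) = 0 :=
        Finset.sum_eq_zero fun m _ => if_neg fun hh => hnP hh.1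
      rw [e1]
      linarith
    -- split into near and far
    have q1 : ∑ m ∈ I, (if NearO a' b' (ord n) ∧ NearO a' b' (ord m) then
        sk θ (Real.log T * (ord n - ord m)) else 0) ≤
        2 * ∑ m ∈ I, (if ¬ |ord m - ord n| ≤ ρ then rh (fb (1 / 2)) (Real.log T * (ord n - ord m)) else 0) +
        ∑ m ∈ I.filter (fun m => |ord m - ord n| ≤ ρ), Real.sin (θ / 2 * Real.log T * (ord m - ord n)) ^ 2 := by
      rw [Finset.mul_sum, Finset.sum_filter, ← Finset.sum_add_distrib]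
      refine Finset.sum_le_sum fun m _ => ?_
      have g1 : sk θ (Real.log T * (ord n - ord m)) ≤ Real.sin (θ / 2 * Real.log T * (ord m - ord n)) ^ 2 := by
        unfold sk
        have e2 : θ / 2 * (Real.log T * (ord n - ord m)) = -(θ / 2 * Real.log T * (ord m - ord n)) := by ring
        rw [e2, Real.sin_neg, neg_sq]
        apply div_le_self (sq_nonneg _)
        nlinarith [sq_nonneg (Real.log T * (ord n - ord m))]
      have g2 : sk θ (Real.log T * (ord n - ord m)) ≤ 2 * rh (fb (1 / 2)) (Real.log T * (ord n - ord m)) := by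
        have g3 := fb_low2 (show (0:ℝ) < 1 / 2 by norm_num) (by norm_num) (Real.log T * (ord n - ord m))
        unfold sk
        have g4 := Real.sin_sq_le_one (θ / 2 * (Real.log T * (ord n - ord m)))
        have g5 : Real.sin (θ / 2 * (Real.log T * (ord n - ord m))) ^ 2 / (1 + (Real.log T * (ord n - ord m)) ^ 2) ≤
            1 / (1 + (Real.log T * (ord n - ord m)) ^ 2) := div_le_div_of_nonneg_right g4 (by positivity)
        have g6 : 1 / (1 + (Real.log T * (ord n - ord m)) ^ 2) =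
            2 * (1 / 2 / (1 + (Real.log T * (ord n - ord m)) ^ 2)) := by ring
        linarith
      by_cases hd : |ord m - ord n| ≤ ρ
      · rw [if_neg (not_not.2 hd), if_pos hd, mul_zero, zero_add]
        split_ifs
        · exact g1
        · exact sq_nonneg _
      · rw [if_pos hd, if_neg hd, add_zero]
        split_ifs
        · exact g2
        · exact mul_nonneg (by norm_num) (hrh0 _)
    have q2 : ∑ m ∈ I.filter (fun m => |ord m - ord n| ≤ ρ), Real.sin (θ / 2 * Real.log T * (ord m - ord n)) ^ 2 ≤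
        (Kn n : ℝ) := by
      refine (Finset.sum_le_card_nsmul _ _ 1 fun m _ => Real.sin_sq_le_one _).trans (le_of_eq ?_)
      rw [nsmul_eq_mul, mul_one, hKn]
    by_cases hk1 : K0 < Kn n
    · rw [if_pos hk1]
      linarith
    · push Not at hk1
      have hk1' : (Kn n : ℝ) ≤ K0 := by exact_mod_cast hk1
      by_cases hnB : n ∈ Bd
      · rw [if_pos hnB]
        linarith
      · have hnA : n ∈ A := by
          rw [hA, Finset.mem_filter]
          refine ⟨hn, hnP, hk1, ?_⟩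
          by_contra hcon
          apply hnB
          rw [hBd, Finset.mem_filter]
          exact ⟨hn, hcon⟩
        rw [if_pos hnA]
        linarith
  have hsum := Finset.sum_le_sum hpt
  rw [← hCS] at hsum
  rw [Finset.sum_add_distrib, ← Finset.mul_sum, Finset.sum_add_distrib, Finset.sum_add_distrib] at hsum
  have s1 : ∑ n ∈ I, (if K0 < Kn n then (Kn n : ℝ) else 0) ≤ η / 4 * Y := by
    rw [← Finset.sum_filter]
    exact hbig
  have s2 : ∑ n ∈ I, (if n ∈ Bd then (K0 : ℝ) else 0) ≤ K0 * Bd.card := by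
    rw [← Finset.sum_filter, Finset.sum_const, nsmul_eq_mul, mul_comm]
    apply mul_le_mul_of_nonneg_left _ hK00.le
    exact Nat.cast_le.2 (Finset.card_le_card fun n hn => (Finset.mem_filter.1 hn).2)
  have s3 : ∑ n ∈ I, (if n ∈ A then ∑ m ∈ I.filter (fun m => |ord m - ord n| ≤ ρ),
      Real.sin (θ / 2 * Real.log T * (ord m - ord n)) ^ 2 else 0) ≤
      (K0 * e) ^ 2 * (K0 * A.card) + 2 * K0 ^ 2 * E.card := by
    rw [← Finset.sum_filter]
    have e3 : I.filter (fun n => n ∈ A) = A := by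
      ext n
      rw [Finset.mem_filter]
      exact ⟨fun h => h.2, fun h => ⟨by rw [hI]; exact hAI h, h⟩⟩
    rw [e3]
    rw [hI]
    exact hpairs
  have s4 : (K0 * e) ^ 2 * (K0 * A.card) ≤ η / 8 * Y := by
    have g1 : (A.card : ℝ) ≤ 2 * Y := by
      refine le_trans (Nat.cast_le.2 (Finset.card_le_card ?_)) hIc
      rw [hI]; exact hAI
    have g2 : (K0 * e) ^ 2 * (K0 * A.card) ≤ (K0 * e) ^ 2 * (K0 * (2 * Y)) := by gcongr
    refine g2.trans ?_
    have g3 : (K0 * e) ^ 2 * (K0 * (2 * Y)) = (e * (32 * (K0 : ℝ) ^ 3)) * (e * (Y / 16)) := by ring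
    rw [g3]
    have g4 : e * (Y / 16) ≤ Y / 16 := mul_le_of_le_one_left (by positivity) he1
    calc (e * (32 * (K0 : ℝ) ^ 3)) * (e * (Y / 16)) ≤ η * (Y / 16) := mul_le_mul he2 g4 (by positivity) hη.le
      _ ≤ _ := by
        have : 0 < η * Y := by positivity
        linarith
  have hK01 : (1:ℝ) ≤ K0 := by
    have : 0 < K0 := by exact_mod_cast hK00
    exact_mod_cast this
  have hc1Y : c1 * (2 * Real.pi * Y) * (K0 : ℝ) ^ 2 = η / 32 * Y := by
    rw [hc1]
    field_simp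
    ring
  have s5 : 2 * (K0 : ℝ) ^ 2 * E.card ≤ η / 8 * Y := by
    have g1 := mul_le_mul_of_nonneg_left hEc (by positivity : 0 ≤ 2 * (K0 : ℝ) ^ 2)
    have g2 : 2 * (K0 : ℝ) ^ 2 * (2 * Real.pi * Y * (c1 * (5 / 4))) = 5 / 2 * (c1 * (2 * Real.pi * Y) * (K0 : ℝ) ^ 2) := by ring
    rw [g2, hc1Y] at g1
    have : 0 < η * Y := by positivity
    linarith
  have s6 : (K0 : ℝ) * Bd.card ≤ η / 8 * Y := by
    have g1 : (K0 : ℝ) * Bd.card ≤ (K0 : ℝ) ^ 2 * (c1 / 8 * (2 * Real.pi * Y)) := by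
      have g2 : (K0 : ℝ) ≤ (K0 : ℝ) ^ 2 := by nlinarith
      exact mul_le_mul g2 hBdc (Nat.cast_nonneg _) (by positivity)
    have g3 : (K0 : ℝ) ^ 2 * (c1 / 8 * (2 * Real.pi * Y)) = 1 / 8 * (c1 * (2 * Real.pi * Y) * (K0 : ℝ) ^ 2) := by ring
    rw [g3, hc1Y] at g1
    have : 0 < η * Y := by positivity
    linarith
  have : 0 < η * Y := by positivity
  linarith

end

end Run7.h911.PQ
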