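import Pool.Agent.Run7.h911.PH7

set_option autoImplicit false

/-! # The alternative hypothesis in a size class (helper911) -/

namespace Run7.h911.PQ

open Filter Topology MeasureTheory
open H370 (Zf mult good_zeta)
open Run7.h911.SZ (G01 G01_nonneg G01_le Bk Near)
open SG (ord NZ)
open LG (dlt)

noncomputable section

/-- normalised gap and scaled gap -/
lemma dlt_near {T k : ℝ} (hT : 10 ≤ T) {n : ℕ} (hn : 1 ≤ n) (h1 : T < ord n)
    (h2 : ord (n + 1) ≤ 2 * T) (h3 : ord (n + 1) - ord n ≤ k / Real.log T) :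
    |2 * Real.pi * dlt n - Real.log T * (ord (n + 1) - ord n)| ≤ k * (Real.log 2 + 1) / Real.log T := by
  have hpi := Real.pi_pos
  have hTpos : 0 < T := by linarith
  have hL0 : 0 < Real.log T := Real.log_pos (by linarith)
  have hmono := SG.ord_mono hn (by omega : n ≤ n + 1)
  obtain ⟨x, hx⟩ : ∃ x, x = ord n := ⟨_, rfl⟩
  obtain ⟨y, hy⟩ : ∃ y, y = ord (n + 1) := ⟨_, rfl⟩
  have hd : 2 * Real.pi * dlt n = y * Real.log y - x * Real.log x := by
    unfold dlt
    rw [hx, hy]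
    field_simp
  rw [hd]
  rw [← hx, ← hy] at h3 hmono ⊢
  rw [← hx] at h1
  rw [← hy] at h2
  have hx0 : 0 < x := by linarith
  have hy0 : 0 < y := by linarith
  have e1 : Real.log y - Real.log x ≤ (y - x) / x := by
    rw [← Real.log_div (by positivity) (by positivity)]
    have := Real.log_le_sub_one_of_pos (show 0 < y / x by positivity)
    rw [sub_div, div_self hx0.ne']
    exact this
  have e2 : x * (Real.log y - Real.log x) ≤ y - x := by
    calc x * (Real.log y - Real.log x) ≤ x * ((y - x) / x) := by gcongr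
      _ = y - x := by field_simp
  have e20 : 0 ≤ x * (Real.log y - Real.log x) := by
    apply mul_nonneg hx0.le
    have := Real.log_le_log hx0 hmono
    linarith
  have e3 : Real.log y ≤ Real.log 2 + Real.log T := by
    rw [← Real.log_mul (by norm_num) (by positivity)]
    exact Real.log_le_log hy0 h2
  have e4 : Real.log T ≤ Real.log y := Real.log_le_log hTpos (by linarith)
  have e5 : y * Real.log y - x * Real.log x - Real.log T * (y - x) =
      (y - x) * (Real.log y - Real.log T) + x * (Real.log y - Real.log x) := by ring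
  have hyx : 0 ≤ y - x := by linarith
  have e6 : 0 ≤ (y - x) * (Real.log y - Real.log T) := mul_nonneg hyx (by linarith)
  have e7 : (y - x) * (Real.log y - Real.log T) ≤ (y - x) * Real.log 2 := mul_le_mul_of_nonneg_left (by linarith) hyx
  have hl2 : 0 < Real.log 2 := Real.log_pos (by norm_num)
  rw [e5, abs_of_nonneg (by linarith), mul_div_right_comm]
  have e8 : (y - x) * (Real.log 2 + 1) ≤ k / Real.log T * (Real.log 2 + 1) :=
    mul_le_mul_of_nonneg_right h3 (by positivity)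
  linarith

/-- the spacings of the set `BS` are away from the lattice -/
lemma BS_away {θ : ℝ} (hθ : 0 < θ) {a b e k : ℝ} (he : 0 < e) : ∀ᶠ T : ℝ in atTop,
    ∀ i ∈ BS θ a b e k T, 1 ≤ i ∧ T < ord i ∧ ord (i + 1) ≤ 2 * T ∧ Near a b i ∧ Near a b (i + 1) ∧
      ∀ j : ℤ, e / (2 * Real.pi * θ) ≤ |dlt i - j * (1 / θ)| := by
  classical
  have hpi := Real.pi_pos
  filter_upwards [eventually_ge_atTop 10, Real.tendsto_log_atTop.eventually_ge_atTop
    (θ * (|k| * (Real.log 2 + 1)) / e)] with T hT10 hTL i hi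
  have hL0 : 0 < Real.log T := Real.log_pos (by linarith)
  unfold BS at hi
  rw [Finset.mem_filter, Finset.mem_Ioc, Finset.mem_Ioc] at hi
  obtain ⟨⟨i1, i2⟩, ⟨i3, i4⟩, hn1, hn2, hd, hs⟩ := hi
  have hi1 : 1 ≤ i := by omega
  have hTi : T < ord i := by
    by_contra hcon
    push Not at hcon
    have := (SG.ord_le_iff hi1 T).mp hcon
    omega
  have hiT : ord (i + 1) ≤ 2 * T := (SG.ord_le_iff (by omega) _).mpr i4
  refine ⟨hi1, hTi, hiT, hn1, hn2, fun j => ?_⟩
  by_contra hcon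
  push Not at hcon
  have h1 := dlt_near (k := |k|) hT10 hi1 hTi hiT (hd.trans (div_le_div_of_nonneg_right (le_abs_self k) hL0.le))
  have h2 : θ * (|k| * (Real.log 2 + 1) / Real.log T) ≤ e := by
    rw [mul_div_assoc', div_le_iff₀ hL0]
    rw [div_le_iff₀ he] at hTL
    linarith
  obtain ⟨z, hz⟩ : ∃ z, z = Real.log T * (ord (i + 1) - ord i) := ⟨_, rfl⟩
  rw [← hz] at h1
  have h3 : |θ / 2 * z - j * Real.pi| < e := by
    have e1 : θ / 2 * z - j * Real.pi = -(θ / 2 * (2 * Real.pi * dlt i - z)) + θ * Real.pi * (dlt i - j * (1 / θ)) := by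
      field_simp
      ring
    rw [e1]
    refine lt_of_le_of_lt (abs_add_le _ _) ?_
    rw [abs_neg, abs_mul, abs_mul, abs_of_pos (by positivity : 0 < θ / 2), abs_of_pos (by positivity : 0 < θ * Real.pi)]
    have h4 := mul_le_mul_of_nonneg_left h1 (by positivity : 0 ≤ θ / 2)
    have h5 := mul_lt_mul_of_pos_left hcon (by positivity : 0 < θ * Real.pi)
    have e2 : θ * Real.pi * (e / (2 * Real.pi * θ)) = e / 2 := by field_simp
    rw [e2] at h5
    linarith
  have h6 : |Real.sin (θ / 2 * z)| ≤ |θ / 2 * z - j * Real.pi| := by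
    have e3 : |Real.sin (θ / 2 * z)| = |Real.sin (θ / 2 * z - j * Real.pi)| := by
      rw [Real.sin_sub_int_mul_pi, abs_mul]
      have : |((-1 : ℝ)) ^ j| = 1 := by
        rw [abs_zpow, abs_neg, abs_one, one_zpow]
      rw [this, one_mul]
    rw [e3]
    exact Real.abs_sin_le_abs
  have e4 : θ / 2 * Real.log T * (ord (i + 1) - ord i) = θ / 2 * z := by rw [hz]; ring
  rw [e4] at hs
  linarith

/-- **the spacings in a size class are not near a lattice `s ℤ`, `s > 1/2`** -/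
theorem nl_idx (RH : RiemannHypothesis) {s : ℝ} (hs : 1 / 2 < s) {a b : ℝ} (hab : a < b) : ∃ ε : ℝ, 0 < ε ∧
    ∃ N0 : ℕ, ∀ N : ℕ, N0 ≤ N → ε * N ≤ ({n : ℕ | 1 ≤ n ∧ n ≤ N ∧ Near a b n ∧ Near a b (n + 1) ∧
      ∀ j : ℤ, ε ≤ |dlt n - j * s|}.ncard : ℝ) := by
  classical
  have hpi := Real.pi_pos
  obtain ⟨θ, hθ⟩ : ∃ θ, θ = 1 / s := ⟨_, rfl⟩
  have hs0 : 0 < s := by linarith
  have hθ0 : 0 < θ := by rw [hθ]; positivity
  have hθ2 : θ < 2 := by
    rw [hθ, div_lt_iff₀ hs0]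
    linarith
  have hθs : 1 / θ = s := by rw [hθ, one_div_one_div]
  obtain ⟨c, hc, hnl⟩ := nonlat RH hθ0 hθ2
  obtain ⟨a', ha'⟩ : ∃ a', a' = a + (b - a) / 3 := ⟨_, rfl⟩
  obtain ⟨b', hb'⟩ : ∃ b', b' = b - (b - a) / 3 := ⟨_, rfl⟩
  have hab' : a' < b' := by rw [ha', hb']; linarith
  have hG := G01_pos hab'
  obtain ⟨e, k, he, hk, c1, hc1, hbs⟩ := bad_spac RH (θ := θ) (a := a) (b := b) (a' := a') (b' := b')
    (by rw [ha']; linarith) (by rw [hb']; linarith) (show 0 < c * G01 a' b' / 2 by positivity)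
  obtain ⟨C, T2, hC, hT2, h2⟩ := LG.GapAux.NZ_up
  obtain ⟨ε, hε⟩ : ∃ ε, ε = min (e / (2 * Real.pi * θ)) (c1 / (3 * C)) := ⟨_, rfl⟩
  have hε0 : 0 < ε := by rw [hε]; positivity
  refine ⟨ε, hε0, ?_⟩
  obtain ⟨T1, h1⟩ := ((hnl a' b' hab').and (hbs.and (BS_away hθ0 (a := a) (b := b) (k := k) he))).exists_forall_of_atTop
  obtain ⟨X, hX⟩ : ∃ X : ℝ, X = max (max T1 10) T2 := ⟨_, rfl⟩
  have hX1 : T1 ≤ X := by rw [hX]; exact (le_max_left _ _).trans (le_max_left _ _)
  have hX10 : 10 ≤ X := by rw [hX]; exact (le_max_right _ _).trans (le_max_left _ _)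
  have hX2 : T2 ≤ X := by rw [hX]; exact le_max_right _ _
  refine ⟨NZ (3 * X) + 1, fun N hN => ?_⟩
  have hN1 : 1 ≤ N := by omega
  have hbig : 3 * X < ord N := by
    by_contra hcon
    push Not at hcon
    have := (SG.ord_le_iff hN1 (3 * X)).mp hcon
    omega
  obtain ⟨T, hT⟩ : ∃ T : ℝ, T = ord N / 3 := ⟨_, rfl⟩
  have hTX : X ≤ T := by rw [hT]; linarith
  have hT10 : 10 ≤ T := by linarith
  have hTpos : 0 < T := by linarith
  have hL0 : 0 < Real.log T := Real.log_pos (by linarith)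
  have hNle : (N : ℝ) ≤ 3 * C * (T * Real.log T) := by
    have g1 : N ≤ NZ (2 * (3 / 2 * T)) := by
      apply (SG.ord_le_iff hN1 _).mp
      rw [hT]
      apply le_of_eq
      ring
    have g2 := h2 (3 / 2 * T) (by linarith)
    have g3 : (N : ℝ) ≤ NZ (2 * (3 / 2 * T)) := by exact_mod_cast g1
    have g4 : Real.log (3 / 2 * T) ≤ 2 * Real.log T := by
      have : Real.log (3 / 2 * T) ≤ Real.log (T ^ 2) := Real.log_le_log (by positivity) (by nlinarith)
      rw [Real.log_pow] at this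
      push_cast at this
      exact this
    calc (N : ℝ) ≤ C * (3 / 2 * T * Real.log (3 / 2 * T)) := g3.trans g2
      _ ≤ C * (3 / 2 * T * (2 * Real.log T)) := by gcongr
      _ = _ := by ring
  obtain ⟨t1, t2, t3⟩ := h1 T (hX1.trans hTX)
  have hlt : c1 * (T * Real.log T) < ((BS θ a b e k T).card : ℝ) := by
    by_contra hcon
    push Not at hcon
    have g1 := t2 hcon
    have g2 : 0 < c * G01 a' b' * (T * (Real.log T / (2 * Real.pi))) := by positivity
    linarith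
  have hfin : {n : ℕ | 1 ≤ n ∧ n ≤ N ∧ Near a b n ∧ Near a b (n + 1) ∧ ∀ j : ℤ, ε ≤ |dlt n - j * s|}.Finite :=
    (Set.finite_Icc 1 N).subset fun n hn => ⟨hn.1, hn.2.1⟩
  calc ε * N ≤ c1 / (3 * C) * (3 * C * (T * Real.log T)) := by
        apply mul_le_mul _ hNle (Nat.cast_nonneg _) (by positivity)
        rw [hε]; exact min_le_right _ _
    _ = c1 * (T * Real.log T) := by field_simp
    _ ≤ _ := hlt.le
    _ ≤ _ := by
      rw [← Set.ncard_coe_finset]
      refine Nat.cast_le.2 (Set.ncard_le_ncard ?_ hfin)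
      intro n hn
      rw [Finset.mem_coe] at hn
      obtain ⟨u1, u2, u3, u4, u5, u6⟩ := t3 n hn
      refine ⟨u1, ?_, u4, u5, fun j => ?_⟩
      · by_contra hcon
        push Not at hcon
        have g1 := SG.ord_mono hN1 (by omega : N ≤ n + 1)
        rw [hT] at u3
        have : 0 < ord N := by linarith
        linarith
      · have := u6 j
        rw [hθs] at this
        refine le_trans ?_ this
        rw [hε]; exact min_le_left _ _

/-- almost all the spacings in a class are near `(1/2) ℤ` -/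
def LatC (a b : ℝ) : Prop := ∀ ε η : ℝ, 0 < ε → 0 < η → ∃ N0 : ℕ, ∀ N : ℕ, N0 ≤ N →
  ({n : ℕ | 1 ≤ n ∧ n ≤ N ∧ Near a b n ∧ Near a b (n + 1) ∧ ∀ j : ℤ, ε ≤ |dlt n - j * (1 / 2)|}.ncard : ℝ) ≤ η * N

/-- the alternative hypothesis in a class, pairs -/
theorem lat_pairs (RH : RiemannHypothesis) {a b a' b' : ℝ} (ha : a < a') (hb : b' < b) (h : LatC a b)
    {η : ℝ} (hη : 0 < η) : ∀ᶠ T : ℝ in atTop, CS (sk 2) a' b' T ≤ η * (T * (Real.log T / (2 * Real.pi))) := by
  classical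
  have hpi := Real.pi_pos
  obtain ⟨e, k, he, hk, c1, hc1, hbs⟩ := bad_spac RH (θ := 2) ha hb hη
  obtain ⟨C, T2, hC, hT2, h2⟩ := LG.GapAux.NZ_up
  obtain ⟨N0, hN0⟩ := h (e / (2 * Real.pi * 2)) (c1 / C) (by positivity) (by positivity)
  filter_upwards [hbs, BS_away (θ := 2) (by norm_num) (a := a) (b := b) (k := k) he, eventually_ge_atTop T2,
    eventually_ge_atTop (ord (N0 + 1)), eventually_ge_atTop 10] with T t1 t2 tT2 tN hT10
  apply t1
  have hN : N0 ≤ NZ (2 * T) := by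
    have : N0 + 1 ≤ NZ (2 * T) := (SG.ord_le_iff (by omega) _).mp (by linarith)
    omega
  have g1 := hN0 _ hN
  have g2 := h2 T tT2
  have hfin : {n : ℕ | 1 ≤ n ∧ n ≤ NZ (2 * T) ∧ Near a b n ∧ Near a b (n + 1) ∧
      ∀ j : ℤ, e / (2 * Real.pi * 2) ≤ |dlt n - j * (1 / 2)|}.Finite :=
    (Set.finite_Icc 1 (NZ (2 * T))).subset fun n hn => ⟨hn.1, hn.2.1⟩
  calc ((BS 2 a b e k T).card : ℝ) ≤ ({n : ℕ | 1 ≤ n ∧ n ≤ NZ (2 * T) ∧ Near a b n ∧ Near a b (n + 1) ∧
        ∀ j : ℤ, e / (2 * Real.pi * 2) ≤ |dlt n - j * (1 / 2)|}.ncard : ℝ) := by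
        rw [← Set.ncard_coe_finset]
        refine Nat.cast_le.2 (Set.ncard_le_ncard ?_ hfin)
        intro n hn
        rw [Finset.mem_coe] at hn
        obtain ⟨u1, u2, u3, u4, u5, u6⟩ := t2 n hn
        refine ⟨u1, ?_, u4, u5, u6⟩
        have g3 := SG.ord_mono u1 (by omega : n ≤ n + 1)
        exact (SG.ord_le_iff u1 _).mp (by linarith)
    _ ≤ c1 / C * NZ (2 * T) := g1
    _ ≤ c1 / C * (C * (T * Real.log T)) := mul_le_mul_of_nonneg_left g2 (by positivity)
    _ = _ := by field_simp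

/-- the form factor of a class under the alternative hypothesis in a class, tents -/
theorem lat_tent (RH : RiemannHypothesis) {a b a' b' : ℝ} (ha : a < a') (hb : b' < b) (hab' : a' < b')
    (h : LatC a b) {w u : ℝ} (hw : 0 < w) (hu1 : 1 < u - w) (hu2 : u + w ≤ 2) {ε : ℝ} (hε : 0 < ε) :
    ∀ᶠ T : ℝ in atTop,
    |(∫ α in (u - w)..(u + w), tri w (α - u) * FC a' b' α T) - (2 - u) * G01 a' b'| ≤ ε := by
  classical
  have hpi := Real.pi_pos
  have hw1 : w ≤ 1 := by linarith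
  obtain ⟨A, hA0, hA⟩ := kb_dec hw hw1
  have hTF := fb_TF (show (0:ℝ) < 1 / 2 by norm_num) (by norm_num)
  obtain ⟨M, hM⟩ : ∃ M, M = mo (fb (1 / 2)) + 1 := ⟨_, rfl⟩
  have hM0 : 1 ≤ M := by
    rw [hM]
    have := mo_nonneg hTF
    linarith
  obtain ⟨l, hl⟩ : ∃ l, l = 8 * (A ^ 2 + 1) * M / ε := ⟨_, rfl⟩
  have hl0 : 0 < l := by rw [hl]; positivity
  have hlA : 2 * A ^ 2 / l * M ≤ ε / 4 := by
    rw [hl, div_div_eq_mul_div, div_mul_eq_mul_div, div_le_div_iff₀ (by positivity) (by norm_num)]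
    have : 0 ≤ ε * M := by positivity
    nlinarith
  filter_upwards [tent_in RH (b := w) (u := 2 - u) hw (by linarith) (by linarith) hab' (show 0 < ε / 4 by positivity),
    lat_pairs RH ha hb h (show 0 < ε / (4 * l) by positivity),
    posLaw RH hTF (by norm_num) (by norm_num) hab' (show (0:ℝ) < 1 by norm_num), eventually_ge_atTop 10]
    with T t1 t2 t3 hT10
  have hL : 0 < Real.log T := Real.log_pos (by linarith)
  rw [FC_tri hw] at t1 ⊢
  obtain ⟨Y, hY⟩ : ∃ Y, Y = T * (Real.log T / (2 * Real.pi)) := ⟨_, rfl⟩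
  rw [← hY] at t1 t2 t3 ⊢
  have hY0 : 0 < Y := by rw [hY]; positivity
  have hG1 := G01_le a' b'
  have s3 := (abs_le.1 t3).2
  have key : ∀ y : ℝ, |Real.cos (u * y) * kb w y - Real.cos ((2 - u) * y) * kb w y| ≤
      l * sk 2 y + 2 * A ^ 2 / l * rh (fb (1 / 2)) y := by
    intro y
    have hk0 := kb_nonneg hw y
    have e1 : u * y = y + (u - 1) * y := by ring
    have e2 : (2 - u) * y = y - (u - 1) * y := by ring
    rw [e1, e2, Real.cos_sub, Real.cos_add]
    have e3 : (Real.cos y * Real.cos ((u - 1) * y) - Real.sin y * Real.sin ((u - 1) * y)) * kb w y -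
        (Real.cos y * Real.cos ((u - 1) * y) + Real.sin y * Real.sin ((u - 1) * y)) * kb w y =
        -(2 * (Real.sin y * Real.sin ((u - 1) * y)) * kb w y) := by ring
    rw [e3, abs_neg, abs_mul, abs_mul, abs_mul, abs_of_pos (by norm_num : (0:ℝ) < 2), abs_of_nonneg hk0]
    have h4 : |Real.sin y| * |Real.sin ((u - 1) * y)| ≤ |Real.sin y| :=
      mul_le_of_le_one_right (abs_nonneg _) (Real.abs_sin_le_one _)
    have h5 : 2 * (|Real.sin y| * |Real.sin ((u - 1) * y)|) * kb w y ≤ 2 * (|Real.sin y| * kb w y) := by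
      have := mul_le_mul_of_nonneg_right h4 hk0
      linarith
    refine h5.trans ?_
    have h7 : kb w y ≤ A / (1 + y ^ 2) := hA y
    have h8 := fb_low2 (show (0:ℝ) < 1 / 2 by norm_num) (by norm_num) y
    have hp : 0 < 1 + y ^ 2 := by positivity
    have h9 : kb w y ^ 2 * (1 + y ^ 2) / l ≤ 2 * A ^ 2 / l * rh (fb (1 / 2)) y := by
      have h10 : kb w y ^ 2 * (1 + y ^ 2) ≤ A ^ 2 / (1 + y ^ 2) := by
        have h11 := pow_le_pow_left₀ hk0 h7 2
        have h12 := mul_le_mul_of_nonneg_right h11 hp.le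
        refine h12.trans (le_of_eq ?_)
        field_simp
      have h13 : A ^ 2 / (1 + y ^ 2) ≤ 2 * A ^ 2 * rh (fb (1 / 2)) y := by
        have := mul_le_mul_of_nonneg_left h8 (by positivity : 0 ≤ 2 * A ^ 2)
        refine le_trans (le_of_eq ?_) this
        ring
      have h14 := div_le_div_of_nonneg_right (h10.trans h13) hl0.le
      refine h14.trans (le_of_eq ?_)
      ring
    have h15 : 2 * (|Real.sin y| * kb w y) ≤ l * sk 2 y + kb w y ^ 2 * (1 + y ^ 2) / l := by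
      unfold sk
      have e4 : (2:ℝ) / 2 * y = y := by ring
      rw [e4]
      obtain ⟨p, hp'⟩ : ∃ p, p = |Real.sin y| := ⟨_, rfl⟩
      rw [← sq_abs (Real.sin y), ← hp']
      have h16 : 0 ≤ (l * p - kb w y * (1 + y ^ 2)) ^ 2 / (l * (1 + y ^ 2)) := by positivity
      have h17 : (l * p - kb w y * (1 + y ^ 2)) ^ 2 / (l * (1 + y ^ 2)) =
          l * (p ^ 2 / (1 + y ^ 2)) + kb w y ^ 2 * (1 + y ^ 2) / l - 2 * (p * kb w y) := by
        field_simp
        ring
      linarith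
    linarith
  have key2 : |CW (fun y => Real.cos (u * y) * kb w y) a' b' T - CW (fun y => Real.cos ((2 - u) * y) * kb w y) a' b' T| ≤
      l * CS (sk 2) a' b' T + 2 * A ^ 2 / l * CS (rh (fb (1 / 2))) a' b' T := by
    have hpos : ∀ y, 0 ≤ l * sk 2 y + 2 * A ^ 2 / l * rh (fb (1 / 2)) y := fun y => (abs_nonneg _).trans (key y)
    have g1 : CW (fun y => l * sk 2 y + 2 * A ^ 2 / l * rh (fb (1 / 2)) y) a' b' T ≤
        l * CS (sk 2) a' b' T + 2 * A ^ 2 / l * CS (rh (fb (1 / 2))) a' b' T := by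
      refine (CW_le_CS hpos a' b' T).trans (le_of_eq ?_)
      rw [CS_add (fun y => l * sk 2 y) (fun y => 2 * A ^ 2 / l * rh (fb (1 / 2)) y), CS_smul, CS_smul]
    refine le_trans ?_ g1
    have g2 : CW (fun y => Real.cos (u * y) * kb w y) a' b' T ≤
        CW (fun y => Real.cos ((2 - u) * y) * kb w y + (l * sk 2 y + 2 * A ^ 2 / l * rh (fb (1 / 2)) y)) a' b' T :=
      CW_mono (fun y => by
        show Real.cos (u * y) * kb w y ≤
          Real.cos ((2 - u) * y) * kb w y + (l * sk 2 y + 2 * A ^ 2 / l * rh (fb (1 / 2)) y)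
        linarith [(abs_le.1 (key y)).2]) a' b' T
    have g3 : CW (fun y => Real.cos ((2 - u) * y) * kb w y) a' b' T ≤
        CW (fun y => Real.cos (u * y) * kb w y + (l * sk 2 y + 2 * A ^ 2 / l * rh (fb (1 / 2)) y)) a' b' T :=
      CW_mono (fun y => by
        show Real.cos ((2 - u) * y) * kb w y ≤
          Real.cos (u * y) * kb w y + (l * sk 2 y + 2 * A ^ 2 / l * rh (fb (1 / 2)) y)
        linarith [(abs_le.1 (key y)).1]) a' b' T
    rw [CW_add (fun y => Real.cos ((2 - u) * y) * kb w y)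
      (fun y => l * sk 2 y + 2 * A ^ 2 / l * rh (fb (1 / 2)) y)] at g2
    rw [CW_add (fun y => Real.cos (u * y) * kb w y)
      (fun y => l * sk 2 y + 2 * A ^ 2 / l * rh (fb (1 / 2)) y)] at g3
    rw [abs_le]
    constructor <;> linarith
  have h20 : 2 * A ^ 2 / l * CS (rh (fb (1 / 2))) a' b' T ≤ ε / 4 * Y := by
    have h21 : CS (rh (fb (1 / 2))) a' b' T ≤ M * Y := by
      have h22 : mo (fb (1 / 2)) * G01 a' b' * Y ≤ mo (fb (1 / 2)) * Y :=
        mul_le_mul_of_nonneg_right (mul_le_of_le_one_right (mo_nonneg hTF) hG1) hY0.le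
      rw [hM]
      linarith
    calc 2 * A ^ 2 / l * CS (rh (fb (1 / 2))) a' b' T ≤ 2 * A ^ 2 / l * (M * Y) :=
          mul_le_mul_of_nonneg_left h21 (by positivity)
      _ = (2 * A ^ 2 / l * M) * Y := by ring
      _ ≤ _ := mul_le_mul_of_nonneg_right hlA hY0.le
  have h23 : l * CS (sk 2) a' b' T ≤ ε / 4 * Y := by
    calc l * CS (sk 2) a' b' T ≤ l * (ε / (4 * l) * Y) := mul_le_mul_of_nonneg_left t2 hl0.le
      _ = _ := by field_simp
  have h24 : |Y⁻¹ * CW (fun y => Real.cos (u * y) * kb w y) a' b' T -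
      Y⁻¹ * CW (fun y => Real.cos ((2 - u) * y) * kb w y) a' b' T| ≤ ε / 2 := by
    rw [← mul_sub, abs_mul, abs_of_pos (inv_pos.2 hY0), inv_mul_le_iff₀ hY0]
    linarith
  have h25 := abs_sub_le (Y⁻¹ * CW (fun y => Real.cos (u * y) * kb w y) a' b' T)
    (Y⁻¹ * CW (fun y => Real.cos ((2 - u) * y) * kb w y) a' b' T) ((2 - u) * G01 a' b')
  linarith

/-- from tents to intervals, affine densities -/
theorem int_aff {a b : ℝ} {p q : ℝ} (hpq : p < q) (hqp : q - p ≤ 1) {α0 α1 : ℝ}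
    (hb : ∀ x ∈ Set.Icc p q, |α0 + α1 * x| ≤ 1) {h0 : ℝ} (hh00 : 0 < h0)
    (ht : ∀ h u : ℝ, 0 < h → h ≤ h0 → p ≤ u → u ≤ q → ∀ ε : ℝ, 0 < ε → ∀ᶠ T : ℝ in atTop,
      |(∫ α in (u - h)..(u + h), tri h (α - u) * FC a b α T) - (α0 + α1 * u) * G01 a b| ≤ ε)
    {ε : ℝ} (hε : 0 < ε) : ∀ᶠ T : ℝ in atTop,
    |(∫ α in p..q, FC a b α T) - G01 a b * (α0 * (q - p) + α1 * ((q ^ 2 - p ^ 2) / 2))| ≤ ε := by
  have hG0 := G01_nonneg a b
  have hG1 := G01_le a b
  obtain ⟨m, hm⟩ := exists_nat_gt (max (4 / ε) (1 / h0))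
  have hm1 : 4 / ε < m := lt_of_le_of_lt (le_max_left _ _) hm
  have hm2 : 1 / h0 < m := lt_of_le_of_lt (le_max_right _ _) hm
  have hm0 : (0:ℝ) < m := lt_trans (by positivity) hm2
  obtain ⟨n, hn⟩ : ∃ n : ℝ, n = (m : ℝ) + 2 := ⟨_, rfl⟩
  have hn0 : 0 < n := by rw [hn]; positivity
  obtain ⟨h, hh⟩ : ∃ h, h = (q - p) / n := ⟨_, rfl⟩
  have hqp0 : 0 < q - p := by linarith
  have hh0 : 0 < h := by rw [hh]; positivity
  have hnh : n * h = q - p := by rw [hh]; field_simp
  have hhm : h ≤ 1 / m := by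
    rw [hh, div_le_div_iff₀ hn0 hm0]
    nlinarith
  have hhp : h ≤ h0 := by
    refine hhm.trans ?_
    rw [div_le_iff₀ hm0]
    rw [div_lt_iff₀ hh00] at hm2
    linarith
  have hhε : h ≤ ε / 4 := by
    refine hhm.trans ?_
    rw [div_le_iff₀ hm0]
    rw [div_lt_iff₀ hε] at hm1
    linarith
  have hall : ∀ᶠ T : ℝ in atTop, ∀ j ∈ Finset.range (m + 3),
      |(∫ α in (p + j * h - h)..(p + j * h + h), tri h (α - (p + j * h)) * FC a b α T) -
        (α0 + α1 * (p + j * h)) * G01 a b| ≤ ε / 4 := by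
    rw [Filter.eventually_all_finset]
    intro j hj
    have hj1 : (j : ℝ) ≤ n := by
      rw [Finset.mem_range] at hj
      rw [hn]
      exact_mod_cast (by omega : j ≤ m + 2)
    have hj0 : (0:ℝ) ≤ j * h := by positivity
    have hj2 : (j : ℝ) * h ≤ q - p := by
      rw [← hnh]
      exact mul_le_mul_of_nonneg_right hj1 hh0.le
    exact ht h _ hh0 hhp (by linarith) (by linarith) _ (by positivity)
  filter_upwards [hall, eventually_ge_atTop 10] with T hT hT10
  have hF0 : ∀ α, 0 ≤ FC a b α T := fun α => FC_nonneg a b α (by linarith)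
  have eq1 : p + (q - p) = q := by ring
  have hup := int_up' hh0 (FC_cont a b T) hF0 p (m + 2) (A := fun j => (α0 + α1 * (p + j * h)) * G01 a b + ε / 4)
    (fun j hj => by
      have := (abs_le.1 (hT j hj)).2
      show _ ≤ (α0 + α1 * (p + j * h)) * G01 a b + ε / 4
      linarith) (l := q - p) hqp0.le (by
      push_cast
      rw [← hn, hnh])
  have hlow := int_low' hh0 (FC_cont a b T) hF0 p m (A := fun j => (α0 + α1 * (p + h + j * h)) * G01 a b - ε / 4)
    (fun j hj => by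
      have hj' : j + 1 ∈ Finset.range (m + 3) := by
        rw [Finset.mem_range] at hj ⊢
        omega
      have h1 := (abs_le.1 (hT (j + 1) hj')).1
      have e1 : p + ((j + 1 : ℕ) : ℝ) * h = p + h + j * h := by push_cast; ring
      rw [e1] at h1
      show (α0 + α1 * (p + h + j * h)) * G01 a b - ε / 4 ≤ _
      linarith) (l := q - p) (by rw [← hn, hnh])
  rw [eq1] at hup hlow
  have s1 : ∑ j ∈ Finset.range (m + 2 + 1), h * ((α0 + α1 * (p + j * h)) * G01 a b + ε / 4) =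
      h * (((n + 1) * (α0 + α1 * (p + n * h / 2))) * G01 a b + (n + 1) * (ε / 4)) := by
    have e0 : ∀ j : ℕ, α0 + α1 * (p + j * h) = (α0 + α1 * p) + j * (α1 * h) := fun j => by ring
    simp_rw [e0]
    rw [← Finset.mul_sum, Finset.sum_add_distrib, ← Finset.sum_mul, sum_arith, Finset.sum_const, Finset.card_range,
      nsmul_eq_mul]
    push_cast
    rw [← hn]
    ring
  have s2 : ∑ j ∈ Finset.range (m + 1), h * ((α0 + α1 * (p + h + j * h)) * G01 a b - ε / 4) =
      h * (((n - 1) * (α0 + α1 * (p + n * h / 2))) * G01 a b - (n - 1) * (ε / 4)) := by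
    have e0 : ∀ j : ℕ, α0 + α1 * (p + h + j * h) = (α0 + α1 * (p + h)) + j * (α1 * h) := fun j => by ring
    simp_rw [e0]
    rw [← Finset.mul_sum, Finset.sum_sub_distrib, ← Finset.sum_mul, sum_arith, Finset.sum_const, Finset.card_range,
      nsmul_eq_mul]
    have e1 : (m : ℝ) = n - 2 := by rw [hn]; ring
    push_cast
    rw [e1]
    ring
  rw [s1] at hup
  rw [s2] at hlow
  have e2 : p + n * h / 2 = (p + q) / 2 := by rw [hnh]; ring
  rw [e2] at hup hlow
  obtain ⟨v, hv⟩ : ∃ v, v = α0 + α1 * ((p + q) / 2) := ⟨_, rfl⟩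
  rw [← hv] at hup hlow
  have hv1 : |v| ≤ 1 := by
    rw [hv]
    exact hb _ ⟨by linarith, by linarith⟩
  have e3 : h * ((n + 1) * v * G01 a b + (n + 1) * (ε / 4)) =
      (q - p) * v * G01 a b + (q - p) * (ε / 4) + h * (v * G01 a b + ε / 4) := by
    rw [← hnh]; ring
  have e4 : h * ((n - 1) * v * G01 a b - (n - 1) * (ε / 4)) =
      (q - p) * v * G01 a b - (q - p) * (ε / 4) - h * (v * G01 a b - ε / 4) := by
    rw [← hnh]; ring
  rw [e3] at hup
  rw [e4] at hlow
  have e5 : (q - p) * v * G01 a b = G01 a b * (α0 * (q - p) + α1 * ((q ^ 2 - p ^ 2) / 2)) := by rw [hv]; ring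
  rw [e5] at hup hlow
  have h5 : |v * G01 a b| ≤ 1 := by
    rw [abs_mul, abs_of_nonneg hG0]
    exact mul_le_one₀ hv1 hG0 hG1
  have h7 : (q - p) * (ε / 4) ≤ ε / 4 := by nlinarith
  have h8 : |h * (v * G01 a b)| ≤ ε / 4 := by
    rw [abs_mul, abs_of_pos hh0]
    exact (mul_le_of_le_one_right hh0.le h5).trans hhε
  have h9 : h * (ε / 4) ≤ ε / 4 := by nlinarith
  have h10 : 0 ≤ h * (ε / 4) := by positivity
  have h8' := abs_le.1 h8
  rw [abs_le]
  constructor
  · linarith [h8'.1, h8'.2]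
  · linarith [h8'.1, h8'.2]

/-- **the form factor of a class in `(1, 2)` under the alternative hypothesis in a class** -/
theorem lat_int (RH : RiemannHypothesis) {a b a' b' : ℝ} (ha : a < a') (hb : b' < b) (hab' : a' < b')
    (h : LatC a b) {p q : ℝ} (hp : 1 < p) (hpq : p < q) (hq : q < 2) {ε : ℝ} (hε : 0 < ε) :
    ∀ᶠ T : ℝ in atTop,
    |(∫ α in p..q, FC a' b' α T) - G01 a' b' * (((2 - p) ^ 2 - (2 - q) ^ 2) / 2)| ≤ ε := by
  have h1 := int_aff (a := a') (b := b') hpq (by linarith) (α0 := 2) (α1 := -1) (fun x hx => by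
    rw [abs_le]
    constructor <;> linarith [hx.1, hx.2]) (h0 := min (p - 1) (2 - q) / 2) (by
      have : 0 < min (p - 1) (2 - q) := lt_min (by linarith) (by linarith)
      positivity) (fun w u hw hw0 hu1 hu2 ε hε => by
    have g0 : 0 < min (p - 1) (2 - q) := lt_min (by linarith) (by linarith)
    have g1 := min_le_left (p - 1) (2 - q)
    have g2 := min_le_right (p - 1) (2 - q)
    have := lat_tent RH ha hb hab' h hw (u := u) (by linarith) (by linarith) hε
    filter_upwards [this] with T hT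
    have e1 : (2:ℝ) + -1 * u = 2 - u := by ring
    rw [e1]
    exact hT) hε
  filter_upwards [h1] with T hT
  have e1 : (2:ℝ) * (q - p) + -1 * ((q ^ 2 - p ^ 2) / 2) = ((2 - p) ^ 2 - (2 - q) ^ 2) / 2 := by ring
  rw [e1] at hT
  exact hT

end

end Run7.h911.PQ
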