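import Pool.Agent.Y745.SW.Blk4

set_option autoImplicit false

/-! # The local pair sums for a general test function (helper911)

The proofs follow `Pool.Agent.Y745.SW.Blk4`, where the test function is a fixed one. -/

namespace Run7.h911.PQ

open Filter Topology MeasureTheory Complex H370 TH803UC TH803CL
open Pool.Agent.Y745.SW

noncomputable section

section

variable {B : ℝ → ℝ} {c : ℕ → ℂ} {ε τ η K T U1 U2 : ℝ}

/-- the pair term for a general test function -/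
lemma pair_termR (hB : Continuous B) (hMN : P_MN) (he : ∀ ξ, B (-ξ) = B ξ) (hε : 0 < ε) (hε2 : ε < 1 / 2) (hτ : 0 < τ)
    (hτε : τ ≤ ε / 4) (hη : 0 < η) (hL : 0 < Real.log T)
    {R : ℝ → ℝ} {R0 Rm : ℝ} (hRc : Continuous R) (hRle : ∀ x ∈ Set.Icc (0:ℝ) 1, 0 ≤ R x ∧ R x ≤ Rm) (h00 : 0 ≤ R0)
    (hRl : ∀ x ∈ Set.Icc (0:ℝ) (4 * τ), R x ≤ R0) {t : ℝ}
    (hEF : ∀ u : ℝ, 0 ≤ u → u ≤ (1 - ε) * Real.log T →
      ‖St B (τ * Real.log T) U1 U2 u t - cexp (I * u * t) * ((Mu B (τ * Real.log T) (Real.log T) u : ℝ) -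
        DPp c B (τ * Real.log T) u (XT ε T) t - DPm c B (τ * Real.log T) u (XT ε T) t)‖ ≤ 1 / 2)
    (hMs : ∀ u : ℝ, 2 * (τ * Real.log T) ≤ u → |Mu B (τ * Real.log T) (Real.log T) u| ≤ 1 / 2) :
    2 * ∫ x in (0:ℝ)..1, R x * ‖St B (τ * Real.log T) U1 U2 ((1 - ε) * Real.log T * x) t‖ ^ 2 ≤
      (1 + η) * (R0 / ((1 - ε) * τ) * ∫ ξ in (-1:ℝ)..1, B ξ ^ 2) +
      (1 + 1 / η) * (2 * Rm * ∫ x in (0:ℝ)..(4 * τ),
        Gd B (τ * Real.log T) (Real.log T) U1 U2 ((1 - ε) * Real.log T * x) t) +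
      (1 + η) * Dq R c B ε τ (4 * τ) T t + (1 + 1 / η) * (2 * Rm) := by
  set L := Real.log T with hLd
  set a := τ * L with ha
  set Λ := (1 - ε) * L with hΛ
  have ha0 : 0 < a := mul_pos hτ hL
  have hΛ0 : 0 < Λ := mul_pos (by linarith) hL
  have h4τ : 4 * τ ≤ 1 := by linarith
  have h4τ0 : 0 ≤ 4 * τ := by linarith
  have hRm0 : 0 ≤ Rm := (hRle 0 (by simp)).1.trans (hRle 0 (by simp)).2
  have hSc : Continuous (fun x : ℝ => R x * ‖St B a U1 U2 (Λ * x) t‖ ^ 2) := by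
    have h1 := (St_cont hB a U1 U2).comp (f := fun x : ℝ => (Λ * x, t)) (by fun_prop)
    simp only [Function.comp_def] at h1
    exact hRc.mul (h1.norm.pow 2)
  have hGc : Continuous (fun x : ℝ => Gd B a L U1 U2 (Λ * x) t) := by
    have h1 := (Gd_cont hB a L U1 U2).comp (f := fun x : ℝ => (Λ * x, t)) (by fun_prop)
    simpa only [Function.comp_def] using h1
  have hMc : Continuous (fun x : ℝ => Mu B a L (Λ * x)) := (Mu_cont hB a L).comp (by fun_prop)
  have hDc : Continuous (fun x : ℝ => DPq c B a (Λ * x) (XT ε T) t) := by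
    have h1 := (DPq_cont c hB a (XT ε T)).comp (f := fun x : ℝ => (Λ * x, t)) (by fun_prop)
    simpa only [Function.comp_def] using h1
  have hnorm : ∀ u : ℝ, ‖cexp (I * u * t)‖ = 1 := by
    intro u
    have : I * (u : ℂ) * t = ((u * t : ℝ) : ℂ) * I := by push_cast; ring
    rw [this, Complex.norm_exp_ofReal_mul_I]
  rw [← intervalIntegral.integral_add_adjacent_intervals (b := 4 * τ) (hSc.intervalIntegrable _ _)
    (hSc.intervalIntegrable _ _), mul_add]
  -- small frequencies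
  have hlow : 2 * ∫ x in (0:ℝ)..(4 * τ), R x * ‖St B a U1 U2 (Λ * x) t‖ ^ 2 ≤
      (1 + η) * (R0 / ((1 - ε) * τ) * ∫ ξ in (-1:ℝ)..1, B ξ ^ 2) +
      (1 + 1 / η) * (2 * Rm * ∫ x in (0:ℝ)..(4 * τ), Gd B a L U1 U2 (Λ * x) t) := by
    have h1 : ∫ x in (0:ℝ)..(4 * τ), R x * ‖St B a U1 U2 (Λ * x) t‖ ^ 2 ≤
        ∫ x in (0:ℝ)..(4 * τ), ((1 + η) * (R x * Mu B a L (Λ * x) ^ 2) + (1 + 1 / η) * (Rm *
          Gd B a L U1 U2 (Λ * x) t)) := by
      refine intervalIntegral.integral_mono_on h4τ0 (hSc.intervalIntegrable _ _) ?_ fun x hx => ?_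
      · exact ((continuous_const.mul (hRc.mul (hMc.pow 2))).add
          (continuous_const.mul (continuous_const.mul hGc))).intervalIntegrable _ _
      · have hx1 : x ∈ Set.Icc (0:ℝ) 1 := ⟨hx.1, hx.2.trans h4τ⟩
        obtain ⟨r0, r1⟩ := hRle x hx1
        have h2 : ‖St B a U1 U2 (Λ * x) t‖ ≤ |Mu B a L (Λ * x)| +
            ‖St B a U1 U2 (Λ * x) t - cexp (I * (Λ * x : ℝ) * t) * (Mu B a L (Λ * x) : ℝ)‖ := by
          have e : ‖cexp (I * (Λ * x : ℝ) * t) * (Mu B a L (Λ * x) : ℝ)‖ = |Mu B a L (Λ * x)| := by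
            rw [norm_mul, hnorm, one_mul, Complex.norm_real, Real.norm_eq_abs]
          rw [← e]
          refine le_trans ?_ (norm_add_le _ _)
          rw [add_sub_cancel]
        have h3 : ‖St B a U1 U2 (Λ * x) t‖ ^ 2 ≤ (1 + η) * Mu B a L (Λ * x) ^ 2 + (1 + 1 / η) *
            Gd B a L U1 U2 (Λ * x) t := by
          refine (pow_le_pow_left₀ (norm_nonneg _) h2 2).trans ?_
          have := sq_split (x := |Mu B a L (Λ * x)|)
            (y := ‖St B a U1 U2 (Λ * x) t - cexp (I * (Λ * x : ℝ) * t) * (Mu B a L (Λ * x) : ℝ)‖) hη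
          rw [sq_abs] at this
          exact this
        have hG0 : 0 ≤ Gd B a L U1 U2 (Λ * x) t := by unfold Gd; positivity
        have hη1 : 0 ≤ 1 + 1 / η := by positivity
        calc R x * ‖St B a U1 U2 (Λ * x) t‖ ^ 2 ≤ R x * ((1 + η) * Mu B a L (Λ * x) ^ 2 + (1 + 1 / η) *
            Gd B a L U1 U2 (Λ * x) t) := mul_le_mul_of_nonneg_left h3 r0
          _ = (1 + η) * (R x * Mu B a L (Λ * x) ^ 2) + (1 + 1 / η) * (R x * Gd B a L U1 U2 (Λ * x) t) := by ring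
          _ ≤ _ := by gcongr
    have h2 : ∫ x in (0:ℝ)..(4 * τ), ((1 + η) * (R x * Mu B a L (Λ * x) ^ 2) + (1 + 1 / η) * (Rm *
          Gd B a L U1 U2 (Λ * x) t)) = (1 + η) * (∫ x in (0:ℝ)..(4 * τ), R x * Mu B a L (Λ * x) ^ 2) +
          (1 + 1 / η) * (Rm * ∫ x in (0:ℝ)..(4 * τ), Gd B a L U1 U2 (Λ * x) t) := by
      rw [intervalIntegral.integral_add, intervalIntegral.integral_const_mul, intervalIntegral.integral_const_mul,
        intervalIntegral.integral_const_mul]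
      · exact (continuous_const.mul (hRc.mul (hMc.pow 2))).intervalIntegrable _ _
      · exact (continuous_const.mul (continuous_const.mul hGc)).intervalIntegrable _ _
    have h3 : 2 * ∫ x in (0:ℝ)..(4 * τ), R x * Mu B a L (Λ * x) ^ 2 ≤
        R0 / ((1 - ε) * τ) * ∫ ξ in (-1:ℝ)..1, B ξ ^ 2 := by
      have hRt : Continuous (fun x => min (R x) R0) := hRc.min continuous_const
      have h4 := hMN B (fun x => min (R x) R0) R0 hB he hRt
        (fun x hx => ⟨le_min (hRle x hx).1 h00, min_le_right _ _⟩) a L Λ ha0 hL hΛ0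
      have e : R0 * (L ^ 2 / (Λ * a)) = R0 / ((1 - ε) * τ) := by
        rw [hΛ, ha]
        have : (1 - ε) ≠ 0 := by linarith
        field_simp
      rw [e] at h4
      have e2 : ∫ x in (0:ℝ)..(4 * τ), R x * Mu B a L (Λ * x) ^ 2 =
          ∫ x in (0:ℝ)..(4 * τ), min (R x) R0 * Mu B a L (Λ * x) ^ 2 := by
        refine intervalIntegral.integral_congr fun x hx => ?_
        rw [Set.uIcc_of_le h4τ0] at hx
        rw [min_eq_left (hRl x hx)]
      rw [e2]
      refine le_trans (mul_le_mul_of_nonneg_left ?_ (by norm_num)) h4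
      have e3 : ∫ x in (0:ℝ)..1, min (R x) R0 * Mu B a L (Λ * x) ^ 2 =
          (∫ x in (0:ℝ)..(4 * τ), min (R x) R0 * Mu B a L (Λ * x) ^ 2) +
          ∫ x in (4 * τ)..1, min (R x) R0 * Mu B a L (Λ * x) ^ 2 :=
        (intervalIntegral.integral_add_adjacent_intervals ((hRt.mul (hMc.pow 2)).intervalIntegrable _ _)
          ((hRt.mul (hMc.pow 2)).intervalIntegrable _ _)).symm
      have e4 : 0 ≤ ∫ x in (4 * τ)..1, min (R x) R0 * Mu B a L (Λ * x) ^ 2 :=
        intervalIntegral.integral_nonneg h4τ fun x hx => mul_nonneg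
          (le_min (hRle x ⟨h4τ0.trans hx.1, hx.2⟩).1 h00) (sq_nonneg _)
      linarith
    rw [h2] at h1
    have h5 := mul_le_mul_of_nonneg_left h3 (by positivity : (0:ℝ) ≤ 1 + η)
    linarith
  -- large frequencies
  have hhigh : 2 * ∫ x in (4 * τ)..1, R x * ‖St B a U1 U2 (Λ * x) t‖ ^ 2 ≤
      (1 + η) * Dq R c B ε τ (4 * τ) T t + (1 + 1 / η) * (2 * Rm) := by
    rw [Dq_eq hε hε2 hτ hτε le_rfl h4τ R hL]
    have h1 : ∫ x in (4 * τ)..1, R x * ‖St B a U1 U2 (Λ * x) t‖ ^ 2 ≤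
        ∫ x in (4 * τ)..1, ((1 + η) * (R x * ‖DPq c B a (Λ * x) (XT ε T) t‖ ^ 2) + (1 + 1 / η) * Rm) := by
      refine intervalIntegral.integral_mono_on h4τ (hSc.intervalIntegrable _ _) ?_ fun x hx => ?_
      · exact ((continuous_const.mul (hRc.mul (hDc.norm.pow 2))).add continuous_const).intervalIntegrable _ _
      · have hx1 : x ∈ Set.Icc (0:ℝ) 1 := ⟨h4τ0.trans hx.1, hx.2⟩
        obtain ⟨r0, r1⟩ := hRle x hx1
        have hu := u_ge hε hε2 hτ hτε le_rfl h4τ hL hx.1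
        have hu0 : 0 ≤ Λ * x := mul_nonneg hΛ0.le hx1.1
        have hu1 : Λ * x ≤ (1 - ε) * L := by
          calc Λ * x ≤ Λ * 1 := mul_le_mul_of_nonneg_left hx1.2 hΛ0.le
            _ = _ := by rw [mul_one]
        have h2 := hEF (Λ * x) hu0 hu1
        have h3 := hMs (Λ * x) hu
        rw [DPm_zero ha0 (by linarith), DPp_eq c B ha0 (by linarith), sub_zero] at h2
        have h4 : ‖St B a U1 U2 (Λ * x) t‖ ≤ ‖DPq c B a (Λ * x) (XT ε T) t‖ + 1 := by
          have h5 : ‖cexp (I * (Λ * x : ℝ) * t) * ((Mu B a L (Λ * x) : ℝ) - DPq c B a (Λ * x) (XT ε T) t)‖ ≤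
              1 / 2 + ‖DPq c B a (Λ * x) (XT ε T) t‖ := by
            rw [norm_mul, hnorm, one_mul]
            refine (norm_sub_le _ _).trans ?_
            rw [Complex.norm_real, Real.norm_eq_abs]
            linarith
          have h6 : ‖St B a U1 U2 (Λ * x) t‖ ≤ ‖St B a U1 U2 (Λ * x) t - cexp (I * (Λ * x : ℝ) * t) *
              ((Mu B a L (Λ * x) : ℝ) - DPq c B a (Λ * x) (XT ε T) t)‖ +
              ‖cexp (I * (Λ * x : ℝ) * t) * ((Mu B a L (Λ * x) : ℝ) - DPq c B a (Λ * x) (XT ε T) t)‖ := by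
            refine le_trans ?_ (norm_add_le _ _)
            rw [sub_add_cancel]
          linarith
        have h7 : ‖St B a U1 U2 (Λ * x) t‖ ^ 2 ≤ (1 + η) * ‖DPq c B a (Λ * x) (XT ε T) t‖ ^ 2 + (1 + 1 / η) := by
          refine (pow_le_pow_left₀ (norm_nonneg _) h4 2).trans ?_
          have := sq_split (x := ‖DPq c B a (Λ * x) (XT ε T) t‖) (y := 1) hη
          linarith
        have hη1 : 0 ≤ 1 + 1 / η := by positivity
        calc R x * ‖St B a U1 U2 (Λ * x) t‖ ^ 2 ≤ R x * ((1 + η) * ‖DPq c B a (Λ * x) (XT ε T) t‖ ^ 2 +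
              (1 + 1 / η)) := mul_le_mul_of_nonneg_left h7 r0
          _ = (1 + η) * (R x * ‖DPq c B a (Λ * x) (XT ε T) t‖ ^ 2) + (1 + 1 / η) * R x := by ring
          _ ≤ _ := by gcongr
    have h2 : ∫ x in (4 * τ)..1, ((1 + η) * (R x * ‖DPq c B a (Λ * x) (XT ε T) t‖ ^ 2) + (1 + 1 / η) * Rm) =
        (1 + η) * (∫ x in (4 * τ)..1, R x * ‖DPq c B a (Λ * x) (XT ε T) t‖ ^ 2) + (1 - 4 * τ) *
          ((1 + 1 / η) * Rm) := by
      rw [intervalIntegral.integral_add, intervalIntegral.integral_const_mul, intervalIntegral.integral_const,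
        smul_eq_mul]
      · exact (continuous_const.mul (hRc.mul (hDc.norm.pow 2))).intervalIntegrable _ _
      · exact continuous_const.intervalIntegrable _ _
    rw [h2] at h1
    have h3 : (1 - 4 * τ) * ((1 + 1 / η) * Rm) ≤ (1 + 1 / η) * Rm := by
      have : 0 ≤ (1 + 1 / η) * Rm := mul_nonneg (by positivity) hRm0
      nlinarith
    linarith
  linarith

/-- the integrated pair term -/
lemma int_upper (hB : Continuous B) (he : ∀ ξ, B (-ξ) = B ξ) (hMN : P_MN) (hε : 0 < ε)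
    (hε2 : ε < 1 / 2) (hτ : 0 < τ) (hτε : τ ≤ ε / 4) (hη : 0 < η) {L CS : ℝ} (hLd : L = Real.log T) (hL0 : 0 < L)
    (hT : T + L ≤ 2 * T - L) {R : ℝ → ℝ} {R0 Rm : ℝ} (hRc : Continuous R)
    (hRle : ∀ x ∈ Set.Icc (0:ℝ) 1, 0 ≤ R x ∧ R x ≤ Rm) (h00 : 0 ≤ R0) (hRl : ∀ x ∈ Set.Icc (0:ℝ) (4 * τ), R x ≤ R0)
    (hEF : ∀ t u : ℝ, T + L ≤ t → t ≤ 2 * T - L → 0 ≤ u → u ≤ (1 - ε) * L →
      ‖St B (τ * L) U1 U2 u t - cexp (I * u * t) * ((Mu B (τ * L) L u : ℝ) -
        DPp c B (τ * L) u (XT ε T) t - DPm c B (τ * L) u (XT ε T) t)‖ ≤ 1 / 2)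
    (hMs : ∀ u : ℝ, 2 * (τ * L) ≤ u → |Mu B (τ * L) L u| ≤ 1 / 2) (hCS : 0 < CS)
    (hSM : ∀ u : ℝ, 0 ≤ u → u ≤ (1 - ε) * L →
      ∫ t in (T + L)..(2 * T - L), ‖St B (τ * L) U1 U2 u t - cexp (I * u * t) * (Mu B (τ * L) L u : ℝ)‖ ^ 2 ≤
      CS * K ^ 2 * (T * (1 + u / (τ * L))))
    {S : Set ℝ} (hS : MeasurableSet S) (hSI : S ⊆ Set.Icc (T + L) (2 * T - L)) :
    ∫ t in S, (2 * ∫ x in (0:ℝ)..1, R x * ‖St B (τ * L) U1 U2 ((1 - ε) * L * x) t‖ ^ 2) ≤
      volume.real S * ((1 + η) * (R0 / ((1 - ε) * τ) * ∫ ξ in (-1:ℝ)..1, B ξ ^ 2) + (1 + 1 / η) * (2 * Rm)) +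
      (1 + 1 / η) * (2 * Rm) * (20 * τ * (CS * K ^ 2 * T)) + (1 + η) * (∫ t in S, Dq R c B ε τ (4 * τ) T t) := by
  have hτL : 0 < τ * L := mul_pos hτ hL0
  have hT0 : 0 < T := by linarith
  have h4τ : 4 * τ ≤ 1 := by linarith
  have h4τ0 : 0 ≤ 4 * τ := by linarith
  have hRm0 : 0 ≤ Rm := (hRle 0 (by simp)).1.trans (hRle 0 (by simp)).2
  set g2 : ℝ → ℝ := fun t => ∫ x in (0:ℝ)..(4 * τ), Gd B (τ * L) L U1 U2 ((1 - ε) * L * x) t with hg2
  have hGc2 : Continuous (Function.uncurry fun t x : ℝ => Gd B (τ * L) L U1 U2 ((1 - ε) * L * x) t) := by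
    exact (Gd_cont hB (τ * L) L U1 U2).comp (f := fun p : ℝ × ℝ => ((1 - ε) * L * p.2, p.1)) (by fun_prop)
  have hg2c : Continuous g2 := by
    apply intervalIntegral.continuous_parametric_intervalIntegral_of_continuous'
    exact hGc2
  have hDc : Continuous (fun t : ℝ => Dq R c B ε τ (4 * τ) T t) :=
    Dq_cont hB hε hε2 hτ hτε le_rfl h4τ hRc (by rw [← hLd]; exact hL0)
  have hSS : Continuous (fun t : ℝ => 2 * ∫ x in (0:ℝ)..1, R x * ‖St B (τ * L) U1 U2 ((1 - ε) * L * x) t‖ ^ 2) := by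
    refine continuous_const.mul ?_
    apply intervalIntegral.continuous_parametric_intervalIntegral_of_continuous'
    have h1 := (St_cont hB (τ * L) U1 U2).comp (f := fun p : ℝ × ℝ => ((1 - ε) * L * p.2, p.1)) (by fun_prop)
    simp only [Function.comp_def] at h1
    exact (hRc.comp continuous_snd).mul (h1.norm.pow 2)
  set Mb := R0 / ((1 - ε) * τ) * ∫ ξ in (-1:ℝ)..1, B ξ ^ 2 with hMb
  set q := (1 + 1 / η) * (2 * Rm) with hq
  have hq0 : 0 ≤ q := mul_nonneg (by positivity) (mul_nonneg (by norm_num) hRm0)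
  have hpt : ∀ t ∈ S, (2 * ∫ x in (0:ℝ)..1, R x * ‖St B (τ * L) U1 U2 ((1 - ε) * L * x) t‖ ^ 2) ≤
      ((1 + η) * Mb + q) + q * g2 t + (1 + η) * Dq R c B ε τ (4 * τ) T t := by
    intro t ht
    obtain ⟨ht1, ht2⟩ := hSI ht
    have h2 := pair_termR (B := B) (c := c) (ε := ε) (τ := τ) (η := η) (T := T) (U1 := U1) (U2 := U2) hB hMN
      he hε hε2 hτ hτε hη (by rw [← hLd]; exact hL0) hRc hRle h00 hRl (t := t)
      (by rw [← hLd]; exact fun u h3 h4 => hEF t u ht1 ht2 h3 h4) (by rw [← hLd]; exact hMs)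
    rw [← hLd] at h2
    have h4 : q * g2 t = (1 + 1 / η) * (2 * Rm * g2 t) := by rw [hq]; ring
    rw [h4]
    simp only [hg2, hq]
    linarith
  have hcI : ∀ f : ℝ → ℝ, Continuous f → IntegrableOn f S := fun f hf =>
    (hf.continuousOn.integrableOn_compact isCompact_Icc).mono_set hSI
  have hmono := setIntegral_mono_on (μ := volume) (s := S) (hcI _ hSS)
    (hcI (fun t => ((1 + η) * Mb + q) + q * g2 t + (1 + η) * Dq R c B ε τ (4 * τ) T t) (by fun_prop)) hS hpt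
  have hI1 : IntegrableOn (fun _ : ℝ => (1 + η) * Mb + q) S := hcI _ continuous_const
  have hI2 : IntegrableOn (fun t : ℝ => q * g2 t) S := hcI _ (by fun_prop)
  have hI3 : IntegrableOn (fun t : ℝ => (1 + η) * Dq R c B ε τ (4 * τ) T t) S := hcI _ (by fun_prop)
  have hI12 : IntegrableOn (fun t : ℝ => ((1 + η) * Mb + q) + q * g2 t) S := hI1.add hI2
  have e2 : ∫ t in S, q * g2 t = q * ∫ t in S, g2 t := integral_const_mul _ _
  have e3 : ∫ t in S, (1 + η) * Dq R c B ε τ (4 * τ) T t = (1 + η) * ∫ t in S, Dq R c B ε τ (4 * τ) T t :=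
    integral_const_mul _ _
  rw [integral_add hI12 hI3, integral_add hI1 hI2, setIntegral_const, smul_eq_mul, e2, e3] at hmono
  have hb2 : ∫ t in S, g2 t ≤ 20 * τ * (CS * K ^ 2 * T) := by
    have hg20 : ∀ t, 0 ≤ g2 t := fun t => intervalIntegral.integral_nonneg h4τ0 fun x _ => by
      unfold Gd; positivity
    have h1 : ∫ t in S, g2 t ≤ ∫ t in Set.Icc (T + L) (2 * T - L), g2 t :=
      setIntegral_mono_set (hg2c.continuousOn.integrableOn_compact isCompact_Icc)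
        (Filter.Eventually.of_forall hg20) (Filter.Eventually.of_forall hSI)
    have h2 : ∫ t in Set.Icc (T + L) (2 * T - L), g2 t =
        ∫ x in (0:ℝ)..(4 * τ), ∫ t in (T + L)..(2 * T - L), Gd B (τ * L) L U1 U2 ((1 - ε) * L * x) t := by
      rw [integral_Icc_eq_integral_Ioc, ← intervalIntegral.integral_of_le hT]
      refine MeasureTheory.intervalIntegral_intervalIntegral_swap ?_
      refine (hGc2.continuousOn.integrableOn_compact (K := Set.uIcc (T + L) (2 * T - L) ×ˢ Set.uIcc 0 (4 * τ)) ?_).mono_set ?_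
      · exact isCompact_uIcc.prod isCompact_uIcc
      · exact Set.prod_mono Set.uIoc_subset_uIcc Set.uIoc_subset_uIcc
    have h3 : ∫ x in (0:ℝ)..(4 * τ), ∫ t in (T + L)..(2 * T - L), Gd B (τ * L) L U1 U2 ((1 - ε) * L * x) t ≤
        ∫ _x in (0:ℝ)..(4 * τ), 5 * (CS * K ^ 2 * T) := by
      refine intervalIntegral.integral_mono_on h4τ0 ?_ (by simp) fun x hx => ?_
      · refine Continuous.intervalIntegrable ?_ _ _
        apply intervalIntegral.continuous_parametric_intervalIntegral_of_continuous'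
        exact (Gd_cont hB (τ * L) L U1 U2).comp (f := fun p : ℝ × ℝ => ((1 - ε) * L * p.1, p.2)) (by fun_prop)
      · have hx1 : x ≤ 1 := hx.2.trans h4τ
        have hΛ : 0 ≤ (1 - ε) * L := mul_nonneg (by linarith) hL0.le
        have h4 := hSM ((1 - ε) * L * x) (mul_nonneg hΛ hx.1) (by
          calc (1 - ε) * L * x ≤ (1 - ε) * L * 1 := mul_le_mul_of_nonneg_left hx1 hΛ
            _ = _ := mul_one _)
        refine h4.trans ?_
        have h5 : (1 - ε) * L * x / (τ * L) ≤ 4 := by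
          rw [div_le_iff₀ hτL]
          have h6 : (1 - ε) * L * x ≤ 1 * L * (4 * τ) := by
            have := hx.2
            have := hx.1
            gcongr
            linarith
          linarith
        have h6 : T * (1 + (1 - ε) * L * x / (τ * L)) ≤ T * 5 :=
          mul_le_mul_of_nonneg_left (by linarith) hT0.le
        calc CS * K ^ 2 * (T * (1 + (1 - ε) * L * x / (τ * L))) ≤ CS * K ^ 2 * (T * 5) :=
              mul_le_mul_of_nonneg_left h6 (by positivity)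
          _ = _ := by ring
    rw [intervalIntegral.integral_const, smul_eq_mul, sub_zero] at h3
    rw [h2] at h1
    refine h1.trans (h3.trans (le_of_eq ?_))
    ring
  have hc2 : q * ∫ t in S, g2 t ≤ q * (20 * τ * (CS * K ^ 2 * T)) := mul_le_mul_of_nonneg_left hb2 hq0
  linarith

end

end

end Run7.h911.PQ
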