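import Pool.Agent.Run7.h911.PQ9

set_option autoImplicit false

/-! # Pairs with the members in two size classes (helper911) -/

namespace Run7.h911.PQ

open Filter Topology MeasureTheory Complex
open H370 (Zf mult good_zeta)
open Run7.h911.SZ (siz yp Bk G01 G01_nonneg G01_le)
open Pool.Agent.R304.UP (nn nn_nonneg)
open Pool.Agent.Y745.SW (Px)

noncomputable section

/-- a regular ordinate -/
def reg (X : Set ℝ) (T y : ℝ) : Prop := ¬ badO X y ∧ T + 2 * Real.log T ≤ y ∧ y ≤ 2 * T - 2 * Real.log T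

lemma rh_neg (R : ℝ → ℝ) (w : ℝ) : rh R (-w) = rh R w := by
  unfold rh
  congr 1
  refine intervalIntegral.integral_congr fun x _ => ?_
  show R x * Real.cos (-w * x) = R x * Real.cos (w * x)
  rw [neg_mul, Real.cos_neg]

lemma pw_symm (R : ℝ → ℝ) (T : ℝ) (s s' : ℂ) : pw R T s s' = pw R T s' s := by
  unfold pw
  rw [← rh_neg R (Real.log T * (s.im - s'.im))]
  have e : -(Real.log T * (s.im - s'.im)) = Real.log T * (s'.im - s.im) := by ring
  rw [e]
  ring

open Classical in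
/-- **the exceptional pairs** -/
lemma exc_pairs (RH : RiemannHypothesis) {R : ℝ → ℝ} {κ : ℝ} (hR : TF R κ) {ε : ℝ} (hε : 0 < ε) :
    ∃ k : ℝ, 2 ≤ k ∧ ∃ κ0 : ℝ, 0 < κ0 ∧ ∀ᶠ T : ℝ in atTop, ∀ X : Set ℝ, MeasurableSet X →
      volume X ≤ ENNReal.ofReal (κ0 * T) →
      ∑ s ∈ Zf riemannZeta T (2 * T), ∑ s' ∈ Zf riemannZeta T (2 * T),
        (if |s'.im - s.im| ≤ k / Real.log T ∧ reg X T s.im ∧ reg X T s'.im then 0 else pw R T s s') ≤
      ε * (T * (Real.log T / (2 * Real.pi))) := by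
  have hRH := rhs_of RH
  have hpi := Real.pi_pos
  obtain ⟨A, hA0, hA⟩ := hR.A
  obtain ⟨k, hk2, hfar⟩ := far_W RH hR (show 0 < ε / 4 by positivity)
  obtain ⟨ε2, hε2⟩ : ∃ ε2, ε2 = ε / (4 * (A + 1) * (2 * Real.pi)) := ⟨_, rfl⟩
  have hε20 : 0 < ε2 := by rw [hε2]; positivity
  obtain ⟨κ0, hκ0, hbad⟩ := bad_few hRH hε20
  refine ⟨k, hk2, κ0, hκ0, ?_⟩
  filter_upwards [hfar, hbad, eventually_ge_atTop 10] with T tfar tbad tT
  intro X hXm hXv
  obtain ⟨Y, hY⟩ : ∃ Y, Y = T * (Real.log T / (2 * Real.pi)) := ⟨_, rfl⟩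
  rw [← hY] at tfar ⊢
  have hL0 : 0 < Real.log T := Real.log_pos (by linarith)
  have hY0 : 0 < Y := by rw [hY]; positivity
  obtain ⟨Z, hZ⟩ : ∃ Z, Z = Zf riemannZeta T (2 * T) := ⟨_, rfl⟩
  rw [← hZ] at tfar tbad ⊢
  have h1 : ∀ s s' : ℂ, (if |s'.im - s.im| ≤ k / Real.log T ∧ reg X T s.im ∧ reg X T s'.im then 0 else pw R T s s') ≤
      (if ¬ |s'.im - s.im| ≤ k / Real.log T then pw R T s s' else 0) + (if ¬ reg X T s.im then pw R T s s' else 0) +
        (if ¬ reg X T s'.im then pw R T s s' else 0) := by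
    intro s s'
    have h0 := pw_nonneg hR T s s'
    by_cases c1 : |s'.im - s.im| ≤ k / Real.log T <;> by_cases c2 : reg X T s.im <;> by_cases c3 : reg X T s'.im <;>
      simp [c1, c2, c3, h0]
  have h2 : ∑ s ∈ Z.filter (fun s => ¬ reg X T s.im), Wt R T s ≤ ε / 4 * Y := by
    have q1 := tbad X hXm hXv (Z.filter (fun s => ¬ reg X T s.im)) (Finset.filter_subset _ _)
      (fun s hs => by
        rw [Finset.mem_filter] at hs
        by_contra hcon
        push Not at hcon
        exact hs.2 ⟨hcon.1, hcon.2.1, hcon.2.2⟩)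
    calc ∑ s ∈ Z.filter (fun s => ¬ reg X T s.im), Wt R T s ≤
        ∑ s ∈ Z.filter (fun s => ¬ reg X T s.im), A * ((mult riemannZeta s : ℝ) * nn T s) :=
          Finset.sum_le_sum fun s _ => Wt_le hA T s
      _ = A * ∑ s ∈ Z.filter (fun s => ¬ reg X T s.im), (mult riemannZeta s : ℝ) * nn T s := by rw [Finset.mul_sum]
      _ ≤ A * (ε2 * (T * Real.log T)) := mul_le_mul_of_nonneg_left q1 hA0
      _ = A / (A + 1) * (ε / 4 * Y) := by rw [hε2, hY]; field_simp
      _ ≤ 1 * (ε / 4 * Y) := by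
          apply mul_le_mul_of_nonneg_right _ (by positivity)
          rw [div_le_one (by positivity)]; linarith
      _ = _ := one_mul _
  have h3 : ∑ s ∈ Z, ∑ s' ∈ Z, (if ¬ |s'.im - s.im| ≤ k / Real.log T then pw R T s s' else 0) ≤ ε / 4 * Y := by
    refine le_trans (le_of_eq ?_) tfar
    exact Finset.sum_congr rfl fun s _ => (Finset.sum_filter _ _).symm
  have h4 : ∑ s ∈ Z, ∑ s' ∈ Z, (if ¬ reg X T s.im then pw R T s s' else 0) ≤ ε / 4 * Y := by
    refine le_trans (le_of_eq ?_) h2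
    rw [Finset.sum_filter]
    refine Finset.sum_congr rfl fun s _ => ?_
    by_cases c : reg X T s.im
    · simp [c]
    · simp only [c, not_false_eq_true, if_true]
      unfold Wt
      rw [← hZ]
  have h5 : ∑ s ∈ Z, ∑ s' ∈ Z, (if ¬ reg X T s'.im then pw R T s s' else 0) ≤ ε / 4 * Y := by
    rw [Finset.sum_comm]
    refine le_trans (le_of_eq ?_) h4
    exact Finset.sum_congr rfl fun s _ => Finset.sum_congr rfl fun s' _ => by rw [pw_symm]
  have h6 := Finset.sum_le_sum (s := Z) (f := fun s => ∑ s' ∈ Z, (if |s'.im - s.im| ≤ k / Real.log T ∧ reg X T s.im ∧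
    reg X T s'.im then 0 else pw R T s s')) (g := fun s => ∑ s' ∈ Z,
      ((if ¬ |s'.im - s.im| ≤ k / Real.log T then pw R T s s' else 0) + (if ¬ reg X T s.im then pw R T s s' else 0) +
        (if ¬ reg X T s'.im then pw R T s s' else 0))) fun s _ => Finset.sum_le_sum fun s' _ => h1 s s'
  simp only [Finset.sum_add_distrib] at h6
  have h7 : 0 < ε * Y := by positivity
  linarith

/-- from the size to the small primes -/
lemma of_nearO {X : Set ℝ} {y : ℝ} (h : 0 < Real.log y) (hg : ¬ badO X y) {a b : ℝ}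
    (hn : NearO a b y) : ∃ t ∈ wn y, t ∉ X ∧ a < siz t ∧ siz t < b := by
  by_contra hcon
  push Not at hcon
  unfold NearO at hn
  have h1 : volume.real (X ∩ wn y) ≤ 1 / 10 * (2 / Real.log y) := by
    unfold badO at hg
    push Not at hg
    exact ENNReal.toReal_le_of_le_ofReal (by positivity) hg
  have h2 : volume.real {t : ℝ | t ∈ wn y ∧ a < siz t ∧ siz t < b} ≤ volume.real (X ∩ wn y) := by
    refine measureReal_mono (fun t ht => ⟨?_, ht.1⟩) ?_
    · by_contra hX
      have := hcon t ht.1 hX ht.2.1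
      linarith [ht.2.2]
    · exact ne_top_of_le_ne_top (by rw [(wn_vol h).1]; exact ENNReal.ofReal_ne_top) (measure_mono Set.inter_subset_right)
  have h3 : 0 < 2 / Real.log y := by positivity
  linarith

/-- the small primes near an ordinate of a class -/
lemma clsP {a a' b b' : ℝ} (ha : a < a') (hb : b' < b) : ∃ η0 : ℝ, 0 < η0 ∧ ∀ η W K : ℝ, η ≤ η0 → 0 < W → 0 < K →
    ∀ᶠ T : ℝ in atTop, ∀ X : Set ℝ, Bk T (K + 1) η W X → ∀ y : ℝ, T + Real.log T < y → y ≤ 2 * T - 1 →
      ¬ badO X y → ∀ t : ℝ, |t - y| ≤ K / Real.log T → NearO a' b' y → a < yp T t ∧ yp T t < b := by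
  obtain ⟨η0, hη0, h⟩ := Run7.h911.SZ.cmp ha hb
  refine ⟨η0, hη0, fun η W K hη hW hK => ?_⟩
  filter_upwards [h (W + 1) (by linarith), Run7.h911.SZ.ev_basic 1] with T hT hb
  obtain ⟨hT10, -, hL1, -⟩ := hb
  intro X hX y h1 h2 hg t hty h4
  obtain ⟨hv1, hv2, hv3⟩ := wn_sub hL1 (by linarith) h1 h2
  obtain ⟨t1, ht1, htX, h5, h5'⟩ := of_nearO hv2 hg h4
  have h6 := hX.lg t1 (hv1 ht1) htX 0 (by rw [abs_zero]; positivity)
  rw [add_zero] at h6
  have h7 := hX.bv t1 (hv1 ht1) htX (t - t1) (by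
    have e : t - t1 = (t - y) + (y - t1) := by ring
    rw [e, add_div]
    exact (abs_add_le _ _).trans (add_le_add hty (hv3 t1 ht1)))
  rw [add_sub_cancel] at h7
  have h8 := (Complex.abs_re_le_norm _).trans h7
  rw [Complex.sub_re] at h8
  have h9 : |Real.log ‖riemannZeta (1 / 2 + t1 * Complex.I)‖ - (Px T t).re| ≤
      (W + 1) + η0 * Real.sqrt (Real.log (Real.log T)) := by
    have e : Real.log ‖riemannZeta (1 / 2 + t1 * Complex.I)‖ - (Px T t).re =
      (Real.log ‖riemannZeta (1 / 2 + t1 * Complex.I)‖ - (Px T t1).re) - ((Px T t).re - (Px T t1).re) := by ring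
    rw [e]
    refine (abs_sub _ _).trans ?_
    have := mul_le_mul_of_nonneg_right hη (Real.sqrt_nonneg (Real.log (Real.log T)))
    linarith
  exact (hT t1 (hv1 ht1).1 (hv1 ht1).2 _ _ h9).2 h5 h5'

lemma Bk_mono {T K η η' W : ℝ} {X : Set ℝ} (h : Bk T K η W X) (hη : η ≤ η') : Bk T K η' W X where
  meas := h.meas
  bv := h.bv
  lg := fun t ht htX u hu => (h.lg t ht htX u hu).trans (by
    have := mul_le_mul_of_nonneg_right hη (Real.sqrt_nonneg (Real.log (Real.log T)))
    linarith)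

/-- **the classes of neighbours** -/
lemma cls2 {a b c d θ : ℝ} (hθ : 0 < θ) : ∃ η0 : ℝ, 0 < η0 ∧ ∀ W K : ℝ, 0 < W → 0 < K →
    ∀ᶠ T : ℝ in atTop, ∀ X : Set ℝ, Bk T (K + 1) η0 W X → ∀ y y' : ℝ, T + Real.log T < y → y ≤ 2 * T - 1 →
      T + Real.log T < y' → y' ≤ 2 * T - 1 → ¬ badO X y → ¬ badO X y' → |y' - y| ≤ K / Real.log T →
      (NearO a b y → NearO c d y' → NearO (max a c - θ) (min b d + θ) y) ∧
      (NearO a b y → NearO (a - θ) (b + θ) y') := by
  obtain ⟨η1, hη1, h1⟩ := clsP (a := a - θ / 2) (a' := a) (b := b + θ / 2) (b' := b) (by linarith) (by linarith)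
  obtain ⟨η2, hη2, h2⟩ := clsP (a := c - θ / 2) (a' := c) (b := d + θ / 2) (b' := d) (by linarith) (by linarith)
  obtain ⟨η3, hη3, h3⟩ := clsO (a := max a c - θ) (a' := max a c - θ / 2) (b := min b d + θ) (b' := min b d + θ / 2)
    (by linarith) (by linarith)
  obtain ⟨η4, hη4, h4⟩ := clsO (a := a - θ) (a' := a - θ / 2) (b := b + θ) (b' := b + θ / 2)
    (by linarith) (by linarith)
  obtain ⟨η0, hη0⟩ : ∃ η0, η0 = min (min η1 η2) (min η3 η4) := ⟨_, rfl⟩
  have e1 : η0 ≤ η1 := by rw [hη0]; exact (min_le_left _ _).trans (min_le_left _ _)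
  have e2 : η0 ≤ η2 := by rw [hη0]; exact (min_le_left _ _).trans (min_le_right _ _)
  have e3 : η0 ≤ η3 := by rw [hη0]; exact (min_le_right _ _).trans (min_le_left _ _)
  have e4 : η0 ≤ η4 := by rw [hη0]; exact (min_le_right _ _).trans (min_le_right _ _)
  refine ⟨η0, by rw [hη0]; positivity, fun W K hW hK => ?_⟩
  filter_upwards [h1 η0 W K e1 hW hK, h2 η0 W K e2 hW hK, h3 W K hW hK, h4 W K hW hK,
    Real.tendsto_log_atTop.eventually_ge_atTop 1] with T t1 t2 t3 t4 t5
  intro X hX y y' g1 g2 g3 g4 g5 g6 g7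
  have z0 : |y' - y'| ≤ K / Real.log T := by
    rw [sub_self, abs_zero]; exact div_nonneg hK.le (by linarith)
  have z1 : |y - y'| ≤ K / Real.log T := by rw [abs_sub_comm]; exact g7
  refine ⟨fun n1 n2 => ?_, fun n1 => ?_⟩
  · obtain ⟨a1, a2⟩ := t1 X hX y g1 g2 g5 y' g7 n1
    obtain ⟨a3, a4⟩ := t2 X hX y' g3 g4 g6 y' z0 n2
    refine t3 X (Bk_mono hX e3) y g1 g2 g5 y' g7 ?_ ?_
    · rcases max_cases a c with h | h
      · rw [h.1]; exact a1
      · rw [h.1]; exact a3
    · rcases min_cases b d with h | h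
      · rw [h.1]; exact a2
      · rw [h.1]; exact a4
  · obtain ⟨a1, a2⟩ := t1 X hX y g1 g2 g5 y' g7 n1
    exact t4 X (Bk_mono hX e4) y' g3 g4 g6 y' z0 a1 a2

lemma NearO_mono {a b c d y : ℝ} (h : 0 < Real.log y) (h1 : a ≤ c) (h2 : d ≤ b) (hn : NearO c d y) : NearO a b y := by
  unfold NearO at hn ⊢
  refine hn.trans (measureReal_mono ?_ ?_)
  · rintro t ⟨q1, q2, q3⟩
    exact ⟨q1, by linarith, by linarith⟩
  · exact ne_top_of_le_ne_top (by rw [(wn_vol h).1]; exact ENNReal.ofReal_ne_top) (measure_mono fun t ht => ht.1)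

lemma NearO_empty {a b y : ℝ} (h : 0 < Real.log y) (hab : b ≤ a) (hn : NearO a b y) : False := by
  unfold NearO at hn
  have e : {t : ℝ | t ∈ wn y ∧ a < siz t ∧ siz t < b} = ∅ := by
    ext t
    simp only [Set.mem_ofPred_eq, Set.mem_empty_iff_false, iff_false]
    rintro ⟨-, q1, q2⟩
    linarith
  rw [e, measureReal_empty] at hn
  have : 0 < 2 / Real.log y := by positivity
  linarith

/-- the Gaussian measure of a short interval -/
lemma G_short (a b : ℝ) (hab : a ≤ b) : (ProbabilityTheory.gaussianReal 0 1).real (Set.Icc a b) ≤ b - a := by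
  have h1 : ProbabilityTheory.gaussianReal 0 1 (Set.Icc a b) ≤ ENNReal.ofReal (b - a) := by
    rw [ProbabilityTheory.gaussianReal_apply 0 one_ne_zero]
    calc ∫⁻ x in Set.Icc a b, ProbabilityTheory.gaussianPDF 0 1 x ≤ ∫⁻ x in Set.Icc a b, 1 := by
          refine lintegral_mono fun x => ?_
          unfold ProbabilityTheory.gaussianPDF
          rw [ENNReal.ofReal_le_one]
          unfold ProbabilityTheory.gaussianPDFReal
          have hpi := Real.pi_gt_three
          have h2 : 1 ≤ Real.sqrt (2 * Real.pi * ((1 : NNReal) : ℝ)) := by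
            rw [Real.one_le_sqrt]
            push_cast
            linarith
          have h3 : Real.exp (-(x - 0) ^ 2 / (2 * ((1 : NNReal) : ℝ))) ≤ 1 := by
            rw [Real.exp_le_one_iff]
            push_cast
            have := sq_nonneg (x - 0)
            linarith
          calc (Real.sqrt (2 * Real.pi * ((1 : NNReal) : ℝ)))⁻¹ * Real.exp (-(x - 0) ^ 2 / (2 * ((1 : NNReal) : ℝ))) ≤
              1 * 1 := mul_le_mul (inv_le_one_of_one_le₀ h2) h3 (Real.exp_pos _).le (by norm_num)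
            _ = 1 := one_mul 1
      _ = ENNReal.ofReal (b - a) := by rw [setLIntegral_const, one_mul, Real.volume_Icc]
  exact ENNReal.toReal_le_of_le_ofReal (by linarith) h1

lemma G01_grow (e f : ℝ) {θ : ℝ} (hθ : 0 < θ) : G01 (e - θ) (f + θ) ≤ G01 e f + 2 * θ := by
  unfold G01
  have h1 : Set.Ioo (e - θ) (f + θ) ⊆ (Set.Ioo e f ∪ Set.Icc (e - θ) e) ∪ Set.Icc f (f + θ) := by
    rintro x ⟨x1, x2⟩
    by_cases h : x ≤ e
    · exact Or.inl (Or.inr ⟨x1.le, h⟩)
    · by_cases h' : f ≤ x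
      · exact Or.inr ⟨h', x2.le⟩
      · push Not at h h'
        exact Or.inl (Or.inl ⟨h, h'⟩)
  have h2 := measureReal_mono (μ := ProbabilityTheory.gaussianReal 0 1) h1 (measure_ne_top _ _)
  have h3 := measureReal_union_le (μ := ProbabilityTheory.gaussianReal 0 1) (Set.Ioo e f ∪ Set.Icc (e - θ) e)
    (Set.Icc f (f + θ))
  have h4 := measureReal_union_le (μ := ProbabilityTheory.gaussianReal 0 1) (Set.Ioo e f) (Set.Icc (e - θ) e)
  have h5 := G_short (e - θ) e (by linarith)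
  have h6 := G_short f (f + θ) (by linarith)
  linarith

open Classical in
/-- **the law of the pairs with the members in two classes** -/
theorem law_W2 (RH : RiemannHypothesis) {R : ℝ → ℝ} {κ : ℝ} (hR : TF R κ) (h0 : 0 < κ) (h1 : κ < 1)
    {a b c d ε : ℝ} (_hab : a < b) (_hcd : c < d) (hε : 0 < ε) : ∀ᶠ T : ℝ in atTop,
    |∑ s ∈ Zf riemannZeta T (2 * T), ∑ s' ∈ Zf riemannZeta T (2 * T),
        (if NearO a b s.im ∧ NearO c d s'.im then pw R T s s' else 0) -
      mo R * G01 (max a c) (min b d) * (T * (Real.log T / (2 * Real.pi)))| ≤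
      ε * (T * (Real.log T / (2 * Real.pi))) := by
  have hm0 := mo_nonneg hR
  have hpi := Real.pi_pos
  obtain ⟨e, he⟩ : ∃ e, e = max a c := ⟨_, rfl⟩
  obtain ⟨f, hf⟩ : ∃ f, f = min b d := ⟨_, rfl⟩
  rw [← he, ← hf]
  have hea : a ≤ e := by rw [he]; exact le_max_left _ _
  have hec : c ≤ e := by rw [he]; exact le_max_right _ _
  have hfb : f ≤ b := by rw [hf]; exact min_le_left _ _
  have hfd : f ≤ d := by rw [hf]; exact min_le_right _ _
  obtain ⟨θ, hθ⟩ : ∃ θ, θ = ε / (8 * (mo R + 1)) := ⟨_, rfl⟩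
  have hθ0 : 0 < θ := by rw [hθ]; positivity
  have hmθ : mo R * (2 * θ) ≤ ε / 4 := by
    rw [hθ]
    have : mo R * (2 * (ε / (8 * (mo R + 1)))) = mo R / (mo R + 1) * (ε / 4) := by field_simp; ring
    rw [this]
    calc mo R / (mo R + 1) * (ε / 4) ≤ 1 * (ε / 4) := by
          apply mul_le_mul_of_nonneg_right _ (by positivity)
          rw [div_le_one (by positivity)]; linarith
      _ = _ := one_mul _
  obtain ⟨k, hk2, κ0, hκ0, hexc⟩ := exc_pairs RH hR (show 0 < ε / 4 by positivity)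
  have hk0 : 0 < k := by linarith
  -- upper half
  obtain ⟨η1, hη1, hc1⟩ := cls2 (a := a) (b := b) (c := c) (d := d) hθ0
  obtain ⟨W1, hW1, hX1⟩ := Run7.h911.SZ.exX (k + 1) η1 κ0 (by positivity) hη1 hκ0
  have hup : ∀ᶠ T : ℝ in atTop, ∑ s ∈ (Zf riemannZeta T (2 * T)).filter (fun s => NearO (e - θ) (f + θ) s.im),
      Wt R T s ≤ (mo R * G01 (e - θ) (f + θ) + ε / 4) * (T * (Real.log T / (2 * Real.pi))) := by
    by_cases hlt : e - θ < f + θ
    · filter_upwards [law_W RH hR h0 h1 hlt (show 0 < ε / 4 by positivity)] with T hT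
      have := (abs_le.1 hT).2
      linarith
    · filter_upwards [eventually_ge_atTop 10] with T hT
      have hL0 : 0 < Real.log T := Real.log_pos (by linarith)
      have hempty : (Zf riemannZeta T (2 * T)).filter (fun s => NearO (e - θ) (f + θ) s.im) = ∅ := by
        rw [Finset.filter_eq_empty_iff]
        intro s hs hn
        obtain ⟨-, -, z3, -, -⟩ := (H370.mem_Zf good_zeta (by linarith)).mp hs
        exact NearO_empty (Real.log_pos (by linarith)) (not_lt.1 hlt) hn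
      rw [hempty, Finset.sum_empty]
      have := G01_nonneg (e - θ) (f + θ)
      positivity
  -- lower half
  have hlow : ∃ θ' : ℝ, 0 < θ' ∧ ∀ᶠ T : ℝ in atTop, (mo R * G01 e f - ε / 2) * (T * (Real.log T / (2 * Real.pi))) ≤
      ∑ s ∈ (Zf riemannZeta T (2 * T)).filter (fun s => NearO (e + θ') (f - θ') s.im), Wt R T s := by
    by_cases hlt : e < f
    · obtain ⟨θ', hθ', hlt', hG⟩ := Run7.h911.SZ.G01_shrink hlt hθ0
      refine ⟨θ', hθ', ?_⟩
      filter_upwards [law_W RH hR h0 h1 hlt' (show 0 < ε / 4 by positivity), eventually_ge_atTop 10] with T hT hT10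
      have hL0 : 0 < Real.log T := Real.log_pos (by linarith)
      obtain ⟨Y, hY⟩ : ∃ Y, Y = T * (Real.log T / (2 * Real.pi)) := ⟨_, rfl⟩
      rw [← hY] at hT ⊢
      have hY0 : 0 < Y := by rw [hY]; positivity
      have h2 := (abs_le.1 hT).1
      have h3 : mo R * G01 e f - ε / 4 ≤ mo R * G01 (e + θ') (f - θ') := by
        have := mul_le_mul_of_nonneg_left hG hm0
        have h4 : 0 ≤ mo R * θ := by positivity
        linarith
      have h4 := mul_le_mul_of_nonneg_right h3 hY0.le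
      linarith
    · refine ⟨1, one_pos, ?_⟩
      filter_upwards [eventually_ge_atTop 10] with T hT10
      have hL0 : 0 < Real.log T := Real.log_pos (by linarith)
      have h2 : G01 e f = 0 := by
        unfold G01
        rw [Set.Ioo_eq_empty hlt, measureReal_empty]
      rw [h2, mul_zero, zero_sub]
      refine le_trans ?_ (Finset.sum_nonneg fun s _ => Wt_nonneg hR T s)
      have : 0 < ε / 2 * (T * (Real.log T / (2 * Real.pi))) := by positivity
      linarith
  obtain ⟨θ', hθ', hlow⟩ := hlow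
  obtain ⟨η2, hη2, hc2⟩ := cls2 (a := e + θ') (b := f - θ') (c := 0) (d := 1) hθ'
  obtain ⟨W2, hW2, hX2⟩ := Run7.h911.SZ.exX (k + 1) η2 κ0 (by positivity) hη2 hκ0
  filter_upwards [hexc, hc1 W1 k hW1 hk0, hX1, hup, hc2 W2 k hW2 hk0, hX2, hlow, Run7.h911.SZ.ev_basic 1]
    with T texc tc1 tX1 tup tc2 tX2 tlow tb
  obtain ⟨hT10, -, hL1, hT2⟩ := tb
  obtain ⟨Y, hY⟩ : ∃ Y, Y = T * (Real.log T / (2 * Real.pi)) := ⟨_, rfl⟩
  rw [← hY] at texc tup tlow ⊢
  have hL0 : 0 < Real.log T := by linarith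
  have hT0 : 0 < T := by linarith
  have hY0 : 0 < Y := by rw [hY]; positivity
  obtain ⟨Z, hZ⟩ : ∃ Z, Z = Zf riemannZeta T (2 * T) := ⟨_, rfl⟩
  rw [← hZ] at texc tup tlow ⊢
  have hlog : ∀ s ∈ Z, 0 < Real.log s.im := by
    intro s hs
    rw [hZ] at hs
    obtain ⟨-, -, z3, -, -⟩ := (H370.mem_Zf good_zeta (by linarith)).mp hs
    exact Real.log_pos (by linarith)
  have hWf : ∀ P : ℂ → Prop, ∑ s ∈ Z.filter P, Wt R T s = ∑ s ∈ Z, ∑ s' ∈ Z, (if P s then pw R T s s' else 0) := by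
    intro P
    rw [Finset.sum_filter]
    refine Finset.sum_congr rfl fun s _ => ?_
    by_cases c : P s
    · simp only [c, if_true]
      unfold Wt
      rw [← hZ]
    · simp [c]
  obtain ⟨X1, hX1v, hX1B⟩ := tX1
  obtain ⟨X2, hX2v, hX2B⟩ := tX2
  have e1 := texc X1 hX1B.meas hX1v
  have e2 := texc X2 hX2B.meas hX2v
  have hregI : ∀ {X : Set ℝ} {y : ℝ}, reg X T y → T + Real.log T < y ∧ y ≤ 2 * T - 1 := by
    rintro X y ⟨-, q1, q2⟩
    constructor <;> linarith
  -- the two comparisons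
  have c1 : ∑ s ∈ Z, ∑ s' ∈ Z, (if NearO a b s.im ∧ NearO c d s'.im then pw R T s s' else 0) ≤
      ∑ s ∈ Z.filter (fun s => NearO (e - θ) (f + θ) s.im), Wt R T s +
      ∑ s ∈ Z, ∑ s' ∈ Z, (if |s'.im - s.im| ≤ k / Real.log T ∧ reg X1 T s.im ∧ reg X1 T s'.im then 0
        else pw R T s s') := by
    rw [hWf, ← Finset.sum_add_distrib]
    refine Finset.sum_le_sum fun s hs => ?_
    rw [← Finset.sum_add_distrib]
    refine Finset.sum_le_sum fun s' hs' => ?_
    have hp := pw_nonneg hR T s s'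
    by_cases q1 : NearO a b s.im ∧ NearO c d s'.im
    · by_cases q2 : |s'.im - s.im| ≤ k / Real.log T ∧ reg X1 T s.im ∧ reg X1 T s'.im
      · have q3 : NearO (e - θ) (f + θ) s.im := by
          rw [he, hf]
          exact (tc1 X1 hX1B s.im s'.im (hregI q2.2.1).1 (hregI q2.2.1).2 (hregI q2.2.2).1 (hregI q2.2.2).2
            q2.2.1.1 q2.2.2.1 q2.1).1 q1.1 q1.2
        rw [if_pos q1, if_pos q2, if_pos q3]
        linarith
      · rw [if_pos q1, if_neg q2]
        split_ifs <;> linarith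
    · rw [if_neg q1]
      split_ifs <;> linarith
  have c2 : ∑ s ∈ Z.filter (fun s => NearO (e + θ') (f - θ') s.im), Wt R T s ≤
      ∑ s ∈ Z, ∑ s' ∈ Z, (if NearO a b s.im ∧ NearO c d s'.im then pw R T s s' else 0) +
      ∑ s ∈ Z, ∑ s' ∈ Z, (if |s'.im - s.im| ≤ k / Real.log T ∧ reg X2 T s.im ∧ reg X2 T s'.im then 0
        else pw R T s s') := by
    rw [hWf, ← Finset.sum_add_distrib]
    refine Finset.sum_le_sum fun s hs => ?_
    rw [← Finset.sum_add_distrib]
    refine Finset.sum_le_sum fun s' hs' => ?_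
    have hp := pw_nonneg hR T s s'
    by_cases q1 : NearO (e + θ') (f - θ') s.im
    · by_cases q2 : |s'.im - s.im| ≤ k / Real.log T ∧ reg X2 T s.im ∧ reg X2 T s'.im
      · have q3 : NearO a b s.im := NearO_mono (hlog s hs) (by linarith) (by linarith) q1
        have q4 : NearO c d s'.im := by
          have q5 := (tc2 X2 hX2B s.im s'.im (hregI q2.2.1).1 (hregI q2.2.1).2 (hregI q2.2.2).1 (hregI q2.2.2).2
            q2.2.1.1 q2.2.2.1 q2.1).2 q1
          exact NearO_mono (hlog s' hs') (by linarith) (by linarith) q5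
        rw [if_pos q1, if_pos q2, if_pos ⟨q3, q4⟩]
        linarith
      · rw [if_pos q1, if_neg q2]
        split_ifs <;> linarith
    · rw [if_neg q1]
      split_ifs <;> linarith
  have n1 : mo R * G01 (e - θ) (f + θ) ≤ mo R * G01 e f + ε / 4 := by
    have := mul_le_mul_of_nonneg_left (G01_grow e f hθ0) hm0
    linarith
  have n2 := mul_le_mul_of_nonneg_right n1 hY0.le
  have n3 : 0 < ε * Y := by positivity
  rw [abs_le]
  constructor <;> linarith

end

end Run7.h911.PQ
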