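import Pool.Agent.Run7.h911.PQ10

set_option autoImplicit false

/-! # The laws for general test functions (helper911) -/

namespace Run7.h911.PQ

open Filter Topology MeasureTheory Complex
open H370 (Zf mult good_zeta)
open Run7.h911.SZ (G01 G01_nonneg G01_le)
open Pool.Agent.Results.MP_103a5c_nt.BohrSetPairs (pairSum TestFn mont)

noncomputable section

open Classical in
/-- the law of the pairs in a class, general test functions -/
theorem law1 (RH : RiemannHypothesis) {R : ℝ → ℝ} {κ : ℝ} (hR : TestFn R κ)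
    (hlip : ∃ K : ℝ, ∀ x y, |R x - R y| ≤ K * |x - y|) (h0 : 0 < κ) (h1 : κ < 1) {a b ε : ℝ} (hab : a < b)
    (hε : 0 < ε) : ∀ᶠ T : ℝ in atTop,
    |∑ s ∈ (Zf riemannZeta T (2 * T)).filter (fun s => NearO a b s.im), Wt R T s -
      mo R * G01 a b * (T * (Real.log T / (2 * Real.pi)))| ≤ ε * (T * (Real.log T / (2 * Real.pi))) := by
  obtain ⟨κ', l, hk0, hk1, hl, hf, hR1⟩ := split_R hR hlip h0 h1
  filter_upwards [law_W RH hf hk0 hk1 hab (show 0 < ε / (2 * (l + 1)) by positivity),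
    law_W RH hR1 hk0 hk1 hab (show 0 < ε / 2 by positivity), eventually_ge_atTop 10] with T t1 t2 t3
  have hpi := Real.pi_pos
  obtain ⟨Y, hY⟩ : ∃ Y, Y = T * (Real.log T / (2 * Real.pi)) := ⟨_, rfl⟩
  rw [← hY] at t1 t2 ⊢
  have hL0 : 0 < Real.log T := Real.log_pos (by linarith)
  have hY0 : 0 < Y := by rw [hY]; positivity
  have e1 : ∑ s ∈ (Zf riemannZeta T (2 * T)).filter (fun s => NearO a b s.im), Wt R T s =
      ∑ s ∈ (Zf riemannZeta T (2 * T)).filter (fun s => NearO a b s.im), Wt (fun x => R x + l * fb κ' x) T s -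
      l * ∑ s ∈ (Zf riemannZeta T (2 * T)).filter (fun s => NearO a b s.im), Wt (fb κ') T s := by
    rw [Finset.mul_sum, ← Finset.sum_sub_distrib]
    refine Finset.sum_congr rfl fun s _ => ?_
    rw [Wt_add hR.cont (fb_cont κ')]
    ring
  rw [mo_add hR.cont (fb_cont κ')] at t2
  obtain ⟨Q1, hQ1⟩ : ∃ Q, Q = ∑ s ∈ (Zf riemannZeta T (2 * T)).filter (fun s => NearO a b s.im), Wt (fb κ') T s :=
    ⟨_, rfl⟩
  obtain ⟨Q2, hQ2⟩ : ∃ Q, Q = ∑ s ∈ (Zf riemannZeta T (2 * T)).filter (fun s => NearO a b s.im),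
    Wt (fun x => R x + l * fb κ' x) T s := ⟨_, rfl⟩
  rw [e1]
  rw [← hQ1, ← hQ2]
  rw [← hQ1] at t1
  rw [← hQ2] at t2
  have h3 : l * |Q1 - mo (fb κ') * G01 a b * Y| ≤ ε / 2 * Y := by
    refine (mul_le_mul_of_nonneg_left t1 hl).trans ?_
    have : l * (ε / (2 * (l + 1)) * Y) = l / (l + 1) * (ε / 2 * Y) := by field_simp
    rw [this]
    calc l / (l + 1) * (ε / 2 * Y) ≤ 1 * (ε / 2 * Y) := by
          apply mul_le_mul_of_nonneg_right _ (by positivity)
          rw [div_le_one (by positivity)]; linarith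
      _ = _ := one_mul _
  have e2 : Q2 - l * Q1 - mo R * G01 a b * Y = (Q2 - (mo R + l * mo (fb κ')) * G01 a b * Y) -
      l * (Q1 - mo (fb κ') * G01 a b * Y) := by ring
  rw [e2]
  refine (abs_sub _ _).trans ?_
  rw [abs_mul, abs_of_nonneg hl]
  linarith

open Classical in
/-- the law of the pairs with the members in two classes, general test functions -/
theorem law2 (RH : RiemannHypothesis) {R : ℝ → ℝ} {κ : ℝ} (hR : TestFn R κ)
    (hlip : ∃ K : ℝ, ∀ x y, |R x - R y| ≤ K * |x - y|) (h0 : 0 < κ) (h1 : κ < 1) {a b c d ε : ℝ} (hab : a < b)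
    (hcd : c < d) (hε : 0 < ε) : ∀ᶠ T : ℝ in atTop,
    |∑ s ∈ Zf riemannZeta T (2 * T), ∑ s' ∈ Zf riemannZeta T (2 * T),
        (if NearO a b s.im ∧ NearO c d s'.im then pw R T s s' else 0) -
      mo R * G01 (max a c) (min b d) * (T * (Real.log T / (2 * Real.pi)))| ≤
      ε * (T * (Real.log T / (2 * Real.pi))) := by
  obtain ⟨κ', l, hk0, hk1, hl, hf, hR1⟩ := split_R hR hlip h0 h1
  filter_upwards [law_W2 RH hf hk0 hk1 hab hcd (show 0 < ε / (2 * (l + 1)) by positivity),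
    law_W2 RH hR1 hk0 hk1 hab hcd (show 0 < ε / 2 by positivity), eventually_ge_atTop 10] with T t1 t2 t3
  have hpi := Real.pi_pos
  obtain ⟨Y, hY⟩ : ∃ Y, Y = T * (Real.log T / (2 * Real.pi)) := ⟨_, rfl⟩
  rw [← hY] at t1 t2 ⊢
  have hL0 : 0 < Real.log T := Real.log_pos (by linarith)
  have hY0 : 0 < Y := by rw [hY]; positivity
  have e1 : ∑ s ∈ Zf riemannZeta T (2 * T), ∑ s' ∈ Zf riemannZeta T (2 * T),
        (if NearO a b s.im ∧ NearO c d s'.im then pw R T s s' else 0) =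
      ∑ s ∈ Zf riemannZeta T (2 * T), ∑ s' ∈ Zf riemannZeta T (2 * T),
        (if NearO a b s.im ∧ NearO c d s'.im then pw (fun x => R x + l * fb κ' x) T s s' else 0) -
      l * ∑ s ∈ Zf riemannZeta T (2 * T), ∑ s' ∈ Zf riemannZeta T (2 * T),
        (if NearO a b s.im ∧ NearO c d s'.im then pw (fb κ') T s s' else 0) := by
    rw [Finset.mul_sum, ← Finset.sum_sub_distrib]
    refine Finset.sum_congr rfl fun s _ => ?_
    rw [Finset.mul_sum, ← Finset.sum_sub_distrib]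
    refine Finset.sum_congr rfl fun s' _ => ?_
    rw [pw_add hR.cont (fb_cont κ')]
    split_ifs <;> ring
  rw [mo_add hR.cont (fb_cont κ')] at t2
  obtain ⟨Q1, hQ1⟩ : ∃ Q, Q = ∑ s ∈ Zf riemannZeta T (2 * T), ∑ s' ∈ Zf riemannZeta T (2 * T),
        (if NearO a b s.im ∧ NearO c d s'.im then pw (fb κ') T s s' else 0) := ⟨_, rfl⟩
  obtain ⟨Q2, hQ2⟩ : ∃ Q, Q = ∑ s ∈ Zf riemannZeta T (2 * T), ∑ s' ∈ Zf riemannZeta T (2 * T),
        (if NearO a b s.im ∧ NearO c d s'.im then pw (fun x => R x + l * fb κ' x) T s s' else 0) := ⟨_, rfl⟩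
  rw [e1]
  rw [← hQ1, ← hQ2]
  rw [← hQ1] at t1
  rw [← hQ2] at t2
  obtain ⟨g, hg⟩ : ∃ g, g = G01 (max a c) (min b d) := ⟨_, rfl⟩
  rw [← hg] at t1 t2 ⊢
  have h3 : l * |Q1 - mo (fb κ') * g * Y| ≤ ε / 2 * Y := by
    refine (mul_le_mul_of_nonneg_left t1 hl).trans ?_
    have : l * (ε / (2 * (l + 1)) * Y) = l / (l + 1) * (ε / 2 * Y) := by field_simp
    rw [this]
    calc l / (l + 1) * (ε / 2 * Y) ≤ 1 * (ε / 2 * Y) := by
          apply mul_le_mul_of_nonneg_right _ (by positivity)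
          rw [div_le_one (by positivity)]; linarith
      _ = _ := one_mul _
  have e2 : Q2 - l * Q1 - mo R * g * Y = (Q2 - (mo R + l * mo (fb κ')) * g * Y) -
      l * (Q1 - mo (fb κ') * g * Y) := by ring
  rw [e2]
  refine (abs_sub _ _).trans ?_
  rw [abs_mul, abs_of_nonneg hl]
  linarith

/-- from the main term to the number of zeros -/
lemma toN {Q : ℝ → ℝ} {m : ℝ} (h : ∀ ε : ℝ, 0 < ε → ∀ᶠ T : ℝ in atTop,
      |Q T - m * (T * (Real.log T / (2 * Real.pi)))| ≤ ε * (T * (Real.log T / (2 * Real.pi)))) {ε : ℝ} (hε : 0 < ε) :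
    ∃ T₀ : ℝ, 10 ≤ T₀ ∧ ∀ T : ℝ, T₀ ≤ T →
      |Q T - m * (Pool.Agent.Results.MP_103a5c_nt.BohrSetPairs.N T (2 * T) : ℝ)| ≤
        ε * (Pool.Agent.Results.MP_103a5c_nt.BohrSetPairs.N T (2 * T) : ℝ) := by
  have hpi := Real.pi_pos
  obtain ⟨η, hη⟩ : ∃ η, η = min (1 / 2) (ε / (4 * (|m| + 1))) := ⟨_, rfl⟩
  have hη0 : 0 < η := by rw [hη]; positivity
  have hη1 : η ≤ 1 / 2 := by rw [hη]; exact min_le_left _ _
  have hηm : |m| * η ≤ ε / 4 := by
    have h2 : η ≤ ε / (4 * (|m| + 1)) := by rw [hη]; exact min_le_right _ _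
    rw [le_div_iff₀ (by positivity)] at h2
    linarith
  obtain ⟨T2, hT2, hN⟩ := Pool.Agent.Results.MP_103a5c_nt.BohrSetPairs.N_dyadic (η / (2 * Real.pi)) (by positivity)
  obtain ⟨T1, hT1⟩ := (h (ε / 4) (by positivity)).exists_forall_of_atTop
  refine ⟨max T2 T1, hT2.trans (le_max_left _ _), fun T hT => ?_⟩
  have t2 : T2 ≤ T := (le_max_left _ _).trans hT
  have a1 := hT1 T ((le_max_right _ _).trans hT)
  have a2 := hN T t2
  have hT10 : 10 ≤ T := hT2.trans t2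
  obtain ⟨Y, hY⟩ : ∃ Y, Y = T * (Real.log T / (2 * Real.pi)) := ⟨_, rfl⟩
  have hL0 : 0 < Real.log T := Real.log_pos (by linarith)
  have hY0 : 0 < Y := by rw [hY]; positivity
  have e1 : T * Real.log T / (2 * Real.pi) = Y := by rw [hY]; ring
  have e2 : η / (2 * Real.pi) * (T * Real.log T) = η * Y := by rw [hY]; ring
  rw [e1, e2] at a2
  rw [← hY] at a1
  set N := (Pool.Agent.Results.MP_103a5c_nt.BohrSetPairs.N T (2 * T) : ℝ) with hNd
  have hYN : Y ≤ 2 * N := by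
    have h2 := (abs_le.1 a2).1
    have : η * Y ≤ 1 / 2 * Y := mul_le_mul_of_nonneg_right hη1 hY0.le
    linarith
  have e3 : Q T - m * N = (Q T - m * Y) - m * (N - Y) := by ring
  rw [e3]
  refine (abs_sub _ _).trans ?_
  rw [abs_mul]
  have h3 : |m| * |N - Y| ≤ ε / 4 * Y := by
    calc |m| * |N - Y| ≤ |m| * (η * Y) := mul_le_mul_of_nonneg_left a2 (abs_nonneg m)
      _ = |m| * η * Y := by ring
      _ ≤ _ := mul_le_mul_of_nonneg_right hηm hY0.le
  have h4 := mul_le_mul_of_nonneg_left hYN (show 0 ≤ ε / 2 by positivity)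
  linarith

end

end Run7.h911.PQ
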