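import Pool.Agent.Run7.h911.PQ1
import Pool.Agent.H382P.Defs
import Pool.Agent.H370R2.DirGood

set_option autoImplicit false

/-! # The local pair sums on the Riemann hypothesis (helper911) -/

namespace Run7.h911.PQ

open Filter Topology MeasureTheory Complex H370
open Pool.Agent.Y745.SW

noncomputable section

/-- the transform of a test function -/
def rh (R : ℝ → ℝ) (w : ℝ) : ℝ := 2 * ∫ x in (0:ℝ)..1, R x * Real.cos (w * x)

/-- the window at a real point -/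
def vr (B : ℝ → ℝ) (a t y : ℝ) : ℝ := (VF B (a * (y - t) : ℝ)).re * Real.exp (-(y - t) ^ 2 / 2)

section

variable {j : ℕ} {C N : ℝ} {B : ℝ → ℝ} (hW : Wf j C N B)

include hW

lemma vt_real_eq (a t y : ℝ) : vt B a t (y : ℂ) = (vr B a t y : ℂ) := by
  have e1 : (a * ((y : ℂ) - t) : ℂ) = ((a * (y - t) : ℝ) : ℂ) := by push_cast; ring
  have e2 : (-((y : ℂ) - t) ^ 2 / 2 : ℂ) = ((-(y - t) ^ 2 / 2 : ℝ) : ℂ) := by push_cast; ring
  have e3 : VF B ((a * (y - t) : ℝ) : ℂ) = (((VF B ((a * (y - t) : ℝ) : ℂ)).re : ℝ) : ℂ) := by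
    apply Complex.ext
    · rw [Complex.ofReal_re]
    · rw [Complex.ofReal_im, (hW.real _).1]
  unfold vt vr
  rw [e1, e2, ← Complex.ofReal_exp]
  conv_rhs => rw [Complex.ofReal_mul]
  rw [← e3]

lemma vr_nonneg (a t y : ℝ) : 0 ≤ vr B a t y := mul_nonneg (hW.real _).2.1 (Real.exp_pos _).le

lemma vr_le (a t y : ℝ) : vr B a t y ≤ 1 := by
  have h1 := (hW.real (a * (y - t))).2
  have h2 : Real.exp (-(y - t) ^ 2 / 2) ≤ 1 := by
    rw [Real.exp_le_one_iff]
    have := sq_nonneg (y - t)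
    linarith
  calc vr B a t y ≤ 1 * 1 := mul_le_mul h1.2 h2 (Real.exp_pos _).le (by norm_num)
    _ = 1 := one_mul 1

lemma vr_low {a t y m ρ : ℝ} (hm : 0 ≤ m) (hC : 0 ≤ C) (h1 : |a * (y - t)| ≤ N - m) (h2 : |y - t| ≤ ρ) :
    (1 - C / (1 + m) ^ j) * Real.exp (-ρ ^ 2 / 2) ≤ vr B a t y := by
  unfold vr
  have h3 := hW.inner ((a * (y - t) : ℝ) : ℂ) (by rw [Complex.ofReal_re]; linarith)
  rw [Complex.ofReal_re, Complex.ofReal_im, abs_zero, Real.exp_zero, mul_one] at h3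
  have h4 : C / (1 + (N - |a * (y - t)|)) ^ j ≤ C / (1 + m) ^ j := by
    apply div_le_div_of_nonneg_left hC (by positivity)
    apply pow_le_pow_left₀ (by positivity)
    linarith
  have h5 : 1 - C / (1 + m) ^ j ≤ (VF B ((a * (y - t) : ℝ) : ℂ)).re := by
    have h6 := (Complex.abs_re_le_norm (VF B ((a * (y - t) : ℝ) : ℂ) - 1)).trans (h3.trans h4)
    rw [Complex.sub_re, Complex.one_re] at h6
    linarith [(abs_le.1 h6).1]
  have h6 : Real.exp (-ρ ^ 2 / 2) ≤ Real.exp (-(y - t) ^ 2 / 2) := by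
    rw [Real.exp_le_exp]
    have h7 : (y - t) ^ 2 ≤ ρ ^ 2 := by
      rw [← sq_abs (y - t)]
      exact pow_le_pow_left₀ (abs_nonneg _) h2 2
    linarith
  exact mul_le_mul h5 h6 (Real.exp_pos _).le (hW.real _).2.1

lemma vr_cont (a y : ℝ) : Continuous (fun t : ℝ => vr B a t y) := by
  have h1 := (vt_cont hW.cont a (y : ℂ))
  have h2 : (fun t : ℝ => vr B a t y) = fun t : ℝ => (vt B a t (y : ℂ)).re := by
    ext t
    rw [vt_real_eq hW, Complex.ofReal_re]
  rw [h2]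
  exact Complex.continuous_re.comp h1

end

/-- the square of a finite exponential sum -/
lemma sq_expsum {ι : Type*} (A : Finset ι) (c θ : ι → ℝ) :
    ‖∑ s ∈ A, (c s : ℂ) * cexp (I * (θ s : ℝ))‖ ^ 2 =
      ∑ s ∈ A, ∑ s' ∈ A, c s * c s' * Real.cos (θ s - θ s') := by
  have e : ∀ s, (c s : ℂ) * cexp (I * (θ s : ℝ)) = ((c s * Real.cos (θ s) : ℝ) : ℂ) +
      ((c s * Real.sin (θ s) : ℝ) : ℂ) * I := by
    intro s
    rw [mul_comm I, Complex.exp_mul_I]
    push_cast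
    ring
  simp_rw [e]
  rw [Finset.sum_add_distrib, ← Finset.sum_mul, ← Complex.ofReal_sum, ← Complex.ofReal_sum, ← Complex.normSq_eq_norm_sq,
    Complex.normSq_add_mul_I, sq, sq, Finset.sum_mul_sum, Finset.sum_mul_sum, ← Finset.sum_add_distrib]
  refine Finset.sum_congr rfl fun s _ => ?_
  rw [← Finset.sum_add_distrib]
  refine Finset.sum_congr rfl fun s' _ => ?_
  rw [Real.cos_sub]
  ring

lemma zz_real (hRH : SP.RHs) {U1 U2 : ℝ} (hU : 1 ≤ U1) {s : ℂ} (hs : s ∈ Zf riemannZeta U1 U2) :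
    zz s = ((s.im : ℝ) : ℂ) := by
  have h := (mem_Zf good_zeta hU).mp hs
  have h1 := hRH s h.1 h.2.1 h.2.2.2.2
  apply Complex.ext
  · rw [zz_re, Complex.ofReal_re]
  · rw [zz_im, Complex.ofReal_im, h1]
    ring

/-- **the pair sum in a window** -/
lemma spec (hRH : SP.RHs) {j : ℕ} {C N : ℝ} {B : ℝ → ℝ} (hW : Wf j C N B) {U1 U2 : ℝ} (hU : 1 ≤ U1) {R : ℝ → ℝ}
    (hR : Continuous R) (a Λ t : ℝ) :
    2 * ∫ x in (0:ℝ)..1, R x * ‖St B a U1 U2 (Λ * x) t‖ ^ 2 =
      ∑ s ∈ Zf riemannZeta U1 U2, ∑ s' ∈ Zf riemannZeta U1 U2, (mult riemannZeta s : ℝ) * (mult riemannZeta s' : ℝ) *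
        (vr B a t s.im * vr B a t s'.im * rh R (Λ * (s.im - s'.im))) := by
  have h1 : ∀ x : ℝ, ‖St B a U1 U2 (Λ * x) t‖ ^ 2 =
      ∑ s ∈ Zf riemannZeta U1 U2, ∑ s' ∈ Zf riemannZeta U1 U2, ((mult riemannZeta s : ℝ) * vr B a t s.im) *
        ((mult riemannZeta s' : ℝ) * vr B a t s'.im) * Real.cos (Λ * x * s.im - Λ * x * s'.im) := by
    intro x
    rw [← sq_expsum (Zf riemannZeta U1 U2) (fun s => (mult riemannZeta s : ℝ) * vr B a t s.im)
      (fun s => Λ * x * s.im)]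
    congr 2
    unfold St
    refine Finset.sum_congr rfl fun s hs => ?_
    rw [zz_real hRH hU hs, vt_real_eq hW]
    push_cast
    rw [show I * (Λ * x : ℂ) * (s.im : ℂ) = I * ((Λ : ℂ) * x * s.im) by ring]
    ring
  have h2 : ∀ x : ℝ, R x * ‖St B a U1 U2 (Λ * x) t‖ ^ 2 =
      ∑ s ∈ Zf riemannZeta U1 U2, ∑ s' ∈ Zf riemannZeta U1 U2, ((mult riemannZeta s : ℝ) * (mult riemannZeta s' : ℝ) *
        (vr B a t s.im * vr B a t s'.im)) * (R x * Real.cos (Λ * (s.im - s'.im) * x)) := by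
    intro x
    rw [h1, Finset.mul_sum]
    refine Finset.sum_congr rfl fun s _ => ?_
    rw [Finset.mul_sum]
    refine Finset.sum_congr rfl fun s' _ => ?_
    rw [show Λ * x * s.im - Λ * x * s'.im = Λ * (s.im - s'.im) * x by ring]
    ring
  have hi : ∀ w : ℝ, IntervalIntegrable (fun x : ℝ => R x * Real.cos (w * x)) volume 0 1 := fun w =>
    (hR.mul (by fun_prop)).intervalIntegrable _ _
  simp_rw [h2]
  have hic : ∀ s : ℂ, Continuous fun x : ℝ => ∑ s' ∈ Zf riemannZeta U1 U2,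
      ((mult riemannZeta s : ℝ) * (mult riemannZeta s' : ℝ) *
        (vr B a t s.im * vr B a t s'.im)) * (R x * Real.cos (Λ * (s.im - s'.im) * x)) := fun s =>
    continuous_finsetSum _ fun s' _ => continuous_const.mul (hR.mul (by fun_prop))
  rw [intervalIntegral.integral_finsetSum (fun s _ => (hic s).intervalIntegrable _ _), Finset.mul_sum]
  refine Finset.sum_congr rfl fun s _ => ?_
  rw [intervalIntegral.integral_finsetSum (fun s' _ => (hi _).const_mul _), Finset.mul_sum]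
  refine Finset.sum_congr rfl fun s' _ => ?_
  rw [intervalIntegral.integral_const_mul]
  unfold rh
  ring

/-- **the truncated pair sum over the interior zeros of a set** -/
lemma trunc_le (hRH : SP.RHs) {C N : ℝ} {B : ℝ → ℝ} (hW : Wf 1 C N B) (hC : 0 ≤ C) {U1 U2 : ℝ} (hU : 1 ≤ U1)
    {R : ℝ → ℝ} (hR : Continuous R) {a Λ m k ρ : ℝ} (ha : 0 < a) (hm : 0 ≤ m)
    (hka : a * k ≤ m) (hCm : C / (1 + m) ≤ 1)
    (hρ : (N - m) / a ≤ ρ) (hrh : ∀ w, 0 ≤ rh R w) {S : Set ℝ} (hS : MeasurableSet S) (hSf : volume S ≠ ⊤)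
    {t1 t2 : ℝ} (hSI : S ⊆ Set.Icc t1 t2)
    (F : Finset ℂ) (hF : F ⊆ Zf riemannZeta U1 U2)
    (hFS : ∀ s ∈ F, Set.Icc (s.im - N / a) (s.im + N / a) ⊆ S) :
    (∑ s ∈ F, ∑ s' ∈ (Zf riemannZeta U1 U2).filter (fun s' => |s'.im - s.im| ≤ k),
      (mult riemannZeta s : ℝ) * (mult riemannZeta s' : ℝ) * rh R (Λ * (s.im - s'.im))) *
      (2 * ((N - 2 * m) / a) * ((1 - C / (1 + m)) * Real.exp (-ρ ^ 2 / 2)) ^ 2) ≤
    ∫ t in S, (2 * ∫ x in (0:ℝ)..1, R x * ‖St B a U1 U2 (Λ * x) t‖ ^ 2) := by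
  simp_rw [spec hRH hW hU hR a Λ]
  have hcI : ∀ f : ℝ → ℝ, Continuous f → IntegrableOn f S := fun f hf =>
    (hf.continuousOn.integrableOn_compact isCompact_Icc).mono_set hSI
  have hi : ∀ s s' : ℂ, IntegrableOn (fun t : ℝ => (mult riemannZeta s : ℝ) * (mult riemannZeta s' : ℝ) *
        (vr B a t s.im * vr B a t s'.im * rh R (Λ * (s.im - s'.im)))) S := fun s s' =>
    hcI _ (continuous_const.mul (((vr_cont hW a s.im).mul (vr_cont hW a s'.im)).mul continuous_const))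
  rw [integral_finsetSum _ (fun s _ => integrable_finsetSum _ fun s' _ => hi s s')]
  have hnn : ∀ s s' : ℂ, 0 ≤ ∫ t in S, (mult riemannZeta s : ℝ) * (mult riemannZeta s' : ℝ) *
        (vr B a t s.im * vr B a t s'.im * rh R (Λ * (s.im - s'.im))) := fun s s' =>
    setIntegral_nonneg hS fun t _ => mul_nonneg (by positivity)
      (mul_nonneg (mul_nonneg (vr_nonneg hW _ _ _) (vr_nonneg hW _ _ _)) (hrh _))
  have h0 : ∀ s : ℂ, (∫ t in S, ∑ s' ∈ Zf riemannZeta U1 U2, (mult riemannZeta s : ℝ) * (mult riemannZeta s' : ℝ) *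
        (vr B a t s.im * vr B a t s'.im * rh R (Λ * (s.im - s'.im)))) =
      ∑ s' ∈ Zf riemannZeta U1 U2, ∫ t in S, (mult riemannZeta s : ℝ) * (mult riemannZeta s' : ℝ) *
        (vr B a t s.im * vr B a t s'.im * rh R (Λ * (s.im - s'.im))) := fun s =>
    integral_finsetSum _ fun s' _ => hi s s'
  simp_rw [h0]
  refine le_trans ?_ (Finset.sum_le_sum_of_subset_of_nonneg hF fun s _ _ => Finset.sum_nonneg fun s' _ => hnn s s')
  rw [Finset.sum_mul]
  refine Finset.sum_le_sum fun s hs => ?_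
  refine le_trans ?_ (Finset.sum_le_sum_of_subset_of_nonneg
    (Finset.filter_subset (fun s' : ℂ => |s'.im - s.im| ≤ k) (Zf riemannZeta U1 U2)) fun s' _ _ => hnn s s')
  rw [Finset.sum_mul]
  refine Finset.sum_le_sum fun s' hs' => ?_
  rw [Finset.mem_filter] at hs'
  -- one pair
  obtain ⟨v0, hv0⟩ : ∃ v0, v0 = (1 - C / (1 + m)) * Real.exp (-ρ ^ 2 / 2) := ⟨_, rfl⟩
  have hv00 : 0 ≤ v0 := by rw [hv0]; exact mul_nonneg (by linarith) (Real.exp_pos _).le
  rw [← hv0]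
  have hm0 : 0 ≤ (mult riemannZeta s : ℝ) * (mult riemannZeta s' : ℝ) * rh R (Λ * (s.im - s'.im)) :=
    mul_nonneg (by positivity) (hrh _)
  by_cases hN2 : N - 2 * m < 0
  · refine le_trans ?_ (hnn s s')
    refine mul_nonpos_of_nonneg_of_nonpos hm0 ?_
    refine mul_nonpos_of_nonpos_of_nonneg ?_ (by positivity)
    have : (N - 2 * m) / a ≤ 0 := div_nonpos_of_nonpos_of_nonneg hN2.le ha.le
    linarith
  push Not at hN2
  obtain ⟨J, hJ⟩ : ∃ J : Set ℝ, J = Set.Icc (s.im - (N - 2 * m) / a) (s.im + (N - 2 * m) / a) := ⟨_, rfl⟩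
  have hJS : J ⊆ S := by
    rw [hJ]
    refine (Set.Icc_subset_Icc ?_ ?_).trans (hFS s hs)
    · have : (N - 2 * m) / a ≤ N / a := div_le_div_of_nonneg_right (by linarith) ha.le
      linarith
    · have : (N - 2 * m) / a ≤ N / a := div_le_div_of_nonneg_right (by linarith) ha.le
      linarith
  have hJv : volume.real J = 2 * ((N - 2 * m) / a) := by
    have h0 : 0 ≤ (N - 2 * m) / a := div_nonneg hN2 ha.le
    rw [hJ, Real.volume_real_Icc_of_le (by linarith)]
    ring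
  have hlow : ∀ t ∈ J, v0 * v0 ≤ vr B a t s.im * vr B a t s'.im := by
    intro t ht
    rw [hJ, Set.mem_Icc] at ht
    have h1 : |s.im - t| ≤ (N - 2 * m) / a := by
      rw [abs_le]; constructor <;> linarith [ht.1, ht.2]
    have h2 : |s'.im - t| ≤ (N - m) / a := by
      have e : s'.im - t = (s'.im - s.im) + (s.im - t) := by ring
      rw [e]
      refine (abs_add_le _ _).trans ((add_le_add hs'.2 h1).trans ?_)
      rw [le_div_iff₀ ha, add_mul, div_mul_cancel₀ _ ha.ne']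
      linarith
    have h3 : (N - 2 * m) / a ≤ (N - m) / a := div_le_div_of_nonneg_right (by linarith) ha.le
    have key : ∀ y : ℝ, |y - t| ≤ (N - m) / a → v0 ≤ vr B a t y := by
      intro y hy
      have := vr_low (j := 1) hW (a := a) (t := t) (y := y) (m := m) (ρ := ρ) hm hC (by
        rw [abs_mul, abs_of_pos ha]
        rw [le_div_iff₀ ha] at hy
        linarith) (hy.trans hρ)
      rw [pow_one] at this
      rw [hv0]; exact this
    exact mul_le_mul (key _ (h1.trans h3)) (key _ h2) hv00 (vr_nonneg hW _ _ _)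
  have e1 : ∫ t in J, ((mult riemannZeta s : ℝ) * (mult riemannZeta s' : ℝ) * rh R (Λ * (s.im - s'.im))) * (v0 * v0) =
      (mult riemannZeta s : ℝ) * (mult riemannZeta s' : ℝ) * rh R (Λ * (s.im - s'.im)) *
        (2 * ((N - 2 * m) / a) * v0 ^ 2) := by
    rw [setIntegral_const, hJv, smul_eq_mul]
    ring
  rw [← e1]
  refine le_trans ?_ (setIntegral_mono_set (hi s s') (Filter.Eventually.of_forall fun t => mul_nonneg (by positivity)
      (mul_nonneg (mul_nonneg (vr_nonneg hW _ _ _) (vr_nonneg hW _ _ _)) (hrh _))) (Filter.Eventually.of_forall hJS))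
  refine setIntegral_mono_on ?_ ((hi s s').mono_set hJS) (by rw [hJ]; exact measurableSet_Icc) fun t ht => ?_
  · exact integrableOn_const (ne_top_of_le_ne_top hSf (measure_mono hJS))
  · have h1 := hlow t ht
    calc (mult riemannZeta s : ℝ) * (mult riemannZeta s' : ℝ) * rh R (Λ * (s.im - s'.im)) * (v0 * v0) ≤
        (mult riemannZeta s : ℝ) * (mult riemannZeta s' : ℝ) * rh R (Λ * (s.im - s'.im)) *
          (vr B a t s.im * vr B a t s'.im) := mul_le_mul_of_nonneg_left h1 hm0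
      _ = _ := by ring

end

end Run7.h911.PQ
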