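import Pool.Agent.Run7.h911.PQ2
import Pool.Agent.Y745.SW.Blk5

set_option autoImplicit false

/-! # The upper bound for the pair sum over the interior zeros of a set (helper911) -/

namespace Run7.h911.PQ

open Filter Topology MeasureTheory Complex H370
open Pool.Agent.Y745.SW

noncomputable section

/-- test functions -/
structure TF (R : ℝ → ℝ) (κ : ℝ) : Prop where
  cont : Continuous R
  even : ∀ α, R (-α) = R α
  supp : ∀ α, κ ≤ |α| → R α = 0
  nonneg : ∀ α, 0 ≤ R α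
  lip : ∃ K : ℝ, ∀ x y, |R x - R y| ≤ K * |x - y|
  pos : ∀ w, 0 ≤ rh R w
  dec : ∃ A : ℝ, ∀ w, rh R w ≤ A / (1 + w ^ 2)

/-- the constant of Montgomery's theorem -/
def mo (R : ℝ → ℝ) : ℝ := R 0 + 2 * ∫ x in (0:ℝ)..1, x * R x

lemma mo_nonneg {R : ℝ → ℝ} {κ : ℝ} (hR : TF R κ) : 0 ≤ mo R := by
  unfold mo
  have h1 : 0 ≤ ∫ x in (0:ℝ)..1, x * R x :=
    intervalIntegral.integral_nonneg (by norm_num) fun x hx => mul_nonneg hx.1 (hR.nonneg x)
  have := hR.nonneg 0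
  linarith

/-- the rescaled test function -/
def rs (R : ℝ → ℝ) (e x : ℝ) : ℝ := (1 - e) * R ((1 - e) * x)

lemma rs_int {R : ℝ → ℝ} {κ e : ℝ} (hR : TF R κ) (he : 0 < e) (_he1 : e < 1) (hκ : κ ≤ 1 - e) (g : ℝ → ℝ)
    (hg : Continuous g) : ∫ x in (0:ℝ)..1, rs R e x * g ((1 - e) * x) = ∫ x in (0:ℝ)..1, R x * g x := by
  have h1 := intervalIntegral.mul_integral_comp_mul_left (a := 0) (b := 1) (c := 1 - e)
    (f := fun α : ℝ => R α * g α)
  rw [mul_zero, mul_one] at h1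
  have h2 : ∫ x in (0:ℝ)..1, rs R e x * g ((1 - e) * x) =
      (1 - e) * ∫ x in (0:ℝ)..1, R ((1 - e) * x) * g ((1 - e) * x) := by
    rw [← intervalIntegral.integral_const_mul]
    refine intervalIntegral.integral_congr fun x _ => ?_
    show rs R e x * g ((1 - e) * x) = (1 - e) * (R ((1 - e) * x) * g ((1 - e) * x))
    unfold rs
    ring
  rw [h2, h1]
  have hc : Continuous fun α : ℝ => R α * g α := hR.cont.mul hg
  rw [← intervalIntegral.integral_add_adjacent_intervals (a := 0) (b := 1 - e) (c := 1)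
    (hc.intervalIntegrable _ _) (hc.intervalIntegrable _ _)]
  have h3 : ∫ α in (1 - e)..1, R α * g α = 0 := by
    rw [intervalIntegral.integral_congr (g := fun _ => (0 : ℝ))]
    · simp
    · intro x hx
      rw [Set.uIcc_of_le (by linarith)] at hx
      show R x * g x = 0
      rw [hR.supp x ((hκ.trans hx.1).trans (le_abs_self x)), zero_mul]
  rw [h3, add_zero]

lemma rs_rh {R : ℝ → ℝ} {κ e : ℝ} (hR : TF R κ) (he : 0 < e) (he1 : e < 1) (hκ : κ ≤ 1 - e) (v : ℝ) :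
    rh (rs R e) ((1 - e) * v) = rh R v := by
  unfold rh
  rw [← rs_int hR he he1 hκ (fun x => Real.cos (v * x)) (by fun_prop)]
  congr 1
  refine intervalIntegral.integral_congr fun x _ => ?_
  show rs R e x * Real.cos ((1 - e) * v * x) = rs R e x * Real.cos (v * ((1 - e) * x))
  rw [show (1 - e) * v * x = v * ((1 - e) * x) by ring]

lemma rs_cont {R : ℝ → ℝ} {κ : ℝ} (hR : TF R κ) (e : ℝ) : Continuous (rs R e) := by
  unfold rs
  exact continuous_const.mul (hR.cont.comp (by fun_prop))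

/-- the final computation -/
lemma calc_up {X W V vS T N τ L ε ε' M m : ℝ} (hX : 0 ≤ X) (hN : 0 < N) (hτ : 0 < τ) (hL : 0 < L) (hT : 0 ≤ T)
    (_hε : 0 < ε) (hm : 0 ≤ m) (hvS : vS ≤ T) (hM : M = N / (Real.pi * τ))
    (hε' : ε' ≤ 1 / 24) (hε'2 : 6 * ε' * (m + ε) ≤ 3 / 4 * ε) (hε'0 : 0 ≤ ε')
    (hW : (1 - 6 * ε') * (2 * N / (τ * L)) ≤ W) (hXW : X * W ≤ V) (hV : V ≤ M * (m * vS + ε / 4 * T)) :
    X ≤ (m * vS + ε * T) * (L / (2 * Real.pi)) := by
  have hpi := Real.pi_pos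
  have h1 : X * ((1 - 6 * ε') * (2 * N / (τ * L))) ≤ M * (m * vS + ε / 4 * T) :=
    (mul_le_mul_of_nonneg_left hW hX).trans (hXW.trans hV)
  have h2 : X * (1 - 6 * ε') ≤ (m * vS + ε / 4 * T) * (L / (2 * Real.pi)) := by
    have e1 : X * ((1 - 6 * ε') * (2 * N / (τ * L))) = (X * (1 - 6 * ε')) * (2 * N / (τ * L)) := by ring
    have e2 : M * (m * vS + ε / 4 * T) = ((m * vS + ε / 4 * T) * (L / (2 * Real.pi))) * (2 * N / (τ * L)) := by
      rw [hM]; field_simp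
    rw [e1, e2] at h1
    exact le_of_mul_le_mul_right h1 (by positivity)
  have h3 : m * vS + ε / 4 * T ≤ (1 - 6 * ε') * (m * vS + ε * T) := by
    have e1 : 6 * ε' * (m * vS + ε * T) ≤ 6 * ε' * ((m + ε) * T) := by
      apply mul_le_mul_of_nonneg_left _ (by positivity)
      have := mul_le_mul_of_nonneg_left hvS hm
      linarith
    have e2 : 6 * ε' * ((m + ε) * T) ≤ 3 / 4 * ε * T := by
      have := mul_le_mul_of_nonneg_right hε'2 hT
      linarith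
    linarith
  have h4 : (1 - 6 * ε') * X ≤ (1 - 6 * ε') * ((m * vS + ε * T) * (L / (2 * Real.pi))) := by
    have := mul_le_mul_of_nonneg_right h3 (show 0 ≤ L / (2 * Real.pi) by positivity)
    linarith
  exact le_of_mul_le_mul_left h4 (by linarith)

/-- the bound of the right hand side -/
lemma calc_rhs {vS T N τ ε m R00 R1 K CD CS C q η εs I2 Z DD M R0 KB : ℝ}
    (hT : 0 ≤ T) (hvS0 : 0 ≤ vS) (hvS : vS ≤ T) (hN : 1 ≤ N) (hτ : 0 < τ) (hτ1 : τ ≤ 1) (hε : 0 < ε)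
    (hm : R00 + 2 * R1 = m) (hR00 : 0 ≤ R00) (hR1 : 0 ≤ R1) (hK : 0 ≤ K) (hCD : 0 < CD) (hCS : 0 < CS) (hC : 1 ≤ C)
    (hq : 0 ≤ q) (hη : 0 < η) (hη1 : η ≤ 1) (hηm : η * m ≤ ε / 16) (hεs : 0 < εs) (hεs1 : εs < 1)
    (hM : M = N / (Real.pi * τ)) (_hI0 : 0 ≤ I2) (hI : I2 ≤ N / Real.pi) (hR0 : R0 = (1 - εs) * (R00 + K * (4 * τ)))
    (hZ : Z ≤ 2 * (1 - εs) / τ * (R1 / (1 - εs)) * I2 + CD * I2 + 1) (hDD : DD ≤ vS * Z + T) (hKB : KB = C * N)
    (h1 : τ * (2 * (4 * K + CD)) ≤ ε / 16) (h2 : τ * (16 * Real.pi * (q + 4)) ≤ ε)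
    (h3 : τ * (320 * Real.pi * (q * CS * C ^ 2 * N)) ≤ ε) :
    vS * ((1 + η) * (R0 / ((1 - εs) * τ) * I2) + q) + q * (20 * τ * (CS * KB ^ 2 * T)) + (1 + η) * DD ≤
      M * (m * vS + ε / 4 * T) := by
  have hpi := Real.pi_pos
  have hN0 : 0 < N := by linarith
  have hM0 : 0 < M := by rw [hM]; positivity
  have h1e : 0 < 1 - εs := by linarith
  have ha1 : R0 / ((1 - εs) * τ) * I2 ≤ (R00 + K * (4 * τ)) * M := by
    rw [hR0]
    have e1 : (1 - εs) * (R00 + K * (4 * τ)) / ((1 - εs) * τ) * I2 = (R00 + K * (4 * τ)) / τ * I2 := by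
      field_simp
    rw [e1]
    calc (R00 + K * (4 * τ)) / τ * I2 ≤ (R00 + K * (4 * τ)) / τ * (N / Real.pi) := by gcongr
      _ = _ := by rw [hM]; field_simp
  have ha2 : Z ≤ (2 * R1 + CD * τ) * M + 1 := by
    have e1 : 2 * (1 - εs) / τ * (R1 / (1 - εs)) * I2 = 2 * R1 / τ * I2 := by field_simp
    have e2 : 2 * R1 / τ * I2 ≤ 2 * R1 / τ * (N / Real.pi) := by gcongr
    have e3 : CD * I2 ≤ CD * (N / Real.pi) := by gcongr
    have e4 : 2 * R1 / τ * (N / Real.pi) = 2 * R1 * M := by rw [hM]; field_simp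
    have e5 : CD * (N / Real.pi) = CD * τ * M := by rw [hM]; field_simp
    rw [e1] at hZ
    linarith
  have ha3 : DD ≤ vS * ((2 * R1 + CD * τ) * M + 1) + T := by
    have := mul_le_mul_of_nonneg_left ha2 hvS0
    linarith
  have hb2 : q + 4 ≤ ε / 16 * M := by
    rw [hM, mul_div_assoc', le_div_iff₀ (by positivity)]
    have e1 : (q + 4) * (Real.pi * τ) ≤ ε / 16 := by linarith
    have e2 : ε / 16 * 1 ≤ ε / 16 * N := mul_le_mul_of_nonneg_left hN (by positivity)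
    linarith
  have hb3 : q * (20 * τ * (CS * KB ^ 2)) ≤ ε / 16 * M := by
    rw [hKB, hM, mul_div_assoc', le_div_iff₀ (by positivity)]
    have e1 : q * (20 * τ * (CS * (C * N) ^ 2)) * (Real.pi * τ) =
        τ * (τ * (320 * Real.pi * (q * CS * C ^ 2 * N))) * N / 16 := by ring
    rw [e1]
    have e2 : τ * (τ * (320 * Real.pi * (q * CS * C ^ 2 * N))) ≤ 1 * ε := by
      refine mul_le_mul hτ1 h3 (by positivity) (by norm_num)
    have e3 := mul_le_mul_of_nonneg_right e2 hN0.le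
    linarith
  -- assembly
  have g1 : vS * ((1 + η) * (R0 / ((1 - εs) * τ) * I2)) ≤ vS * ((1 + η) * ((R00 + K * (4 * τ)) * M)) := by gcongr
  have g2 : (1 + η) * DD ≤ (1 + η) * (vS * ((2 * R1 + CD * τ) * M + 1) + T) := by gcongr
  have g3 : (1 + η) * (R00 + K * (4 * τ)) + (1 + η) * (2 * R1 + CD * τ) ≤ m + ε / 8 := by
    have e1 : (1 + η) * (τ * (4 * K + CD)) ≤ 2 * (τ * (4 * K + CD)) := by
      apply mul_le_mul_of_nonneg_right (by linarith)
      positivity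
    have e2 : (1 + η) * (R00 + K * (4 * τ)) + (1 + η) * (2 * R1 + CD * τ) =
        m + η * m + (1 + η) * (τ * (4 * K + CD)) := by rw [← hm]; ring
    rw [e2]
    linarith
  have g4 : vS * M * ((1 + η) * (R00 + K * (4 * τ)) + (1 + η) * (2 * R1 + CD * τ)) ≤ vS * M * (m + ε / 8) :=
    mul_le_mul_of_nonneg_left g3 (by positivity)
  have g5 : vS * (q + (1 + η)) + (1 + η) * T ≤ T * (q + 4) := by
    have e1 : vS * (q + (1 + η)) ≤ T * (q + 2) :=
      mul_le_mul hvS (by linarith) (by linarith) hT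
    have e2 : (1 + η) * T ≤ 2 * T := mul_le_mul_of_nonneg_right (by linarith) hT
    linarith
  have g6 : T * (q + 4) ≤ T * (ε / 16 * M) := mul_le_mul_of_nonneg_left hb2 hT
  have g7 : T * (q * (20 * τ * (CS * KB ^ 2))) ≤ T * (ε / 16 * M) := mul_le_mul_of_nonneg_left hb3 hT
  have g8 : vS * M * (ε / 8) ≤ T * M * (ε / 8) := by gcongr
  have g9 : 0 ≤ T * M * ε := by positivity
  linarith

/-- **the upper bound over the interior zeros of a set** -/
theorem upper (hRH : SP.RHs) (hKER : P_KER) (hMN : P_MN) (hDF : P_DF) (hEF : P_EF) (hSM : P_SM)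
    {R : ℝ → ℝ} {κ : ℝ} (hR : TF R κ) (h0 : 0 < κ) (h1 : κ < 1) (ε k : ℝ) (hε : 0 < ε) (hk : 0 < k) :
    ∃ (h εs τ : ℝ) (B Rs : ℝ → ℝ), 0 < h ∧ 0 < εs ∧ εs < 1 / 2 ∧ 0 < τ ∧ τ ≤ εs / 4 ∧ Continuous B ∧
      Continuous Rs ∧ (∀ x ∈ Set.Icc (0:ℝ) 1, 0 ≤ Rs x) ∧
      ∀ (c : ℕ → ℂ) (C0 : ℝ), (∀ n, ‖c n‖ ≤ ArithmeticFunction.vonMangoldt n) →
        (∃ K0 : ℝ, ∀ᶠ T : ℝ in atTop, Zq Rs c B εs τ (4 * τ) T ≤ K0) ∧
        ∀ᶠ T : ℝ in atTop, ∀ U1 U2 : ℝ, EFD c C0 T U1 U2 → ∀ S : Set ℝ, MeasurableSet S →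
          S ⊆ Set.Icc (T + Real.log T) (2 * T - Real.log T) →
          (∫ t in S, Dq Rs c B εs τ (4 * τ) T t) ≤ volume.real S * Zq Rs c B εs τ (4 * τ) T + T →
          ∀ F : Finset ℂ, F ⊆ Zf riemannZeta U1 U2 →
          (∀ s ∈ F, Set.Icc (s.im - h / Real.log T) (s.im + h / Real.log T) ⊆ S) →
          ∑ s ∈ F, ∑ s' ∈ (Zf riemannZeta U1 U2).filter (fun s' => |s'.im - s.im| ≤ k / Real.log T),
            (mult riemannZeta s : ℝ) * (mult riemannZeta s' : ℝ) * rh R (Real.log T * (s.im - s'.im)) ≤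
          (mo R * volume.real S + ε * T) * (Real.log T / (2 * Real.pi)) := by
  classical
  have hpi := Real.pi_pos
  -- the rescaling
  obtain ⟨εs, hεsd⟩ : ∃ εs, εs = min ((1 - κ) / 2) (1 / 4) := ⟨_, rfl⟩
  have hεs0 : 0 < εs := by rw [hεsd]; apply lt_min <;> linarith
  have hεs1 : εs ≤ 1 / 4 := by rw [hεsd]; exact min_le_right _ _
  have hκs : κ ≤ 1 - εs := by
    have : εs ≤ (1 - κ) / 2 := by rw [hεsd]; exact min_le_left _ _
    linarith
  have hRs0 : ∀ x, 0 ≤ rs R εs x := fun x => mul_nonneg (by linarith) (hR.nonneg _)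
  have hRsc := rs_cont hR εs
  obtain ⟨K, hK⟩ := hR.lip
  have hK0 : 0 ≤ K := by
    have := (abs_nonneg _).trans (hK 1 0)
    simpa using this
  obtain ⟨Rm, hRm⟩ : ∃ Rm : ℝ, ∀ x ∈ Set.Icc (0:ℝ) 1, rs R εs x ≤ Rm := by
    obtain ⟨Rm, hRm⟩ := isCompact_Icc.exists_bound_of_continuousOn (s := Set.Icc (0:ℝ) 1) hRsc.continuousOn
    exact ⟨Rm, fun x hx => (le_abs_self _).trans (hRm x hx)⟩
  have hRm0 : 0 ≤ Rm := (hRs0 0).trans (hRm 0 (by simp))
  have hRslip : ∃ K : ℝ, ∀ x y : ℝ, |rs R εs x - rs R εs y| ≤ K * |x - y| := by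
    refine ⟨K, fun x y => ?_⟩
    unfold rs
    rw [← mul_sub, abs_mul, abs_of_nonneg (by linarith : 0 ≤ 1 - εs)]
    have h2 := hK ((1 - εs) * x) ((1 - εs) * y)
    rw [← mul_sub, abs_mul, abs_of_nonneg (by linarith : 0 ≤ 1 - εs)] at h2
    have h3 : K * ((1 - εs) * |x - y|) ≤ K * |x - y| := by
      have : (1 - εs) * |x - y| ≤ 1 * |x - y| := mul_le_mul_of_nonneg_right (by linarith) (abs_nonneg _)
      rw [one_mul] at this
      exact mul_le_mul_of_nonneg_left this hK0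
    calc (1 - εs) * |R ((1 - εs) * x) - R ((1 - εs) * y)| ≤ 1 * |R ((1 - εs) * x) - R ((1 - εs) * y)| :=
          mul_le_mul_of_nonneg_right (by linarith) (abs_nonneg _)
      _ ≤ _ := by rw [one_mul]; exact h2.trans h3
  obtain ⟨C, hC, hB⟩ := hKER 1
  obtain ⟨CD, hCD, hDFR⟩ := hDF (rs R εs) hRsc (fun x _ => hRs0 x) hRslip
  obtain ⟨CS, hCS, hSM⟩ := hSM
  have hmo0 := mo_nonneg hR
  obtain ⟨R1, hR1d⟩ : ∃ R1 : ℝ, R1 = ∫ x in (0:ℝ)..1, x * R x := ⟨_, rfl⟩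
  have hR10 : 0 ≤ R1 := by
    rw [hR1d]
    exact intervalIntegral.integral_nonneg (by norm_num) fun x hx => mul_nonneg hx.1 (hR.nonneg x)
  have hmo : R 0 + 2 * R1 = mo R := by rw [hR1d]; rfl
  have hR1s : ∫ x in (0:ℝ)..1, x * rs R εs x = R1 / (1 - εs) := by
    have h2 := rs_int hR hεs0 (by linarith) hκs (fun x => x) continuous_id
    rw [eq_div_iff (by linarith), hR1d]
    rw [← intervalIntegral.integral_mul_const]
    have e1 : ∫ x in (0:ℝ)..1, x * rs R εs x * (1 - εs) = ∫ x in (0:ℝ)..1, rs R εs x * ((1 - εs) * x) :=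
      intervalIntegral.integral_congr fun x _ => by
        show x * rs R εs x * (1 - εs) = rs R εs x * ((1 - εs) * x)
        ring
    rw [e1, h2]
    exact intervalIntegral.integral_congr fun x _ => mul_comm _ _
  -- the parameters
  obtain ⟨ε', hε'd⟩ : ∃ ε', ε' = min (1 / 24) (ε / (8 * (mo R + ε))) := ⟨_, rfl⟩
  have hε'0 : 0 < ε' := by rw [hε'd]; positivity
  have hε'1 : ε' ≤ 1 / 24 := by rw [hε'd]; exact min_le_left _ _
  have hε'2 : 6 * ε' * (mo R + ε) ≤ 3 / 4 * ε := by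
    have h2 : ε' ≤ ε / (8 * (mo R + ε)) := by rw [hε'd]; exact min_le_right _ _
    rw [le_div_iff₀ (by positivity)] at h2
    linarith
  obtain ⟨m, hm1, hm2⟩ : ∃ m : ℝ, 1 ≤ m ∧ C / (1 + m) ≤ ε' := by
    refine ⟨max 1 (C / ε'), le_max_left _ _, ?_⟩
    rw [div_le_iff₀ (by positivity)]
    have h2 : C / ε' ≤ max 1 (C / ε') := le_max_right _ _
    rw [div_le_iff₀ hε'0] at h2
    nlinarith
  obtain ⟨N, hNd⟩ : ∃ N, N = m / ε' := ⟨_, rfl⟩
  have hNm : m = ε' * N := by rw [hNd]; field_simp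
  have hN1 : 1 ≤ N := by
    rw [hNd, le_div_iff₀ hε'0]; linarith
  obtain ⟨B, hW⟩ := hB N hN1
  obtain ⟨η, hηd⟩ : ∃ η, η = min 1 (ε / (16 * (mo R + 1))) := ⟨_, rfl⟩
  have hη0 : 0 < η := by rw [hηd]; positivity
  have hη1 : η ≤ 1 := by rw [hηd]; exact min_le_left _ _
  have hηm : η * mo R ≤ ε / 16 := by
    have h2 : η ≤ ε / (16 * (mo R + 1)) := by rw [hηd]; exact min_le_right _ _
    rw [le_div_iff₀ (by positivity)] at h2
    nlinarith
  obtain ⟨q, hq⟩ : ∃ q, q = (1 + 1 / η) * (2 * Rm) := ⟨_, rfl⟩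
  have hq0 : 0 ≤ q := by rw [hq]; positivity
  obtain ⟨τ, hτ, hτb, hτ1, hτ2, hτ3, hτ4⟩ : ∃ τ : ℝ, 0 < τ ∧ τ ≤ εs / 4 ∧
      τ * (2 * (4 * K + CD)) ≤ ε / 16 ∧ τ * (16 * Real.pi * (q + 4)) ≤ ε ∧
      τ * (320 * Real.pi * (q * CS * C ^ 2 * N)) ≤ ε ∧ τ * k ≤ m := by
    have hC0 : 0 < C := by linarith
    have hN0 : 0 < N := by linarith
    obtain ⟨W, hWd⟩ : ∃ W, W = 32 * (4 * K + CD) + 16 * Real.pi * (q + 4) +
      320 * Real.pi * (q * CS * C ^ 2 * N) + ε * k := ⟨_, rfl⟩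
    have w1 : 0 < 32 * (4 * K + CD) := by positivity
    have w2 : 0 < 16 * Real.pi * (q + 4) := by positivity
    have w3 : 0 ≤ 320 * Real.pi * (q * CS * C ^ 2 * N) := by positivity
    have w4 : 0 ≤ ε * k := by positivity
    have hW0 : 0 < W := by rw [hWd]; linarith
    have hh : ∀ w : ℝ, w ≤ W → min (εs / 4) (ε / W) * w ≤ ε := by
      intro w hw
      have h1 : min (εs / 4) (ε / W) ≤ ε / W := min_le_right _ _
      have h0 : 0 < min (εs / 4) (ε / W) := by positivity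
      rw [le_div_iff₀ hW0] at h1
      exact (mul_le_mul_of_nonneg_left hw h0.le).trans h1
    refine ⟨min (εs / 4) (ε / W), by positivity, min_le_left _ _, ?_, ?_, ?_, ?_⟩
    · have := hh (32 * (4 * K + CD)) (by rw [hWd]; linarith)
      linarith
    · exact hh _ (by rw [hWd]; linarith)
    · exact hh _ (by rw [hWd]; linarith)
    · have := hh (ε * k) (by rw [hWd]; linarith)
      have h2 : ε * (min (εs / 4) (ε / W) * k) ≤ ε * 1 := by linarith
      exact (le_of_mul_le_mul_left h2 hε).trans hm1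
  have h4τ : 4 * τ ≤ 1 := by linarith
  have hεs2 : εs < 1 / 2 := by linarith
  refine ⟨N / τ, εs, τ, B, rs R εs, by positivity, hεs0, hεs2, hτ, hτb, hW.cont, hRsc, fun x _ => hRs0 x, ?_⟩
  intro c C0 hc
  have hZq := Zq_le (c := c) hW.cont (ε := εs) (τ := τ) (ηs := 4 * τ) hεs0 hεs2 hτ hτb
    le_rfl h4τ hDF hRsc (fun x _ => hRs0 x) hRslip hW.even hc hDFR
  refine ⟨⟨_, hZq⟩, ?_⟩
  obtain ⟨C1, hC1, hEF⟩ := hEF εs τ hεs0 hεs2 hτ hτb c C0
  have hEF := hEF B (C * N) hW.cont hW.even hW.bd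
  have hSM := hSM εs τ hεs0 hεs2 hτ hτb c C0 B (C * N) hW.cont hW.even hW.bd
  have hlog := Real.tendsto_log_atTop
  have hTl : ∀ᶠ T : ℝ in atTop, T + Real.log T ≤ 2 * T - Real.log T := by
    have h1 := Real.isLittleO_log_id_atTop.def (c := 1 / 2) (by norm_num)
    filter_upwards [h1, eventually_ge_atTop 1] with T hT hT1
    rw [Real.norm_eq_abs, Real.norm_eq_abs, id, abs_of_pos (by linarith : 0 < T)] at hT
    have := le_abs_self (Real.log T)
    linarith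
  have hsm1 : ∀ᶠ T : ℝ in atTop, C1 * (C * N) / Real.log T ≤ 1 / 2 := by
    filter_upwards [hlog.eventually_ge_atTop (2 * (C1 * (C * N)) + 1)] with T hT
    have h0 : 0 ≤ C1 * (C * N) := by positivity
    rw [div_le_iff₀ (by linarith)]
    linarith
  have hsm2 : ∀ᶠ T : ℝ in atTop, 2 * (C * N) * (Real.log T * Real.exp (-(τ * Real.log T) ^ 2 / 2)) ≤ 1 / 2 :=
    hlog.eventually (tail_ev (C * N) τ hτ)
  have hsm3 : ∀ᶠ T : ℝ in atTop, 1 - ε' ≤ Real.exp (-(N / (τ * Real.log T)) ^ 2 / 2) := by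
    filter_upwards [hlog.eventually_ge_atTop (N / τ / ε' + 1)] with T hT
    have h5 : 0 < N / τ / ε' := by positivity
    have hL0 : 0 < Real.log T := by linarith
    have h6 : N / (τ * Real.log T) ≤ ε' := by
      rw [div_le_iff₀ (by positivity)]
      have h7 : N / τ / ε' ≤ Real.log T := by linarith
      rw [div_le_iff₀ hε'0, div_le_iff₀ hτ] at h7
      linarith
    have h7 : 0 ≤ N / (τ * Real.log T) := by positivity
    have h8 := Real.add_one_le_exp (-(N / (τ * Real.log T)) ^ 2 / 2)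
    nlinarith
  filter_upwards [hZq, hEF, hSM, hTl, hsm1, hsm2, hsm3, hlog.eventually_ge_atTop 10, eventually_ge_atTop 1]
    with T tZ tEF tSM tT t1 t2 t3 tL tT1
  intro U1 U2 hefd S hS hSI hDq F hF hFS
  obtain ⟨L, hL⟩ : ∃ L, L = Real.log T := ⟨_, rfl⟩
  rw [← hL] at tT t1 t2 t3 tL hSI hFS ⊢
  have hL0 : 0 < L := by linarith
  have hT0 : 0 < T := by linarith
  have hN0 : 0 < N := by linarith
  have hSf : volume S ≠ ⊤ := ne_top_of_le_ne_top (by simp) (measure_mono hSI)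
  have hτL : 0 < τ * L := mul_pos hτ hL0
  have hup := int_upper (B := B) (c := c) (ε := εs) (τ := τ) (η := η) (K := C * N) (T := T) (U1 := U1) (U2 := U2)
    hW.cont hW.even hMN hεs0 hεs2 hτ hτb hη0 (L := L) (CS := CS) hL hL0 tT (R := rs R εs)
    (R0 := (1 - εs) * (R 0 + K * (4 * τ))) (Rm := Rm) hRsc (fun x hx => ⟨hRs0 x, hRm x hx⟩)
    (mul_nonneg (by linarith) (by have := hR.nonneg 0; positivity)) (fun x hx => by
      unfold rs
      refine mul_le_mul_of_nonneg_left ?_ (by linarith)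
      have h2 := (abs_le.1 (hK ((1 - εs) * x) 0)).2
      rw [sub_zero, abs_of_nonneg (mul_nonneg (by linarith) hx.1)] at h2
      have h3 : K * ((1 - εs) * x) ≤ K * (4 * τ) := by
        apply mul_le_mul_of_nonneg_left _ hK0
        have := hx.1
        have := hx.2
        nlinarith
      linarith)
    (fun t u h1 h2 h3 h4 => by
      rw [hL] at h1 h2 h4 ⊢
      exact (tEF U1 U2 hefd t u h1 h2 h3 h4).trans (by rw [← hL]; exact t1))
    (fun u hu => (Mu_small hW.cont hW.bd hτL hL0 hu).trans t2) hCS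
    (fun u h3 h4 => by
      rw [hL] at h4 ⊢
      exact tSM U1 U2 hefd u h3 h4) hS hSI
  have htr := trunc_le hRH hW (by linarith) (U1 := U1) (U2 := U2) (by linarith [hefd.h1]) hRsc (a := τ * L)
    (Λ := (1 - εs) * L) (m := m) (k := k / L) (ρ := N / (τ * L)) hτL (by linarith) (by
      have : τ * L * (k / L) = τ * k := by field_simp
      rw [this]; exact hτ4) (by linarith) (div_le_div_of_nonneg_right (by linarith) hτL.le) (fun w => by
      have h2 := rs_rh hR hεs0 (by linarith) hκs (w / (1 - εs))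
      rw [mul_div_cancel₀ _ (by linarith : (1 - εs) ≠ 0)] at h2
      rw [h2]; exact hR.pos _) hS hSf hSI F hF (by
      have : N / (τ * L) = N / τ / L := by rw [div_div]
      rw [this]; exact hFS)
  have hrew : ∀ s s' : ℂ, rh (rs R εs) ((1 - εs) * L * (s.im - s'.im)) = rh R (L * (s.im - s'.im)) := by
    intro s s'
    rw [mul_assoc, rs_rh hR hεs0 (by linarith) hκs]
  simp_rw [hrew] at htr
  -- numbers
  have hvS0 : 0 ≤ volume.real S := measureReal_nonneg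
  have hvS : volume.real S ≤ T := by
    have h1 : volume.real S ≤ volume.real (Set.Icc (T + L) (2 * T - L)) := measureReal_mono hSI (by simp)
    rw [Real.volume_real_Icc_of_le tT] at h1
    linarith
  have hI0 : 0 ≤ ∫ ξ in (-1:ℝ)..1, B ξ ^ 2 :=
    intervalIntegral.integral_nonneg (by norm_num) fun x _ => sq_nonneg _
  have hX0 : 0 ≤ ∑ s ∈ F, ∑ s' ∈ (Zf riemannZeta U1 U2).filter (fun s' => |s'.im - s.im| ≤ k / L),
            (mult riemannZeta s : ℝ) * (mult riemannZeta s' : ℝ) * rh R (L * (s.im - s'.im)) :=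
    Finset.sum_nonneg fun s _ => Finset.sum_nonneg fun s' _ => mul_nonneg (by positivity) (hR.pos _)
  have hrhs := calc_rhs (vS := volume.real S) (T := T) (N := N) (τ := τ) (ε := ε) (m := mo R) (R00 := R 0) (R1 := R1)
    (K := K) (CD := CD) (CS := CS) (C := C) (q := q) (η := η) (εs := εs) (I2 := ∫ ξ in (-1:ℝ)..1, B ξ ^ 2)
    (Z := Zq (rs R εs) c B εs τ (4 * τ) T) (DD := ∫ t in S, Dq (rs R εs) c B εs τ (4 * τ) T t)
    (M := N / (Real.pi * τ)) (R0 := (1 - εs) * (R 0 + K * (4 * τ))) (KB := C * N)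
    hT0.le hvS0 hvS hN1 hτ (by linarith) hε hmo (hR.nonneg 0) hR10 hK0 hCD hCS hC hq0 hη0 hη1 hηm hεs0
    (by linarith) rfl hI0 hW.sq rfl (by rw [← hR1s]; exact tZ) hDq rfl hτ1 hτ2 hτ3
  rw [← hq] at hup
  refine calc_up (ε' := ε') (M := N / (Real.pi * τ)) hX0 hN0 hτ hL0 hT0.le hε hmo0 hvS rfl hε'1 hε'2 hε'0.le ?_
    htr (hup.trans hrhs)
  -- the weight
  have hv : 1 - 2 * ε' ≤ (1 - C / (1 + m)) * Real.exp (-(N / (τ * L)) ^ 2 / 2) := by
    have h2 : (1 - ε') * (1 - ε') ≤ (1 - C / (1 + m)) * Real.exp (-(N / (τ * L)) ^ 2 / 2) :=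
      mul_le_mul (by linarith) t3 (by linarith) (by linarith)
    nlinarith
  have hv2 : 1 - 4 * ε' ≤ ((1 - C / (1 + m)) * Real.exp (-(N / (τ * L)) ^ 2 / 2)) ^ 2 := by
    have h2 : (1 - 2 * ε') ^ 2 ≤ ((1 - C / (1 + m)) * Real.exp (-(N / (τ * L)) ^ 2 / 2)) ^ 2 :=
      pow_le_pow_left₀ (by linarith) hv 2
    nlinarith
  have hn : (1 - 2 * ε') * (2 * N / (τ * L)) = 2 * ((N - 2 * m) / (τ * L)) := by
    rw [hNm]; ring
  have hn0 : 0 ≤ (1 - 2 * ε') * (2 * N / (τ * L)) := mul_nonneg (by linarith) (by positivity)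
  rw [← hn]
  calc (1 - 6 * ε') * (2 * N / (τ * L)) ≤ ((1 - 2 * ε') * (1 - 4 * ε')) * (2 * N / (τ * L)) := by
        apply mul_le_mul_of_nonneg_right _ (by positivity)
        nlinarith
    _ = (1 - 2 * ε') * (2 * N / (τ * L)) * (1 - 4 * ε') := by ring
    _ ≤ _ := mul_le_mul_of_nonneg_left hv2 hn0

end

end Run7.h911.PQ
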