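import Pool.Agent.Run7.h911.PQ3

set_option autoImplicit false

/-! # A positive test function with positive transform (helper911) -/

namespace Run7.h911.PQ

open Filter Topology MeasureTheory

noncomputable section

/-- the Fejér kernel -/
def kb (b w : ℝ) : ℝ := 2 * ∫ x in (0:ℝ)..b, (1 / b) * (1 - x / b) * Real.cos (w * x)

lemma kb_eq {b w : ℝ} (hb : 0 < b) (hw : w ≠ 0) : kb b w = 2 * (1 - Real.cos (b * w)) / (b * w) ^ 2 := by
  have h1 : ∫ x in (0:ℝ)..b, (1 / b) * (1 - x / b) * Real.cos (w * x) =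
      ((1 / b) * ((1 - b / b) * Real.sin (w * b) / w - Real.cos (w * b) / (b * w ^ 2))) -
      ((1 / b) * ((1 - 0 / b) * Real.sin (w * 0) / w - Real.cos (w * 0) / (b * w ^ 2))) := by
    refine intervalIntegral.integral_eq_sub_of_hasDerivAt (f := fun x => (1 / b) * ((1 - x / b) * Real.sin (w * x) / w -
      Real.cos (w * x) / (b * w ^ 2))) (fun x _ => ?_) ?_
    · have e1 : HasDerivAt (fun x : ℝ => Real.sin (w * x)) (Real.cos (w * x) * (w * 1)) x :=
        ((hasDerivAt_id x).const_mul w).sin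
      have e2 : HasDerivAt (fun x : ℝ => Real.cos (w * x)) (-Real.sin (w * x) * (w * 1)) x :=
        ((hasDerivAt_id x).const_mul w).cos
      have e3 : HasDerivAt (fun x : ℝ => 1 - x / b) (-(1 / b)) x := ((hasDerivAt_id x).div_const b).const_sub 1
      have e4 := (((e3.mul e1).div_const w).sub (e2.div_const (b * w ^ 2))).const_mul (1 / b)
      refine e4.congr_deriv ?_
      field_simp
      ring
    · exact Continuous.intervalIntegrable (by fun_prop) _ _
  unfold kb
  rw [h1]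
  simp only [mul_zero, Real.sin_zero, Real.cos_zero, zero_div, sub_zero]
  rw [div_self hb.ne', mul_comm w b]
  field_simp
  ring

lemma kb_zero {b : ℝ} (hb : 0 < b) : kb b 0 = 1 := by
  unfold kb
  simp only [zero_mul, Real.cos_zero, mul_one]
  have h1 : ∫ x in (0:ℝ)..b, (1 / b) * (1 - x / b) =
      ((1 / b) * (b - b ^ 2 / (2 * b))) - ((1 / b) * (0 - 0 ^ 2 / (2 * b))) := by
    refine intervalIntegral.integral_eq_sub_of_hasDerivAt (f := fun x => (1 / b) * (x - x ^ 2 / (2 * b)))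
      (fun x _ => ?_) (Continuous.intervalIntegrable (by fun_prop) _ _)
    have e1 := (((hasDerivAt_id x).sub (((hasDerivAt_id x).pow 2).div_const (2 * b)))).const_mul (1 / b)
    refine e1.congr_deriv ?_
    have e : (id x : ℝ) ^ (2 - 1) = x := by simp
    rw [e]
    push_cast
    field_simp
  rw [h1]
  field_simp
  ring

lemma kb_nonneg {b : ℝ} (hb : 0 < b) (w : ℝ) : 0 ≤ kb b w := by
  by_cases hw : w = 0
  · rw [hw, kb_zero hb]; norm_num
  · rw [kb_eq hb hw]
    have := Real.cos_le_one (b * w)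
    exact div_nonneg (by linarith) (sq_nonneg _)

lemma kb_le_one {b : ℝ} (hb : 0 < b) (w : ℝ) : kb b w ≤ 1 := by
  by_cases hw : w = 0
  · rw [hw, kb_zero hb]
  · rw [kb_eq hb hw, div_le_one (by positivity)]
    have := Real.one_sub_sq_div_two_le_cos (x := b * w)
    linarith

lemma kb_low {b D w : ℝ} (hb : 0 < b) (_hD : 0 < D) (hw : |w| ≤ D) :
    2 * (1 - Real.cos (b * w)) / (b * D) ^ 2 ≤ kb b w := by
  by_cases hw0 : w = 0
  · rw [hw0, kb_zero hb, mul_zero, Real.cos_zero]; norm_num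
  · rw [kb_eq hb hw0]
    have h1 := Real.cos_le_one (b * w)
    apply div_le_div_of_nonneg_left (by linarith) (by positivity)
    rw [mul_pow, mul_pow, ← sq_abs w]
    exact mul_le_mul_of_nonneg_left (pow_le_pow_left₀ (abs_nonneg _) hw 2) (by positivity)

lemma kb_up {b D w : ℝ} (hb : 0 < b) (hD : 0 < D) (hw : D ≤ |w|) : kb b w ≤ 4 / (b * D) ^ 2 := by
  have hw0 : w ≠ 0 := by
    rintro rfl
    rw [abs_zero] at hw
    linarith
  rw [kb_eq hb hw0]
  have h1 := Real.neg_one_le_cos (b * w)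
  have h2 : (b * D) ^ 2 ≤ (b * w) ^ 2 := by
    rw [mul_pow, mul_pow, ← sq_abs w]
    exact mul_le_mul_of_nonneg_left (pow_le_pow_left₀ hD.le hw 2) (by positivity)
  exact div_le_div₀ (by norm_num) (by linarith) (by positivity) h2

/-- the test function -/
def fb (b x : ℝ) : ℝ := (1 / b) * max 0 (1 - |x| / b) * (1 + 2 * Real.cos (Real.pi / (2 * b) * x))

lemma fb_cont (b : ℝ) : Continuous (fb b) := by
  unfold fb
  fun_prop

lemma fb_even (b x : ℝ) : fb b (-x) = fb b x := by
  unfold fb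
  rw [abs_neg, mul_neg, Real.cos_neg]

lemma fb_supp {b : ℝ} (hb : 0 < b) (x : ℝ) (hx : b ≤ |x|) : fb b x = 0 := by
  unfold fb
  have h1 : 1 - |x| / b ≤ 0 := by
    have : 1 ≤ |x| / b := by rw [le_div_iff₀ hb]; linarith
    linarith
  rw [max_eq_left h1]
  ring

lemma fb_cos {b : ℝ} (hb : 0 < b) (x : ℝ) (hx : |x| ≤ b) : 0 ≤ Real.cos (Real.pi / (2 * b) * x) := by
  have hpi := Real.pi_pos
  rw [← Real.cos_abs, abs_mul, abs_of_pos (by positivity)]
  refine Real.cos_nonneg_of_mem_Icc ⟨?_, ?_⟩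
  · have : 0 ≤ Real.pi / (2 * b) * |x| := by positivity
    linarith
  · calc Real.pi / (2 * b) * |x| ≤ Real.pi / (2 * b) * b := by gcongr
      _ = Real.pi / 2 := by field_simp

lemma fb_low {b : ℝ} (hb : 0 < b) (x : ℝ) : (1 / b) * max 0 (1 - |x| / b) ≤ fb b x := by
  rcases le_or_gt b |x| with h | h
  · rw [fb_supp hb x h]
    have h1 : 1 - |x| / b ≤ 0 := by
      have : 1 ≤ |x| / b := by rw [le_div_iff₀ hb]; linarith
      linarith
    rw [max_eq_left h1, mul_zero]
  · unfold fb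
    have h1 := fb_cos hb x h.le
    have h2 : 0 ≤ (1 / b) * max 0 (1 - |x| / b) := mul_nonneg (by positivity) (le_max_left _ _)
    nlinarith

lemma fb_nonneg {b : ℝ} (hb : 0 < b) (x : ℝ) : 0 ≤ fb b x :=
  (mul_nonneg (by positivity) (le_max_left _ _)).trans (fb_low hb x)

lemma abs_max0 (x y : ℝ) : |max 0 x - max 0 y| ≤ |x - y| := by
  rcases le_total 0 x with h1 | h1 <;> rcases le_total 0 y with h2 | h2
  · rw [max_eq_right h1, max_eq_right h2]
  · rw [max_eq_right h1, max_eq_left h2, sub_zero, abs_of_nonneg h1, abs_of_nonneg (by linarith)]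
    linarith
  · rw [max_eq_left h1, max_eq_right h2, zero_sub, abs_neg, abs_of_nonneg h2, abs_of_nonpos (by linarith)]
    linarith
  · rw [max_eq_left h1, max_eq_left h2, sub_self, abs_zero]; positivity

lemma fb_lip {b : ℝ} (hb : 0 < b) : ∃ K : ℝ, ∀ x y, |fb b x - fb b y| ≤ K * |x - y| := by
  have hpi := Real.pi_pos
  refine ⟨(1 / b) * ((1 / b) * 3 + 1 * (2 * (Real.pi / (2 * b)))), fun x y => ?_⟩
  have h1 : |max 0 (1 - |x| / b) - max 0 (1 - |y| / b)| ≤ (1 / b) * |x - y| := by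
    refine (abs_max0 _ _).trans ?_
    rw [sub_sub_sub_cancel_left, ← sub_div, abs_div, abs_of_pos hb, div_eq_inv_mul, one_div]
    apply mul_le_mul_of_nonneg_left _ (by positivity)
    rw [abs_sub_comm x y]
    exact abs_abs_sub_abs_le_abs_sub y x
  have h2 : |(1 + 2 * Real.cos (Real.pi / (2 * b) * x)) - (1 + 2 * Real.cos (Real.pi / (2 * b) * y))| ≤
      2 * (Real.pi / (2 * b)) * |x - y| := by
    have e : (1 + 2 * Real.cos (Real.pi / (2 * b) * x)) - (1 + 2 * Real.cos (Real.pi / (2 * b) * y)) =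
        2 * (Real.cos (Real.pi / (2 * b) * x) - Real.cos (Real.pi / (2 * b) * y)) := by ring
    rw [e, abs_mul, abs_of_pos (by norm_num : (0:ℝ) < 2), mul_assoc]
    apply mul_le_mul_of_nonneg_left _ (by norm_num)
    have h3 := Real.abs_cos_sub_cos_le (Real.pi / (2 * b) * x) (Real.pi / (2 * b) * y)
    have hp : 0 < Real.pi / (2 * b) := by positivity
    rw [← mul_sub, abs_mul, abs_of_pos hp] at h3
    exact h3
  have h3 : |1 + 2 * Real.cos (Real.pi / (2 * b) * y)| ≤ 3 := by
    rw [abs_le]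
    constructor <;> linarith [Real.neg_one_le_cos (Real.pi / (2 * b) * y), Real.cos_le_one (Real.pi / (2 * b) * y)]
  have h4 : |max 0 (1 - |x| / b)| ≤ 1 := by
    rw [abs_of_nonneg (le_max_left _ _)]
    apply max_le (by norm_num)
    have : 0 ≤ |x| / b := by positivity
    linarith
  have e : fb b x - fb b y = (1 / b) * ((max 0 (1 - |x| / b) - max 0 (1 - |y| / b)) *
      (1 + 2 * Real.cos (Real.pi / (2 * b) * y)) + max 0 (1 - |x| / b) *
      ((1 + 2 * Real.cos (Real.pi / (2 * b) * x)) - (1 + 2 * Real.cos (Real.pi / (2 * b) * y)))) := by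
    unfold fb
    ring
  rw [e, abs_mul, abs_of_pos (by positivity : 0 < 1 / b), mul_assoc]
  apply mul_le_mul_of_nonneg_left _ (by positivity)
  refine (abs_add_le _ _).trans ?_
  rw [abs_mul, abs_mul, add_mul]
  apply add_le_add
  · calc |max 0 (1 - |x| / b) - max 0 (1 - |y| / b)| * |1 + 2 * Real.cos (Real.pi / (2 * b) * y)| ≤
        ((1 / b) * |x - y|) * 3 := mul_le_mul h1 h3 (abs_nonneg _) (by positivity)
      _ = _ := by ring
  · calc |max 0 (1 - |x| / b)| * |(1 + 2 * Real.cos (Real.pi / (2 * b) * x)) -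
          (1 + 2 * Real.cos (Real.pi / (2 * b) * y))| ≤ 1 * (2 * (Real.pi / (2 * b)) * |x - y|) :=
        mul_le_mul h4 h2 (abs_nonneg _) (by norm_num)
      _ = _ := by ring

/-- the transform -/
lemma fb_rh {b : ℝ} (hb : 0 < b) (hb1 : b ≤ 1) (w : ℝ) :
    rh (fb b) w = kb b w + kb b (w + Real.pi / (2 * b)) + kb b (w - Real.pi / (2 * b)) := by
  unfold rh kb
  have hc : Continuous fun x : ℝ => fb b x * Real.cos (w * x) := (fb_cont b).mul (by fun_prop)
  rw [← intervalIntegral.integral_add_adjacent_intervals (a := 0) (b := b) (c := 1)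
    (hc.intervalIntegrable _ _) (hc.intervalIntegrable _ _)]
  have h0 : ∫ x in b..1, fb b x * Real.cos (w * x) = 0 := by
    rw [intervalIntegral.integral_congr (g := fun _ => (0 : ℝ))]
    · simp
    · intro x hx
      rw [Set.uIcc_of_le hb1] at hx
      show fb b x * Real.cos (w * x) = 0
      rw [fb_supp hb x (hx.1.trans (le_abs_self x)), zero_mul]
  have h1 : ∫ x in (0:ℝ)..b, fb b x * Real.cos (w * x) =
      ∫ x in (0:ℝ)..b, ((1 / b) * (1 - x / b) * Real.cos (w * x) +
        (1 / b) * (1 - x / b) * Real.cos ((w + Real.pi / (2 * b)) * x)) +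
        (1 / b) * (1 - x / b) * Real.cos ((w - Real.pi / (2 * b)) * x) := by
    refine intervalIntegral.integral_congr fun x hx => ?_
    rw [Set.uIcc_of_le hb.le] at hx
    show fb b x * Real.cos (w * x) = _
    unfold fb
    have h2 : 0 ≤ 1 - x / b := by
      have : x / b ≤ 1 := by rw [div_le_one hb]; exact hx.2
      linarith
    rw [abs_of_nonneg hx.1, max_eq_right h2, add_mul w, sub_mul w, Real.cos_add, Real.cos_sub]
    ring
  rw [h0, add_zero, h1, intervalIntegral.integral_add, intervalIntegral.integral_add]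
  · ring
  all_goals exact Continuous.intervalIntegrable (by fun_prop) _ _

lemma fb_pos {b : ℝ} (hb : 0 < b) (hb1 : b ≤ 1) (w : ℝ) : 0 ≤ rh (fb b) w := by
  rw [fb_rh hb hb1]
  linarith [kb_nonneg hb w, kb_nonneg hb (w + Real.pi / (2 * b)), kb_nonneg hb (w - Real.pi / (2 * b))]

/-- the lower bound of the transform -/
lemma fb_rh_low {b : ℝ} (hb : 0 < b) (hb1 : b ≤ 1) (w : ℝ) : 4 / (b * |w| + Real.pi / 2) ^ 2 ≤ rh (fb b) w := by
  rw [fb_rh hb hb1]
  have hpi := Real.pi_pos
  obtain ⟨D, hD⟩ : ∃ D, D = |w| + Real.pi / (2 * b) := ⟨_, rfl⟩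
  have hp : 0 < Real.pi / (2 * b) := by positivity
  have hD0 : 0 < D := by rw [hD]; positivity
  have hbD : b * D = b * |w| + Real.pi / 2 := by rw [hD]; field_simp
  have h1 := kb_low (w := w) hb hD0 (by rw [hD]; linarith)
  have h2 := kb_low (w := w + Real.pi / (2 * b)) hb hD0 (by
    rw [hD]
    refine (abs_add_le _ _).trans ?_
    rw [abs_of_pos hp])
  have h3 := kb_low (w := w - Real.pi / (2 * b)) hb hD0 (by
    rw [hD]
    refine (abs_sub _ _).trans ?_
    rw [abs_of_pos hp])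
  have e1 : b * (w + Real.pi / (2 * b)) = b * w + Real.pi / 2 := by field_simp
  have e2 : b * (w - Real.pi / (2 * b)) = b * w - Real.pi / 2 := by field_simp
  rw [e1, Real.cos_add_pi_div_two] at h2
  rw [e2, Real.cos_sub_pi_div_two] at h3
  rw [hbD] at h1 h2 h3
  have h4 : 4 / (b * |w| + Real.pi / 2) ^ 2 ≤ 2 * (1 - Real.cos (b * w)) / (b * |w| + Real.pi / 2) ^ 2 +
      2 * (1 - -Real.sin (b * w)) / (b * |w| + Real.pi / 2) ^ 2 +
      2 * (1 - Real.sin (b * w)) / (b * |w| + Real.pi / 2) ^ 2 := by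
    rw [← add_div, ← add_div]
    apply div_le_div_of_nonneg_right _ (sq_nonneg _)
    linarith [Real.cos_le_one (b * w)]
  linarith

/-- the upper bound of the transform -/
lemma fb_rh_up {b : ℝ} (hb : 0 < b) (hb1 : b ≤ 1) : ∃ A : ℝ, ∀ w, rh (fb b) w ≤ A / (1 + w ^ 2) := by
  have hpi := Real.pi_gt_three
  refine ⟨3 * (1 + (Real.pi / b) ^ 2) + 96 / b ^ 2, fun w => ?_⟩
  rw [fb_rh hb hb1]
  have hp : 0 < Real.pi / (2 * b) := by positivity
  rcases le_or_gt |w| (Real.pi / b) with h | h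
  · have h1 := kb_le_one hb w
    have h2 := kb_le_one hb (w + Real.pi / (2 * b))
    have h3 := kb_le_one hb (w - Real.pi / (2 * b))
    rw [le_div_iff₀ (by positivity)]
    have h4 : w ^ 2 ≤ (Real.pi / b) ^ 2 := by
      rw [← sq_abs]; exact pow_le_pow_left₀ (abs_nonneg _) h 2
    have h5 : 0 ≤ 96 / b ^ 2 := by positivity
    calc (kb b w + kb b (w + Real.pi / (2 * b)) + kb b (w - Real.pi / (2 * b))) * (1 + w ^ 2) ≤
        3 * (1 + (Real.pi / b) ^ 2) := by
          apply mul_le_mul (by linarith) (by linarith) (by positivity) (by norm_num)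
      _ ≤ _ := by linarith
  · have hw1 : 1 ≤ |w| := by
      have : 1 ≤ Real.pi / b := by rw [le_div_iff₀ hb]; linarith
      linarith
    have hw0 : 0 < |w| / 2 := by linarith
    have hpb : Real.pi / (2 * b) ≤ |w| / 2 := by
      have : Real.pi / (2 * b) = (Real.pi / b) / 2 := by field_simp
      rw [this]; linarith
    have h1 := kb_up (w := w) hb hw0 (by linarith)
    have h2 := kb_up (w := w + Real.pi / (2 * b)) hb hw0 (by
      have := abs_sub_abs_le_abs_sub w (-(Real.pi / (2 * b)))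
      rw [sub_neg_eq_add, abs_neg, abs_of_pos hp] at this
      linarith)
    have h3 := kb_up (w := w - Real.pi / (2 * b)) hb hw0 (by
      have := abs_sub_abs_le_abs_sub w (Real.pi / (2 * b))
      rw [abs_of_pos hp] at this
      linarith)
    have e1 : 4 / (b * (|w| / 2)) ^ 2 = 16 / b ^ 2 / w ^ 2 := by
      rw [mul_pow, div_pow, sq_abs]
      have : w ^ 2 ≠ 0 := by
        have : 0 < |w| ^ 2 := by positivity
        rw [sq_abs] at this
        exact this.ne'
      field_simp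
      norm_num
    rw [e1] at h1 h2 h3
    have hw2 : 1 ≤ w ^ 2 := by rw [← sq_abs]; nlinarith
    have h4 : 16 / b ^ 2 / w ^ 2 ≤ 32 / b ^ 2 / (1 + w ^ 2) := by
      rw [div_le_div_iff₀ (by positivity) (by positivity)]
      have : 0 < 16 / b ^ 2 := by positivity
      have e : 32 / b ^ 2 = 2 * (16 / b ^ 2) := by ring
      rw [e]
      nlinarith
    have h5 : 0 ≤ 3 * (1 + (Real.pi / b) ^ 2) := by positivity
    have h6 : 96 / b ^ 2 / (1 + w ^ 2) ≤ (3 * (1 + (Real.pi / b) ^ 2) + 96 / b ^ 2) / (1 + w ^ 2) :=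
      div_le_div_of_nonneg_right (by linarith) (by positivity)
    have h7 : 32 / b ^ 2 / (1 + w ^ 2) + 32 / b ^ 2 / (1 + w ^ 2) + 32 / b ^ 2 / (1 + w ^ 2) =
        96 / b ^ 2 / (1 + w ^ 2) := by ring
    linarith

lemma fb_TF {b : ℝ} (hb : 0 < b) (hb1 : b ≤ 1) : TF (fb b) b where
  cont := fb_cont b
  even := fb_even b
  supp := fb_supp hb
  nonneg := fb_nonneg hb
  lip := fb_lip hb
  pos := fb_pos hb hb1
  dec := fb_rh_up hb hb1

lemma fb_up {b : ℝ} (hb : 0 < b) (x : ℝ) : fb b x ≤ 3 / b := by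
  unfold fb
  have h3 : 1 + 2 * Real.cos (Real.pi / (2 * b) * x) ≤ 3 := by
    linarith [Real.cos_le_one (Real.pi / (2 * b) * x)]
  have h4 : max 0 (1 - |x| / b) ≤ 1 := by
    apply max_le (by norm_num)
    have : 0 ≤ |x| / b := by positivity
    linarith
  have h5 : 0 ≤ (1 / b) * max 0 (1 - |x| / b) := mul_nonneg (by positivity) (le_max_left _ _)
  calc (1 / b) * max 0 (1 - |x| / b) * (1 + 2 * Real.cos (Real.pi / (2 * b) * x)) ≤
      (1 / b) * max 0 (1 - |x| / b) * 3 := mul_le_mul_of_nonneg_left h3 h5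
    _ ≤ (1 / b) * 1 * 3 := by gcongr
    _ = _ := by ring

lemma fb_mo {b : ℝ} (hb : 0 < b) : mo (fb b) ≤ 6 / b := by
  unfold mo
  have h1 := fb_up hb 0
  have h2 : ∫ x in (0:ℝ)..1, x * fb b x ≤ ∫ x in (0:ℝ)..1, x * (3 / b) := by
    refine intervalIntegral.integral_mono_on (by norm_num) ?_ ?_ fun x hx => ?_
    · exact (continuous_id.mul (fb_cont b)).intervalIntegrable _ _
    · exact Continuous.intervalIntegrable (by fun_prop) _ _
    · exact mul_le_mul_of_nonneg_left (fb_up hb x) hx.1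
  rw [intervalIntegral.integral_mul_const, integral_id] at h2
  have h3 : 0 < 3 / b := by positivity
  have h4 : 6 / b = 2 * (3 / b) := by ring
  rw [h4]
  norm_num at h2
  linarith

end

end Run7.h911.PQ
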