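import Pool.Agent.Run7.h911.SZ4

set_option autoImplicit false

/-! # The law of the size at the zeros, lower half, in blocks; slow variation (helper911) -/

namespace Run7.h911.SZ

open Filter Topology MeasureTheory Set
open Pool.Agent.Y745.SW (Px SB)
open SG (ord NZ)
open SP (RHs)
open Pool.Agent.Y743.NC (dev dev_nonneg dev_int)

noncomputable section

lemma yp_diff {T s t D : ℝ} (hσ : 0 < Real.sqrt (Real.log (Real.log T))) (h : ‖Px T s - Px T t‖ ≤ D) :
    |yp T s - yp T t| ≤ 3 / 2 * (D / Real.sqrt (Real.log (Real.log T))) := by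
  unfold yp
  have hs2 : Real.sqrt 2 ≤ 3 / 2 := by
    rw [Real.sqrt_le_left (by norm_num)]; norm_num
  have hs20 := Real.sqrt_nonneg 2
  rw [← mul_sub, ← sub_div, abs_mul, abs_of_nonneg hs20, abs_div, abs_of_pos hσ]
  have h1 := (Complex.abs_re_le_norm _).trans h
  rw [Complex.sub_re] at h1
  gcongr

/-- the size and the small primes at good indices -/
lemma cls {a a' b b' : ℝ} (ha : a < a') (hb : b' < b) : ∃ η0 : ℝ, 0 < η0 ∧ ∀ η W K : ℝ, η ≤ η0 → 0 < W →
    ∀ᶠ T : ℝ in atTop, ∀ X : Set ℝ, Bk T K η W X → ∀ n ∈ bl T, ¬ bad X n →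
      ((a' < yp T (ord n) → yp T (ord n) < b' → Near a b n) ∧
        (Near a' b' n → a < yp T (ord n) ∧ yp T (ord n) < b)) := by
  obtain ⟨η0, hη0, h⟩ := cmp ha hb
  refine ⟨η0, hη0, fun η W K hη hW => ?_⟩
  filter_upwards [h W hW, ev_basic 1] with T hT hb
  obtain ⟨hT10, -, hL1, -⟩ := hb
  intro X hX n hn hg
  obtain ⟨h1, h2, h3⟩ := mem_bl hn
  obtain ⟨hv1, hv2, hv3⟩ := vn_sub hL1 (by linarith) h2 h3
  have key : ∀ t ∈ vn n, t ∉ X → |Real.log ‖riemannZeta (1 / 2 + t * Complex.I)‖ - (Px T (ord n)).re| ≤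
      W + η0 * Real.sqrt (Real.log (Real.log T)) := by
    intro t ht htX
    have h4 := hX.lg t (hv1 ht) htX (ord n - t) (hv3 t ht)
    rw [add_sub_cancel] at h4
    refine h4.trans ?_
    have := Real.sqrt_nonneg (Real.log (Real.log T))
    nlinarith
  constructor
  · intro h4 h5
    refine near_of hX.meas hv2 hg fun t ht htX => ?_
    exact (hT t (hv1 ht).1 (hv1 ht).2 _ _ (key t ht htX)).1 h4 h5
  · intro h4
    obtain ⟨t, ht, htX, h5, h6⟩ := of_near hv2 hg h4
    exact (hT t (hv1 ht).1 (hv1 ht).2 _ _ (key t ht htX)).2 h5 h6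

lemma G01_shrink {a b : ℝ} (hab : a < b) {ε : ℝ} (hε : 0 < ε) :
    ∃ θ : ℝ, 0 < θ ∧ a + θ < b - θ ∧ G01 a b - ε ≤ G01 (a + θ) (b - θ) := by
  set s : ℕ → Set ℝ := fun n => Set.Ioo (a + 1 / ((n:ℝ) + 1)) (b - 1 / ((n:ℝ) + 1)) with hs
  have hmono : Monotone s := by
    intro m n hmn
    have h1 : 1 / ((n:ℝ) + 1) ≤ 1 / ((m:ℝ) + 1) := by
      have : (m:ℝ) ≤ n := by exact_mod_cast hmn
      gcongr
    exact Set.Ioo_subset_Ioo (by linarith) (by linarith)
  have hU : ⋃ n, s n = Set.Ioo a b := by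
    ext x
    simp only [hs, Set.mem_iUnion, Set.mem_Ioo]
    constructor
    · rintro ⟨n, h1, h2⟩
      have : 0 < 1 / ((n:ℝ) + 1) := by positivity
      constructor <;> linarith
    · rintro ⟨h1, h2⟩
      obtain ⟨n, hn⟩ := exists_nat_one_div_lt (show 0 < min (x - a) (b - x) by
        rw [lt_min_iff]; constructor <;> linarith)
      refine ⟨n, ?_, ?_⟩
      · have := hn.trans_le (min_le_left _ _); linarith
      · have := hn.trans_le (min_le_right _ _); linarith
  have ht := tendsto_measure_iUnion_atTop (μ := ProbabilityTheory.gaussianReal 0 1) hmono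
  rw [hU] at ht
  have ht2 : Tendsto (fun n => (ProbabilityTheory.gaussianReal 0 1).real (s n)) atTop (𝓝 (G01 a b)) :=
    (ENNReal.tendsto_toReal (measure_ne_top _ _)).comp ht
  have h1 : ∀ᶠ n : ℕ in atTop, G01 a b - ε ≤ (ProbabilityTheory.gaussianReal 0 1).real (s n) :=
    ht2.eventually_const_le (by linarith)
  have h2 : ∀ᶠ n : ℕ in atTop, 1 / ((n:ℝ) + 1) < (b - a) / 2 :=
    tendsto_one_div_add_atTop_nhds_zero_nat.eventually_lt_const (by linarith)
  obtain ⟨n, h3, h4⟩ := (h1.and h2).exists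
  refine ⟨1 / ((n:ℝ) + 1), by positivity, by linarith, h3⟩

lemma sig_tendsto : Tendsto (fun T : ℝ => Real.sqrt (Real.log (Real.log T))) atTop atTop :=
  Real.tendsto_sqrt_atTop.comp (Real.tendsto_log_atTop.comp Real.tendsto_log_atTop)

lemma yp_cont (T : ℝ) : Continuous (yp T) := by
  unfold yp
  have := Complex.continuous_re.comp (Pool.Agent.Y141.SW.Px_cont T)
  exact continuous_const.mul (this.div_const _)

open Classical in
/-- **the law of the size at the zeros, lower half, in a block** -/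
theorem law_low (hRH : RHs) {a b ε : ℝ} (hab : a < b) (hε : 0 < ε) : ∀ᶠ T : ℝ in atTop,
    (G01 a b - ε) * (T * (Real.log T / (2 * Real.pi))) ≤ (((bl T).filter (Near a b)).card : ℝ) := by
  obtain ⟨θ, hθ, hab', hG⟩ := G01_shrink hab (show 0 < ε / 8 by positivity)
  obtain ⟨C, hC, hdev⟩ := dev_bd hRH
  obtain ⟨M, hM1, hM⟩ := chM C (ε / 16) hC (by positivity)
  have hpi := Real.pi_pos
  have hpi3 := Real.pi_gt_three
  have hM0 : 0 < M := by linarith
  obtain ⟨κ, hκ⟩ : ∃ κ, κ = ε / (32 * (10 * (2 * Real.pi * M + 2) + 1)) := ⟨_, rfl⟩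
  have hκ0 : 0 < κ := by rw [hκ]; positivity
  obtain ⟨η0, hη0, hcls⟩ := cls (a := a) (a' := a + 2 * θ / 3) (b := b) (b' := b - 2 * θ / 3) (by linarith)
    (by linarith)
  obtain ⟨W, hW0, hX⟩ := exX (2 * Real.pi * M) η0 κ (by positivity) hη0 hκ0
  obtain ⟨δ, hδ⟩ : ∃ δ, δ = min (ε / 16) 1 := ⟨_, rfl⟩
  have hδ0 : 0 < δ := by rw [hδ]; positivity
  have hδ1 : δ ≤ 1 := by rw [hδ]; exact min_le_right _ _
  have hδε : δ ≤ ε / 16 := by rw [hδ]; exact min_le_left _ _
  filter_upwards [hdev M hM0, ev_basic (128 * Real.pi * M / ε + 2 * Real.pi * M + 2), hX,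
    hcls η0 W (2 * Real.pi * M) le_rfl hW0, law_px hab' (show 0 < ε / 16 by positivity),
    sig_tendsto.eventually_ge_atTop (9 / (2 * θ * δ) + 1)] with T hd hb hXT hcT hlaw hσ
  obtain ⟨hT10, hLD, hL1, hT2⟩ := hb
  obtain ⟨X, hXv, hXB⟩ := hXT
  have hT0 : 0 < T := by linarith
  set L := Real.log T with hL
  have hL0 : 0 < L := by linarith
  obtain ⟨σ, hσd⟩ : ∃ σ, σ = Real.sqrt (Real.log L) := ⟨_, rfl⟩
  rw [← hσd] at hσ
  have hσ0 : 0 < σ := by
    have : 0 < 9 / (2 * θ * δ) := by positivity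
    linarith
  obtain ⟨ℓ, hℓ⟩ : ∃ ℓ : ℝ, ℓ = M * (2 * Real.pi / L) := ⟨_, rfl⟩
  have hℓ0 : 0 < ℓ := by rw [hℓ]; positivity
  have hℓ1 : ℓ ≤ 1 := by
    rw [hℓ, mul_div_assoc', div_le_one hL0]
    have : 0 ≤ 128 * Real.pi * M / ε := by positivity
    linarith
  set S := (bl T).filter (bad X) with hS
  obtain ⟨Wb, hW⟩ : ∃ W : Set ℝ, W = ⋃ n ∈ S, Ico (ord n - M * (2 * Real.pi / L)) (ord n) := ⟨_, rfl⟩
  have hWm : MeasurableSet Wb := by
    rw [hW]
    exact Finset.measurableSet_biUnion _ fun n _ => measurableSet_Ico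
  have hWv : volume Wb ≤ ENNReal.ofReal (10 * (2 * Real.pi * M + 2) * (κ * T)) := by
    rw [hW]
    refine bad_vol hL1 hT0 hM0 hXB.meas (by positivity) hXv S fun n hn => ?_
    rw [hS, Finset.mem_filter] at hn
    obtain ⟨a1, a2, a3⟩ := mem_bl hn.1
    exact ⟨by linarith, by linarith, hn.2⟩
  have hWr : volume.real ((Wb ∪ X) ∩ Icc T (2 * T)) ≤ (10 * (2 * Real.pi * M + 2) + 1) * (κ * T) := by
    refine ENNReal.toReal_le_of_le_ofReal (by positivity) ((measure_mono inter_subset_left).trans ?_)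
    refine (measure_union_le _ _).trans ((add_le_add hWv hXv).trans ?_)
    rw [← ENNReal.ofReal_add (by positivity) (by positivity)]
    exact ENNReal.ofReal_le_ofReal (le_of_eq (by ring))
  -- the functions
  obtain ⟨g, hg⟩ : ∃ g : ℝ → ℝ, g = gf (a + 2 * θ / 3) (b - 2 * θ / 3) (θ / 3) := ⟨_, rfl⟩
  have hg0 : ∀ x, 0 ≤ g x := fun x => by rw [hg]; exact gf_nonneg _ _ _ _
  have hg1 : ∀ x, g x ≤ 1 := fun x => by rw [hg]; exact gf_le _ _ _ _
  have hgc : Continuous g := by rw [hg]; exact gf_cont _ _ _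
  obtain ⟨fr, hfr⟩ : ∃ fr : ℕ → ℝ, fr = fun n => if bad X n then 0 else g (yp T (ord n)) := ⟨_, rfl⟩
  have hfr0 : ∀ n, 0 ≤ fr n := fun n => by
    rw [hfr]; simp only
    split_ifs
    · exact le_rfl
    · exact hg0 _
  have hfr1 : ∀ n, fr n ≤ 1 := fun n => by
    rw [hfr]; simp only
    split_ifs
    · exact zero_le_one
    · exact hg1 _
  have hFc : Continuous (fun t => g (yp T t)) := hgc.comp (yp_cont T)
  have hp := Pool.Agent.R320.JL.palmF (T := T) (M := M) (s := 1) (δ := δ) (A := T + L) (B' := 2 * T - 1)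
    (by linarith) hM0 one_pos hδ0.le (by linarith) (by rw [← hL, ← hℓ]; linarith) (by rw [← hL, ← hℓ]; linarith)
    (by linarith) (fun n => ((fr n : ℝ) : ℂ)) (fun n => by
      rw [Complex.norm_real, Real.norm_eq_abs, abs_of_nonneg (hfr0 n)]; exact hfr1 n)
    (fun t => ((g (yp T t) : ℝ) : ℂ)) (Complex.measurable_ofReal.comp hFc.measurable) (fun t => by
      rw [Complex.norm_real, Real.norm_eq_abs, abs_of_nonneg (hg0 _)]; exact hg1 _)
    (Wb ∪ X) (hWm.union hXB.meas) (fun n h1 h2 h3 t h4 h5 h6 => by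
      have hnb : n ∈ bl T := bl_of h1 h2 h3
      have htX : t ∉ X := fun h => h6 (Or.inr h)
      have hng : ¬ bad X n := by
        intro hbd
        apply h6
        left
        rw [hW]
        simp only [mem_iUnion]
        exact ⟨n, by rw [hS, Finset.mem_filter]; exact ⟨hnb, hbd⟩, h4, h5⟩
      rw [← hL, ← hℓ] at h4
      have hfn : fr n = g (yp T (ord n)) := by rw [hfr]; simp only; rw [if_neg hng]
      rw [hfn, ← Complex.ofReal_sub, Complex.norm_real, Real.norm_eq_abs]
      have ht : t ∈ Icc T (2 * T) := ⟨by linarith, by linarith⟩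
      have h7 := hXB.bv t ht htX (ord n - t) (by
        rw [abs_of_pos (by linarith), ← hL]
        have : 2 * Real.pi * M / L = ℓ := by rw [hℓ]; ring
        rw [this]; linarith)
      rw [add_sub_cancel] at h7
      have h8 := yp_diff (T := T) (by rw [← hL, ← hσd]; exact hσ0) h7
      rw [← hL, ← hσd] at h8
      rw [hg]
      refine (gf_lip (by positivity) _ _).trans ?_
      rw [div_le_iff₀ (by positivity)]
      refine h8.trans ?_
      have h9 : 9 / (2 * θ * δ) ≤ σ := by linarith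
      rw [div_le_iff₀ (by positivity)] at h9
      rw [mul_one_div, div_le_iff₀ hσ0]
      linarith)
  rw [← hL, ← hℓ] at hp
  have hsum : ∑ n ∈ Finset.Ioc (NZ (T + L)) (NZ (2 * T - 1)), ((fr n : ℝ) : ℂ) =
      ((∑ n ∈ bl T, fr n : ℝ) : ℂ) := by
    push_cast; rfl
  rw [hsum, intervalIntegral.integral_ofReal, ← Complex.ofReal_mul, ← Complex.ofReal_mul, ← Complex.ofReal_sub,
    Complex.norm_real, Real.norm_eq_abs] at hp
  -- upper bound of the sum
  have hup : ∑ n ∈ bl T, fr n ≤ (((bl T).filter (Near a b)).card : ℝ) := by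
    rw [Finset.card_filter]
    push_cast
    refine Finset.sum_le_sum fun n hn => ?_
    by_cases h1 : Near a b n
    · rw [if_pos h1]; exact hfr1 n
    · rw [if_neg h1]
      by_contra hcon
      push Not at hcon
      have hng : ¬ bad X n := by
        intro h2
        rw [hfr] at hcon
        simp only [if_pos h2] at hcon
        exact lt_irrefl _ hcon
      have hfn : fr n = g (yp T (ord n)) := by rw [hfr]; simp only; rw [if_neg hng]
      rw [hfn, hg] at hcon
      obtain ⟨g1, g2⟩ := gf_pos (by positivity) hcon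
      exact h1 ((hcT X hXB n hn hng).1 g1 g2)
  -- lower bound of the integral
  have hlow : volume.real (SB (a + θ) (b - θ) T) ≤ ∫ t in (T + L)..(2 * T - 1), g (yp T t) := by
    have hsub : SB (a + θ) (b - θ) T ⊆ Icc (T + L) (2 * T - 1) := fun t ht => ⟨ht.1.1, by linarith [ht.1.2]⟩
    have hf : volume (Icc (T + L) (2 * T - 1)) ≠ ⊤ := by rw [Real.volume_Icc]; exact ENNReal.ofReal_ne_top
    have h1 : volume.real (SB (a + θ) (b - θ) T) = ∫ t in SB (a + θ) (b - θ) T, (1 : ℝ) := by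
      rw [setIntegral_const, smul_eq_mul, mul_one]
    rw [h1, intervalIntegral.integral_of_le (by linarith), ← integral_Icc_eq_integral_Ioc]
    have h2 : ∫ t in SB (a + θ) (b - θ) T, (1 : ℝ) ≤ ∫ t in SB (a + θ) (b - θ) T, g (yp T t) := by
      refine setIntegral_mono_on (integrableOn_const (ne_top_of_le_ne_top hf (measure_mono hsub)))
        ((hFc.continuousOn.integrableOn_compact isCompact_Icc).mono_set hsub) hlaw.1 fun t ht => ?_
      rw [hg, gf_one (by positivity)]
      · have := ht.2.1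
        unfold yp
        linarith
      · have := ht.2.2
        unfold yp
        linarith
    refine h2.trans ?_
    exact setIntegral_mono_set (hFc.continuousOn.integrableOn_compact isCompact_Icc)
      (Filter.Eventually.of_forall fun t => hg0 _) (Filter.Eventually.of_forall hsub)
  -- numbers
  have h1 := (abs_le.1 hp).1
  have h2 := (abs_le.1 hlaw.2).1
  set I := ∫ t in (T + L)..(2 * T - 1), g (yp T t) with hI
  set Q := ∑ n ∈ bl T, fr n with hQ
  set N := (((bl T).filter (Near a b)).card : ℝ) with hN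
  have k1 : (10 * (2 * Real.pi * M + 2) + 1) * (κ * T) = ε / 32 * T := by
    rw [hκ]; field_simp
  rw [k1] at hWr
  have k2 : 4 * ℓ ≤ ε / 16 * T := by
    rw [hℓ]
    have h4 : 128 * Real.pi * M / ε ≤ L := by
      have : 0 ≤ 2 * Real.pi * M := by positivity
      linarith
    rw [div_le_iff₀ hε] at h4
    have h5 : 4 * (M * (2 * Real.pi / L)) = 8 * Real.pi * M / L := by ring
    rw [h5, div_le_iff₀ hL0]
    have h6 : ε / 16 * L ≤ ε / 16 * T * L := by
      have : ε / 16 * 1 ≤ ε / 16 * T := by gcongr; linarith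
      nlinarith
    linarith
  have k3 : (3 + δ) * ((1 * T + 1 / 1 * ∫ t in Icc T (2 * T), dev T M t) / 2) ≤ M * (ε / 16 * T) := by
    rw [div_mul_eq_mul_div, div_le_iff₀ hM0] at hM
    have hC1 : 0 ≤ C * (1 + Real.log (1 + M)) := by
      have := Real.log_nonneg (show (1 : ℝ) ≤ 1 + M by linarith)
      positivity
    have h5 : (1 * T + 1 / 1 * ∫ t in Icc T (2 * T), dev T M t) / 2 ≤ (T + C * (1 + Real.log (1 + M)) * T) / 2 := by
      rw [one_mul, div_one, one_mul]
      linarith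
    calc (3 + δ) * ((1 * T + 1 / 1 * ∫ t in Icc T (2 * T), dev T M t) / 2) ≤
        4 * ((T + C * (1 + Real.log (1 + M)) * T) / 2) := by
          refine mul_le_mul (by linarith) h5 ?_ (by norm_num)
          have : 0 ≤ ∫ t in Icc T (2 * T), dev T M t := setIntegral_nonneg measurableSet_Icc fun t _ => dev_nonneg _ _ _
          positivity
      _ = 2 * (1 + C * (1 + Real.log (1 + M))) * T := by ring
      _ ≤ ε / 16 * M * T := mul_le_mul_of_nonneg_right hM hT0.le
      _ = _ := by ring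
  have k4 : M * I - M * (7 * (ε / 16 * T) - 2 * (ε / 16 * T)) ≤ ℓ * Q := by
    have h5 : M * (δ * T + 2 * volume.real ((Wb ∪ X) ∩ Icc T (2 * T)) + 4 * ℓ) ≤
        M * (ε / 16 * T + 2 * (ε / 32 * T) + ε / 16 * T) := by
      gcongr
    have h6 : 0 < M * (ε * T) := by positivity
    linarith
  have k5 : M * (T * G01 (a + θ) (b - θ) - ε / 16 * T) ≤ M * I := by
    refine mul_le_mul_of_nonneg_left ?_ hM0.le
    linarith
  have k6 : ℓ * Q ≤ ℓ * N := mul_le_mul_of_nonneg_left hup hℓ0.le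
  have k7 : M * (T * (G01 a b - ε)) ≤ ℓ * N := by
    have h5 : T * (G01 a b - ε / 8) ≤ T * G01 (a + θ) (b - θ) := mul_le_mul_of_nonneg_left hG hT0.le
    have h6 : M * (T * (G01 a b - ε)) ≤ M * (T * G01 (a + θ) (b - θ) - ε / 16 * T - 5 * (ε / 16 * T)) := by
      refine mul_le_mul_of_nonneg_left ?_ hM0.le
      have : 0 < ε * T := by positivity
      linarith
    linarith
  have k8 : ℓ = M * (2 * Real.pi / L) := hℓ
  rw [k8, mul_assoc] at k7
  have k9 := le_of_mul_le_mul_left k7 hM0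
  rw [div_mul_eq_mul_div, le_div_iff₀ hL0] at k9
  rw [mul_div_assoc', mul_div_assoc', div_le_iff₀ (by positivity)]
  linarith

end

end Run7.h911.SZ
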