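import Pool.Agent.Run7.h911.PQ4
import Pool.Agent.Run7.h911.SZ5

set_option autoImplicit false

/-! # The weight on the complement of a class (helper911) -/

namespace Run7.h911.PQ

open Filter Topology MeasureTheory Complex
open Pool.Agent.Y745.SW
open Run7.h911.SZ (G01 G01_nonneg G01_le)

noncomputable section

section

variable {R : ℝ → ℝ} (hR : Continuous R) (hR0 : ∀ x ∈ Set.Icc (0:ℝ) 1, 0 ≤ R x) {B : ℝ → ℝ} (hB : Continuous B)
  {c : ℕ → ℂ} (hc : ∀ n, ‖c n‖ ≤ ArithmeticFunction.vonMangoldt n) {ε τ : ℝ} (hε : 0 < ε) (hε2 : ε < 1 / 2)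
  (hτ : 0 < τ) (hτε : τ ≤ ε / 4)

include hR hR0 hB hc hε hε2 hτ hτε

/-- the mean value of the weight -/
lemma total_dd {δ : ℝ} (hδ : 0 < δ) : ∀ᶠ T : ℝ in atTop,
    (∫ t in (T + Real.log T)..(2 * T - Real.log T), Dq R c B ε τ (4 * τ) T t) ≤
      T * Zq R c B ε τ (4 * τ) T + δ * T := by
  have h := Run7.h911.SZ.a_TI R hR hR0 B hB c hc ε τ (4 * τ) hε hε2 hτ hτε le_rfl (by linarith) 0 0
  rw [Metric.tendsto_nhds] at h
  filter_upwards [h δ hδ, eventually_gt_atTop 0] with T hT hT0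
  simp only [pow_zero, one_mul, Nat.cast_zero, add_zero, zero_div, Real.rpow_zero, div_one, mul_one, if_true,
    Nat.factorial_zero, Nat.cast_one, dist_zero_right, intervalIntegral.integral_ofReal] at hT
  rw [← Complex.ofReal_mul, ← Complex.ofReal_sub, Complex.norm_real, Real.norm_eq_abs] at hT
  have h1 := (abs_lt.1 hT).2
  have h2 : (1 / T) * (∫ t in (T + Real.log T)..(2 * T - Real.log T), Dq R c B ε τ (4 * τ) T t) ≤
      Zq R c B ε τ (4 * τ) T + δ := by linarith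
  rw [one_div, inv_mul_eq_div, div_le_iff₀ hT0] at h2
  linarith

/-- the complement of a class -/
lemma comp_dd {K0 : ℝ} (hK0 : ∀ᶠ T : ℝ in atTop, Zq R c B ε τ (4 * τ) T ≤ K0) {a b δ : ℝ} (hab : a < b)
    (hδ : 0 < δ) : ∀ᶠ T : ℝ in atTop, MeasurableSet (SB a b T) ∧
      volume.real (Set.Icc (T + Real.log T) (2 * T - Real.log T) \ SB a b T) ≤ T * (1 - G01 a b) + δ * T ∧
      (∫ t in Set.Icc (T + Real.log T) (2 * T - Real.log T) \ SB a b T, Dq R c B ε τ (4 * τ) T t) ≤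
        volume.real (Set.Icc (T + Real.log T) (2 * T - Real.log T) \ SB a b T) * Zq R c B ε τ (4 * τ) T + T := by
  obtain ⟨K1, hK1⟩ : ∃ K1 : ℝ, K1 = |K0| + 1 := ⟨_, rfl⟩
  have hK10 : 0 < K1 := by rw [hK1]; positivity
  obtain ⟨δ', hδ'⟩ : ∃ δ', δ' = min δ (1 / (4 * (K1 + 1))) := ⟨_, rfl⟩
  have hδ'0 : 0 < δ' := by rw [hδ']; positivity
  have hδ'1 : δ' ≤ δ := by rw [hδ']; exact min_le_left _ _
  have hδ'2 : 4 * (δ' * (K1 + 1)) ≤ 1 := by
    have h1 : δ' ≤ 1 / (4 * (K1 + 1)) := by rw [hδ']; exact min_le_right _ _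
    rw [le_div_iff₀ (by positivity)] at h1
    linarith
  have hind := Run7.h911.SZ.a_IND R hR hR0 B hB c hc ε τ (4 * τ) hε hε2 hτ hτε le_rfl (by linarith)
    ⟨K0, hK0⟩ a b δ' hab hδ'0
  have hlo := Real.isLittleO_log_id_atTop.def (c := min (1 / 4) (δ' / 2)) (by positivity)
  filter_upwards [hind, total_dd hR hR0 hB hc hε hε2 hτ hτε hδ'0, hK0, hlo, eventually_ge_atTop 10,
    Real.tendsto_log_atTop.eventually_ge_atTop 1] with T h1 h2 h3 h4 h5 h6
  obtain ⟨i1, i2, i3⟩ := h1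
  have hT0 : 0 < T := by linarith
  rw [Real.norm_eq_abs, Real.norm_eq_abs, id, abs_of_pos hT0] at h4
  have h4' := (le_abs_self _).trans h4
  have h4a : Real.log T ≤ 1 / 4 * T := h4'.trans (by gcongr; exact min_le_left _ _)
  have h4b : Real.log T ≤ δ' / 2 * T := h4'.trans (by gcongr; exact min_le_right _ _)
  obtain ⟨L, hL⟩ : ∃ L, L = Real.log T := ⟨_, rfl⟩
  rw [← hL] at h2 h4a h4b h6 ⊢
  have hle : T + L ≤ 2 * T - L := by linarith
  have hsub : SB a b T ⊆ Set.Icc (T + L) (2 * T - L) := fun t ht => by rw [hL]; exact ht.1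
  have hIf : volume (Set.Icc (T + L) (2 * T - L)) ≠ ⊤ := by rw [Real.volume_Icc]; exact ENNReal.ofReal_ne_top
  have hSf : volume (SB a b T) ≠ ⊤ := ne_top_of_le_ne_top hIf (measure_mono hsub)
  have hvol : volume.real (Set.Icc (T + L) (2 * T - L) \ SB a b T) = (T - 2 * L) - volume.real (SB a b T) := by
    rw [measureReal_sdiff hsub i1 hIf, Real.volume_real_Icc_of_le hle]
    ring
  have hDc : Continuous (fun t : ℝ => Dq R c B ε τ (4 * τ) T t) :=
    Dq_cont hB hε hε2 hτ hτε le_rfl (by linarith) hR (by rw [← hL]; linarith)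
  have hDi : IntegrableOn (fun t : ℝ => Dq R c B ε τ (4 * τ) T t) (Set.Icc (T + L) (2 * T - L)) :=
    hDc.continuousOn.integrableOn_compact isCompact_Icc
  have hint : (∫ t in Set.Icc (T + L) (2 * T - L) \ SB a b T, Dq R c B ε τ (4 * τ) T t) =
      (∫ t in Set.Icc (T + L) (2 * T - L), Dq R c B ε τ (4 * τ) T t) -
        ∫ t in SB a b T, Dq R c B ε τ (4 * τ) T t := setIntegral_sdiff i1 hDi hsub
  rw [integral_Icc_eq_integral_Ioc, ← intervalIntegral.integral_of_le hle] at hint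
  have hG : (ProbabilityTheory.gaussianReal 0 1).real (Set.Ioo a b) = G01 a b := rfl
  rw [hG] at i2 i3
  have j2 := abs_le.1 i2
  have j3 := (abs_le.1 i3).1
  have hZ0 : 0 ≤ Zq R c B ε τ (4 * τ) T := by
    unfold Zq
    refine mul_nonneg (by norm_num) (intervalIntegral.integral_nonneg (by linarith) fun y hy => ?_)
    exact mul_nonneg (hR0 y ⟨by linarith [hy.1], hy.2⟩) (Finset.sum_nonneg fun n _ => by positivity)
  have hZK : Zq R c B ε τ (4 * τ) T ≤ K1 := by
    have := le_abs_self K0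
    rw [hK1]; linarith
  refine ⟨i1, ?_, ?_⟩
  · rw [hvol]
    have : δ' * T ≤ δ * T := mul_le_mul_of_nonneg_right hδ'1 hT0.le
    linarith [j2.1]
  · rw [hvol, hint]
    have e1 : (T * (1 - G01 a b) - 2 * (δ' * T)) * Zq R c B ε τ (4 * τ) T ≤
        (T - 2 * L - volume.real (SB a b T)) * Zq R c B ε τ (4 * τ) T :=
      mul_le_mul_of_nonneg_right (by linarith [j2.2]) hZ0
    have e2 : 2 * (δ' * T) * Zq R c B ε τ (4 * τ) T ≤ 2 * (δ' * T) * K1 :=
      mul_le_mul_of_nonneg_left hZK (by positivity)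
    have e3 : 4 * (δ' * (K1 + 1)) * T ≤ 1 * T := mul_le_mul_of_nonneg_right hδ'2 hT0.le
    have e4 : 0 < δ' * T := by positivity
    have e5 : 0 < δ' * T * K1 := by positivity
    linarith

end

end

end Run7.h911.PQ
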