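import Pool.Agent.Run7.h911.PQ5
import Pool.Agent.R304.UP.Small

set_option autoImplicit false

/-! # Size classes of ordinates, bad ordinates (helper911) -/

namespace Run7.h911.PQ

open Filter Topology MeasureTheory Complex
open Pool.Agent.Y745.SW (Px SB)
open H370 (Zf mult good_zeta)
open Run7.h911.SZ (siz yp Bk)
open Pool.Agent.R304.UP (nn nn_nonneg)

noncomputable section

/-- the window at an ordinate -/
def wn (y : ℝ) : Set ℝ := Set.Icc (y - 1 / Real.log y) (y + 1 / Real.log y)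

/-- the window meets the exceptional set in more than a tenth -/
def badO (X : Set ℝ) (y : ℝ) : Prop := ENNReal.ofReal (1 / 10 * (2 / Real.log y)) < volume (X ∩ wn y)

/-- the size of zeta is in `(a, b)` on nine tenths of the window of the ordinate -/
def NearO (a b y : ℝ) : Prop :=
  9 / 10 * (2 / Real.log y) ≤ volume.real {t : ℝ | t ∈ wn y ∧ a < siz t ∧ siz t < b}

lemma wn_sub {T : ℝ} (hL : 1 ≤ Real.log T) (hT : 0 < T) {y : ℝ} (h1 : T + Real.log T < y)
    (h2 : y ≤ 2 * T - 1) : wn y ⊆ Set.Icc T (2 * T) ∧ 0 < Real.log y ∧ ∀ t ∈ wn y, |y - t| ≤ 1 / Real.log T := by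
  have h3 : Real.log T ≤ Real.log y := Real.log_le_log hT (by linarith)
  have h4 : 1 / Real.log y ≤ 1 / Real.log T := one_div_le_one_div_of_le (by linarith) h3
  have h5 : 1 / Real.log T ≤ 1 := by rw [div_le_one (by linarith)]; exact hL
  refine ⟨?_, by linarith, fun t ht => ?_⟩
  · unfold wn
    exact Set.Icc_subset_Icc (by linarith) (by linarith)
  · unfold wn at ht
    rw [abs_le]
    constructor <;> linarith [ht.1, ht.2]

lemma wn_vol {y : ℝ} (h : 0 < Real.log y) : volume (wn y) = ENNReal.ofReal (2 / Real.log y) ∧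
    volume.real (wn y) = 2 / Real.log y := by
  have e : y + 1 / Real.log y - (y - 1 / Real.log y) = 2 / Real.log y := by ring
  have h1 : volume (wn y) = ENNReal.ofReal (2 / Real.log y) := by
    unfold wn
    rw [Real.volume_Icc, e]
  refine ⟨h1, ?_⟩
  rw [Measure.real, h1, ENNReal.toReal_ofReal (by positivity)]

/-- from the small primes to the size -/
lemma near_ofO {X : Set ℝ} (hX : MeasurableSet X) {y : ℝ} (h : 0 < Real.log y) (hg : ¬ badO X y) {a b : ℝ}
    (hs : ∀ t ∈ wn y, t ∉ X → a < siz t ∧ siz t < b) : NearO a b y := by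
  unfold NearO
  have h1 : volume.real (X ∩ wn y) ≤ 1 / 10 * (2 / Real.log y) := by
    unfold badO at hg
    push Not at hg
    exact ENNReal.toReal_le_of_le_ofReal (by positivity) hg
  have h2 := (wn_vol h).2
  have hf : volume (wn y) ≠ ⊤ := by rw [(wn_vol h).1]; exact ENNReal.ofReal_ne_top
  have h3 := measureReal_inter_add_sdiff (μ := volume) (s := wn y) hX hf
  rw [h2, Set.inter_comm] at h3
  have h4 : volume.real (wn y \ X) ≤ volume.real {t : ℝ | t ∈ wn y ∧ a < siz t ∧ siz t < b} := by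
    refine measureReal_mono (fun t ht => ⟨ht.1, hs t ht.1 ht.2⟩) ?_
    exact ne_top_of_le_ne_top hf (measure_mono fun t ht => ht.1)
  linarith

/-- the class of an ordinate from the small primes nearby -/
lemma clsO {a a' b b' : ℝ} (ha : a < a') (hb : b' < b) : ∃ η0 : ℝ, 0 < η0 ∧ ∀ W K : ℝ, 0 < W → 0 < K →
    ∀ᶠ T : ℝ in atTop, ∀ X : Set ℝ, Bk T (K + 1) η0 W X → ∀ y : ℝ, T + Real.log T < y → y ≤ 2 * T - 1 →
      ¬ badO X y → ∀ t : ℝ, |t - y| ≤ K / Real.log T → a' < yp T t → yp T t < b' → NearO a b y := by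
  obtain ⟨η0, hη0, h⟩ := Run7.h911.SZ.cmp ha hb
  refine ⟨η0, hη0, fun W K hW hK => ?_⟩
  filter_upwards [h (W + 1) (by linarith), Run7.h911.SZ.ev_basic 1] with T hT hb
  obtain ⟨hT10, -, hL1, -⟩ := hb
  intro X hX y h1 h2 hg t hty h4 h5
  obtain ⟨hv1, hv2, hv3⟩ := wn_sub hL1 (by linarith) h1 h2
  refine near_ofO hX.meas hv2 hg fun t1 ht1 htX => ?_
  have h6 := hX.lg t1 (hv1 ht1) htX 0 (by rw [abs_zero]; positivity)
  rw [add_zero] at h6
  have h7 := hX.bv t1 (hv1 ht1) htX (t - t1) (by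
    have e : t - t1 = (t - y) + (y - t1) := by ring
    rw [e, add_div]
    exact (abs_add_le _ _).trans (add_le_add hty (hv3 t1 ht1)))
  rw [add_sub_cancel] at h7
  have h8 := (Complex.abs_re_le_norm _).trans h7
  rw [Complex.sub_re] at h8
  have h9 : |Real.log ‖riemannZeta (1 / 2 + t1 * Complex.I)‖ - (Px T t).re| ≤
      (W + 1) + η0 * Real.sqrt (Real.log (Real.log T)) := by
    have e : Real.log ‖riemannZeta (1 / 2 + t1 * Complex.I)‖ - (Px T t).re =
      (Real.log ‖riemannZeta (1 / 2 + t1 * Complex.I)‖ - (Px T t1).re) - ((Px T t).re - (Px T t1).re) := by ring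
    rw [e]
    refine (abs_sub _ _).trans ?_
    linarith
  exact (hT t1 (hv1 ht1).1 (hv1 ht1).2 _ _ h9).1 h4 h5

/-- **the bad ordinates carry few pairs** -/
lemma bad_few (hRH : SP.RHs) {ε : ℝ} (hε : 0 < ε) : ∃ κ : ℝ, 0 < κ ∧ ∀ᶠ T : ℝ in atTop, ∀ X : Set ℝ,
    MeasurableSet X → volume X ≤ ENNReal.ofReal (κ * T) → ∀ F : Finset ℂ, F ⊆ Zf riemannZeta T (2 * T) →
    (∀ s ∈ F, badO X s.im ∨ s.im < T + 2 * Real.log T ∨ 2 * T - 2 * Real.log T < s.im) →
    ∑ s ∈ F, (mult riemannZeta s : ℝ) * nn T s ≤ ε * (T * Real.log T) := by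
  classical
  obtain ⟨C1, T1, hC1, hT1, hint⟩ := Pool.Agent.R304.UP.interior hRH
  obtain ⟨C2, hC2, hbd⟩ := Pool.Agent.R304.UP.boundary
  obtain ⟨A, hA⟩ : ∃ A : ℝ, A = Real.sqrt (4 * C1 / ε) := ⟨_, rfl⟩
  have hA0 : 0 < A := by rw [hA]; positivity
  have hA2 : A ^ 2 = 4 * C1 / ε := by rw [hA]; exact Real.sq_sqrt (by positivity)
  obtain ⟨κ, hκ⟩ : ∃ κ, κ = ε / (4 * C1 * A ^ 2) / 30 := ⟨_, rfl⟩
  have hκ0 : 0 < κ := by rw [hκ]; positivity
  refine ⟨κ, hκ0, ?_⟩
  have ev : ∀ᶠ T : ℝ in atTop, Real.log T ^ 4 / (1 * T + 0) < ε / (4 * C2) :=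
    (Real.tendsto_pow_log_div_mul_add_atTop 1 0 4 one_ne_zero).eventually
      (gt_mem_nhds (show (0 : ℝ) < ε / (4 * C2) by positivity))
  filter_upwards [ev, eventually_ge_atTop T1, Real.tendsto_log_atTop.eventually_ge_atTop 2] with T h2 hTT1 hL2
  intro X hXm hXv F hF hFX
  have hT10 := hT1.trans hTT1
  rw [one_mul, add_zero, div_lt_iff₀ (by linarith)] at h2
  obtain ⟨L, hL⟩ : ∃ L, L = Real.log T := ⟨_, rfl⟩
  rw [← hL] at h2 hL2 hFX ⊢
  have hL0 : 0 < L := by linarith
  have hT0 : 0 < T := by linarith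
  obtain ⟨S, hS⟩ : ∃ S : Set ℝ, S = {t : ℝ | ENNReal.ofReal (1 / (10 * L)) ≤
    volume (X ∩ Set.Icc (t - 3 / (2 * L)) (t + 3 / (2 * L)))} ∩ Set.Icc (T + L) (2 * T - L) := ⟨_, rfl⟩
  have hSm : MeasurableSet S := by
    rw [hS]
    refine MeasurableSet.inter ?_ measurableSet_Icc
    have hm : MeasurableSet {q : ℝ × ℝ | q.2 ∈ X ∧ (q.1 - 3 / (2 * L) ≤ q.2 ∧ q.2 ≤ q.1 + 3 / (2 * L))} :=
      (measurable_snd hXm).inter (Run7.h911.SZ.strip_meas _ _)
    exact (measurable_measure_prodMk_left hm) measurableSet_Ici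
  have hSv : (volume S).toReal ≤ ε / (4 * C1 * A ^ 2) * T := by
    have h3 : volume S ≤ ENNReal.ofReal (ε / (4 * C1 * A ^ 2) * T) := by
      rw [hS]
      refine (measure_mono Set.inter_subset_left).trans ?_
      refine (Run7.h911.SZ.overlap_few hXm (by positivity) (by positivity) (by positivity) hXv).trans (le_of_eq ?_)
      congr 1
      rw [hκ]
      field_simp
      norm_num
    exact ENNReal.toReal_le_of_le_ofReal (by positivity) h3
  obtain ⟨F1, hF1⟩ : ∃ F1, F1 = F.filter (fun s => T + 2 * L ≤ s.im ∧ s.im ≤ 2 * T - 2 * L) := ⟨_, rfl⟩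
  obtain ⟨F2, hF2⟩ : ∃ F2, F2 = F.filter (fun s => |s.im - T| ≤ 2 * L) := ⟨_, rfl⟩
  obtain ⟨F3, hF3⟩ : ∃ F3, F3 = F.filter (fun s => |s.im - 2 * T| ≤ 2 * L) := ⟨_, rfl⟩
  have hcov : F ⊆ F1 ∪ F2 ∪ F3 := by
    intro s hs
    have h3 := (H370.mem_Zf good_zeta (by linarith)).mp (hF hs)
    obtain ⟨-, -, h4, h5, -⟩ := h3
    rw [Finset.mem_union, Finset.mem_union, hF1, hF2, hF3, Finset.mem_filter, Finset.mem_filter,
      Finset.mem_filter]
    rcases le_or_gt (T + 2 * L) s.im with h6 | h6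
    · rcases le_or_gt s.im (2 * T - 2 * L) with h7 | h7
      · exact Or.inl (Or.inl ⟨hs, h6, h7⟩)
      · exact Or.inr ⟨hs, by rw [abs_le]; constructor <;> linarith⟩
    · exact Or.inl (Or.inr ⟨hs, by rw [abs_le]; constructor <;> linarith⟩)
  have hpos : ∀ s : ℂ, 0 ≤ (mult riemannZeta s : ℝ) * nn T s := fun s =>
    mul_nonneg (Nat.cast_nonneg _) (nn_nonneg T s)
  have hF1' : F1 ⊆ F := by rw [hF1]; exact Finset.filter_subset _ _
  have hF2' : F2 ⊆ F := by rw [hF2]; exact Finset.filter_subset _ _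
  have hF3' : F3 ⊆ F := by rw [hF3]; exact Finset.filter_subset _ _
  have g1 := hint T hTT1 A hA0 S hSm (by rw [hS, ← hL]; exact Set.inter_subset_right) F1
    (hF1'.trans hF) (by
      intro s hs t ht
      rw [← hL] at ht
      rw [hF1, Finset.mem_filter] at hs
      obtain ⟨hs1, hs2, hs3⟩ := hs
      have hbad : badO X s.im := by
        rcases hFX s hs1 with h | h | h
        · exact h
        · linarith
        · linarith
      obtain ⟨ht1, ht2⟩ := ht
      have hhalf : 1 / (2 * L) ≤ 1 := by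
        rw [div_le_one (by positivity)]; linarith
      rw [hS]
      refine ⟨?_, by linarith, by linarith⟩
      rw [Set.mem_ofPred_eq]
      have hs0 : T ≤ s.im := by linarith
      have hlo : L ≤ Real.log s.im := by rw [hL]; exact Real.log_le_log hT0 hs0
      have hlu : Real.log s.im ≤ 2 * L := by
        have h4 := Real.log_le_log (by linarith) (show s.im ≤ 2 * T by linarith)
        rw [Real.log_mul (by norm_num) hT0.ne', ← hL] at h4
        have := Real.log_two_lt_d9
        linarith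
      have hinv : 1 / Real.log s.im ≤ 1 / L := one_div_le_one_div_of_le hL0 hlo
      unfold badO at hbad
      refine le_trans ?_ (hbad.le.trans (measure_mono ?_))
      · refine ENNReal.ofReal_le_ofReal ?_
        rw [show (1 : ℝ) / 10 * (2 / Real.log s.im) = 1 / (5 * Real.log s.im) by
          have : Real.log s.im ≠ 0 := by linarith
          field_simp; norm_num]
        exact one_div_le_one_div_of_le (by linarith) (by linarith)
      · refine Set.inter_subset_inter_right _ ?_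
        unfold wn
        have e : 3 / (2 * L) = 1 / L + 1 / (2 * L) := by field_simp; norm_num
        rw [e]
        refine Set.Icc_subset_Icc (by linarith) (by linarith))
  have g2 := hbd T hT10 T F2 (hF2'.trans hF)
    (fun s hs => by rw [hF2] at hs; rw [← hL]; exact (Finset.mem_filter.mp hs).2)
  have g3 := hbd T hT10 (2 * T) F3 (hF3'.trans hF)
    (fun s hs => by rw [hF3] at hs; rw [← hL]; exact (Finset.mem_filter.mp hs).2)
  rw [← hL] at g1 g2 g3
  have g4 : ∑ s ∈ F, (mult riemannZeta s : ℝ) * nn T s ≤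
      ∑ s ∈ F1, (mult riemannZeta s : ℝ) * nn T s + ∑ s ∈ F2, (mult riemannZeta s : ℝ) * nn T s +
        ∑ s ∈ F3, (mult riemannZeta s : ℝ) * nn T s := by
    refine (Finset.sum_le_sum_of_subset_of_nonneg hcov fun s _ _ => hpos s).trans ?_
    have h3 : ∀ X Y : Finset ℂ, ∑ s ∈ X ∪ Y, (mult riemannZeta s : ℝ) * nn T s ≤
        ∑ s ∈ X, (mult riemannZeta s : ℝ) * nn T s + ∑ s ∈ Y, (mult riemannZeta s : ℝ) * nn T s := by
      intro X Y
      have := Finset.sum_union_inter (s₁ := X) (s₂ := Y)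
        (f := fun s => (mult riemannZeta s : ℝ) * nn T s)
      have h4 : 0 ≤ ∑ s ∈ X ∩ Y, (mult riemannZeta s : ℝ) * nn T s :=
        Finset.sum_nonneg fun s _ => hpos s
      linarith
    have h4 := h3 (F1 ∪ F2) F3
    have h5 := h3 F1 F2
    linarith
  have k1 : C1 * L * (A ^ 2 * (volume S).toReal + T / A ^ 2) ≤ ε / 2 * (T * L) := by
    have b1 : A ^ 2 * (volume S).toReal ≤ A ^ 2 * (ε / (4 * C1 * A ^ 2) * T) :=
      mul_le_mul_of_nonneg_left hSv (by positivity)
    have b2 : A ^ 2 * (ε / (4 * C1 * A ^ 2) * T) = ε / (4 * C1) * T := by field_simp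
    have b3 : T / A ^ 2 = ε / (4 * C1) * T := by rw [hA2]; field_simp
    have b4 : C1 * L * (A ^ 2 * (volume S).toReal + T / A ^ 2) ≤
        C1 * L * (ε / (4 * C1) * T + ε / (4 * C1) * T) := by
      apply mul_le_mul_of_nonneg_left _ (by positivity)
      linarith
    refine b4.trans (le_of_eq ?_)
    field_simp
    ring
  have k2 : C2 * L ^ 4 ≤ ε / 4 * (T * L) := by
    have b1 : C2 * L ^ 4 ≤ C2 * (ε / (4 * C2) * T) := mul_le_mul_of_nonneg_left h2.le hC2.le
    have b2 : C2 * (ε / (4 * C2) * T) = ε / 4 * T := by field_simp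
    have b3 : ε / 4 * T ≤ ε / 4 * (T * L) := by
      apply mul_le_mul_of_nonneg_left _ (by positivity)
      nlinarith
    linarith
  linarith

end

end Run7.h911.PQ
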