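import Pool.Agent.Run7.h911.PQ6
import Pool.Agent.Results.MP_103a5c_nt.BohrSetPairs

set_option autoImplicit false

/-! # The weights of the pairs (helper911) -/

namespace Run7.h911.PQ

open Filter Topology MeasureTheory Complex
open H370 (Zf mult good_zeta)
open Pool.Agent.R304.UP (nn nn_nonneg)
open Pool.Agent.Results.MP_103a5c_nt.BohrSetPairs (pairSum TestFn mont)

noncomputable section

/-- the weight of a pair -/
def pw (R : ℝ → ℝ) (T : ℝ) (s s' : ℂ) : ℝ :=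
  (mult riemannZeta s : ℝ) * (mult riemannZeta s' : ℝ) * rh R (Real.log T * (s.im - s'.im))

/-- the pairs of a zero -/
def Wt (R : ℝ → ℝ) (T : ℝ) (s : ℂ) : ℝ := ∑ s' ∈ Zf riemannZeta T (2 * T), pw R T s s'

lemma r_eq {R : ℝ → ℝ} (hc : Continuous R) (he : ∀ α, R (-α) = R α) (x : ℝ) :
    Pool.Agent.Results.MP_103a5c_nt.BohrSetPairs.r R x = rh R (2 * Real.pi * x) := by
  unfold Pool.Agent.Results.MP_103a5c_nt.BohrSetPairs.r rh
  have hf : Continuous fun α : ℝ => R α * Real.cos (2 * Real.pi * x * α) := hc.mul (by fun_prop)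
  rw [← intervalIntegral.integral_add_adjacent_intervals (a := -1) (b := 0) (c := 1)
    (hf.intervalIntegrable _ _) (hf.intervalIntegrable _ _)]
  have h1 := intervalIntegral.integral_comp_neg (a := 0) (b := 1) (fun α : ℝ => R α * Real.cos (2 * Real.pi * x * α))
  rw [neg_zero] at h1
  rw [← h1]
  have h2 : ∫ α in (0:ℝ)..1, R (-α) * Real.cos (2 * Real.pi * x * -α) =
      ∫ α in (0:ℝ)..1, R α * Real.cos (2 * Real.pi * x * α) := by
    refine intervalIntegral.integral_congr fun α _ => ?_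
    show R (-α) * Real.cos (2 * Real.pi * x * -α) = R α * Real.cos (2 * Real.pi * x * α)
    rw [he, mul_neg, Real.cos_neg]
  rw [h2]
  ring

lemma pairSum_Wt {R : ℝ → ℝ} (hc : Continuous R) (he : ∀ α, R (-α) = R α) (w : ℝ → ℝ) {T : ℝ} (hT : 1 ≤ T) :
    pairSum R w T T (2 * T) = ∑ s ∈ Zf riemannZeta T (2 * T), w s.im * Wt R T s := by
  unfold pairSum
  rw [Pool.Agent.Results.MP_103a5c_nt.BohrSetPairs.zeros_eq, H370.finsum_Zf H370.good_zeta hT]
  refine Finset.sum_congr rfl fun s _ => ?_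
  rw [H370.finsum_Zf H370.good_zeta hT]
  unfold Wt
  rw [Finset.mul_sum]
  refine Finset.sum_congr rfl fun s' _ => ?_
  rw [r_eq hc he]
  have hpi := Real.pi_pos
  have e : 2 * Real.pi * ((s.im - s'.im) * Real.log T / (2 * Real.pi)) = Real.log T * (s.im - s'.im) := by
    field_simp
  rw [e]
  unfold pw
  have e1 : Pool.Agent.Results.MP_103a5c_nt.BohrSetPairs.mult s = mult riemannZeta s := rfl
  have e2 : Pool.Agent.Results.MP_103a5c_nt.BohrSetPairs.mult s' = mult riemannZeta s' := rfl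
  rw [e1, e2]
  ring

lemma TF.A {R : ℝ → ℝ} {κ : ℝ} (hR : TF R κ) : ∃ A : ℝ, 0 ≤ A ∧ ∀ w, rh R w ≤ A / (1 + w ^ 2) := by
  obtain ⟨A, hA⟩ := hR.dec
  refine ⟨A, ?_, hA⟩
  have h1 := (hR.pos 0).trans (hA 0)
  simpa using h1

lemma TF.testFn {R : ℝ → ℝ} {κ : ℝ} (hR : TF R κ) : TestFn R κ where
  cont := hR.cont
  even := hR.even
  supp := hR.supp
  decay := by
    obtain ⟨A, hA0, hA⟩ := hR.A
    refine ⟨A, fun x => ?_⟩
    rw [r_eq hR.cont hR.even, abs_of_nonneg (hR.pos _)]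
    refine (hA _).trans ?_
    apply div_le_div_of_nonneg_left hA0 (by positivity)
    have h1 := Real.pi_gt_three
    have h2 : x ^ 2 * 1 ≤ x ^ 2 * (2 * Real.pi) ^ 2 := by
      apply mul_le_mul_of_nonneg_left _ (sq_nonneg x)
      nlinarith
    have h3 : (2 * Real.pi * x) ^ 2 = x ^ 2 * (2 * Real.pi) ^ 2 := by ring
    rw [h3]
    linarith

lemma pw_nonneg {R : ℝ → ℝ} {κ : ℝ} (hR : TF R κ) (T : ℝ) (s s' : ℂ) : 0 ≤ pw R T s s' :=
  mul_nonneg (by positivity) (hR.pos _)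

lemma Wt_nonneg {R : ℝ → ℝ} {κ : ℝ} (hR : TF R κ) (T : ℝ) (s : ℂ) : 0 ≤ Wt R T s :=
  Finset.sum_nonneg fun s' _ => pw_nonneg hR T s s'

lemma Wt_le {R : ℝ → ℝ} {A : ℝ} (hA : ∀ w, rh R w ≤ A / (1 + w ^ 2)) (T : ℝ) (s : ℂ) :
    Wt R T s ≤ A * ((mult riemannZeta s : ℝ) * nn T s) := by
  unfold Wt nn
  rw [Finset.mul_sum, Finset.mul_sum]
  refine Finset.sum_le_sum fun s' _ => ?_
  unfold pw
  have h1 := hA (Real.log T * (s.im - s'.im))
  have e : (Real.log T * (s.im - s'.im)) ^ 2 = (Real.log T * (s'.im - s.im)) ^ 2 := by ring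
  rw [e] at h1
  have h2 := mul_le_mul_of_nonneg_left h1
    (show 0 ≤ (mult riemannZeta s : ℝ) * (mult riemannZeta s' : ℝ) by positivity)
  refine h2.trans (le_of_eq ?_)
  ring

/-- **the total of the weights** -/
theorem total_W (RH : RiemannHypothesis) {R : ℝ → ℝ} {κ : ℝ} (hR : TF R κ) (h0 : 0 < κ) (h1 : κ < 1) {ε : ℝ}
    (hε : 0 < ε) : ∀ᶠ T : ℝ in atTop, |∑ s ∈ Zf riemannZeta T (2 * T), Wt R T s -
      mo R * (T * (Real.log T / (2 * Real.pi)))| ≤ ε * (T * (Real.log T / (2 * Real.pi))) := by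
  have hpi := Real.pi_pos
  have hm0 := mo_nonneg hR
  obtain ⟨T1, hT1⟩ := Pool.Agent.Results.MP_103a5c_nt.BohrSetPairs.dyadic RH hR.testFn h0 h1
    Pool.Agent.Results.MP_103a5c_nt.BohrSetPairs.APm_one (ε := ε / 4) (by positivity)
  obtain ⟨η, hη⟩ : ∃ η, η = min 1 (ε / (4 * (mo R + 1))) := ⟨_, rfl⟩
  have hη0 : 0 < η := by rw [hη]; positivity
  have hη1 : η ≤ 1 := by rw [hη]; exact min_le_left _ _
  have hηm : η * mo R ≤ ε / 4 := by
    have h2 : η ≤ ε / (4 * (mo R + 1)) := by rw [hη]; exact min_le_right _ _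
    rw [le_div_iff₀ (by positivity)] at h2
    linarith
  obtain ⟨T2, hT2, hN⟩ := Pool.Agent.Results.MP_103a5c_nt.BohrSetPairs.N_dyadic (η / (2 * Real.pi)) (by positivity)
  filter_upwards [eventually_ge_atTop T1, eventually_ge_atTop T2] with T t1 t2
  have hT10 : 10 ≤ T := hT2.trans t2
  have a1 := hT1 T t1
  have a2 := hN T t2
  rw [pairSum_Wt hR.cont hR.even _ (by linarith)] at a1
  simp only [one_mul] at a1
  have e : mont R = mo R := rfl
  rw [e] at a1
  obtain ⟨Y, hY⟩ : ∃ Y, Y = T * (Real.log T / (2 * Real.pi)) := ⟨_, rfl⟩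
  have hL0 : 0 < Real.log T := Real.log_pos (by linarith)
  have hY0 : 0 < Y := by rw [hY]; positivity
  have e1 : T * Real.log T / (2 * Real.pi) = Y := by rw [hY]; ring
  have e2 : η / (2 * Real.pi) * (T * Real.log T) = η * Y := by rw [hY]; ring
  rw [e1, e2] at a2
  rw [← hY]
  obtain ⟨x1, x2⟩ := abs_le.1 a1
  obtain ⟨x3, x4⟩ := abs_le.1 a2
  set N := (Pool.Agent.Results.MP_103a5c_nt.BohrSetPairs.N T (2 * T) : ℝ) with hNd
  have b1 : ε / 4 * N ≤ ε / 2 * Y := by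
    have : N ≤ 2 * Y := by
      have : η * Y ≤ 1 * Y := mul_le_mul_of_nonneg_right hη1 hY0.le
      linarith
    have := mul_le_mul_of_nonneg_left this (show 0 ≤ ε / 4 by positivity)
    linarith
  have b2 : mo R * N ≤ mo R * Y + ε / 4 * Y := by
    have h3 := mul_le_mul_of_nonneg_left (show N ≤ Y + η * Y by linarith) hm0
    have h4 := mul_le_mul_of_nonneg_right hηm hY0.le
    linarith
  have b3 : mo R * Y - ε / 4 * Y ≤ mo R * N := by
    have h3 := mul_le_mul_of_nonneg_left (show Y - η * Y ≤ N by linarith) hm0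
    have h4 := mul_le_mul_of_nonneg_right hηm hY0.le
    linarith
  rw [abs_le]
  have : 0 < ε * Y := by positivity
  constructor <;> linarith

open Classical in
/-- **few pairs at a large distance** -/
theorem far_W (RH : RiemannHypothesis) {R : ℝ → ℝ} {κ : ℝ} (hR : TF R κ) {ε : ℝ} (hε : 0 < ε) :
    ∃ k : ℝ, 2 ≤ k ∧ ∀ᶠ T : ℝ in atTop, ∑ s ∈ Zf riemannZeta T (2 * T),
      ∑ s' ∈ (Zf riemannZeta T (2 * T)).filter (fun s' => ¬ |s'.im - s.im| ≤ k / Real.log T), pw R T s s' ≤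
      ε * (T * (Real.log T / (2 * Real.pi))) := by
  obtain ⟨A, hA0, hA⟩ := hR.A
  obtain ⟨k, hk⟩ : ∃ k : ℝ, k = 14 * A / ε + 2 := ⟨_, rfl⟩
  have hk2 : 2 ≤ k := by
    have : 0 ≤ 14 * A / ε := by positivity
    rw [hk]; linarith
  have hk0 : 0 < k := by linarith
  obtain ⟨b, hb⟩ : ∃ b : ℝ, b = 1 / k := ⟨_, rfl⟩
  have hb0 : 0 < b := by rw [hb]; positivity
  have hb1 : b < 1 := by rw [hb, div_lt_one hk0]; linarith
  have hAb : 14 * A * b ≤ ε := by
    have : 14 * A / ε ≤ k := by rw [hk]; linarith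
    rw [div_le_iff₀ hε] at this
    rw [hb, mul_one_div, div_le_iff₀ hk0]
    linarith
  refine ⟨k, hk2, ?_⟩
  filter_upwards [total_W RH (fb_TF hb0 hb1.le) hb0 hb1 one_pos, eventually_ge_atTop 10,
    Real.tendsto_log_atTop.eventually_ge_atTop 1] with T h1 h2 h3
  obtain ⟨L, hL⟩ : ∃ L, L = Real.log T := ⟨_, rfl⟩
  rw [← hL] at h1 h3 ⊢
  have hL0 : 0 < L := by linarith
  have hpi := Real.pi_pos
  have key : ∀ w : ℝ, k < |w| → rh R w ≤ 2 * A * b ^ 2 * rh (fb b) w := by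
    intro w hw
    have h4 := hA w
    have h5 := fb_rh_low hb0 hb1.le w
    have hw0 : 0 < |w| := by linarith
    have hw2 : 0 < w ^ 2 := by rw [← sq_abs]; positivity
    have hbw : 1 ≤ b * |w| := by
      rw [hb, one_div, inv_mul_eq_div, le_div_iff₀ hk0]; linarith
    have h6 : (b * |w| + Real.pi / 2) ^ 2 ≤ 8 * (b * |w|) ^ 2 := by
      have h7 : b * |w| + Real.pi / 2 ≤ 13 / 5 * (b * |w|) := by
        have := Real.pi_lt_d2
        linarith
      have h8 := pow_le_pow_left₀ (by positivity) h7 2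
      have h9 : 0 ≤ (b * |w|) ^ 2 := by positivity
      nlinarith
    have h7 : 1 / (2 * (b ^ 2 * w ^ 2)) ≤ rh (fb b) w := by
      refine le_trans ?_ h5
      rw [div_le_div_iff₀ (by positivity) (by positivity)]
      have e : (b * |w|) ^ 2 = b ^ 2 * w ^ 2 := by rw [mul_pow, sq_abs]
      rw [e] at h6
      linarith
    have h8 : A / (1 + w ^ 2) ≤ A / w ^ 2 := by
      apply div_le_div_of_nonneg_left hA0 hw2
      linarith
    have h9 : A / w ^ 2 = 2 * A * b ^ 2 * (1 / (2 * (b ^ 2 * w ^ 2))) := by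
      field_simp
    calc rh R w ≤ A / w ^ 2 := h4.trans h8
      _ = _ := h9
      _ ≤ _ := mul_le_mul_of_nonneg_left h7 (by positivity)
  have h4 : ∑ s ∈ Zf riemannZeta T (2 * T),
      ∑ s' ∈ (Zf riemannZeta T (2 * T)).filter (fun s' => ¬ |s'.im - s.im| ≤ k / L), pw R T s s' ≤
      2 * A * b ^ 2 * ∑ s ∈ Zf riemannZeta T (2 * T), Wt (fb b) T s := by
    rw [Finset.mul_sum]
    refine Finset.sum_le_sum fun s _ => ?_
    unfold Wt
    rw [Finset.mul_sum]
    refine le_trans (Finset.sum_le_sum (g := fun s' => 2 * A * b ^ 2 * pw (fb b) T s s') fun s' hs' => ?_)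
      (Finset.sum_le_sum_of_subset_of_nonneg (Finset.filter_subset _ _) fun s' _ _ =>
        mul_nonneg (by positivity) (pw_nonneg (fb_TF hb0 hb1.le) T s s'))
    rw [Finset.mem_filter, not_le] at hs'
    have h5 : k < |L * (s.im - s'.im)| := by
      rw [abs_mul, abs_of_pos hL0, abs_sub_comm]
      have := hs'.2
      rw [div_lt_iff₀ hL0] at this
      linarith
    have h6 := key _ h5
    unfold pw
    rw [← hL]
    have h7 := mul_le_mul_of_nonneg_left h6
      (show 0 ≤ (mult riemannZeta s : ℝ) * (mult riemannZeta s' : ℝ) by positivity)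
    refine h7.trans (le_of_eq ?_)
    ring
  refine h4.trans ?_
  obtain ⟨Y, hY⟩ : ∃ Y, Y = T * (L / (2 * Real.pi)) := ⟨_, rfl⟩
  rw [← hY] at h1 ⊢
  have hY0 : 0 < Y := by rw [hY]; positivity
  have h5 := (abs_le.1 h1).2
  have h6 := fb_mo hb0
  have h7 : ∑ s ∈ Zf riemannZeta T (2 * T), Wt (fb b) T s ≤ 7 / b * Y := by
    have h8 : mo (fb b) * Y ≤ 6 / b * Y := mul_le_mul_of_nonneg_right h6 hY0.le
    have h9 : 1 * Y ≤ 1 / b * Y := by
      apply mul_le_mul_of_nonneg_right _ hY0.le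
      rw [le_div_iff₀ hb0]; linarith
    have e : 7 / b * Y = 6 / b * Y + 1 / b * Y := by ring
    rw [e]; linarith
  calc 2 * A * b ^ 2 * ∑ s ∈ Zf riemannZeta T (2 * T), Wt (fb b) T s ≤ 2 * A * b ^ 2 * (7 / b * Y) :=
        mul_le_mul_of_nonneg_left h7 (by positivity)
    _ = 14 * A * b * Y := by field_simp; ring
    _ ≤ ε * Y := mul_le_mul_of_nonneg_right hAb hY0.le

end

end Run7.h911.PQ
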