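import Pool.Agent.Run7.h911.PQ7
import Pool.Agent.Y745.SW.Final

set_option autoImplicit false

/-! # The pairs of the ordinates outside a size class (helper911) -/

namespace Run7.h911.PQ

open Filter Topology MeasureTheory Complex
open Pool.Agent.Y745.SW (Px SB EFD a_EF a_SM Zq Dq)
open H370 (Zf mult good_zeta)
open Pool.Agent.R304.UP (nn nn_nonneg)
open Run7.h911.SZ (siz yp Bk G01 G01_nonneg G01_le)

noncomputable section

lemma rhs_of (RH : RiemannHypothesis) : SP.RHs := by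
  intro s h1 h2 h0
  apply RH s h0
  · rintro ⟨k, hk⟩
    have := congrArg Complex.re hk
    simp at this
    have hk0 : (0 : ℝ) ≤ k := Nat.cast_nonneg k
    linarith
  · intro h; rw [h] at h2; simp at h2

open Classical in
/-- **the pairs of the ordinates outside a class** -/
theorem compl_W (RH : RiemannHypothesis) {R : ℝ → ℝ} {κ : ℝ} (hR : TF R κ) (h0 : 0 < κ) (h1 : κ < 1) {a b ε : ℝ}
    (hab : a < b) (hε : 0 < ε) : ∀ᶠ T : ℝ in atTop,
    ∑ s ∈ (Zf riemannZeta T (2 * T)).filter (fun s => ¬ NearO a b s.im), Wt R T s ≤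
      (mo R * (1 - G01 a b) + ε) * (T * (Real.log T / (2 * Real.pi))) := by
  have hRH := rhs_of RH
  have hpi := Real.pi_pos
  have hm0 := mo_nonneg hR
  obtain ⟨A, hA0, hA⟩ := hR.A
  obtain ⟨ε1, hε1⟩ : ∃ ε1, ε1 = ε / (8 * (mo R + 1)) := ⟨_, rfl⟩
  have hε10 : 0 < ε1 := by rw [hε1]; positivity
  have hmε1 : mo R * ε1 ≤ ε / 8 := by
    rw [hε1, mul_div_assoc', div_le_div_iff₀ (by positivity) (by norm_num)]
    nlinarith
  obtain ⟨θ, hθ, hab', hG⟩ := Run7.h911.SZ.G01_shrink hab hε10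
  obtain ⟨k, hk2, hfar⟩ := far_W RH hR (show 0 < ε / 8 by positivity)
  obtain ⟨h, εs, τ, B, Rs, hh, hεs, hεs2, hτ, hτε, hB, hRs, hRs0, hup⟩ := upper hRH Pool.Agent.Y248.SW.t_KER
    Pool.Agent.Y627.SW.t_MN Pool.Agent.Y240.SW.t_DF a_EF a_SM hR h0 h1 (ε / 8) k (by positivity) (by linarith)
  obtain ⟨η0, hη0, hcls⟩ := clsO (a := a) (a' := a + θ) (b := b) (b' := b - θ) (by linarith) (by linarith)
  obtain ⟨ε2, hε2⟩ : ∃ ε2, ε2 = ε / (8 * (A + 1) * (2 * Real.pi)) := ⟨_, rfl⟩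
  have hε20 : 0 < ε2 := by rw [hε2]; positivity
  obtain ⟨κ0, hκ0, hbad⟩ := bad_few hRH hε20
  obtain ⟨W, hW0, hX⟩ := Run7.h911.SZ.exX (h + 1) η0 κ0 (by positivity) hη0 hκ0
  obtain ⟨c, hc, C0, T0, hC0, hT0, hef⟩ := H370.explicit_formula good_zeta
  obtain ⟨⟨K0, hK0⟩, hup⟩ := hup c C0 hc
  have hcomp := comp_dd hRs hRs0 hB hc hεs hεs2 hτ hτε hK0 hab' hε10
  filter_upwards [hfar, hcls W h hW0 hh, hbad, hX, hup, hcomp, eventually_ge_atTop T0,
    Run7.h911.SZ.ev_basic (h + k + 10)] with T tfar tcls tbad tX tup tcomp tT0 tb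
  obtain ⟨U1, U2, hU1, hU1', hU2, hU2', heft⟩ := hef T tT0
  have hefd : EFD c C0 T U1 U2 := ⟨hc, hU1, hU1', hU2, hU2', heft⟩
  obtain ⟨X, hXv, hXB⟩ := tX
  obtain ⟨hT10, hLD, hL1, hT2⟩ := tb
  obtain ⟨cm, cv, cD⟩ := tcomp
  obtain ⟨L, hL⟩ : ∃ L, L = Real.log T := ⟨_, rfl⟩
  rw [← hL] at tfar hLD hL1 hT2 cv cD ⊢
  have hL0 : 0 < L := by linarith
  have hT0' : 0 < T := by linarith
  obtain ⟨S, hS⟩ : ∃ S : Set ℝ, S = Set.Icc (T + L) (2 * T - L) \ SB (a + θ) (b - θ) T := ⟨_, rfl⟩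
  rw [← hS] at cv cD
  have hSm : MeasurableSet S := by rw [hS]; exact measurableSet_Icc.diff cm
  have hSI : S ⊆ Set.Icc (T + L) (2 * T - L) := by rw [hS]; exact Set.sdiff_subset
  obtain ⟨F, hF⟩ : ∃ F : Finset ℂ, F = (Zf riemannZeta U1 U2).filter (fun s => T + 2 * L ≤ s.im ∧
    s.im ≤ 2 * T - 2 * L ∧ ¬ NearO a b s.im ∧ ¬ badO X s.im) := ⟨_, rfl⟩
  have hhL : h / L ≤ 1 := by rw [div_le_one hL0]; linarith
  have hkL : k / L ≤ 1 := by rw [div_le_one hL0]; linarith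
  have hFS : ∀ s ∈ F, Set.Icc (s.im - h / L) (s.im + h / L) ⊆ S := by
    intro s hs t ht
    rw [hF, Finset.mem_filter] at hs
    obtain ⟨-, g1, g2, g3, g4⟩ := hs
    rw [hS]
    refine ⟨⟨by linarith [ht.1], by linarith [ht.2]⟩, fun hSB => ?_⟩
    apply g3
    refine tcls X hXB s.im (by rw [← hL]; linarith) (by linarith) g4 t ?_ hSB.2.1 hSB.2.2
    rw [← hL, abs_le]
    constructor <;> linarith [ht.1, ht.2]
  have hmain := tup U1 U2 hefd S hSm (by rw [← hL]; exact hSI) cD F (by rw [hF]; exact Finset.filter_subset _ _)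
    (by rw [← hL]; exact hFS)
  rw [← hL] at hmain
  obtain ⟨Y, hY⟩ : ∃ Y, Y = T * (L / (2 * Real.pi)) := ⟨_, rfl⟩
  have hY0 : 0 < Y := by rw [hY]; positivity
  rw [← hY] at tfar ⊢
  -- the bad ones
  obtain ⟨G, hGd⟩ : ∃ G : Finset ℂ, G = (Zf riemannZeta T (2 * T)).filter (fun s => ¬ NearO a b s.im) := ⟨_, rfl⟩
  rw [← hGd]
  obtain ⟨G1, hG1⟩ : ∃ G1 : Finset ℂ, G1 = G.filter (fun s => T + 2 * L ≤ s.im ∧ s.im ≤ 2 * T - 2 * L ∧
    ¬ badO X s.im) := ⟨_, rfl⟩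
  obtain ⟨G2, hG2⟩ : ∃ G2 : Finset ℂ, G2 = G.filter (fun s => ¬ (T + 2 * L ≤ s.im ∧ s.im ≤ 2 * T - 2 * L ∧
    ¬ badO X s.im)) := ⟨_, rfl⟩
  have hsplit : ∑ s ∈ G, Wt R T s = ∑ s ∈ G1, Wt R T s + ∑ s ∈ G2, Wt R T s := by
    rw [hG1, hG2]
    exact (Finset.sum_filter_add_sum_filter_not G _ _).symm
  have hGZ : G ⊆ Zf riemannZeta T (2 * T) := by rw [hGd]; exact Finset.filter_subset _ _
  have hbad2 : ∑ s ∈ G2, Wt R T s ≤ ε / 8 * Y := by
    have q1 := tbad X hXB.meas hXv G2 ((by rw [hG2]; exact Finset.filter_subset _ _ : G2 ⊆ G).trans hGZ)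
      (fun s hs => by
        rw [← hL]
        rw [hG2, Finset.mem_filter] at hs
        by_contra hcon
        push Not at hcon
        exact hs.2 ⟨hcon.2.1, hcon.2.2, hcon.1⟩)
    rw [← hL] at q1
    calc ∑ s ∈ G2, Wt R T s ≤ ∑ s ∈ G2, A * ((mult riemannZeta s : ℝ) * nn T s) :=
          Finset.sum_le_sum fun s _ => Wt_le hA T s
      _ = A * ∑ s ∈ G2, (mult riemannZeta s : ℝ) * nn T s := by rw [Finset.mul_sum]
      _ ≤ A * (ε2 * (T * L)) := mul_le_mul_of_nonneg_left q1 hA0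
      _ = A / (A + 1) * (ε / 8 * Y) := by rw [hε2, hY]; field_simp
      _ ≤ 1 * (ε / 8 * Y) := by
          apply mul_le_mul_of_nonneg_right _ (by positivity)
          rw [div_le_one (by positivity)]; linarith
      _ = _ := one_mul _
  have hgood : ∑ s ∈ G1, Wt R T s ≤ (mo R * volume.real S + ε / 8 * T) * (L / (2 * Real.pi)) + ε / 8 * Y := by
    have e1 : ∑ s ∈ G1, Wt R T s =
        ∑ s ∈ G1, ∑ s' ∈ (Zf riemannZeta T (2 * T)).filter (fun s' => |s'.im - s.im| ≤ k / L), pw R T s s' +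
        ∑ s ∈ G1, ∑ s' ∈ (Zf riemannZeta T (2 * T)).filter (fun s' => ¬ |s'.im - s.im| ≤ k / L), pw R T s s' := by
      rw [← Finset.sum_add_distrib]
      refine Finset.sum_congr rfl fun s _ => ?_
      exact (Finset.sum_filter_add_sum_filter_not (Zf riemannZeta T (2 * T)) _ _).symm
    have hG1Z : G1 ⊆ Zf riemannZeta T (2 * T) :=
      (by rw [hG1]; exact Finset.filter_subset _ _ : G1 ⊆ G).trans hGZ
    have q1 : ∑ s ∈ G1, ∑ s' ∈ (Zf riemannZeta T (2 * T)).filter (fun s' => ¬ |s'.im - s.im| ≤ k / L), pw R T s s' ≤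
        ε / 8 * Y := by
      refine (Finset.sum_le_sum_of_subset_of_nonneg hG1Z fun s _ _ => Finset.sum_nonneg fun s' _ =>
        pw_nonneg hR T s s').trans tfar
    have q2 : ∑ s ∈ G1, ∑ s' ∈ (Zf riemannZeta T (2 * T)).filter (fun s' => |s'.im - s.im| ≤ k / L), pw R T s s' ≤
        ∑ s ∈ F, ∑ s' ∈ (Zf riemannZeta U1 U2).filter (fun s' => |s'.im - s.im| ≤ k / L), pw R T s s' := by
      have hsub : G1 ⊆ F := by
        intro s hs
        have hsZ := (H370.mem_Zf good_zeta (by linarith)).mp (hG1Z hs)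
        rw [hG1, Finset.mem_filter] at hs
        obtain ⟨hsG, g1, g2, g3⟩ := hs
        rw [hGd, Finset.mem_filter] at hsG
        rw [hF, Finset.mem_filter]
        refine ⟨(H370.mem_Zf good_zeta (by linarith)).mpr ?_, g1, g2, hsG.2, g3⟩
        obtain ⟨z1, z2, z3, z4, z5⟩ := hsZ
        exact ⟨z1, z2, by linarith, by linarith, z5⟩
      refine (Finset.sum_le_sum fun s hs => ?_).trans (Finset.sum_le_sum_of_subset_of_nonneg hsub
        fun s _ _ => Finset.sum_nonneg fun s' _ => pw_nonneg hR T s s')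
      refine Finset.sum_le_sum_of_subset_of_nonneg ?_ fun s' _ _ => pw_nonneg hR T s s'
      intro s' hs'
      rw [Finset.mem_filter] at hs' ⊢
      refine ⟨?_, hs'.2⟩
      obtain ⟨z1, z2, z3, z4, z5⟩ := (H370.mem_Zf good_zeta (by linarith)).mp hs'.1
      rw [hG1, Finset.mem_filter] at hs
      obtain ⟨-, g1, g2, g3⟩ := hs
      have h9 := abs_le.1 (hs'.2.trans hkL)
      exact (H370.mem_Zf good_zeta (by linarith)).mpr ⟨z1, z2, by linarith [h9.1], by linarith [h9.2], z5⟩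
    have q3 : ∑ s ∈ F, ∑ s' ∈ (Zf riemannZeta U1 U2).filter (fun s' => |s'.im - s.im| ≤ k / L), pw R T s s' ≤
        (mo R * volume.real S + ε / 8 * T) * (L / (2 * Real.pi)) := by
      refine le_trans (le_of_eq ?_) hmain
      refine Finset.sum_congr rfl fun s _ => Finset.sum_congr rfl fun s' _ => ?_
      unfold pw
      rw [← hL]
    rw [e1]
    linarith
  -- numbers
  rw [hsplit]
  have n1 : mo R * volume.real S ≤ mo R * (T * (1 - G01 a b)) + ε / 4 * T := by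
    have n2 : volume.real S ≤ T * (1 - G01 a b) + 2 * (ε1 * T) := by
      have := mul_le_mul_of_nonneg_left hG hT0'.le
      linarith
    have n3 := mul_le_mul_of_nonneg_left n2 hm0
    have n4 := mul_le_mul_of_nonneg_right hmε1 hT0'.le
    linarith
  have n5 : (mo R * volume.real S + ε / 8 * T) * (L / (2 * Real.pi)) ≤
      (mo R * (T * (1 - G01 a b)) + ε / 4 * T + ε / 8 * T) * (L / (2 * Real.pi)) :=
    mul_le_mul_of_nonneg_right (by linarith) (by positivity)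
  have n6 : (mo R * (T * (1 - G01 a b)) + ε / 4 * T + ε / 8 * T) * (L / (2 * Real.pi)) =
      (mo R * (1 - G01 a b) + ε / 4 + ε / 8) * Y := by rw [hY]; ring
  have n7 : 0 < ε * Y := by positivity
  linarith

end

end Run7.h911.PQ
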