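import Pool.Agent.Run7.h911.SZ6
import Pool.Agent.H370R2.Dyadic

set_option autoImplicit false

/-! # The law of the size of zeta at the zeros, and the dispersion of the gaps at every size (helper911) -/

namespace Run7.h911.SZ

open Filter Topology MeasureTheory Set
open SG (ord NZ)
open SP (RHs)
open Pool.Agent.TH800.MS (dlt)

noncomputable section

lemma NN_zero (X : ℝ) : H370.NN riemannZeta 0 X = NZ X := by
  unfold H370.NN SG.NZ
  have h : H370.zset riemannZeta 0 X =
      {s : ℂ | riemannZeta s = 0 ∧ 0 < s.re ∧ s.re < 1 ∧ 0 < s.im ∧ s.im ≤ X} := by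
    ext s
    simp only [H370.zset, Set.mem_ofPred_eq]
    tauto
  rw [h]
  rfl

open Classical in
/-- number of indices with the size in `(a, b)` and ordinate in `(A, B]` -/
def Pn (a b A B : ℝ) : ℕ := ((Finset.Ioc (NZ A) (NZ B)).filter (Near a b)).card

lemma Pn_add (a b : ℝ) {A B C : ℝ} (h1 : A ≤ B) (h2 : B ≤ C) : Pn a b A C = Pn a b A B + Pn a b B C := by
  classical
  unfold Pn
  rw [← Finset.card_union_of_disjoint]
  · congr 1
    ext n
    have e1 := SG.NZ_mono h1
    have e2 := SG.NZ_mono h2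
    simp only [Finset.mem_filter, Finset.mem_Ioc, Finset.mem_union]
    constructor
    · rintro ⟨⟨g1, g2⟩, g3⟩
      rcases le_or_gt n (NZ B) with h | h
      · exact Or.inl ⟨⟨g1, h⟩, g3⟩
      · exact Or.inr ⟨⟨h, g2⟩, g3⟩
    · rintro (⟨⟨g1, g2⟩, g3⟩ | ⟨⟨g1, g2⟩, g3⟩)
      · exact ⟨⟨g1, g2.trans e2⟩, g3⟩
      · exact ⟨⟨e1.trans_lt g1, g2⟩, g3⟩
  · rw [Finset.disjoint_left]
    intro n h3 h4
    simp only [Finset.mem_filter, Finset.mem_Ioc] at h3 h4
    omega

lemma Pn_mono (a b : ℝ) (A X : ℝ) (hA : 0 ≤ A) : Pn a b A X ≤ Pn a b 0 X := by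
  classical
  unfold Pn
  refine Finset.card_le_card fun n hn => ?_
  have e1 := SG.NZ_mono hA
  simp only [Finset.mem_filter, Finset.mem_Ioc] at hn ⊢
  exact ⟨⟨e1.trans_lt hn.1.1, hn.1.2⟩, hn.2⟩

/-- `log (ord N)` is small against `N` -/
lemma log_small (D : ℝ) (hD : 0 < D) : ∃ N0 : ℕ, ∀ N : ℕ, N0 ≤ N → Real.log (ord N) ≤ D * N := by
  obtain ⟨C, hC, N1, hN1⟩ := ord_log
  obtain ⟨N2, hN2⟩ := (SG.ord_tendsto.eventually_ge_atTop (C / D)).exists_forall_of_atTop
  refine ⟨max N1 N2, fun N hN => ?_⟩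
  obtain ⟨h1, h2⟩ := hN1 N ((le_max_left _ _).trans hN)
  have h3 := hN2 N ((le_max_right _ _).trans hN)
  have h4 : C / D * Real.log (ord N) ≤ C * N := (mul_le_mul_of_nonneg_right h3 (by linarith)).trans h2
  rw [div_mul_eq_mul_div, div_le_iff₀ hD] at h4
  have h5 : C * Real.log (ord N) ≤ C * (D * N) := by linarith
  exact le_of_mul_le_mul_left h5 hC

/-- **the law, lower half** -/
theorem low_all (RH : RiemannHypothesis) {a b ε : ℝ} (hab : a < b) (hε : 0 < ε) : ∃ N0 : ℕ, ∀ N : ℕ, N0 ≤ N →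
    (G01 a b - ε) * N ≤ ct N (Near a b) := by
  classical
  have hRH := Pool.Agent.TH800.MS.rhs_of RH
  by_cases hneg : G01 a b - ε ≤ 0
  · refine ⟨0, fun N _ => ?_⟩
    have h1 : (G01 a b - ε) * N ≤ 0 := mul_nonpos_of_nonpos_of_nonneg hneg (Nat.cast_nonneg _)
    exact h1.trans (ct_nonneg _ _)
  push Not at hneg
  obtain ⟨C1, T1, hC1, hT1, hnn⟩ := H370.nn_asymp H370.good_zeta
  have hpi := Real.pi_pos
  have hG1 := G01_le a b
  have hblock : ∀ᶠ T : ℝ in atTop, (G01 a b - ε / 2) * (H370.NN riemannZeta T (2 * T) : ℝ) ≤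
      (Pn a b T (2 * T) : ℝ) := by
    filter_upwards [law_low hRH hab (show 0 < ε / 4 by positivity), ev_basic (2 * Real.pi * (4 * C1 / ε)),
      eventually_ge_atTop T1] with T h1 h2 h3
    obtain ⟨hT10, hLD, hL1, hT2⟩ := h2
    have hT0 : 0 < T := by linarith
    obtain ⟨L, hL⟩ : ∃ L, L = Real.log T := ⟨_, rfl⟩
    rw [← hL] at h1 hLD hL1 hT2
    have hL0 : 0 < L := by linarith
    have h4 : (((bl T).filter (Near a b)).card : ℝ) ≤ Pn a b T (2 * T) := by
      unfold Pn
      refine Nat.cast_le.2 (Finset.card_le_card (Finset.filter_subset_filter _ ?_))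
      unfold bl
      refine Finset.Ioc_subset_Ioc (SG.NZ_mono ?_) (SG.NZ_mono (by linarith))
      rw [← hL]; linarith
    have hnn' := (abs_le.1 (hnn T h3 T (2 * T) le_rfl (by linarith) (by linarith) le_rfl)).2
    rw [← hL] at hnn'
    have hnn'' : (H370.NN riemannZeta T (2 * T) : ℝ) ≤ T * (L / (2 * Real.pi)) + C1 * T := by
      have e : T * L / (2 * Real.pi) = T * (L / (2 * Real.pi)) := by ring
      linarith
    have hCT : C1 * T ≤ ε / 4 * (T * (L / (2 * Real.pi))) := by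
      have e1 : C1 ≤ ε / 4 * (L / (2 * Real.pi)) := by
        rw [mul_div_assoc', le_div_iff₀ (by positivity)]
        have e2 : 2 * Real.pi * (4 * C1 / ε) = (8 * Real.pi * C1) / ε := by ring
        rw [e2, div_le_iff₀ hε] at hLD
        linarith
      nlinarith
    calc (G01 a b - ε / 2) * (H370.NN riemannZeta T (2 * T) : ℝ) ≤
        (G01 a b - ε / 2) * (T * (L / (2 * Real.pi)) + C1 * T) :=
          mul_le_mul_of_nonneg_left hnn'' (by linarith)
      _ ≤ (G01 a b - ε / 2) * (T * (L / (2 * Real.pi))) + 1 * (C1 * T) := by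
          rw [mul_add]
          have : 0 ≤ C1 * T := by positivity
          have : (G01 a b - ε / 2) * (C1 * T) ≤ 1 * (C1 * T) := by
            apply mul_le_mul_of_nonneg_right _ this
            linarith
          linarith
      _ ≤ (G01 a b - ε / 4) * (T * (L / (2 * Real.pi))) := by linarith
      _ ≤ _ := h1.trans h4
  obtain ⟨T0, hT0⟩ := Filter.eventually_atTop.1 hblock
  obtain ⟨X0, hX0⟩ := H370.dyadic_zero H370.good_zeta H370.zeta_zeros_finite (Pn a b)
    (fun A B C _ h2 h3 => Pn_add a b h2 h3) (fun A X hA => Pn_mono a b A X hA) (G01 a b - ε / 2)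
    (G01 a b - 3 / 4 * ε) T0 (by linarith) (by linarith) hT0
  obtain ⟨C2, hC2, huc⟩ := Pool.Agent.Y743.NC.unit_count
  obtain ⟨N1, hN1⟩ := log_small (ε / (4 * C2)) (by positivity)
  obtain ⟨N2, hN2⟩ := (SG.ord_tendsto.eventually_ge_atTop (max (X0 + 1) 4)).exists_forall_of_atTop
  refine ⟨max (max N1 N2) 1, fun N hN => ?_⟩
  have h1 := hN1 N (((le_max_left _ _).trans (le_max_left _ _)).trans hN)
  have h2 := hN2 N (((le_max_right _ _).trans (le_max_left _ _)).trans hN)
  have hN0 : 1 ≤ N := (le_max_right _ _).trans hN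
  have h3 : X0 ≤ ord N - 1 := by linarith [le_max_left (X0 + 1) 4]
  have h4 : 4 ≤ ord N := (le_max_right _ _).trans h2
  have h5 := hX0 _ h3
  rw [NN_zero] at h5
  have h6 : N ≤ NZ (ord N) := (SG.ord_le_iff hN0 _).mp le_rfl
  have h7 := huc (ord N - 1) (by linarith)
  rw [sub_add_cancel] at h7
  have h8 : (N : ℝ) ≤ NZ (ord N) := by exact_mod_cast h6
  have h9 : Real.log (ord N - 1) ≤ Real.log (ord N) := Real.log_le_log (by linarith) (by linarith)
  have h10 : C2 * Real.log (ord N - 1) ≤ ε / 4 * N := by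
    calc C2 * Real.log (ord N - 1) ≤ C2 * (ε / (4 * C2) * N) := by gcongr; linarith
      _ = _ := by field_simp
  have h11 : (Pn a b 0 (ord N - 1) : ℝ) ≤ ct N (Near a b) := by
    rw [ct_eq]
    unfold Pn
    refine Nat.cast_le.2 (Finset.card_le_card fun n hn => ?_)
    simp only [Finset.mem_filter, Finset.mem_Ioc, Finset.mem_Icc] at hn ⊢
    refine ⟨⟨by omega, ?_⟩, hn.2⟩
    by_contra hcon
    push Not at hcon
    have h12 : N ≤ NZ (ord N - 1) := by omega
    have := (SG.ord_le_iff hN0 _).mpr h12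
    linarith
  have h13 : (G01 a b - 3 / 4 * ε) * ((N : ℝ) - ε / 4 * N) ≤ (G01 a b - 3 / 4 * ε) * NZ (ord N - 1) :=
    mul_le_mul_of_nonneg_left (by linarith) (by linarith)
  have h14 : (G01 a b - 3 / 4 * ε) * (ε / 4 * N) ≤ 1 * (ε / 4 * N) := by
    apply mul_le_mul_of_nonneg_right _ (by positivity)
    linarith
  nlinarith

lemma zeta_cont : Continuous fun t : ℝ => riemannZeta (1 / 2 + t * Complex.I) := by
  rw [continuous_iff_continuousAt]
  intro t
  have h : (1 / 2 + t * Complex.I : ℂ) ≠ 1 := by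
    intro h
    have := congrArg Complex.re h
    simp at this
  exact ContinuousAt.comp (f := fun t : ℝ => (1 / 2 + t * Complex.I : ℂ)) (g := riemannZeta)
    (differentiableAt_riemannZeta h).continuousAt (by fun_prop)

lemma siz_meas : Measurable siz := by
  unfold siz
  have h1 : Measurable fun t : ℝ => Real.log ‖riemannZeta (1 / 2 + t * Complex.I)‖ :=
    Real.measurable_log.comp zeta_cont.norm.measurable
  have h2 : Measurable fun t : ℝ => Real.sqrt (Real.log (Real.log t)) :=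
    (Real.continuous_sqrt.measurable.comp Real.measurable_log).comp Real.measurable_log
  exact (h1.div h2).const_mul _

/-- the classes exclude one another -/
lemma near_excl {a b c d : ℝ} (hbc : b ≤ c) {n : ℕ} (h : 0 < Real.log (ord n)) (h1 : Near a b n)
    (h2 : Near c d n) : False := by
  unfold Near at h1 h2
  have hf : volume (vn n) ≠ ⊤ := by rw [(vn_vol h).1]; exact ENNReal.ofReal_ne_top
  have hm : MeasurableSet {t : ℝ | t ∈ vn n ∧ c < siz t ∧ siz t < d} := by
    have e : {t : ℝ | t ∈ vn n ∧ c < siz t ∧ siz t < d} = vn n ∩ siz ⁻¹' (Ioo c d) := rfl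
    rw [e]
    exact measurableSet_Icc.inter (siz_meas measurableSet_Ioo)
  have h3 : volume.real ({t : ℝ | t ∈ vn n ∧ a < siz t ∧ siz t < b} ∪ {t : ℝ | t ∈ vn n ∧ c < siz t ∧ siz t < d}) =
      volume.real {t : ℝ | t ∈ vn n ∧ a < siz t ∧ siz t < b} +
        volume.real {t : ℝ | t ∈ vn n ∧ c < siz t ∧ siz t < d} := by
    refine measureReal_union ?_ hm (ne_top_of_le_ne_top hf (measure_mono fun t ht => ht.1))
      (ne_top_of_le_ne_top hf (measure_mono fun t ht => ht.1))
    rw [Set.disjoint_left]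
    rintro t ⟨_, _, h4⟩ ⟨_, h5, _⟩
    linarith
  have h4 : volume.real ({t : ℝ | t ∈ vn n ∧ a < siz t ∧ siz t < b} ∪ {t : ℝ | t ∈ vn n ∧ c < siz t ∧ siz t < d}) ≤
      volume.real (vn n) := by
    refine measureReal_mono ?_ hf
    rintro t (ht | ht)
    · exact ht.1
    · exact ht.1
  rw [h3, (vn_vol h).2] at h4
  have h5 : 0 < 2 / Real.log (ord n) := by positivity
  linarith

/-- three exclusive properties -/
lemma ct_three {N N2 : ℕ} {P Q R : ℕ → Prop} (h1 : ∀ n, N2 ≤ n → P n → Q n → False)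
    (h2 : ∀ n, N2 ≤ n → P n → R n → False) (h3 : ∀ n, N2 ≤ n → Q n → R n → False) :
    ct N P + ct N Q + ct N R ≤ N + 3 * N2 := by
  classical
  have key : ∀ S : ℕ → Prop, ct N S ≤ (((Finset.Icc 1 N).filter (fun n => N2 ≤ n ∧ S n)).card : ℝ) + N2 := by
    intro S
    rw [ct_eq]
    have e : (Finset.Icc 1 N).filter S ⊆ (Finset.Icc 1 N).filter (fun n => N2 ≤ n ∧ S n) ∪ Finset.range N2 := by
      intro n hn
      simp only [Finset.mem_filter, Finset.mem_Icc, Finset.mem_union, Finset.mem_range] at hn ⊢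
      rcases le_or_gt N2 n with h | h
      · exact Or.inl ⟨hn.1, h, hn.2⟩
      · exact Or.inr h
    have e2 := (Finset.card_le_card e).trans (Finset.card_union_le _ _)
    rw [Finset.card_range] at e2
    exact_mod_cast e2
  have k1 := key P
  have k2 := key Q
  have k3 := key R
  have hd1 : Disjoint ((Finset.Icc 1 N).filter (fun n => N2 ≤ n ∧ P n)) ((Finset.Icc 1 N).filter (fun n => N2 ≤ n ∧ Q n)) := by
    rw [Finset.disjoint_left]
    intro n e1 e2
    rw [Finset.mem_filter] at e1 e2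
    exact h1 n e1.2.1 e1.2.2 e2.2.2
  have hd2 : Disjoint ((Finset.Icc 1 N).filter (fun n => N2 ≤ n ∧ P n) ∪ (Finset.Icc 1 N).filter (fun n => N2 ≤ n ∧ Q n))
      ((Finset.Icc 1 N).filter (fun n => N2 ≤ n ∧ R n)) := by
    rw [Finset.disjoint_left]
    intro n e1 e2
    rw [Finset.mem_union, Finset.mem_filter, Finset.mem_filter] at e1
    rw [Finset.mem_filter] at e2
    rcases e1 with e1 | e1
    · exact h2 n e1.2.1 e1.2.2 e2.2.2
    · exact h3 n e1.2.1 e1.2.2 e2.2.2
  have k4 : ((Finset.Icc 1 N).filter (fun n => N2 ≤ n ∧ P n)).card +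
      ((Finset.Icc 1 N).filter (fun n => N2 ≤ n ∧ Q n)).card +
      ((Finset.Icc 1 N).filter (fun n => N2 ≤ n ∧ R n)).card ≤ N := by
    rw [← Finset.card_union_of_disjoint hd1, ← Finset.card_union_of_disjoint hd2]
    refine (Finset.card_le_card (t := Finset.Icc 1 N) ?_).trans (by rw [Nat.card_Icc]; omega)
    intro n hn
    simp only [Finset.mem_union, Finset.mem_filter] at hn
    tauto
  have k5 : ((((Finset.Icc 1 N).filter (fun n => N2 ≤ n ∧ P n)).card : ℝ) +
      ((Finset.Icc 1 N).filter (fun n => N2 ≤ n ∧ Q n)).card +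
      ((Finset.Icc 1 N).filter (fun n => N2 ≤ n ∧ R n)).card) ≤ N := by exact_mod_cast k4
  linarith

/-- the total Gaussian mass -/
lemma G01_total {a b : ℝ} (hab : a < b) {ε : ℝ} (hε : 0 < ε) : ∃ M : ℝ, -M < a ∧ b < M ∧
    1 - ε ≤ G01 (-M) a + G01 a b + G01 b M := by
  set s : ℕ → Set ℝ := fun n => Set.Ioo (-((n : ℝ) + (|a| + |b| + 1))) ((n : ℝ) + (|a| + |b| + 1)) with hs
  have hmono : Monotone s := by
    intro m n hmn
    have : (m : ℝ) ≤ n := by exact_mod_cast hmn
    exact Set.Ioo_subset_Ioo (by linarith) (by linarith)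
  have hU : ⋃ n, s n = Set.univ := by
    ext x
    simp only [hs, Set.mem_iUnion, Set.mem_Ioo, Set.mem_univ, iff_true]
    obtain ⟨n, hn⟩ := exists_nat_gt |x|
    have h1 := abs_nonneg a
    have h2 := abs_nonneg b
    refine ⟨n, ?_, ?_⟩
    · linarith [neg_abs_le x]
    · linarith [le_abs_self x]
  have ht := tendsto_measure_iUnion_atTop (μ := ProbabilityTheory.gaussianReal 0 1) hmono
  rw [hU] at ht
  have ht2 : Tendsto (fun n => (ProbabilityTheory.gaussianReal 0 1).real (s n)) atTop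
      (𝓝 ((ProbabilityTheory.gaussianReal 0 1).real Set.univ)) :=
    (ENNReal.tendsto_toReal (measure_ne_top _ _)).comp ht
  rw [probReal_univ] at ht2
  obtain ⟨n, hn⟩ := (ht2.eventually_const_le (show 1 - ε < 1 by linarith)).exists
  obtain ⟨M, hM⟩ : ∃ M : ℝ, M = (n : ℝ) + (|a| + |b| + 1) := ⟨_, rfl⟩
  have hn0 : (0 : ℝ) ≤ n := Nat.cast_nonneg _
  have ha1 : -M < a := by
    rw [hM]
    linarith [neg_abs_le a, abs_nonneg b]
  have hb1 : b < M := by
    rw [hM]
    linarith [le_abs_self b, abs_nonneg a]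
  refine ⟨M, ha1, hb1, hn.trans ?_⟩
  haveI := ProbabilityTheory.nullSingletonClass_gaussianReal (μ := 0) (v := 1) one_ne_zero
  have hsub : s n ⊆ ((Set.Ioo (-M) a ∪ Set.Ioo a b) ∪ Set.Ioo b M) ∪ {a, b} := by
    intro x hx
    simp only [hs, Set.mem_Ioo] at hx
    rw [← hM] at hx
    simp only [Set.mem_union, Set.mem_Ioo, Set.mem_insert_iff, Set.mem_singleton_iff]
    rcases lt_trichotomy x a with h1 | h1 | h1
    · exact Or.inl (Or.inl (Or.inl ⟨hx.1, h1⟩))
    · exact Or.inr (Or.inl h1)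
    · rcases lt_trichotomy x b with h2 | h2 | h2
      · exact Or.inl (Or.inl (Or.inr ⟨h1, h2⟩))
      · exact Or.inr (Or.inr h2)
      · exact Or.inl (Or.inr ⟨h2, hx.2⟩)
  have h0 : (ProbabilityTheory.gaussianReal 0 1).real {a, b} = 0 := by
    rw [Measure.real, Set.Finite.measure_zero (Set.toFinite _)]
    rfl
  have h1 := measureReal_mono (μ := ProbabilityTheory.gaussianReal 0 1) hsub (measure_ne_top _ _)
  have h2 := measureReal_union_le (μ := ProbabilityTheory.gaussianReal 0 1)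
    ((Set.Ioo (-M) a ∪ Set.Ioo a b) ∪ Set.Ioo b M) {a, b}
  have h3 := measureReal_union_le (μ := ProbabilityTheory.gaussianReal 0 1)
    (Set.Ioo (-M) a ∪ Set.Ioo a b) (Set.Ioo b M)
  have h4 := measureReal_union_le (μ := ProbabilityTheory.gaussianReal 0 1)
    (Set.Ioo (-M) a) (Set.Ioo a b)
  unfold G01
  linarith

/-- **the law of the size of zeta at its zeros** -/
theorem law_all (RH : RiemannHypothesis) {a b : ℝ} (hab : a < b) :
    Tendsto (fun N : ℕ => ct N (Near a b) / N) atTop (𝓝 (G01 a b)) := by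
  rw [Metric.tendsto_atTop]
  intro ε hε
  obtain ⟨M, hM1, hM2, hM⟩ := G01_total hab (show 0 < ε / 8 by positivity)
  obtain ⟨N1, h1⟩ := low_all RH hab (show 0 < ε / 8 by positivity)
  obtain ⟨N2, h2⟩ := low_all RH hM1 (show 0 < ε / 8 by positivity)
  obtain ⟨N3, h3⟩ := low_all RH hM2 (show 0 < ε / 8 by positivity)
  obtain ⟨N4, h4⟩ := (SG.ord_tendsto.eventually_ge_atTop 3).exists_forall_of_atTop
  obtain ⟨N5, h5⟩ := exists_nat_ge (3 * (N4 : ℝ) / (ε / 8))
  have hl : ∀ n, N4 ≤ n → 0 < Real.log (ord n) := fun n hn => Real.log_pos (by linarith [h4 n hn])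
  refine ⟨N1 + N2 + N3 + N5 + 1, fun N hN => ?_⟩
  have g1 := h1 N (by omega)
  have g2 := h2 N (by omega)
  have g3 := h3 N (by omega)
  have g4 := ct_three (N := N) (N2 := N4) (P := Near (-M) a) (Q := Near a b) (R := Near b M)
    (fun n hn e1 e2 => near_excl le_rfl (hl n hn) e1 e2)
    (fun n hn e1 e2 => near_excl hab.le (hl n hn) e1 e2)
    (fun n hn e1 e2 => near_excl le_rfl (hl n hn) e1 e2)
  have hN0 : (0 : ℝ) < N := by
    have : 0 < N := by omega
    exact_mod_cast this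
  have g5 : 3 * (N4 : ℝ) ≤ ε / 8 * N := by
    rw [div_le_iff₀ (by positivity)] at h5
    have : (N5 : ℝ) ≤ N := by
      have : N5 ≤ N := by omega
      exact_mod_cast this
    nlinarith
  have g6 : ct N (Near a b) ≤ (G01 a b + ε / 2) * N := by
    have : 1 * (N : ℝ) ≤ (G01 (-M) a + G01 a b + G01 b M + ε / 8) * N := by
      apply mul_le_mul_of_nonneg_right _ hN0.le
      linarith
    nlinarith
  rw [Real.dist_eq, abs_lt]
  constructor
  · have : G01 a b - ε / 8 ≤ ct N (Near a b) / N := by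
      rw [le_div_iff₀ hN0]; exact g1
    linarith
  · have : ct N (Near a b) / N ≤ G01 a b + ε / 2 := by
      rw [div_le_iff₀ hN0]; exact g6
    linarith

/-- **dispersion of the gaps at every size of zeta** -/
theorem main (RH : RiemannHypothesis) : ∃ c : ℝ, 0 < c ∧ c ≤ 1 / 10 ∧
    (∀ A B : Set ℕ, Slow A B → ∀ ε : ℝ, 0 < ε → ∃ N0 : ℕ, ∀ N : ℕ, N0 ≤ N →
      c * ct N (fun n => n ∈ A) - ε * N ≤ ct N (fun n => n ∈ B ∧ dlt n < 1 - c) ∧
      c * ct N (fun n => n ∈ A) - ε * N ≤ ct N (fun n => n ∈ B ∧ 1 + c < dlt n)) ∧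
    (∀ a b : ℝ, a < b → Tendsto (fun N : ℕ => ct N (Near a b) / N) atTop (𝓝 (G01 a b))) ∧
    (∀ a b : ℝ, a < b → ∀ ε : ℝ, 0 < ε → ∃ N0 : ℕ, ∀ N : ℕ, N0 ≤ N →
      (c * G01 a b - ε) * N ≤ ct N (fun n => Near a b n ∧ dlt n < 1 - c) ∧
      (c * G01 a b - ε) * N ≤ ct N (fun n => Near a b n ∧ 1 + c < dlt n)) := by
  obtain ⟨c, hc, hc1, hgen⟩ := gen RH
  refine ⟨c, hc, hc1, hgen, fun a b hab => law_all RH hab, fun a b hab ε hε => ?_⟩
  obtain ⟨θ, hθ, hab', hG⟩ := G01_shrink hab (show 0 < ε / 3 by positivity)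
  obtain ⟨N1, h1⟩ := low_all RH hab' (show 0 < ε / 3 by positivity)
  obtain ⟨N2, h2⟩ := hgen _ _ (slow RH (a := a) (a' := a + θ) (b := b) (b' := b - θ) (by linarith)
    (by linarith)) (ε / 3) (by positivity)
  refine ⟨max N1 N2, fun N hN => ?_⟩
  have g1 := h1 N ((le_max_left _ _).trans hN)
  obtain ⟨g2, g3⟩ := h2 N ((le_max_right _ _).trans hN)
  have hN0 : (0 : ℝ) ≤ N := Nat.cast_nonneg _
  have g4 : (c * G01 a b - ε) * N ≤ c * ct N (fun n => n ∈ {n | Near (a + θ) (b - θ) n}) - ε / 3 * N := by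
    have e1 : c * ((G01 (a + θ) (b - θ) - ε / 3) * N) ≤ c * ct N (Near (a + θ) (b - θ)) :=
      mul_le_mul_of_nonneg_left g1 hc.le
    have e2 : c * ((G01 a b - ε / 3 - ε / 3) * N) ≤ c * ((G01 (a + θ) (b - θ) - ε / 3) * N) := by
      apply mul_le_mul_of_nonneg_left _ hc.le
      apply mul_le_mul_of_nonneg_right _ hN0
      linarith
    have e3 : c * (2 * (ε / 3) * N) ≤ 1 * (2 * (ε / 3) * N) := by
      apply mul_le_mul_of_nonneg_right _ (by positivity)
      linarith
    have e4 : ct N (fun n => n ∈ {n | Near (a + θ) (b - θ) n}) = ct N (Near (a + θ) (b - θ)) := rfl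
    rw [e4]
    linarith
  exact ⟨g4.trans g2, g4.trans g3⟩

end

end Run7.h911.SZ
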