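import Pool.Agent.Run7.h911.PQ8
import Pool.Agent.Run7.h911.SZ7

set_option autoImplicit false

/-! # The pairs of the ordinates in a size class (helper911) -/

namespace Run7.h911.PQ

open Filter Topology MeasureTheory Complex
open H370 (Zf mult good_zeta)
open Run7.h911.SZ (siz yp Bk G01 G01_nonneg G01_le)
open Pool.Agent.Results.MP_103a5c_nt.BohrSetPairs (pairSum TestFn mont)

noncomputable section

/-- the classes exclude one another -/
lemma near_exclO {a b c d : ℝ} (hbc : b ≤ c) {y : ℝ} (h : 0 < Real.log y) (h1 : NearO a b y)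
    (h2 : NearO c d y) : False := by
  unfold NearO at h1 h2
  have hf : volume (wn y) ≠ ⊤ := by rw [(wn_vol h).1]; exact ENNReal.ofReal_ne_top
  have hm : MeasurableSet {t : ℝ | t ∈ wn y ∧ c < siz t ∧ siz t < d} := by
    have e : {t : ℝ | t ∈ wn y ∧ c < siz t ∧ siz t < d} = wn y ∩ siz ⁻¹' (Set.Ioo c d) := rfl
    rw [e]
    exact measurableSet_Icc.inter (Run7.h911.SZ.siz_meas measurableSet_Ioo)
  have h3 : volume.real ({t : ℝ | t ∈ wn y ∧ a < siz t ∧ siz t < b} ∪ {t : ℝ | t ∈ wn y ∧ c < siz t ∧ siz t < d}) =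
      volume.real {t : ℝ | t ∈ wn y ∧ a < siz t ∧ siz t < b} +
        volume.real {t : ℝ | t ∈ wn y ∧ c < siz t ∧ siz t < d} := by
    refine measureReal_union ?_ hm (ne_top_of_le_ne_top hf (measure_mono fun t ht => ht.1))
      (ne_top_of_le_ne_top hf (measure_mono fun t ht => ht.1))
    rw [Set.disjoint_left]
    rintro t ⟨_, _, h4⟩ ⟨_, h5, _⟩
    linarith
  have h4 : volume.real ({t : ℝ | t ∈ wn y ∧ a < siz t ∧ siz t < b} ∪ {t : ℝ | t ∈ wn y ∧ c < siz t ∧ siz t < d}) ≤
      volume.real (wn y) := by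
    refine measureReal_mono ?_ hf
    rintro t (ht | ht)
    · exact ht.1
    · exact ht.1
  rw [h3, (wn_vol h).2] at h4
  have h5 : 0 < 2 / Real.log y := by positivity
  linarith

open Classical in
/-- the law, lower half -/
theorem low_W (RH : RiemannHypothesis) {R : ℝ → ℝ} {κ : ℝ} (hR : TF R κ) (h0 : 0 < κ) (h1 : κ < 1) {a b ε : ℝ}
    (hab : a < b) (hε : 0 < ε) : ∀ᶠ T : ℝ in atTop,
    (mo R * G01 a b - ε) * (T * (Real.log T / (2 * Real.pi))) ≤
      ∑ s ∈ (Zf riemannZeta T (2 * T)).filter (fun s => NearO a b s.im), Wt R T s := by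
  filter_upwards [compl_W RH hR h0 h1 hab (show 0 < ε / 2 by positivity),
    total_W RH hR h0 h1 (show 0 < ε / 2 by positivity)] with T t1 t2
  have e := Finset.sum_filter_add_sum_filter_not (Zf riemannZeta T (2 * T)) (fun s => NearO a b s.im)
    (fun s => Wt R T s)
  have h2 := (abs_le.1 t2).1
  linarith

open Classical in
/-- **the law of the pairs in a class** -/
theorem law_W (RH : RiemannHypothesis) {R : ℝ → ℝ} {κ : ℝ} (hR : TF R κ) (h0 : 0 < κ) (h1 : κ < 1) {a b ε : ℝ}
    (hab : a < b) (hε : 0 < ε) : ∀ᶠ T : ℝ in atTop,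
    |∑ s ∈ (Zf riemannZeta T (2 * T)).filter (fun s => NearO a b s.im), Wt R T s -
      mo R * G01 a b * (T * (Real.log T / (2 * Real.pi)))| ≤ ε * (T * (Real.log T / (2 * Real.pi))) := by
  have hm0 := mo_nonneg hR
  obtain ⟨M, hM1, hM2, hM⟩ := Run7.h911.SZ.G01_total hab (show 0 < ε / (4 * (mo R + 1)) by positivity)
  filter_upwards [low_W RH hR h0 h1 hab (show 0 < ε / 4 by positivity),
    low_W RH hR h0 h1 hM1 (show 0 < ε / 4 by positivity), low_W RH hR h0 h1 hM2 (show 0 < ε / 4 by positivity),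
    total_W RH hR h0 h1 (show 0 < ε / 4 by positivity), eventually_ge_atTop 10] with T t1 t2 t3 t4 t5
  have hpi := Real.pi_pos
  obtain ⟨Y, hY⟩ : ∃ Y, Y = T * (Real.log T / (2 * Real.pi)) := ⟨_, rfl⟩
  rw [← hY] at t1 t2 t3 t4 ⊢
  have hL0 : 0 < Real.log T := Real.log_pos (by linarith)
  have hY0 : 0 < Y := by rw [hY]; positivity
  obtain ⟨Z, hZ⟩ : ∃ Z, Z = Zf riemannZeta T (2 * T) := ⟨_, rfl⟩
  rw [← hZ] at t1 t2 t3 t4 ⊢
  have hlog : ∀ s ∈ Z, 0 < Real.log s.im := by
    intro s hs
    rw [hZ] at hs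
    obtain ⟨-, -, z3, -, -⟩ := (H370.mem_Zf good_zeta (by linarith)).mp hs
    exact Real.log_pos (by linarith)
  have hsum : ∑ s ∈ Z.filter (fun s => NearO a b s.im), Wt R T s +
      ∑ s ∈ Z.filter (fun s => NearO (-M) a s.im), Wt R T s +
      ∑ s ∈ Z.filter (fun s => NearO b M s.im), Wt R T s ≤ ∑ s ∈ Z, Wt R T s := by
    rw [← Finset.sum_union, ← Finset.sum_union]
    · refine Finset.sum_le_sum_of_subset_of_nonneg ?_ fun s _ _ => Wt_nonneg hR T s
      intro s hs
      simp only [Finset.mem_union, Finset.mem_filter] at hs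
      rcases hs with (h | h) | h
      · exact h.1
      · exact h.1
      · exact h.1
    · rw [Finset.disjoint_left]
      intro s hs hs'
      simp only [Finset.mem_union, Finset.mem_filter] at hs hs'
      rcases hs with h | h
      · exact near_exclO le_rfl (hlog s h.1) h.2 hs'.2
      · exact near_exclO hab.le (hlog s h.1) h.2 hs'.2
    · rw [Finset.disjoint_left]
      intro s hs hs'
      simp only [Finset.mem_filter] at hs hs'
      exact near_exclO le_rfl (hlog s hs.1) hs'.2 hs.2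
  have h2 := (abs_le.1 t4).2
  have h3 : mo R * (1 - G01 (-M) a - G01 a b - G01 b M) ≤ ε / 4 := by
    have h4 : mo R * (1 - G01 (-M) a - G01 a b - G01 b M) ≤ mo R * (ε / (4 * (mo R + 1))) :=
      mul_le_mul_of_nonneg_left (by linarith) hm0
    refine h4.trans ?_
    rw [mul_div_assoc', div_le_div_iff₀ (by positivity) (by norm_num)]
    nlinarith
  have h4 := mul_le_mul_of_nonneg_right h3 hY0.le
  have h5 : 0 < ε * Y := by positivity
  rw [abs_le]
  constructor <;> linarith

/-! ### general test functions -/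

lemma rh_add {R f : ℝ → ℝ} (hR : Continuous R) (hf : Continuous f) (l w : ℝ) :
    rh (fun x => R x + l * f x) w = rh R w + l * rh f w := by
  unfold rh
  have e : ∀ x : ℝ, (R x + l * f x) * Real.cos (w * x) = R x * Real.cos (w * x) + l * (f x * Real.cos (w * x)) :=
    fun x => by ring
  simp_rw [e]
  rw [intervalIntegral.integral_add, intervalIntegral.integral_const_mul]
  · ring
  · exact (hR.mul (by fun_prop)).intervalIntegrable _ _
  · exact (continuous_const.mul (hf.mul (by fun_prop))).intervalIntegrable _ _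

lemma mo_add {R f : ℝ → ℝ} (hR : Continuous R) (hf : Continuous f) (l : ℝ) :
    mo (fun x => R x + l * f x) = mo R + l * mo f := by
  unfold mo
  have e : ∀ x : ℝ, x * (R x + l * f x) = x * R x + l * (x * f x) := fun x => by ring
  simp_rw [e]
  rw [intervalIntegral.integral_add, intervalIntegral.integral_const_mul]
  · ring
  · exact (continuous_id.mul hR).intervalIntegrable _ _
  · exact (continuous_const.mul (continuous_id.mul hf)).intervalIntegrable _ _

lemma pw_add {R f : ℝ → ℝ} (hR : Continuous R) (hf : Continuous f) (l T : ℝ) (s s' : ℂ) :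
    pw (fun x => R x + l * f x) T s s' = pw R T s s' + l * pw f T s s' := by
  unfold pw
  rw [rh_add hR hf]
  ring

lemma Wt_add {R f : ℝ → ℝ} (hR : Continuous R) (hf : Continuous f) (l T : ℝ) (s : ℂ) :
    Wt (fun x => R x + l * f x) T s = Wt R T s + l * Wt f T s := by
  unfold Wt
  rw [Finset.mul_sum, ← Finset.sum_add_distrib]
  exact Finset.sum_congr rfl fun s' _ => pw_add hR hf l T s s'

/-- a Lipschitz test function is a difference of two positive ones -/
lemma split_R {R : ℝ → ℝ} {κ : ℝ} (hR : TestFn R κ) (hlip : ∃ K : ℝ, ∀ x y, |R x - R y| ≤ K * |x - y|)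
    (h0 : 0 < κ) (h1 : κ < 1) : ∃ κ' l : ℝ, 0 < κ' ∧ κ' < 1 ∧ 0 ≤ l ∧ TF (fb κ') κ' ∧
      TF (fun x => R x + l * fb κ' x) κ' := by
  have hpi := Real.pi_pos
  obtain ⟨κ', hκ'⟩ : ∃ κ', κ' = (1 + κ) / 2 := ⟨_, rfl⟩
  have hk0 : 0 < κ' := by rw [hκ']; linarith
  have hk1 : κ' < 1 := by rw [hκ']; linarith
  have hkk : κ < κ' := by rw [hκ']; linarith
  obtain ⟨K, hK⟩ := hlip
  obtain ⟨K0, hK0⟩ := hR.decay
  have hKn : 0 ≤ K := by
    have := (abs_nonneg _).trans (hK 1 0)
    simpa using this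
  have hK0n : 0 ≤ K0 := by
    have := (abs_nonneg _).trans (hK0 0)
    simpa using this
  obtain ⟨c1, hc1⟩ : ∃ c1, c1 = (1 / κ') * (1 - κ / κ') := ⟨_, rfl⟩
  have hc10 : 0 < c1 := by
    rw [hc1]
    have : κ / κ' < 1 := by rw [div_lt_one hk0]; exact hkk
    have h2 : 0 < 1 - κ / κ' := by linarith
    positivity
  obtain ⟨l, hl⟩ : ∃ l, l = 2 * K / c1 + 80 * K0 := ⟨_, rfl⟩
  have hl0 : 0 ≤ l := by rw [hl]; positivity
  have hl1 : 2 * K ≤ l * c1 := by
    have : 2 * K / c1 ≤ l := by rw [hl]; have : 0 ≤ 80 * K0 := by positivity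
                                linarith
    rwa [div_le_iff₀ hc10] at this
  have hl2 : 80 * K0 ≤ l := by
    have : 0 ≤ 2 * K / c1 := by positivity
    rw [hl]; linarith
  have hf := fb_TF hk0 hk1.le
  -- the transform of `R`
  have hrR : ∀ w : ℝ, |rh R w| ≤ 40 * K0 / (1 + w ^ 2) := by
    intro w
    have h2 := hK0 (w / (2 * Real.pi))
    rw [r_eq hR.cont hR.even] at h2
    have e : 2 * Real.pi * (w / (2 * Real.pi)) = w := by field_simp
    rw [e] at h2
    refine h2.trans ?_
    rw [div_le_div_iff₀ (by positivity) (by positivity)]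
    have h3 : (2 * Real.pi) ^ 2 ≤ 40 := by
      have := Real.pi_lt_d2
      nlinarith
    have h4 : w ^ 2 ≤ 40 * (w / (2 * Real.pi)) ^ 2 := by
      rw [div_pow, mul_div_assoc', le_div_iff₀ (by positivity)]
      have := sq_nonneg w
      nlinarith
    have h5 := mul_le_mul_of_nonneg_left h4 hK0n
    nlinarith
  have hfl : ∀ w : ℝ, (1 / 2) / (1 + w ^ 2) ≤ rh (fb κ') w := by
    intro w
    refine le_trans ?_ (fb_rh_low hk0 hk1.le w)
    rw [div_le_div_iff₀ (by positivity) (by positivity)]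
    have h2 : κ' * |w| ≤ |w| := by
      have := mul_le_mul_of_nonneg_right hk1.le (abs_nonneg w)
      linarith
    have h3 := Real.pi_lt_d2
    have h4 : (κ' * |w| + Real.pi / 2) ^ 2 ≤ (|w| + 8 / 5) ^ 2 := by
      apply pow_le_pow_left₀ (by positivity)
      linarith
    have h5 : (|w| + 8 / 5) ^ 2 ≤ 8 * (1 + w ^ 2) := by
      rw [← sq_abs w]
      nlinarith [sq_nonneg (|w| - 1), abs_nonneg w]
    linarith
  refine ⟨κ', l, hk0, hk1, hl0, hf, ?_⟩
  refine ⟨hR.cont.add (continuous_const.mul (fb_cont κ')), fun α => ?_, fun α hα => ?_, fun α => ?_, ?_, fun w => ?_, ?_⟩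
  · show R (-α) + l * fb κ' (-α) = R α + l * fb κ' α
    rw [hR.even, fb_even]
  · show R α + l * fb κ' α = 0
    rw [hR.supp α (hkk.le.trans hα), fb_supp hk0 α hα]
    ring
  · show 0 ≤ R α + l * fb κ' α
    rcases le_or_gt κ |α| with h | h
    · rw [hR.supp α h, zero_add]
      exact mul_nonneg hl0 (fb_nonneg hk0 α)
    · have h2 := hK α κ
      rw [hR.supp κ (le_abs_self κ), sub_zero] at h2
      have h3 : |α - κ| ≤ 2 := by
        rw [abs_lt] at h
        rw [abs_le]
        constructor <;> linarith [h.1, h.2]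
      have h4 : |R α| ≤ 2 * K := by
        have := mul_le_mul_of_nonneg_left h3 hKn
        linarith
      have h5 : c1 ≤ fb κ' α := by
        refine le_trans ?_ (fb_low hk0 α)
        rw [hc1]
        apply mul_le_mul_of_nonneg_left _ (by positivity)
        refine le_trans ?_ (le_max_right _ _)
        have : |α| / κ' ≤ κ / κ' := div_le_div_of_nonneg_right h.le hk0.le
        linarith
      have h6 := mul_le_mul_of_nonneg_left h5 hl0
      linarith [(abs_le.1 h4).1]
  · obtain ⟨K2, hK2⟩ := hf.lip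
    refine ⟨K + l * K2, fun x y => ?_⟩
    have e : R x + l * fb κ' x - (R y + l * fb κ' y) = (R x - R y) + l * (fb κ' x - fb κ' y) := by ring
    show |R x + l * fb κ' x - (R y + l * fb κ' y)| ≤ _
    rw [e]
    refine (abs_add_le _ _).trans ?_
    rw [abs_mul, abs_of_nonneg hl0, add_mul, mul_assoc]
    exact add_le_add (hK x y) (mul_le_mul_of_nonneg_left (hK2 x y) hl0)
  · rw [rh_add hR.cont (fb_cont κ')]
    have h2 := (abs_le.1 (hrR w)).1
    have h3 := mul_le_mul_of_nonneg_left (hfl w) hl0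
    have h4 : 40 * K0 / (1 + w ^ 2) ≤ l * ((1 / 2) / (1 + w ^ 2)) := by
      rw [mul_div_assoc']
      apply div_le_div_of_nonneg_right _ (by positivity)
      linarith
    linarith
  · obtain ⟨A, hA0, hA⟩ := hf.A
    refine ⟨40 * K0 + l * A, fun w => ?_⟩
    rw [rh_add hR.cont (fb_cont κ')]
    have h2 := (abs_le.1 (hrR w)).2
    have h3 := mul_le_mul_of_nonneg_left (hA w) hl0
    have e : (40 * K0 + l * A) / (1 + w ^ 2) = 40 * K0 / (1 + w ^ 2) + l * (A / (1 + w ^ 2)) := by ring
    rw [e]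
    linarith

end

end Run7.h911.PQ
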