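import Mathlib
import Pool.Agent.TH861.GL3.Main

/-!
# Several representations of `GL(2)`: the adjoint lifts and the lifts to `GL(5)`
-/

set_option autoImplicit false

namespace Run7.h911.RC

open NumberField IsDedekindDomain Filter Topology
open Pool.Agent.TH861.GL3 (PL qq)
open Pool.Agent.H921R2.TatePole (Lam)

variable {K : Type*} [Field K] [NumberField K] {S : Finset (HeightOneSpectrum (𝓞 K))}

/-- the parameters of a unitary representation -/
def Unitary (a : Fin 2 → ℂ) : Prop :=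
  (∀ i, a i ≠ 0) ∧ ∃ τ : Equiv.Perm (Fin 2), ∀ i, a (τ i) = ((starRingEnd ℂ) (a i))⁻¹

/-- the parameters of a tempered representation -/
def Tempered (a : Fin 2 → ℂ) : Prop := ∀ i, ‖a i‖ = 1

/-- Let `a` be the Satake parameters of `π_v`. For `X = 0` this is the trace of the `k`-th power of the
Satake parameter of the adjoint lift `Ad π` (to `GL_3`) at `v`, for `X = 1` the one of the lift
`A⁴ π = Sym⁴ π ⊗ ω^{-2}` (to `GL_5`), `ω` the central character of `π`. -/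
noncomputable def tr (X : Fin 2) (a : Fin 2 → ℂ) (k : ℕ) : ℂ :=
  if X = 0 then (a 0 / a 1) ^ k + 1 + (a 1 / a 0) ^ k
  else (a 0 / a 1) ^ (2 * k) + (a 0 / a 1) ^ k + 1 + (a 1 / a 0) ^ k + (a 1 / a 0) ^ (2 * k)

/-- `∑_{v ∉ S} ∑_{k ≥ 1} f v k / k · (N v)^{-ks}`, the logarithm of a partial `L`-function -/
noncomputable def logL (f : PL S → ℕ → ℂ) (s : ℂ) : ℂ :=
  ∑' x : PL S × ℕ, f x.1 (x.2 + 1) / ((x.2 : ℂ) + 1) * (((qq x.1.1 : ℕ) : ℂ) ^ (-s)) ^ (x.2 + 1)

/-- What is used of unitary cuspidal automorphic representations `π_1, ..., π_m` of `GL_2` over `K`, unramified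
outside `S` (up to twists), with Satake parameters `α_{i,v}`, such that the `2 m` lifts `Ad π_i`, `A⁴ π_i` are
cuspidal and inequivalent. -/
structure Family {m : ℕ} (α : Fin m → PL S → Fin 2 → ℂ) : Prop where
  /-- the local components are unitary -/
  unitary : ∀ i v, Unitary (α i v)
  /-- absolute convergence of `L(s, Π × Π~)` for `Re s > 1` (Jacquet, Shalika) -/
  summable : ∀ (i : Fin m) (X : Fin 2) (σ : ℝ), 1 < σ → Summable fun x : PL S × ℕ =>
    ‖tr X (α i x.1) (x.2 + 1)‖ ^ 2 / ((x.2 : ℝ) + 1) * (((qq x.1.1 : ℕ) : ℝ) ^ (-σ)) ^ (x.2 + 1)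
  /-- `L(s, Π)` is holomorphic and nonzero at `s = 1` -/
  standard : ∀ (i : Fin m) (X : Fin 2), ∃ F : ℂ → ℂ, AnalyticAt ℂ F 1 ∧ F 1 ≠ 0 ∧
    ∀ s : ℂ, 1 < s.re → F s = Complex.exp (logL (fun v k => tr X (α i v) k) s)
  /-- `L(s, Π × Π'~)` is holomorphic and nonzero at `s = 1` for inequivalent `Π`, `Π'` -/
  distinct : ∀ (i j : Fin m) (X Y : Fin 2), (i, X) ≠ (j, Y) → ∃ F : ℂ → ℂ, AnalyticAt ℂ F 1 ∧ F 1 ≠ 0 ∧
    ∀ s : ℂ, 1 < s.re →
      F s = Complex.exp (logL (fun v k => tr X (α i v) k * (starRingEnd ℂ) (tr Y (α j v) k)) s)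
  /-- `L(s, Π × Π~)` has a simple pole at `s = 1` -/
  same : ∀ (i : Fin m) (X : Fin 2), ∃ F : ℂ → ℂ, AnalyticAt ℂ F 1 ∧ F 1 ≠ 0 ∧
    ∀ s : ℂ, 1 < s.re →
      F s = (s - 1) * Complex.exp (logL (fun v k => tr X (α i v) k * (starRingEnd ℂ) (tr X (α i v) k)) s)

/-! ### Local facts -/

theorem quot_cases {a : Fin 2 → ℂ} (h : Unitary a) :
    (Tempered a ∧ ‖a 0 / a 1‖ = 1) ∨ ∃ z : ℝ, 0 < z ∧ a 0 / a 1 = z := by
  obtain ⟨h0, τ, hτ⟩ := h
  have hn : ∀ i, a (τ i) * (starRingEnd ℂ) (a i) = 1 := fun i => by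
    rw [hτ i]
    exact inv_mul_cancel₀ ((map_ne_zero _).2 (h0 i))
  by_cases h1 : τ 0 = 0
  · left
    have h2 : τ 1 = 1 := by
      have h3 : τ 1 ≠ 0 := fun h3 => by
        have := τ.injective (h1.trans h3.symm)
        exact absurd this (by decide)
      omega
    have e : ∀ i, ‖a i‖ = 1 := by
      intro i
      have h3 : τ i = i := by
        fin_cases i
        · exact h1
        · exact h2
      have h4 := hn i
      rw [h3] at h4
      have h5 := congrArg norm h4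
      rw [norm_mul, RCLike.norm_conj, norm_one] at h5
      nlinarith [norm_nonneg (a i)]
    exact ⟨e, by rw [norm_div, e 0, e 1, div_one]⟩
  · right
    have h2 : τ 0 = 1 := by omega
    have h3 := hn 0
    rw [h2] at h3
    have h4 : a 0 / a 1 = a 0 * (starRingEnd ℂ) (a 0) := by
      rw [div_eq_iff (h0 1)]
      calc a 0 = a 0 * (a 1 * (starRingEnd ℂ) (a 0)) := by rw [h3, mul_one]
        _ = _ := by ring
    refine ⟨Complex.normSq (a 0), Complex.normSq_pos.2 (h0 0), ?_⟩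
    rw [h4, Complex.mul_conj]

theorem inv_quot (a : Fin 2 → ℂ) : a 1 / a 0 = (a 0 / a 1)⁻¹ := (inv_div _ _).symm

theorem conj_tr {a : Fin 2 → ℂ} (h : Unitary a) (X : Fin 2) (k : ℕ) :
    (starRingEnd ℂ) (tr X a k) = tr X a k := by
  unfold tr
  rw [inv_quot]
  rcases quot_cases h with ⟨-, h1⟩ | ⟨z, -, hz⟩
  · have hc : (starRingEnd ℂ) (a 0 / a 1) = (a 0 / a 1)⁻¹ := (Complex.inv_eq_conj h1).symm
    split_ifs
    · simp only [map_add, map_pow, map_one, map_inv₀, hc, inv_inv]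
      ring
    · simp only [map_add, map_pow, map_one, map_inv₀, hc, inv_inv]
      ring
  · have hc : (starRingEnd ℂ) (a 0 / a 1) = a 0 / a 1 := by rw [hz]; exact Complex.conj_ofReal z
    split_ifs
    · simp only [map_add, map_pow, map_one, map_inv₀, hc]
    · simp only [map_add, map_pow, map_one, map_inv₀, hc]

/-- the real traces -/
noncomputable def rt (X : Fin 2) (a : Fin 2 → ℂ) (k : ℕ) : ℝ := (tr X a k).re

theorem tr_eq {a : Fin 2 → ℂ} (h : Unitary a) (X : Fin 2) (k : ℕ) : tr X a k = (rt X a k : ℂ) :=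
  (Complex.conj_eq_iff_re.1 (conj_tr h X k)).symm

theorem rt_sq {a : Fin 2 → ℂ} (h : Unitary a) (k : ℕ) : rt 0 a k ^ 2 = 1 + rt 0 a k + rt 1 a k := by
  have e : tr 0 a k ^ 2 = 1 + tr 0 a k + tr 1 a k := by
    have hz : a 0 / a 1 ≠ 0 := div_ne_zero (h.1 0) (h.1 1)
    unfold tr
    rw [inv_quot, if_pos rfl, if_neg (by decide)]
    have h1 : (a 0 / a 1) ^ k ≠ 0 := pow_ne_zero _ hz
    simp only [inv_pow, mul_comm 2 k, pow_mul]
    field_simp
    ring
  rw [tr_eq h, tr_eq h] at e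
  exact_mod_cast e

theorem rt_large {a : Fin 2 → ℂ} (h : Unitary a) (hn : ¬ Tempered a) (k : ℕ) :
    3 ≤ rt 0 a k ∧ 5 ≤ rt 1 a k := by
  obtain ⟨z, hz0, hz⟩ : ∃ z : ℝ, 0 < z ∧ a 0 / a 1 = z := by
    rcases quot_cases h with h1 | h1
    · exact absurd h1.1 hn
    · exact h1
  have key : ∀ w : ℝ, 0 < w → 2 ≤ w + w⁻¹ := fun w hw => by
    have h1 : w + w⁻¹ - 2 = (w - 1) ^ 2 * w⁻¹ := by field_simp; ring
    have h2 : 0 ≤ (w - 1) ^ 2 * w⁻¹ := by positivity
    linarith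
  have k1 := key (z ^ k) (by positivity)
  have k2 := key (z ^ (2 * k)) (by positivity)
  have e0 : rt 0 a k = z ^ k + 1 + (z ^ k)⁻¹ := by
    unfold rt tr
    rw [inv_quot, if_pos rfl, hz, ← inv_pow]
    norm_cast
  have e1 : rt 1 a k = z ^ (2 * k) + z ^ k + 1 + (z ^ k)⁻¹ + (z ^ (2 * k))⁻¹ := by
    unfold rt tr
    rw [inv_quot, if_neg (by decide), hz, ← inv_pow, ← inv_pow]
    norm_cast
  rw [e0, e1]
  constructor <;> linarith

/-! ### The system of functions -/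

/-- the index set: the trivial representation and the lifts -/
abbrev J (m : ℕ) := Option (Fin m × Fin 2)

/-- the traces -/
noncomputable def tt {m : ℕ} (α : Fin m → PL S → Fin 2 → ℂ) : J m → PL S → ℕ → ℝ
  | none => fun _ _ => 1
  | some c => fun v k => rt c.2 (α c.1 v) k

/-- the weights -/
noncomputable def wt (σ : ℝ) (x : PL S × ℕ) : ℝ :=
  (((qq x.1.1 : ℕ) : ℝ) ^ (-σ)) ^ (x.2 + 1) / ((x.2 : ℝ) + 1)

theorem wt_nonneg (σ : ℝ) (x : PL S × ℕ) : 0 ≤ wt σ x := by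
  unfold wt
  have := (Pool.Agent.TH861.GL3.qq_pos x.1.1).le
  positivity

theorem wt_zero (σ : ℝ) (v : PL S) : wt σ (v, 0) = (qq v.1 : ℝ) ^ (-σ) := by
  unfold wt
  simp

theorem summable_wt {σ : ℝ} (hσ : 1 < σ) : Summable fun x : PL S × ℕ => wt σ x := by
  have h2 := Pool.Agent.TH861.GL3.summable_pp (S := S) (fun _ => 1) (fun _ => zero_le_one)
    (by linarith : (0 : ℝ) < σ)
    ((Pool.Agent.TH861.GL3.summable_qq hσ).congr fun p => (one_mul _).symm)
  refine Summable.of_nonneg_of_le (fun x => wt_nonneg σ x) (fun x => ?_) h2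
  rw [Pool.Agent.TH861.GL3.rexp_LL, one_mul]
  unfold wt
  have := (Pool.Agent.TH861.GL3.qq_pos x.1.1).le
  apply div_le_self (by positivity)
  have : (0 : ℝ) ≤ x.2 := by positivity
  linarith

variable {m : ℕ} {α : Fin m → PL S → Fin 2 → ℂ}

theorem summable_sq (h : Family α) (c : J m) {σ : ℝ} (hσ : 1 < σ) :
    Summable fun x : PL S × ℕ => tt α c x.1 (x.2 + 1) ^ 2 * wt σ x := by
  cases c with
  | none =>
    refine (summable_wt hσ).congr fun x => ?_
    simp only [tt, one_pow, one_mul]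
  | some c =>
    refine (h.summable c.1 c.2 σ hσ).congr fun x => ?_
    simp only [tt]
    rw [tr_eq (h.unitary _ _), Complex.norm_real, Real.norm_eq_abs, sq_abs]
    unfold wt
    ring

theorem summable_pair (h : Family α) (c d : J m) {σ : ℝ} (hσ : 1 < σ) :
    Summable fun x : PL S × ℕ => tt α c x.1 (x.2 + 1) * tt α d x.1 (x.2 + 1) * wt σ x := by
  refine Summable.of_norm_bounded ((summable_sq h c hσ).add (summable_sq h d hσ)) fun x => ?_
  have h0 := wt_nonneg σ x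
  rw [norm_mul, Real.norm_of_nonneg h0, ← add_mul]
  refine mul_le_mul_of_nonneg_right ?_ h0
  rw [Real.norm_eq_abs, abs_le]
  constructor <;> nlinarith [sq_nonneg (tt α c x.1 (x.2 + 1) + tt α d x.1 (x.2 + 1)),
    sq_nonneg (tt α c x.1 (x.2 + 1) - tt α d x.1 (x.2 + 1))]

/-- the logarithm of the `L`-function at a real point -/
theorem logL_real (f : PL S → ℕ → ℂ) (g : PL S → ℕ → ℝ) (hfg : ∀ v k, f v k = (g v k : ℂ)) (σ : ℝ) :
    logL f (σ : ℂ) = ((∑' x : PL S × ℕ, g x.1 (x.2 + 1) * wt σ x : ℝ) : ℂ) := by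
  unfold logL
  rw [Complex.ofReal_tsum]
  refine tsum_congr fun x => ?_
  rw [hfg]
  unfold wt
  push_cast
  rw [Complex.ofReal_cpow (Pool.Agent.TH861.GL3.qq_pos x.1.1).le]
  push_cast
  ring

/-- a function which is holomorphic and nonzero at `1` has a bounded logarithm near `1` -/
theorem log_bdd {F : ℂ → ℂ} (hF : AnalyticAt ℂ F 1) (h1 : F 1 ≠ 0) :
    ∃ C : ℝ, ∀ᶠ σ : ℝ in 𝓝[>] 1, F (σ : ℂ) ≠ 0 ∧ |Real.log ‖F (σ : ℂ)‖| ≤ C := by
  have hc : ContinuousAt (fun σ : ℝ => Real.log ‖F (σ : ℂ)‖) 1 := by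
    have h2 : ContinuousAt (fun σ : ℝ => F (σ : ℂ)) 1 := by
      have h3 : ContinuousAt F ((1 : ℝ) : ℂ) := by
        rw [Complex.ofReal_one]
        exact hF.continuousAt
      exact h3.comp Complex.continuous_ofReal.continuousAt
    refine (h2.norm).log ?_
    simpa using h1
  have hne : ∀ᶠ σ : ℝ in 𝓝 1, F (σ : ℂ) ≠ 0 := by
    have h2 : ContinuousAt (fun σ : ℝ => F (σ : ℂ)) 1 := by
      have h3 : ContinuousAt F ((1 : ℝ) : ℂ) := by
        rw [Complex.ofReal_one]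
        exact hF.continuousAt
      exact h3.comp Complex.continuous_ofReal.continuousAt
    apply h2.eventually_ne
    simpa using h1
  refine ⟨|Real.log ‖F ((1 : ℝ) : ℂ)‖| + 1, ?_⟩
  have h4 := (hc.abs).eventually (gt_mem_nhds (lt_add_one _))
  filter_upwards [nhdsWithin_le_nhds h4, nhdsWithin_le_nhds hne] with σ hσ hσ2
  exact ⟨hσ2, hσ.le⟩

end Run7.h911.RC
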