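import Mathlib

/-!
# Equidistribution with respect to the Sato-Tate measure from the Chebyshev averages
-/

set_option autoImplicit false

namespace Run7.h911.ST

open Filter Topology Set Real MeasureTheory

/-- the value of the `k`-th Chebyshev polynomial of the second kind at `cos θ` -/
noncomputable def U (k : ℕ) (θ : ℝ) : ℝ := (Polynomial.Chebyshev.U ℝ (k : ℤ)).eval (cos θ)

/-- the Sato-Tate average of a function of the angle -/
noncomputable def Lam (h : ℝ → ℝ) : ℝ := 2 / π * ∫ θ in (0)..π, h θ * sin θ ^ 2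

/-- the Sato-Tate measure of the interval `[a, b]` of angles -/
noncomputable def mu (a b : ℝ) : ℝ := 2 / π * ∫ θ in a..b, sin θ ^ 2

theorem U_zero (θ : ℝ) : U 0 θ = 1 := by simp [U]

theorem U_one (θ : ℝ) : U 1 θ = 2 * cos θ := by simp [U]

theorem U_rec (k : ℕ) (θ : ℝ) : U (k + 2) θ = 2 * cos θ * U (k + 1) θ - U k θ := by
  unfold U
  have := Polynomial.Chebyshev.U_add_two ℝ (k : ℤ)
  push_cast
  rw [this]
  simp

theorem U_sin (k : ℕ) (θ : ℝ) : U k θ * sin θ = sin ((k + 1) * θ) := by
  unfold U
  have := Polynomial.Chebyshev.U_real_cos θ (k : ℤ)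
  push_cast at this
  exact this

theorem U_cont (k : ℕ) : Continuous (U k) := by
  unfold U
  exact (Polynomial.continuous _).comp continuous_cos

theorem Lam_U (k : ℕ) : Lam (U k) = if k = 0 then 1 else 0 := by
  unfold Lam
  have h1 : ∀ θ : ℝ, U k θ * sin θ ^ 2 = (cos (k * θ) - cos ((k + 2) * θ)) / 2 := by
    intro θ
    have h2 : U k θ * sin θ ^ 2 = sin ((k + 1) * θ) * sin θ := by
      rw [← U_sin]
      ring
    rw [h2]
    have e1 : (k : ℝ) * θ = (k + 1) * θ - θ := by ring
    have e2 : ((k : ℝ) + 2) * θ = (k + 1) * θ + θ := by ring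
    rw [e1, e2, cos_sub, cos_add]
    ring
  simp only [h1]
  have hint : ∀ c : ℝ, IntervalIntegrable (fun θ => cos (c * θ)) volume 0 π := fun c =>
    (by fun_prop : Continuous fun θ : ℝ => cos (c * θ)).intervalIntegrable _ _
  have hz : ∀ m : ℕ, m ≠ 0 → ∫ θ in (0 : ℝ)..π, cos ((m : ℝ) * θ) = 0 := by
    intro m hm
    have hm' : (m : ℝ) ≠ 0 := by exact_mod_cast hm
    rw [intervalIntegral.integral_comp_mul_left (fun x => cos x) hm', integral_cos]
    simp [Real.sin_nat_mul_pi]
  rw [intervalIntegral.integral_div, intervalIntegral.integral_sub (hint _) (hint _)]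
  have h3 := hz (k + 2) (by omega)
  push_cast at h3
  rw [h3]
  split_ifs with hk
  · subst hk
    simp
  · rw [hz k hk]
    simp

theorem Lam_add {h h' : ℝ → ℝ} (hc : Continuous h) (hc' : Continuous h') :
    Lam (fun θ => h θ + h' θ) = Lam h + Lam h' := by
  unfold Lam
  have : ∫ θ in (0)..π, (h θ + h' θ) * sin θ ^ 2 =
      (∫ θ in (0)..π, h θ * sin θ ^ 2) + ∫ θ in (0)..π, h' θ * sin θ ^ 2 := by
    rw [← intervalIntegral.integral_add]
    · exact intervalIntegral.integral_congr fun θ _ => by ring
    · exact Continuous.intervalIntegrable (by fun_prop) _ _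
    · exact Continuous.intervalIntegrable (by fun_prop) _ _
  rw [this]
  ring

theorem Lam_mul (c : ℝ) (h : ℝ → ℝ) : Lam (fun θ => c * h θ) = c * Lam h := by
  unfold Lam
  have : ∫ θ in (0)..π, c * h θ * sin θ ^ 2 = c * ∫ θ in (0)..π, h θ * sin θ ^ 2 := by
    rw [← intervalIntegral.integral_const_mul]
    exact intervalIntegral.integral_congr fun θ _ => by ring
  rw [this]
  ring

theorem Lam_mono {h h' : ℝ → ℝ} (hi : IntervalIntegrable (fun θ => h θ * sin θ ^ 2) volume 0 π)
    (hi' : IntervalIntegrable (fun θ => h' θ * sin θ ^ 2) volume 0 π)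
    (hh : ∀ θ ∈ Icc 0 π, h θ ≤ h' θ) : Lam h ≤ Lam h' := by
  unfold Lam
  have hp := Real.pi_pos
  refine mul_le_mul_of_nonneg_left ?_ (by positivity)
  refine intervalIntegral.integral_mono_on hp.le hi hi' fun θ hθ => ?_
  exact mul_le_mul_of_nonneg_right (hh θ hθ) (sq_nonneg _)

section Main

variable {V ι : Type*} {l : Filter ι} {θ : V → ℝ} {c : ι → V → ℝ} {a0 : ℝ}

/-- the averages converge -/
def Good (l : Filter ι) (θ : V → ℝ) (c : ι → V → ℝ) (a0 : ℝ) (h : ℝ → ℝ) : Prop :=
  Tendsto (fun i => ∑' v, c i v * h (θ v)) l (𝓝 (a0 * Lam h))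

/-- the weights are nonnegative and summable -/
def Wts (l : Filter ι) (c : ι → V → ℝ) : Prop :=
  ∀ᶠ i in l, (∀ v, 0 ≤ c i v) ∧ Summable (c i)

theorem summable_mul {c : V → ℝ} (h0 : ∀ v, 0 ≤ c v) (hc : Summable c) (hθ : ∀ v, θ v ∈ Icc 0 π)
    {h : ℝ → ℝ} {M : ℝ} (hM : ∀ t ∈ Icc 0 π, |h t| ≤ M) : Summable fun v => c v * h (θ v) := by
  refine Summable.of_norm_bounded (hc.mul_right M) fun v => ?_
  rw [norm_mul, Real.norm_of_nonneg (h0 v)]
  exact mul_le_mul_of_nonneg_left (hM _ (hθ v)) (h0 v)

theorem bdd_of_cont {h : ℝ → ℝ} (hc : Continuous h) : ∃ M : ℝ, ∀ t ∈ Icc 0 π, |h t| ≤ M := by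
  obtain ⟨M, hM⟩ := isCompact_Icc.exists_bound_of_continuousOn (s := Icc (0 : ℝ) π) (f := h)
    hc.continuousOn
  exact ⟨M, fun t ht => by simpa using hM t ht⟩

theorem Good.add (hw : Wts l c) (hθ : ∀ v, θ v ∈ Icc 0 π) {h h' : ℝ → ℝ} (hc : Continuous h)
    (hc' : Continuous h') (hg : Good l θ c a0 h) (hg' : Good l θ c a0 h') :
    Good l θ c a0 fun t => h t + h' t := by
  obtain ⟨M, hM⟩ := bdd_of_cont hc
  obtain ⟨M', hM'⟩ := bdd_of_cont hc'
  unfold Good at *
  rw [Lam_add hc hc', mul_add]
  refine (hg.add hg').congr' ?_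
  filter_upwards [hw] with i hi
  rw [← (summable_mul hi.1 hi.2 hθ hM).tsum_add (summable_mul hi.1 hi.2 hθ hM')]
  exact tsum_congr fun v => by ring

theorem Good.mul {h : ℝ → ℝ} (r : ℝ) (hg : Good l θ c a0 h) : Good l θ c a0 fun t => r * h t := by
  unfold Good at *
  rw [Lam_mul, ← mul_assoc, mul_comm a0 r, mul_assoc]
  refine (hg.const_mul r).congr fun i => ?_
  rw [← tsum_mul_left]
  exact tsum_congr fun v => by ring

/-- polynomials -/
theorem good_poly (hw : Wts l c) (hθ : ∀ v, θ v ∈ Icc 0 π)
    (hU : ∀ k : ℕ, Tendsto (fun i => ∑' v, c i v * U k (θ v)) l (𝓝 (if k = 0 then a0 else 0)))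
    (p : Polynomial ℝ) : Good l θ c a0 fun t => p.eval (cos t) := by
  have h0 : ∀ k, Good l θ c a0 (U k) := by
    intro k
    unfold Good
    rw [Lam_U]
    have := hU k
    have e : a0 * (if k = 0 then (1 : ℝ) else 0) = if k = 0 then a0 else 0 := by
      split_ifs <;> simp
    rw [e]
    exact this
  have hX : ∀ n k : ℕ, Good l θ c a0 fun t => cos t ^ n * U k t := by
    intro n
    induction n with
    | zero =>
      intro k
      have := h0 k
      simpa using this
    | succ n ih =>
      intro k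
      cases k with
      | zero =>
        have := (ih 1).mul (1 / 2)
        have e : (fun t => 1 / 2 * (cos t ^ n * U 1 t)) = fun t => cos t ^ (n + 1) * U 0 t := by
          funext t
          rw [U_one, U_zero]
          ring
        rw [e] at this
        exact this
      | succ k =>
        have h1 := U_cont k
        have h2 := U_cont (k + 2)
        have := (Good.add hw hθ (by fun_prop) (by fun_prop) (ih (k + 2)) (ih k)).mul (1 / 2)
        have e : (fun t => 1 / 2 * (cos t ^ n * U (k + 2) t + cos t ^ n * U k t)) =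
            fun t => cos t ^ (n + 1) * U (k + 1) t := by
          funext t
          rw [U_rec]
          ring
        rw [e] at this
        exact this
  induction p using Polynomial.induction_on' with
  | add p q hp hq =>
    have h1 : Continuous fun t => p.eval (cos t) := (Polynomial.continuous _).comp continuous_cos
    have h2 : Continuous fun t => q.eval (cos t) := (Polynomial.continuous _).comp continuous_cos
    have := Good.add hw hθ h1 h2 hp hq
    simpa [Polynomial.eval_add] using this
  | monomial n r =>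
    have := (hX n 0).mul r
    have e : (fun t => r * (cos t ^ n * U 0 t)) =
        fun t => (Polynomial.monomial n r).eval (cos t) := by
      funext t
      rw [U_zero, Polynomial.eval_monomial]
      ring
    rw [e] at this
    exact this

theorem Lam_one : Lam (fun _ => 1) = 1 := by
  have h1 := Lam_U 0
  rw [if_pos rfl] at h1
  have e : (fun _ : ℝ => (1 : ℝ)) = U 0 := by
    funext θ
    rw [U_zero]
  rw [e]
  exact h1

/-- continuous functions -/
theorem good_cont (hw : Wts l c) (hθ : ∀ v, θ v ∈ Icc 0 π) (ha : 0 ≤ a0)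
    (hU : ∀ k : ℕ, Tendsto (fun i => ∑' v, c i v * U k (θ v)) l (𝓝 (if k = 0 then a0 else 0)))
    {h : ℝ → ℝ} (hc : Continuous h) : Good l θ c a0 h := by
  unfold Good
  rw [Metric.tendsto_nhds]
  intro ε hε
  set η : ℝ := ε / (4 * (a0 + 1)) with hη
  have hη0 : 0 < η := by positivity
  obtain ⟨p, hp⟩ := exists_polynomial_near_of_continuousOn (-1) 1 (fun x => h (arccos x))
    ((hc.comp continuous_arccos).continuousOn) η hη0
  have hp' : ∀ t ∈ Icc 0 π, |p.eval (cos t) - h t| ≤ η := by
    intro t ht
    have := hp (cos t) ⟨neg_one_le_cos t, cos_le_one t⟩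
    rw [arccos_cos ht.1 ht.2] at this
    exact this.le
  have hg := good_poly hw hθ hU p
  have h1 := hU 0
  simp only [if_pos, U_zero, mul_one] at h1
  have h2 := h1.eventually (gt_mem_nhds (lt_add_one a0))
  have h3 := (Metric.tendsto_nhds.1 hg) (ε / 4) (by positivity)
  obtain ⟨M, hM⟩ := bdd_of_cont hc
  have hpc : Continuous fun t => p.eval (cos t) := (Polynomial.continuous _).comp continuous_cos
  obtain ⟨M', hM'⟩ := bdd_of_cont hpc
  have h4 : |Lam h - Lam (fun t => p.eval (cos t))| ≤ η := by
    have h5 : Lam h - Lam (fun t => p.eval (cos t)) = Lam fun t => h t + (-1) * p.eval (cos t) := by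
      rw [Lam_add hc (by fun_prop), Lam_mul]
      ring
    rw [h5, abs_le]
    constructor
    · have h6 : -η = Lam fun _ => (-η) * 1 := by rw [Lam_mul, Lam_one, mul_one]
      rw [h6]
      refine Lam_mono (Continuous.intervalIntegrable (by fun_prop) _ _)
        (Continuous.intervalIntegrable (by fun_prop) _ _) fun t ht => ?_
      have := abs_le.1 (hp' t ht)
      linarith [this.2]
    · have h6 : η = Lam fun _ => η * 1 := by rw [Lam_mul, Lam_one, mul_one]
      conv_rhs => rw [h6]
      refine Lam_mono (Continuous.intervalIntegrable (by fun_prop) _ _)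
        (Continuous.intervalIntegrable (by fun_prop) _ _) fun t ht => ?_
      have := abs_le.1 (hp' t ht)
      linarith [this.1]
  filter_upwards [hw, h2, h3] with i hi h5 h6
  have hs := summable_mul hi.1 hi.2 hθ hM
  have hs' := summable_mul hi.1 hi.2 hθ hM'
  have h7 : |∑' v, c i v * h (θ v) - ∑' v, c i v * p.eval (cos (θ v))| ≤ η * (a0 + 1) := by
    rw [← hs.tsum_sub hs']
    have h8 : ∀ v, |c i v * h (θ v) - c i v * p.eval (cos (θ v))| ≤ c i v * η := by
      intro v
      rw [← mul_sub, abs_mul, abs_of_nonneg (hi.1 v)]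
      refine mul_le_mul_of_nonneg_left ?_ (hi.1 v)
      rw [abs_sub_comm]
      exact hp' _ (hθ v)
    have h9 : |∑' v, (c i v * h (θ v) - c i v * p.eval (cos (θ v)))| ≤ ∑' v, c i v * η := by
      have := norm_tsum_le_tsum_norm (f := fun v => c i v * h (θ v) - c i v * p.eval (cos (θ v)))
        (Summable.of_nonneg_of_le (fun v => norm_nonneg _) h8 (hi.2.mul_right η))
      refine (this.trans ?_)
      exact Summable.tsum_le_tsum h8 (Summable.of_nonneg_of_le (fun v => norm_nonneg _) h8
        (hi.2.mul_right η)) (hi.2.mul_right η)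
    refine h9.trans ?_
    rw [tsum_mul_right, mul_comm]
    exact mul_le_mul_of_nonneg_left h5.le hη0.le
  rw [Real.dist_eq] at h6 ⊢
  have h8 : η * (a0 + 1) = ε / 4 := by
    rw [hη]
    field_simp
  have h9 : |a0 * Lam (fun t => p.eval (cos t)) - a0 * Lam h| ≤ ε / 4 := by
    rw [← mul_sub, abs_mul, abs_of_nonneg ha, abs_sub_comm]
    have : a0 * η ≤ η * (a0 + 1) := by nlinarith
    calc a0 * |Lam h - Lam fun t => p.eval (cos t)| ≤ a0 * η := mul_le_mul_of_nonneg_left h4 ha
      _ ≤ _ := by linarith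
  calc |∑' v, c i v * h (θ v) - a0 * Lam h|
      = |(∑' v, c i v * h (θ v) - ∑' v, c i v * p.eval (cos (θ v))) +
          (∑' v, c i v * p.eval (cos (θ v)) - a0 * Lam fun t => p.eval (cos t)) +
          (a0 * Lam (fun t => p.eval (cos t)) - a0 * Lam h)| := by ring_nf
    _ ≤ η * (a0 + 1) + ε / 4 + ε / 4 := by
        refine (abs_add_three _ _ _).trans ?_
        gcongr
    _ < ε := by rw [h8]; linarith

/-- the indicator of an interval -/
noncomputable def ind (a b : ℝ) (t : ℝ) : ℝ := by
  classical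
  exact if t ∈ Icc a b then 1 else 0

theorem ind_nonneg (a b t : ℝ) : 0 ≤ ind a b t := by
  unfold ind
  split_ifs <;> norm_num

theorem ind_le_one (a b t : ℝ) : ind a b t ≤ 1 := by
  unfold ind
  split_ifs <;> norm_num

theorem int_exp {a b δ : ℝ} (hδ : 0 < δ) (hab : a ≤ b) : ∫ t in a..b, exp (-(t - a) / δ) ≤ δ := by
  have h1 : ∀ t ∈ uIcc a b, HasDerivAt (fun t => -δ * exp (-(t - a) / δ)) (exp (-(t - a) / δ)) t := by
    intro t _
    have h2 : HasDerivAt (fun t => -(t - a) / δ) (-1 / δ) t := by
      have := ((hasDerivAt_id t).sub_const a).neg.div_const δ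
      simpa using this
    have h3 := (h2.exp).const_mul (-δ)
    have e : -δ * (exp (-(t - a) / δ) * (-1 / δ)) = exp (-(t - a) / δ) := by
      have hne : δ ≠ 0 := hδ.ne'
      generalize exp (-(t - a) / δ) = E
      field_simp
    rw [e] at h3
    exact h3
  rw [intervalIntegral.integral_eq_sub_of_hasDerivAt h1
    (Continuous.intervalIntegrable (by fun_prop) _ _)]
  have h4 := exp_pos (-(b - a) / δ)
  simp only [sub_self, neg_zero, zero_div, exp_zero]
  nlinarith

theorem int_exp' {a b δ : ℝ} (hδ : 0 < δ) (hab : a ≤ b) : ∫ t in a..b, exp (-(b - t) / δ) ≤ δ := by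
  have h1 : ∀ t ∈ uIcc a b, HasDerivAt (fun t => δ * exp (-(b - t) / δ)) (exp (-(b - t) / δ)) t := by
    intro t _
    have h2 : HasDerivAt (fun t => -(b - t) / δ) (1 / δ) t := by
      have := ((hasDerivAt_id t).const_sub b).neg.div_const δ
      simpa using this
    have h3 := (h2.exp).const_mul δ
    have e : δ * (exp (-(b - t) / δ) * (1 / δ)) = exp (-(b - t) / δ) := by
      have hne : δ ≠ 0 := hδ.ne'
      generalize exp (-(b - t) / δ) = E
      field_simp
    rw [e] at h3
    exact h3
  rw [intervalIntegral.integral_eq_sub_of_hasDerivAt h1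
    (Continuous.intervalIntegrable (by fun_prop) _ _)]
  have h4 := exp_pos (-(b - a) / δ)
  simp only [sub_self, neg_zero, zero_div, exp_zero]
  nlinarith

theorem split3 {a b : ℝ} {f : ℝ → ℝ} (hf : Continuous f) :
    ∫ t in (0)..π, f t = (∫ t in (0)..a, f t) + (∫ t in a..b, f t) + ∫ t in b..π, f t := by
  have hi : ∀ x y : ℝ, IntervalIntegrable f volume x y := fun x y => hf.intervalIntegrable x y
  rw [intervalIntegral.integral_add_adjacent_intervals (hi _ _) (hi _ _),
    intervalIntegral.integral_add_adjacent_intervals (hi _ _) (hi _ _)]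

/-- a continuous majorant -/
theorem upper {a b ε : ℝ} (ha : 0 ≤ a) (hab : a ≤ b) (hb : b ≤ π) (hε : 0 < ε) :
    ∃ h : ℝ → ℝ, Continuous h ∧ (∀ t, ind a b t ≤ h t) ∧ Lam h ≤ mu a b + ε := by
  have hp := Real.pi_pos
  set δ : ℝ := ε * π / 4 with hδ
  have hδ0 : 0 < δ := by positivity
  set h : ℝ → ℝ := fun t => exp (-(max 0 (t - b)) / δ) * exp (-(max 0 (a - t)) / δ) with hh
  have hc : Continuous h := by fun_prop
  have hle1 : ∀ t, exp (-(max 0 (t - b)) / δ) ≤ 1 := fun t => by
    rw [exp_le_one_iff, div_nonpos_iff]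
    right
    exact ⟨by linarith [le_max_left 0 (t - b)], hδ0.le⟩
  have hle2 : ∀ t, exp (-(max 0 (a - t)) / δ) ≤ 1 := fun t => by
    rw [exp_le_one_iff, div_nonpos_iff]
    right
    exact ⟨by linarith [le_max_left 0 (a - t)], hδ0.le⟩
  have hh0 : ∀ t, 0 ≤ h t := fun t => by positivity
  have hh1 : ∀ t, h t ≤ 1 := fun t => mul_le_one₀ (hle1 t) (exp_pos _).le (hle2 t)
  refine ⟨h, hc, fun t => ?_, ?_⟩
  · unfold ind
    split_ifs with ht
    · have e1 : max 0 (t - b) = 0 := max_eq_left (by linarith [ht.2])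
      have e2 : max 0 (a - t) = 0 := max_eq_left (by linarith [ht.1])
      simp only [hh]
      rw [e1, e2]
      simp
    · exact hh0 t
  · unfold Lam mu
    rw [split3 (a := a) (b := b) (by fun_prop : Continuous fun t => h t * sin t ^ 2)]
    have hs : ∀ t : ℝ, sin t ^ 2 ≤ 1 := fun t => sin_sq_le_one t
    have i1 : ∫ t in (0)..a, h t * sin t ^ 2 ≤ δ := by
      refine le_trans ?_ (int_exp' (a := 0) (b := a) hδ0 ha)
      refine intervalIntegral.integral_mono_on ha (Continuous.intervalIntegrable (by fun_prop) _ _)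
        (Continuous.intervalIntegrable (by fun_prop) _ _) fun t ht => ?_
      have e2 : max 0 (a - t) = a - t := max_eq_right (by linarith [ht.2])
      have : h t ≤ exp (-(a - t) / δ) := by
        simp only [hh]
        rw [e2]
        have := hle1 t
        have := exp_pos (-(a - t) / δ)
        nlinarith
      have := hh0 t
      have := hs t
      nlinarith
    have i2 : ∫ t in a..b, h t * sin t ^ 2 ≤ ∫ t in a..b, sin t ^ 2 := by
      refine intervalIntegral.integral_mono_on hab (Continuous.intervalIntegrable (by fun_prop) _ _)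
        (Continuous.intervalIntegrable (by fun_prop) _ _) fun t ht => ?_
      have := hh1 t
      have := sq_nonneg (sin t)
      nlinarith
    have i3 : ∫ t in b..π, h t * sin t ^ 2 ≤ δ := by
      refine le_trans ?_ (int_exp (a := b) (b := π) hδ0 hb)
      refine intervalIntegral.integral_mono_on hb (Continuous.intervalIntegrable (by fun_prop) _ _)
        (Continuous.intervalIntegrable (by fun_prop) _ _) fun t ht => ?_
      have e2 : max 0 (t - b) = t - b := max_eq_right (by linarith [ht.1])
      have : h t ≤ exp (-(t - b) / δ) := by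
        simp only [hh]
        rw [e2]
        have := hle2 t
        have := exp_pos (-(t - b) / δ)
        nlinarith
      have := hh0 t
      have := hs t
      nlinarith
    have : 2 / π * ((∫ t in (0)..a, h t * sin t ^ 2) + (∫ t in a..b, h t * sin t ^ 2) +
        ∫ t in b..π, h t * sin t ^ 2) ≤ 2 / π * ((∫ t in a..b, sin t ^ 2) + 2 * δ) := by
      refine mul_le_mul_of_nonneg_left ?_ (by positivity)
      linarith
    refine this.trans (le_of_eq ?_)
    rw [hδ]
    field_simp
    ring

/-- a continuous minorant -/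
theorem lower {a b ε : ℝ} (ha : 0 ≤ a) (hab : a ≤ b) (hb : b ≤ π) (hε : 0 < ε) :
    ∃ h : ℝ → ℝ, Continuous h ∧ (∀ t, h t ≤ ind a b t) ∧ mu a b - ε ≤ Lam h := by
  have hp := Real.pi_pos
  set δ : ℝ := ε * π / 4 with hδ
  have hδ0 : 0 < δ := by positivity
  set g : ℝ → ℝ := fun t => 1 - exp (-(t - a) / δ) - exp (-(b - t) / δ) with hg
  set h : ℝ → ℝ := fun t => max 0 (g t) with hh
  have hgc : Continuous g := by fun_prop
  have hc : Continuous h := by fun_prop
  refine ⟨h, hc, fun t => ?_, ?_⟩
  · unfold ind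
    split_ifs with ht
    · refine max_le (by norm_num) ?_
      have := exp_pos (-(t - a) / δ)
      have := exp_pos (-(b - t) / δ)
      simp only [hg]
      linarith
    · refine max_le le_rfl ?_
      simp only [hg]
      by_cases h1 : t < a
      · have : 1 ≤ exp (-(t - a) / δ) := by
          rw [← exp_zero, exp_le_exp]
          exact div_nonneg (by linarith) hδ0.le
        have := exp_pos (-(b - t) / δ)
        linarith
      · have h2 : b < t := by
          by_contra h3
          exact ht ⟨not_lt.1 h1, not_lt.1 h3⟩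
        have : 1 ≤ exp (-(b - t) / δ) := by
          rw [← exp_zero, exp_le_exp]
          exact div_nonneg (by linarith) hδ0.le
        have := exp_pos (-(t - a) / δ)
        linarith
  · unfold Lam mu
    rw [split3 (a := a) (b := b) (by fun_prop : Continuous fun t => h t * sin t ^ 2)]
    have hh0 : ∀ t, 0 ≤ h t := fun t => le_max_left _ _
    have i1 : 0 ≤ ∫ t in (0)..a, h t * sin t ^ 2 :=
      intervalIntegral.integral_nonneg ha fun t _ => mul_nonneg (hh0 t) (sq_nonneg _)
    have i3 : 0 ≤ ∫ t in b..π, h t * sin t ^ 2 :=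
      intervalIntegral.integral_nonneg hb fun t _ => mul_nonneg (hh0 t) (sq_nonneg _)
    have i2 : ∫ t in a..b, (sin t ^ 2 - exp (-(t - a) / δ) - exp (-(b - t) / δ)) ≤
        ∫ t in a..b, h t * sin t ^ 2 := by
      refine intervalIntegral.integral_mono_on hab (Continuous.intervalIntegrable (by fun_prop) _ _)
        (Continuous.intervalIntegrable (by fun_prop) _ _) fun t ht => ?_
      have h1 : g t ≤ h t := le_max_right _ _
      have h2 := sin_sq_le_one t
      have h3 := sq_nonneg (sin t)
      have h4 := exp_pos (-(t - a) / δ)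
      have h5 := exp_pos (-(b - t) / δ)
      have h6 : g t * sin t ^ 2 ≤ h t * sin t ^ 2 := mul_le_mul_of_nonneg_right h1 h3
      have h7 : g t * sin t ^ 2 = sin t ^ 2 - (exp (-(t - a) / δ) + exp (-(b - t) / δ)) * sin t ^ 2 := by
        simp only [hg]
        ring
      nlinarith
    have i4 : ∫ t in a..b, (sin t ^ 2 - exp (-(t - a) / δ) - exp (-(b - t) / δ)) =
        (∫ t in a..b, sin t ^ 2) - (∫ t in a..b, exp (-(t - a) / δ)) -
          ∫ t in a..b, exp (-(b - t) / δ) := by
      rw [intervalIntegral.integral_sub, intervalIntegral.integral_sub]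
      all_goals exact Continuous.intervalIntegrable (by fun_prop) _ _
    have i5 := int_exp hδ0 hab
    have i6 := int_exp' hδ0 hab
    have : 2 / π * ((∫ t in a..b, sin t ^ 2) - 2 * δ) ≤
        2 / π * ((∫ t in (0)..a, h t * sin t ^ 2) + (∫ t in a..b, h t * sin t ^ 2) +
        ∫ t in b..π, h t * sin t ^ 2) := by
      refine mul_le_mul_of_nonneg_left ?_ (by positivity)
      linarith
    refine le_trans (le_of_eq ?_) this
    rw [hδ]
    field_simp
    ring

/-- **Equidistribution from the Chebyshev averages.** -/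
theorem equidist (hw : Wts l c) (hθ : ∀ v, θ v ∈ Icc 0 π) (ha : 0 ≤ a0)
    (hU : ∀ k : ℕ, Tendsto (fun i => ∑' v, c i v * U k (θ v)) l (𝓝 (if k = 0 then a0 else 0)))
    {a b : ℝ} (h0 : 0 ≤ a) (hab : a ≤ b) (hb : b ≤ π) :
    Tendsto (fun i => ∑' v, c i v * ind a b (θ v)) l (𝓝 (a0 * mu a b)) := by
  rw [tendsto_order]
  have hsum : ∀ i, (∀ v, 0 ≤ c i v) ∧ Summable (c i) → Summable fun v => c i v * ind a b (θ v) := by
    intro i hi
    refine summable_mul hi.1 hi.2 hθ (M := 1) fun t _ => ?_
    rw [abs_of_nonneg (ind_nonneg a b t)]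
    exact ind_le_one a b t
  constructor
  · intro x hx
    set ε : ℝ := (a0 * mu a b - x) / (2 * (a0 + 1)) with hε
    have hε0 : 0 < ε := div_pos (by linarith) (by positivity)
    obtain ⟨h, hc, h1, h2⟩ := lower h0 hab hb hε0
    have h3 := good_cont hw hθ ha hU hc
    have h4 : x < a0 * Lam h := by
      have h5 : a0 * (mu a b - ε) ≤ a0 * Lam h := mul_le_mul_of_nonneg_left h2 ha
      have h6 : (a0 + 1) * ε = (a0 * mu a b - x) / 2 := by
        rw [hε]
        field_simp
      nlinarith
    filter_upwards [hw, h3.eventually (lt_mem_nhds h4)] with i hi h5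
    refine h5.trans_le ?_
    obtain ⟨M, hM⟩ := bdd_of_cont hc
    exact Summable.tsum_le_tsum (fun v => mul_le_mul_of_nonneg_left (h1 _) (hi.1 v))
      (summable_mul hi.1 hi.2 hθ hM) (hsum i hi)
  · intro x hx
    set ε : ℝ := (x - a0 * mu a b) / (2 * (a0 + 1)) with hε
    have hε0 : 0 < ε := div_pos (by linarith) (by positivity)
    obtain ⟨h, hc, h1, h2⟩ := upper h0 hab hb hε0
    have h3 := good_cont hw hθ ha hU hc
    have h4 : a0 * Lam h < x := by
      have h5 : a0 * Lam h ≤ a0 * (mu a b + ε) := mul_le_mul_of_nonneg_left h2 ha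
      have h6 : (a0 + 1) * ε = (x - a0 * mu a b) / 2 := by
        rw [hε]
        field_simp
      nlinarith
    filter_upwards [hw, h3.eventually (gt_mem_nhds h4)] with i hi h5
    refine lt_of_le_of_lt ?_ h5
    obtain ⟨M, hM⟩ := bdd_of_cont hc
    exact Summable.tsum_le_tsum (fun v => mul_le_mul_of_nonneg_left (h1 _) (hi.1 v))
      (hsum i hi) (summable_mul hi.1 hi.2 hθ hM)

end Main

end Run7.h911.ST
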