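import Pool.Agent.Run7.h911.ST2

/-!
# A representation of `GL(2)` on the Sato-Tate intervals of another one
-/

set_option autoImplicit false

namespace Run7.h911.ST

open NumberField IsDedekindDomain Filter Topology
open Pool.Agent.TH861.GL3 (PL qq)
open Run7.h911.RC (wt wt_nonneg wt_zero summable_wt logL logL_real log_bdd Z Z_tendsto Unitary
  Tempered tr rt tr_eq rt_sq' rt_large norm_sq norm_four quot_cases inv_quot)

variable {K : Type*} [Field K] [NumberField K] {S : Finset (HeightOneSpectrum (𝓞 K))}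

/-- What is used of a unitary cuspidal automorphic representation `π` of `GL_2` over `K`, unramified outside `S`
(up to twists), with Satake parameters `α_v` such that `A⁴ π` is cuspidal, and of a cuspidal representation `π'`
with trivial central character, unramified outside `S`, tempered with Satake parameters `e^{± i θ_v}` there, all
whose symmetric powers are cuspidal (for example, `π'` belongs to a Hilbert modular form of regular weight without
complex multiplication) and which is such that `A⁴ π` and `Sym⁴ π'` as well as `Ad π` and `Ad π'` are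
inequivalent. `U k (j θ_v)` is the trace of the `j`-th power of the Satake parameter of `Sym^k π'`. -/
structure Pair (α : PL S → Fin 2 → ℂ) (θ : PL S → ℝ) : Prop where
  /-- the local components of `π` are unitary -/
  unitary : ∀ v, Unitary (α v)
  /-- the angles -/
  angle : ∀ v, θ v ∈ Set.Icc 0 Real.pi
  /-- the bound of Kim, Sarnak, Blomer and Brumley -/
  bound : ∀ v i, ‖α v i‖ ≤ (qq v.1 : ℝ) ^ (7 / 64 : ℝ)
  /-- absolute convergence of `L(s, Π × Π~)` for `Re s > 1` (Jacquet, Shalika), `Π = Ad π`, `A⁴ π` -/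
  summable : ∀ (X : Fin 2) (σ : ℝ), 1 < σ → Summable fun x : PL S × ℕ =>
    ‖tr X (α x.1) (x.2 + 1)‖ ^ 2 / ((x.2 : ℝ) + 1) * (((qq x.1.1 : ℕ) : ℝ) ^ (-σ)) ^ (x.2 + 1)
  /-- `L(s, Sym^k π')`, `k ≥ 1`, is holomorphic and nonzero at `s = 1` -/
  sym : ∀ k : ℕ, 1 ≤ k → ∃ F : ℂ → ℂ, AnalyticAt ℂ F 1 ∧ F 1 ≠ 0 ∧
    ∀ s : ℂ, 1 < s.re → F s = Complex.exp (logL (fun v j => (U k (j * θ v) : ℂ)) s)
  /-- `L(s, Π × Sym^k π')`, `k ≥ 0`, is holomorphic and nonzero at `s = 1` -/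
  mixed : ∀ (X : Fin 2) (k : ℕ), ∃ F : ℂ → ℂ, AnalyticAt ℂ F 1 ∧ F 1 ≠ 0 ∧
    ∀ s : ℂ, 1 < s.re → F s = Complex.exp (logL (fun v j => tr X (α v) j * (U k (j * θ v) : ℂ)) s)

variable {α : PL S → Fin 2 → ℂ} {θ : PL S → ℝ}

theorem quot_norm (h : Pair α θ) (v : PL S) :
    ‖α v 0 / α v 1‖ ≤ (qq v.1 : ℝ) ^ (7 / 32 : ℝ) ∧ ‖α v 1 / α v 0‖ ≤ (qq v.1 : ℝ) ^ (7 / 32 : ℝ) := by
  obtain ⟨h0, τ, hτ⟩ := h.unitary v
  have hq := Pool.Agent.TH861.GL3.qq_pos v.1
  have hi : ∀ i, ‖α v i‖⁻¹ ≤ (qq v.1 : ℝ) ^ (7 / 64 : ℝ) := by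
    intro i
    have h1 := h.bound v (τ i)
    rw [hτ i, norm_inv, RCLike.norm_conj] at h1
    exact h1
  have e : (qq v.1 : ℝ) ^ (7 / 32 : ℝ) = (qq v.1 : ℝ) ^ (7 / 64 : ℝ) * (qq v.1 : ℝ) ^ (7 / 64 : ℝ) := by
    rw [← Real.rpow_add hq]
    norm_num
  rw [e, norm_div, norm_div, div_eq_mul_inv, div_eq_mul_inv]
  constructor
  · exact mul_le_mul (h.bound v 0) (hi 1) (by positivity) (by positivity)
  · exact mul_le_mul (h.bound v 1) (hi 0) (by positivity) (by positivity)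

theorem tr_bound (h : Pair α θ) (X : Fin 2) (v : PL S) (j : ℕ) :
    |rt X (α v) j| ≤ 5 * ((qq v.1 : ℝ) ^ (7 / 16 : ℝ)) ^ j := by
  have hq := Pool.Agent.TH861.GL3.qq_pos v.1
  have hq1 := Pool.Agent.TH861.GL3.one_lt_qq v.1
  obtain ⟨h1, h2⟩ := quot_norm h v
  set y : ℝ := (qq v.1 : ℝ) ^ (7 / 32 : ℝ) with hy
  have hy1 : 1 ≤ y := Real.one_le_rpow hq1.le (by norm_num)
  have e : (qq v.1 : ℝ) ^ (7 / 16 : ℝ) = y ^ 2 := by
    rw [hy, ← Real.rpow_natCast, ← Real.rpow_mul hq.le]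
    norm_num
  rw [e, ← pow_mul]
  have hle : y ^ j ≤ y ^ (2 * j) := pow_le_pow_right₀ hy1 (by omega)
  have hle1 : 1 ≤ y ^ (2 * j) := one_le_pow₀ hy1
  have a1 : ∀ n : ℕ, n ≤ 2 * j → ‖(α v 0 / α v 1) ^ n‖ ≤ y ^ (2 * j) := fun n hn => by
    rw [norm_pow]
    exact (pow_le_pow_left₀ (norm_nonneg _) h1 n).trans (pow_le_pow_right₀ hy1 hn)
  have a2 : ∀ n : ℕ, n ≤ 2 * j → ‖(α v 1 / α v 0) ^ n‖ ≤ y ^ (2 * j) := fun n hn => by
    rw [norm_pow]
    exact (pow_le_pow_left₀ (norm_nonneg _) h2 n).trans (pow_le_pow_right₀ hy1 hn)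
  have h3 : |rt X (α v) j| ≤ ‖tr X (α v) j‖ := Complex.abs_re_le_norm _
  refine h3.trans ?_
  unfold tr
  split_ifs
  · refine (norm_add₃_le).trans ?_
    rw [norm_one]
    have := a1 j (by omega)
    have := a2 j (by omega)
    linarith
  · refine (norm_add_le _ _).trans ?_
    refine (add_le_add_left (norm_add_le _ _) _).trans ?_
    refine (add_le_add_left (add_le_add_left (norm_add₃_le) _) _).trans ?_
    rw [norm_one]
    have := a1 j (by omega)
    have := a2 j (by omega)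
    have := a1 (2 * j) le_rfl
    have := a2 (2 * j) le_rfl
    linarith

theorem one_le_pw (v : PL S) (j : ℕ) : 1 ≤ ((qq v.1 : ℝ) ^ (7 / 16 : ℝ)) ^ j :=
  one_le_pow₀ (Real.one_le_rpow (Pool.Agent.TH861.GL3.one_lt_qq v.1).le (by norm_num))

/-- the averages of the functions of the angle -/
theorem sym_bdd (h : Pair α θ) {k : ℕ} (hk : 1 ≤ k) : ∃ C : ℝ, ∀ᶠ σ : ℝ in 𝓝[>] 1,
    (Summable fun v : PL S => U k (θ v) * (qq v.1 : ℝ) ^ (-σ)) ∧
      |∑' v : PL S, U k (θ v) * (qq v.1 : ℝ) ^ (-σ)| ≤ C := by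
  have := sum_bdd (S := S) (f := fun v j => (U k (j * θ v) : ℂ)) (g := fun v j => U k (j * θ v))
    (fun v k => rfl) (h.sym k hk) (B := k + 1) (by positivity) (fun v j => by
      have h1 := abs_U_le k (((j + 2 : ℕ) : ℝ) * θ v)
      have h2 := one_le_pw v (j + 2)
      have h3 : (0 : ℝ) ≤ k := by positivity
      nlinarith) (fun σ hσ => by
      refine Summable.of_norm_bounded ((summable_wt (S := S) hσ).mul_left ((k : ℝ) + 1)) fun x => ?_
      rw [norm_mul, Real.norm_of_nonneg (wt_nonneg σ x)]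
      exact mul_le_mul_of_nonneg_right (abs_U_le k _) (wt_nonneg σ x))
  simpa using this

/-- the averages of the mixed functions -/
theorem mixed_bdd (h : Pair α θ) (X : Fin 2) (k : ℕ) : ∃ C : ℝ, ∀ᶠ σ : ℝ in 𝓝[>] 1,
    (Summable fun v : PL S => rt X (α v) 1 * U k (θ v) * (qq v.1 : ℝ) ^ (-σ)) ∧
      |∑' v : PL S, rt X (α v) 1 * U k (θ v) * (qq v.1 : ℝ) ^ (-σ)| ≤ C := by
  have := sum_bdd (S := S) (f := fun v j => tr X (α v) j * (U k (j * θ v) : ℂ))
    (g := fun v j => rt X (α v) j * U k (j * θ v))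
    (fun v k => by rw [tr_eq (h.unitary v)]; push_cast; rfl) (h.mixed X k)
    (B := 5 * (k + 1)) (by positivity) (fun v j => by
      have h1 := abs_U_le k (((j + 2 : ℕ) : ℝ) * θ v)
      have h2 := tr_bound h X v (j + 2)
      rw [abs_mul]
      calc |rt X (α v) (j + 2)| * |U k (((j + 2 : ℕ) : ℝ) * θ v)|
          ≤ (5 * ((qq v.1 : ℝ) ^ (7 / 16 : ℝ)) ^ (j + 2)) * (k + 1) :=
            mul_le_mul h2 h1 (abs_nonneg _) (by positivity)
        _ = _ := by ring) (fun σ hσ => by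
      refine Summable.of_norm_bounded ((((summable_wt (S := S) hσ).add (h.summable X σ hσ)).mul_left
        ((k : ℝ) + 1))) fun x => ?_
      rw [norm_mul, norm_mul, Real.norm_of_nonneg (wt_nonneg σ x), Real.norm_eq_abs, Real.norm_eq_abs]
      have h1 := abs_U_le k (((x.2 + 1 : ℕ) : ℝ) * θ x.1)
      have h2 : |rt X (α x.1) (x.2 + 1)| ≤ 1 + ‖tr X (α x.1) (x.2 + 1)‖ ^ 2 := by
        have h3 : |rt X (α x.1) (x.2 + 1)| ≤ ‖tr X (α x.1) (x.2 + 1)‖ := Complex.abs_re_le_norm _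
        nlinarith [sq_nonneg (‖tr X (α x.1) (x.2 + 1)‖ - 1), norm_nonneg (tr X (α x.1) (x.2 + 1))]
      have h4 : ‖tr X (α x.1) (x.2 + 1)‖ ^ 2 / ((x.2 : ℝ) + 1) *
          (((qq x.1.1 : ℕ) : ℝ) ^ (-σ)) ^ (x.2 + 1) = ‖tr X (α x.1) (x.2 + 1)‖ ^ 2 * wt σ x := by
        unfold wt
        ring
      rw [h4]
      have h5 := wt_nonneg σ x
      calc |rt X (α x.1) (x.2 + 1)| * |U k (((x.2 + 1 : ℕ) : ℝ) * θ x.1)| * wt σ x
          ≤ ((1 + ‖tr X (α x.1) (x.2 + 1)‖ ^ 2) * (k + 1)) * wt σ x := by gcongr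
        _ = _ := by ring)
  simpa using this

/-- the function `u₀ + u₁ (|λ|² - 1) + u₂ A₄` -/
noncomputable def G (u0 u1 u2 : ℝ) (a : Fin 2 → ℂ) : ℝ := u0 + u1 * rt 0 a 1 + u2 * rt 1 a 1

/-- **Averages on the Sato-Tate intervals.** -/
theorem interval_mean (h : Pair α θ) {u0 u1 u2 : ℝ} (hu : 0 ≤ u0) (hG : ∀ v, 0 ≤ G u0 u1 u2 (α v))
    {a b : ℝ} (h0 : 0 ≤ a) (hab : a ≤ b) (hb : b ≤ Real.pi) :
    Tendsto (fun σ => (∑' v : PL S, G u0 u1 u2 (α v) * ind a b (θ v) * (qq v.1 : ℝ) ^ (-σ)) / Z S σ)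
      (𝓝[>] 1) (𝓝 (u0 * mu a b)) := by
  have hZ := Z_tendsto S
  obtain ⟨C0, hC0⟩ := mixed_bdd h 0 0
  obtain ⟨C1, hC1⟩ := mixed_bdd h 1 0
  have hsG : ∀ᶠ σ : ℝ in 𝓝[>] 1, Summable fun v : PL S => G u0 u1 u2 (α v) * (qq v.1 : ℝ) ^ (-σ) := by
    filter_upwards [hC0, hC1, self_mem_nhdsWithin] with σ h1 h2 h3
    have h4 := Pool.Agent.TH861.GL3.summable_qq (S := S) (σ := σ) h3
    refine ((h4.mul_left u0).add ((h1.1.mul_left u1).add (h2.1.mul_left u2))).congr fun v => ?_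
    unfold G
    rw [U_zero]
    ring
  have hw : Wts (𝓝[>] (1 : ℝ)) (fun σ (v : PL S) => G u0 u1 u2 (α v) * (qq v.1 : ℝ) ^ (-σ) / Z S σ) := by
    filter_upwards [hsG, hZ.eventually_gt_atTop 0] with σ h1 h2
    refine ⟨fun v => ?_, h1.div_const _⟩
    have := hG v
    have := Pool.Agent.TH861.GL3.qq_pos v.1
    positivity
  have hU : ∀ k : ℕ, Tendsto (fun σ => ∑' v : PL S, G u0 u1 u2 (α v) * (qq v.1 : ℝ) ^ (-σ) / Z S σ *
      U k (θ v)) (𝓝[>] (1 : ℝ)) (𝓝 (if k = 0 then u0 else 0)) := by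
    intro k
    obtain ⟨D0, hD0⟩ := mixed_bdd h 0 k
    obtain ⟨D1, hD1⟩ := mixed_bdd h 1 k
    have m0 := (mean_zero (S := S) (hD0.mono fun σ hσ => hσ.2)).const_mul u1
    have m1 := (mean_zero (S := S) (hD1.mono fun σ hσ => hσ.2)).const_mul u2
    rw [mul_zero] at m0 m1
    have key : ∀ (t : ℝ) (w : ℝ → ℝ), (∀ᶠ σ : ℝ in 𝓝[>] 1,
        (Summable fun v : PL S => U k (θ v) * (qq v.1 : ℝ) ^ (-σ)) ∧
        (∑' v : PL S, U k (θ v) * (qq v.1 : ℝ) ^ (-σ)) / Z S σ = w σ) →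
        Tendsto w (𝓝[>] (1 : ℝ)) (𝓝 t) →
        Tendsto (fun σ => ∑' v : PL S, G u0 u1 u2 (α v) * (qq v.1 : ℝ) ^ (-σ) / Z S σ *
          U k (θ v)) (𝓝[>] (1 : ℝ)) (𝓝 (u0 * t)) := by
      intro t w hw' ht
      have m2 := (ht.const_mul u0).add (m0.add m1)
      rw [add_zero, add_zero] at m2
      refine m2.congr' ?_
      filter_upwards [hD0, hD1, hw'] with σ h1 h2 h3
      have e : ∀ v : PL S, G u0 u1 u2 (α v) * (qq v.1 : ℝ) ^ (-σ) / Z S σ * U k (θ v) =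
          (u0 * (U k (θ v) * (qq v.1 : ℝ) ^ (-σ)) + (u1 * (rt 0 (α v) 1 * U k (θ v) *
            (qq v.1 : ℝ) ^ (-σ)) + u2 * (rt 1 (α v) 1 * U k (θ v) * (qq v.1 : ℝ) ^ (-σ)))) / Z S σ := by
        intro v
        unfold G
        ring
      simp only [e]
      rw [tsum_div_const, (h3.1.mul_left u0).tsum_add ((h1.1.mul_left u1).add (h2.1.mul_left u2)),
        (h1.1.mul_left u1).tsum_add (h2.1.mul_left u2), tsum_mul_left, tsum_mul_left, tsum_mul_left,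
        ← h3.2]
      ring
    rcases Nat.eq_zero_or_pos k with rfl | hk
    · rw [if_pos rfl]
      have := key 1 (fun _ => 1) ?_ tendsto_const_nhds
      · rwa [mul_one] at this
      · filter_upwards [hZ.eventually_gt_atTop 0, self_mem_nhdsWithin] with σ h1 h2
        have h4 := Pool.Agent.TH861.GL3.summable_qq (S := S) (σ := σ) h2
        refine ⟨h4.congr fun v => by rw [U_zero, one_mul], ?_⟩
        have : (∑' v : PL S, U 0 (θ v) * (qq v.1 : ℝ) ^ (-σ)) = Z S σ := by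
          unfold Z
          exact tsum_congr fun v => by rw [U_zero, one_mul]
        rw [this, div_self h1.ne']
    · rw [if_neg (by omega)]
      obtain ⟨D, hD⟩ := sym_bdd h hk
      have := key 0 _ (hD.mono fun σ hσ => ⟨hσ.1, rfl⟩) (mean_zero (S := S) (hD.mono fun σ hσ => hσ.2))
      rwa [mul_zero] at this
  have := equidist hw h.angle hu hU h0 hab hb
  refine this.congr fun σ => ?_
  rw [← tsum_div_const]
  exact tsum_congr fun v => by ring

end Run7.h911.ST
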