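import Mathlib
import Pool.Agent.NH29.GN.Mue
import Pool.Agent.NH29.GN.Hn
import Pool.Agent.NH29.GN.Mov
import Pool.Agent.NH29.GN.MovS
import Pool.Agent.NH29.GN.MovD
import Pool.Agent.NH29.GN.Gal

/-!
# Sums of units along ultrafilters: the clusters of a vanishing sum
-/

set_option autoImplicit false

namespace Run7.h911.SU

open Filter Height
open Pool.Agent.NH29.GN (SmN MueStm)

theorem mue : MueStm :=
  Pool.Agent.NH29.GN.mue (Pool.Agent.NH29.GN.mov (Pool.Agent.NH29.GN.movs Pool.Agent.NH29.GN.gal)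
    Pool.Agent.NH29.GN.movd) Pool.Agent.NH29.GN.hn

variable {κ : Type} [Field κ] [NumberField κ] {𝒰 : Ultrafilter ℕ} {H : ℕ → ℝ}

/-- the scale tends to infinity -/
def Inf (𝒰 : Ultrafilter ℕ) (H : ℕ → ℝ) : Prop := ∀ B : ℝ, ∀ᶠ s in (𝒰 : Filter ℕ), B ≤ H s

theorem sm_const (hH : Inf 𝒰 H) (a : κ) : SmN 𝒰 H fun _ => a := fun N => by
  filter_upwards [hH (N * logHeight₁ a)] with s hs using hs

theorem sm_congr {f g : ℕ → κ} (hf : SmN 𝒰 H f) (hfg : ∀ᶠ s in (𝒰 : Filter ℕ), f s = g s) :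
    SmN 𝒰 H g := fun N => by
  filter_upwards [hf N, hfg] with s h1 h2
  rwa [← h2]

theorem sm_neg {f : ℕ → κ} (hf : SmN 𝒰 H f) : SmN 𝒰 H fun s => -f s := fun N => by
  filter_upwards [hf N] with s h1
  rwa [logHeight₁_neg]

theorem sm_inv {f : ℕ → κ} (hf : SmN 𝒰 H f) : SmN 𝒰 H fun s => (f s)⁻¹ := fun N => by
  filter_upwards [hf N] with s h1
  rwa [logHeight₁_inv]

theorem sm_mul {f g : ℕ → κ} (hf : SmN 𝒰 H f) (hg : SmN 𝒰 H g) : SmN 𝒰 H fun s => f s * g s :=
    fun N => by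
  filter_upwards [hf (2 * N), hg (2 * N)] with s h1 h2
  have h3 := logHeight₁_mul_le (f s) (g s)
  push_cast at h1 h2
  have hN : (0 : ℝ) ≤ N := by positivity
  nlinarith

theorem sm_div {f g : ℕ → κ} (hf : SmN 𝒰 H f) (hg : SmN 𝒰 H g) : SmN 𝒰 H fun s => f s / g s := by
  simp only [div_eq_mul_inv]
  exact sm_mul hf (sm_inv hg)

theorem sm_add (hH : Inf 𝒰 H) {f g : ℕ → κ} (hf : SmN 𝒰 H f) (hg : SmN 𝒰 H g) :
    SmN 𝒰 H fun s => f s + g s := fun N => by
  filter_upwards [hf (3 * N), hg (3 * N), hH (3 * (N * (totalWeight κ * Real.log 2)))]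
    with s h1 h2 h4
  have h3 := logHeight₁_add_le (f s) (g s)
  push_cast at h1 h2
  have hN : (0 : ℝ) ≤ N := by positivity
  nlinarith

theorem sm_sum (hH : Inf 𝒰 H) {ι : Type*} (t : Finset ι) (f : ι → ℕ → κ)
    (hf : ∀ i ∈ t, SmN 𝒰 H (f i)) : SmN 𝒰 H fun s => ∑ i ∈ t, f i s := by
  classical
  induction t using Finset.induction_on with
  | empty => simpa using sm_const hH (0 : κ)
  | insert a t ha ih =>
    simp only [Finset.sum_insert ha]
    exact sm_add hH (hf a (Finset.mem_insert_self _ _))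
      (ih fun i hi => hf i (Finset.mem_insert_of_mem hi))

/-- the ratio is small -/
def R (𝒰 : Ultrafilter ℕ) (H : ℕ → ℝ) {J : Type*} (u : J → ℕ → κˣ) (i j : J) : Prop :=
  SmN 𝒰 H fun s => (u i s : κ) / u j s

theorem R_refl (hH : Inf 𝒰 H) {J : Type*} (u : J → ℕ → κˣ) (i : J) : R 𝒰 H u i i := by
  refine sm_congr (sm_const hH (1 : κ)) (Eventually.of_forall fun s => ?_)
  rw [div_self (u i s).ne_zero]

theorem R_symm {J : Type*} {u : J → ℕ → κˣ} {i j : J} (h : R 𝒰 H u i j) : R 𝒰 H u j i := by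
  refine sm_congr (sm_inv h) (Eventually.of_forall fun s => ?_)
  rw [inv_div]

theorem R_trans {J : Type*} {u : J → ℕ → κˣ} {i j k : J} (h : R 𝒰 H u i j) (h' : R 𝒰 H u j k) :
    R 𝒰 H u i k := by
  refine sm_congr (sm_mul h h') (Eventually.of_forall fun s => ?_)
  rw [div_mul_div_cancel₀ (u j s).ne_zero]

open scoped Classical in
/-- **The clusters of a vanishing sum with small coefficients.** -/
theorem cluster {Γ : Subgroup κˣ} (hΓ : Γ.FG) (hH : Inf 𝒰 H) {J : Type} [Fintype J]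
    (u : J → ℕ → κˣ) (c : J → ℕ → κ) (hu : ∀ j s, u j s ∈ Γ) (hs : ∀ j, SmN 𝒰 H (c j))
    (hrel : ∀ᶠ s in (𝒰 : Filter ℕ), ∑ j, c j s * (u j s : κ) = 0) (j₀ : J) :
    ∀ᶠ s in (𝒰 : Filter ℕ), ∑ j with R 𝒰 H u j j₀, c j s * (u j s : κ) = 0 := by
  set st : Setoid J := ⟨R 𝒰 H u, R_refl hH u, R_symm, R_trans⟩ with hst
  set rep : Quotient st → J := Quotient.out with hrep
  set C : Quotient st → ℕ → κ := fun q s => ∑ j with (⟦j⟧ : Quotient st) = q, c j s * (u j s : κ) /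
    u (rep q) s with hC
  have hCs : ∀ q, SmN 𝒰 H (C q) := by
    intro q
    refine sm_sum hH _ _ fun j hj => ?_
    have h1 : (⟦j⟧ : Quotient st) = q := (Finset.mem_filter.1 hj).2
    have h2 : R 𝒰 H u j (rep q) := by
      have h3 : (⟦j⟧ : Quotient st) = ⟦rep q⟧ := by rw [h1, hrep, Quotient.out_eq]
      exact Quotient.exact h3
    refine sm_congr (sm_mul (hs j) h2) (Eventually.of_forall fun s => ?_)
    rw [mul_div_assoc]
  have hCu : ∀ q s, C q s * (u (rep q) s : κ) =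
      ∑ j with (⟦j⟧ : Quotient st) = q, c j s * (u j s : κ) := by
    intro q s
    rw [hC]
    dsimp only
    rw [Finset.sum_mul]
    refine Finset.sum_congr rfl fun j _ => ?_
    rw [div_mul_cancel₀ _ (u (rep q) s).ne_zero]
  have hall : ∀ᶠ s in (𝒰 : Filter ℕ), ∑ q, C q s * (u (rep q) s : κ) = 0 := by
    filter_upwards [hrel] with s h1
    rw [← h1]
    simp only [hCu]
    exact Finset.sum_fiberwise _ _ _
  -- all the coefficients vanish
  have hzero : ∀ q, ∀ᶠ s in (𝒰 : Filter ℕ), C q s = 0 := by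
    by_contra hcon
    push Not at hcon
    obtain ⟨q₀, hq₀⟩ := hcon
    have hq₀' : ∀ᶠ s in (𝒰 : Filter ℕ), C q₀ s ≠ 0 :=
      Ultrafilter.frequently_iff_eventually.1 (by simpa using hq₀)
    set Q' := {q : Quotient st // ∀ᶠ s in (𝒰 : Filter ℕ), C q s ≠ 0} with hQ'
    have : Nonempty Q' := ⟨⟨q₀, hq₀'⟩⟩
    have hrel' : ∀ᶠ s in (𝒰 : Filter ℕ), ∑ q : Q', C q.1 s * (u (rep q.1) s : κ) = 0 := by
      have h1 : ∀ᶠ s in (𝒰 : Filter ℕ), ∀ q : Quotient st,
          ¬ (∀ᶠ s in (𝒰 : Filter ℕ), C q s ≠ 0) → C q s = 0 := by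
        rw [eventually_all]
        intro q
        by_cases hq : ∀ᶠ s in (𝒰 : Filter ℕ), C q s ≠ 0
        · exact Eventually.of_forall fun s h => absurd hq h
        · have h2 := Ultrafilter.eventually_not.2 hq
          filter_upwards [h2] with s h3 _
          simpa using h3
      filter_upwards [hall, h1] with s h2 h3
      refine Eq.trans (Eq.symm ?_) h2
      have h4 : ∑ q, C q s * (u (rep q) s : κ) =
          ∑ q with (∀ᶠ s in (𝒰 : Filter ℕ), C q s ≠ 0), C q s * (u (rep q) s : κ) := by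
        symm
        refine Finset.sum_subset (Finset.subset_univ _) fun q _ hq => ?_
        rw [h3 q (by simpa using hq), zero_mul]
      rw [h4]
      exact Finset.sum_subtype _ (by simp) (fun q => C q s * (u (rep q) s : κ))
    obtain ⟨i, j, hij, hsm⟩ := mue κ Γ hΓ 𝒰 H hH Q' (fun q => u (rep q.1)) (fun q => C q.1)
      (fun q s => hu _ s) (fun q => q.2) (fun q => hCs q.1) hrel'
    apply hij
    apply Subtype.ext
    have h5 : R 𝒰 H u (rep i.1) (rep j.1) := hsm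
    have h6 : (⟦rep i.1⟧ : Quotient st) = ⟦rep j.1⟧ := Quotient.sound h5
    rwa [hrep, Quotient.out_eq, Quotient.out_eq] at h6
  filter_upwards [hzero ⟦j₀⟧] with s h1
  have h2 := hCu ⟦j₀⟧ s
  rw [h1, zero_mul] at h2
  rw [h2]
  refine Finset.sum_congr ?_ fun _ _ => rfl
  ext j
  simp only [Finset.mem_filter, Finset.mem_univ, true_and]
  exact ⟨fun h => Quotient.sound h, fun h => Quotient.exact h⟩

/-- the ratio is constant -/
def P (𝒰 : Ultrafilter ℕ) {J : Type*} (u : J → ℕ → κˣ) (i j : J) : Prop :=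
  ∃ c : κ, ∀ᶠ s in (𝒰 : Filter ℕ), (u i s : κ) / u j s = c

theorem height_tendsto {f : ℕ → κ} (hf : ¬ ∃ c : κ, ∀ᶠ s in (𝒰 : Filter ℕ), f s = c) (B : ℝ) :
    ∀ᶠ s in (𝒰 : Filter ℕ), B ≤ logHeight₁ (f s) := by
  by_contra hcon
  have h1 : ∀ᶠ s in (𝒰 : Filter ℕ), logHeight₁ (f s) ≤ B := by
    have h2 := Ultrafilter.eventually_not.2 hcon
    filter_upwards [h2] with s h3
    exact (not_le.1 h3).le
  have hfin : {x : κ | logHeight₁ x ≤ B}.Finite := NumberField.finite_setOfPred_logHeight₁_le κ B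
  apply hf
  have h2 : (⋃ c ∈ {x : κ | logHeight₁ x ≤ B}, {s | f s = c}) ∈ 𝒰 := by
    refine mem_of_superset h1 fun s hs => ?_
    simp only [Set.mem_iUnion]
    exact ⟨f s, hs, rfl⟩
  obtain ⟨c, -, hc⟩ := (Ultrafilter.finite_biUnion_mem_iff hfin).1 h2
  exact ⟨c, hc⟩

open scoped Classical in
/-- **The clusters of a vanishing sum with constant coefficients.** -/
theorem ue_cluster {Γ : Subgroup κˣ} (hΓ : Γ.FG) (h𝒰 : (𝒰 : Filter ℕ) ≤ atTop) {J : Type} [Fintype J]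
    (u : J → ℕ → κˣ) (a : J → κ) (hu : ∀ j s, u j s ∈ Γ)
    (hrel : ∀ᶠ s in (𝒰 : Filter ℕ), ∑ j, a j * (u j s : κ) = 0) (j₀ : J) :
    ∀ᶠ s in (𝒰 : Filter ℕ), ∑ j with P 𝒰 u j j₀, a j * (u j s : κ) = 0 := by
  set f : Option (J × J) → ℕ → ℝ := fun q s => q.elim (s : ℝ) fun p =>
    if P 𝒰 u p.1 p.2 then (s : ℝ) else logHeight₁ ((u p.1 s : κ) / u p.2 s) with hf
  have hs : ∀ B : ℝ, ∀ᶠ s : ℕ in (𝒰 : Filter ℕ), B ≤ (s : ℝ) := fun B =>
    h𝒰 (tendsto_natCast_atTop_atTop.eventually_ge_atTop B)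
  have hfB : ∀ q, ∀ B : ℝ, ∀ᶠ s in (𝒰 : Filter ℕ), B ≤ f q s := by
    intro q B
    cases q with
    | none => exact hs B
    | some p =>
      simp only [hf, Option.elim_some]
      split_ifs with hp
      · exact hs B
      · exact height_tendsto hp B
  set H : ℕ → ℝ := fun s => Finset.univ.inf' ⟨none, Finset.mem_univ _⟩ fun q => f q s with hH
  have hinf : Inf 𝒰 H := by
    intro B
    have h1 : ∀ᶠ s in (𝒰 : Filter ℕ), ∀ q, B ≤ f q s := eventually_all.2 fun q => hfB q B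
    filter_upwards [h1] with s h2
    exact Finset.le_inf' _ _ fun q _ => h2 q
  have hRP : ∀ i j, R 𝒰 H u i j ↔ P 𝒰 u i j := by
    intro i j
    constructor
    · intro h1
      by_contra h2
      have h3 := h1 2
      have h4 : ∀ s, H s ≤ logHeight₁ ((u i s : κ) / u j s) := by
        intro s
        have h5 : H s ≤ f (some (i, j)) s := Finset.inf'_le _ (Finset.mem_univ _)
        simpa only [hf, Option.elim_some, if_neg h2] using h5
      obtain ⟨s, h5, h6⟩ := (h3.and (height_tendsto h2 1)).exists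
      have h7 := h4 s
      push_cast at h5
      linarith
    · rintro ⟨c, hc⟩
      refine sm_congr (sm_const hinf c) ?_
      filter_upwards [hc] with s h1
      exact h1.symm
  have h1 := cluster hΓ hinf u (fun j _ => a j) hu (fun j => sm_const hinf (a j)) hrel j₀
  filter_upwards [h1] with s h2
  rw [← h2]
  refine Finset.sum_congr ?_ fun _ _ => rfl
  ext j
  simp only [Finset.mem_filter, Finset.mem_univ, true_and]
  exact (hRP j j₀).symm

end Run7.h911.SU
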