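import Pool.Agent.Run7.h911.SU1

/-!
# Sums of units along ultrafilters: two proportional sums
-/

set_option autoImplicit false

namespace Run7.h911.SU

open Filter Height
open Pool.Agent.NH29.GN (SmN)

variable {κ : Type} [Field κ] [NumberField κ] {𝒰 : Ultrafilter ℕ} {H : ℕ → ℝ}

open scoped Classical in
theorem sum_zero_of_classes {ι M : Type*} [AddCommMonoid M] [Fintype ι] (r : ι → ι → Prop)
    (hr : Equivalence r) (F : Finset ι) (hF : ∀ i ∈ F, ∀ j, r j i → j ∈ F) (f : ι → M)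
    (h : ∀ i ∈ F, ∑ j with r j i, f j = 0) : ∑ i ∈ F, f i = 0 := by
  set st : Setoid ι := ⟨r, hr⟩ with hst
  have h1 : ∑ i ∈ F, f i = ∑ q : Quotient st, ∑ i ∈ F with (⟦i⟧ : Quotient st) = q, f i :=
    (Finset.sum_fiberwise F (fun i => (⟦i⟧ : Quotient st)) f).symm
  rw [h1]
  refine Finset.sum_eq_zero fun q _ => ?_
  by_cases hq : ∃ i ∈ F, (⟦i⟧ : Quotient st) = q
  · obtain ⟨i, hi, hiq⟩ := hq
    rw [← h i hi]
    refine Finset.sum_congr ?_ fun _ _ => rfl
    ext j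
    simp only [Finset.mem_filter, Finset.mem_univ, true_and]
    constructor
    · rintro ⟨-, h3⟩
      exact Quotient.exact (h3.trans hiq.symm)
    · intro h3
      exact ⟨hF i hi j h3, (Quotient.sound h3).trans hiq⟩
  · push Not at hq
    apply Finset.sum_eq_zero
    intro i hi
    obtain ⟨h2, h3⟩ := Finset.mem_filter.1 hi
    exact absurd h3 (hq i h2)

/-- `x` is a sum of `h` terms `a g` with `a ∈ A` and `g ∈ Γ`, or zero. -/
def Sums (A : Finset κ) (Γ : Subgroup κˣ) (h : ℕ) (x : ℤ) : Prop :=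
  ∃ γ : Fin h → κ, (∀ i, γ i = 0 ∨ ∃ a ∈ A, ∃ g ∈ Γ, γ i = a * g) ∧ (x : κ) = ∑ i, γ i

omit [NumberField κ] in
theorem normal_form (A : Finset κ) (Γ : Subgroup κˣ) {h : ℕ} (γ : ℕ → Fin h → κ)
    (hγ : ∀ s i, γ s i = 0 ∨ ∃ a ∈ A, ∃ g ∈ Γ, γ s i = a * g) :
    ∃ (e : Fin h → κ) (w : Fin h → ℕ → κˣ), (∀ i s, w i s ∈ Γ) ∧
      ∀ᶠ s in (𝒰 : Filter ℕ), ∀ i, γ s i = e i * w i s := by
  classical
  have h1 : ∀ s i, ∃ g : κˣ, g ∈ Γ ∧ ∃ a : κ, a ∈ insert 0 A ∧ γ s i = a * g := by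
    intro s i
    rcases hγ s i with h2 | ⟨a, ha, g, hg, h3⟩
    · exact ⟨1, Γ.one_mem, 0, Finset.mem_insert_self _ _, by rw [h2, zero_mul]⟩
    · exact ⟨g, hg, a, Finset.mem_insert_of_mem ha, h3⟩
  choose w hw a ha hwa using h1
  have h2 : ∀ i, ∃ e ∈ (insert 0 A : Finset κ), ∀ᶠ s in (𝒰 : Filter ℕ), a s i = e := by
    intro i
    have h3 := (Ultrafilter.eventually_exists_mem_iff (f := 𝒰)
      (P := fun (e : κ) s => a s i = e) (Finset.finite_toSet (insert 0 A))).1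
      (Eventually.of_forall fun s => ⟨a s i, by exact_mod_cast ha s i, rfl⟩)
    obtain ⟨e, he, h4⟩ := h3
    exact ⟨e, by exact_mod_cast he, h4⟩
  choose e he hae using h2
  refine ⟨e, fun i s => w s i, fun i s => hw s i, ?_⟩
  rw [eventually_all]
  intro i
  filter_upwards [hae i] with s h3
  rw [hwa s i, h3]

omit [NumberField κ] in
theorem P_equiv {J : Type*} (u : J → ℕ → κˣ) : Equivalence (P 𝒰 u) := by
  refine ⟨fun i => ⟨1, Eventually.of_forall fun s => div_self (u i s).ne_zero⟩, ?_, ?_⟩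
  · rintro i j ⟨c, hc⟩
    refine ⟨c⁻¹, ?_⟩
    filter_upwards [hc] with s h
    rw [← h, inv_div]
  · rintro i j k ⟨c, hc⟩ ⟨d, hd⟩
    refine ⟨c * d, ?_⟩
    filter_upwards [hc, hd] with s h1 h2
    rw [← h1, ← h2, div_mul_div_cancel₀ (u j s).ne_zero]

theorem R_equiv (hH : Inf 𝒰 H) {J : Type*} (u : J → ℕ → κˣ) : Equivalence (R 𝒰 H u) :=
  ⟨R_refl hH u, R_symm, R_trans⟩

/-- **Two sums which are proportional up to a small error.** -/
theorem key {A : Finset κ} {Γ Γ' : Subgroup κˣ} (hΓ' : Γ'.FG) (hle : Γ ≤ Γ') (h𝒰 : (𝒰 : Filter ℕ) ≤ atTop)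
    (hH : Inf 𝒰 H) {h h' : ℕ} (y y' : ℕ → ℤ) (α β : ℕ → κˣ) (hα : ∀ s, α s ∈ Γ')
    (hβ : ∀ s, β s ∈ Γ') (hy : ∀ s, Sums A Γ h (y s)) (hy' : ∀ s, Sums A Γ h' (y' s))
    (hc : SmN 𝒰 H fun s => (α s : κ) * y' s - β s * y s)
    (hbig : ¬ SmN 𝒰 H fun s => (β s : κ) * y s) :
    ∃ c : κ, ∀ᶠ s in (𝒰 : Filter ℕ), ∃ g ∈ Γ, (α s : κ) = c * β s * g := by
  classical
  choose γ hγ hγy using hy
  choose γ' hγ' hγy' using hy'
  obtain ⟨e, w, hw, he⟩ := normal_form (𝒰 := 𝒰) A Γ γ hγ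
  obtain ⟨e', w', hw', he'⟩ := normal_form (𝒰 := 𝒰) A Γ γ' hγ'
  have hY : ∀ᶠ s in (𝒰 : Filter ℕ), (y s : κ) = ∑ i, e i * w i s := by
    filter_upwards [he] with s h1
    rw [hγy]
    exact Finset.sum_congr rfl fun i _ => h1 i
  have hY' : ∀ᶠ s in (𝒰 : Filter ℕ), (y' s : κ) = ∑ i, e' i * w' i s := by
    filter_upwards [he'] with s h1
    rw [hγy']
    exact Finset.sum_congr rfl fun i _ => h1 i
  set u : (Fin h ⊕ Fin h') ⊕ Unit → ℕ → κˣ :=
    Sum.elim (Sum.elim (fun i s => β s * w i s) (fun j s => α s * w' j s)) (fun _ _ => 1) with hu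
  set c : (Fin h ⊕ Fin h') ⊕ Unit → ℕ → κ :=
    Sum.elim (Sum.elim (fun i _ => -e i) (fun j _ => e' j))
      (fun _ s => -((α s : κ) * y' s - β s * y s)) with hcdef
  have huΓ : ∀ j s, u j s ∈ Γ' := by
    rintro ((i | j) | _) s
    · exact Γ'.mul_mem (hβ s) (hle (hw i s))
    · exact Γ'.mul_mem (hα s) (hle (hw' j s))
    · exact Γ'.one_mem
  have hcs : ∀ j, SmN 𝒰 H (c j) := by
    rintro ((i | j) | _)
    · exact sm_const hH _
    · exact sm_const hH _
    · exact sm_neg hc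
  have hrel : ∀ᶠ s in (𝒰 : Filter ℕ), ∑ j, c j s * (u j s : κ) = 0 := by
    filter_upwards [hY, hY'] with s h1 h2
    rw [Fintype.sum_sum_type, Fintype.sum_sum_type]
    simp only [hu, hcdef, Sum.elim_inl, Sum.elim_inr, Finset.univ_unique, Finset.sum_singleton,
      Units.val_one, mul_one, Units.val_mul]
    rw [h1, h2, Finset.mul_sum, Finset.mul_sum]
    have h3 : ∑ i, -e i * ((β s : κ) * w i s) = -∑ i, (β s : κ) * (e i * w i s) := by
      rw [← Finset.sum_neg_distrib]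
      exact Finset.sum_congr rfl fun i _ => by ring
    have h4 : ∑ i, e' i * ((α s : κ) * w' i s) = ∑ i, (α s : κ) * (e' i * w' i s) :=
      Finset.sum_congr rfl fun i _ => by ring
    rw [h3, h4]
    ring
  -- an index which is not small
  obtain ⟨i₀, hi₀, hne⟩ : ∃ i₀ : Fin h, ¬ R 𝒰 H u (Sum.inl (Sum.inl i₀)) (Sum.inr ()) ∧
      ¬ ∀ᶠ s in (𝒰 : Filter ℕ), ∑ i with R 𝒰 H u (Sum.inl (Sum.inl i)) (Sum.inl (Sum.inl i₀)),
        e i * ((β s * w i s : κˣ) : κ) = 0 := by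
    by_contra hcon
    push Not at hcon
    apply hbig
    set T1 : Finset (Fin h) := Finset.univ.filter fun i => R 𝒰 H u (Sum.inl (Sum.inl i)) (Sum.inr ())
      with hT1
    set r : Fin h → Fin h → Prop := fun i j => R 𝒰 H u (Sum.inl (Sum.inl i)) (Sum.inl (Sum.inl j))
      with hr
    have hre : Equivalence r := by
      have := R_equiv hH u
      exact ⟨fun i => this.refl _, fun h => this.symm h, fun h h' => this.trans h h'⟩
    have h1 : ∀ᶠ s in (𝒰 : Filter ℕ), ∀ i ∈ T1ᶜ,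
        ∑ j with r j i, e j * ((β s * w j s : κˣ) : κ) = 0 := by
      have : ∀ᶠ s in (𝒰 : Filter ℕ), ∀ i : Fin h, i ∈ T1ᶜ →
          ∑ j with r j i, e j * ((β s * w j s : κˣ) : κ) = 0 := by
        rw [eventually_all]
        intro i
        by_cases hi : i ∈ T1ᶜ
        · have h2 : ¬ R 𝒰 H u (Sum.inl (Sum.inl i)) (Sum.inr ()) := by
            simpa [hT1] using hi
          filter_upwards [hcon i h2] with s h3 _
          exact h3
        · exact Eventually.of_forall fun s h => absurd h hi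
      exact this
    have h2 : SmN 𝒰 H fun s => ∑ i ∈ T1, e i * ((β s * w i s : κˣ) : κ) := by
      refine sm_sum hH _ _ fun i hi => ?_
      have h3 : R 𝒰 H u (Sum.inl (Sum.inl i)) (Sum.inr ()) := (Finset.mem_filter.1 hi).2
      refine sm_mul (sm_const hH (e i)) (sm_congr h3 (Eventually.of_forall fun s => ?_))
      simp only [hu, Sum.elim_inl, Sum.elim_inr, Units.val_one, div_one]
    refine sm_congr h2 ?_
    filter_upwards [h1, hY] with s h3 h4
    have h5 : ∑ i ∈ T1ᶜ, e i * ((β s * w i s : κˣ) : κ) = 0 := by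
      refine sum_zero_of_classes r hre T1ᶜ (fun i hi j hj => ?_) _ (fun i hi => h3 i hi)
      simp only [hT1, Finset.mem_compl, Finset.mem_filter, Finset.mem_univ, true_and] at hi ⊢
      intro h6
      exact hi (R_trans (R_symm hj) h6)
    rw [h4, Finset.mul_sum]
    have h6 := Finset.sum_add_sum_compl T1 fun i => e i * ((β s * w i s : κˣ) : κ)
    rw [h5, add_zero] at h6
    rw [h6]
    refine Finset.sum_congr rfl fun i _ => ?_
    push_cast
    ring
  -- the relation of the cluster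
  have hcl := cluster hΓ' hH u c huΓ hcs hrel (Sum.inl (Sum.inl i₀))
  set u2 : Fin h ⊕ Fin h' → ℕ → κˣ :=
    Sum.elim (fun i s => β s * w i s) (fun j s => α s * w' j s) with hu2
  set a2 : Fin h ⊕ Fin h' → κ :=
    Sum.elim (fun i => if R 𝒰 H u (Sum.inl (Sum.inl i)) (Sum.inl (Sum.inl i₀)) then -e i else 0)
      (fun j => if R 𝒰 H u (Sum.inl (Sum.inr j)) (Sum.inl (Sum.inl i₀)) then e' j else 0) with ha2
  have hu2Γ : ∀ j s, u2 j s ∈ Γ' := by
    rintro (i | j) s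
    · exact Γ'.mul_mem (hβ s) (hle (hw i s))
    · exact Γ'.mul_mem (hα s) (hle (hw' j s))
  have hrel2 : ∀ᶠ s in (𝒰 : Filter ℕ), ∑ j, a2 j * (u2 j s : κ) = 0 := by
    filter_upwards [hcl] with s h1
    rw [← h1, Finset.sum_filter, Fintype.sum_sum_type (fun j : (Fin h ⊕ Fin h') ⊕ Unit => _)]
    have h2 : ¬ R 𝒰 H u (Sum.inr ()) (Sum.inl (Sum.inl i₀)) := fun h => hi₀ (R_symm h)
    have h5 : ∑ x : Unit, (if R 𝒰 H u (Sum.inr x) (Sum.inl (Sum.inl i₀)) then
        c (Sum.inr x) s * (u (Sum.inr x) s : κ) else 0) = 0 :=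
      Finset.sum_eq_zero fun x _ => if_neg h2
    rw [h5, add_zero]
    refine Finset.sum_congr rfl fun j _ => ?_
    rcases j with i | j
    · simp only [ha2, hu2, hu, hcdef, Sum.elim_inl, Sum.elim_inr, ite_mul, zero_mul]
    · simp only [ha2, hu2, hu, hcdef, Sum.elim_inl, Sum.elim_inr, ite_mul, zero_mul]
  obtain ⟨i, j, hij⟩ : ∃ (i : Fin h) (j : Fin h'), P 𝒰 u2 (Sum.inl i) (Sum.inr j) := by
    by_contra hcon
    push Not at hcon
    apply hne
    set r : Fin h → Fin h → Prop := fun i j => P 𝒰 u2 (Sum.inl i) (Sum.inl j) with hr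
    have hPe := P_equiv (𝒰 := 𝒰) u2
    have hre : Equivalence r :=
      ⟨fun i => hPe.refl _, fun h => hPe.symm h, fun h h' => hPe.trans h h'⟩
    have h1 : ∀ᶠ s in (𝒰 : Filter ℕ), ∀ i : Fin h,
        ∑ j with r j i, a2 (Sum.inl j) * (u2 (Sum.inl j) s : κ) = 0 := by
      rw [eventually_all]
      intro i
      filter_upwards [ue_cluster hΓ' h𝒰 u2 a2 hu2Γ hrel2 (Sum.inl i)] with s h2
      rw [Finset.sum_filter, Fintype.sum_sum_type] at h2
      have h3 : ∑ j : Fin h', (if P 𝒰 u2 (Sum.inr j) (Sum.inl i) then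
          a2 (Sum.inr j) * (u2 (Sum.inr j) s : κ) else 0) = 0 := by
        refine Finset.sum_eq_zero fun j _ => ?_
        rw [if_neg fun h => hcon i j (hPe.symm h)]
      rw [h3, add_zero, ← Finset.sum_filter] at h2
      exact h2
    filter_upwards [h1] with s h2
    have h3 := sum_zero_of_classes r hre Finset.univ (fun _ _ _ _ => Finset.mem_univ _)
      (fun j => a2 (Sum.inl j) * (u2 (Sum.inl j) s : κ)) (fun i _ => h2 i)
    simp only [ha2, hu2, Sum.elim_inl, ite_mul, zero_mul] at h3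
    rw [← Finset.sum_filter] at h3
    have h4 : ∑ i with R 𝒰 H u (Sum.inl (Sum.inl i)) (Sum.inl (Sum.inl i₀)),
        e i * ((β s * w i s : κˣ) : κ) =
        -∑ i with R 𝒰 H u (Sum.inl (Sum.inl i)) (Sum.inl (Sum.inl i₀)),
          -e i * ((β s * w i s : κˣ) : κ) := by
      rw [← Finset.sum_neg_distrib]
      exact Finset.sum_congr rfl fun i _ => by ring
    rw [h4, h3, neg_zero]
  obtain ⟨c₀, hc₀⟩ := hij
  refine ⟨c₀⁻¹, ?_⟩
  filter_upwards [hc₀] with s h1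
  refine ⟨w i s / w' j s, Γ.div_mem (hw i s) (hw' j s), ?_⟩
  simp only [hu2, Sum.elim_inl, Sum.elim_inr, Units.val_mul] at h1
  have h2 : c₀ ≠ 0 := by
    rw [← h1]
    have := (β s).ne_zero
    have := (w i s).ne_zero
    have := (α s).ne_zero
    have := (w' j s).ne_zero
    positivity
  have h3 := (α s).ne_zero
  have h4 := (w' j s).ne_zero
  rw [div_eq_iff (mul_ne_zero h3 h4)] at h1
  rw [Units.val_div_eq_div_val]
  field_simp
  linear_combination (-1 : κ) * h1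

end Run7.h911.SU
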