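import Pool.Agent.Run7.h911.SU2
import Pool.Agent.Run7.h911.FD3

/-!
# Sums of units in the trajectories of the 3x+1 map: the windows
-/

set_option autoImplicit false

namespace Run7.h911.SU

open Filter Height
open Pool.Agent.NH29.GN (SmN)
open Run7.h911.FD (TD od affine)

variable {κ : Type} [Field κ] [NumberField κ]

/-- the height of an integer -/
theorem height_int (n : ℤ) :
    logHeight₁ (n : κ) = (Module.finrank ℚ κ : ℝ) * Real.posLog |(n : ℝ)| := by
  rw [NumberField.logHeight₁_eq]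
  have h1 : ∀ v : NumberField.FinitePlace κ, Real.posLog (v (n : κ)) = 0 := by
    intro v
    have hna : IsNonarchimedean (v ·) := NumberField.FinitePlace.add_le v
    have h2 : v (n : κ) ≤ 1 := IsNonarchimedean.apply_intCast_le_one hna
    exact (Real.posLog_eq_zero_iff _).2 (by
      rw [abs_of_nonneg (apply_nonneg v _)]
      exact h2)
  have h2 : (∑ᶠ v : NumberField.FinitePlace κ, Real.posLog (v (n : κ))) = 0 := by
    simp only [h1]
    exact finsum_zero
  rw [h2, add_zero]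
  have h3 : ∀ v : NumberField.InfinitePlace κ,
      (v.mult : ℝ) * Real.posLog (v (n : κ)) = (v.mult : ℝ) * Real.posLog |(n : ℝ)| := by
    intro v
    rw [NumberField.InfinitePlace.map_intCast, Int.norm_eq_abs]
  rw [Finset.sum_congr rfl fun v _ => h3 v, ← Finset.sum_mul]
  congr 1
  have := NumberField.InfinitePlace.sum_mult_eq (K := κ)
  exact_mod_cast this

theorem height_int_ge (n : ℤ) : Real.log |(n : ℝ)| ≤ logHeight₁ (n : κ) := by
  rw [height_int]
  have h1 : (1 : ℝ) ≤ (Module.finrank ℚ κ : ℝ) := by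
    exact_mod_cast (Module.finrank_pos : 0 < Module.finrank ℚ κ)
  have h2 : Real.log |(n : ℝ)| ≤ Real.posLog |(n : ℝ)| := le_max_right _ _
  have h3 : 0 ≤ Real.posLog |(n : ℝ)| := Real.posLog_nonneg
  nlinarith

/-- the units `2` and `3` -/
noncomputable def u2 (κ : Type) [Field κ] [NumberField κ] : κˣ := Units.mk0 2 two_ne_zero
noncomputable def u3 (κ : Type) [Field κ] [NumberField κ] : κˣ := Units.mk0 3 three_ne_zero

/-- **Windows.** If the terms `y` and `T ^ σ y` with a short distance, relative to the size of `y`, are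
sums of `h` terms in `A Γ`, then a statistic `f` of the numbers of steps and of odd steps between them, which
is determined by `2 ^ σ 3 ^ (-o)` modulo `Γ`, is bounded. -/
theorem window (A : Finset κ) {Γ : Subgroup κˣ} (hΓ : Γ.FG) (h : ℕ) (f : ℕ → ℕ → ℕ)
    (hf : ∀ σ o σ' o' : ℕ, u2 κ ^ σ * u3 κ ^ o' * (u2 κ ^ σ' * u3 κ ^ o)⁻¹ ∈ Γ → f σ o = f σ' o') :
    ∃ B t₀ : ℕ, ∀ (y : ℤ) (σ : ℕ), (t₀ : ℝ) ≤ Real.log |(y : ℝ)| → (t₀ : ℝ) * σ ≤ Real.log |(y : ℝ)| →
      Sums A Γ h y → Sums A Γ h ((TD 1)^[σ] y) → f σ (od 1 σ y) ≤ B := by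
  by_contra hcon
  push Not at hcon
  choose y σ hy1 hy2 hyS hyS' hB using fun n : ℕ => hcon n n
  set 𝒰 : Ultrafilter ℕ := Filter.hyperfilter ℕ with h𝒰def
  have h𝒰 : (𝒰 : Filter ℕ) ≤ atTop := by
    rw [← Nat.cofinite_eq_atTop]
    exact Filter.hyperfilter_le_cofinite
  have hlarge : ∀ N : ℕ, ∀ᶠ n in (𝒰 : Filter ℕ), N ≤ n := fun N => h𝒰 (eventually_ge_atTop N)
  set H : ℕ → ℝ := fun n => Real.log |(y n : ℝ)| with hH
  have hinf : Inf 𝒰 H := by
    intro B
    filter_upwards [hlarge ⌈B⌉₊] with n hn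
    have h1 := hy1 n
    have h2 : (⌈B⌉₊ : ℝ) ≤ n := by exact_mod_cast hn
    exact (Nat.le_ceil B).trans (h2.trans h1)
  set o : ℕ → ℕ := fun n => od 1 (σ n) (y n) with ho
  set Γ' : Subgroup κˣ := Γ ⊔ Subgroup.closure {u2 κ, u3 κ} with hΓ'
  have hΓ'fg : Γ'.FG := by
    exact Subgroup.FG.sup hΓ ((Subgroup.fg_iff _).2 ⟨{u2 κ, u3 κ}, rfl, Set.toFinite _⟩)
  have h2mem : u2 κ ∈ Γ' := Subgroup.mem_sup_right (Subgroup.subset_closure (by simp))
  have h3mem : u3 κ ∈ Γ' := Subgroup.mem_sup_right (Subgroup.subset_closure (by simp))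
  choose c hc0 hc1 hc2 using fun n : ℕ => affine (D := 1) (by norm_num) (y n) (σ n)
  have hrel : ∀ n, ((u2 κ ^ σ n : κˣ) : κ) * (((TD 1)^[σ n] (y n) : ℤ) : κ) -
      ((u3 κ ^ o n : κˣ) : κ) * (y n : κ) = ((c n : ℤ) : κ) := by
    intro n
    have h1 := hc2 n
    have h2 : ((2 ^ σ n * (TD 1)^[σ n] (y n) : ℤ) : κ) = ((3 ^ od 1 (σ n) (y n) * y n + c n : ℤ) : κ) := by
      rw [h1]
    push_cast at h2
    rw [Units.val_pow_eq_pow_val, Units.val_pow_eq_pow_val, u2, u3, Units.val_mk0, Units.val_mk0, h2]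
    ring
  have hlog6 : 0 < Real.log 6 := Real.log_pos (by norm_num)
  have hod : ∀ n, od 1 (σ n) (y n) ≤ σ n := fun n => by
    unfold od
    exact (Finset.card_filter_le _ _).trans (by rw [Finset.card_range])
  have hcs : SmN 𝒰 H fun n => ((u2 κ ^ σ n : κˣ) : κ) * (((TD 1)^[σ n] (y n) : ℤ) : κ) -
      ((u3 κ ^ o n : κˣ) : κ) * (y n : κ) := by
    refine SU.sm_congr (f := fun n => ((c n : ℤ) : κ)) ?_ (Eventually.of_forall fun n => (hrel n).symm)
    intro N
    filter_upwards [hlarge ⌈(N : ℝ) * (Module.finrank ℚ κ * Real.log 6)⌉₊] with n hn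
    rw [height_int]
    have h1 : Real.posLog |((c n : ℤ) : ℝ)| ≤ σ n * Real.log 6 := by
      have h2 : |((c n : ℤ) : ℝ)| ≤ 6 ^ σ n := by
        rw [abs_of_nonneg (by exact_mod_cast hc0 n)]
        have h3 : (c n : ℤ) ≤ 6 ^ σ n := by
          refine (hc1 n).trans ?_
          push_cast
          rw [one_mul]
          calc (3 : ℤ) ^ od 1 (σ n) (y n) * 2 ^ σ n ≤ 3 ^ σ n * 2 ^ σ n := by
                gcongr
                · norm_num
                · exact hod n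
            _ = 6 ^ σ n := by rw [← mul_pow]; norm_num
        exact_mod_cast h3
      calc Real.posLog |((c n : ℤ) : ℝ)| ≤ Real.posLog ((6 : ℝ) ^ σ n) :=
            Real.posLog_le_posLog (abs_nonneg _) h2
        _ = Real.log ((6 : ℝ) ^ σ n) := Real.posLog_eq_log (by
            rw [abs_of_nonneg (by positivity)]
            exact one_le_pow₀ (by norm_num))
        _ = σ n * Real.log 6 := Real.log_pow _ _
    have h2 : (N : ℝ) * (Module.finrank ℚ κ * Real.log 6) ≤ n :=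
      (Nat.le_ceil _).trans (by exact_mod_cast hn)
    have h3 := hy2 n
    have h4 : (0 : ℝ) ≤ σ n := by positivity
    calc (N : ℝ) * ((Module.finrank ℚ κ : ℝ) * Real.posLog |((c n : ℤ) : ℝ)|)
        ≤ (N : ℝ) * ((Module.finrank ℚ κ : ℝ) * (σ n * Real.log 6)) := by gcongr
      _ = ((N : ℝ) * (Module.finrank ℚ κ * Real.log 6)) * σ n := by ring
      _ ≤ n * σ n := mul_le_mul_of_nonneg_right h2 h4
      _ ≤ H n := h3
  have hbig : ¬ SmN 𝒰 H fun n => ((u3 κ ^ o n : κˣ) : κ) * (y n : κ) := by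
    intro hsm
    obtain ⟨n, h1, h2⟩ := ((hsm 2).and (hinf 1)).exists
    have e : ((u3 κ ^ o n : κˣ) : κ) * (y n : κ) = ((3 ^ o n * y n : ℤ) : κ) := by
      rw [Units.val_pow_eq_pow_val, u3, Units.val_mk0]
      push_cast
      ring
    dsimp only at h1
    rw [e] at h1
    have h3 := height_int_ge (κ := κ) (3 ^ o n * y n)
    have h4 : H n ≤ Real.log |((3 ^ o n * y n : ℤ) : ℝ)| := by
      have hy0 : (0 : ℝ) < |(y n : ℝ)| := by
        by_contra hneg
        have : |(y n : ℝ)| = 0 := le_antisymm (not_lt.1 hneg) (abs_nonneg _)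
        have h5 : H n = 0 := by
          simp only [hH]
          rw [this, Real.log_zero]
        linarith
      apply Real.log_le_log hy0
      push_cast
      rw [abs_mul]
      have : (1 : ℝ) ≤ |(3 : ℝ) ^ o n| := by
        rw [abs_of_nonneg (by positivity)]
        exact one_le_pow₀ (by norm_num)
      nlinarith
    push_cast at h1 h3 h4
    linarith
  obtain ⟨c₀, hc₀⟩ := key hΓ'fg le_sup_left h𝒰 hinf y (fun n => (TD 1)^[σ n] (y n))
    (fun n => u2 κ ^ σ n) (fun n => u3 κ ^ o n) (fun n => Γ'.pow_mem h2mem _)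
    (fun n => Γ'.pow_mem h3mem _) hyS hyS' hcs hbig
  obtain ⟨n₀, g₀, hg₀, hn₀⟩ := hc₀.exists
  obtain ⟨n, ⟨g, hg, hn⟩, hn2⟩ := (hc₀.and (hlarge (f (σ n₀) (o n₀)))).exists
  have hmem : u2 κ ^ σ n * u3 κ ^ o n₀ * (u2 κ ^ σ n₀ * u3 κ ^ o n)⁻¹ ∈ Γ := by
    have h1 : u2 κ ^ σ n * u3 κ ^ o n₀ * (u2 κ ^ σ n₀ * u3 κ ^ o n)⁻¹ = g / g₀ := by
      have h2 : u2 κ ^ σ n * u3 κ ^ o n₀ * g₀ = g * (u2 κ ^ σ n₀ * u3 κ ^ o n) := by
        apply Units.ext
        simp only [Units.val_mul]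
        rw [hn, hn₀]
        ring
      rw [div_eq_mul_inv, mul_inv_eq_iff_eq_mul, mul_assoc, mul_comm g₀⁻¹, ← mul_assoc, ← h2,
        mul_inv_cancel_right]
    rw [h1]
    exact Γ.div_mem hg hg₀
  have h1 := hf _ _ _ _ hmem
  have h2 := hB n
  have h3 : f (σ n) (o n) = f (σ n₀) (o n₀) := h1
  have h4 : n < f (σ n) (o n) := h2
  omega

end Run7.h911.SU
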