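import Pool.Agent.Run7.h911.SU3

/-!
# Sums of units: representations of small height
-/

set_option autoImplicit false

namespace Run7.h911.SU

open Filter Height
open Pool.Agent.NH29.GN (SmN)

variable {κ : Type} [Field κ] [NumberField κ]

/-- a representation of `x` as a sum of `h` elements of `A Γ ∪ {0}` -/
def IsRep (A : Finset κ) (Γ : Subgroup κˣ) {h : ℕ} (x : ℤ) (γ : Fin h → κ) : Prop :=
  (∀ i, γ i = 0 ∨ ∃ a ∈ A, ∃ g ∈ Γ, γ i = a * g) ∧ (x : κ) = ∑ i, γ i

open scoped Classical in
/-- the number of the nonzero terms -/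
noncomputable def nz {h : ℕ} (γ : Fin h → κ) : ℕ := (Finset.univ.filter fun i => γ i ≠ 0).card

omit [NumberField κ] in
theorem exists_min {A : Finset κ} {Γ : Subgroup κˣ} {h : ℕ} {x : ℤ} (hx : Sums A Γ h x) :
    ∃ γ : Fin h → κ, IsRep A Γ x γ ∧ ∀ γ' : Fin h → κ, IsRep A Γ x γ' → nz γ ≤ nz γ' := by
  classical
  obtain ⟨γ₀, hγ₀⟩ := hx
  have hex : ∃ n, ∃ γ : Fin h → κ, IsRep A Γ x γ ∧ nz γ = n := ⟨_, γ₀, hγ₀, rfl⟩
  obtain ⟨γ, h1, h2⟩ := Nat.find_spec hex
  refine ⟨γ, h1, fun γ' h3 => ?_⟩
  rw [h2]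
  exact Nat.find_min' hex ⟨γ', h3, rfl⟩

/-- **Every sum of units has a representation by units of small height.** -/
theorem rep_height (A : Finset κ) {Γ : Subgroup κˣ} (hΓ : Γ.FG) (h : ℕ) : ∃ C : ℕ, ∀ x : ℤ,
    Sums A Γ h x → ∃ γ : Fin h → κ, IsRep A Γ x γ ∧ ∀ i, logHeight₁ (γ i) ≤ C * (1 + Real.posLog |(x : ℝ)|) := by
  classical
  by_contra hcon
  push Not at hcon
  choose x hx hbad using fun n : ℕ => hcon n
  choose γ hγ hmin using fun n : ℕ => exists_min (hx n)
  set idx : ℕ → Fin h := fun n => (Finset.exists_max_image (Finset.univ : Finset (Fin h))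
    (fun i => logHeight₁ (γ n i)) ⟨(hbad n (γ n) (hγ n)).choose, Finset.mem_univ _⟩).choose with hidx
  have hmax : ∀ n i, logHeight₁ (γ n i) ≤ logHeight₁ (γ n (idx n)) := fun n i =>
    (Finset.exists_max_image (Finset.univ : Finset (Fin h)) (fun i => logHeight₁ (γ n i))
      ⟨(hbad n (γ n) (hγ n)).choose, Finset.mem_univ _⟩).choose_spec.2 i (Finset.mem_univ _)
  set 𝒰 : Ultrafilter ℕ := Filter.hyperfilter ℕ with h𝒰def
  have h𝒰 : (𝒰 : Filter ℕ) ≤ atTop := by
    rw [← Nat.cofinite_eq_atTop]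
    exact Filter.hyperfilter_le_cofinite
  have hlarge : ∀ N : ℕ, ∀ᶠ n in (𝒰 : Filter ℕ), N ≤ n := fun N => h𝒰 (eventually_ge_atTop N)
  set H : ℕ → ℝ := fun n => logHeight₁ (γ n (idx n)) with hH
  have hHn : ∀ n : ℕ, (n : ℝ) * (1 + Real.posLog |(x n : ℝ)|) < H n := fun n => by
    obtain ⟨i, hi⟩ := hbad n (γ n) (hγ n)
    exact hi.trans_le (hmax n i)
  have hpl : ∀ n, 0 ≤ Real.posLog |(x n : ℝ)| := fun n => Real.posLog_nonneg
  have hinf : Inf 𝒰 H := by
    intro B
    filter_upwards [hlarge ⌈B⌉₊] with n hn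
    have h2 : (⌈B⌉₊ : ℝ) ≤ n := by exact_mod_cast hn
    have h3 := hHn n
    have h4 := hpl n
    have h5 : (0 : ℝ) ≤ n := by positivity
    have h6 := Nat.le_ceil B
    nlinarith
  obtain ⟨e, w, hw, he⟩ := normal_form (𝒰 := 𝒰) A Γ γ fun n i => (hγ n).1 i
  set u : Fin h ⊕ Unit → ℕ → κˣ := Sum.elim (fun i n => w i n) (fun _ _ => 1) with hu
  set c : Fin h ⊕ Unit → ℕ → κ := Sum.elim (fun i _ => e i) (fun _ n => -(x n : κ)) with hc
  have huΓ : ∀ j n, u j n ∈ Γ := by
    rintro (i | _) n
    · exact hw i n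
    · exact Γ.one_mem
  have hcs : ∀ j, SmN 𝒰 H (c j) := by
    rintro (i | _)
    · exact sm_const hinf _
    · refine sm_neg fun N => ?_
      filter_upwards [hlarge (N * Module.finrank ℚ κ)] with n hn
      rw [height_int]
      have h1 : ((N * Module.finrank ℚ κ : ℕ) : ℝ) ≤ n := by exact_mod_cast hn
      have h2 := hHn n
      have h3 := hpl n
      have h4 : (0 : ℝ) ≤ n := by positivity
      push_cast at h1
      nlinarith
  have hrel : ∀ᶠ n in (𝒰 : Filter ℕ), ∑ j, c j n * (u j n : κ) = 0 := by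
    filter_upwards [he] with n h1
    rw [Fintype.sum_sum_type]
    simp only [hu, hc, Sum.elim_inl, Sum.elim_inr, Finset.univ_unique, Finset.sum_singleton,
      Units.val_one, mul_one]
    rw [(hγ n).2, Finset.sum_congr rfl fun i _ => h1 i]
    ring
  -- all the terms are small
  have hsm : ∀ i, SmN 𝒰 H fun n => e i * (w i n : κ) := by
    intro i
    by_cases h0 : e i = 0
    · refine sm_congr (sm_const hinf (0 : κ)) (Eventually.of_forall fun n => ?_)
      rw [h0, zero_mul]
    have h1 : e i ≠ 0 := h0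
    have hR : R 𝒰 H u (Sum.inl i) (Sum.inr ()) := by
      by_contra hnR
      have hcl := cluster hΓ hinf u c huΓ hcs hrel (Sum.inl i)
      obtain ⟨n, h2, h3⟩ := (hcl.and he).exists
      have hnR' : ¬ R 𝒰 H u (Sum.inr ()) (Sum.inl i) := fun h => hnR (R_symm h)
      rw [Finset.sum_filter, Fintype.sum_sum_type] at h2
      have h5 : ∑ y : Unit, (if R 𝒰 H u (Sum.inr y) (Sum.inl i) then
          c (Sum.inr y) n * (u (Sum.inr y) n : κ) else 0) = 0 :=
        Finset.sum_eq_zero fun y _ => if_neg hnR'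
      rw [h5, add_zero] at h2
      set γ' : Fin h → κ := fun j => if R 𝒰 H u (Sum.inl j) (Sum.inl i) then 0 else γ n j with hγ'
      have hrep : IsRep A Γ (x n) γ' := by
        refine ⟨fun j => ?_, ?_⟩
        · simp only [hγ']
          split_ifs
          · exact Or.inl rfl
          · exact (hγ n).1 j
        · rw [(hγ n).2]
          have h6 : ∑ j, γ n j = ∑ j, (γ' j + if R 𝒰 H u (Sum.inl j) (Sum.inl i) then
              c (Sum.inl j) n * (u (Sum.inl j) n : κ) else 0) := by
            refine Finset.sum_congr rfl fun j _ => ?_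
            simp only [hγ']
            split_ifs
            · rw [zero_add, h3 j]
              simp only [hc, hu, Sum.elim_inl]
            · rw [add_zero]
          rw [h6, Finset.sum_add_distrib, h2, add_zero]
      have hlt : nz γ' < nz (γ n) := by
        unfold nz
        apply Finset.card_lt_card
        rw [Finset.ssubset_iff_of_subset]
        · refine ⟨i, ?_, ?_⟩
          · rw [Finset.mem_filter]
            refine ⟨Finset.mem_univ _, ?_⟩
            rw [h3 i]
            exact mul_ne_zero h1 (w i n).ne_zero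
          · rw [Finset.mem_filter]
            rintro ⟨-, h7⟩
            apply h7
            simp only [hγ']
            rw [if_pos (R_refl hinf u _)]
        · intro j hj
          rw [Finset.mem_filter] at hj ⊢
          refine ⟨hj.1, fun h7 => hj.2 ?_⟩
          simp only [hγ']
          split_ifs
          · rfl
          · exact h7
      exact absurd (hmin n γ' hrep) (not_le.2 hlt)
    refine sm_mul (sm_const hinf (e i)) (sm_congr hR (Eventually.of_forall fun n => ?_))
    simp only [hu, Sum.elim_inl, Sum.elim_inr, Units.val_one, div_one]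
  have hall : ∀ᶠ n in (𝒰 : Filter ℕ), ∀ i, 2 * logHeight₁ (e i * (w i n : κ)) ≤ H n := by
    rw [eventually_all]
    intro i
    have := hsm i 2
    push_cast at this
    exact this
  obtain ⟨n, h1, h2, h3⟩ := (hall.and (he.and (hinf 1))).exists
  have h4 := h1 (idx n)
  rw [← h2 (idx n)] at h4
  have h5 : 2 * H n ≤ H n := h4
  linarith

end Run7.h911.SU
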