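import Pool.Agent.Run7.h911.SU4
import Pool.Agent.NH29.GN.Cnt

/-!
# The number of the elements of bounded height in a finitely generated group
-/

set_option autoImplicit false

namespace Run7.h911.SU

open Filter Height

variable {κ : Type} [Field κ] [NumberField κ]

theorem posLog_inf_le (a : κ) (v : NumberField.InfinitePlace κ) : Real.posLog (v a) ≤ logHeight₁ a := by
  rw [NumberField.logHeight₁_eq]
  have h1 : (v.mult : ℝ) * Real.posLog (v a) ≤
      ∑ v : NumberField.InfinitePlace κ, (v.mult : ℝ) * Real.posLog (v a) :=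
    Finset.single_le_sum (f := fun v : NumberField.InfinitePlace κ => (v.mult : ℝ) * Real.posLog (v a))
      (fun w _ => mul_nonneg (Nat.cast_nonneg _) Real.posLog_nonneg) (Finset.mem_univ v)
  have h2 : 0 ≤ ∑ᶠ v : NumberField.FinitePlace κ, Real.posLog (v a) :=
    finsum_nonneg fun v => Real.posLog_nonneg
  have h3 : (1 : ℝ) ≤ v.mult := by exact_mod_cast v.mult_pos
  have h4 : 0 ≤ Real.posLog (v a) := Real.posLog_nonneg
  nlinarith

theorem abs_log_inf_le (a : κ) (v : NumberField.InfinitePlace κ) :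
    |Real.log (v a)| ≤ 2 * logHeight₁ a := by
  rw [Pool.Agent.NH29.GN.CntAux.abs_log_eq, ← map_inv₀]
  have h1 := posLog_inf_le a v
  have h2 := posLog_inf_le a⁻¹ v
  rw [logHeight₁_inv] at h2
  linarith

theorem abs_log_fin_le (a : κ) (v : NumberField.FinitePlace κ) :
    |Real.log (v a)| ≤ 2 * logHeight₁ a := by
  have := Pool.Agent.NH29.GN.CntAux.sum_le_height a {v}
  simpa using this

/-- the logarithms of the absolute values -/
noncomputable def Lg (Λ : Finset (NumberField.FinitePlace κ)) (g : κˣ) :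
    NumberField.InfinitePlace κ ⊕ {v // v ∈ Λ} → ℝ :=
  Sum.elim (fun v => Real.log (v (g : κ))) (fun v => Real.log (v.1 (g : κ)))

theorem Lg_mul (Λ : Finset (NumberField.FinitePlace κ)) (g g' : κˣ) :
    Lg Λ (g * g') = Lg Λ g + Lg Λ g' := by
  funext v
  rcases v with v | v
  · simp only [Lg, Sum.elim_inl, Pi.add_apply, Units.val_mul, map_mul]
    exact Real.log_mul ((map_ne_zero v).2 g.ne_zero) ((map_ne_zero v).2 g'.ne_zero)
  · simp only [Lg, Sum.elim_inr, Pi.add_apply, Units.val_mul, map_mul]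
    exact Real.log_mul ((map_ne_zero v.1).2 g.ne_zero) ((map_ne_zero v.1).2 g'.ne_zero)

theorem Lg_one (Λ : Finset (NumberField.FinitePlace κ)) : Lg Λ (1 : κˣ) = 0 := by
  have := Lg_mul Λ 1 1
  rw [mul_one] at this
  simpa using this

theorem Lg_inv (Λ : Finset (NumberField.FinitePlace κ)) (g : κˣ) : Lg Λ g⁻¹ = -Lg Λ g := by
  have := Lg_mul Λ g g⁻¹
  rw [mul_inv_cancel, Lg_one] at this
  exact (neg_eq_of_add_eq_zero_right this.symm).symm

theorem norm_Lg_le (Λ : Finset (NumberField.FinitePlace κ)) (g : κˣ) :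
    ‖Lg Λ g‖ ≤ 2 * logHeight₁ (g : κ) := by
  rw [pi_norm_le_iff_of_nonneg (mul_nonneg zero_le_two (zero_le_logHeight₁ _))]
  rintro (v | v)
  · exact abs_log_inf_le _ v
  · exact abs_log_fin_le _ v.1

theorem posLog_le_abs_log (y : ℝ) : Real.posLog y ≤ |Real.log y| := by
  rw [Pool.Agent.NH29.GN.CntAux.abs_log_eq]
  have : 0 ≤ Real.posLog y⁻¹ := Real.posLog_nonneg
  linarith

theorem height_le_Lg (Λ : Finset (NumberField.FinitePlace κ)) (g : κˣ)
    (hg : ∀ v : NumberField.FinitePlace κ, v ∉ Λ → v (g : κ) = 1) :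
    logHeight₁ (g : κ) ≤ (Module.finrank ℚ κ + Λ.card : ℝ) * ‖Lg Λ g‖ := by
  rw [NumberField.logHeight₁_eq]
  have hfin : ∑ᶠ v : NumberField.FinitePlace κ, Real.posLog (v (g : κ)) =
      ∑ v ∈ Λ, Real.posLog (v (g : κ)) := by
    apply finsum_eq_sum_of_support_subset
    intro v hv
    by_contra hcon
    apply hv
    show Real.posLog (v (g : κ)) = 0
    rw [hg v (by simpa using hcon), Real.posLog_one]
  have h1 : ∑ v : NumberField.InfinitePlace κ, (v.mult : ℝ) * Real.posLog (v (g : κ)) ≤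
      ∑ v : NumberField.InfinitePlace κ, (v.mult : ℝ) * ‖Lg Λ g‖ := by
    refine Finset.sum_le_sum fun v _ => mul_le_mul_of_nonneg_left ?_ (Nat.cast_nonneg _)
    exact (posLog_le_abs_log _).trans (norm_le_pi_norm (Lg Λ g) (Sum.inl v))
  have h2 : ∑ v ∈ Λ, Real.posLog (v (g : κ)) ≤ ∑ v ∈ Λ, ‖Lg Λ g‖ := by
    refine Finset.sum_le_sum fun v hv => ?_
    exact (posLog_le_abs_log _).trans (norm_le_pi_norm (Lg Λ g) (Sum.inr ⟨v, hv⟩))
  have h3 : ∑ v : NumberField.InfinitePlace κ, (v.mult : ℝ) = Module.finrank ℚ κ := by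
    exact_mod_cast NumberField.InfinitePlace.sum_mult_eq (K := κ)
  rw [← Finset.sum_mul, h3] at h1
  rw [Finset.sum_const, nsmul_eq_mul] at h2
  rw [hfin]
  linarith

/-- **The number of the elements of bounded height.** -/
theorem count_height (T : Finset κˣ) : ∃ A : ℕ, ∀ Y : ℕ,
    {g : κˣ | g ∈ Subgroup.closure (T : Set κˣ) ∧ logHeight₁ (g : κ) ≤ Y}.Finite ∧
    {g : κˣ | g ∈ Subgroup.closure (T : Set κˣ) ∧ logHeight₁ (g : κ) ≤ Y}.ncard ≤
      A * (Y + 1) ^ T.card := by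
  classical
  -- finiteness
  have hfinκ : ∀ B : ℝ, {g : κˣ | logHeight₁ (g : κ) ≤ B}.Finite := fun B =>
    (NumberField.finite_setOfPred_logHeight₁_le κ B).preimage Units.val_injective.injOn
  -- the places
  set Λ : Finset (NumberField.FinitePlace κ) :=
    T.biUnion fun g => (Pool.Agent.NH29.GN.CntAux.fin_supp (g : κ)).toFinset with hΛ
  have hout : ∀ g ∈ Subgroup.closure (T : Set κˣ), ∀ v : NumberField.FinitePlace κ, v ∉ Λ →
      v (g : κ) = 1 := by
    intro g hg v hv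
    induction hg using Subgroup.closure_induction with
    | mem x hx =>
      by_contra hne
      apply hv
      rw [hΛ, Finset.mem_biUnion]
      exact ⟨x, hx, by simpa using hne⟩
    | one => simp
    | mul x y _ _ hx hy => rw [Units.val_mul, map_mul, hx, hy, one_mul]
    | inv x _ hx => rw [Units.val_inv_eq_inv_val, map_inv₀, hx, inv_one]
  set W : Submodule ℝ (NumberField.InfinitePlace κ ⊕ {v // v ∈ Λ} → ℝ) :=
    Submodule.span ℝ ((T.image (Lg Λ) : Finset _) : Set _) with hW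
  have hmem : ∀ g ∈ Subgroup.closure (T : Set κˣ), Lg Λ g ∈ W := by
    intro g hg
    induction hg using Subgroup.closure_induction with
    | mem x hx => exact Submodule.subset_span (Finset.mem_coe.2 (Finset.mem_image_of_mem _ hx))
    | one => rw [Lg_one]; exact W.zero_mem
    | mul x y _ _ hx hy => rw [Lg_mul]; exact W.add_mem hx hy
    | inv x _ hx => rw [Lg_inv]; exact W.neg_mem hx
  have hrank : Module.finrank ℝ W ≤ T.card :=
    (finrank_span_finset_le_card _).trans Finset.card_image_le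
  set ρ := Module.finrank ℝ W with hρ
  let φ : W ≃L[ℝ] (Fin ρ → ℝ) := ContinuousLinearEquiv.ofFinrankEq (by simp [hρ])
  set ψ : κˣ → Fin ρ → ℝ := fun g => if hg : Lg Λ g ∈ W then φ ⟨Lg Λ g, hg⟩ else 0 with hψ
  -- separation
  set M : ℝ := Module.finrank ℚ κ + Λ.card with hM
  have hM0 : 0 < M := by
    have : (0 : ℝ) < Module.finrank ℚ κ := by exact_mod_cast (Module.finrank_pos : 0 < Module.finrank ℚ κ)
    rw [hM]
    positivity
  obtain ⟨δ₀, hδ₀, hsep⟩ : ∃ δ₀ : ℝ, 0 < δ₀ ∧ ∀ g ∈ Subgroup.closure (T : Set κˣ),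
      Lg Λ g ≠ 0 → δ₀ ≤ ‖Lg Λ g‖ := by
    obtain ⟨δ₁, hδ₁, h1⟩ : ∃ δ₁ : ℝ, 0 < δ₁ ∧ ∀ g ∈ {g : κˣ | logHeight₁ (g : κ) ≤ 1},
        Lg Λ g ≠ 0 → δ₁ ≤ ‖Lg Λ g‖ := by
      set F := (hfinκ 1).toFinset.filter fun g => Lg Λ g ≠ 0 with hF
      rcases F.eq_empty_or_nonempty with hFe | hFn
      · refine ⟨1, one_pos, fun g hg hne => ?_⟩
        exfalso
        have : g ∈ F := Finset.mem_filter.2 ⟨(hfinκ 1).mem_toFinset.2 hg, hne⟩
        rw [hFe] at this
        exact absurd this (Finset.notMem_empty _)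
      · obtain ⟨g₀, hg₀, hmin⟩ := Finset.exists_min_image F (fun g => ‖Lg Λ g‖) hFn
        refine ⟨‖Lg Λ g₀‖, norm_pos_iff.2 (Finset.mem_filter.1 hg₀).2, fun g hg hne => ?_⟩
        exact hmin g (Finset.mem_filter.2 ⟨(hfinκ 1).mem_toFinset.2 hg, hne⟩)
    refine ⟨min δ₁ M⁻¹, lt_min hδ₁ (inv_pos.2 hM0), fun g hg hne => ?_⟩
    by_cases hh : logHeight₁ (g : κ) ≤ 1
    · exact (min_le_left _ _).trans (h1 g hh hne)
    · refine (min_le_right _ _).trans ?_
      have h2 := height_le_Lg Λ g (hout g hg)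
      rw [inv_le_iff_one_le_mul₀ hM0]
      push Not at hh
      have : logHeight₁ (g : κ) ≤ M * ‖Lg Λ g‖ := h2
      nlinarith
  set c₁ : ℝ := ‖(φ : W →L[ℝ] (Fin ρ → ℝ))‖ with hc₁
  set c₂ : ℝ := ‖(φ.symm : (Fin ρ → ℝ) →L[ℝ] W)‖ with hc₂
  have hc₁0 : 0 ≤ c₁ := ContinuousLinearMap.opNorm_nonneg _
  have hc₂0 : 0 ≤ c₂ := ContinuousLinearMap.opNorm_nonneg _
  set δ : ℝ := δ₀ / (c₂ + 1) with hδ
  have hδ0 : 0 < δ := by positivity
  set A₀ : ℕ := ⌈c₁ * 2 / δ⌉₊ + 2 with hA₀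
  set Zs : Set κˣ := {g : κˣ | logHeight₁ (g : κ) ≤ 0} with hZs
  have hZfin : Zs.Finite := hfinκ 0
  refine ⟨Zs.ncard * (3 * A₀) ^ T.card, fun Y => ?_⟩
  set FY : Set κˣ := {g : κˣ | g ∈ Subgroup.closure (T : Set κˣ) ∧ logHeight₁ (g : κ) ≤ Y} with hFY
  have hFfin : FY.Finite := (hfinκ Y).subset fun g hg => hg.2
  refine ⟨hFfin, ?_⟩
  rw [Set.ncard_eq_toFinset_card _ hFfin]
  set cell : κˣ → Fin ρ → ℤ := fun g i => ⌊ψ g i / δ⌋ with hcell
  set n : ℕ := A₀ * (Y + 1) with hn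
  have hψval : ∀ g (hg : g ∈ Subgroup.closure (T : Set κˣ)), ψ g = φ ⟨Lg Λ g, hmem g hg⟩ := by
    intro g hg
    simp only [hψ]
    rw [dif_pos (hmem g hg)]
  have hmaps : ∀ g ∈ hFfin.toFinset, cell g ∈ Fintype.piFinset fun _ : Fin ρ => Finset.Icc (-(n : ℤ)) n := by
    intro g hg
    have hg' : g ∈ FY := hFfin.mem_toFinset.1 hg
    rw [Fintype.mem_piFinset]
    intro i
    have h1 : |ψ g i| ≤ c₁ * (2 * Y) := by
      have h2 : ‖ψ g‖ ≤ c₁ * (2 * Y) := by
        rw [hψval g hg'.1]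
        refine ((φ : W →L[ℝ] (Fin ρ → ℝ)).le_opNorm _).trans ?_
        refine mul_le_mul_of_nonneg_left ?_ hc₁0
        have h3 := norm_Lg_le Λ g
        have h4 : logHeight₁ (g : κ) ≤ Y := hg'.2
        calc ‖(⟨Lg Λ g, hmem g hg'.1⟩ : W)‖ = ‖Lg Λ g‖ := rfl
          _ ≤ 2 * Y := by linarith
      exact (norm_le_pi_norm (ψ g) i).trans h2
    have h2 : |ψ g i / δ| ≤ (c₁ * 2 / δ) * Y := by
      rw [abs_div, abs_of_pos hδ0, div_le_iff₀ hδ0]
      calc |ψ g i| ≤ c₁ * (2 * Y) := h1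
        _ = c₁ * 2 / δ * Y * δ := by field_simp
    have h3 : (c₁ * 2 / δ) * Y + 1 ≤ n := by
      have h4 : c₁ * 2 / δ ≤ ⌈c₁ * 2 / δ⌉₊ := Nat.le_ceil _
      have h5 : (0 : ℝ) ≤ Y := by positivity
      have h6 : (0 : ℝ) ≤ ⌈c₁ * 2 / δ⌉₊ := by positivity
      rw [hn, hA₀]
      push_cast
      nlinarith
    rw [abs_le] at h2
    rw [Finset.mem_Icc]
    constructor
    · have h7 := Int.sub_one_lt_floor (ψ g i / δ)
      have h8 : (-(n : ℤ) : ℝ) < (⌊ψ g i / δ⌋ : ℝ) := by push_cast; linarith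
      exact_mod_cast h8.le
    · have h7 := Int.floor_le (ψ g i / δ)
      have h8 : ((⌊ψ g i / δ⌋ : ℤ) : ℝ) ≤ n := by linarith
      exact_mod_cast h8
  have hfib : ∀ b ∈ Fintype.piFinset fun _ : Fin ρ => Finset.Icc (-(n : ℤ)) n,
      (hFfin.toFinset.filter fun g => cell g = b).card ≤ Zs.ncard := by
    intro b _
    rcases (hFfin.toFinset.filter fun g => cell g = b).eq_empty_or_nonempty with he | ⟨g₀, hg₀⟩
    · rw [he]
      simp
    · rw [Set.ncard_eq_toFinset_card _ hZfin]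
      obtain ⟨hg₀1, hg₀2⟩ := Finset.mem_filter.1 hg₀
      have hg₀c : g₀ ∈ Subgroup.closure (T : Set κˣ) := (hFfin.mem_toFinset.1 hg₀1).1
      refine Finset.card_le_card_of_injOn (fun g => g * g₀⁻¹) ?_ ?_
      · intro g hg
        obtain ⟨hg1, hg2⟩ := Finset.mem_filter.1 hg
        have hgc : g ∈ Subgroup.closure (T : Set κˣ) := (hFfin.mem_toFinset.1 hg1).1
        have hL0 : Lg Λ (g * g₀⁻¹) = 0 := by
          by_contra hne
          have h1 := hsep _ (Subgroup.mul_mem _ hgc (Subgroup.inv_mem _ hg₀c)) hne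
          have h2 : ‖ψ g - ψ g₀‖ < δ := by
            rw [pi_norm_lt_iff hδ0]
            intro i
            have h3 : cell g i = cell g₀ i := by rw [hg2, hg₀2]
            simp only [hcell] at h3
            have h4 := Int.abs_sub_lt_one_of_floor_eq_floor h3
            rw [Pi.sub_apply, Real.norm_eq_abs]
            rw [← sub_div, abs_div, abs_of_pos hδ0, div_lt_one hδ0] at h4
            exact h4
          have h5 : ‖Lg Λ (g * g₀⁻¹)‖ ≤ c₂ * ‖ψ g - ψ g₀‖ := by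
            rw [hψval g hgc, hψval g₀ hg₀c, ← map_sub]
            have h6 := (φ.symm : (Fin ρ → ℝ) →L[ℝ] W).le_opNorm
              (φ (⟨Lg Λ g, hmem g hgc⟩ - ⟨Lg Λ g₀, hmem g₀ hg₀c⟩))
            have h7 : (φ.symm : (Fin ρ → ℝ) →L[ℝ] W)
                (φ (⟨Lg Λ g, hmem g hgc⟩ - ⟨Lg Λ g₀, hmem g₀ hg₀c⟩)) =
                ⟨Lg Λ g, hmem g hgc⟩ - ⟨Lg Λ g₀, hmem g₀ hg₀c⟩ := φ.symm_apply_apply _
            rw [h7] at h6
            have h8 : ‖(⟨Lg Λ g, hmem g hgc⟩ - ⟨Lg Λ g₀, hmem g₀ hg₀c⟩ : W)‖ =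
                ‖Lg Λ (g * g₀⁻¹)‖ := by
              rw [Lg_mul, Lg_inv, ← sub_eq_add_neg]
              rfl
            rw [h8] at h6
            exact h6
          have h9 : c₂ * ‖ψ g - ψ g₀‖ ≤ c₂ * δ := mul_le_mul_of_nonneg_left h2.le hc₂0
          have h10 : c₂ * δ < δ₀ := by
            rw [hδ, mul_div_assoc', div_lt_iff₀ (by positivity)]
            nlinarith
          linarith
        have h1 := height_le_Lg Λ (g * g₀⁻¹)
          (hout _ (Subgroup.mul_mem _ hgc (Subgroup.inv_mem _ hg₀c)))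
        rw [hL0, norm_zero, mul_zero] at h1
        exact hZfin.mem_toFinset.2 h1
      · intro g _ g' _ hgg'
        exact mul_right_cancel hgg'
  have hcard := Finset.card_le_mul_card_image_of_maps_to hmaps _ hfib
  refine hcard.trans ?_
  rw [Fintype.card_piFinset, Finset.prod_const, Finset.card_univ, Fintype.card_fin, Int.card_Icc]
  have h1 : ((n : ℤ) + 1 - -(n : ℤ)).toNat = 2 * n + 1 := by omega
  rw [h1, mul_assoc]
  refine Nat.mul_le_mul_left _ ?_
  have h2 : 2 * n + 1 ≤ 3 * A₀ * (Y + 1) := by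
    have h3 : 1 ≤ n := by
      rw [hn]
      exact Nat.one_le_iff_ne_zero.2 (by positivity)
    calc 2 * n + 1 ≤ 3 * n := by omega
      _ = 3 * A₀ * (Y + 1) := by rw [hn]; ring
  calc (2 * n + 1) ^ ρ ≤ (3 * A₀ * (Y + 1)) ^ ρ := Nat.pow_le_pow_left h2 _
    _ ≤ (3 * A₀ * (Y + 1)) ^ T.card := Nat.pow_le_pow_right (by positivity) hrank
    _ = (3 * A₀) ^ T.card * (Y + 1) ^ T.card := mul_pow _ _ _

end Run7.h911.SU
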