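import Pool.Agent.Run7.h911.SU5

/-!
# Sums of units in the trajectories of the 3x+1 map: counting
-/

set_option autoImplicit false

namespace Run7.h911.SU

open Filter Height Finset
open Run7.h911.FD (TD od count_fwd)

variable {κ : Type} [Field κ] [NumberField κ]

omit [NumberField κ] in
theorem exists_bound (A : Finset κ) (f : κ → ℝ) : ∃ b : ℕ, ∀ a ∈ A, f a ≤ b := by
  classical
  induction A using Finset.induction_on with
  | empty => exact ⟨0, fun a ha => absurd ha (Finset.notMem_empty a)⟩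
  | insert a A _ ih =>
    obtain ⟨b, hb⟩ := ih
    refine ⟨b + ⌈f a⌉₊, fun x hx => ?_⟩
    push_cast
    rcases Finset.mem_insert.1 hx with rfl | hx
    · have := Nat.le_ceil (f x)
      have h0 : (0 : ℝ) ≤ b := by positivity
      linarith
    · have := hb x hx
      have h0 : (0 : ℝ) ≤ (⌈f a⌉₊ : ℝ) := by positivity
      linarith

/-- the number of the sums of units of bounded size -/
theorem small_count (E : Finset κ) (T : Finset κˣ) (h : ℕ) : ∃ A : ℕ, ∀ K : ℕ, 1 ≤ K →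
    ∀ X : Finset ℤ, (∀ x ∈ X, Sums E (Subgroup.closure (T : Set κˣ)) h x ∧
      |(x : ℝ)| ≤ Real.exp K) → X.card ≤ A * K ^ (T.card * h) := by
  classical
  set Γ := Subgroup.closure (T : Set κˣ) with hΓ
  have hfg : Γ.FG := ⟨T, rfl⟩
  obtain ⟨C₀, hC₀⟩ := rep_height E hfg h
  obtain ⟨b, hb⟩ := exists_bound E (fun a => logHeight₁ a)
  set C : ℕ := C₀ + b with hCdef
  obtain ⟨A, hA⟩ := count_height T
  set q : ℕ := E.card * (A * (2 * C + 1) ^ T.card) + 1 with hq
  refine ⟨q ^ h, fun K hK X hX => ?_⟩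
  obtain ⟨hfin, hcard⟩ := hA (C * (1 + K))
  set F : Finset κ := insert 0 ((E ×ˢ hfin.toFinset).image fun v : κ × κˣ => v.1 * (v.2 : κ))
    with hF
  have hFc : F.card ≤ q * K ^ T.card := by
    have h1 : F.card ≤ ((E ×ˢ hfin.toFinset).image fun v : κ × κˣ => v.1 * (v.2 : κ)).card + 1 :=
      Finset.card_insert_le _ _
    have h2 : ((E ×ˢ hfin.toFinset).image fun v : κ × κˣ => v.1 * (v.2 : κ)).card ≤
        E.card * (A * (C * (1 + K) + 1) ^ T.card) := by
      refine Finset.card_image_le.trans ?_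
      rw [Finset.card_product, ← Set.ncard_eq_toFinset_card _ hfin]
      exact Nat.mul_le_mul_left _ hcard
    have h3 : C * (1 + K) + 1 ≤ (2 * C + 1) * K := by nlinarith
    have h4 : (C * (1 + K) + 1) ^ T.card ≤ (2 * C + 1) ^ T.card * K ^ T.card := by
      rw [← mul_pow]
      exact Nat.pow_le_pow_left h3 _
    have h5 : 1 ≤ K ^ T.card := Nat.one_le_pow _ _ hK
    calc F.card ≤ E.card * (A * ((2 * C + 1) ^ T.card * K ^ T.card)) + K ^ T.card := by
          have := Nat.mul_le_mul_left E.card (Nat.mul_le_mul_left A h4)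
          omega
      _ = q * K ^ T.card := by rw [hq]; ring
  have hrep : ∀ x : ℤ, ∃ γ : Fin h → κ, x ∈ X → (γ ∈ Fintype.piFinset fun _ : Fin h => F) ∧
      (x : κ) = ∑ i, γ i := by
    intro x
    by_cases hx : x ∈ X
    · obtain ⟨h1, h2⟩ := hX x hx
      obtain ⟨γ, ⟨h3, h4⟩, h5⟩ := hC₀ x h1
      refine ⟨γ, fun _ => ⟨?_, h4⟩⟩
      rw [Fintype.mem_piFinset]
      intro i
      rw [hF, Finset.mem_insert]
      rcases h3 i with h6 | ⟨a, ha, g, hg, h6⟩
      · exact Or.inl h6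
      by_cases ha0 : a = 0
      · left
        rw [h6, ha0, zero_mul]
      · right
        rw [Finset.mem_image]
        refine ⟨(a, g), Finset.mem_product.2 ⟨ha, hfin.mem_toFinset.2 ⟨hg, ?_⟩⟩, h6.symm⟩
        show logHeight₁ (g : κ) ≤ _
        have h7 : Real.posLog |(x : ℝ)| ≤ K := by
          calc Real.posLog |(x : ℝ)| ≤ Real.posLog (Real.exp K) :=
                Real.posLog_le_posLog (abs_nonneg _) h2
            _ = K := by
                rw [Real.posLog_eq_log (by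
                  rw [abs_of_pos (Real.exp_pos _)]
                  exact Real.one_le_exp (by positivity)), Real.log_exp]
        have h8 : (g : κ) = γ i * a⁻¹ := by
          rw [h6]
          field_simp
        have h9 : logHeight₁ (g : κ) ≤ logHeight₁ (γ i) + logHeight₁ a⁻¹ := by
          rw [h8]
          exact logHeight₁_mul_le _ _
        rw [logHeight₁_inv] at h9
        have h10 := hb a ha
        have h11 := h5 i
        have h12 : (C₀ : ℝ) * (1 + Real.posLog |(x : ℝ)|) ≤ C₀ * (1 + K) := by gcongr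
        have h13 : (0 : ℝ) ≤ b := by positivity
        have h14 : (0 : ℝ) ≤ K := by positivity
        rw [hCdef]
        push_cast
        nlinarith
    · exact ⟨fun _ => 0, fun h => absurd h hx⟩
  choose γ hγ using hrep
  have h1 : X.card ≤ (Fintype.piFinset fun _ : Fin h => F).card := by
    refine Finset.card_le_card_of_injOn γ (fun x hx => (hγ x hx).1) ?_
    intro x hx y hy hxy
    have h2 := (hγ x hx).2
    have h3 := (hγ y hy).2
    rw [hxy, ← h3] at h2
    exact_mod_cast h2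
  refine h1.trans ?_
  rw [Fintype.card_piFinset, Finset.prod_const, Finset.card_univ, Fintype.card_fin]
  calc F.card ^ h ≤ (q * K ^ T.card) ^ h := Nat.pow_le_pow_left hFc _
    _ = q ^ h * K ^ (T.card * h) := by rw [mul_pow, pow_mul]

/-- from short windows to a global bound -/
theorem from_windows {B t : ℕ} (ht : 1 ≤ t) {N K : ℕ} (hK : 1 ≤ K) {G : Finset ℕ} (hG : G ⊆ range N)
    (h : t ≤ K → ∀ i ∈ G, (G.filter fun j => i ≤ j ∧ j ≤ i + K / t).card ≤ B) :
    (G.card : ℝ) ≤ (B * t + t + B) * ((N : ℝ) / K + 1) := by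
  have hKr : (0 : ℝ) < K := by exact_mod_cast hK
  have hN0 : (0 : ℝ) ≤ (N : ℝ) / K := by positivity
  have hB0 : (0 : ℝ) ≤ B := by positivity
  have ht0 : (1 : ℝ) ≤ t := by exact_mod_cast ht
  have hGN : (G.card : ℝ) ≤ N := by
    have := Finset.card_le_card hG
    rw [Finset.card_range] at this
    exact_mod_cast this
  have hNK : (N : ℝ) = K * (N / K) := by field_simp
  by_cases htK : t ≤ K
  · have h1 := count_fwd hG (h htK)
    have h2 : (G.card : ℝ) ≤ B * (((N / (K / t + 1) : ℕ) : ℝ) + 1) := by exact_mod_cast h1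
    have h3 : ((N / (K / t + 1) : ℕ) : ℝ) ≤ t * (N / K) := by
      refine Nat.cast_div_le.trans ?_
      rw [div_le_iff₀ (by positivity)]
      have h4 : K < t * (K / t + 1) := Nat.lt_mul_div_succ K (by omega)
      have h5 : (K : ℝ) ≤ t * ((K / t : ℕ) + 1) := by exact_mod_cast h4.le
      push_cast
      calc (N : ℝ) = K * (N / K) := hNK
        _ ≤ t * ((K / t : ℕ) + 1) * (N / K) := by gcongr
        _ = _ := by ring
    have h6 : (B : ℝ) * (((N / (K / t + 1) : ℕ) : ℝ) + 1) ≤ B * (t * (N / K) + 1) := by gcongr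
    have h7 : (0 : ℝ) ≤ t * (N / K) := by positivity
    nlinarith
  · push Not at htK
    have h1 : (K : ℝ) ≤ t := by exact_mod_cast htK.le
    have h2 : (K : ℝ) * (N / K) ≤ t * (N / K) := by gcongr
    have h3 : (0 : ℝ) ≤ B * t * (N / K) := by positivity
    nlinarith

/-- the condition on the group, for all terms -/
def Cond2 (Γ : Subgroup κˣ) : Prop := ∀ g ∈ Γ, ∀ a b : ℤ, (g : κ) = 2 ^ a * 3 ^ b → a = 0

/-- the condition on the group, for the odd terms -/
def Cond3 (Γ : Subgroup κˣ) : Prop := ∀ g ∈ Γ, ∀ a b : ℤ, (g : κ) = 2 ^ a * 3 ^ b → b = 0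

theorem val_eq (σ o σ' o' : ℕ) :
    ((u2 κ ^ σ * u3 κ ^ o' * (u2 κ ^ σ' * u3 κ ^ o)⁻¹ : κˣ) : κ) =
      2 ^ ((σ : ℤ) - σ') * 3 ^ ((o' : ℤ) - o) := by
  simp only [Units.val_mul, Units.val_pow_eq_pow_val, u2, u3, Units.val_mk0,
    Units.val_inv_eq_inv_val]
  rw [zpow_sub₀ two_ne_zero, zpow_sub₀ three_ne_zero]
  simp only [zpow_natCast]
  field_simp

theorem large_all (A : Finset κ) {Γ : Subgroup κˣ} (hΓ : Γ.FG) (h : ℕ) (hc : Cond2 Γ) : ∃ C : ℝ, 0 < C ∧
    ∀ (x : ℤ) (N K : ℕ), 1 ≤ K → ∀ G : Finset ℕ, G ⊆ range N →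
    (∀ i ∈ G, Sums A Γ h ((TD 1)^[i] x) ∧ Real.exp K ≤ |(((TD 1)^[i] x : ℤ) : ℝ)|) →
    (G.card : ℝ) ≤ C * ((N : ℝ) / K + 1) := by
  classical
  obtain ⟨B, t₀, hw⟩ := window A hΓ h (fun σ _ => σ) fun σ o σ' o' hmem => by
    have := hc _ hmem _ _ (val_eq σ o σ' o')
    show σ = σ'
    omega
  set t := t₀ + 1 with ht
  refine ⟨(B + 1 : ℕ) * t + t + (B + 1 : ℕ), by positivity, fun x N K hK G hG hGP => ?_⟩
  refine from_windows (by omega) hK hG fun htK i hi => ?_
  have hsub : (G.filter fun j => i ≤ j ∧ j ≤ i + K / t) ⊆ Finset.Icc i (i + B) := by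
    intro j hj
    obtain ⟨hjG, hja, hjb⟩ := Finset.mem_filter.1 hj
    obtain ⟨h1, h2⟩ := hGP i hi
    have h3 : (K : ℝ) ≤ Real.log |(((TD 1)^[i] x : ℤ) : ℝ)| := by
      rw [← Real.log_exp (K : ℝ)]
      exact Real.log_le_log (Real.exp_pos _) h2
    have h4 : ((j - i : ℕ) : ℝ) * t ≤ K := by
      have h5 : (j - i) * t ≤ K := by
        calc (j - i) * t ≤ K / t * t := Nat.mul_le_mul_right _ (by omega)
          _ ≤ K := Nat.div_mul_le_self _ _
      exact_mod_cast h5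
    have h5 : (t : ℝ) ≤ K := by exact_mod_cast htK
    have h6 : (t₀ : ℝ) ≤ t := by exact_mod_cast (by omega : t₀ ≤ t)
    have h7 : (0 : ℝ) ≤ ((j - i : ℕ) : ℝ) := by positivity
    have h8 := hw ((TD 1)^[i] x) (j - i) (by linarith) (by nlinarith) h1 (by
      rw [← Function.iterate_add_apply, show j - i + i = j by omega]
      exact (hGP j hjG).1)
    have h9 : j - i ≤ B := h8
    rw [Finset.mem_Icc]
    omega
  refine (Finset.card_le_card hsub).trans ?_
  rw [Nat.card_Icc]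
  omega

theorem large_odd (A : Finset κ) {Γ : Subgroup κˣ} (hΓ : Γ.FG) (h : ℕ) (hc : Cond3 Γ) : ∃ C : ℝ, 0 < C ∧
    ∀ (x : ℤ) (N K : ℕ), 1 ≤ K → ∀ G : Finset ℕ, G ⊆ range N →
    (∀ i ∈ G, ((TD 1)^[i] x % 2 = 1 ∧ Sums A Γ h ((TD 1)^[i] x)) ∧
      Real.exp K ≤ |(((TD 1)^[i] x : ℤ) : ℝ)|) →
    (G.card : ℝ) ≤ C * ((N : ℝ) / K + 1) := by
  classical
  obtain ⟨B, t₀, hw⟩ := window A hΓ h (fun _ o => o) fun σ o σ' o' hmem => by
    have := hc _ hmem _ _ (val_eq σ o σ' o')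
    show o = o'
    omega
  set t := t₀ + 1 with ht
  refine ⟨(B + 1 : ℕ) * t + t + (B + 1 : ℕ), by positivity, fun x N K hK G hG hGP => ?_⟩
  refine from_windows (by omega) hK hG fun htK i hi => ?_
  set W := G.filter fun j => i ≤ j ∧ j ≤ i + K / t with hW
  rcases W.eq_empty_or_nonempty with hne | hne
  · rw [hne]
    simp
  obtain ⟨j0, hj0, hmax⟩ := Finset.exists_max_image W (fun j => j) hne
  obtain ⟨hj0G, hj0a, hj0b⟩ := Finset.mem_filter.1 hj0
  obtain ⟨⟨-, h1⟩, h2⟩ := hGP i hi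
  have h3 : (K : ℝ) ≤ Real.log |(((TD 1)^[i] x : ℤ) : ℝ)| := by
    rw [← Real.log_exp (K : ℝ)]
    exact Real.log_le_log (Real.exp_pos _) h2
  have h4 : ((j0 - i : ℕ) : ℝ) * t ≤ K := by
    have h5 : (j0 - i) * t ≤ K := by
      calc (j0 - i) * t ≤ K / t * t := Nat.mul_le_mul_right _ (by omega)
        _ ≤ K := Nat.div_mul_le_self _ _
    exact_mod_cast h5
  have h5 : (t : ℝ) ≤ K := by exact_mod_cast htK
  have h6 : (t₀ : ℝ) ≤ t := by exact_mod_cast (by omega : t₀ ≤ t)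
  have h7 : (0 : ℝ) ≤ ((j0 - i : ℕ) : ℝ) := by positivity
  have hod : od 1 (j0 - i) ((TD 1)^[i] x) ≤ B :=
    hw ((TD 1)^[i] x) (j0 - i) (by linarith) (by nlinarith) h1 (by
      rw [← Function.iterate_add_apply, show j0 - i + i = j0 by omega]
      exact (hGP j0 hj0G).1.2)
  have hsub : W ⊆ insert j0 (((range (j0 - i)).filter fun k =>
      (TD 1)^[k] ((TD 1)^[i] x) % 2 = 1).image fun k => k + i) := by
    intro j hj
    obtain ⟨hjG', hja, hjb⟩ := Finset.mem_filter.1 hj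
    rcases eq_or_ne j j0 with rfl | hjne
    · exact Finset.mem_insert_self _ _
    · apply Finset.mem_insert_of_mem
      rw [Finset.mem_image]
      have := hmax j hj
      refine ⟨j - i, Finset.mem_filter.2 ⟨Finset.mem_range.2 (by omega), ?_⟩, by omega⟩
      rw [← Function.iterate_add_apply, show j - i + i = j by omega]
      exact (hGP j hjG').1.1
  refine (Finset.card_le_card hsub).trans ((Finset.card_insert_le _ _).trans ?_)
  have := Finset.card_image_le (s := (range (j0 - i)).filter fun k =>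
      (TD 1)^[k] ((TD 1)^[i] x) % 2 = 1) (f := fun k => k + i)
  have h2 : ((range (j0 - i)).filter fun k =>
      (TD 1)^[k] ((TD 1)^[i] x) % 2 = 1).card ≤ B := hod
  omega

/-- the choice of the threshold -/
theorem total {E : Finset κ} {T : Finset κˣ} {h : ℕ} {C : ℝ} (hC : 0 < C) {P : ℤ → Prop}
    (hP : ∀ x, P x → Sums E (Subgroup.closure (T : Set κˣ)) h x)
    (hl : ∀ (x : ℤ) (N K : ℕ), 1 ≤ K → ∀ G : Finset ℕ, G ⊆ range N →
      (∀ i ∈ G, P ((TD 1)^[i] x) ∧ Real.exp K ≤ |(((TD 1)^[i] x : ℤ) : ℝ)|) →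
      (G.card : ℝ) ≤ C * ((N : ℝ) / K + 1)) : ∃ C' : ℝ, 0 < C' ∧
    ∀ (x : ℤ) (N : ℕ), 1 ≤ N → Set.InjOn (fun i => (TD 1)^[i] x) (Set.Iio N) →
      ∀ G : Finset ℕ, G ⊆ range N → (∀ i ∈ G, P ((TD 1)^[i] x)) →
      (G.card : ℝ) ≤ C' * (N : ℝ) ^ (1 - 1 / ((T.card * h : ℕ) + 1 : ℝ)) := by
  classical
  obtain ⟨A, hA⟩ := small_count E T h
  set d : ℕ := T.card * h with hd
  refine ⟨2 * C + A * 2 ^ d, by positivity, fun x N hN hinj G hG hGP => ?_⟩
  have hN1 : (1 : ℝ) ≤ N := by exact_mod_cast hN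
  have hd0 : (0 : ℝ) < (d : ℝ) + 1 := by positivity
  set R : ℝ := (N : ℝ) ^ (1 / ((d : ℝ) + 1)) with hR
  have hR1 : 1 ≤ R := Real.one_le_rpow hN1 (by positivity)
  set M : ℝ := (N : ℝ) ^ (1 - 1 / ((d : ℝ) + 1)) with hM
  have hM1 : 1 ≤ M := by
    apply Real.one_le_rpow hN1
    rw [sub_nonneg, div_le_one hd0]
    have : (0 : ℝ) ≤ d := by positivity
    linarith
  have hRM : R * M = N := by
    rw [hR, hM, ← Real.rpow_add (by linarith)]
    have : 1 / ((d : ℝ) + 1) + (1 - 1 / ((d : ℝ) + 1)) = 1 := by ring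
    rw [this, Real.rpow_one]
  have hRd : R ^ d = M := by
    rw [hR, hM, ← Real.rpow_natCast, ← Real.rpow_mul (by linarith)]
    congr 1
    field_simp
    ring
  set K : ℕ := ⌈R⌉₊ with hK
  have hKR : R ≤ K := Nat.le_ceil R
  have hK1 : 1 ≤ K := by
    have : 0 < ⌈R⌉₊ := Nat.ceil_pos.2 (by linarith)
    omega
  have hK2 : (K : ℝ) ≤ 2 * R := by
    have := Nat.ceil_lt_add_one (show 0 ≤ R by linarith)
    linarith
  -- large terms
  have h1 := hl x N K hK1 (G.filter fun i => Real.exp K ≤ |(((TD 1)^[i] x : ℤ) : ℝ)|)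
    ((Finset.filter_subset _ _).trans hG) (fun i hi => by
      obtain ⟨h2, h3⟩ := Finset.mem_filter.1 hi
      exact ⟨hGP i h2, h3⟩)
  have h2 : (N : ℝ) / K ≤ M := by
    rw [div_le_iff₀ (by linarith)]
    nlinarith
  have h3 : C * ((N : ℝ) / K + 1) ≤ C * (M + M) := by gcongr
  -- small terms
  have h4 : (G.filter fun i => ¬ Real.exp K ≤ |(((TD 1)^[i] x : ℤ) : ℝ)|).card ≤ A * K ^ d := by
    rw [← Finset.card_image_of_injOn (f := fun i => (TD 1)^[i] x)]
    · refine hA K hK1 _ fun y hy => ?_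
      obtain ⟨i, hi, rfl⟩ := Finset.mem_image.1 hy
      obtain ⟨h5, h6⟩ := Finset.mem_filter.1 hi
      exact ⟨hP _ (hGP i h5), (not_le.1 h6).le⟩
    · intro i hi j hj hij
      have hi' := Finset.mem_range.1 (hG (Finset.mem_filter.1 hi).1)
      have hj' := Finset.mem_range.1 (hG (Finset.mem_filter.1 hj).1)
      exact hinj hi' hj' hij
  have h5 : ((G.filter fun i => ¬ Real.exp K ≤ |(((TD 1)^[i] x : ℤ) : ℝ)|).card : ℝ) ≤
      A * 2 ^ d * M := by
    calc ((G.filter fun i => ¬ Real.exp K ≤ |(((TD 1)^[i] x : ℤ) : ℝ)|).card : ℝ)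
        ≤ A * (K : ℝ) ^ d := by exact_mod_cast h4
      _ ≤ A * (2 * R) ^ d := by gcongr
      _ = A * 2 ^ d * M := by rw [mul_pow, hRd]; ring
  have h6 := Finset.card_filter_add_card_filter_not (s := G)
    (fun i => Real.exp K ≤ |(((TD 1)^[i] x : ℤ) : ℝ)|)
  have h7 : (G.card : ℝ) = ((G.filter fun i => Real.exp K ≤ |(((TD 1)^[i] x : ℤ) : ℝ)|).card : ℝ) +
      ((G.filter fun i => ¬ Real.exp K ≤ |(((TD 1)^[i] x : ℤ) : ℝ)|).card : ℝ) := by
    exact_mod_cast h6.symm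
  rw [h7]
  linarith

end Run7.h911.SU
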