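import Pool.Agent.Run7.h911.SU6

/-!
# Sums of units: the rational numbers and the Fibonacci numbers
-/

set_option autoImplicit false

namespace Run7.h911.SU

open Finset

/-- the group generated by a finite set of natural numbers -/
noncomputable def gens (P : Finset ℕ) : Finset ℚˣ := by
  classical
  exact P.image fun p : ℕ => if h : (p : ℚ) ≠ 0 then Units.mk0 (p : ℚ) h else 1

theorem gens_card (P : Finset ℕ) : (gens P).card ≤ P.card := by
  classical
  exact Finset.card_image_le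

theorem mem_gens {P : Finset ℕ} {n : ℕ} (hn : n ≠ 0) (hP : ∀ p, p.Prime → p ∣ n → p ∈ P) :
    ∃ g ∈ Subgroup.closure (gens P : Set ℚˣ), (g : ℚ) = n := by
  classical
  induction n using Nat.recOnMul with
  | zero => exact absurd rfl hn
  | one => exact ⟨1, Subgroup.one_mem _, by simp⟩
  | prime p hp =>
    have hp0 : (p : ℚ) ≠ 0 := by exact_mod_cast hp.ne_zero
    refine ⟨Units.mk0 (p : ℚ) hp0, Subgroup.subset_closure ?_, rfl⟩
    have h1 : p ∈ P := hP p hp dvd_rfl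
    have h2 : Units.mk0 (p : ℚ) hp0 ∈ gens P := Finset.mem_image.2 ⟨p, h1, dif_pos hp0⟩
    exact_mod_cast h2
  | mul a b ha hb =>
    have ha0 : a ≠ 0 := left_ne_zero_of_mul hn
    have hb0 : b ≠ 0 := right_ne_zero_of_mul hn
    obtain ⟨g, hg, h1⟩ := ha ha0 fun p hp hd => hP p hp (hd.mul_right b)
    obtain ⟨g', hg', h2⟩ := hb hb0 fun p hp hd => hP p hp (hd.mul_left a)
    refine ⟨g * g', Subgroup.mul_mem _ hg hg', ?_⟩
    rw [Units.val_mul, h1, h2]
    push_cast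
    rfl

theorem padic_gens {P : Finset ℕ} (hP : ∀ p ∈ P, p.Prime) {q : ℕ} [hq : Fact q.Prime] (hqP : q ∉ P)
    {g : ℚˣ} (hg : g ∈ Subgroup.closure (gens P : Set ℚˣ)) : padicValRat q (g : ℚ) = 0 := by
  classical
  induction hg using Subgroup.closure_induction with
  | mem x hx =>
    have hx' : x ∈ gens P := by exact_mod_cast hx
    obtain ⟨p, hp, h1⟩ := Finset.mem_image.1 hx'
    have hp0 : (p : ℚ) ≠ 0 := by exact_mod_cast (hP p hp).ne_zero
    rw [dif_pos hp0] at h1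
    rw [← h1, Units.val_mk0, padicValRat.of_nat]
    have h2 : padicValNat q p = 0 := by
      apply padicValNat.eq_zero_of_not_dvd
      intro hd
      have := (Nat.prime_dvd_prime_iff_eq hq.out (hP p hp)).1 hd
      exact hqP (this ▸ hp)
    rw [h2]
    rfl
  | one => simp
  | mul x y _ _ h1 h2 =>
    rw [Units.val_mul, padicValRat.mul x.ne_zero y.ne_zero, h1, h2, add_zero]
  | inv x _ h1 => rw [Units.val_inv_eq_inv_val, padicValRat.inv, h1, neg_zero]

theorem padic_23 {q : ℕ} [hq : Fact q.Prime] (a b : ℤ) :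
    padicValRat q ((2 : ℚ) ^ a * 3 ^ b) = a * padicValRat q (2 : ℚ) + b * padicValRat q (3 : ℚ) := by
  rw [padicValRat.mul (zpow_ne_zero _ two_ne_zero) (zpow_ne_zero _ three_ne_zero),
    padicValRat.zpow, padicValRat.zpow]

theorem cond2_gens {P : Finset ℕ} (hP : ∀ p ∈ P, p.Prime) (h2 : 2 ∉ P) :
    Cond2 (Subgroup.closure (gens P : Set ℚˣ)) := by
  intro g hg a b hab
  haveI : Fact (Nat.Prime 2) := ⟨Nat.prime_two⟩
  have h3 := padic_gens hP h2 hg
  rw [hab, padic_23] at h3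
  have h4 : padicValRat 2 (2 : ℚ) = 1 := by
    have := padicValRat.self (p := 2) (by norm_num)
    exact_mod_cast this
  have h5 : padicValRat 2 (3 : ℚ) = 0 := by
    have : padicValRat 2 ((3 : ℕ) : ℚ) = 0 := by
      rw [padicValRat.of_nat, padicValNat.eq_zero_of_not_dvd (by norm_num)]
      rfl
    exact_mod_cast this
  rw [h4, h5] at h3
  linarith

theorem cond3_gens {P : Finset ℕ} (hP : ∀ p ∈ P, p.Prime) (h2 : 3 ∉ P) :
    Cond3 (Subgroup.closure (gens P : Set ℚˣ)) := by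
  intro g hg a b hab
  haveI : Fact (Nat.Prime 3) := ⟨Nat.prime_three⟩
  have h3 := padic_gens hP h2 hg
  rw [hab, padic_23] at h3
  have h4 : padicValRat 3 (3 : ℚ) = 1 := by
    have := padicValRat.self (p := 3) (by norm_num)
    exact_mod_cast this
  have h5 : padicValRat 3 (2 : ℚ) = 0 := by
    have : padicValRat 3 ((2 : ℕ) : ℚ) = 0 := by
      rw [padicValRat.of_nat, padicValNat.eq_zero_of_not_dvd (by norm_num)]
      rfl
    exact_mod_cast this
  rw [h4, h5] at h3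
  linarith

/-- the coefficients -/
noncomputable def coef (D H : ℕ) : Finset ℚ := by
  classical
  exact (Finset.Icc (-(H : ℤ)) H).image fun m : ℤ => (m : ℚ) / D

theorem sums_rat {P : Finset ℕ} {D h H : ℕ} (hD : D ≠ 0) {x : ℤ}
    (hx : ∃ (m : Fin h → ℤ) (n : Fin h → ℕ), (∀ i, |m i| ≤ H ∧ n i ≠ 0 ∧
      ∀ p, p.Prime → p ∣ n i → p ∈ P) ∧ (D : ℤ) * x = ∑ i, m i * n i) :
    Sums (coef D H) (Subgroup.closure (gens P : Set ℚˣ)) h x := by
  classical
  obtain ⟨m, n, h1, h2⟩ := hx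
  refine ⟨fun i => (m i : ℚ) / D * n i, fun i => Or.inr ?_, ?_⟩
  · obtain ⟨h3, h4, h5⟩ := h1 i
    obtain ⟨g, hg, h6⟩ := mem_gens h4 h5
    exact ⟨_, Finset.mem_image.2 ⟨m i, Finset.mem_Icc.2 (abs_le.1 h3), rfl⟩, g, hg, by rw [h6]⟩
  · have hD' : (D : ℚ) ≠ 0 := by exact_mod_cast hD
    have h3 : (D : ℚ) * x = ∑ i, (m i : ℚ) * n i := by exact_mod_cast h2
    have h4 : ∑ i, (m i : ℚ) / D * n i = (∑ i, (m i : ℚ) * n i) / D := by
      rw [Finset.sum_div]
      exact Finset.sum_congr rfl fun i _ => by ring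
    rw [h4, ← h3]
    field_simp

/-! ### Fibonacci numbers -/

open Real goldenRatio in
theorem fib_pow (k : ℕ) : (φ : ℝ) ^ (k + 1) = Nat.fib (k + 1) * φ + Nat.fib k := by
  have h := Real.goldenRatio_mul_fib_succ_add_fib k
  rw [← h]
  ring

open Real goldenRatio in
theorem phi_zpow {k a b : ℤ} (h : (φ : ℝ) ^ k = 2 ^ a * 3 ^ b) : k = 0 := by
  have key : ∀ (n : ℕ) (a b : ℤ), (φ : ℝ) ^ (n + 1) ≠ 2 ^ a * 3 ^ b := by
    intro n a b h1
    rw [fib_pow] at h1
    have h2 : (Nat.fib (n + 1) : ℝ) ≠ 0 := by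
      exact_mod_cast (Nat.fib_pos.2 (Nat.succ_pos n)).ne'
    have h3 : (φ : ℝ) = (((2 : ℚ) ^ a * 3 ^ b - Nat.fib n) / Nat.fib (n + 1) : ℚ) := by
      push_cast
      rw [← h1]
      field_simp
      ring
    exact Real.goldenRatio_irrational ⟨_, h3.symm⟩
  by_contra hk
  rcases lt_or_gt_of_ne hk with h1 | h1
  · obtain ⟨n, hn⟩ : ∃ n : ℕ, k = -((n : ℤ) + 1) := ⟨(-k - 1).toNat, by omega⟩
    apply key n (-a) (-b)
    rw [hn, zpow_neg] at h
    have h2 : (φ : ℝ) ^ (n + 1) = (2 ^ a * 3 ^ b)⁻¹ := by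
      rw [← h, inv_inv]
      exact_mod_cast rfl
    rw [h2, mul_inv, ← zpow_neg, ← zpow_neg]
  · obtain ⟨n, hn⟩ : ∃ n : ℕ, k = (n : ℤ) + 1 := ⟨(k - 1).toNat, by omega⟩
    apply key n a b
    rw [hn] at h
    exact_mod_cast h

theorem two_three {a b : ℤ} (h : (1 : ℝ) = 2 ^ a * 3 ^ b) : a = 0 ∧ b = 0 := by
  have h1 : (1 : ℚ) = 2 ^ a * 3 ^ b := by
    have h2 : ((1 : ℚ) : ℝ) = ((2 ^ a * 3 ^ b : ℚ) : ℝ) := by
      push_cast
      exact h
    exact_mod_cast h2
  have hg : (1 : ℚˣ) ∈ Subgroup.closure (gens ∅ : Set ℚˣ) := Subgroup.one_mem _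
  exact ⟨cond2_gens (P := ∅) (by simp) (by simp) 1 hg a b (by simpa using h1),
    cond3_gens (P := ∅) (by simp) (by simp) 1 hg a b (by simpa using h1)⟩

end Run7.h911.SU
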