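import Pool.Agent.TH800.DM.Fi

set_option autoImplicit false

/-! # Dispersion of the gaps in slowly varying sets of indices (helper911) -/

namespace Run7.h911.SZ

open Filter Topology Finset

open Pool.Agent.TH800.MS (dlt)

lemma fin_le (N : ℕ) (P : ℕ → Prop) : {n : ℕ | 1 ≤ n ∧ n ≤ N ∧ P n}.Finite :=
  (Set.finite_Icc 1 N).subset fun _ hn => ⟨hn.1, hn.2.1⟩

/-- number of indices up to `N` with a property -/
noncomputable def ct (N : ℕ) (P : ℕ → Prop) : ℝ := ({n : ℕ | 1 ≤ n ∧ n ≤ N ∧ P n}.ncard : ℝ)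

lemma ct_nonneg (N : ℕ) (P : ℕ → Prop) : 0 ≤ ct N P := Nat.cast_nonneg _

open Classical in
lemma ct_eq (N : ℕ) (P : ℕ → Prop) : ct N P = (((Icc 1 N).filter P).card : ℝ) := by
  unfold ct
  congr 1
  rw [← Set.ncard_coe_finset]
  congr 1
  ext n
  simp only [Set.mem_ofPred_eq, coe_filter, mem_Icc]
  tauto

lemma ct_mono {N : ℕ} {P Q : ℕ → Prop} (h : ∀ n, 1 ≤ n → n ≤ N → P n → Q n) : ct N P ≤ ct N Q := by
  unfold ct
  exact Nat.cast_le.2 (Set.ncard_le_ncard (fun n hn => ⟨hn.1, hn.2.1, h n hn.1 hn.2.1 hn.2.2⟩) (fin_le N _))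

lemma ct_or (N : ℕ) (P Q : ℕ → Prop) : ct N (fun n => P n ∨ Q n) ≤ ct N P + ct N Q := by
  unfold ct
  have h : {n : ℕ | 1 ≤ n ∧ n ≤ N ∧ (P n ∨ Q n)} ⊆ {n : ℕ | 1 ≤ n ∧ n ≤ N ∧ P n} ∪ {n : ℕ | 1 ≤ n ∧ n ≤ N ∧ Q n} := by
    rintro n ⟨h1, h2, h3 | h3⟩
    · exact Or.inl ⟨h1, h2, h3⟩
    · exact Or.inr ⟨h1, h2, h3⟩
  exact_mod_cast (Set.ncard_le_ncard h ((fin_le N _).union (fin_le N _))).trans (Set.ncard_union_le _ _)

lemma ct_le (N : ℕ) (P : ℕ → Prop) : ct N P ≤ N := by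
  classical
  rw [ct_eq]
  have := card_filter_le (Icc 1 N) P
  rw [Nat.card_Icc, Nat.add_sub_cancel] at this
  exact_mod_cast this

lemma ct_shift (N m : ℕ) (P : ℕ → Prop) : ct (N + m) P ≤ ct N P + m := by
  classical
  rw [ct_eq, ct_eq]
  have h : (Icc 1 (N + m)).filter P ⊆ (Icc 1 N).filter P ∪ Ioc N (N + m) := by
    intro n hn
    rw [mem_filter, mem_Icc] at hn
    rw [mem_union, mem_filter, mem_Icc, mem_Ioc]
    rcases le_or_gt n N with h1 | h1
    · exact Or.inl ⟨⟨hn.1.1, h1⟩, hn.2⟩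
    · exact Or.inr ⟨h1, hn.1.2⟩
  have h2 := (card_le_card h).trans (card_union_le _ _)
  rw [Nat.card_Ioc, Nat.add_sub_cancel_left] at h2
  exact_mod_cast h2

open Classical in
/-- counting along the runs -/
lemma run_count (N m : ℕ) (Q R : ℕ → Prop) (x : ℝ)
    (h : ∀ n, 1 ≤ n → n ≤ N → R n → x ≤ ∑ i ∈ range m, (if Q (n + i) then (1 : ℝ) else 0)) :
    x * ct N R ≤ m * ct (N + m) Q := by
  rw [ct_eq, ct_eq]
  calc x * (((Icc 1 N).filter R).card : ℝ) = ∑ n ∈ (Icc 1 N).filter R, x := by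
        rw [sum_const, nsmul_eq_mul, mul_comm]
    _ ≤ ∑ n ∈ (Icc 1 N).filter R, ∑ i ∈ range m, (if Q (n + i) then (1 : ℝ) else 0) := by
        refine sum_le_sum fun n hn => ?_
        rw [mem_filter, mem_Icc] at hn
        exact h n hn.1.1 hn.1.2 hn.2
    _ ≤ ∑ n ∈ Icc 1 N, ∑ i ∈ range m, (if Q (n + i) then (1 : ℝ) else 0) := by
        refine sum_le_sum_of_subset_of_nonneg (filter_subset _ _) fun n _ _ => ?_
        exact sum_nonneg fun i _ => by split_ifs <;> norm_num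
    _ = ∑ i ∈ range m, ∑ n ∈ Icc 1 N, (if Q (n + i) then (1 : ℝ) else 0) := sum_comm
    _ ≤ ∑ i ∈ range m, (((Icc 1 (N + m)).filter Q).card : ℝ) := by
        refine sum_le_sum fun i hi => ?_
        rw [mem_range] at hi
        rw [← sum_filter, sum_const, nsmul_eq_mul, mul_one]
        refine Nat.cast_le.2 ?_
        refine card_le_card_of_injOn (fun n => n + i) ?_ ?_
        · intro n hn
          rw [mem_coe, mem_filter, mem_Icc] at hn
          rw [mem_coe, mem_filter, mem_Icc]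
          refine ⟨⟨?_, ?_⟩, hn.2⟩
          · show 1 ≤ n + i
            omega
          · show n + i ≤ N + m
            omega
        · intro n _ n' _ hnn
          simpa using hnn
    _ = m * (((Icc 1 (N + m)).filter Q).card : ℝ) := by rw [sum_const, card_range, nsmul_eq_mul]

/-- `A` varies slowly into `B`: for every fixed `m`, for almost all `n ∈ A` the indices
`n, n + 1, …, n + m - 1` lie in `B` -/
def Slow (A B : Set ℕ) : Prop := ∀ (m : ℕ) (ε : ℝ), 0 < ε → ∃ N0 : ℕ, ∀ N : ℕ, N0 ≤ N →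
  ({n : ℕ | 1 ≤ n ∧ n ≤ N ∧ n ∈ A ∧ ∃ i < m, n + i ∉ B}.ncard : ℝ) ≤ ε * N

/-- one kind of gaps -/
lemma one_kind {C c : ℝ} (hC : 0 < C) (hc : 0 < c) (hc1 : c ≤ 1 / 10) (Q : ℕ → Prop)
    (h : ∀ N : ℕ, 2 ≤ N → ∀ m : ℕ, 1 ≤ m →
      ct N (fun n => ∑ i ∈ range m, (@ite ℝ (Q (n + i)) (Classical.propDecidable _) 1 0) ≤ c * m) ≤
        C * (N * (1 / m + 1 / Real.log N)))
    {A B : Set ℕ} (hS : Slow A B) (ε : ℝ) (hε : 0 < ε) : ∃ N0 : ℕ, ∀ N : ℕ, N0 ≤ N →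
    c * ct N (fun n => n ∈ A) - ε * N ≤ ct N (fun n => n ∈ B ∧ Q n) := by
  classical
  obtain ⟨m, hm1, hm⟩ : ∃ m : ℕ, 1 ≤ m ∧ 4 * C / ε ≤ m := by
    obtain ⟨m, hm⟩ := exists_nat_ge (4 * C / ε)
    exact ⟨m + 1, by omega, hm.trans (by push_cast; linarith)⟩
  have hm0 : (0 : ℝ) < m := by exact_mod_cast hm1
  obtain ⟨N1, hN1⟩ := hS m (ε / 4) (by positivity)
  have hl : ∀ᶠ N : ℕ in atTop, 4 * C / ε + 1 ≤ Real.log N :=
    (Real.tendsto_log_atTop.comp tendsto_natCast_atTop_atTop).eventually_ge_atTop _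
  obtain ⟨N2, hN2⟩ := hl.exists_forall_of_atTop
  obtain ⟨N3, hN3⟩ := exists_nat_ge (4 * (m : ℝ) / ε)
  refine ⟨max (max N1 N2) (max N3 2) + m, fun N hN => ?_⟩
  obtain ⟨M, rfl⟩ : ∃ M : ℕ, N = M + m := ⟨N - m, by omega⟩
  have hM : max (max N1 N2) (max N3 2) ≤ M := by omega
  have hM1 : N1 ≤ M := ((le_max_left _ _).trans (le_max_left _ _)).trans hM
  have hM2 : N2 ≤ M := ((le_max_right _ _).trans (le_max_left _ _)).trans hM
  have hM3 : N3 ≤ M := ((le_max_left _ _).trans (le_max_right _ _)).trans hM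
  have hM4 : 2 ≤ M := ((le_max_right _ _).trans (le_max_right _ _)).trans hM
  have k1 : ct M (fun n => n ∈ A ∧ ∃ i < m, n + i ∉ B) ≤ ε / 4 * M := hN1 M hM1
  have k2 := h M hM4 m hm1
  have k3 := hN2 M hM2
  set bad : ℕ → Prop := fun n => ∑ i ∈ range m, (@ite ℝ (Q (n + i)) (Classical.propDecidable _) 1 0) ≤ c * m
    with hbad
  have hM0 : (0 : ℝ) < M := by
    have : (2 : ℝ) ≤ M := by exact_mod_cast hM4
    linarith
  -- the good indices
  have k4 : ct M (fun n => n ∈ A) ≤ ct M (fun n => n ∈ A ∧ (∀ i < m, n + i ∈ B) ∧ ¬ bad n) +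
      (ct M (fun n => n ∈ A ∧ ∃ i < m, n + i ∉ B) + ct M bad) := by
    refine le_trans (ct_mono (Q := fun n => (n ∈ A ∧ (∀ i < m, n + i ∈ B) ∧ ¬ bad n) ∨
      ((n ∈ A ∧ ∃ i < m, n + i ∉ B) ∨ bad n)) fun n _ _ hn => ?_) ?_
    · by_cases h1 : bad n
      · exact Or.inr (Or.inr h1)
      · by_cases h2 : ∀ i < m, n + i ∈ B
        · exact Or.inl ⟨hn, h2, h1⟩
        · push Not at h2
          exact Or.inr (Or.inl ⟨hn, h2⟩)
    · exact (ct_or _ _ _).trans (add_le_add le_rfl (ct_or _ _ _))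
  have k5 := run_count M m (fun n => n ∈ B ∧ Q n)
    (fun n => n ∈ A ∧ (∀ i < m, n + i ∈ B) ∧ ¬ bad n) (c * m) (fun n _ _ hn => by
      obtain ⟨h1, h2, h3⟩ := hn
      have h4 : c * m < ∑ i ∈ range m, (@ite ℝ (Q (n + i)) (Classical.propDecidable _) 1 0) := not_le.1 h3
      refine h4.le.trans (le_of_eq (sum_congr rfl fun i hi => ?_))
      have := h2 i (mem_range.1 hi)
      by_cases hq : Q (n + i)
      · simp [hq, this]
      · simp [hq])
  have k6 : c * ct M (fun n => n ∈ A ∧ (∀ i < m, n + i ∈ B) ∧ ¬ bad n) ≤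
      ct (M + m) (fun n => n ∈ B ∧ Q n) := by
    have : m * (c * ct M (fun n => n ∈ A ∧ (∀ i < m, n + i ∈ B) ∧ ¬ bad n)) ≤
        m * ct (M + m) (fun n => n ∈ B ∧ Q n) := by linarith
    exact le_of_mul_le_mul_left this hm0
  have k7 := ct_shift M m (fun n => n ∈ A)
  -- numbers
  have e1 : C * (M * (1 / m + 1 / Real.log M)) ≤ ε / 2 * M := by
    have hC1 : C * (1 / (m : ℝ)) ≤ ε / 4 := by
      rw [mul_one_div, div_le_iff₀ hm0]
      rw [div_le_iff₀ hε] at hm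
      linarith
    have hpos : 0 < 4 * C / ε := by positivity
    have hC2 : C * (1 / Real.log M) ≤ ε / 4 := by
      rw [mul_one_div, div_le_iff₀ (by linarith)]
      have : 4 * C / ε ≤ Real.log M := by linarith
      rw [div_le_iff₀ hε] at this
      linarith
    calc C * (M * (1 / m + 1 / Real.log M)) = (C * (1 / (m : ℝ)) + C * (1 / Real.log M)) * M := by ring
      _ ≤ (ε / 4 + ε / 4) * M := by gcongr
      _ = _ := by ring
  have e2 : (m : ℝ) ≤ ε / 4 * M := by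
    have h1 : (N3 : ℝ) ≤ M := by exact_mod_cast hM3
    have h2 := hN3.trans h1
    rw [div_le_iff₀ hε] at h2
    linarith
  have k2' : ct M bad ≤ C * (M * (1 / m + 1 / Real.log M)) := k2
  have e3 : c * ct (M + m) (fun n => n ∈ A) ≤ c * (ct M (fun n => n ∈ A ∧ (∀ i < m, n + i ∈ B) ∧ ¬ bad n) +
      (ε / 4 * M + ε / 2 * M) + m) := by
    apply mul_le_mul_of_nonneg_left _ hc.le
    linarith
  have e4 : c * ((ε / 4 * M + ε / 2 * M) + m) ≤ 1 * (ε * M) := by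
    apply mul_le_mul (by linarith) _ (by positivity) zero_le_one
    linarith
  push_cast
  have e5 : 0 ≤ ε * m := by positivity
  nlinarith

/-- **dispersion in slowly varying sets of indices** -/
theorem gen (RH : RiemannHypothesis) : ∃ c : ℝ, 0 < c ∧ c ≤ 1 / 10 ∧ ∀ A B : Set ℕ, Slow A B →
    ∀ ε : ℝ, 0 < ε → ∃ N0 : ℕ, ∀ N : ℕ, N0 ≤ N →
      c * ct N (fun n => n ∈ A) - ε * N ≤ ct N (fun n => n ∈ B ∧ dlt n < 1 - c) ∧
      c * ct N (fun n => n ∈ A) - ε * N ≤ ct N (fun n => n ∈ B ∧ 1 + c < dlt n) := by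
  classical
  obtain ⟨C, c, hC, hc, hc1, h⟩ := Pool.Agent.TH800.DM.final RH
  refine ⟨c, hc, hc1, fun A B hS ε hε => ?_⟩
  obtain ⟨Na, ha⟩ := one_kind hC hc hc1 (fun n => dlt n < 1 - c) (fun N hN m hm => by
    refine le_trans (ct_mono fun n _ _ hn => ?_) (h N hN m hm)
    left
    refine le_trans (le_of_eq (sum_congr rfl fun i _ => ?_)) hn
    unfold Pool.Agent.TH800.DM.sm
    split_ifs <;> rfl) hS ε hε
  obtain ⟨Nb, hb⟩ := one_kind hC hc hc1 (fun n => 1 + c < dlt n) (fun N hN m hm => by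
    refine le_trans (ct_mono fun n _ _ hn => ?_) (h N hN m hm)
    right
    refine le_trans (le_of_eq (sum_congr rfl fun i _ => ?_)) hn
    unfold Pool.Agent.TH800.DM.lg
    split_ifs <;> rfl) hS ε hε
  exact ⟨max Na Nb, fun N hN => ⟨ha N ((le_max_left _ _).trans hN), hb N ((le_max_right _ _).trans hN)⟩⟩

end Run7.h911.SZ
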