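import Mathlib

set_option autoImplicit false

/-! # Elementary lemmas for the size classes (helper911) -/

namespace Run7.h911.SZ

open Filter Topology MeasureTheory Set

lemma strip_meas (α β : ℝ) : MeasurableSet {q : ℝ × ℝ | q.1 - α ≤ q.2 ∧ q.2 ≤ q.1 + β} := by
  have h1 : IsClosed {q : ℝ × ℝ | q.1 - α ≤ q.2} := isClosed_le (by fun_prop) (by fun_prop)
  have h2 : IsClosed {q : ℝ × ℝ | q.2 ≤ q.1 + β} := isClosed_le (by fun_prop) (by fun_prop)
  exact (h1.inter h2).measurableSet

/-- the overlap of a set with a moving window, integrated -/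
lemma overlap {X : Set ℝ} (hX : MeasurableSet X) (α β : ℝ) :
    ∫⁻ t : ℝ, volume (X ∩ Icc (t - α) (t + β)) ≤ ENNReal.ofReal (α + β) * volume X := by
  have h1 : ∀ t : ℝ, volume (X ∩ Icc (t - α) (t + β)) =
      ∫⁻ x : ℝ, X.indicator (fun _ => (1 : ENNReal)) x *
        ({q : ℝ × ℝ | q.1 - α ≤ q.2 ∧ q.2 ≤ q.1 + β}.indicator (fun _ => (1 : ENNReal)) (t, x)) := by
    intro t
    rw [← lintegral_indicator_one (hX.inter measurableSet_Icc)]
    refine lintegral_congr fun x => ?_
    by_cases h1 : x ∈ X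
    · by_cases h2 : x ∈ Icc (t - α) (t + β)
      · rw [indicator_of_mem (show x ∈ X ∩ Icc (t - α) (t + β) from ⟨h1, h2⟩), indicator_of_mem h1,
          indicator_of_mem (show (t, x) ∈ {q : ℝ × ℝ | q.1 - α ≤ q.2 ∧ q.2 ≤ q.1 + β} from h2)]
        simp
      · rw [indicator_of_notMem (fun h => h2 h.2), indicator_of_notMem (s := {q : ℝ × ℝ | q.1 - α ≤ q.2 ∧ q.2 ≤ q.1 + β})
          (show (t, x) ∉ {q : ℝ × ℝ | q.1 - α ≤ q.2 ∧ q.2 ≤ q.1 + β} from h2), mul_zero]
    · rw [indicator_of_notMem (fun h => h1 h.1), indicator_of_notMem h1, zero_mul]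
  have hm := strip_meas α β
  simp_rw [h1]
  rw [lintegral_lintegral_swap]
  swap
  · refine Measurable.aemeasurable ?_
    refine Measurable.mul ?_ ?_
    · exact (measurable_const.indicator hX).comp measurable_snd
    · exact measurable_const.indicator hm
  have h2 : ∀ x : ℝ, ∫⁻ t : ℝ, X.indicator (fun _ => (1 : ENNReal)) x *
        ({q : ℝ × ℝ | q.1 - α ≤ q.2 ∧ q.2 ≤ q.1 + β}.indicator (fun _ => (1 : ENNReal)) (t, x)) =
      X.indicator (fun _ => (1 : ENNReal)) x * ENNReal.ofReal (α + β) := by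
    intro x
    rw [lintegral_const_mul]
    · congr 1
      have e1 : ∀ t : ℝ, {q : ℝ × ℝ | q.1 - α ≤ q.2 ∧ q.2 ≤ q.1 + β}.indicator (fun _ => (1 : ENNReal)) (t, x) =
          (Icc (x - β) (x + α)).indicator (fun _ => (1 : ENNReal)) t := by
        intro t
        by_cases h : t ∈ Icc (x - β) (x + α)
        · rw [indicator_of_mem h, indicator_of_mem]
          exact ⟨by linarith [h.2], by linarith [h.1]⟩
        · rw [indicator_of_notMem h, indicator_of_notMem]
          intro h3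
          exact h ⟨by linarith [h3.2], by linarith [h3.1]⟩
      simp_rw [e1]
      rw [lintegral_indicator_const measurableSet_Icc, one_mul, Real.volume_Icc]
      congr 1; ring
    · exact (measurable_const.indicator hm).comp (by fun_prop : Measurable fun t : ℝ => (t, x))
  simp_rw [h2]
  rw [lintegral_mul_const _ (measurable_const.indicator hX), lintegral_indicator_const hX, one_mul, mul_comm]

/-- few points with large overlap -/
lemma overlap_few {X : Set ℝ} (hX : MeasurableSet X) {α β κ : ℝ} (hαβ : 0 ≤ α + β) (hκ : 0 < κ) {v : ℝ} (hv : 0 ≤ v)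
    (hXv : volume X ≤ ENNReal.ofReal v) :
    volume {t : ℝ | ENNReal.ofReal κ ≤ volume (X ∩ Icc (t - α) (t + β))} ≤ ENNReal.ofReal ((α + β) * v / κ) := by
  have h1 := mul_meas_ge_le_lintegral₀ (μ := volume) (f := fun t : ℝ => volume (X ∩ Icc (t - α) (t + β))) (by
    refine Measurable.aemeasurable ?_
    have hm : MeasurableSet {q : ℝ × ℝ | q.2 ∈ X ∧ (q.1 - α ≤ q.2 ∧ q.2 ≤ q.1 + β)} :=
      (measurable_snd hX).inter (strip_meas α β)
    exact measurable_measure_prodMk_left hm) (ENNReal.ofReal κ)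
  have h2 := h1.trans (overlap hX α β)
  have h3 : ENNReal.ofReal κ * volume {t : ℝ | ENNReal.ofReal κ ≤ volume (X ∩ Icc (t - α) (t + β))} ≤
      ENNReal.ofReal ((α + β) * v) := by
    refine h2.trans ?_
    rw [ENNReal.ofReal_mul hαβ]
    gcongr
  rw [ENNReal.ofReal_div_of_pos hκ, ENNReal.le_div_iff_mul_le (Or.inl (by simpa using hκ))
    (Or.inl ENNReal.ofReal_ne_top), mul_comm]
  exact h3

/-- the bump function -/
noncomputable def gf (a b θ x : ℝ) : ℝ := max 0 (min 1 (min ((x - a) / θ) ((b - x) / θ)))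

lemma gf_nonneg (a b θ x : ℝ) : 0 ≤ gf a b θ x := le_max_left _ _

lemma gf_le (a b θ x : ℝ) : gf a b θ x ≤ 1 := max_le zero_le_one (min_le_left _ _)

lemma gf_cont (a b θ : ℝ) : Continuous (gf a b θ) := by
  unfold gf; fun_prop

lemma gf_one {a b θ x : ℝ} (hθ : 0 < θ) (h1 : a + θ ≤ x) (h2 : x ≤ b - θ) : gf a b θ x = 1 := by
  unfold gf
  have h3 : 1 ≤ (x - a) / θ := by rw [le_div_iff₀ hθ]; linarith
  have h4 : 1 ≤ (b - x) / θ := by rw [le_div_iff₀ hθ]; linarith
  rw [min_eq_left (le_min h3 h4), max_eq_right zero_le_one]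

lemma gf_pos {a b θ x : ℝ} (hθ : 0 < θ) (h : 0 < gf a b θ x) : a < x ∧ x < b := by
  unfold gf at h
  rcases lt_max_iff.1 h with h1 | h1
  · exact absurd h1 (lt_irrefl _)
  · obtain ⟨-, h2⟩ := lt_min_iff.1 h1
    obtain ⟨h3, h4⟩ := lt_min_iff.1 h2
    have h5 := (div_pos_iff_of_pos_right hθ).1 h3
    have h6 := (div_pos_iff_of_pos_right hθ).1 h4
    constructor <;> linarith

lemma abs_max_zero (x y : ℝ) : |max 0 x - max 0 y| ≤ |x - y| := by
  rcases le_total 0 x with h1 | h1 <;> rcases le_total 0 y with h2 | h2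
  · rw [max_eq_right h1, max_eq_right h2]
  · rw [max_eq_right h1, max_eq_left h2, sub_zero, abs_of_nonneg h1, abs_of_nonneg (by linarith)]
    linarith
  · rw [max_eq_left h1, max_eq_right h2, zero_sub, abs_neg, abs_of_nonneg h2, abs_of_nonpos (by linarith)]
    linarith
  · rw [max_eq_left h1, max_eq_left h2, sub_self, abs_zero]; positivity

lemma abs_min_le (x y u v : ℝ) (D : ℝ) (h1 : |x - u| ≤ D) (h2 : |y - v| ≤ D) : |min x y - min u v| ≤ D := by
  rw [abs_le] at h1 h2 ⊢
  rcases le_total x y with h3 | h3 <;> rcases le_total u v with h4 | h4 <;>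
    simp only [min_eq_left, min_eq_right, h3, h4] <;> constructor <;> linarith [h1.1, h1.2, h2.1, h2.2]

lemma gf_lip {a b θ : ℝ} (hθ : 0 < θ) (x y : ℝ) : |gf a b θ x - gf a b θ y| ≤ |x - y| / θ := by
  unfold gf
  refine (abs_max_zero _ _).trans ?_
  have h0 : 0 ≤ |x - y| / θ := by positivity
  refine abs_min_le _ _ _ _ _ (by rw [sub_self, abs_zero]; exact h0) ?_
  refine abs_min_le _ _ _ _ _ ?_ ?_
  · rw [← sub_div, abs_div, abs_of_pos hθ, sub_sub_sub_cancel_right]
  · rw [← sub_div, abs_div, abs_of_pos hθ, sub_sub_sub_cancel_left, abs_sub_comm]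

/-- `log log` in a dyadic block -/
lemma ll_block {T t : ℝ} (hL : 1 ≤ Real.log T) (hT : 0 < T) (h1 : T ≤ t) (h2 : t ≤ 2 * T) :
    0 ≤ Real.log (Real.log t) - Real.log (Real.log T) ∧
      Real.log (Real.log t) - Real.log (Real.log T) ≤ 1 / Real.log T := by
  have hL0 : 0 < Real.log T := by linarith
  have hlt1 : Real.log T ≤ Real.log t := Real.log_le_log hT h1
  have hlt2 : Real.log t ≤ Real.log T + 1 := by
    have h4 := Real.log_le_log (by linarith) h2
    rw [Real.log_mul (by norm_num) hT.ne'] at h4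
    have := Real.log_two_lt_d9
    linarith
  constructor
  · have := Real.log_le_log hL0 hlt1
    linarith
  · have h5 : Real.log (Real.log t) ≤ Real.log (Real.log T + 1) := Real.log_le_log (by linarith) hlt2
    have h6 : Real.log (Real.log T + 1) = Real.log (Real.log T) + Real.log (1 + 1 / Real.log T) := by
      rw [← Real.log_mul hL0.ne' (by positivity)]
      congr 1
      field_simp
    have h7 := Real.log_le_sub_one_of_pos (show (0 : ℝ) < 1 + 1 / Real.log T by positivity)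
    linarith

/-- comparison of the two normalisations -/
lemma cmp {a a' b b' : ℝ} (ha : a < a') (hb : b' < b) : ∃ η : ℝ, 0 < η ∧ ∀ W : ℝ, 0 < W → ∀ᶠ T : ℝ in atTop,
    ∀ t : ℝ, T ≤ t → t ≤ 2 * T → ∀ l p : ℝ, |l - p| ≤ W + η * Real.sqrt (Real.log (Real.log T)) →
      ((a' < Real.sqrt 2 * (p / Real.sqrt (Real.log (Real.log T))) →
        Real.sqrt 2 * (p / Real.sqrt (Real.log (Real.log T))) < b' →
        a < Real.sqrt 2 * (l / Real.sqrt (Real.log (Real.log t))) ∧
          Real.sqrt 2 * (l / Real.sqrt (Real.log (Real.log t))) < b) ∧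
      (a' < Real.sqrt 2 * (l / Real.sqrt (Real.log (Real.log t))) →
        Real.sqrt 2 * (l / Real.sqrt (Real.log (Real.log t))) < b' →
        a < Real.sqrt 2 * (p / Real.sqrt (Real.log (Real.log T))) ∧
          Real.sqrt 2 * (p / Real.sqrt (Real.log (Real.log T))) < b)) := by
  obtain ⟨m, hm⟩ : ∃ m, m = min (a' - a) (b - b') := ⟨_, rfl⟩
  have hm0 : 0 < m := by rw [hm, lt_min_iff]; constructor <;> linarith
  have hma : m ≤ a' - a := by rw [hm]; exact min_le_left _ _
  have hmb : m ≤ b - b' := by rw [hm]; exact min_le_right _ _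
  obtain ⟨η, hη⟩ : ∃ η, η = m / 16 := ⟨_, rfl⟩
  have hη0 : 0 < η := by rw [hη]; positivity
  obtain ⟨R, hR⟩ : ∃ R, R = |a'| + |b'| + 1 + m := ⟨_, rfl⟩
  have hR0 : 0 < R := by rw [hR]; positivity
  refine ⟨η, hη0, fun W hW => ?_⟩
  have hll : Tendsto (fun T : ℝ => Real.log (Real.log T)) atTop atTop :=
    Real.tendsto_log_atTop.comp Real.tendsto_log_atTop
  filter_upwards [hll.eventually_ge_atTop (max 1 ((W / η) ^ 2)),
    Real.tendsto_log_atTop.eventually_ge_atTop (8 * R / m + 2), eventually_ge_atTop 10] with T h1 h2 h3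
  intro t ht1 ht2 l p hlp
  have hT0 : 0 < T := by linarith
  have hL2 : 2 ≤ Real.log T := by
    have : 0 ≤ 8 * R / m := by positivity
    linarith
  obtain ⟨g1, g2⟩ := ll_block (by linarith) hT0 ht1 ht2
  obtain ⟨L, hL⟩ : ∃ L, L = Real.log T := ⟨_, rfl⟩
  rw [← hL] at g1 g2 h1 h2 hL2 hlp ⊢
  obtain ⟨e, he⟩ : ∃ e, e = Real.log L := ⟨_, rfl⟩
  obtain ⟨e', he'⟩ : ∃ e', e' = Real.log (Real.log t) := ⟨_, rfl⟩
  rw [← he, ← he'] at g1 g2
  rw [← he] at h1 hlp
  rw [← he, ← he']
  have he1 : 1 ≤ e := (le_max_left _ _).trans h1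
  obtain ⟨S, hS⟩ : ∃ S, S = Real.sqrt e := ⟨_, rfl⟩
  obtain ⟨S', hS'⟩ : ∃ S', S' = Real.sqrt e' := ⟨_, rfl⟩
  rw [← hS] at hlp
  rw [← hS, ← hS']
  have hS1 : 1 ≤ S := by rw [hS, Real.one_le_sqrt]; exact he1
  have hSS : S ≤ S' := by rw [hS, hS']; exact Real.sqrt_le_sqrt (by linarith)
  have hS0 : 0 < S := by linarith
  have hS0' : 0 < S' := by linarith
  have hsq : S ^ 2 = e := by rw [hS]; exact Real.sq_sqrt (by linarith)
  have hsq' : S' ^ 2 = e' := by rw [hS']; exact Real.sq_sqrt (by linarith)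
  have hWS : W / η ≤ S := by
    rw [hS]
    exact Real.le_sqrt_of_sq_le ((le_max_right _ _).trans h1)
  have hs2 : Real.sqrt 2 ≤ 3 / 2 := by
    rw [Real.sqrt_le_left (by norm_num)]; norm_num
  have hs20 := Real.sqrt_nonneg 2
  obtain ⟨x, hx⟩ : ∃ x, x = Real.sqrt 2 * (l / S) := ⟨_, rfl⟩
  obtain ⟨y, hy⟩ : ∃ y, y = Real.sqrt 2 * (p / S) := ⟨_, rfl⟩
  obtain ⟨z, hz⟩ : ∃ z, z = Real.sqrt 2 * (l / S') := ⟨_, rfl⟩
  rw [← hy, ← hz]
  have hxy : |x - y| ≤ 3 * η := by
    rw [hx, hy, ← mul_sub, ← sub_div, abs_mul, abs_of_nonneg hs20, abs_div, abs_of_pos hS0]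
    have h4 : |l - p| / S ≤ 2 * η := by
      rw [div_le_iff₀ hS0]
      rw [div_le_iff₀ hη0] at hWS
      linarith
    calc Real.sqrt 2 * (|l - p| / S) ≤ 3 / 2 * (2 * η) := mul_le_mul hs2 h4 (by positivity) (by norm_num)
      _ = 3 * η := by ring
  have hzx : z = x * (S / S') := by
    rw [hz, hx]; field_simp
  have hr0 : 0 ≤ (S' - S) / S' := div_nonneg (by linarith) hS0'.le
  have hr1 : (S' - S) / S' ≤ 1 / L := by
    have h4 : (S' - S) / S' ≤ e' - e := by
      rw [div_le_iff₀ hS0']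
      nlinarith
    exact h4.trans g2
  have hL8 : 1 / L ≤ m / (8 * R) := by
    have h5 : 8 * R / m ≤ L := by linarith
    rw [div_le_iff₀ hm0] at h5
    rw [div_le_div_iff₀ (by linarith) (by positivity)]
    linarith
  have hxz : |x - z| ≤ |x| * (1 / L) := by
    have e1 : x - z = x * ((S' - S) / S') := by rw [hzx]; field_simp
    rw [e1, abs_mul, abs_of_nonneg hr0]
    exact mul_le_mul_of_nonneg_left hr1 (abs_nonneg _)
  have hxz2 : |x - z| ≤ 2 * |z| * (1 / L) := by
    refine hxz.trans ?_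
    have h6 : |x| ≤ 2 * |z| := by
      have h7 : 1 / L ≤ 1 / 2 := one_div_le_one_div_of_le (by norm_num) hL2
      have h8 : |x| ≤ |z| + |x - z| := by
        have := abs_add_le z (x - z)
        rw [add_sub_cancel] at this
        exact this
      have h9 : |x| * (1 / L) ≤ |x| * (1 / 2) := mul_le_mul_of_nonneg_left h7 (abs_nonneg _)
      linarith
    exact mul_le_mul_of_nonneg_right h6 (by positivity)
  have key : ∀ w : ℝ, a' < w → w < b' → |w| ≤ R - 1 - m := by
    intro w w1 w2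
    rw [hR, abs_le]
    constructor
    · linarith [neg_abs_le a', abs_nonneg b']
    · linarith [le_abs_self b', abs_nonneg a']
  constructor
  · intro y1 y2
    have h4 := key y y1 y2
    have h5 : |x| ≤ R := by
      have : |x| ≤ |y| + |x - y| := by
        have := abs_add_le y (x - y)
        rw [add_sub_cancel] at this
        exact this
      linarith
    have h6 : |x - z| ≤ m / 8 := by
      refine hxz.trans ((mul_le_mul h5 hL8 (by positivity) hR0.le).trans (le_of_eq ?_))
      field_simp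
    have h7 := abs_le.1 h6
    have h8 := abs_le.1 hxy
    constructor <;> linarith [h7.1, h7.2, h8.1, h8.2]
  · intro z1 z2
    have h4 := key z z1 z2
    have h6 : |x - z| ≤ m / 4 := by
      refine hxz2.trans ?_
      calc 2 * |z| * (1 / L) ≤ 2 * R * (m / (8 * R)) := by
            apply mul_le_mul (by linarith) hL8 (by positivity) (by positivity)
        _ = m / 4 := by field_simp; norm_num
    have h7 := abs_le.1 h6
    have h8 := abs_le.1 hxy
    constructor <;> linarith [h7.1, h7.2, h8.1, h8.2]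

end Run7.h911.SZ
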