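import Pool.Agent.Run7.h911.SZ2
import Pool.Agent.R320.JL.Palm
import Pool.Agent.R320.VQ.Var
import Pool.Agent.Y895.SW.BVDX
import Pool.Agent.Y141.SW.DerMain
import Pool.Agent.Y275.SW.Ind
import Pool.Agent.Y840.SW.MVB
import Pool.Agent.Y655.SW.MC
import Pool.Agent.Y41.SW.FM
import Pool.Agent.Y498.SW.TI
import Pool.Agent.Y586.SW.GM

set_option autoImplicit false

/-! # Few bad indices, and the size of the small primes at the zeros (helper911) -/

namespace Run7.h911.SZ

open Filter Topology MeasureTheory Set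
open Pool.Agent.Y745.SW (Px SB)
open SG (ord NZ)
open SP (RHs)
open Pool.Agent.Y743.NC (dev dev_nonneg dev_int)

noncomputable section

theorem a_FM : Pool.Agent.Y745.SW.P_FM := Pool.Agent.Y41.SW.t_FM Pool.Agent.Y840.SW.t_MVB Pool.Agent.Y655.SW.t_MC

theorem a_TI : Pool.Agent.Y745.SW.P_TI := Pool.Agent.Y498.SW.t_TI Pool.Agent.Y840.SW.t_MVB Pool.Agent.Y655.SW.t_MC

theorem a_IND : Pool.Agent.Y745.SW.P_IND := Pool.Agent.Y275.SW.t_IND a_FM a_TI Pool.Agent.Y586.SW.t_GM

/-- the Gaussian measure of an interval -/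
def G01 (a b : ℝ) : ℝ := (ProbabilityTheory.gaussianReal 0 1).real (Set.Ioo a b)

lemma G01_nonneg (a b : ℝ) : 0 ≤ G01 a b := measureReal_nonneg

lemma G01_le (a b : ℝ) : G01 a b ≤ 1 := measureReal_le_one

/-- the Gaussian law of the sum over the small primes -/
theorem law_px {a b δ : ℝ} (hab : a < b) (hδ : 0 < δ) : ∀ᶠ T : ℝ in atTop, MeasurableSet (SB a b T) ∧
    |volume.real (SB a b T) - T * G01 a b| ≤ δ * T := by
  have h := a_IND (fun _ => 0) continuous_const (fun _ _ => le_rfl) (fun _ => 0) continuous_const (fun _ => 0)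
    (fun n => by simp [ArithmeticFunction.vonMangoldt_nonneg]) (1 / 4) (1 / 16) (1 / 2) (by norm_num) (by norm_num)
    (by norm_num) (by norm_num) (by norm_num) (by norm_num)
    ⟨0, Filter.Eventually.of_forall fun T => by simp [Pool.Agent.Y745.SW.Zq]⟩ a b δ hab hδ
  filter_upwards [h] with T hT
  exact ⟨hT.1, hT.2.1⟩

/-- the normalised sum over the small primes -/
def yp (T t : ℝ) : ℝ := Real.sqrt 2 * ((Px T t).re / Real.sqrt (Real.log (Real.log T)))

/-- a good exceptional set for the block of the heights `[T, 2T]` -/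
structure Bk (T K η W : ℝ) (X : Set ℝ) : Prop where
  meas : MeasurableSet X
  bv : ∀ t ∈ Icc T (2 * T), t ∉ X → ∀ u : ℝ, |u| ≤ K / Real.log T → ‖Px T (t + u) - Px T t‖ ≤ 1
  lg : ∀ t ∈ Icc T (2 * T), t ∉ X → ∀ u : ℝ, |u| ≤ 1 / Real.log T →
    |Real.log ‖riemannZeta (1 / 2 + t * Complex.I)‖ - (Px T (t + u)).re| ≤
      W + η * Real.sqrt (Real.log (Real.log T))

theorem exX (K η ε : ℝ) (hK : 0 < K) (hη : 0 < η) (hε : 0 < ε) : ∃ W : ℝ, 0 < W ∧ ∀ᶠ T : ℝ in atTop,
    ∃ X : Set ℝ, volume X ≤ ENNReal.ofReal (ε * T) ∧ Bk T K η W X := by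
  obtain ⟨W, hW, h⟩ := Pool.Agent.Y141.SW.exc Pool.Agent.Y895.SW.t_BV Pool.Agent.Y895.SW.t_DX
    Pool.Agent.Y141.SW.ll η (ε / 2) hη (by positivity)
  refine ⟨W, hW, ?_⟩
  filter_upwards [h, Pool.Agent.Y895.SW.t_BV K (ε / 2) hK (by positivity), eventually_gt_atTop 0] with T h1 h2 h3
  obtain ⟨X0, hX0, hX⟩ := h1
  obtain ⟨Bd, hBm, hB1, hB2, hB3⟩ := h2
  refine ⟨toMeasurable volume X0 ∪ Bd, ?_, ⟨(measurableSet_toMeasurable _ _).union hBm, ?_, ?_⟩⟩
  · refine (measure_union_le _ _).trans ?_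
    rw [measure_toMeasurable]
    have hBf : volume Bd ≠ ⊤ := ne_top_of_le_ne_top (by simp) (measure_mono hB1)
    have h4 : volume Bd ≤ ENNReal.ofReal (ε / 2 * T) := by
      rw [← ENNReal.ofReal_toReal hBf]
      exact ENNReal.ofReal_le_ofReal hB2
    refine (add_le_add hX0 h4).trans ?_
    rw [← ENNReal.ofReal_add (by positivity) (by positivity)]
    exact ENNReal.ofReal_le_ofReal (by linarith)
  · intro t ht htX u hu
    exact hB3 t ht (fun hb => htX (Or.inr hb)) u hu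
  · intro t ht htX u hu
    exact (hX t ht (fun hb => htX (Or.inl (subset_toMeasurable _ _ hb)))).2 u hu

/-- the window of an index -/
def vn (n : ℕ) : Set ℝ := Icc (ord n - 1 / Real.log (ord n)) (ord n + 1 / Real.log (ord n))

/-- the window of the index meets the exceptional set in more than a tenth -/
def bad (X : Set ℝ) (n : ℕ) : Prop := ENNReal.ofReal (1 / 10 * (2 / Real.log (ord n))) < volume (X ∩ vn n)

/-- choice of the length of the windows -/
lemma chM (C ε : ℝ) (hC : 0 < C) (hε : 0 < ε) : ∃ M : ℝ, 1 ≤ M ∧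
    2 / M * (1 + C * (1 + Real.log (1 + M))) ≤ ε := by
  obtain ⟨y, hy⟩ : ∃ y, y = 2 + 3 * (1 + 3 * C) / ε := ⟨_, rfl⟩
  have h0 : 0 < 3 * (1 + 3 * C) / ε := by positivity
  have hy2 : 2 ≤ y := by linarith
  have hM : 3 ≤ y ^ 2 - 1 := by nlinarith
  refine ⟨y ^ 2 - 1, by linarith, ?_⟩
  have h1 : Real.log (1 + (y ^ 2 - 1)) ≤ 2 * y := by
    have e : 1 + (y ^ 2 - 1) = y ^ 2 := by ring
    rw [e, Real.log_pow]
    have := Real.log_le_sub_one_of_pos (show (0 : ℝ) < y by linarith)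
    push_cast
    linarith
  have h2 : 1 + C * (1 + Real.log (1 + (y ^ 2 - 1))) ≤ (1 + 3 * C) * y := by
    have : C * (1 + Real.log (1 + (y ^ 2 - 1))) ≤ C * (1 + 2 * y) := by gcongr
    nlinarith
  rw [div_mul_eq_mul_div, div_le_iff₀ (by linarith)]
  have h3 : 3 * (1 + 3 * C) ≤ ε * y := by
    have : 3 * (1 + 3 * C) / ε ≤ y := by linarith
    rw [div_le_iff₀ hε] at this
    linarith
  have h4 : 3 * (1 + 3 * C) * y ≤ ε * y * y := mul_le_mul_of_nonneg_right h3 (by linarith)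
  nlinarith

/-- the variance of the number of zeros in a window -/
lemma dev_bd (hRH : RHs) : ∃ C : ℝ, 0 < C ∧ ∀ M : ℝ, 0 < M → ∀ᶠ T : ℝ in atTop,
    ∫ t in Icc T (2 * T), dev T M t ≤ C * (1 + Real.log (1 + M)) * T := by
  obtain ⟨C, T0, hC, hT0, h⟩ := Pool.Agent.R320.VQ.varq hRH 0 1 le_rfl
  refine ⟨C, hC, fun M hM => ?_⟩
  filter_upwards [eventually_ge_atTop T0, Real.tendsto_log_atTop.eventually_ge_atTop (M * Real.log M)] with T h1 h2
  have h3 := h T h1 M hM (by linarith)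
  simp only [pow_zero, pow_one] at h3
  refine le_trans (le_of_eq ?_) h3
  refine setIntegral_congr_fun measurableSet_Icc fun t _ => ?_
  unfold dev Pool.Agent.R320.VQ.dv
  simp

/-- the windows that lead to bad indices -/
lemma bad_vol {T M : ℝ} (hL : 1 ≤ Real.log T) (hT : 0 < T) (hM : 0 < M) {X : Set ℝ} (hX : MeasurableSet X) {v : ℝ}
    (hv : 0 ≤ v) (hXv : volume X ≤ ENNReal.ofReal v) (S : Finset ℕ)
    (hS : ∀ n ∈ S, T ≤ ord n ∧ ord n ≤ 2 * T ∧ bad X n) :
    volume (⋃ n ∈ S, Ico (ord n - M * (2 * Real.pi / Real.log T)) (ord n)) ≤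
      ENNReal.ofReal (10 * (2 * Real.pi * M + 2) * v) := by
  obtain ⟨L, hLd⟩ : ∃ L, L = Real.log T := ⟨_, rfl⟩
  rw [← hLd] at hL ⊢
  have hL0 : 0 < L := by linarith
  have hpi := Real.pi_pos
  have h1 : (⋃ n ∈ S, Ico (ord n - M * (2 * Real.pi / L)) (ord n)) ⊆
      {t : ℝ | ENNReal.ofReal (1 / (10 * L)) ≤ volume (X ∩ Icc (t - 1 / L) (t + (M * (2 * Real.pi / L) + 1 / L)))} := by
    intro t ht
    simp only [mem_iUnion] at ht
    obtain ⟨n, hn, ht1, ht2⟩ := ht
    obtain ⟨g1, g2, g3⟩ := hS n hn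
    have hlo : L ≤ Real.log (ord n) := by rw [hLd]; exact Real.log_le_log hT g1
    have hlu : Real.log (ord n) ≤ 2 * L := by
      have h4 := Real.log_le_log (by linarith) g2
      rw [Real.log_mul (by norm_num) hT.ne', ← hLd] at h4
      have := Real.log_two_lt_d9
      linarith
    have hinv : 1 / Real.log (ord n) ≤ 1 / L := one_div_le_one_div_of_le hL0 hlo
    rw [mem_setOf_eq]
    unfold bad at g3
    refine le_trans ?_ (g3.le.trans (measure_mono ?_))
    · refine ENNReal.ofReal_le_ofReal ?_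
      rw [show (1 : ℝ) / 10 * (2 / Real.log (ord n)) = 1 / (5 * Real.log (ord n)) by
        have : Real.log (ord n) ≠ 0 := by linarith
        field_simp; norm_num]
      exact one_div_le_one_div_of_le (by linarith) (by linarith)
    · refine inter_subset_inter_right _ ?_
      unfold vn
      refine Icc_subset_Icc (by linarith) (by linarith)
  refine (measure_mono h1).trans ?_
  have h2 := overlap_few hX (α := 1 / L) (β := M * (2 * Real.pi / L) + 1 / L) (κ := 1 / (10 * L)) (by positivity)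
    (by positivity) hv hXv
  refine h2.trans (le_of_eq ?_)
  congr 1
  field_simp
  ring

end

end Run7.h911.SZ
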