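import Pool.Agent.Run7.h911.SZ3

set_option autoImplicit false

/-! # Few bad indices; the law of the size at the zeros, lower half, in blocks (helper911) -/

namespace Run7.h911.SZ

open Filter Topology MeasureTheory Set
open Pool.Agent.Y745.SW (Px SB)
open SG (ord NZ)
open SP (RHs)
open Pool.Agent.Y743.NC (dev dev_nonneg dev_int)

noncomputable section

/-- the indices of the block -/
def bl (T : ℝ) : Finset ℕ := Finset.Ioc (NZ (T + Real.log T)) (NZ (2 * T - 1))

lemma mem_bl {T : ℝ} {n : ℕ} (h : n ∈ bl T) : 1 ≤ n ∧ T + Real.log T < ord n ∧ ord n ≤ 2 * T - 1 := by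
  unfold bl at h
  rw [Finset.mem_Ioc] at h
  have h1 : 1 ≤ n := by omega
  refine ⟨h1, ?_, (SG.ord_le_iff h1 _).mpr h.2⟩
  by_contra hcon
  push Not at hcon
  have := (SG.ord_le_iff h1 _).mp hcon
  omega

lemma bl_of {T : ℝ} {n : ℕ} (h1 : 1 ≤ n) (h2 : T + Real.log T < ord n) (h3 : ord n ≤ 2 * T - 1) : n ∈ bl T := by
  unfold bl
  rw [Finset.mem_Ioc]
  refine ⟨?_, (SG.ord_le_iff h1 _).mp h3⟩
  by_contra hcon
  push Not at hcon
  have := (SG.ord_le_iff h1 _).mpr hcon
  linarith

/-- simple bounds for large `T` -/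
lemma ev_basic (D : ℝ) : ∀ᶠ T : ℝ in atTop, 10 ≤ T ∧ D ≤ Real.log T ∧ 1 ≤ Real.log T ∧
    T + 2 * Real.log T + 2 ≤ 2 * T - 1 := by
  have h1 := Real.isLittleO_log_id_atTop.def (c := 1 / 4) (by norm_num)
  filter_upwards [h1, eventually_ge_atTop 10, Real.tendsto_log_atTop.eventually_ge_atTop D,
    Real.tendsto_log_atTop.eventually_ge_atTop 1] with T hT hT1 h2 h3
  rw [Real.norm_eq_abs, Real.norm_eq_abs, id, abs_of_pos (by linarith : 0 < T)] at hT
  have := le_abs_self (Real.log T)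
  exact ⟨hT1, h2, h3, by linarith⟩

open Classical in
/-- **few indices are bad** -/
theorem few_bad (hRH : RHs) (ε : ℝ) (hε : 0 < ε) : ∃ κ : ℝ, 0 < κ ∧ ∀ᶠ T : ℝ in atTop, ∀ X : Set ℝ,
    MeasurableSet X → volume X ≤ ENNReal.ofReal (κ * T) →
    (((bl T).filter (bad X)).card : ℝ) ≤ ε * (T * Real.log T) := by
  obtain ⟨C, hC, hdev⟩ := dev_bd hRH
  obtain ⟨M, hM1, hM⟩ := chM C ε hC hε
  have hpi := Real.pi_pos
  have hpi3 := Real.pi_gt_three
  have hM0 : 0 < M := by linarith
  refine ⟨ε / (20 * (2 * Real.pi * M + 2)), by positivity, ?_⟩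
  filter_upwards [hdev M hM0, ev_basic (8 * Real.pi * M / ε + 2 * Real.pi * M)] with T hd hb
  obtain ⟨hT10, hLD, hL1, hT2⟩ := hb
  intro X hX hXv
  have hT0 : 0 < T := by linarith
  set L := Real.log T with hL
  have hL0 : 0 < L := by linarith
  obtain ⟨κ, hκ⟩ : ∃ κ, κ = ε / (20 * (2 * Real.pi * M + 2)) := ⟨_, rfl⟩
  have hκ0 : 0 < κ := by rw [hκ]; positivity
  rw [← hκ] at hXv
  obtain ⟨ℓ, hℓ⟩ : ∃ ℓ : ℝ, ℓ = M * (2 * Real.pi / L) := ⟨_, rfl⟩
  have hℓ0 : 0 < ℓ := by rw [hℓ]; positivity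
  have hℓ1 : ℓ ≤ 1 := by
    rw [hℓ, mul_div_assoc', div_le_one hL0]
    have : 0 ≤ 8 * Real.pi * M / ε := by positivity
    linarith
  set S := (bl T).filter (bad X) with hS
  obtain ⟨W, hW⟩ : ∃ W : Set ℝ, W = ⋃ n ∈ S, Ico (ord n - M * (2 * Real.pi / L)) (ord n) := ⟨_, rfl⟩
  have hWm : MeasurableSet W := by
    rw [hW]
    exact Finset.measurableSet_biUnion _ fun n _ => measurableSet_Ico
  have hWv : volume W ≤ ENNReal.ofReal (10 * (2 * Real.pi * M + 2) * (κ * T)) := by
    rw [hW]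
    refine bad_vol hL1 hT0 hM0 hX (by positivity) hXv S fun n hn => ?_
    rw [hS, Finset.mem_filter] at hn
    obtain ⟨a1, a2, a3⟩ := mem_bl hn.1
    exact ⟨by linarith, by linarith, hn.2⟩
  have hWr : volume.real (W ∩ Icc T (2 * T)) ≤ 10 * (2 * Real.pi * M + 2) * (κ * T) := by
    refine ENNReal.toReal_le_of_le_ofReal (by positivity) ((measure_mono inter_subset_left).trans hWv)
  have hp := Pool.Agent.R320.JL.palmF (T := T) (M := M) (s := 1) (δ := 0) (A := T + L) (B' := 2 * T - 1)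
    (by linarith) hM0 one_pos le_rfl (by norm_num) (by rw [← hL, ← hℓ]; linarith) (by rw [← hL, ← hℓ]; linarith)
    (by linarith) (fun n => if n ∈ S then 1 else 0) (fun n => by split_ifs <;> simp) (fun _ => 0)
    measurable_const (fun _ => by simp) W hWm (fun n h1 h2 h3 t h4 h5 h6 => by
      by_cases hn : n ∈ S
      · exfalso
        apply h6
        rw [hW]
        simp only [mem_iUnion]
        exact ⟨n, hn, h4, h5⟩
      · rw [if_neg hn, sub_self, norm_zero])
  rw [← hL, ← hℓ] at hp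
  have hsum : ∑ n ∈ Finset.Ioc (NZ (T + L)) (NZ (2 * T - 1)), (if n ∈ S then (1 : ℂ) else 0) = S.card := by
    rw [← Finset.sum_filter, Finset.sum_const, nsmul_eq_mul, mul_one]
    congr 2
    ext n
    rw [Finset.mem_filter]
    constructor
    · exact fun h => h.2
    · intro h
      refine ⟨?_, h⟩
      rw [hS, Finset.mem_filter] at h
      exact h.1
  rw [hsum] at hp
  simp only [intervalIntegral.integral_zero, mul_zero, sub_zero, zero_mul, zero_add, one_mul, div_one, add_zero] at hp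
  rw [norm_mul, Complex.norm_real, Real.norm_eq_abs, abs_of_pos hℓ0, Complex.norm_natCast] at hp
  -- numbers
  have h1 : ℓ * S.card ≤ M * (2 * (10 * (2 * Real.pi * M + 2) * (κ * T)) + 4 * ℓ) +
      3 * ((T + C * (1 + Real.log (1 + M)) * T) / 2) := by
    refine hp.trans ?_
    gcongr
  have h2 : 2 * (10 * (2 * Real.pi * M + 2) * (κ * T)) = ε * T := by
    rw [hκ]; field_simp; ring
  rw [h2] at h1
  have h3 : 4 * ℓ ≤ ε * T := by
    rw [hℓ]
    have h4 : 8 * Real.pi * M / ε ≤ L := by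
      have : 0 ≤ 2 * Real.pi * M := by positivity
      linarith
    rw [div_le_iff₀ hε] at h4
    have h5 : 4 * (M * (2 * Real.pi / L)) = 8 * Real.pi * M / L := by ring
    rw [h5, div_le_iff₀ hL0]
    have h6 : L * ε * 1 ≤ L * ε * T := mul_le_mul_of_nonneg_left (by linarith) (by positivity)
    linarith
  have h4 : 3 * ((T + C * (1 + Real.log (1 + M)) * T) / 2) ≤ M * (ε * T) := by
    rw [div_mul_eq_mul_div, div_le_iff₀ hM0] at hM
    have h5 : 3 * ((T + C * (1 + Real.log (1 + M)) * T) / 2) = 3 / 4 * (2 * (1 + C * (1 + Real.log (1 + M)))) * T := by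
      ring
    rw [h5]
    have h6 : 3 / 4 * (2 * (1 + C * (1 + Real.log (1 + M)))) ≤ ε * M := by
      have : 0 < ε * M := by positivity
      linarith
    calc 3 / 4 * (2 * (1 + C * (1 + Real.log (1 + M)))) * T ≤ ε * M * T := by gcongr
      _ = _ := by ring
  have h5 : ℓ * S.card ≤ M * (3 * (ε * T)) := by
    calc ℓ * S.card ≤ M * (ε * T + 4 * ℓ) + 3 * ((T + C * (1 + Real.log (1 + M)) * T) / 2) := h1
      _ ≤ M * (ε * T + ε * T) + M * (ε * T) := by gcongr
      _ = _ := by ring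
  have h6 : (2 * Real.pi / L) * S.card ≤ 3 * (ε * T) := by
    have : M * ((2 * Real.pi / L) * S.card) ≤ M * (3 * (ε * T)) := by
      rw [hℓ] at h5
      linarith
    exact le_of_mul_le_mul_left this hM0
  rw [div_mul_eq_mul_div, div_le_iff₀ hL0] at h6
  have h7 : (0 : ℝ) ≤ S.card := Nat.cast_nonneg _
  nlinarith

/-- the normalised size of zeta -/
def siz (t : ℝ) : ℝ :=
  Real.sqrt 2 * (Real.log ‖riemannZeta (1 / 2 + t * Complex.I)‖ / Real.sqrt (Real.log (Real.log t)))

/-- the size of zeta is in `(a, b)` on nine tenths of the window of the index -/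
def Near (a b : ℝ) (n : ℕ) : Prop :=
  9 / 10 * (2 / Real.log (ord n)) ≤ volume.real {t : ℝ | t ∈ vn n ∧ a < siz t ∧ siz t < b}

lemma vn_sub {T : ℝ} (hL : 1 ≤ Real.log T) (hT : 0 < T) {n : ℕ} (h1 : T + Real.log T < ord n)
    (h2 : ord n ≤ 2 * T - 1) : vn n ⊆ Icc T (2 * T) ∧ 0 < Real.log (ord n) ∧
      ∀ t ∈ vn n, |ord n - t| ≤ 1 / Real.log T := by
  have h3 : Real.log T ≤ Real.log (ord n) := Real.log_le_log hT (by linarith)
  have h4 : 1 / Real.log (ord n) ≤ 1 / Real.log T := one_div_le_one_div_of_le (by linarith) h3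
  have h5 : 1 / Real.log T ≤ 1 := by rw [div_le_one (by linarith)]; exact hL
  refine ⟨?_, by linarith, fun t ht => ?_⟩
  · unfold vn
    exact Icc_subset_Icc (by linarith) (by linarith)
  · unfold vn at ht
    rw [abs_le]
    constructor <;> linarith [ht.1, ht.2]

lemma vn_vol {n : ℕ} (h : 0 < Real.log (ord n)) : volume (vn n) = ENNReal.ofReal (2 / Real.log (ord n)) ∧
    volume.real (vn n) = 2 / Real.log (ord n) := by
  have e : ord n + 1 / Real.log (ord n) - (ord n - 1 / Real.log (ord n)) = 2 / Real.log (ord n) := by ring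
  have h1 : volume (vn n) = ENNReal.ofReal (2 / Real.log (ord n)) := by
    unfold vn
    rw [Real.volume_Icc, e]
  refine ⟨h1, ?_⟩
  rw [Measure.real, h1, ENNReal.toReal_ofReal (by positivity)]

/-- a good index has a window with a small exceptional part -/
lemma good_vol {X : Set ℝ} {n : ℕ} (h : 0 < Real.log (ord n)) (hg : ¬ bad X n) :
    volume.real (X ∩ vn n) ≤ 1 / 10 * (2 / Real.log (ord n)) := by
  unfold bad at hg
  push Not at hg
  exact ENNReal.toReal_le_of_le_ofReal (by positivity) hg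

/-- from the small primes to the size -/
lemma near_of {X : Set ℝ} (hX : MeasurableSet X) {n : ℕ} (h : 0 < Real.log (ord n)) (hg : ¬ bad X n) {a b : ℝ}
    (hs : ∀ t ∈ vn n, t ∉ X → a < siz t ∧ siz t < b) : Near a b n := by
  unfold Near
  have h1 := good_vol h hg
  have h2 := (vn_vol h).2
  have hf : volume (vn n) ≠ ⊤ := by rw [(vn_vol h).1]; exact ENNReal.ofReal_ne_top
  have h3 := measureReal_inter_add_sdiff (μ := volume) (s := vn n) hX hf
  rw [h2, inter_comm] at h3
  have h4 : volume.real (vn n \ X) ≤ volume.real {t : ℝ | t ∈ vn n ∧ a < siz t ∧ siz t < b} := by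
    refine measureReal_mono (fun t ht => ⟨ht.1, hs t ht.1 ht.2⟩) ?_
    exact ne_top_of_le_ne_top hf (measure_mono fun t ht => ht.1)
  linarith

/-- from the size to the small primes -/
lemma of_near {X : Set ℝ} {n : ℕ} (h : 0 < Real.log (ord n)) (hg : ¬ bad X n) {a b : ℝ}
    (hn : Near a b n) : ∃ t ∈ vn n, t ∉ X ∧ a < siz t ∧ siz t < b := by
  by_contra hcon
  push Not at hcon
  unfold Near at hn
  have h1 := good_vol h hg
  have h2 : volume.real {t : ℝ | t ∈ vn n ∧ a < siz t ∧ siz t < b} ≤ volume.real (X ∩ vn n) := by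
    refine measureReal_mono (fun t ht => ⟨?_, ht.1⟩) ?_
    · by_contra hX
      have := hcon t ht.1 hX ht.2.1
      linarith [ht.2.2]
    · exact ne_top_of_le_ne_top (by rw [(vn_vol h).1]; exact ENNReal.ofReal_ne_top) (measure_mono inter_subset_right)
  have h3 : 0 < 2 / Real.log (ord n) := by positivity
  linarith

end

end Run7.h911.SZ
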