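import Pool.Agent.Run7.h911.SZ5
import Pool.Agent.Run7.h911.SZ1
import Pool.Agent.N748.UG.Few
import Pool.Agent.R321.FA17

set_option autoImplicit false

/-! # Slow variation of the size of zeta along the zeros (helper911) -/

namespace Run7.h911.SZ

open Filter Topology MeasureTheory Set
open Pool.Agent.Y745.SW (Px SB)
open SG (ord NZ)
open SP (RHs)

noncomputable section

lemma bk_mono {T K K' η η' W : ℝ} {X : Set ℝ} (hL : 0 < Real.log T) (hK : K' ≤ K) (hη : η ≤ η')
    (h : Bk T K η W X) : Bk T K' η' W X := by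
  refine ⟨h.meas, fun t ht htX u hu => h.bv t ht htX u (hu.trans ?_), fun t ht htX u hu =>
    (h.lg t ht htX u hu).trans ?_⟩
  · exact div_le_div_of_nonneg_right hK hL.le
  · have := Real.sqrt_nonneg (Real.log (Real.log T))
    nlinarith

/-- two good indices at bounded distance -/
lemma two_good {T K η W : ℝ} {X : Set ℝ} (hX : Bk T (K + 1) η W X) (hL1 : 1 ≤ Real.log T) (hT : 0 < T)
    (hK : 0 ≤ K) (hσ : 0 < Real.sqrt (Real.log (Real.log T))) {n n' : ℕ} (hn : n ∈ bl T)
    (hg : ¬ bad X n) (hd : |ord n' - ord n| ≤ K / Real.log T) :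
    |yp T (ord n') - yp T (ord n)| ≤ 3 / Real.sqrt (Real.log (Real.log T)) := by
  obtain ⟨h1, h2, h3⟩ := mem_bl hn
  obtain ⟨hv1, hv2, hv3⟩ := vn_sub hL1 hT h2 h3
  have h4 := good_vol hv2 hg
  have h5 : ∃ t ∈ vn n, t ∉ X := by
    by_contra hcon
    push Not at hcon
    have h6 : X ∩ vn n = vn n := inter_eq_right.2 fun t ht => hcon t ht
    rw [h6, (vn_vol hv2).2] at h4
    have : 0 < 2 / Real.log (ord n) := by positivity
    linarith
  obtain ⟨t, ht, htX⟩ := h5
  have hL0 : 0 < Real.log T := by linarith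
  have e1 : (K + 1) / Real.log T = K / Real.log T + 1 / Real.log T := by rw [add_div]
  have hK0 : 0 ≤ K / Real.log T := by positivity
  have b1 := hX.bv t (hv1 ht) htX (ord n - t) (by rw [e1]; linarith [hv3 t ht])
  have b2 := hX.bv t (hv1 ht) htX (ord n' - t) (by
    rw [e1]
    have : ord n' - t = (ord n' - ord n) + (ord n - t) := by ring
    rw [this]
    exact (abs_add_le _ _).trans (add_le_add hd (hv3 t ht)))
  rw [add_sub_cancel] at b1 b2
  have h7 : ‖Px T (ord n') - Px T (ord n)‖ ≤ 2 := by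
    have e : Px T (ord n') - Px T (ord n) = (Px T (ord n') - Px T t) - (Px T (ord n) - Px T t) := by ring
    rw [e]
    exact (norm_sub_le _ _).trans (by linarith)
  refine (yp_diff hσ h7).trans (le_of_eq ?_)
  ring

open Classical in
/-- slow variation in a block -/
theorem slow_block (hRH : RHs) {a a' b b' : ℝ} (ha : a < a') (hb : b' < b) (m : ℕ) (K ε : ℝ) (hK : 0 < K)
    (hε : 0 < ε) : ∀ᶠ T : ℝ in atTop, (((bl T).filter (fun n => Near a' b' n ∧ ord (n + m) ≤ 2 * T - 1 ∧
      ord (n + m) - ord n ≤ K / Real.log T ∧ ∃ i < m, ¬ Near a b (n + i))).card : ℝ) ≤ ε * (T * Real.log T) := by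
  obtain ⟨κ, hκ, hfb⟩ := few_bad hRH (ε / (m + 1)) (by positivity)
  obtain ⟨a1, ha1⟩ : ∃ a1, a1 = (a + a') / 2 := ⟨_, rfl⟩
  obtain ⟨b1, hb1⟩ : ∃ b1, b1 = (b + b') / 2 := ⟨_, rfl⟩
  obtain ⟨a2, ha2⟩ : ∃ a2, a2 = (a + a1) / 2 := ⟨_, rfl⟩
  obtain ⟨b2, hb2⟩ : ∃ b2, b2 = (b + b1) / 2 := ⟨_, rfl⟩
  obtain ⟨η1, hη1, hc1⟩ := cls (a := a1) (a' := a') (b := b1) (b' := b') (by linarith) (by linarith)
  obtain ⟨η2, hη2, hc2⟩ := cls (a := a) (a' := a2) (b := b) (b' := b2) (by linarith) (by linarith)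
  obtain ⟨η, hη⟩ : ∃ η, η = min η1 η2 := ⟨_, rfl⟩
  have hη0 : 0 < η := by rw [hη]; positivity
  obtain ⟨W, hW, hX⟩ := exX (K + 1) η κ (by positivity) hη0 hκ
  obtain ⟨D, hD⟩ : ∃ D, D = min (a1 - a2) (b2 - b1) := ⟨_, rfl⟩
  have hD0 : 0 < D := by rw [hD, lt_min_iff]; constructor <;> linarith
  filter_upwards [hfb, hX, hc1 η W (K + 1) (by rw [hη]; exact min_le_left _ _) hW,
    hc2 η W (K + 1) (by rw [hη]; exact min_le_right _ _) hW, ev_basic 1,
    sig_tendsto.eventually_ge_atTop (3 / D + 1)] with T h1 h2 h3 h4 h5 hσ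
  obtain ⟨hT10, -, hL1, -⟩ := h5
  obtain ⟨X, hXv, hXB⟩ := h2
  have hT0 : 0 < T := by linarith
  have hL0 : 0 < Real.log T := by linarith
  have hbd := h1 X hXB.meas hXv
  have hσ0 : 0 < Real.sqrt (Real.log (Real.log T)) := by
    have : 0 < 3 / D := by positivity
    linarith
  have hσD : 3 / Real.sqrt (Real.log (Real.log T)) < D := by
    rw [div_lt_iff₀ hσ0]
    have : 3 / D < Real.sqrt (Real.log (Real.log T)) := by linarith
    rw [div_lt_iff₀ hD0] at this
    linarith
  -- a bad index in the run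
  have hsub : (bl T).filter (fun n => Near a' b' n ∧ ord (n + m) ≤ 2 * T - 1 ∧
      ord (n + m) - ord n ≤ K / Real.log T ∧ ∃ i < m, ¬ Near a b (n + i)) ⊆
      (Finset.range m).biUnion (fun i => (bl T).filter (fun n => n + i ∈ (bl T).filter (bad X))) := by
    intro n hn
    rw [Finset.mem_filter] at hn
    obtain ⟨hnb, hn1, hn2, hn3, i, him, hi⟩ := hn
    rw [Finset.mem_biUnion]
    obtain ⟨g1, g2, g3⟩ := mem_bl hnb
    have hin : ∀ j ≤ m, n + j ∈ bl T ∧ |ord (n + j) - ord n| ≤ K / Real.log T := by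
      intro j hj
      have e1 : ord n ≤ ord (n + j) := SG.ord_mono g1 (by omega)
      have e2 : ord (n + j) ≤ ord (n + m) := SG.ord_mono (by omega) (by omega)
      refine ⟨bl_of (by omega) (by linarith) (by linarith), ?_⟩
      rw [abs_of_nonneg (by linarith)]
      linarith
    by_cases hb0 : bad X n
    · refine ⟨0, Finset.mem_range.2 (by omega), ?_⟩
      rw [Finset.mem_filter, Finset.mem_filter, add_zero]
      exact ⟨hnb, hnb, hb0⟩
    by_cases hbi : bad X (n + i)
    · refine ⟨i, Finset.mem_range.2 him, ?_⟩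
      rw [Finset.mem_filter, Finset.mem_filter]
      exact ⟨hnb, (hin i him.le).1, hbi⟩
    exfalso
    obtain ⟨c1, c2⟩ := (h3 X hXB n hnb hb0).2 hn1
    have c3 := two_good hXB hL1 hT0 hK.le hσ0 hnb hb0 (hin i him.le).2
    have c4 := abs_le.1 (c3.trans hσD.le)
    have hDa : D ≤ a1 - a2 := by rw [hD]; exact min_le_left _ _
    have hDb : D ≤ b2 - b1 := by rw [hD]; exact min_le_right _ _
    exact hi ((h4 X hXB (n + i) (hin i him.le).1 hbi).1 (by linarith [c4.1]) (by linarith [c4.2]))
  have hcard : (((bl T).filter (fun n => Near a' b' n ∧ ord (n + m) ≤ 2 * T - 1 ∧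
      ord (n + m) - ord n ≤ K / Real.log T ∧ ∃ i < m, ¬ Near a b (n + i))).card : ℝ) ≤
      ∑ i ∈ Finset.range m, (((bl T).filter (bad X)).card : ℝ) := by
    have k1 := (Finset.card_le_card hsub).trans Finset.card_biUnion_le
    refine le_trans (Nat.cast_le.2 k1) ?_
    push_cast
    refine Finset.sum_le_sum fun i _ => ?_
    refine Nat.cast_le.2 ?_
    refine Finset.card_le_card_of_injOn (fun n => n + i) ?_ ?_
    · intro n hn
      rw [Finset.mem_coe, Finset.mem_filter] at hn
      exact hn.2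
    · intro n _ n' _ hnn
      simpa using hnn
  refine hcard.trans ?_
  rw [Finset.sum_const, Finset.card_range, nsmul_eq_mul]
  calc (m : ℝ) * (((bl T).filter (bad X)).card : ℝ) ≤ m * (ε / (m + 1) * (T * Real.log T)) := by gcongr
    _ = (m / (m + 1)) * (ε * (T * Real.log T)) := by field_simp
    _ ≤ 1 * (ε * (T * Real.log T)) := by
        have : (m : ℝ) / (m + 1) ≤ 1 := by
          rw [div_le_one (by positivity)]; linarith
        gcongr
    _ = _ := one_mul _

/-- the ordinates and the indices -/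
lemma ord_log : ∃ C : ℝ, 0 < C ∧ ∃ N0 : ℕ, ∀ N : ℕ, N0 ≤ N → 1 ≤ Real.log (ord N) ∧
    ord N * Real.log (ord N) ≤ C * N := by
  obtain ⟨c, T1, hc, hT1, h⟩ := LG.GapAux.NZ_low
  obtain ⟨N1, hN1⟩ := (SG.ord_tendsto.eventually_ge_atTop (max (3 * T1) 81)).exists_forall_of_atTop
  refine ⟨6 / c, by positivity, max N1 1, fun N hN => ?_⟩
  have h1 : 1 ≤ N := (le_max_right _ _).trans hN
  have h2 := hN1 N ((le_max_left _ _).trans hN)
  have h3 : T1 ≤ ord N / 3 := by
    have := le_max_left (3 * T1) 81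
    linarith
  have h81 : 81 ≤ ord N := (le_max_right _ _).trans h2
  have h5 := h _ h3
  have h6 : NZ (2 * (ord N / 3)) < N := by
    by_contra hcon
    push Not at hcon
    have h5 : ord N ≤ 2 * (ord N / 3) := (SG.ord_le_iff (by omega) _).mpr hcon
    linarith
  have h7 : (NZ (2 * (ord N / 3)) : ℝ) ≤ N := by exact_mod_cast h6.le
  have hlog : Real.log (ord N) / 2 ≤ Real.log (ord N / 3) := by
    have e1 : Real.log (ord N / 3) = Real.log (ord N) - Real.log 3 := Real.log_div (by linarith) (by norm_num)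
    have e2 : Real.log 81 ≤ Real.log (ord N) := Real.log_le_log (by norm_num) h81
    have e3 : Real.log 81 = 4 * Real.log 3 := by
      rw [show (81 : ℝ) = 3 ^ 4 by norm_num, Real.log_pow]
      norm_num
    have e4 : 0 < Real.log 3 := Real.log_pos (by norm_num)
    linarith
  have hl1 : 1 ≤ Real.log (ord N) := by
    rw [Real.le_log_iff_exp_le (by linarith)]
    linarith [Real.exp_one_lt_d9]
  refine ⟨hl1, ?_⟩
  rw [div_mul_eq_mul_div, le_div_iff₀ hc]
  have h8 : c * (ord N / 3 * (Real.log (ord N) / 2)) ≤ N := by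
    refine le_trans ?_ (h5.trans h7)
    have : 0 < ord N / 3 := by linarith
    gcongr
  linarith

/-- few long runs -/
theorem long_few (m : ℕ) (ε : ℝ) (hε : 0 < ε) : ∃ K : ℝ, 0 < K ∧ ∃ N0 : ℕ, ∀ N : ℕ, N0 ≤ N →
    ct N (fun n => K / Real.log (ord n) < ord (n + m) - ord n) ≤ ε * N := by
  classical
  obtain ⟨C, hC, N1, hN1⟩ := ord_log
  obtain ⟨K, hK⟩ : ∃ K, K = 3 * (m + 1) * C / ε := ⟨_, rfl⟩
  have hK0 : 0 < K := by rw [hK]; positivity
  obtain ⟨N2, hN2⟩ := (SG.ord_tendsto.eventually_ge_atTop 3).exists_forall_of_atTop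
  -- the first indices have positive logarithm as well
  obtain ⟨N3, hN3⟩ := exists_nat_ge (2 * ((N2 : ℝ) + m + 1) / ε)
  refine ⟨2 * K, by positivity, max (max N1 N2) (max N3 (m + 1)), fun N hN => ?_⟩
  have hNa : N1 ≤ N := ((le_max_left _ _).trans (le_max_left _ _)).trans hN
  have hNb : N2 ≤ N := ((le_max_right _ _).trans (le_max_left _ _)).trans hN
  have hNc : N3 ≤ N := ((le_max_left _ _).trans (le_max_right _ _)).trans hN
  have hNd : m + 1 ≤ N := ((le_max_right _ _).trans (le_max_right _ _)).trans hN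
  obtain ⟨hl1, -⟩ := hN1 N hNa
  have h1 : ct N (fun n => 2 * K / Real.log (ord n) < ord (n + m) - ord n) ≤
      ct N (fun n => n < N2) + ct N (fun n => 2 * K / Real.log (ord N) < ord (n + m) - ord n) := by
    refine le_trans (ct_mono (Q := fun n => n < N2 ∨ 2 * K / Real.log (ord N) < ord (n + m) - ord n)
      fun n hn1 hnN hn => ?_) (ct_or _ _ _)
    rcases lt_or_ge n N2 with h | h
    · exact Or.inl h
    · right
      refine lt_of_le_of_lt ?_ hn
      have h3 := hN2 n h
      have h4 : 0 < Real.log (ord n) := Real.log_pos (by linarith)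
      have h5 : Real.log (ord n) ≤ Real.log (ord N) := Real.log_le_log (by linarith) (SG.ord_mono hn1 hnN)
      exact div_le_div_of_nonneg_left (by positivity) h4 h5
  have h2 : ct N (fun n => n < N2) ≤ N2 := by
    unfold ct
    refine Nat.cast_le.2 ?_
    have h := Set.ncard_le_ncard (show {n : ℕ | 1 ≤ n ∧ n ≤ N ∧ n < N2} ⊆ (Finset.range N2 : Set ℕ) from
      fun n hn => by rw [Finset.coe_range]; exact hn.2.2) (Finset.finite_toSet _)
    rwa [Set.ncard_coe_finset, Finset.card_range] at h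
  have h3 : ct N (fun n => 2 * K / Real.log (ord N) < ord (n + m) - ord n) * (2 * K / Real.log (ord N)) ≤
      m * ord (N + m + 1) := by
    rw [ct_eq]
    refine le_trans ?_ (Pool.Agent.N748.UG.sum_gap m N)
    rw [← nsmul_eq_mul, ← Finset.sum_const]
    calc ∑ _n ∈ (Finset.Icc 1 N).filter (fun n => 2 * K / Real.log (ord N) < ord (n + m) - ord n),
          (2 * K / Real.log (ord N)) ≤
        ∑ n ∈ (Finset.Icc 1 N).filter (fun n => 2 * K / Real.log (ord N) < ord (n + m) - ord n),
          (ord (n + m) - ord n) := by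
            refine Finset.sum_le_sum fun n hn => ?_
            rw [Finset.mem_filter] at hn
            exact hn.2.le
      _ ≤ _ := by
            refine Finset.sum_le_sum_of_subset_of_nonneg (Finset.filter_subset _ _) ?_
            intro n hn _
            rw [Finset.mem_Icc] at hn
            have := SG.ord_mono hn.1 (by omega : n ≤ n + m)
            linarith
  have h4 := hN1 (N + m + 1) (by omega)
  have h5 : Real.log (ord N) ≤ Real.log (ord (N + m + 1)) :=
    Real.log_le_log (SG.ord_pos (by omega)) (SG.ord_mono (by omega) (by omega))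
  have h6 : m * ord (N + m + 1) * Real.log (ord N) ≤ (m + 1) * (C * (3 * N)) := by
    have h7 : ord (N + m + 1) * Real.log (ord N) ≤ C * (3 * N) := by
      have h8 : ord (N + m + 1) * Real.log (ord N) ≤ ord (N + m + 1) * Real.log (ord (N + m + 1)) :=
        mul_le_mul_of_nonneg_left h5 (SG.ord_pos (by omega)).le
      refine (h8.trans h4.2).trans ?_
      have h9 : ((N + m + 1 : ℕ) : ℝ) ≤ 3 * N := by
        have : N + m + 1 ≤ 3 * N := by omega
        exact_mod_cast this
      gcongr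
    have h0 : 0 ≤ ord (N + m + 1) * Real.log (ord N) := mul_nonneg (SG.ord_pos (by omega)).le (by linarith)
    calc m * ord (N + m + 1) * Real.log (ord N) = m * (ord (N + m + 1) * Real.log (ord N)) := by ring
      _ ≤ (m + 1) * (C * (3 * N)) := by
          apply mul_le_mul (by linarith) h7 h0 (by positivity)
  rw [mul_div_assoc', div_le_iff₀ (by linarith)] at h3
  have h10 : ct N (fun n => 2 * K / Real.log (ord N) < ord (n + m) - ord n) * (2 * K) ≤
      (m + 1) * (C * (3 * N)) := h3.trans h6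
  have h11 : (m + 1) * (C * (3 * N)) = K * (ε * N) := by
    rw [hK]; field_simp
  rw [h11] at h10
  have h12 : ct N (fun n => 2 * K / Real.log (ord N) < ord (n + m) - ord n) ≤ ε / 2 * N := by
    have : K * (2 * ct N (fun n => 2 * K / Real.log (ord N) < ord (n + m) - ord n)) ≤ K * (ε * N) := by linarith
    have := le_of_mul_le_mul_left this hK0
    linarith
  have h13 : (N2 : ℝ) ≤ ε / 2 * N := by
    have h14 : 2 * ((N2 : ℝ) + m + 1) / ε ≤ N := hN3.trans (by exact_mod_cast hNc)
    rw [div_le_iff₀ hε] at h14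
    have : (0 : ℝ) ≤ m := Nat.cast_nonneg _
    linarith
  linarith

/-- **the classes of the size vary slowly along the zeros** -/
theorem slow (RH : RiemannHypothesis) {a a' b b' : ℝ} (ha : a < a') (hb : b' < b) :
    Slow {n | Near a' b' n} {n | Near a b n} := by
  classical
  have hRH := Pool.Agent.TH800.MS.rhs_of RH
  intro m ε hε
  obtain ⟨K, hK, N1, hN1⟩ := long_few m (ε / 2) (by positivity)
  obtain ⟨C, hC, hab⟩ := Pool.Agent.R321.FA.all_of_block
  obtain ⟨N2, hN2⟩ := hab (fun n => Near a' b' n ∧ ord (n + m) - ord n ≤ K / Real.log (ord n) ∧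
    ∃ i < m, ¬ Near a b (n + i)) (ε / (2 * C)) (by positivity) (by
      have h1 := slow_block hRH ha hb m K (ε / (2 * C)) hK (by positivity)
      have h2 : Tendsto (fun T : ℝ => 4 / 5 * T) atTop atTop := tendsto_id.const_mul_atTop (by norm_num)
      have h3 := h2.eventually (h1.and (ev_basic 1))
      have h4 := Real.isLittleO_log_id_atTop.def (c := 1 / 8) (by norm_num)
      obtain ⟨T1, hT1⟩ := (h3.and (h4.and (eventually_ge_atTop (100 + 100 * K)))).exists_forall_of_atTop
      refine ⟨T1, fun T hT => ?_⟩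
      obtain ⟨⟨g1, g2⟩, g3, g4⟩ := hT1 T hT
      obtain ⟨q1, q2, q3, q4⟩ := g2
      have hT0 : 0 < T := by linarith
      rw [Real.norm_eq_abs, Real.norm_eq_abs, id, abs_of_pos hT0] at g3
      have g5 := (le_abs_self _).trans g3
      have hlT : Real.log (4 / 5 * T) ≤ Real.log T := Real.log_le_log (by linarith) (by linarith)
      have hsub : {n : ℕ | 1 ≤ n ∧ T ≤ ord n ∧ ord n ≤ 3 / 2 * T ∧ Near a' b' n ∧
          ord (n + m) - ord n ≤ K / Real.log (ord n) ∧ ∃ i < m, ¬ Near a b (n + i)} ⊆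
          ((bl (4 / 5 * T)).filter (fun n => Near a' b' n ∧ ord (n + m) ≤ 2 * (4 / 5 * T) - 1 ∧
            ord (n + m) - ord n ≤ K / Real.log (4 / 5 * T) ∧ ∃ i < m, ¬ Near a b (n + i)) : Finset ℕ) := by
        rintro n ⟨a1, a2, a3, a4, a5, a6⟩
        rw [Finset.coe_filter, mem_ofPred_eq]
        have e1 : Real.log (4 / 5 * T) ≤ Real.log (ord n) := Real.log_le_log (by linarith) (by linarith)
        have e2 : K / Real.log (ord n) ≤ K / Real.log (4 / 5 * T) :=
          div_le_div_of_nonneg_left hK.le (by linarith) e1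
        have e3 : K / Real.log (4 / 5 * T) ≤ K := div_le_self hK.le q3
        refine ⟨bl_of a1 (by linarith) (by linarith), a4, by linarith, by linarith, a6⟩
      have h5 := Set.ncard_le_ncard hsub (Finset.finite_toSet _)
      rw [Set.ncard_coe_finset] at h5
      refine (Nat.cast_le.2 h5).trans (g1.trans ?_)
      have : 0 ≤ Real.log (4 / 5 * T) := by linarith
      gcongr
      linarith)
  refine ⟨max N1 N2, fun N hN => ?_⟩
  have k1 := hN1 N ((le_max_left _ _).trans hN)
  have k2 := hN2 N ((le_max_right _ _).trans hN)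
  have k3 : ct N (fun n => n ∈ {n | Near a' b' n} ∧ ∃ i < m, n + i ∉ {n | Near a b n}) ≤
      ct N (fun n => K / Real.log (ord n) < ord (n + m) - ord n) +
      ct N (fun n => Near a' b' n ∧ ord (n + m) - ord n ≤ K / Real.log (ord n) ∧ ∃ i < m, ¬ Near a b (n + i)) := by
    refine le_trans (ct_mono fun n h1 h2 hn => ?_) (ct_or _ _ _)
    by_cases h3 : K / Real.log (ord n) < ord (n + m) - ord n
    · exact Or.inl h3
    · push Not at h3
      exact Or.inr ⟨hn.1, h3, hn.2⟩
  refine k3.trans ?_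
  have k4 : ct N (fun n => Near a' b' n ∧ ord (n + m) - ord n ≤ K / Real.log (ord n) ∧
      ∃ i < m, ¬ Near a b (n + i)) ≤ C * (ε / (2 * C)) * N := k2
  have e : C * (ε / (2 * C)) = ε / 2 := by field_simp
  rw [e] at k4
  linarith

end

end Run7.h911.SZ
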