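import Pool.Agent.Run7.h911.SZ7
import Pool.Agent.Results.MP_21f43f_nt.LargeGapsAlmostAllRuns
import Pool.Agent.Results.MP_21f43f_nt.SmallGapsAlmostAllRuns

set_option autoImplicit false

/-! # Large and small gaps at every size of zeta (helper911) -/

namespace Run7.h911.SZ

open Filter Topology MeasureTheory Set
open SG (ord NZ)
open Pool.Agent.TH800.MS (dlt)

noncomputable section

/-- a property of almost all runs holds with positive proportion in slowly varying sets -/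
lemma pos_run {Q : ℕ → Prop} (hQ : ∀ ε : ℝ, 0 < ε → ∃ m N0 : ℕ, ∀ N : ℕ, N0 ≤ N →
      ct N (fun n => ∀ i < m, ¬ Q (n + i)) ≤ ε * N) {A B : Set ℕ} (hS : Slow A B) {d : ℝ} (hd : 0 < d)
    (hA : ∃ N0 : ℕ, ∀ N : ℕ, N0 ≤ N → d * N ≤ ct N (fun n => n ∈ A)) :
    ∃ κ : ℝ, 0 < κ ∧ ∃ N0 : ℕ, ∀ N : ℕ, N0 ≤ N → κ * N ≤ ct N (fun n => n ∈ B ∧ Q n) := by
  classical
  obtain ⟨m, N1, h1⟩ := hQ (d / 4) (by positivity)
  obtain ⟨N2, h2⟩ := hS m (d / 4) (by positivity)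
  obtain ⟨N3, h3⟩ := hA
  refine ⟨d / (4 * (m + 1)), by positivity, N1 + N2 + N3 + 2 * m, fun N hN => ?_⟩
  obtain ⟨M, rfl⟩ : ∃ M : ℕ, N = M + m := ⟨N - m, by omega⟩
  have k1 := h1 M (by omega)
  have k2 : ct M (fun n => n ∈ A ∧ ∃ i < m, n + i ∉ B) ≤ d / 4 * M := h2 M (by omega)
  have k3 := h3 M (by omega)
  have k4 : ct M (fun n => n ∈ A) ≤ ct M (fun n => (∀ i < m, n + i ∈ B) ∧ ∃ i < m, Q (n + i)) +
      (ct M (fun n => n ∈ A ∧ ∃ i < m, n + i ∉ B) + ct M (fun n => ∀ i < m, ¬ Q (n + i))) := by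
    refine le_trans (ct_mono (Q := fun n => ((∀ i < m, n + i ∈ B) ∧ ∃ i < m, Q (n + i)) ∨
      ((n ∈ A ∧ ∃ i < m, n + i ∉ B) ∨ ∀ i < m, ¬ Q (n + i))) fun n _ _ hn => ?_) ?_
    · by_cases c1 : ∀ i < m, ¬ Q (n + i)
      · exact Or.inr (Or.inr c1)
      · push Not at c1
        by_cases c2 : ∀ i < m, n + i ∈ B
        · exact Or.inl ⟨c2, c1⟩
        · push Not at c2
          exact Or.inr (Or.inl ⟨hn, c2⟩)
    · exact (ct_or _ _ _).trans (add_le_add le_rfl (ct_or _ _ _))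
  have k5 := run_count M m (fun n => n ∈ B ∧ Q n)
    (fun n => (∀ i < m, n + i ∈ B) ∧ ∃ i < m, Q (n + i)) 1 (fun n _ _ hn => by
      obtain ⟨g1, i, hi, g2⟩ := hn
      have g3 : (@ite ℝ (n + i ∈ B ∧ Q (n + i)) (Classical.propDecidable _) 1 0) = 1 := if_pos ⟨g1 i hi, g2⟩
      refine le_trans (le_of_eq g3.symm) ?_
      exact Finset.single_le_sum (f := fun i => @ite ℝ (n + i ∈ B ∧ Q (n + i)) (Classical.propDecidable _) 1 0)
        (fun j _ => by split_ifs <;> norm_num) (Finset.mem_range.2 hi))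
  rw [one_mul] at k5
  have hM : (m : ℝ) ≤ M := by
    have : m ≤ M := by omega
    exact_mod_cast this
  have hm0 : (0 : ℝ) ≤ m := Nat.cast_nonneg _
  have hc0 := ct_nonneg (M + m) (fun n => n ∈ B ∧ Q n)
  have k6 : d / 2 * M ≤ (m + 1) * ct (M + m) (fun n => n ∈ B ∧ Q n) := by nlinarith
  push_cast
  rw [div_mul_eq_mul_div, div_le_iff₀ (by positivity)]
  nlinarith

theorem extreme (RH : RiemannHypothesis) : ∀ a b : ℝ, a < b → ∃ κ : ℝ, 0 < κ ∧ ∃ N0 : ℕ, ∀ N : ℕ, N0 ≤ N →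
    κ * N ≤ ct N (fun n => Near a b n ∧ 1888 / 1000 < dlt n) ∧
    κ * N ≤ ct N (fun n => Near a b n ∧ dlt n < 6686 / 10000) := by
  intro a b hab
  have hG : 0 < G01 a b := by
    unfold G01
    refine ENNReal.toReal_pos (fun h0 => ?_) (measure_ne_top _ _)
    have h1 := ProbabilityTheory.gaussianReal_absolutelyContinuous' 0 (v := 1) one_ne_zero h0
    rw [Real.volume_Ioo, ENNReal.ofReal_eq_zero] at h1
    linarith
  obtain ⟨θ, hθ, hab', hG'⟩ := G01_shrink hab (show 0 < G01 a b / 2 by positivity)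
  obtain ⟨N1, h1⟩ := low_all RH hab' (show 0 < G01 a b / 4 by positivity)
  have hS := slow RH (a := a) (a' := a + θ) (b := b) (b' := b - θ) (by linarith) (by linarith)
  have hA : ∃ N0 : ℕ, ∀ N : ℕ, N0 ≤ N → G01 a b / 4 * N ≤ ct N (fun n => n ∈ {n | Near (a + θ) (b - θ) n}) := by
    refine ⟨N1, fun N hN => ?_⟩
    refine le_trans ?_ (h1 N hN)
    apply mul_le_mul_of_nonneg_right _ (Nat.cast_nonneg _)
    linarith
  obtain ⟨κ1, hκ1, Na, ha⟩ := pos_run (Q := fun n => 1888 / 1000 < dlt n) (fun ε hε => by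
    obtain ⟨m, N0, h⟩ := Pool.Agent.Results.MP_21f43f_nt.LargeGapsAlmostAllRuns.result RH ε hε
    refine ⟨m, N0, fun N hN => le_trans (ct_mono fun n _ _ hn i hi => not_lt.1 (hn i hi)) (h N hN)⟩)
    hS (by positivity) hA
  obtain ⟨κ2, hκ2, Nb, hb⟩ := pos_run (Q := fun n => dlt n < 6686 / 10000) (fun ε hε => by
    obtain ⟨m, N0, h⟩ := Pool.Agent.Results.MP_21f43f_nt.SmallGapsAlmostAllRuns.result RH ε hε
    refine ⟨m, N0, fun N hN => le_trans (ct_mono fun n _ _ hn i hi => not_lt.1 (hn i hi)) (h N hN)⟩)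
    hS (by positivity) hA
  refine ⟨min κ1 κ2, lt_min hκ1 hκ2, max Na Nb, fun N hN => ⟨?_, ?_⟩⟩
  · refine le_trans ?_ (ha N ((le_max_left _ _).trans hN))
    exact mul_le_mul_of_nonneg_right (min_le_left _ _) (Nat.cast_nonneg _)
  · refine le_trans ?_ (hb N ((le_max_right _ _).trans hN))
    exact mul_le_mul_of_nonneg_right (min_le_right _ _) (Nat.cast_nonneg _)

end

end Run7.h911.SZ
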