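import Pool.Agent.H357R2.SI.Moment
import Pool.Agent.K3h89.SI.Real
import Pool.Agent.Helper601.BT
import Pool.Agent.H774EP.Core

set_option autoImplicit false

/-! # Primes in windows: moments over a short interval (helper911)

The first two lemmas follow `Pool.Agent.H357R2.SI.Moment`. -/

namespace Run7.h911.TD

open Filter Finset Pool.Agent.H357R2.SI

/-- the primes in `(A, B]` -/
def PA (A B : ℕ) : Finset ℕ := (Ioc A B).filter Nat.Prime

lemma mem_PA {A B p : ℕ} : p ∈ PA A B ↔ (A < p ∧ p ≤ B) ∧ p.Prime := by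
  unfold PA
  rw [mem_filter, mem_Ioc]

/-- pairs of primes at distance less than `T` -/
lemma close_pairsA (A Z T : ℕ) :
    (((PA A Z) ×ˢ (PA A Z)).filter (fun x => x.1 < x.2 + T ∧ x.2 < x.1 + T)).card ≤
      (PA A Z).card + 2 * ∑ h ∈ Icc 1 T,
        ((Ioc A Z).filter (fun n => n.Prime ∧ (n + h).Prime)).card := by
  classical
  set D := (PA A Z).image (fun p => (p, p)) with hD
  set U := (Icc 1 T).biUnion (fun h =>
    ((Ioc A Z).filter (fun n => n.Prime ∧ (n + h).Prime)).image (fun p => (p, p + h))) with hU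
  set V := (Icc 1 T).biUnion (fun h =>
    ((Ioc A Z).filter (fun n => n.Prime ∧ (n + h).Prime)).image (fun p => (p + h, p))) with hV
  have hsub : ((PA A Z) ×ˢ (PA A Z)).filter (fun x => x.1 < x.2 + T ∧ x.2 < x.1 + T) ⊆ D ∪ (U ∪ V) := by
    rintro ⟨p, q⟩ hx
    rw [mem_filter, mem_product, mem_PA, mem_PA] at hx
    obtain ⟨⟨⟨⟨hpA, hpZ⟩, hp⟩, ⟨hqA, hqZ⟩, hq⟩, h1, h2⟩ := hx
    simp only at hp hpA hqA hpZ hq hqZ h1 h2
    rw [mem_union, mem_union]
    rcases lt_trichotomy p q with h | h | h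
    · right; left
      rw [hU, mem_biUnion]
      refine ⟨q - p, mem_Icc.mpr ⟨by omega, by omega⟩, ?_⟩
      rw [mem_image]
      refine ⟨p, ?_, ?_⟩
      · rw [mem_filter, mem_Ioc]
        have : p + (q - p) = q := by omega
        rw [this]
        exact ⟨⟨hpA, hpZ⟩, hp, hq⟩
      · have : p + (q - p) = q := by omega
        rw [this]
    · left
      rw [hD, mem_image]
      exact ⟨p, mem_PA.mpr ⟨⟨hpA, hpZ⟩, hp⟩, by rw [h]⟩
    · right; right
      rw [hV, mem_biUnion]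
      refine ⟨p - q, mem_Icc.mpr ⟨by omega, by omega⟩, ?_⟩
      rw [mem_image]
      have : q + (p - q) = p := by omega
      refine ⟨q, ?_, ?_⟩
      · rw [mem_filter, mem_Ioc, this]
        exact ⟨⟨hqA, hqZ⟩, hq, hp⟩
      · rw [this]
  have hDc : D.card ≤ (PA A Z).card := card_image_le
  have hUc : U.card ≤ ∑ h ∈ Icc 1 T,
        ((Ioc A Z).filter (fun n => n.Prime ∧ (n + h).Prime)).card :=
    card_biUnion_le.trans (sum_le_sum fun h _ => card_image_le)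
  have hVc : V.card ≤ ∑ h ∈ Icc 1 T,
        ((Ioc A Z).filter (fun n => n.Prime ∧ (n + h).Prime)).card :=
    card_biUnion_le.trans (sum_le_sum fun h _ => card_image_le)
  have h1 := card_le_card hsub
  have h2 := card_union_le D (U ∪ V)
  have h3 := card_union_le U V
  omega

/-- second moment of primes in windows -/
lemma second_momentA (A Y T : ℕ) :
    ∑ n ∈ Ico A (A + Y), (pc n (n + T)) ^ 2 ≤
      T * ((PA A (A + (Y + T))).card + 2 * ∑ h ∈ Icc 1 T,
        ((Ioc A (A + (Y + T))).filter (fun n => n.Prime ∧ (n + h).Prime)).card) := by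
  classical
  set Z := A + (Y + T) with hZ
  set Q := ((PA A Z) ×ˢ (PA A Z)).filter (fun x => x.1 < x.2 + T ∧ x.2 < x.1 + T) with hQ
  have h1 : ∀ n ∈ Ico A (A + Y), (pc n (n + T)) ^ 2 =
      (Q.filter (fun x => (n < x.1 ∧ x.1 ≤ n + T) ∧ (n < x.2 ∧ x.2 ≤ n + T))).card := by
    intro n hn
    rw [mem_Ico] at hn
    rw [sq, pc, ← card_product]
    congr 1
    ext ⟨p, q⟩
    rw [mem_product, mem_filter, mem_filter, mem_Ioc, mem_Ioc,
      mem_filter, hQ, mem_filter, mem_product, mem_PA, mem_PA]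
    constructor
    · rintro ⟨⟨h1, h2⟩, h3, h4⟩
      simp only at h1 h2 h3 h4 ⊢
      exact ⟨⟨⟨⟨⟨by omega, by omega⟩, h2⟩, ⟨by omega, by omega⟩, h4⟩, by omega, by omega⟩, h1, h3⟩
    · rintro ⟨⟨⟨⟨_, h1⟩, _, h2⟩, _⟩, h3, h4⟩
      exact ⟨⟨h3, h1⟩, h4, h2⟩
  rw [sum_congr rfl h1]
  have h2 : ∀ x ∈ Q, (∑ n ∈ Ico A (A + Y),
      if (n < x.1 ∧ x.1 ≤ n + T) ∧ (n < x.2 ∧ x.2 ≤ n + T) then 1 else 0) ≤ T := by
    intro x _
    rw [← card_filter]
    have : (Ico A (A + Y)).filter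
        (fun n => (n < x.1 ∧ x.1 ≤ n + T) ∧ (n < x.2 ∧ x.2 ≤ n + T)) ⊆
        Ico (x.1 - T) x.1 := by
      intro n hn
      rw [mem_filter] at hn
      rw [mem_Ico]
      omega
    refine (card_le_card this).trans ?_
    rw [Nat.card_Ico]
    omega
  have h3 : ∑ n ∈ Ico A (A + Y),
      (Q.filter (fun x => (n < x.1 ∧ x.1 ≤ n + T) ∧ (n < x.2 ∧ x.2 ≤ n + T))).card ≤ T * Q.card := by
    simp only [card_filter]
    rw [sum_comm]
    refine (sum_le_sum h2).trans ?_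
    rw [sum_const, smul_eq_mul, mul_comm]
  exact h3.trans (Nat.mul_le_mul_left _ (close_pairsA A Z T))

/-- first moment of primes in windows -/
lemma first_momentA (A Y T : ℕ) :
    T * ((Icc (A + T) (A + Y)).filter Nat.Prime).card ≤ ∑ n ∈ Ico A (A + Y), pc n (n + T) := by
  classical
  have h1 : ∀ n ∈ Ico A (A + Y), (((Icc (A + T) (A + Y)).filter Nat.Prime).filter
      (fun p => n < p ∧ p ≤ n + T)).card ≤ pc n (n + T) := by
    intro n _
    unfold pc
    refine card_le_card fun p hp => ?_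
    rw [mem_filter, mem_filter] at hp
    rw [mem_filter, mem_Ioc]
    exact ⟨hp.2, hp.1.2⟩
  refine le_trans ?_ (sum_le_sum h1)
  simp only [card_filter (fun p => _ < p ∧ p ≤ _ + T)]
  rw [sum_comm, mul_comm, ← smul_eq_mul, ← sum_const]
  refine sum_le_sum fun p hp => ?_
  rw [mem_filter, mem_Icc] at hp
  rw [← card_filter]
  have h2 : Ico (p - T) p ⊆ (Ico A (A + Y)).filter (fun n => n < p ∧ p ≤ n + T) := by
    intro n hn
    rw [mem_Ico] at hn
    rw [mem_filter, mem_Ico]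
    omega
  refine le_trans ?_ (card_le_card h2)
  rw [Nat.card_Ico]
  omega

/-- the number of primes in an interval -/
lemma btA : ∃ C : ℝ, 1 ≤ C ∧ ∀ A U : ℕ, 2 ≤ U → ((PA A (A + U)).card : ℝ) ≤ C * U / Real.log U := by
  obtain ⟨C, hC1, hC⟩ := Pool.Agent.Helper601.brun_titchmarsh
  refine ⟨C, hC1, fun A U hU => ?_⟩
  refine le_trans ?_ (hC (A + 1) 1 U hU (Or.inl rfl))
  have : (PA A (A + U)).card ≤ ((range U).filter (fun k => (A + 1 + k * 1).Prime)).card := by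
    refine card_le_card_of_injOn (fun p => p - (A + 1)) ?_ ?_
    · intro p hp
      rw [mem_coe, mem_PA] at hp
      rw [mem_coe, mem_filter, mem_range]
      beta_reduce
      refine ⟨by omega, ?_⟩
      have : A + 1 + (p - (A + 1)) * 1 = p := by omega
      rw [this]
      exact hp.2
    · intro p hp q hq hpq
      rw [mem_coe, mem_PA] at hp hq
      simp only at hpq
      omega
  exact_mod_cast this

/-- the second moment over a short interval -/
lemma mom : ∃ C : ℝ, 1 ≤ C ∧ ∃ U₀ : ℕ, 3 ≤ U₀ ∧ ∀ A Y T : ℕ, U₀ ≤ Y → T ≤ Y →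
    ∑ n ∈ Ico A (A + Y), ((pc n (n + T) : ℕ) : ℝ) ^ 2 ≤
      C * T * Y * (1 / Real.log Y + T / Real.log Y ^ 2) := by
  obtain ⟨C1, hC1, u0, hps⟩ := pair_sieve
  obtain ⟨C2, hC2, hsg⟩ := sum_sg_sq
  obtain ⟨C3, hC3, hbt⟩ := btA
  have hCp : 1 ≤ C3 * (C1 * C2) := by
    have := one_le_mul_of_one_le_of_one_le hC1 hC2
    exact one_le_mul_of_one_le_of_one_le hC3 this
  refine ⟨2 * C3 + 4 * (C1 * C2), by nlinarith, max u0 3, le_max_right _ _, ?_⟩
  intro A Y T hY hT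
  have hY3 : 3 ≤ Y := (le_max_right _ _).trans hY
  have hYu : u0 ≤ Y := (le_max_left _ _).trans hY
  have hYr : (3 : ℝ) ≤ Y := by exact_mod_cast hY3
  have hY0 : (0 : ℝ) < Y := by linarith
  have hTr : (T : ℝ) ≤ Y := by exact_mod_cast hT
  have hT0 : (0 : ℝ) ≤ T := Nat.cast_nonneg T
  have hL : 0 < Real.log Y := Real.log_pos (by linarith)
  have hLU : Real.log Y ≤ Real.log ((Y + T : ℕ) : ℝ) := by
    refine Real.log_le_log hY0 ?_
    push_cast
    linarith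
  have hU2 : ((Y + T : ℕ) : ℝ) ≤ 2 * Y := by push_cast; linarith
  have hU0 : (0 : ℝ) ≤ ((Y + T : ℕ) : ℝ) := Nat.cast_nonneg _
  have hm := second_momentA A Y T
  have hm' : ∑ n ∈ Ico A (A + Y), ((pc n (n + T) : ℕ) : ℝ) ^ 2 ≤
      T * (((PA A (A + (Y + T))).card : ℝ) + 2 * ∑ h ∈ Icc 1 T,
        (((Ioc A (A + (Y + T))).filter (fun n => n.Prime ∧ (n + h).Prime)).card : ℝ)) := by
    exact_mod_cast hm
  have h1 : ((PA A (A + (Y + T))).card : ℝ) ≤ 2 * C3 * Y / Real.log Y := by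
    refine (hbt A (Y + T) (by omega)).trans ?_
    rw [div_le_div_iff₀ (lt_of_lt_of_le hL hLU) hL]
    have a1 : C3 * ((Y + T : ℕ) : ℝ) ≤ 2 * C3 * Y := by nlinarith
    have a2 : 0 ≤ 2 * C3 * (Y : ℝ) := by positivity
    nlinarith
  have h2 : ∀ h ∈ Icc 1 T, (((Ioc A (A + (Y + T))).filter (fun n => n.Prime ∧ (n + h).Prime)).card : ℝ) ≤
      2 * C1 * Y / Real.log Y ^ 2 * sg h ^ 2 := by
    intro h hh
    rw [mem_Icc] at hh
    refine (hps h A (Y + T) (by omega) (by omega)).trans ?_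
    have e : 2 * C1 * Y / Real.log Y ^ 2 * sg h ^ 2 = C1 * sg h ^ 2 * (2 * Y) / Real.log Y ^ 2 := by ring
    rw [e]
    have s0 : 0 ≤ C1 * sg h ^ 2 := by positivity
    have l2 : Real.log Y ^ 2 ≤ Real.log ((Y + T : ℕ) : ℝ) ^ 2 := by gcongr
    have l3 : 0 < Real.log Y ^ 2 := by positivity
    rw [div_le_div_iff₀ (lt_of_lt_of_le l3 l2) l3]
    have a1 : C1 * sg h ^ 2 * ((Y + T : ℕ) : ℝ) ≤ C1 * sg h ^ 2 * (2 * Y) :=
      mul_le_mul_of_nonneg_left hU2 s0
    have a2 : 0 ≤ C1 * sg h ^ 2 * (2 * (Y : ℝ)) := by positivity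
    nlinarith
  have h3 : ∑ h ∈ Icc 1 T, (((Ioc A (A + (Y + T))).filter (fun n => n.Prime ∧ (n + h).Prime)).card : ℝ) ≤
      2 * C1 * Y / Real.log Y ^ 2 * (C2 * T) := by
    refine (sum_le_sum h2).trans ?_
    rw [← mul_sum]
    exact mul_le_mul_of_nonneg_left (hsg T) (by positivity)
  refine hm'.trans ?_
  have h4 : ((PA A (A + (Y + T))).card : ℝ) + 2 * ∑ h ∈ Icc 1 T,
        (((Ioc A (A + (Y + T))).filter (fun n => n.Prime ∧ (n + h).Prime)).card : ℝ) ≤
      2 * C3 * Y / Real.log Y + 2 * (2 * C1 * Y / Real.log Y ^ 2 * (C2 * T)) := by linarith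
  refine (mul_le_mul_of_nonneg_left h4 hT0).trans ?_
  have e1 : (T : ℝ) * (2 * C3 * Y / Real.log Y + 2 * (2 * C1 * Y / Real.log Y ^ 2 * (C2 * T))) =
      T * Y * (2 * C3 * (1 / Real.log Y) + 4 * (C1 * C2) * (T / Real.log Y ^ 2)) := by ring
  have e2 : (2 * C3 + 4 * (C1 * C2)) * (T : ℝ) * Y * (1 / Real.log Y + T / Real.log Y ^ 2) =
      T * Y * ((2 * C3 + 4 * (C1 * C2)) * (1 / Real.log Y) +
        (2 * C3 + 4 * (C1 * C2)) * (T / Real.log Y ^ 2)) := by ring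
  rw [e1, e2]
  have p1 : 0 ≤ 1 / Real.log (Y : ℝ) := by positivity
  have p2 : 0 ≤ (T : ℝ) / Real.log Y ^ 2 := by positivity
  have p3 : 0 ≤ C1 * C2 := by positivity
  refine mul_le_mul_of_nonneg_left ?_ (by positivity)
  nlinarith [mul_nonneg p3 p1, mul_nonneg (show 0 ≤ C3 by linarith) p2]

/-- a finite Paley-Zygmund inequality -/
lemma pz {ι : Type} (s : Finset ι) (X : ι → ℝ) (t S1 S2 : ℝ)
    (ht : 0 ≤ t) (h1 : S1 ≤ ∑ i ∈ s, X i) (h2 : ∑ i ∈ s, X i ^ 2 ≤ S2) (hS : t * s.card ≤ S1) :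
    (S1 - t * s.card) ^ 2 ≤ ((s.filter (fun i => t ≤ X i)).card : ℝ) * S2 := by
  classical
  set G := s.filter (fun i => t ≤ X i) with hG
  have a1 : S1 - t * s.card ≤ ∑ i ∈ G, X i := by
    have e1 : ∑ i ∈ s, X i = ∑ i ∈ G, X i + ∑ i ∈ s.filter (fun i => ¬ t ≤ X i), X i :=
      (sum_filter_add_sum_filter_not s _ _).symm
    have e2 : ∑ i ∈ s.filter (fun i => ¬ t ≤ X i), X i ≤ t * s.card := by
      have e3 : ∑ i ∈ s.filter (fun i => ¬ t ≤ X i), X i ≤ ∑ i ∈ s.filter (fun i => ¬ t ≤ X i), t := by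
        refine sum_le_sum fun i hi => ?_
        rw [mem_filter] at hi
        exact (not_le.1 hi.2).le
      refine e3.trans ?_
      rw [sum_const, nsmul_eq_mul, mul_comm]
      refine mul_le_mul_of_nonneg_left ?_ ht
      exact_mod_cast card_filter_le _ _
    linarith
  have a2 : (∑ i ∈ G, X i) ^ 2 ≤ (G.card : ℝ) * ∑ i ∈ G, X i ^ 2 := sq_sum_le_card_mul_sum_sq
  have a3 : ∑ i ∈ G, X i ^ 2 ≤ S2 :=
    (sum_le_sum_of_subset_of_nonneg (filter_subset _ _) (fun i _ _ => by positivity)).trans h2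
  have a4 : (S1 - t * s.card) ^ 2 ≤ (∑ i ∈ G, X i) ^ 2 := by
    have : 0 ≤ S1 - t * s.card := by linarith
    gcongr
  refine a4.trans (a2.trans ?_)
  exact mul_le_mul_of_nonneg_left a3 (Nat.cast_nonneg _)

end Run7.h911.TD
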