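import Pool.Agent.Run7.h911.TD1

set_option autoImplicit false

/-! # Many windows over a short interval contain many primes (helper911) -/

namespace Run7.h911.TD

open Filter Finset Pool.Agent.H357R2.SI

lemma win : ∃ θ : ℝ, 0 < θ ∧ θ < 1 ∧ ∀ b : ℝ, 0 < b → ∃ c : ℝ, 0 < c ∧ ∃ x₁ : ℕ, ∀ A Y T : ℕ,
    x₁ ≤ A → (A : ℝ) ^ θ ≤ Y → Y ≤ A → b * Real.log Y ≤ T → 4 * T ≤ Y →
    c * Y ≤ (((Ico A (A + Y)).filter (fun n => c * (T / Real.log Y) ≤ (pc n (n + T) : ℝ))).card : ℝ) := by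
  classical
  obtain ⟨θ₀, c2, hθ0, hθ1, hc2, x₀, hcp⟩ := Pool.Agent.K3h89.SI.count_primes
  obtain ⟨C, hC1, U₀, hU3, hmom⟩ := mom
  refine ⟨(1 + θ₀) / 2, by linarith, by linarith, fun b hb => ?_⟩
  set θ := (1 + θ₀) / 2 with hθ
  obtain ⟨c3, hc3⟩ : ∃ c3 : ℝ, c3 = c2 / 8 := ⟨_, rfl⟩
  have hc3p : 0 < c3 := by rw [hc3]; positivity
  obtain ⟨c4, hc4⟩ : ∃ c4 : ℝ, c4 = c3 ^ 2 / (4 * (C * (1 + 1 / b))) := ⟨_, rfl⟩
  have hc4p : 0 < c4 := by rw [hc4]; positivity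
  have ev1 := (tendsto_rpow_atTop (show 0 < (1 - θ₀) / 2 by linarith)).eventually_ge_atTop (4 : ℝ)
  have ev2 := (tendsto_rpow_atTop (show 0 < θ by linarith)).eventually_ge_atTop (U₀ : ℝ)
  obtain ⟨x₁, hx₁⟩ := eventually_atTop.1 (ev1.and (ev2.and ((eventually_ge_atTop x₀).and (eventually_ge_atTop (3 : ℝ)))))
  refine ⟨min (c3 / 2) c4, lt_min (by positivity) hc4p, ⌈x₁⌉₊, ?_⟩
  intro A Y T hA hAY hYA hbT hTY
  have hAr : x₁ ≤ (A : ℝ) := (Nat.le_ceil x₁).trans (by exact_mod_cast hA)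
  obtain ⟨g1, g2, g3, g4⟩ := hx₁ A hAr
  have hA0 : (0 : ℝ) < A := by linarith
  have hYAr : (Y : ℝ) ≤ A := by exact_mod_cast hYA
  have hTYr : 4 * (T : ℝ) ≤ Y := by exact_mod_cast hTY
  have hT0 : (0 : ℝ) ≤ T := Nat.cast_nonneg T
  have hYU : (U₀ : ℝ) ≤ Y := g2.trans hAY
  have hYU' : U₀ ≤ Y := by exact_mod_cast hYU
  have hY3 : (3 : ℝ) ≤ Y := by
    have : (3 : ℝ) ≤ U₀ := by exact_mod_cast hU3
    linarith
  have hY0 : (0 : ℝ) < Y := by linarith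
  have hLY : 0 < Real.log Y := Real.log_pos (by linarith)
  -- the primes
  have hpos : (0 : ℝ) < A ^ θ₀ := Real.rpow_pos_of_pos hA0 _
  have hAθ : 4 * (A : ℝ) ^ θ₀ ≤ Y := by
    have e : (A : ℝ) ^ θ = A ^ θ₀ * A ^ ((1 - θ₀) / 2) := by
      rw [← Real.rpow_add hA0]
      congr 1
      rw [hθ]; ring
    nlinarith
  have hx : x₀ ≤ (A : ℝ) + T := by linarith
  have h2A : ((A : ℝ) + T) ^ θ₀ ≤ 2 * A ^ θ₀ := by
    have h1 : ((A : ℝ) + T) ^ θ₀ ≤ (2 * A) ^ θ₀ :=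
      Real.rpow_le_rpow (by positivity) (by linarith) hθ0.le
    have h2 : (2 * (A : ℝ)) ^ θ₀ = 2 ^ θ₀ * A ^ θ₀ := Real.mul_rpow (by norm_num) hA0.le
    have h3 : (2 : ℝ) ^ θ₀ ≤ 2 := by
      calc (2 : ℝ) ^ θ₀ ≤ 2 ^ (1 : ℝ) := Real.rpow_le_rpow_of_exponent_le (by norm_num) hθ1.le
        _ = 2 := by norm_num
    rw [h2] at h1
    nlinarith
  have hcount := hcp ((A : ℝ) + T) ((Y : ℝ) - T) hx (by linarith) (by linarith)
  have hnc : ({p : ℕ | p.Prime ∧ (A : ℝ) + T < p ∧ (p : ℝ) < (A : ℝ) + T + ((Y : ℝ) - T)}.ncard : ℝ) ≤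
      (((Icc (A + T) (A + Y)).filter Nat.Prime).card : ℝ) := by
    have hsub : {p : ℕ | p.Prime ∧ (A : ℝ) + T < p ∧ (p : ℝ) < (A : ℝ) + T + ((Y : ℝ) - T)} ⊆
        (((Icc (A + T) (A + Y)).filter Nat.Prime : Finset ℕ) : Set ℕ) := by
      rintro p ⟨hp, h1, h2⟩
      rw [mem_coe, mem_filter, mem_Icc]
      have h3 : (p : ℝ) < (A : ℝ) + Y := by linarith
      refine ⟨⟨?_, ?_⟩, hp⟩
      · have : (A + T : ℕ) < p := by exact_mod_cast h1
        exact this.le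
      · have : p < (A + Y : ℕ) := by exact_mod_cast h3
        exact this.le
    have := Set.ncard_le_ncard hsub (finite_toSet _)
    rw [Set.ncard_coe_finset] at this
    exact_mod_cast this
  have hlx : Real.log ((A : ℝ) + T) ≤ 4 * Real.log Y := by
    have h1 : Real.log ((A : ℝ) + T) ≤ Real.log ((A : ℝ) * A) := by
      refine Real.log_le_log (by positivity) ?_
      nlinarith
    rw [Real.log_mul hA0.ne' hA0.ne'] at h1
    have h2 : Real.log ((A : ℝ) ^ θ) ≤ Real.log Y := Real.log_le_log (by positivity) hAY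
    rw [Real.log_rpow hA0] at h2
    have h3 : 0 < Real.log (A : ℝ) := Real.log_pos (by linarith)
    have h4 : 1 / 2 ≤ θ := by rw [hθ]; linarith
    nlinarith
  have hlx0 : 0 < Real.log ((A : ℝ) + T) := Real.log_pos (by linarith)
  have hcard : c3 * (Y / Real.log Y) ≤ (((Icc (A + T) (A + Y)).filter Nat.Prime).card : ℝ) := by
    refine le_trans ?_ (hcount.trans hnc)
    have h1 : (Y : ℝ) / 2 ≤ (Y : ℝ) - T := by linarith
    have h2 : c2 * ((Y / 2) / (4 * Real.log Y)) ≤ c2 * (((Y : ℝ) - T) / Real.log ((A : ℝ) + T)) := by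
      refine mul_le_mul_of_nonneg_left ?_ hc2.le
      exact div_le_div₀ (by linarith) h1 hlx0 hlx
    refine le_trans (le_of_eq ?_) h2
    rw [hc3]
    field_simp
    ring
  -- moments
  obtain ⟨lam, hlam⟩ : ∃ lam : ℝ, lam = T / Real.log Y := ⟨_, rfl⟩
  have hlamb : b ≤ lam := by rw [hlam, le_div_iff₀ hLY]; exact hbT
  have hlam0 : 0 < lam := lt_of_lt_of_le hb hlamb
  have hS1 : c3 * lam * Y ≤ ∑ n ∈ Ico A (A + Y), ((pc n (n + T) : ℕ) : ℝ) := by
    have h1 := first_momentA A Y T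
    have h2 : (T : ℝ) * (((Icc (A + T) (A + Y)).filter Nat.Prime).card : ℝ) ≤
        ∑ n ∈ Ico A (A + Y), ((pc n (n + T) : ℕ) : ℝ) := by exact_mod_cast h1
    refine le_trans ?_ h2
    have h3 := mul_le_mul_of_nonneg_left hcard hT0
    refine le_trans (le_of_eq ?_) h3
    rw [hlam]
    ring
  have hS2 : ∑ n ∈ Ico A (A + Y), ((pc n (n + T) : ℕ) : ℝ) ^ 2 ≤ C * (1 + 1 / b) * lam ^ 2 * Y := by
    refine (hmom A Y T hYU' (by omega)).trans ?_
    have e : C * T * Y * (1 / Real.log Y + T / Real.log Y ^ 2) = C * Y * (lam + lam ^ 2) := by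
      rw [hlam]
      field_simp
    rw [e]
    have h1 : lam ≤ 1 / b * lam ^ 2 := by
      have : lam * b ≤ lam * lam := mul_le_mul_of_nonneg_left hlamb hlam0.le
      calc lam = 1 / b * (lam * b) := by field_simp
        _ ≤ 1 / b * (lam * lam) := mul_le_mul_of_nonneg_left this (by positivity)
        _ = 1 / b * lam ^ 2 := by ring
    have h2 : 0 ≤ C * (Y : ℝ) := by positivity
    calc C * (Y : ℝ) * (lam + lam ^ 2) ≤ C * Y * (1 / b * lam ^ 2 + lam ^ 2) := by gcongr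
      _ = C * (1 + 1 / b) * lam ^ 2 * Y := by ring
  have hcY : (((Ico A (A + Y)).card : ℕ) : ℝ) = Y := by
    rw [Nat.card_Ico]
    congr 1
    omega
  have hpz := pz (Ico A (A + Y)) (fun n => ((pc n (n + T) : ℕ) : ℝ)) (c3 / 2 * lam) (c3 * lam * Y)
    (C * (1 + 1 / b) * lam ^ 2 * Y) (by positivity) hS1 hS2 (by
      rw [hcY]
      have : 0 < c3 * lam * Y := by positivity
      linarith)
  rw [hcY] at hpz
  have e2 : (c3 * lam * Y - c3 / 2 * lam * Y) ^ 2 = c4 * Y * (C * (1 + 1 / b) * lam ^ 2 * Y) := by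
    rw [hc4]
    field_simp
    ring
  rw [e2] at hpz
  have hG : c4 * Y ≤ (((Ico A (A + Y)).filter (fun n => c3 / 2 * lam ≤ ((pc n (n + T) : ℕ) : ℝ))).card : ℝ) :=
    le_of_mul_le_mul_right hpz (by positivity)
  have hmono : ((Ico A (A + Y)).filter (fun n => c3 / 2 * lam ≤ ((pc n (n + T) : ℕ) : ℝ))).card ≤
      ((Ico A (A + Y)).filter (fun n => min (c3 / 2) c4 * (T / Real.log Y) ≤ (pc n (n + T) : ℝ))).card := by
    refine card_le_card fun n hn => ?_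
    rw [mem_filter] at hn ⊢
    refine ⟨hn.1, le_trans ?_ hn.2⟩
    rw [← hlam]
    exact mul_le_mul_of_nonneg_right (min_le_left _ _) hlam0.le
  calc min (c3 / 2) c4 * (Y : ℝ) ≤ c4 * Y := mul_le_mul_of_nonneg_right (min_le_right _ _) hY0.le
    _ ≤ _ := hG
    _ ≤ _ := by exact_mod_cast hmono

/-- the `n`-th prime, `P 1 = 2` -/
noncomputable def P (n : ℕ) : ℕ := Nat.nth Nat.Prime (n - 1)

lemma P_ge (n : ℕ) (hn : 1 ≤ n) : n + 1 ≤ P n := by
  have := Nat.add_two_le_nth_prime (n - 1)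
  unfold P
  omega

lemma P_lower : ∃ c : ℝ, 0 < c ∧ ∀ n : ℕ, 2 ≤ n → c * n * Real.log n ≤ P n := by
  classical
  obtain ⟨C, hC1, hC⟩ := btA
  refine ⟨1 / C, by positivity, fun n hn => ?_⟩
  have hP := P_ge n (by omega)
  have h1 : (n : ℝ) ≤ ((PA 0 (0 + P n)).card : ℝ) := by
    have : ((range n).image (Nat.nth Nat.Prime)).card ≤ (PA 0 (0 + P n)).card := by
      refine card_le_card fun p hp => ?_
      rw [mem_image] at hp
      obtain ⟨i, hi, rfl⟩ := hp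
      rw [mem_range] at hi
      rw [mem_PA]
      refine ⟨⟨(Nat.prime_nth_prime i).pos, ?_⟩, Nat.prime_nth_prime i⟩
      rw [zero_add]
      exact (Nat.nth_monotone Nat.infinite_setOfPred_prime) (by omega)
    rw [card_image_of_injective _ (Nat.nth_injective Nat.infinite_setOfPred_prime), card_range] at this
    exact_mod_cast this
  have h2 := h1.trans (hC 0 (P n) (by omega))
  have hn2 : (2 : ℝ) ≤ n := by exact_mod_cast hn
  have hPn : (n : ℝ) ≤ P n := by exact_mod_cast (by omega : n ≤ P n)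
  have hl : 0 < Real.log n := Real.log_pos (by linarith)
  have hl2 : Real.log n ≤ Real.log (P n) := Real.log_le_log (by linarith) hPn
  rw [le_div_iff₀ (by linarith)] at h2
  have h3 : (n : ℝ) * Real.log n ≤ C * P n := by nlinarith
  calc 1 / C * (n : ℝ) * Real.log n = 1 / C * (n * Real.log n) := by ring
    _ ≤ 1 / C * (C * P n) := mul_le_mul_of_nonneg_left h3 (by positivity)
    _ = P n := by field_simp

lemma P_upper (n : ℕ) (hn : 7 ≤ n) : (P n : ℝ) ≤ 9 * (n : ℝ) ^ 2 := by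
  have h1 := Pool.Agent.H774EP.nth_le (show 6 ≤ n - 1 by omega)
  have hn1 : ((n - 1 : ℕ) : ℝ) ≤ n := by exact_mod_cast (by omega : n - 1 ≤ n)
  have h2 : Real.log ((n - 1 : ℕ) : ℝ) ≤ n := by
    have : (6 : ℝ) ≤ ((n - 1 : ℕ) : ℝ) := by exact_mod_cast (by omega : 6 ≤ n - 1)
    have h3 := Real.log_le_sub_one_of_pos (show (0 : ℝ) < ((n - 1 : ℕ) : ℝ) by linarith)
    linarith
  have h0 : 0 ≤ Real.log ((n - 1 : ℕ) : ℝ) := Real.log_natCast_nonneg _
  have hn0 : (0 : ℝ) ≤ ((n - 1 : ℕ) : ℝ) := Nat.cast_nonneg _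
  unfold P
  refine h1.trans ?_
  have : ((n - 1 : ℕ) : ℝ) * Real.log ((n - 1 : ℕ) : ℝ) ≤ n * n := mul_le_mul hn1 h2 h0 (Nat.cast_nonneg _)
  nlinarith

end Run7.h911.TD
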