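import Pool.Agent.Run7.h911.TD2

set_option autoImplicit false

/-! # The cells (helper911) -/

namespace Run7.h911.TD

open Filter Finset Pool.Agent.H357R2.SI

lemma sq_le_two_pow : ∃ d₀ : ℕ, ∀ d : ℕ, d₀ ≤ d → 144 * (d : ℝ) ^ 2 ≤ 2 ^ d := by
  have h := tendsto_pow_const_div_const_pow_of_one_lt 2 (show (1 : ℝ) < 2 by norm_num)
  obtain ⟨d₀, hd⟩ := eventually_atTop.1 (h.eventually (gt_mem_nhds (show (0 : ℝ) < 1 / 144 by norm_num)))
  refine ⟨d₀, fun d hd0 => ?_⟩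
  have h1 := hd d hd0
  rw [div_lt_iff₀ (by positivity)] at h1
  linarith

/-- the cells of level `k` contain many windows with many primes -/
lemma cells (a : ℕ) (ha : 2 ≤ a) : ∃ L : ℕ, 2 ≤ L ∧ ∃ c : ℝ, 0 < c ∧ c ≤ 1 ∧ ∀ J : ℕ, ∃ k₀ : ℕ, ∀ k : ℕ, k₀ ≤ k →
    ∀ i : ℕ, 1 ≤ i → i ≤ a ^ (k + J) → ∀ n ∈ Ioc (L * k) (2 * (L * k)),
    c * (a : ℝ) ^ (n - k) ≤ (((Ico (i * a ^ (n - k)) ((i + 1) * a ^ (n - k))).filter
      (fun m => c * Real.log n ≤ (pc m (m + P n) : ℝ))).card : ℝ) := by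
  classical
  obtain ⟨θ, hθ0, hθ1, hw⟩ := win
  have har : (2 : ℝ) ≤ a := by exact_mod_cast ha
  have ha0 : (0 : ℝ) < a := by linarith
  have hla : 0 < Real.log a := Real.log_pos (by linarith)
  obtain ⟨c, hc, x₁, hwin⟩ := hw (1 / Real.log a) (by positivity)
  obtain ⟨c1, hc1, hPl⟩ := P_lower
  obtain ⟨d₀, hd₀⟩ := sq_le_two_pow
  obtain ⟨L, hL⟩ : ∃ L : ℕ, L = max 2 (⌈2 / (1 - θ)⌉₊ + 1) := ⟨_, rfl⟩
  have hL2 : 2 ≤ L := by rw [hL]; exact le_max_left _ _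
  have hLθ : 2 ≤ ((L : ℝ) - 1) * (1 - θ) := by
    have h1 : (⌈2 / (1 - θ)⌉₊ : ℝ) + 1 ≤ L := by
      have : ⌈2 / (1 - θ)⌉₊ + 1 ≤ L := by rw [hL]; exact le_max_right _ _
      exact_mod_cast this
    have h2 : 2 / (1 - θ) ≤ (L : ℝ) - 1 := by
      have := Nat.le_ceil (2 / (1 - θ))
      linarith
    rwa [div_le_iff₀ (by linarith)] at h2
  obtain ⟨c', hc'⟩ : ∃ c' : ℝ, c' = min 1 (min c (c * c1 / Real.log a)) := ⟨_, rfl⟩
  have hc'0 : 0 < c' := by rw [hc']; exact lt_min one_pos (lt_min hc (by positivity))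
  refine ⟨L, hL2, c', hc'0, by rw [hc']; exact min_le_left _ _, fun J => ⟨J + d₀ + x₁ + 7, fun k hk i hi1 hi2 n hn => ?_⟩⟩
  rw [mem_Ioc] at hn
  obtain ⟨d, hd⟩ : ∃ d : ℕ, d = n - k := ⟨_, rfl⟩
  have hkL : 2 * k ≤ L * k := Nat.mul_le_mul_right k hL2
  have hdk : k ≤ d := by omega
  have hnd : n ≤ 2 * d := by omega
  have hLk : (L - 1) * k ≤ d := by
    have : (L - 1) * k + k = L * k := by
      rw [← Nat.succ_mul]
      congr 1
      omega
    omega
  rw [← hd]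
  have hA : (i + 1) * a ^ d = i * a ^ d + a ^ d := by ring
  rw [hA]
  have had : d ≤ a ^ d := (Nat.lt_pow_self (by omega)).le
  have h1 : x₁ ≤ i * a ^ d := by
    calc x₁ ≤ d := by omega
      _ ≤ a ^ d := had
      _ ≤ i * a ^ d := Nat.le_mul_of_pos_left _ (by omega)
  have h2 : ((i * a ^ d : ℕ) : ℝ) ^ θ ≤ ((a ^ d : ℕ) : ℝ) := by
    have e1 : ((i * a ^ d : ℕ) : ℝ) ≤ (a : ℝ) ^ ((k + J + d : ℕ) : ℝ) := by
      rw [Real.rpow_natCast]
      have : i * a ^ d ≤ a ^ (k + J + d) := by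
        rw [pow_add]
        exact Nat.mul_le_mul_right _ hi2
      exact_mod_cast this
    have e2 : ((i * a ^ d : ℕ) : ℝ) ^ θ ≤ ((a : ℝ) ^ ((k + J + d : ℕ) : ℝ)) ^ θ :=
      Real.rpow_le_rpow (Nat.cast_nonneg _) e1 hθ0.le
    refine e2.trans ?_
    rw [← Real.rpow_mul ha0.le]
    have e3 : ((a ^ d : ℕ) : ℝ) = (a : ℝ) ^ (d : ℝ) := by rw [Real.rpow_natCast]; push_cast; rfl
    rw [e3]
    refine Real.rpow_le_rpow_of_exponent_le (by linarith) ?_
    have hkJ : ((k + J + d : ℕ) : ℝ) ≤ 2 * k + d := by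
      have : k + J + d ≤ 2 * k + d := by omega
      exact_mod_cast this
    have hdL : ((L : ℝ) - 1) * k ≤ d := by
      have h3 : (((L - 1) * k : ℕ) : ℝ) ≤ d := by exact_mod_cast hLk
      rw [Nat.cast_mul, Nat.cast_sub (by omega)] at h3
      simpa using h3
    have hk0 : (0 : ℝ) ≤ k := Nat.cast_nonneg k
    calc ((k + J + d : ℕ) : ℝ) * θ ≤ (2 * k + d) * θ := mul_le_mul_of_nonneg_right hkJ hθ0.le
      _ ≤ d := by nlinarith
  have h3 : a ^ d ≤ i * a ^ d := Nat.le_mul_of_pos_left _ (by omega)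
  have hP1 := P_ge n (by omega)
  have hlogY : Real.log ((a ^ d : ℕ) : ℝ) = d * Real.log a := by push_cast; rw [Real.log_pow]
  have hdn : (d : ℝ) ≤ n := by exact_mod_cast (by omega : d ≤ n)
  have hPn : (n : ℝ) ≤ P n := by exact_mod_cast (by omega : n ≤ P n)
  have h4 : 1 / Real.log a * Real.log ((a ^ d : ℕ) : ℝ) ≤ (P n : ℝ) := by
    rw [hlogY]
    have : 1 / Real.log a * (d * Real.log a) = d := by field_simp
    rw [this]
    linarith
  have h5 : 4 * P n ≤ a ^ d := by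
    have e1 := P_upper n (by omega)
    have e2 := hd₀ d (by omega)
    have e3 : (2 : ℝ) ^ d ≤ (a : ℝ) ^ d := by gcongr
    have e4 : (n : ℝ) ≤ 2 * d := by exact_mod_cast hnd
    have e5 : (n : ℝ) ^ 2 ≤ (2 * d) ^ 2 := by gcongr
    have e6 : (4 : ℝ) * P n ≤ (a : ℝ) ^ d := by nlinarith
    exact_mod_cast e6
  have hmain := hwin (i * a ^ d) (a ^ d) (P n) h1 h2 h3 h4 h5
  have hcc : c' ≤ c := by rw [hc']; exact (min_le_right _ _).trans (min_le_left _ _)
  have hcc2 : c' ≤ c * c1 / Real.log a := by rw [hc']; exact (min_le_right _ _).trans (min_le_right _ _)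
  have hmono : ((Ico (i * a ^ d) (i * a ^ d + a ^ d)).filter
      (fun m => c * ((P n : ℝ) / Real.log ((a ^ d : ℕ) : ℝ)) ≤ (pc m (m + P n) : ℝ))).card ≤
      ((Ico (i * a ^ d) (i * a ^ d + a ^ d)).filter (fun m => c' * Real.log n ≤ (pc m (m + P n) : ℝ))).card := by
    refine card_le_card fun m hm => ?_
    rw [mem_filter] at hm ⊢
    refine ⟨hm.1, le_trans ?_ hm.2⟩
    rw [hlogY]
    have hd0 : (0 : ℝ) < d := by exact_mod_cast (by omega : 0 < d)
    have hn0 : (0 : ℝ) < n := lt_of_lt_of_le hd0 hdn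
    have hln : 0 ≤ Real.log n := Real.log_natCast_nonneg n
    have e1 := hPl n (by omega)
    have e2 : c1 * Real.log n / Real.log a ≤ (P n : ℝ) / (d * Real.log a) := by
      rw [div_le_div_iff₀ hla (by positivity)]
      have e3 : c1 * Real.log n * d ≤ P n := by
        calc c1 * Real.log n * d ≤ c1 * Real.log n * n := by gcongr
          _ = c1 * n * Real.log n := by ring
          _ ≤ P n := e1
      calc c1 * Real.log n * (d * Real.log a) = c1 * Real.log n * d * Real.log a := by ring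
        _ ≤ P n * Real.log a := mul_le_mul_of_nonneg_right e3 hla.le
    calc c' * Real.log n ≤ c * c1 / Real.log a * Real.log n := mul_le_mul_of_nonneg_right hcc2 hln
      _ = c * (c1 * Real.log n / Real.log a) := by ring
      _ ≤ c * ((P n : ℝ) / (d * Real.log a)) := mul_le_mul_of_nonneg_left e2 hc.le
  calc c' * (a : ℝ) ^ d ≤ c * (a : ℝ) ^ d := mul_le_mul_of_nonneg_right hcc (by positivity)
    _ = c * ((a ^ d : ℕ) : ℝ) := by push_cast; rfl
    _ ≤ _ := hmain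
    _ ≤ _ := by exact_mod_cast hmono

end Run7.h911.TD
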