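import Mathlib

set_option autoImplicit false

/-! # A law for trees of cells (helper911) -/

namespace Run7.h911.TD

open Filter Finset

/-- sums over blocks -/
lemma sum_blocks (f : ℕ → ℝ) (b A B : ℕ) (hAB : A ≤ B) :
    ∑ m ∈ Ico (A * b) (B * b), f m = ∑ i ∈ Ico A B, ∑ m ∈ Ico (i * b) ((i + 1) * b), f m := by
  induction B, hAB using Nat.le_induction with
  | base => simp
  | succ B hB ih =>
    rw [sum_Ico_succ_top hB, ← ih]
    rw [sum_Ico_consecutive f (Nat.mul_le_mul_right b hB) (Nat.mul_le_mul_right b (Nat.le_succ B))]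

lemma sum_lift (f : ℕ → ℝ) (b A B : ℕ) (hb : 0 < b) (hAB : A ≤ B) :
    ∑ m ∈ Ico (A * b) (B * b), f (m / b) = b * ∑ i ∈ Ico A B, f i := by
  rw [sum_blocks _ b A B hAB, mul_sum]
  refine sum_congr rfl fun i _ => ?_
  have h1 : ∀ m ∈ Ico (i * b) ((i + 1) * b), f (m / b) = f i := by
    intro m hm
    rw [mem_Ico] at hm
    have : m / b = i := by
      rw [Nat.div_eq_iff hb]
      constructor
      · linarith [hm.1]
      · have := hm.2
        rw [Nat.add_mul, one_mul] at this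
        omega
    rw [this]
  rw [sum_congr rfl h1, sum_const, Nat.card_Ico, nsmul_eq_mul]
  congr 1
  have : (i + 1) * b - i * b = b := by rw [Nat.add_mul, one_mul]; omega
  rw [this]

section

variable (a L : ℕ) (E : ℕ → ℕ → Prop)

open Classical in
/-- the proportion of the good levels in a block -/
noncomputable def yy (j m : ℕ) : ℝ :=
  (((Ioc (L * (2 * L) ^ j) (2 * (L * (2 * L) ^ j))).filter
    (fun n => E n (m / a ^ (2 * (L * (2 * L) ^ j) - n)))).card : ℝ) / ((L * (2 * L) ^ j : ℕ) : ℝ)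

variable {a L E}

lemma yy_nonneg (j m : ℕ) : 0 ≤ yy a L E j m := by unfold yy; positivity

lemma yy_le_one (j m : ℕ) : yy a L E j m ≤ 1 := by
  classical
  unfold yy
  refine div_le_one_of_le₀ ?_ (Nat.cast_nonneg _)
  have h := card_filter_le (Ioc (L * (2 * L) ^ j) (2 * (L * (2 * L) ^ j)))
    (fun n => E n (m / a ^ (2 * (L * (2 * L) ^ j) - n)))
  rw [Nat.card_Ioc] at h
  exact_mod_cast h.trans (by omega)

/-- the hypothesis on the cells -/
def Cells (a L : ℕ) (E : ℕ → ℕ → Prop) (c : ℝ) (J k₀ : ℕ) : Prop :=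
  ∀ k : ℕ, k₀ ≤ k → ∀ i : ℕ, 1 ≤ i → i ≤ a ^ (k + J) → ∀ n ∈ Ioc (L * k) (2 * (L * k)),
    c * (a : ℝ) ^ (n - k) ≤ (({m | m ∈ Ico (i * a ^ (n - k)) ((i + 1) * a ^ (n - k)) ∧ E n m} : Set ℕ).ncard : ℝ)

lemma yy_sum (ha : 2 ≤ a) (hL : 2 ≤ L) {c : ℝ} {J k₀ : ℕ} (hC : Cells a L E c J k₀) {j : ℕ}
    (hj : k₀ ≤ (2 * L) ^ j) {i : ℕ} (hi1 : 1 ≤ i) (hi2 : i ≤ a ^ ((2 * L) ^ j + J)) :
    c * (a : ℝ) ^ (2 * (L * (2 * L) ^ j) - (2 * L) ^ j) ≤
      ∑ m ∈ Ico (i * a ^ (2 * (L * (2 * L) ^ j) - (2 * L) ^ j))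
        ((i + 1) * a ^ (2 * (L * (2 * L) ^ j) - (2 * L) ^ j)), yy a L E j m := by
  classical
  obtain ⟨k, hk⟩ : ∃ k : ℕ, k = (2 * L) ^ j := ⟨_, rfl⟩
  have hk0 : 0 < k := by rw [hk]; positivity
  obtain ⟨K, hK⟩ : ∃ K : ℕ, K = 2 * (L * k) := ⟨_, rfl⟩
  have hLk : k ≤ L * k := Nat.le_mul_of_pos_left _ (by omega)
  unfold yy
  rw [← hk] at hj hi2 ⊢
  rw [← hK]
  rw [← Finset.sum_div]
  have hLk0 : (0 : ℝ) < ((L * k : ℕ) : ℝ) := by exact_mod_cast (by omega : 0 < L * k)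
  rw [le_div_iff₀ hLk0]
  have e1 : ∑ m ∈ Ico (i * a ^ (K - k)) ((i + 1) * a ^ (K - k)),
      (((Ioc (L * k) K).filter (fun n => E n (m / a ^ (K - n)))).card : ℝ) =
      ∑ n ∈ Ioc (L * k) K, ∑ m ∈ Ico (i * a ^ (K - k)) ((i + 1) * a ^ (K - k)),
        (if E n (m / a ^ (K - n)) then (1 : ℝ) else 0) := by
    rw [sum_comm]
    refine sum_congr rfl fun m _ => ?_
    rw [card_filter]
    push_cast
    rfl
  rw [e1]
  have e2 : ∀ n ∈ Ioc (L * k) K, c * (a : ℝ) ^ (K - k) ≤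
      ∑ m ∈ Ico (i * a ^ (K - k)) ((i + 1) * a ^ (K - k)), (if E n (m / a ^ (K - n)) then (1 : ℝ) else 0) := by
    intro n hn
    have hn' := hn
    rw [mem_Ioc] at hn
    have hpow : a ^ (K - k) = a ^ (n - k) * a ^ (K - n) := by
      rw [← pow_add]
      congr 1
      omega
    rw [hpow, ← mul_assoc, ← mul_assoc]
    rw [sum_lift (fun m => if E n m then (1 : ℝ) else 0) (a ^ (K - n)) _ _ (by positivity)
      (Nat.mul_le_mul_right _ (Nat.le_succ i))]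
    have h1 := hC k hj i hi1 hi2 n (by rw [hK] at hn'; exact hn')
    have h2 : (({m | m ∈ Ico (i * a ^ (n - k)) ((i + 1) * a ^ (n - k)) ∧ E n m} : Set ℕ).ncard : ℝ) =
        ∑ m ∈ Ico (i * a ^ (n - k)) ((i + 1) * a ^ (n - k)), (if E n m then (1 : ℝ) else 0) := by
      have : ({m | m ∈ Ico (i * a ^ (n - k)) ((i + 1) * a ^ (n - k)) ∧ E n m} : Set ℕ) =
          (((Ico (i * a ^ (n - k)) ((i + 1) * a ^ (n - k))).filter (fun m => E n m) : Finset ℕ) : Set ℕ) := by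
        ext m
        simp
      rw [this, Set.ncard_coe_finset, card_filter]
      push_cast
      rfl
    rw [h2] at h1
    have har : (0 : ℝ) ≤ ((a ^ (K - n) : ℕ) : ℝ) := Nat.cast_nonneg _
    have h3 := mul_le_mul_of_nonneg_left h1 har
    refine le_trans (le_of_eq ?_) h3
    have : (a : ℝ) ^ (K - k) = (a : ℝ) ^ (n - k) * (a : ℝ) ^ (K - n) := by
      rw [← pow_add]
      congr 1
      omega
    rw [this]
    push_cast
    ring
  have e3 := card_nsmul_le_sum _ _ _ e2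
  rw [Nat.card_Ioc, nsmul_eq_mul] at e3
  have e4 : K - L * k = L * k := by omega
  rw [e4] at e3
  linarith

/-- an elementary inequality -/
lemma exp_neg_le {y : ℝ} (h0 : 0 ≤ y) (h1 : y ≤ 1) : Real.exp (-y) ≤ 1 - y / 2 := by
  rw [Real.exp_neg]
  have h2 : 1 + y ≤ Real.exp y := by linarith [Real.add_one_le_exp y]
  have h3 : (Real.exp y)⁻¹ ≤ (1 + y)⁻¹ := by gcongr
  refine h3.trans ?_
  rw [inv_le_iff_one_le_mul₀ (by linarith)]
  nlinarith

variable (a L E) in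
/-- the sum of the proportions of the good levels in the first blocks -/
noncomputable def ZZ (j₀ : ℕ) : ℕ → ℕ → ℝ
  | 0, _ => 0
  | M + 1, m => ZZ j₀ M (m / a ^ ((2 * L) ^ (j₀ + (M + 1)) - (2 * L) ^ (j₀ + M))) + yy a L E (j₀ + M) m

lemma ZZ_exp (ha : 2 ≤ a) (hL : 2 ≤ L) {c : ℝ} {J k₀ : ℕ} (hc0 : 0 ≤ c) (hc1 : c ≤ 1)
    (hC : Cells a L E c J k₀) {j₀ : ℕ}
    (hj : k₀ ≤ (2 * L) ^ j₀) {i : ℕ} (hi1 : 1 ≤ i) (hi2 : i < a ^ ((2 * L) ^ j₀ + J)) (M : ℕ) :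
    ∑ m ∈ Ico (i * a ^ ((2 * L) ^ (j₀ + M) - (2 * L) ^ j₀)) ((i + 1) * a ^ ((2 * L) ^ (j₀ + M) - (2 * L) ^ j₀)),
      Real.exp (-ZZ a L E j₀ M m) ≤
      (1 - c / 2) ^ M * (a : ℝ) ^ ((2 * L) ^ (j₀ + M) - (2 * L) ^ j₀) := by
  induction M with
  | zero => simp [ZZ]
  | succ M ih =>
    obtain ⟨K0, hK0⟩ : ∃ K : ℕ, K = (2 * L) ^ j₀ := ⟨_, rfl⟩
    obtain ⟨K1, hK1⟩ : ∃ K : ℕ, K = (2 * L) ^ (j₀ + M) := ⟨_, rfl⟩
    obtain ⟨K2, hK2⟩ : ∃ K : ℕ, K = (2 * L) ^ (j₀ + (M + 1)) := ⟨_, rfl⟩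
    have h01 : K0 ≤ K1 := by rw [hK0, hK1]; exact Nat.pow_le_pow_right (by omega) (by omega)
    have h12 : K1 ≤ K2 := by rw [hK1, hK2]; exact Nat.pow_le_pow_right (by omega) (by omega)
    have h2L : K2 = 2 * (L * (2 * L) ^ (j₀ + M)) := by rw [hK2]; ring
    rw [← hK0, ← hK1] at ih
    rw [← hK0] at hj hi2
    rw [← hK0, ← hK2]
    have hpow : a ^ (K2 - K0) = a ^ (K1 - K0) * a ^ (K2 - K1) := by
      rw [← pow_add]; congr 1; omega
    rw [hpow, ← mul_assoc, ← mul_assoc, sum_blocks _ _ _ _ (Nat.mul_le_mul_right _ (Nat.le_succ i))]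
    have hin : ∀ m ∈ Ico (i * a ^ (K1 - K0)) ((i + 1) * a ^ (K1 - K0)),
        ∑ m' ∈ Ico (m * a ^ (K2 - K1)) ((m + 1) * a ^ (K2 - K1)), Real.exp (-ZZ a L E j₀ (M + 1) m') ≤
        Real.exp (-ZZ a L E j₀ M m) * ((1 - c / 2) * (a : ℝ) ^ (K2 - K1)) := by
      intro m hm
      rw [mem_Ico] at hm
      have hb : 0 < a ^ (K2 - K1) := by positivity
      have e1 : ∀ m' ∈ Ico (m * a ^ (K2 - K1)) ((m + 1) * a ^ (K2 - K1)),
          Real.exp (-ZZ a L E j₀ (M + 1) m') ≤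
          Real.exp (-ZZ a L E j₀ M m) * (1 - yy a L E (j₀ + M) m' / 2) := by
        intro m' hm'
        rw [mem_Ico] at hm'
        have hdiv : m' / a ^ (K2 - K1) = m := by
          rw [Nat.div_eq_iff hb]
          constructor
          · linarith [hm'.1]
          · have := hm'.2
            rw [Nat.add_mul, one_mul] at this
            omega
        have : ZZ a L E j₀ (M + 1) m' = ZZ a L E j₀ M m + yy a L E (j₀ + M) m' := by
          rw [ZZ, ← hK1, ← hK2, hdiv]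
        rw [this, neg_add, Real.exp_add]
        exact mul_le_mul_of_nonneg_left (exp_neg_le (yy_nonneg _ _) (yy_le_one _ _)) (Real.exp_nonneg _)
      refine (sum_le_sum e1).trans ?_
      rw [← mul_sum]
      refine mul_le_mul_of_nonneg_left ?_ (Real.exp_nonneg _)
      rw [sum_sub_distrib, ← Finset.sum_div, sum_const, Nat.card_Ico, nsmul_eq_mul, mul_one]
      have hcard : (m + 1) * a ^ (K2 - K1) - m * a ^ (K2 - K1) = a ^ (K2 - K1) := by
        rw [Nat.add_mul, one_mul]; omega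
      rw [hcard]
      have hm1 : 1 ≤ m := by
        have : 0 < i * a ^ (K1 - K0) := by positivity
        omega
      have hm2 : m ≤ a ^ (K1 + J) := by
        have h1 : (i + 1) * a ^ (K1 - K0) ≤ a ^ (K0 + J) * a ^ (K1 - K0) := Nat.mul_le_mul_right _ hi2
        rw [← pow_add] at h1
        have h2 : K0 + J + (K1 - K0) = K1 + J := by omega
        rw [h2] at h1
        omega
      have hs := yy_sum (E := E) ha hL hC (j := j₀ + M) (by rw [← hK1]; omega) hm1 (by rw [← hK1]; exact hm2)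
      rw [← hK1] at hs
      have h2L' : 2 * (L * K1) = K2 := by rw [h2L, hK1]
      rw [h2L'] at hs
      push_cast
      linarith
    refine (sum_le_sum hin).trans ?_
    rw [← sum_mul]
    have hq : 0 ≤ (1 - c / 2) * (a : ℝ) ^ (K2 - K1) := by
      have : 0 ≤ 1 - c / 2 := by linarith
      positivity
    refine (mul_le_mul_of_nonneg_right ih hq).trans (le_of_eq ?_)
    have hpr : (a : ℝ) ^ (K2 - K0) = (a : ℝ) ^ (K1 - K0) * (a : ℝ) ^ (K2 - K1) := by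
      rw [← pow_add]; congr 1; omega
    rw [hpr]
    ring

/-- few cells are bad -/
lemma bad_card (ha : 2 ≤ a) (hL : 2 ≤ L) {c : ℝ} {J k₀ : ℕ} (hc0 : 0 ≤ c) (hc1 : c ≤ 1)
    (hC : Cells a L E c J k₀) {j₀ : ℕ}
    (hj : k₀ ≤ (2 * L) ^ j₀) {i : ℕ} (hi1 : 1 ≤ i) (hi2 : i < a ^ ((2 * L) ^ j₀ + J)) (M : ℕ) :
    (({m | m ∈ Ico (i * a ^ ((2 * L) ^ (j₀ + M) - (2 * L) ^ j₀)) ((i + 1) * a ^ ((2 * L) ^ (j₀ + M) - (2 * L) ^ j₀)) ∧
      ZZ a L E j₀ M m ≤ c / 4 * M} : Set ℕ).ncard : ℝ) ≤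
      Real.exp (-(c / 4)) ^ M * (a : ℝ) ^ ((2 * L) ^ (j₀ + M) - (2 * L) ^ j₀) := by
  classical
  have h := ZZ_exp (E := E) ha hL hc0 hc1 hC hj hi1 hi2 M
  set S := Ico (i * a ^ ((2 * L) ^ (j₀ + M) - (2 * L) ^ j₀)) ((i + 1) * a ^ ((2 * L) ^ (j₀ + M) - (2 * L) ^ j₀))
  have e0 : ({m | m ∈ S ∧ ZZ a L E j₀ M m ≤ c / 4 * M} : Set ℕ) =
      ((S.filter (fun m => ZZ a L E j₀ M m ≤ c / 4 * M) : Finset ℕ) : Set ℕ) := by
    ext m; simp
  rw [e0, Set.ncard_coe_finset]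
  have h1 : ((S.filter (fun m => ZZ a L E j₀ M m ≤ c / 4 * M)).card : ℝ) * Real.exp (-(c / 4 * M)) ≤
      ∑ m ∈ S, Real.exp (-ZZ a L E j₀ M m) := by
    rw [← nsmul_eq_mul, ← sum_const]
    refine (sum_le_sum (g := fun m => Real.exp (-ZZ a L E j₀ M m)) fun m hm => ?_).trans
      (sum_le_sum_of_subset_of_nonneg (filter_subset _ _) fun m _ _ => Real.exp_nonneg _)
    rw [mem_filter] at hm
    exact Real.exp_le_exp.2 (by linarith [hm.2])
  have h2 : (1 - c / 2) ^ M ≤ Real.exp (-(c / 2)) ^ M := by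
    refine pow_le_pow_left₀ (by linarith) ?_ M
    linarith [Real.add_one_le_exp (-(c / 2))]
  have h3 := h1.trans (h.trans (mul_le_mul_of_nonneg_right h2 (by positivity)))
  have e1 : Real.exp (-(c / 4 * M)) = Real.exp (-(c / 4)) ^ M := by
    rw [← Real.exp_nat_mul]; congr 1; ring
  have e2 : Real.exp (-(c / 2)) ^ M = Real.exp (-(c / 4)) ^ M * Real.exp (-(c / 4)) ^ M := by
    rw [← mul_pow, ← Real.exp_add]; congr 2; ring
  rw [e1, e2] at h3
  have hp : 0 < Real.exp (-(c / 4)) ^ M := by positivity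
  have h4 : (((S.filter (fun m => ZZ a L E j₀ M m ≤ c / 4 * M)).card : ℝ)) * Real.exp (-(c / 4)) ^ M ≤
      (Real.exp (-(c / 4)) ^ M * (a : ℝ) ^ ((2 * L) ^ (j₀ + M) - (2 * L) ^ j₀)) * Real.exp (-(c / 4)) ^ M := by
    calc _ ≤ _ := h3
      _ = _ := by ring
  exact le_of_mul_le_mul_right h4 hp

end

end Run7.h911.TD
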