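import Mathlib

/-!
# One-sided trigonometric approximation of intervals (Selberg, Vaaler), elementary version

`Fe M` is the normalised Fejér kernel, `Dr M` the conjugate Dirichlet kernel.
-/

set_option autoImplicit false

namespace Run7.h911.VS

open Real Finset

/-- the Fejér kernel, normalised by `Fe M 0 = 1` -/
noncomputable def Fe (M : ℕ) (x : ℝ) : ℝ :=
  (2 * ∑ k ∈ range M, ((M : ℝ) - k) * cos (k * x) - M) / (M : ℝ) ^ 2

/-- the conjugate Dirichlet kernel -/
noncomputable def Dr (M : ℕ) (x : ℝ) : ℝ := ∑ k ∈ range M, sin (k * x)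

theorem dirichlet (M : ℕ) (x : ℝ) :
    sin (x / 2) * (2 * ∑ k ∈ range (M + 1), cos (k * x) - 1) = sin ((M + 1 / 2) * x) := by
  induction M with
  | zero => simp; ring_nf
  | succ M ih =>
    rw [sum_range_succ]
    have e : sin (x / 2) * (2 * (∑ k ∈ range (M + 1), cos (k * x) + cos ((M + 1 : ℕ) * x)) - 1) =
        sin (x / 2) * (2 * ∑ k ∈ range (M + 1), cos (k * x) - 1) + 2 * sin (x / 2) * cos ((M + 1 : ℕ) * x) := by
      ring
    rw [e, ih]
    have h1 : ((M + 1 : ℕ) + 1 / 2) * x = ((M + 1 : ℕ) : ℝ) * x + x / 2 := by ring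
    have h2 : ((M : ℝ) + 1 / 2) * x = ((M + 1 : ℕ) : ℝ) * x - x / 2 := by push_cast; ring
    rw [h1, h2, sin_add, sin_sub]
    ring

theorem fejer_aux (M : ℕ) (x : ℝ) :
    sin (x / 2) ^ 2 * (2 * ∑ k ∈ range M, ((M : ℝ) - k) * cos (k * x) - M) = sin (M * x / 2) ^ 2 := by
  induction M with
  | zero => simp
  | succ M ih =>
    have e : ∑ k ∈ range (M + 1), (((M + 1 : ℕ) : ℝ) - k) * cos (k * x) =
        ∑ k ∈ range M, ((M : ℝ) - k) * cos (k * x) + ∑ k ∈ range (M + 1), cos (k * x) := by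
      rw [sum_range_succ, sum_range_succ (fun k : ℕ => cos (k * x)), ← add_assoc, ← sum_add_distrib]
      congr 1
      · refine sum_congr rfl fun k _ => ?_
        push_cast
        ring
      · push_cast
        ring
    rw [e]
    have e2 : sin (x / 2) ^ 2 * (2 * (∑ k ∈ range M, ((M : ℝ) - k) * cos (k * x) +
        ∑ k ∈ range (M + 1), cos (k * x)) - ((M + 1 : ℕ) : ℝ)) =
        sin (x / 2) ^ 2 * (2 * ∑ k ∈ range M, ((M : ℝ) - k) * cos (k * x) - M) +
        sin (x / 2) * (sin (x / 2) * (2 * ∑ k ∈ range (M + 1), cos (k * x) - 1)) := by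
      push_cast
      ring
    rw [e2, ih, dirichlet]
    have h1 : ((M + 1 : ℕ) : ℝ) * x / 2 = M * x / 2 + x / 2 := by push_cast; ring
    have h2 : ((M : ℝ) + 1 / 2) * x = M * x / 2 + M * x / 2 + x / 2 := by ring
    rw [h1, h2, sin_add (M * x / 2 + M * x / 2), sin_add (M * x / 2) (M * x / 2),
      cos_add (M * x / 2) (M * x / 2), sin_add (M * x / 2) (x / 2)]
    have c1 := cos_sq' (M * x / 2)
    have c2 := cos_sq' (x / 2)
    have s1 := sin_sq (M * x / 2)
    nlinarith [c1, c2, s1]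

theorem fejer {M : ℕ} (_ : 0 < M) (x : ℝ) :
    sin (x / 2) ^ 2 * Fe M x = sin (M * x / 2) ^ 2 / (M : ℝ) ^ 2 := by
  unfold Fe
  rw [← fejer_aux, mul_div_assoc]

theorem fejer' {M : ℕ} (hM : 0 < M) {y : ℝ} (hy : sin y ≠ 0) :
    Fe M (2 * y) = sin (M * y) ^ 2 / (M : ℝ) ^ 2 * (1 / sin y ^ 2) := by
  have h := fejer hM (2 * y)
  have e1 : 2 * y / 2 = y := by ring
  have e2 : M * (2 * y) / 2 = M * y := by ring
  rw [e1, e2] at h
  rw [← h]
  field_simp

theorem conj_dirichlet (M : ℕ) (x : ℝ) :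
    2 * sin (x / 2) * Dr M x = cos (x / 2) - cos ((M - 1 / 2) * x) := by
  unfold Dr
  induction M with
  | zero =>
    simp
    have h3 : (2⁻¹ * x) = (x / 2) := by ring
    rw [h3]
    ring
  | succ M ih =>
    rw [sum_range_succ, mul_add, ih]
    have h1 : (((M + 1 : ℕ) : ℝ) - 1 / 2) * x = M * x + x / 2 := by push_cast; ring
    have h2 : ((M : ℝ) - 1 / 2) * x = M * x - x / 2 := by ring
    rw [h1, h2, cos_add, cos_sub]
    ring

theorem Dr_closed (M : ℕ) (x : ℝ) :
    sin (M * x / 2) ^ 2 * cos (x / 2) = sin (x / 2) * (Dr M x + sin (M * x) / 2) := by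
  have h := conj_dirichlet M x
  have h2 : ((M : ℝ) - 1 / 2) * x = M * x - x / 2 := by ring
  rw [h2, cos_sub] at h
  have e1 : sin (M * x / 2) ^ 2 = 1 / 2 - cos (M * x) / 2 := by
    have := sin_sq_eq_half_sub (M * x / 2)
    rw [this]
    congr 2
    ring_nf
  rw [e1]
  linarith

theorem Dr_closed' {M : ℕ} {y : ℝ} (hy : sin y ≠ 0) :
    Dr M (2 * y) = sin (M * y) ^ 2 * (cos y / sin y) - sin (M * (2 * y)) / 2 := by
  have h := Dr_closed M (2 * y)
  have e1 : 2 * y / 2 = y := by ring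
  have e2 : M * (2 * y) / 2 = M * y := by ring
  rw [e1, e2] at h
  have : sin (M * y) ^ 2 * (cos y / sin y) = Dr M (2 * y) + sin (M * (2 * y)) / 2 := by
    rw [← mul_div_assoc, h, mul_div_cancel_left₀ _ hy]
  linarith

theorem Fe_nonneg {M : ℕ} (hM : 0 < M) (x : ℝ) : 0 ≤ Fe M x := by
  have hM0 : (0 : ℝ) < M := by exact_mod_cast hM
  by_cases h : sin (x / 2) = 0
  · obtain ⟨n, hn⟩ := sin_eq_zero_iff.1 h
    have hx : x = n * (2 * π) := by linarith
    have : ∀ k : ℕ, cos (k * x) = 1 := by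
      intro k
      have : (k : ℝ) * x = ((k * n : ℤ) : ℝ) * (2 * π) := by rw [hx]; push_cast; ring
      rw [this, cos_int_mul_two_pi]
    unfold Fe
    simp only [this, mul_one]
    have h3 : ∑ k ∈ range M, ((M : ℝ) - k) ≥ M := by
      have h4 : ∀ k ∈ range M, (1 : ℝ) ≤ (M : ℝ) - k := by
        intro k hk
        have : k + 1 ≤ M := mem_range.1 hk
        have : ((k : ℝ) + 1) ≤ M := by exact_mod_cast this
        linarith
      have := sum_le_sum h4
      simpa using this
    apply div_nonneg _ (by positivity)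
    linarith
  · have h1 : 0 < sin (x / 2) ^ 2 := by positivity
    have h2 : 0 ≤ sin (x / 2) ^ 2 * Fe M x := by
      rw [fejer hM]
      positivity
    exact nonneg_of_mul_nonneg_right h2 h1

theorem Fe_per (M : ℕ) (x : ℝ) : Fe M (x + 2 * π) = Fe M x := by
  unfold Fe
  congr 3
  refine sum_congr rfl fun k _ => ?_
  have : (k : ℝ) * (x + 2 * π) = k * x + k * (2 * π) := by ring
  rw [this, cos_add_nat_mul_two_pi]

theorem Dr_per (M : ℕ) (x : ℝ) : Dr M (x + 2 * π) = Dr M x := by
  unfold Dr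
  refine sum_congr rfl fun k _ => ?_
  have : (k : ℝ) * (x + 2 * π) = k * x + k * (2 * π) := by ring
  rw [this, sin_add_nat_mul_two_pi]

/-- the sum of `cos (j x)` over the nodes -/
theorem node_cos {M : ℕ} {j : ℕ} (hj : 0 < j) (hjM : j < M) (x : ℝ) :
    ∑ k ∈ range M, cos (j * (x + k * (2 * π / M))) = 0 := by
  have hM : 0 < M := by omega
  have hM0 : (0 : ℝ) < M := by exact_mod_cast hM
  have hs : sin (π * j / M) ≠ 0 := by
    have h1 : 0 < π * j / M := by positivity
    have h2 : π * j / M < π := by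
      rw [div_lt_iff₀ hM0]
      have : (j : ℝ) < M := by exact_mod_cast hjM
      exact mul_lt_mul_of_pos_left this pi_pos
    exact (sin_pos_of_pos_of_lt_pi h1 h2).ne'
  have key : ∀ L : ℕ, 2 * sin (π * j / M) * ∑ k ∈ range L, cos (j * (x + k * (2 * π / M))) =
      sin (j * x + (2 * L - 1) * (π * j / M)) - sin (j * x - π * j / M) := by
    intro L
    induction L with
    | zero =>
      simp
      have : (j : ℝ) * x + -(π * j / M) = j * x - π * j / M := by ring
      rw [this, sub_self]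
    | succ L ih =>
      rw [sum_range_succ, mul_add, ih]
      have e1 : (j : ℝ) * (x + L * (2 * π / M)) = j * x + 2 * L * (π * j / M) := by ring
      have e2 : (j : ℝ) * x + (2 * L - 1) * (π * j / M) = (j * x + 2 * L * (π * j / M)) - π * j / M := by
        ring
      have e3 : (j : ℝ) * x + (2 * ((L + 1 : ℕ) : ℝ) - 1) * (π * j / M) =
          (j * x + 2 * L * (π * j / M)) + π * j / M := by
        push_cast
        ring
      rw [e1, e2, e3, sin_add, sin_sub]
      ring
  have h := key M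
  have e : (j : ℝ) * x + (2 * M - 1) * (π * j / M) = (j * x - π * j / M) + j * (2 * π) := by
    field_simp
    ring
  rw [e, sin_add_nat_mul_two_pi, sub_self] at h
  rcases mul_eq_zero.1 h with h1 | h1
  · exfalso
    apply hs
    linarith
  · exact h1

theorem node_sum {M : ℕ} (hM : 0 < M) (x : ℝ) : ∑ k ∈ range M, Fe M (x + k * (2 * π / M)) = 1 := by
  have hM0 : (0 : ℝ) < M := by exact_mod_cast hM
  unfold Fe
  rw [← sum_div, sum_sub_distrib, ← mul_sum, sum_comm]
  have h1 : ∑ j ∈ range M, ∑ k ∈ range M, ((M : ℝ) - j) * cos (j * (x + k * (2 * π / M))) =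
      (M : ℝ) ^ 2 := by
    obtain ⟨n, rfl⟩ : ∃ n, M = n + 1 := ⟨M - 1, by omega⟩
    rw [sum_range_succ']
    have : ∀ j ∈ range n, ∑ k ∈ range (n + 1), (((n + 1 : ℕ) : ℝ) - ((j + 1 : ℕ) : ℝ)) *
        cos (((j + 1 : ℕ) : ℝ) * (x + k * (2 * π / ((n + 1 : ℕ) : ℝ)))) = 0 := by
      intro j hj
      rw [← mul_sum, node_cos (by omega) (by have := mem_range.1 hj; omega), mul_zero]
    rw [sum_eq_zero this]
    simp
    ring
  rw [h1]
  simp
  field_simp
  ring

end Run7.h911.VS
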