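import Pool.Agent.Run7.h911.VS1

/-!
# One-sided trigonometric approximation of intervals: the trapezoid rule for `1 / sin²`
-/

set_option autoImplicit false

namespace Run7.h911.VS

open Real Finset

theorem cot_sub {u η : ℝ} (h0 : sin u ≠ 0) (h1 : sin (u + η) ≠ 0) :
    cos u / sin u - cos (u + η) / sin (u + η) = sin η / (sin u * sin (u + η)) := by
  rw [div_sub_div _ _ h0 h1]
  congr 1
  rw [sin_add, cos_add]
  have := sin_sq_add_cos_sq u
  linear_combination (sin η) * this

theorem cot_anti {u η : ℝ} (hη : 0 < η) (h0 : 0 < u) (h1 : u + η < π) :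
    cos (u + η) / sin (u + η) ≤ cos u / sin u := by
  have s0 : 0 < sin u := sin_pos_of_pos_of_lt_pi h0 (by linarith)
  have s1 : 0 < sin (u + η) := sin_pos_of_pos_of_lt_pi (by linarith) h1
  have h := cot_sub (η := η) s0.ne' s1.ne'
  have : 0 ≤ sin η / (sin u * sin (u + η)) := by
    have := sin_nonneg_of_nonneg_of_le_pi hη.le (by linarith)
    positivity
  linarith

theorem step_low {u η : ℝ} (hη : 0 < η) (h0 : 0 < u) (h1 : u + η < π) :
    1 / η * (cos u / sin u - cos (u + η) / sin (u + η)) ≤
      1 / 2 * (1 / sin u ^ 2 + 1 / sin (u + η) ^ 2) := by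
  have s0 : 0 < sin u := sin_pos_of_pos_of_lt_pi h0 (by linarith)
  have s1 : 0 < sin (u + η) := sin_pos_of_pos_of_lt_pi (by linarith) h1
  rw [cot_sub s0.ne' s1.ne']
  have h2 : sin η ≤ η := sin_le hη.le
  have h3 : 1 / η * (sin η / (sin u * sin (u + η))) ≤ 1 / (sin u * sin (u + η)) := by
    rw [← mul_div_assoc]
    refine div_le_div_of_nonneg_right ?_ (by positivity)
    rw [one_div, inv_mul_le_iff₀ hη, mul_one]
    exact h2
  refine h3.trans ?_
  have h4 : 1 / (sin u * sin (u + η)) = (1 / sin u) * (1 / sin (u + η)) := by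
    rw [one_div_mul_one_div]
  have h5 : 1 / sin u ^ 2 = (1 / sin u) ^ 2 := by rw [one_div_pow]
  have h6 : 1 / sin (u + η) ^ 2 = (1 / sin (u + η)) ^ 2 := by rw [one_div_pow]
  rw [h4, h5, h6]
  nlinarith [sq_nonneg (1 / sin u - 1 / sin (u + η))]

theorem step_up {u η : ℝ} (hη : 0 < η) (h0 : 0 < u) (h1 : u + 2 * η < π) :
    1 / sin (u + η) ^ 2 ≤ 1 / (2 * η) * (cos u / sin u - cos (u + 2 * η) / sin (u + 2 * η)) := by
  have s0 : 0 < sin u := sin_pos_of_pos_of_lt_pi h0 (by linarith)
  have s1 : 0 < sin (u + η) := sin_pos_of_pos_of_lt_pi (by linarith) (by linarith)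
  have s2 : 0 < sin (u + 2 * η) := sin_pos_of_pos_of_lt_pi (by linarith) h1
  have c0 : 0 < cos η := cos_pos_of_mem_Ioo ⟨by linarith, by linarith⟩
  have t0 : η * cos η ≤ sin η := by
    have h := le_tan hη.le (by linarith)
    rw [tan_eq_sin_div_cos, le_div_iff₀ c0] at h
    exact h
  have sη : 0 < sin η := sin_pos_of_pos_of_lt_pi hη (by linarith)
  rw [cot_sub s0.ne' s2.ne']
  have e1 : sin u * sin (u + 2 * η) = sin (u + η) ^ 2 - sin η ^ 2 := by
    have a1 : u = (u + η) - η := by ring
    have a2 : u + 2 * η = (u + η) + η := by ring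
    rw [a2]
    nth_rewrite 1 [a1]
    rw [sin_sub, sin_add (u + η) η]
    have b1 := sin_sq_add_cos_sq (u + η)
    have b2 := sin_sq_add_cos_sq η
    linear_combination (sin (u + η) ^ 2) * b2 - (sin η ^ 2) * b1
  have p0 : 0 < sin (u + η) ^ 2 - sin η ^ 2 := by rw [← e1]; positivity
  rw [e1, sin_two_mul, div_mul_div_comm, one_mul, div_le_div_iff₀ (by positivity) (by positivity), one_mul]
  have l1 : sin (u + η) ^ 2 ≤ 1 := sin_sq_le_one _
  have l2 : 0 ≤ η - sin η * cos η := by
    have : sin η * cos η ≤ sin η * 1 := mul_le_mul_of_nonneg_left (cos_le_one η) sη.le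
    have := sin_le hη.le
    linarith
  have l3 : η - sin η * cos η ≤ η * sin η ^ 2 := by
    have : η * cos η * cos η ≤ sin η * cos η := mul_le_mul_of_nonneg_right t0 c0.le
    have b2 := sin_sq_add_cos_sq η
    have : η * sin η ^ 2 = η - η * cos η * cos η := by
      have : sin η ^ 2 = 1 - cos η ^ 2 := by linarith
      rw [this]
      ring
    linarith
  have l4 : sin (u + η) ^ 2 * (η - sin η * cos η) ≤ η * sin η ^ 2 := by
    have := mul_le_mul_of_nonneg_right l1 l2
    linarith
  nlinarith

/-- the trapezoid rule: lower and upper estimate -/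
theorem trap {η y : ℝ} (hη : 0 < η) (h0 : 0 < y) (L : ℕ) (h1 : y + (L + 1) * η < π) :
    0 ≤ ∑ k ∈ range L, 1 / sin (y + (k + 1) * η) ^ 2 +
        1 / 2 * (1 / sin y ^ 2 + 1 / sin (y + (L + 1) * η) ^ 2) -
        1 / η * (cos y / sin y - cos (y + (L + 1) * η) / sin (y + (L + 1) * η)) ∧
    ∑ k ∈ range L, 1 / sin (y + (k + 1) * η) ^ 2 -
        1 / η * (cos y / sin y - cos (y + (L + 1) * η) / sin (y + (L + 1) * η)) ≤ 0 := by
  constructor
  · induction L with
    | zero =>
      have := step_low hη h0 (by simpa using h1)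
      simp only [range_zero, sum_empty, Nat.cast_zero, zero_add, one_mul]
      linarith
    | succ L ih =>
      have h2 : y + (L + 1) * η < π := by
        push_cast at h1
        nlinarith
      have i1 := ih h2
      have i2 := step_low (u := y + (L + 1) * η) hη (by positivity) (by
        have : y + (L + 1) * η + η = y + (((L + 1 : ℕ) : ℝ) + 1) * η := by push_cast; ring
        rw [this]
        exact h1)
      have e : y + (((L + 1 : ℕ) : ℝ) + 1) * η = y + (L + 1) * η + η := by push_cast; ring
      rw [e, sum_range_succ]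
      have i3 : 1 / η * (cos y / sin y - cos (y + (L + 1) * η + η) / sin (y + (L + 1) * η + η)) =
          1 / η * (cos y / sin y - cos (y + (L + 1) * η) / sin (y + (L + 1) * η)) +
          1 / η * (cos (y + (L + 1) * η) / sin (y + (L + 1) * η) -
            cos (y + (L + 1) * η + η) / sin (y + (L + 1) * η + η)) := by ring
      rw [i3]
      linarith
  · have key : ∀ L : ℕ, y + (L + 1) * η < π → ∑ k ∈ range L, 1 / sin (y + (k + 1) * η) ^ 2 ≤
        1 / (2 * η) * (cos y / sin y + cos (y + η) / sin (y + η) -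
          cos (y + L * η) / sin (y + L * η) - cos (y + (L + 1) * η) / sin (y + (L + 1) * η)) := by
      intro L
      induction L with
      | zero =>
        intro _
        simp
      | succ L ih =>
        intro h1
        have h2 : y + (L + 1) * η < π := by
          push_cast at h1
          nlinarith
        have i1 := ih h2
        have e2 : y + (((L + 1 : ℕ) : ℝ) + 1) * η = y + L * η + 2 * η := by push_cast; ring
        have e1 : y + ((L + 1 : ℕ) : ℝ) * η = y + L * η + η := by push_cast; ring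
        have e3 : y + ((L : ℝ) + 1) * η = y + L * η + η := by ring
        have i2 := step_up (u := y + L * η) hη (by positivity) (by rw [← e2]; exact h1)
        rw [sum_range_succ, e1, e2, e3]
        rw [e3] at i1
        have e4 : 1 / (2 * η) * (cos y / sin y + cos (y + η) / sin (y + η) -
            cos (y + L * η + η) / sin (y + L * η + η) -
            cos (y + L * η + 2 * η) / sin (y + L * η + 2 * η)) =
            1 / (2 * η) * (cos y / sin y + cos (y + η) / sin (y + η) -
              cos (y + L * η) / sin (y + L * η) - cos (y + L * η + η) / sin (y + L * η + η)) +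
            1 / (2 * η) * (cos (y + L * η) / sin (y + L * η) -
              cos (y + L * η + 2 * η) / sin (y + L * η + 2 * η)) := by ring
        rw [e4]
        linarith
    have k1 := key L h1
    have hL : (0 : ℝ) ≤ L := Nat.cast_nonneg L
    have a1 : cos (y + η) / sin (y + η) ≤ cos y / sin y := cot_anti hη h0 (by nlinarith)
    have a2 : cos (y + (L + 1) * η) / sin (y + (L + 1) * η) ≤ cos (y + L * η) / sin (y + L * η) := by
      have e3 : y + ((L : ℝ) + 1) * η = y + L * η + η := by ring
      rw [e3]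
      exact cot_anti hη (by positivity) (by rw [← e3]; exact h1)
    have a3 : 1 / (2 * η) * (cos y / sin y + cos (y + η) / sin (y + η) -
          cos (y + L * η) / sin (y + L * η) - cos (y + (L + 1) * η) / sin (y + (L + 1) * η)) ≤
        1 / η * (cos y / sin y - cos (y + (L + 1) * η) / sin (y + (L + 1) * η)) := by
      have : 1 / η * (cos y / sin y - cos (y + (L + 1) * η) / sin (y + (L + 1) * η)) =
          1 / (2 * η) * (2 * (cos y / sin y - cos (y + (L + 1) * η) / sin (y + (L + 1) * η))) := by
        field_simp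
      rw [this]
      refine mul_le_mul_of_nonneg_left ?_ (by positivity)
      linarith
    linarith

theorem sin_shift (M : ℕ) (hM : 0 < M) (y : ℝ) (k : ℕ) :
    sin (M * (y + k * (π / M))) ^ 2 = sin (M * y) ^ 2 := by
  have hM0 : (M : ℝ) ≠ 0 := by exact_mod_cast hM.ne'
  have e : (M : ℝ) * (y + k * (π / M)) = M * y + k * π := by
    field_simp
  rw [e, sin_add, sin_nat_mul_pi, mul_zero, add_zero, mul_pow]
  have : cos (k * π) ^ 2 = 1 := by
    have := sin_sq_add_cos_sq (k * π)
    rw [sin_nat_mul_pi] at this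
    linarith
  rw [this, mul_one]

/-- the estimate in terms of the kernels -/
theorem kb {M : ℕ} (hM : 0 < M) {y : ℝ} (h0 : 0 < y) (L : ℕ) (h1 : y + (L + 1) * (π / M) < π) :
    0 ≤ ∑ k ∈ range L, Fe M (2 * (y + (k + 1) * (π / M))) +
        1 / 2 * (Fe M (2 * y) + Fe M (2 * (y + (L + 1) * (π / M)))) -
        sin (M * y) ^ 2 / (π * M) * (cos y / sin y - cos (y + (L + 1) * (π / M)) /
          sin (y + (L + 1) * (π / M))) ∧
    ∑ k ∈ range L, Fe M (2 * (y + (k + 1) * (π / M))) -
        sin (M * y) ^ 2 / (π * M) * (cos y / sin y - cos (y + (L + 1) * (π / M)) /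
          sin (y + (L + 1) * (π / M))) ≤ 0 := by
  have hM0 : (0 : ℝ) < M := by exact_mod_cast hM
  have hη : 0 < π / M := div_pos pi_pos hM0
  obtain ⟨t1, t2⟩ := trap hη h0 L h1
  have hF : ∀ k : ℕ, k ≤ L + 1 → Fe M (2 * (y + k * (π / M))) =
      sin (M * y) ^ 2 / (M : ℝ) ^ 2 * (1 / sin (y + k * (π / M)) ^ 2) := by
    intro k hk
    have hs : sin (y + k * (π / M)) ≠ 0 := by
      have : (k : ℝ) ≤ L + 1 := by exact_mod_cast hk
      refine (sin_pos_of_pos_of_lt_pi (by positivity) ?_).ne'
      have := mul_le_mul_of_nonneg_right this hη.le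
      linarith
    rw [fejer' hM hs, sin_shift M hM]
  have f0 : Fe M (2 * y) = sin (M * y) ^ 2 / (M : ℝ) ^ 2 * (1 / sin y ^ 2) := by
    have := hF 0 (by omega)
    simpa using this
  have f1 : Fe M (2 * (y + (L + 1) * (π / M))) =
      sin (M * y) ^ 2 / (M : ℝ) ^ 2 * (1 / sin (y + (L + 1) * (π / M)) ^ 2) := by
    have := hF (L + 1) le_rfl
    push_cast at this
    exact this
  have f2 : ∑ k ∈ range L, Fe M (2 * (y + (k + 1) * (π / M))) =
      sin (M * y) ^ 2 / (M : ℝ) ^ 2 * ∑ k ∈ range L, 1 / sin (y + (k + 1) * (π / M)) ^ 2 := by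
    rw [mul_sum]
    refine sum_congr rfl fun k hk => ?_
    have := hF (k + 1) (by have := mem_range.1 hk; omega)
    push_cast at this
    exact this
  have hs0 : 0 ≤ sin (M * y) ^ 2 / (M : ℝ) ^ 2 := by positivity
  have e : sin (M * y) ^ 2 / (π * M) = sin (M * y) ^ 2 / (M : ℝ) ^ 2 * (1 / (π / M)) := by
    have := pi_pos.ne'
    field_simp
  rw [f0, f1, f2, e]
  constructor
  · have := mul_nonneg hs0 t1
    linarith
  · have := mul_nonneg hs0 (neg_nonneg.2 t2)
    linarith

end Run7.h911.VS
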