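import Pool.Agent.Run7.h911.VS2
import Pool.Agent.Run7.h911.ST1

/-!
# One-sided approximation of the intervals of angles by functions `∑ b_k U_k`, `k < M`
-/

set_option autoImplicit false

namespace Run7.h911.VS

open Real Finset Set
open Run7.h911.ST (U U_zero U_one U_rec U_cont Lam Lam_U Lam_add Lam_mul mu ind)

/-- the error term -/
noncomputable def Wf (M : ℕ) (c x : ℝ) : ℝ := (Fe M (x + c) + Fe M (x - c)) / 2

/-- the smoothed indicator of `[-c, c]`, `c = (l + 1) π / M` -/
noncomputable def Ef (M l : ℕ) (c x : ℝ) : ℝ :=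
  ∑ k ∈ range l, Fe M (x - c + (k + 1) * (2 * π / M)) + Wf M c x + 1 / (π * M) * (Dr M (x + c) - Dr M (x - c))

theorem Fe_cont (M : ℕ) : Continuous (Fe M) := by unfold Fe; fun_prop

theorem Dr_cont (M : ℕ) : Continuous (Dr M) := by unfold Dr; fun_prop

theorem Wf_cont (M : ℕ) (c : ℝ) : Continuous (Wf M c) := by
  unfold Wf
  have := Fe_cont M
  fun_prop

theorem Ef_cont (M l : ℕ) (c : ℝ) : Continuous (Ef M l c) := by
  unfold Ef
  have := Fe_cont M
  have := Dr_cont M
  have := Wf_cont M c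
  fun_prop

theorem Wf_nonneg {M : ℕ} (hM : 0 < M) (c x : ℝ) : 0 ≤ Wf M c x := by
  unfold Wf
  have := Fe_nonneg hM (x + c)
  have := Fe_nonneg hM (x - c)
  linarith

variable {M l L : ℕ} {c x : ℝ}

theorem caseA (hM : M = l + 1 + (L + 1)) (hc : c = (l + 1) * (π / M)) (h1 : c < x) (h2 : x ≤ π) :
    0 ≤ Ef M l c x ∧ Ef M l c x ≤ Wf M c x := by
  have hM1 : 0 < M := by omega
  have hM0 : (0 : ℝ) < M := by exact_mod_cast hM1
  have hcπ : c < π := lt_of_lt_of_le h1 h2
  have hc0 : 0 < c := by rw [hc]; have := pi_pos; positivity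
  have e0 : (x - c) / 2 + (l + 1) * (π / M) = (x + c) / 2 := by rw [← hc]; ring
  obtain ⟨k1, k2⟩ := kb hM1 (y := (x - c) / 2) (by linarith) l (by rw [e0]; linarith)
  rw [e0] at k1 k2
  have s0 : sin ((x - c) / 2) ≠ 0 := (sin_pos_of_pos_of_lt_pi (by linarith) (by linarith)).ne'
  have s1 : sin ((x + c) / 2) ≠ 0 := (sin_pos_of_pos_of_lt_pi (by linarith) (by linarith)).ne'
  have d0 := Dr_closed' (M := M) s0
  have d1 := Dr_closed' (M := M) s1
  have q0 : 2 * ((x - c) / 2) = x - c := by ring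
  have q1 : 2 * ((x + c) / 2) = x + c := by ring
  have hs : sin (M * ((x + c) / 2)) ^ 2 = sin (M * ((x - c) / 2)) ^ 2 := by
    have := sin_shift M hM1 ((x - c) / 2) (l + 1)
    push_cast at this
    rw [e0] at this
    exact this
  have hss : sin (M * (x + c)) = sin (M * (x - c)) := by
    have : (M : ℝ) * (x + c) = M * (x - c) + ((l + 1 : ℕ) : ℝ) * (2 * π) := by
      push_cast
      rw [hc]
      field_simp
      ring
    rw [this, sin_add_nat_mul_two_pi]
  rw [q0] at d0
  rw [q1, hs, hss] at d1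
  rw [q0, q1] at k1
  have hsum : ∑ k ∈ range l, Fe M (2 * ((x - c) / 2 + (k + 1) * (π / M))) =
      ∑ k ∈ range l, Fe M (x - c + (k + 1) * (2 * π / M)) := by
    refine sum_congr rfl fun k _ => ?_
    congr 1
    ring
  rw [hsum] at k1 k2
  have hD : 1 / (π * M) * (Dr M (x + c) - Dr M (x - c)) =
      -(sin (M * ((x - c) / 2)) ^ 2 / (π * M) * (cos ((x - c) / 2) / sin ((x - c) / 2) -
        cos ((x + c) / 2) / sin ((x + c) / 2))) := by
    rw [d0, d1]
    ring
  unfold Ef
  rw [hD]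
  unfold Wf
  constructor <;> linarith

theorem caseB (hM : M = l + 1 + (L + 1)) (hc : c = (l + 1) * (π / M)) (h1 : 0 ≤ x) (h2 : x < c) :
    0 ≤ 1 - Ef M l c x ∧ 1 - Ef M l c x ≤ Wf M c x := by
  have hM1 : 0 < M := by omega
  have hM0 : (0 : ℝ) < M := by exact_mod_cast hM1
  have hc0 : 0 < c := lt_of_le_of_lt h1 h2
  have hMr : (M : ℝ) = (l + 1) + (L + 1) := by rw [hM]; push_cast; ring
  have hcL : (L + 1) * (π / M) = π - c := by
    have : π = (M : ℝ) * (π / M) := by field_simp
    rw [hc]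
    nth_rewrite 2 [this]
    rw [hMr]
    ring
  have hcπ : c < π := by
    have : 0 < (L + 1 : ℝ) * (π / M) := by have := pi_pos; positivity
    linarith
  have e0 : (x + c) / 2 + (L + 1) * (π / M) = (x - c) / 2 + π := by rw [hcL]; ring
  obtain ⟨k1, k2⟩ := kb hM1 (y := (x + c) / 2) (by linarith) L (by rw [e0]; linarith)
  rw [e0] at k1 k2
  have s0 : sin ((x - c) / 2 + π) ≠ 0 := (sin_pos_of_pos_of_lt_pi (by linarith) (by linarith)).ne'
  have s1 : sin ((x + c) / 2) ≠ 0 := (sin_pos_of_pos_of_lt_pi (by linarith) (by linarith)).ne'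
  have d0 := Dr_closed' (M := M) s0
  have d1 := Dr_closed' (M := M) s1
  have q0 : 2 * ((x - c) / 2 + π) = x - c + 2 * π := by ring
  have q1 : 2 * ((x + c) / 2) = x + c := by ring
  have hs : sin (M * ((x - c) / 2 + π)) ^ 2 = sin (M * ((x + c) / 2)) ^ 2 := by
    have := sin_shift M hM1 ((x + c) / 2) (L + 1)
    push_cast at this
    rw [e0] at this
    exact this
  have hss : sin (M * (x - c + 2 * π)) = sin (M * (x + c)) := by
    have : (M : ℝ) * (x - c + 2 * π) = M * (x + c) + ((L + 1 : ℕ) : ℝ) * (2 * π) := by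
      push_cast
      have : (L + 1 : ℝ) * (2 * π) = 2 * M * ((L + 1) * (π / M)) := by field_simp
      rw [this, hcL]
      ring
    rw [this, sin_add_nat_mul_two_pi]
  rw [q0, hs, hss, Dr_per] at d0
  rw [q1] at d1
  rw [q0, q1, Fe_per] at k1
  have hsum : ∑ k ∈ range L, Fe M (2 * ((x + c) / 2 + (k + 1) * (π / M))) =
      ∑ k ∈ range L, Fe M (x + c + (k + 1) * (2 * π / M)) := by
    refine sum_congr rfl fun k _ => ?_
    congr 1
    ring
  rw [hsum] at k1 k2
  have hD : 1 / (π * M) * (Dr M (x + c) - Dr M (x - c)) =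
      sin (M * ((x + c) / 2)) ^ 2 / (π * M) * (cos ((x + c) / 2) / sin ((x + c) / 2) -
        cos ((x - c) / 2 + π) / sin ((x - c) / 2 + π)) := by
    rw [d0, d1]
    ring
  have hall := node_sum hM1 (x - c)
  have hall2 : ∑ k ∈ range M, Fe M (x - c + k * (2 * π / M)) = Fe M (x - c) +
      ∑ k ∈ range l, Fe M (x - c + (k + 1) * (2 * π / M)) + Fe M (x + c) +
      ∑ k ∈ range L, Fe M (x + c + (k + 1) * (2 * π / M)) := by
    have hr : range M = range ((l + 1) + (L + 1)) := by rw [hM]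
    rw [hr, sum_range_add, sum_range_succ', sum_range_succ' _ L]
    have t1 : x - c + ((0 : ℕ) : ℝ) * (2 * π / M) = x - c := by push_cast; ring
    have t2 : x - c + ((l + 1 + 0 : ℕ) : ℝ) * (2 * π / M) = x + c := by
      push_cast
      have : ((l : ℝ) + 1 + 0) * (2 * π / M) = 2 * ((l + 1) * (π / M)) := by ring
      rw [this, ← hc]
      ring
    have t3 : ∀ k : ℕ, x - c + ((l + 1 + (k + 1) : ℕ) : ℝ) * (2 * π / M) = x + c + (k + 1) * (2 * π / M) := by
      intro k
      push_cast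
      have : ((l : ℝ) + 1 + (k + 1)) * (2 * π / M) = 2 * ((l + 1) * (π / M)) + (k + 1) * (2 * π / M) := by
        ring
      rw [this, ← hc]
      ring
    rw [t1, t2]
    simp only [t3]
    push_cast
    ring
  unfold Ef
  rw [hD]
  unfold Wf
  constructor <;> linarith

/-- the closure of the estimates -/
theorem node_est (hM : M = l + 1 + (L + 1)) (hc : c = (l + 1) * (π / M)) :
    (∀ x ∈ Icc 0 π, Ef M l c x - Wf M c x ≤ 1) ∧ (∀ x ∈ Icc c π, Ef M l c x - Wf M c x ≤ 0) ∧
    (∀ x ∈ Icc 0 c, 1 ≤ Ef M l c x + Wf M c x) ∧ (∀ x ∈ Icc 0 π, 0 ≤ Ef M l c x + Wf M c x) := by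
  have hM1 : 0 < M := by omega
  have hM0 : (0 : ℝ) < M := by exact_mod_cast hM1
  have hMr : (M : ℝ) = (l + 1) + (L + 1) := by rw [hM]; push_cast; ring
  have hcL : (L + 1) * (π / M) = π - c := by
    have : π = (M : ℝ) * (π / M) := by field_simp
    rw [hc]
    nth_rewrite 2 [this]
    rw [hMr]
    ring
  have hcπ : c < π := by
    have : 0 < (L + 1 : ℝ) * (π / M) := by have := pi_pos; positivity
    linarith
  have hc0 : 0 < c := by rw [hc]; have := pi_pos; positivity
  have c1 : Continuous fun x => Ef M l c x - Wf M c x := (Ef_cont M l c).sub (Wf_cont M c)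
  have c2 : Continuous fun x => Ef M l c x + Wf M c x := (Ef_cont M l c).add (Wf_cont M c)
  have A : ∀ x ∈ Icc c π, Ef M l c x - Wf M c x ≤ 0 := by
    intro x hx
    have hcl : closure (Ioc c π) ⊆ {x | Ef M l c x - Wf M c x ≤ 0} := by
      refine closure_minimal (fun y hy => ?_) (isClosed_le c1 continuous_const)
      have := (caseA hM hc hy.1 hy.2).2
      show Ef M l c y - Wf M c y ≤ 0
      linarith
    rw [closure_Ioc hcπ.ne] at hcl
    exact hcl hx
  have B : ∀ x ∈ Icc 0 c, 1 ≤ Ef M l c x + Wf M c x := by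
    intro x hx
    have hcl : closure (Ico 0 c) ⊆ {x | 1 ≤ Ef M l c x + Wf M c x} := by
      refine closure_minimal (fun y hy => ?_) (isClosed_le continuous_const c2)
      have := (caseB hM hc hy.1 hy.2).2
      show 1 ≤ Ef M l c y + Wf M c y
      linarith
    rw [closure_Ico hc0.ne] at hcl
    exact hcl hx
  refine ⟨fun x hx => ?_, A, B, fun x hx => ?_⟩
  · rcases lt_or_ge x c with h | h
    · have := (caseB hM hc hx.1 h).1
      have := Wf_nonneg hM1 c x
      linarith
    · have := A x ⟨h, hx.2⟩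
      linarith
  · rcases le_or_gt x c with h | h
    · have := B x ⟨hx.1, h⟩
      linarith
    · have := (caseA hM hc h hx.2).1
      have := Wf_nonneg hM1 c x
      linarith

/-! ### The class of test functions -/

/-- a combination of `U_k`, `k < M` -/
def Tri (M : ℕ) (g : ℝ → ℝ) : Prop := ∃ b : ℕ → ℝ, ∀ x, g x = ∑ k ∈ range M, b k * U k x

theorem Tri.add {g h : ℝ → ℝ} (hg : Tri M g) (hh : Tri M h) : Tri M fun x => g x + h x := by
  obtain ⟨b, hb⟩ := hg
  obtain ⟨b', hb'⟩ := hh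
  refine ⟨fun k => b k + b' k, fun x => ?_⟩
  beta_reduce
  rw [hb, hb', ← sum_add_distrib]
  exact sum_congr rfl fun k _ => by ring

theorem Tri.smul {g : ℝ → ℝ} (r : ℝ) (hg : Tri M g) : Tri M fun x => r * g x := by
  obtain ⟨b, hb⟩ := hg
  refine ⟨fun k => r * b k, fun x => ?_⟩
  beta_reduce
  rw [hb, mul_sum]
  exact sum_congr rfl fun k _ => by ring

theorem Tri.zero : Tri M fun _ => 0 := ⟨fun _ => 0, fun x => by simp⟩

theorem Tri.sum {ι : Type*} (s : Finset ι) {g : ι → ℝ → ℝ} (hg : ∀ i ∈ s, Tri M (g i)) :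
    Tri M fun x => ∑ i ∈ s, g i x := by
  classical
  induction s using Finset.induction_on with
  | empty => simpa using Tri.zero (M := M)
  | insert a s ha ih =>
    simp only [sum_insert ha]
    exact (hg a (mem_insert_self a s)).add (ih fun i hi => hg i (mem_insert_of_mem hi))

theorem Tri.congr {g h : ℝ → ℝ} (hg : Tri M g) (e : ∀ x, h x = g x) : Tri M h := by
  obtain ⟨b, hb⟩ := hg
  exact ⟨b, fun x => by rw [e, hb]⟩

theorem Tri.basis {k : ℕ} (hk : k < M) : Tri M (U k) := by
  classical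
  refine ⟨fun j => if j = k then 1 else 0, fun x => ?_⟩
  simp only [ite_mul, one_mul, zero_mul]
  rw [sum_ite_eq' (range M) k, if_pos (mem_range.2 hk)]

theorem Tri.const (hM : 0 < M) (r : ℝ) : Tri M fun _ => r :=
  ((Tri.basis hM).smul r).congr fun x => by rw [U_zero, mul_one]

theorem U_sub (k : ℕ) (x : ℝ) : U (k + 2) x - U k x = 2 * cos ((k + 2 : ℕ) * x) := by
  induction k using Nat.twoStepInduction with
  | zero =>
    rw [U_rec, U_zero]
    simp only [zero_add, U_one]
    push_cast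
    rw [cos_two_mul]
    ring
  | one =>
    have h3 : U 3 x = 2 * cos x * U 2 x - U 1 x := U_rec 1 x
    have h2 : U 2 x = 2 * cos x * U 1 x - U 0 x := U_rec 0 x
    show U 3 x - U 1 x = _
    rw [h3, h2, U_one, U_zero]
    have : ((1 + 2 : ℕ) : ℝ) * x = 3 * x := by push_cast; ring
    rw [this, cos_three_mul]
    ring
  | more n h1 h2 =>
    have e1 : U (n + 2 + 2) x = 2 * cos x * U (n + 1 + 2) x - U (n + 2) x := U_rec (n + 2) x
    have e2 : U (n + 2) x = 2 * cos x * U (n + 1) x - U n x := U_rec n x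
    have e3 : U (n + 2 + 2) x - U (n + 2) x = 2 * cos x * (U (n + 1 + 2) x - U (n + 1) x) -
        (U (n + 2) x - U n x) := by
      rw [e1]
      nth_rewrite 2 [e2]
      ring
    show U (n + 2 + 2) x - U (n + 2) x = _
    rw [e3, h1, h2]
    have a1 : ((n + 2 + 2 : ℕ) : ℝ) * x = ((n + 1 + 2 : ℕ) : ℝ) * x + x := by push_cast; ring
    have a2 : ((n + 2 : ℕ) : ℝ) * x = ((n + 1 + 2 : ℕ) : ℝ) * x - x := by push_cast; ring
    rw [a1, a2, cos_add, cos_sub]
    ring

theorem Tri.cosine {k : ℕ} (hk : k < M) : Tri M fun x => Real.cos (k * x) := by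
  match k, hk with
  | 0, hk => exact (Tri.const hk 1).congr fun x => by simp
  | 1, hk => exact ((Tri.basis hk).smul (1 / 2)).congr fun x => by rw [U_one]; simp
  | k + 2, hk =>
    exact (((Tri.basis hk).add ((Tri.basis (show k < M by omega)).smul (-1))).smul (1 / 2)).congr fun x => by
      have := U_sub k x
      linarith

end Run7.h911.VS
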