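import Pool.Agent.Run7.h911.VS3

/-!
# One-sided approximation of the intervals of angles: means and general intervals
-/

set_option autoImplicit false

namespace Run7.h911.VS

open Real Finset Set
open Run7.h911.ST (U U_zero U_one U_rec U_cont Lam Lam_U Lam_add Lam_mul mu ind ind_nonneg ind_le_one)

variable {M l L : ℕ} {c x : ℝ}

theorem Tri.cont {g : ℝ → ℝ} (hg : Tri M g) : Continuous g := by
  obtain ⟨b, hb⟩ := hg
  have : g = fun x => ∑ k ∈ range M, b k * U k x := funext hb
  rw [this]
  exact continuous_finsetSum _ fun k _ => continuous_const.mul (U_cont k)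

theorem Lam_sum {ι : Type*} (s : Finset ι) {f : ι → ℝ → ℝ} (hf : ∀ i ∈ s, Continuous (f i)) :
    Lam (fun x => ∑ i ∈ s, f i x) = ∑ i ∈ s, Lam (f i) := by
  classical
  induction s using Finset.induction_on with
  | empty => simp [Lam]
  | insert a s ha ih =>
    simp only [sum_insert ha]
    rw [Lam_add (hf a (mem_insert_self a s))
      (continuous_finsetSum _ fun i hi => hf i (mem_insert_of_mem hi)),
      ih fun i hi => hf i (mem_insert_of_mem hi)]

theorem Lam_const (r : ℝ) : Lam (fun _ => r) = r := by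
  have h := Lam_mul r (U 0)
  have e : (fun θ => r * U 0 θ) = fun _ => r := by
    funext θ
    rw [U_zero, mul_one]
  rw [e, Lam_U, if_pos rfl, mul_one] at h
  exact h

theorem Lam_cos (k : ℕ) : Lam (fun x => Real.cos (k * x)) = (if k = 0 then 1 else 0) +
    (if k = 2 then -(1 / 2) else 0) := by
  match k with
  | 0 =>
    have : (fun x : ℝ => Real.cos (((0 : ℕ) : ℝ) * x)) = fun _ => 1 := by
      funext x
      simp
    rw [this, Lam_const]
    simp
  | 1 =>
    have : (fun x : ℝ => Real.cos (((1 : ℕ) : ℝ) * x)) = fun x => (1 / 2) * U 1 x := by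
      funext x
      rw [U_one]
      simp
    rw [this, Lam_mul, Lam_U]
    simp
  | k + 2 =>
    have : (fun x : ℝ => Real.cos (((k + 2 : ℕ) : ℝ) * x)) =
        fun x => (1 / 2) * U (k + 2) x + (-(1 / 2)) * U k x := by
      funext x
      have := U_sub k x
      linarith
    have h1 := U_cont (k + 2)
    have h2 := U_cont k
    rw [this, Lam_add (h := fun x => (1 / 2) * U (k + 2) x) (h' := fun x => (-(1 / 2)) * U k x)
      (by fun_prop) (by fun_prop), Lam_mul, Lam_mul, Lam_U, Lam_U]
    rcases Nat.eq_zero_or_pos k with rfl | hk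
    · simp
    · have h1 : k ≠ 0 := by omega
      simp [h1]

theorem pair_eq (M : ℕ) (c x : ℝ) : Fe M (x + c) + Fe M (x - c) =
    ∑ k ∈ range M, (4 * ((M : ℝ) - k) * Real.cos (k * c) / (M : ℝ) ^ 2) * Real.cos (k * x) +
      -(2 * M / (M : ℝ) ^ 2) := by
  unfold Fe
  rw [← add_div]
  have e : 2 * ∑ k ∈ range M, ((M : ℝ) - k) * Real.cos (k * (x + c)) - M +
      (2 * ∑ k ∈ range M, ((M : ℝ) - k) * Real.cos (k * (x - c)) - M) =
      ∑ k ∈ range M, 4 * ((M : ℝ) - k) * Real.cos (k * c) * Real.cos (k * x) - 2 * M := by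
    have : ∑ k ∈ range M, 4 * ((M : ℝ) - k) * Real.cos (k * c) * Real.cos (k * x) =
        2 * ∑ k ∈ range M, ((M : ℝ) - k) * Real.cos (k * (x + c)) +
        2 * ∑ k ∈ range M, ((M : ℝ) - k) * Real.cos (k * (x - c)) := by
      rw [mul_sum, mul_sum, ← sum_add_distrib]
      refine sum_congr rfl fun k _ => ?_
      have a1 : (k : ℝ) * (x + c) = k * x + k * c := by ring
      have a2 : (k : ℝ) * (x - c) = k * x - k * c := by ring
      rw [a1, a2, Real.cos_add, Real.cos_sub]
      ring
    linarith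
  rw [e, sub_div, sum_div, sub_eq_add_neg]
  congr 1
  exact sum_congr rfl fun k _ => by ring

theorem pair_tri (hM : 0 < M) (c : ℝ) : Tri M fun x => Fe M (x + c) + Fe M (x - c) := by
  have h1 : Tri M fun x => ∑ k ∈ range M,
      (4 * ((M : ℝ) - k) * Real.cos (k * c) / (M : ℝ) ^ 2) * Real.cos (k * x) :=
    Tri.sum _ fun k hk => (Tri.cosine (mem_range.1 hk)).smul _
  exact (h1.add (Tri.const hM _)).congr fun x => pair_eq M c x

theorem Wf_tri (hM : 0 < M) (c : ℝ) : Tri M (Wf M c) :=
  ((pair_tri hM c).smul (1 / 2)).congr fun x => by unfold Wf; ring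

theorem Lam_W (hM : 0 < M) (c : ℝ) : Lam (fun x => 2 * Wf M c x) ≤ 4 / M := by
  have hM0 : (0 : ℝ) < M := by exact_mod_cast hM
  have e : (fun x => 2 * Wf M c x) = fun x =>
      ∑ k ∈ range M, (4 * ((M : ℝ) - k) * Real.cos (k * c) / (M : ℝ) ^ 2) * Real.cos (k * x) +
      -(2 * M / (M : ℝ) ^ 2) := by
    funext x
    rw [← pair_eq]
    unfold Wf
    ring
  have hc : ∀ k : ℕ, Continuous fun x : ℝ =>
      (4 * ((M : ℝ) - k) * Real.cos (k * c) / (M : ℝ) ^ 2) * Real.cos (k * x) := fun k => by fun_prop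
  rw [e, Lam_add (continuous_finsetSum _ fun k _ => hc k) continuous_const, Lam_const,
    Lam_sum _ fun k _ => hc k]
  simp only [Lam_mul, Lam_cos, mul_add]
  rw [sum_add_distrib]
  have s1 : ∑ k ∈ range M, 4 * ((M : ℝ) - k) * Real.cos (k * c) / (M : ℝ) ^ 2 *
      (if k = 0 then (1 : ℝ) else 0) = 4 / (M : ℝ) := by
    rw [sum_eq_single 0]
    · simp
      field_simp
    · intro b _ hb
      simp [hb]
    · intro h
      exact absurd (mem_range.2 hM) h
  have s2 : ∑ k ∈ range M, 4 * ((M : ℝ) - k) * Real.cos (k * c) / (M : ℝ) ^ 2 *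
      (if k = 2 then -(1 / 2 : ℝ) else 0) ≤ 2 / (M : ℝ) := by
    by_cases h2 : 2 < M
    · rw [sum_eq_single 2]
      · rw [if_pos rfl]
        have hM2 : (2 : ℝ) < M := by exact_mod_cast h2
        have hcos := Real.neg_one_le_cos (((2 : ℕ) : ℝ) * c)
        have : 4 * ((M : ℝ) - (2 : ℕ)) * Real.cos (((2 : ℕ) : ℝ) * c) / (M : ℝ) ^ 2 * (-(1 / 2)) =
            (2 * ((M : ℝ) - 2) * (-Real.cos (((2 : ℕ) : ℝ) * c))) / (M : ℝ) ^ 2 := by
          push_cast
          ring
        rw [this, div_le_div_iff₀ (by positivity) hM0]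
        have h3 : 2 * ((M : ℝ) - 2) * (-Real.cos (((2 : ℕ) : ℝ) * c)) ≤ 2 * M := by
          have : ((M : ℝ) - 2) * (-Real.cos (((2 : ℕ) : ℝ) * c)) ≤ ((M : ℝ) - 2) * 1 :=
            mul_le_mul_of_nonneg_left (by linarith) (by linarith)
          linarith
        calc 2 * ((M : ℝ) - 2) * (-Real.cos (((2 : ℕ) : ℝ) * c)) * M ≤ 2 * M * M :=
              mul_le_mul_of_nonneg_right h3 hM0.le
          _ = 2 * (M : ℝ) ^ 2 := by ring
      · intro b _ hb
        simp [hb]
      · intro h
        exact absurd (mem_range.2 h2) h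
    · have : ∑ k ∈ range M, 4 * ((M : ℝ) - k) * Real.cos (k * c) / (M : ℝ) ^ 2 *
          (if k = 2 then -(1 / 2 : ℝ) else 0) = 0 := by
        refine sum_eq_zero fun k hk => ?_
        have : k ≠ 2 := by have := mem_range.1 hk; omega
        simp [this]
      rw [this]
      positivity
  rw [s1]
  have s3 : 2 * (M : ℝ) / (M : ℝ) ^ 2 = 2 / M := by field_simp
  rw [s3]
  have s4 : 4 / (M : ℝ) = 2 / M + 2 / M := by ring
  linarith

theorem Ef_tri (hM : 0 < M) (hc : c = (l + 1) * (π / M)) : Tri M (Ef M l c) := by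
  have hM0 : (M : ℝ) ≠ 0 := by exact_mod_cast hM.ne'
  -- the sum over the inner nodes is even
  have hrefl : ∀ x, ∑ k ∈ range l, Fe M (x - c + (k + 1) * (2 * π / M)) =
      ∑ k ∈ range l, Fe M (x + c - (k + 1) * (2 * π / M)) := by
    intro x
    rw [← sum_range_reflect]
    refine sum_congr rfl fun k hk => ?_
    congr 1
    have hk' : k < l := mem_range.1 hk
    have : ((l - 1 - k : ℕ) : ℝ) = (l : ℝ) - 1 - k := by
      rw [Nat.cast_sub (by omega), Nat.cast_sub (by omega)]
      push_cast
      ring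
    rw [this, hc]
    field_simp
    ring
  have h1 : Tri M fun x => ∑ k ∈ range l, Fe M (x - c + (k + 1) * (2 * π / M)) := by
    have : Tri M fun x => ∑ k ∈ range l, (1 / 2) * (Fe M (x + (c - (k + 1) * (2 * π / M))) +
        Fe M (x - (c - (k + 1) * (2 * π / M)))) :=
      Tri.sum _ fun k _ => (pair_tri hM _).smul _
    refine this.congr fun x => ?_
    rw [← mul_sum, sum_add_distrib]
    have a1 : ∑ k ∈ range l, Fe M (x + (c - (k + 1) * (2 * π / M))) =
        ∑ k ∈ range l, Fe M (x - c + (k + 1) * (2 * π / M)) := by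
      rw [hrefl]
      exact sum_congr rfl fun k _ => by congr 1; ring
    have a2 : ∑ k ∈ range l, Fe M (x - (c - (k + 1) * (2 * π / M))) =
        ∑ k ∈ range l, Fe M (x - c + (k + 1) * (2 * π / M)) :=
      sum_congr rfl fun k _ => by congr 1; ring
    rw [a1, a2]
    ring
  have h2 : Tri M fun x => Dr M (x + c) - Dr M (x - c) := by
    have : Tri M fun x => ∑ k ∈ range M, (2 * Real.sin (k * c)) * Real.cos (k * x) :=
      Tri.sum _ fun k hk => (Tri.cosine (mem_range.1 hk)).smul _
    refine this.congr fun x => ?_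
    unfold Dr
    rw [← sum_sub_distrib]
    refine sum_congr rfl fun k _ => ?_
    have a1 : (k : ℝ) * (x + c) = k * x + k * c := by ring
    have a2 : (k : ℝ) * (x - c) = k * x - k * c := by ring
    rw [a1, a2, Real.sin_add, Real.sin_sub]
    ring
  exact ((h1.add (Wf_tri hM c)).add (h2.smul (1 / (π * M)))).congr fun x => rfl

theorem mu_add' {a b c : ℝ} : mu a b + mu b c = mu a c := by
  unfold mu
  rw [← mul_add, intervalIntegral.integral_add_adjacent_intervals]
  · exact Continuous.intervalIntegrable (by fun_prop) _ _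
  · exact Continuous.intervalIntegrable (by fun_prop) _ _

theorem mu_le {a b : ℝ} (hab : a ≤ b) : mu a b ≤ 2 / π * (b - a) := by
  unfold mu
  have hp := pi_pos
  refine mul_le_mul_of_nonneg_left ?_ (by positivity)
  have : ∫ t in a..b, Real.sin t ^ 2 ≤ ∫ _ in a..b, (1 : ℝ) := by
    refine intervalIntegral.integral_mono_on hab ?_ ?_ fun t _ => Real.sin_sq_le_one t
    · exact Continuous.intervalIntegrable (by fun_prop) _ _
    · exact Continuous.intervalIntegrable (by fun_prop) _ _
  simpa using this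

theorem mu_nonneg' {a b : ℝ} (hab : a ≤ b) : 0 ≤ mu a b := by
  unfold mu
  have hp := Real.pi_pos
  have : 0 ≤ ∫ t in a..b, Real.sin t ^ 2 := intervalIntegral.integral_nonneg hab fun t _ => sq_nonneg _
  positivity

theorem Lam_le_mu {g : ℝ → ℝ} (hg : Continuous g) (h0 : 0 ≤ c) (hcπ : c ≤ π)
    (h1 : ∀ x ∈ Icc 0 π, g x ≤ 1) (h2 : ∀ x ∈ Icc c π, g x ≤ 0) : Lam g ≤ mu 0 c := by
  unfold Lam mu
  have hp := pi_pos
  refine mul_le_mul_of_nonneg_left ?_ (by positivity)
  have hint : ∀ a b : ℝ, IntervalIntegrable (fun t => g t * Real.sin t ^ 2) MeasureTheory.volume a b :=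
    fun a b => Continuous.intervalIntegrable (by fun_prop) _ _
  rw [← intervalIntegral.integral_add_adjacent_intervals (hint 0 c) (hint c π)]
  have i1 : ∫ t in (0)..c, g t * Real.sin t ^ 2 ≤ ∫ t in (0)..c, Real.sin t ^ 2 := by
    refine intervalIntegral.integral_mono_on h0 (hint _ _) (Continuous.intervalIntegrable (by fun_prop) _ _)
      fun t ht => ?_
    have := mul_le_mul_of_nonneg_right (h1 t ⟨ht.1, ht.2.trans hcπ⟩) (sq_nonneg (Real.sin t))
    linarith
  have i2 : ∫ t in c..π, g t * Real.sin t ^ 2 ≤ ∫ _ in c..π, (0 : ℝ) := by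
    refine intervalIntegral.integral_mono_on hcπ (hint _ _) (Continuous.intervalIntegrable (by fun_prop) _ _)
      fun t ht => ?_
    exact mul_nonpos_of_nonpos_of_nonneg (h2 t ht) (sq_nonneg _)
  simp only [intervalIntegral.integral_zero] at i2
  linarith

theorem mu_le_Lam {g : ℝ → ℝ} (hg : Continuous g) (h0 : 0 ≤ c) (hcπ : c ≤ π)
    (h1 : ∀ x ∈ Icc 0 c, 1 ≤ g x) (h2 : ∀ x ∈ Icc 0 π, 0 ≤ g x) : mu 0 c ≤ Lam g := by
  unfold Lam mu
  have hp := pi_pos
  refine mul_le_mul_of_nonneg_left ?_ (by positivity)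
  have hint : ∀ a b : ℝ, IntervalIntegrable (fun t => g t * Real.sin t ^ 2) MeasureTheory.volume a b :=
    fun a b => Continuous.intervalIntegrable (by fun_prop) _ _
  rw [← intervalIntegral.integral_add_adjacent_intervals (hint 0 c) (hint c π)]
  have i1 : ∫ t in (0)..c, Real.sin t ^ 2 ≤ ∫ t in (0)..c, g t * Real.sin t ^ 2 := by
    refine intervalIntegral.integral_mono_on h0 (Continuous.intervalIntegrable (by fun_prop) _ _) (hint _ _)
      fun t ht => ?_
    have := mul_le_mul_of_nonneg_right (h1 t ht) (sq_nonneg (Real.sin t))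
    linarith
  have i2 : 0 ≤ ∫ t in c..π, g t * Real.sin t ^ 2 :=
    intervalIntegral.integral_nonneg hcπ fun t ht =>
      mul_nonneg (h2 t ⟨h0.trans ht.1, ht.2⟩) (sq_nonneg _)
  linarith

/-- one-sided approximations at the node `j π / M` -/
theorem node (hM : 0 < M) {j : ℕ} (hj : j ≤ M) : ∃ up lo : ℝ → ℝ, Tri M up ∧ Tri M lo ∧
    (∀ x ∈ Icc 0 π, 0 ≤ up x) ∧ (∀ x ∈ Icc 0 π, x ≤ j * (π / M) → 1 ≤ up x) ∧
    (∀ x ∈ Icc 0 π, lo x ≤ 1) ∧ (∀ x ∈ Icc 0 π, j * (π / M) ≤ x → lo x ≤ 0) ∧
    Lam up ≤ mu 0 (j * (π / M)) + 4 / M ∧ mu 0 (j * (π / M)) - 4 / M ≤ Lam lo := by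
  have hM0 : (0 : ℝ) < M := by exact_mod_cast hM
  have hp := pi_pos
  rcases Nat.eq_zero_or_pos j with rfl | hj0
  · refine ⟨fun x => 2 * Wf M 0 x, fun _ => 0, (Wf_tri hM 0).smul 2, Tri.zero, fun x _ => ?_,
      fun x hx hx' => ?_, fun x _ => zero_le_one, fun x _ _ => le_rfl, ?_, ?_⟩
    · have := Wf_nonneg hM 0 x
      linarith
    · have hx0 : x = 0 := by
        have := hx.1
        simp at hx'
        exact le_antisymm hx' this
      subst hx0
      have hF : Fe M 0 = 1 := by
        have h1 := node_sum hM 0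
        have h2 : ∀ k ∈ range M, k ≠ 0 → Fe M (0 + k * (2 * π / M)) = 0 := by
          intro k hk hk0
          have hkM : (k : ℝ) < M := by exact_mod_cast mem_range.1 hk
          have hk1 : (0 : ℝ) < k := by exact_mod_cast Nat.pos_of_ne_zero hk0
          have hs : Real.sin (k * (π / M)) ≠ 0 := by
            refine (Real.sin_pos_of_pos_of_lt_pi (by positivity) ?_).ne'
            rw [← mul_div_assoc, div_lt_iff₀ hM0]
            nlinarith
          have := fejer' hM hs
          have e : 0 + (k : ℝ) * (2 * π / M) = 2 * (k * (π / M)) := by ring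
          rw [e, this]
          have e2 : (M : ℝ) * (k * (π / M)) = k * π := by field_simp
          rw [e2, Real.sin_nat_mul_pi]
          simp
        rw [sum_eq_single 0 h2 (fun h => absurd (mem_range.2 hM) h)] at h1
        simpa using h1
      unfold Wf
      simp only [add_zero, sub_zero]
      rw [hF]
      norm_num
    · have := Lam_W hM 0
      simp only [Nat.cast_zero, zero_mul]
      have h0 : mu 0 0 = 0 := by simp [mu]
      rw [h0, zero_add]
      exact this
    · simp only [Nat.cast_zero, zero_mul]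
      have h0 : mu 0 0 = 0 := by simp [mu]
      rw [h0, Lam_const]
      have : 0 < 4 / (M : ℝ) := by positivity
      linarith
  · rcases Nat.lt_or_ge j M with hjM | hjM
    · obtain ⟨l, rfl⟩ : ∃ l, j = l + 1 := ⟨j - 1, by omega⟩
      obtain ⟨L, hL⟩ : ∃ L, M = l + 1 + (L + 1) := ⟨M - (l + 1) - 1, by omega⟩
      set c : ℝ := (l + 1) * (π / M) with hc
      have hc' : ((l + 1 : ℕ) : ℝ) * (π / M) = c := by rw [hc]; push_cast; ring
      have hc0 : 0 ≤ c := by rw [hc]; positivity
      have hcπ : c ≤ π := by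
        have : ((l + 1 : ℕ) : ℝ) ≤ M := by exact_mod_cast hjM.le
        rw [← hc', ← mul_div_assoc, div_le_iff₀ hM0]
        nlinarith
      rw [hc']
      obtain ⟨n1, n2, n3, n4⟩ := node_est hL hc
      have hE := Ef_tri hM hc
      have hW := Wf_tri hM c
      have hlo : Tri M fun x => Ef M l c x - Wf M c x :=
        (hE.add (hW.smul (-1))).congr fun x => by ring
      have hup : Tri M fun x => Ef M l c x + Wf M c x := hE.add hW
      have k1 := Lam_le_mu hlo.cont hc0 hcπ n1 n2
      have k2 := mu_le_Lam hup.cont hc0 hcπ n3 n4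
      have k3 : Lam (fun x => Ef M l c x + Wf M c x) =
          Lam (fun x => Ef M l c x - Wf M c x) + Lam (fun x => 2 * Wf M c x) := by
        rw [← Lam_add hlo.cont (hW.smul 2).cont]
        congr 1
        funext x
        ring
      have k4 := Lam_W hM c
      refine ⟨_, _, hup, hlo, n4, fun x hx hx' => n3 x ⟨hx.1, hx'⟩, n1,
        fun x hx hx' => n2 x ⟨hx', hx.2⟩, ?_, ?_⟩
      · linarith
      · linarith
    · have hjM' : j = M := le_antisymm hj hjM
      subst hjM'
      have e : (j : ℝ) * (π / j) = π := by field_simp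
      rw [e]
      have hmu : mu 0 π = 1 := by
        unfold mu
        rw [integral_sin_sq]
        simp
      rw [hmu]
      refine ⟨fun _ => 1, fun x => 1 - 2 * Wf j π x, Tri.const hM 1,
        ((Tri.const hM 1).add ((Wf_tri hM π).smul (-2))).congr fun x => by ring,
        fun x _ => zero_le_one, fun x _ _ => le_rfl, fun x _ => ?_, fun x hx hx' => ?_, ?_, ?_⟩
      · have := Wf_nonneg hM π x
        show 1 - 2 * Wf j π x ≤ 1
        linarith
      · have hxπ : x = π := le_antisymm hx.2 hx'
        subst hxπ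
        have hF : Fe j 0 = 1 := by
          have h1 := node_sum hM 0
          have h2 : ∀ k ∈ range j, k ≠ 0 → Fe j (0 + k * (2 * π / j)) = 0 := by
            intro k hk hk0
            have hkM : (k : ℝ) < j := by exact_mod_cast mem_range.1 hk
            have hk1 : (0 : ℝ) < k := by exact_mod_cast Nat.pos_of_ne_zero hk0
            have hs : Real.sin (k * (π / j)) ≠ 0 := by
              refine (Real.sin_pos_of_pos_of_lt_pi (by positivity) ?_).ne'
              rw [← mul_div_assoc, div_lt_iff₀ hM0]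
              nlinarith
            have := fejer' hM hs
            have e : 0 + (k : ℝ) * (2 * π / j) = 2 * (k * (π / j)) := by ring
            rw [e, this]
            have e2 : (j : ℝ) * (k * (π / j)) = k * π := by field_simp
            rw [e2, Real.sin_nat_mul_pi]
            simp
          rw [sum_eq_single 0 h2 (fun h => absurd (mem_range.2 hM) h)] at h1
          simpa using h1
        have hF2 : Fe j (π + π) = 1 := by
          have := Fe_per j 0
          rw [hF] at this
          rw [← this]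
          congr 1
          ring
        show 1 - 2 * Wf j π π ≤ 0
        unfold Wf
        rw [sub_self, hF, hF2]
        norm_num
      · rw [Lam_const]
        have : 0 < 4 / (j : ℝ) := by positivity
        linarith
      · have : Lam (fun x => 1 - 2 * Wf j π x) = 1 + (-1) * Lam (fun x => 2 * Wf j π x) := by
          have hW := Wf_cont j π
          have h1 := Lam_add (h := fun _ => (1 : ℝ)) (h' := fun x => (-1) * (2 * Wf j π x))
            (by fun_prop) (by fun_prop)
          rw [Lam_const, Lam_mul] at h1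
          rw [← h1]
          congr 1
          funext x
          ring
        rw [this]
        have := Lam_W hM π
        linarith

/-- **One-sided approximation of an interval.** -/
theorem interval (hM : 0 < M) {a b : ℝ} (h0 : 0 ≤ a) (hab : a ≤ b) (hb : b ≤ π) :
    ∃ gp gm : ℝ → ℝ, Tri M gp ∧ Tri M gm ∧ (∀ x ∈ Icc 0 π, ind a b x ≤ gp x) ∧
      (∀ x ∈ Icc 0 π, gm x ≤ ind a b x) ∧ Lam gp ≤ mu a b + 12 / M ∧ mu a b - 12 / M ≤ Lam gm := by
  have hM0 : (0 : ℝ) < M := by exact_mod_cast hM
  have hp := pi_pos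
  have hη : 0 < π / M := by positivity
  -- the nodes
  have hceil : ∀ t : ℝ, 0 ≤ t → t ≤ π → ∃ j : ℕ, j ≤ M ∧ t ≤ j * (π / M) ∧ j * (π / M) ≤ t + π / M := by
    intro t ht htπ
    refine ⟨⌈t / (π / M)⌉₊, ?_, ?_, ?_⟩
    · refine Nat.ceil_le.2 ?_
      rw [div_le_iff₀ hη]
      have : (M : ℝ) * (π / M) = π := by field_simp
      rw [this]
      exact htπ
    · have := Nat.le_ceil (t / (π / M))
      rwa [div_le_iff₀ hη] at this
    · have := (Nat.ceil_lt_add_one (a := t / (π / M)) (by positivity)).le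
      have h := mul_le_mul_of_nonneg_right this hη.le
      have e : (t / (π / M) + 1) * (π / M) = t + π / M := by
        rw [add_mul, div_mul_cancel₀ _ hη.ne', one_mul]
      rwa [e] at h
  have hfloor : ∀ t : ℝ, 0 ≤ t → t ≤ π → ∃ j : ℕ, j ≤ M ∧ j * (π / M) ≤ t ∧ t ≤ j * (π / M) + π / M := by
    intro t ht htπ
    refine ⟨⌊t / (π / M)⌋₊, ?_, ?_, ?_⟩
    · have h1 : ⌊t / (π / M)⌋₊ ≤ ⌊(M : ℝ)⌋₊ := by
        refine Nat.floor_le_floor ?_
        rw [div_le_iff₀ hη]
        have : (M : ℝ) * (π / M) = π := by field_simp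
        rw [this]
        exact htπ
      rwa [Nat.floor_natCast] at h1
    · have := Nat.floor_le (a := t / (π / M)) (by positivity)
      rwa [le_div_iff₀ hη] at this
    · have := (Nat.lt_floor_add_one (t / (π / M))).le
      have h := mul_le_mul_of_nonneg_right this hη.le
      rw [div_mul_cancel₀ _ hη.ne'] at h
      linarith
  have hb0 : 0 ≤ b := h0.trans hab
  have haπ : a ≤ π := hab.trans hb
  obtain ⟨jb, jb1, jb2, jb3⟩ := hceil b hb0 hb
  obtain ⟨ja, ja1, ja2, ja3⟩ := hfloor a h0 haπ
  obtain ⟨kb, kb1, kb2, kb3⟩ := hfloor b hb0 hb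
  obtain ⟨ka, ka1, ka2, ka3⟩ := hceil a h0 haπ
  obtain ⟨upb, _, upbT, _, upb0, upb1, _, _, upbL, _⟩ := node hM jb1
  obtain ⟨_, loa, _, loaT, _, _, loa1, loa0, _, loaL⟩ := node hM ja1
  obtain ⟨_, lob, _, lobT, _, _, lob1, lob0, _, lobL⟩ := node hM kb1
  obtain ⟨upa, _, upaT, _, upa0, upa1, _, _, upaL, _⟩ := node hM ka1
  have small : ∀ s t : ℝ, s ≤ t → t ≤ s + π / M → mu s t ≤ 2 / M := by
    intro s t hst hts
    refine (mu_le hst).trans ?_
    have : 2 / π * (t - s) ≤ 2 / π * (π / M) := mul_le_mul_of_nonneg_left (by linarith) (by positivity)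
    refine this.trans (le_of_eq ?_)
    field_simp
  have smallpos : ∀ s t : ℝ, s ≤ t → 0 ≤ mu s t := fun s t h => mu_nonneg' h
  refine ⟨fun x => upb x + (-1) * loa x, fun x => lob x + (-1) * upa x, upbT.add (loaT.smul (-1)),
    lobT.add (upaT.smul (-1)), fun x hx => ?_, fun x hx => ?_, ?_, ?_⟩
  · show ind a b x ≤ upb x + (-1) * loa x
    have hup := upb0 x hx
    have hlo := loa1 x hx
    by_cases hxb : x ≤ jb * (π / M)
    · have h1 := upb1 x hx hxb
      by_cases hxa : ja * (π / M) ≤ x
      · have h2 := loa0 x hx hxa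
        have := ind_le_one a b x
        linarith
      · have : ind a b x = 0 := by
          unfold ind
          rw [if_neg]
          intro h
          exact hxa (ja2.trans h.1)
        rw [this]
        linarith
    · have : ind a b x = 0 := by
        unfold ind
        rw [if_neg]
        intro h
        exact hxb (h.2.trans jb2)
      have h2 := loa0 x hx (by
        push Not at hxb
        have : ja * (π / M) ≤ jb * (π / M) := ja2.trans (hab.trans jb2)
        linarith)
      rw [this]
      linarith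
  · show lob x + (-1) * upa x ≤ ind a b x
    have hup := upa0 x hx
    have hlo := lob1 x hx
    have hi := ind_nonneg a b x
    by_cases hxb : kb * (π / M) ≤ x
    · have h1 := lob0 x hx hxb
      linarith
    · push Not at hxb
      by_cases hxa : x ≤ ka * (π / M)
      · have h2 := upa1 x hx hxa
        linarith
      · push Not at hxa
        have : ind a b x = 1 := by
          unfold ind
          rw [if_pos]
          exact ⟨by linarith, by linarith⟩
        rw [this]
        linarith
  · rw [Lam_add upbT.cont (loaT.smul (-1)).cont, Lam_mul]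
    have e1 : mu 0 (jb * (π / M)) = mu 0 (ja * (π / M)) + mu (ja * (π / M)) a + mu a b +
        mu b (jb * (π / M)) := by
      rw [mu_add', mu_add', mu_add']
    have s1 := small _ _ ja2 ja3
    have s2 := small _ _ jb2 jb3
    have e2 : (12 : ℝ) / M = 4 / M + 4 / M + 2 / M + 2 / M := by ring
    linarith
  · rw [Lam_add lobT.cont (upaT.smul (-1)).cont, Lam_mul]
    have e1 : mu 0 a + mu a b = mu 0 (kb * (π / M)) + mu (kb * (π / M)) b := by
      rw [mu_add', mu_add']
    have e3 : mu 0 (ka * (π / M)) = mu 0 a + mu a (ka * (π / M)) := by rw [mu_add']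
    have s1 := small _ _ kb2 kb3
    have s2 := small _ _ ka2 ka3
    have e2 : (12 : ℝ) / M = 4 / M + 4 / M + 2 / M + 2 / M := by ring
    linarith

end Run7.h911.VS
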